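import Pool.Agent.Work.MP_d3fa71_gt.Mut.DefsH
import Pool.Agent.Work.MP_d3fa71_gt.Mut.Main

/-! Bundle of small proof modules (one section per former module). -/

section

/-!
# MP_d3fa71_gt, project Mut, block H: statements
-/

open Polynomial

namespace AJH

/-! ## Tame functions -/

def TameMul : Prop :=
  ∀ (d : ℕ) (f g : (Fin d → ℤ) → K), Tame f → Tame g → Tame (fun x => f x * g x)

def TamePull : Prop :=
  ∀ (d d' : ℕ) (A : Fin d → Fin d' → ℤ) (b : Fin d → ℤ) (f : (Fin d → ℤ) → K), Tame f →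
    Tame (fun x => f (aff A b x))

/-- Quadratic exponents (and constants). -/
def TameQuad : Prop :=
  ∀ (d : ℕ) (A : Fin d → Fin d → ℤ) (b : Fin d → ℤ) (c : K),
    Tame (fun x : Fin d → ℤ => c * t ^ (∑ i, ∑ j, A i j * x i * x j + ∑ i, b i * x i))

/-- Powers of a unit. -/
def TamePow : Prop :=
  ∀ (u : K), u ≠ 0 → Tame (fun x : Fin 1 → ℤ => u ^ (x 0))

def TamePq : Prop := Tame (fun x : Fin 1 → ℤ => pq (x 0))

/-! ## Sums of tame functions -/

def HSPull : Prop :=
  ∀ (d d' : ℕ) (A : Fin d → Fin d' → ℤ) (b : Fin d → ℤ) (f : (Fin d → ℤ) → K), HS d f →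
    HS d' (fun x => f (aff A b x))

def HSMul : Prop :=
  ∀ (d : ℕ) (f g : (Fin d → ℤ) → K), HS d f → HS d g → HS d (fun x => f x * g x)

/-- The indicator function of `x ≥ 0`. -/
def HSInd : Prop := HS 1 (fun x => if 0 ≤ x 0 then 1 else 0)

/-- The products `pr`. -/
def HSPr : Prop := HS 2 (fun x => pr (x 0) (x 1))

/-- The `q`-binomial theorem `∏_{l < k} (1 - x q^{-l})`, written without numerators. -/
def QBin : Prop :=
  (∀ a : ℤ, 0 ≤ a → ∑ l ∈ Finset.range (a.toNat + 1),
    (-1 : K) ^ l * t ^ (2 * (l : ℤ) * (l + 1)) * pq l * pq (a - l) = 1) ∧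
  (∀ (x : ℤ) (m : ℕ), pr x m * pq m = ∑ l ∈ Finset.range (m + 1),
    (-1 : K) ^ l * t ^ (2 * (l : ℤ) * (l - 1) + 4 * l * (x - m + 1)) * pq l * pq (m - l)) ∧
  (∀ (x : ℤ) (k : ℕ), pr x k = ∑ m ∈ Finset.range (k + 1),
    (-1 : K) ^ m * t ^ (2 * (m : ℤ) * (m - 1) + 4 * m * (x - k + 1)) * (pr k m * pq m))

/-! ## Operators -/

/-- Linear dependence over `ℤ[q, q⁻¹]`. -/
def LinDep : Prop :=
  ∃ e : ℕ, ∀ (V : Type) [AddCommGroup V] [Module K V] [FiniteDimensional K V] (ι : Type)
    [Fintype ι] (v : ι → V), e * Module.finrank K V < Fintype.card ι →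
    ∃ c : ι → LaurentPolynomial ℤ, c ≠ 0 ∧ ∑ i, AJG.evq (c i) • v i = 0

/-- The dimension of the space of Laurent polynomial functions. -/
def LPDim : Prop :=
  ∀ d N : ℕ, ∃ s : Finset ((Fin d → ℤ) → K), s.card ≤ (2 * N + 1) ^ d ∧
    LP d N ≤ Submodule.span K (s : Set ((Fin d → ℤ) → K))

/-- Counting. -/
def Count : Prop :=
  ∀ (r : ℕ) (f : (Fin (r + 1) → ℤ) → K), Tame f →
    ∃ P : MvPolynomial (Fin r) (Polynomial AJG.R2), P ≠ 0 ∧
      ∀ n y, act P (fun n y => f (Fin.snoc y n)) n y = 0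

/-- Summation over one variable. -/
def SumL : Prop :=
  ∀ (r : ℕ) (g : ℤ → (Fin (r + 1) → ℤ) → K)
    (P : MvPolynomial (Fin (r + 1)) (Polynomial AJG.R2)), P ≠ 0 → (∀ n y, act P g n y = 0) →
    (∀ n (y : Fin r → ℤ), {k : ℤ | g n (Fin.cons k y) ≠ 0}.Finite) →
    ∃ P' : MvPolynomial (Fin r) (Polynomial AJG.R2), P' ≠ 0 ∧
      ∀ n y, act P' (fun n y => ∑ᶠ k : ℤ, g n (Fin.cons k y)) n y = 0

/-- Sums of tame functions are holonomic. -/
def HSAnn : Prop :=
  ∀ (r : ℕ) (f : (Fin (r + 1) → ℤ) → K), HS (r + 1) f →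
    ∃ P : MvPolynomial (Fin r) (Polynomial AJG.R2), P ≠ 0 ∧
      ∀ n y, act P (fun n y => f (Fin.snoc y n)) n y = 0

/-- Annihilators of sequences. -/
def HSSeq : Prop :=
  ∀ (f : (Fin 1 → ℤ) → K) (φ : ℕ → K), HS 1 f →
    (∀ n : ℕ, 1 ≤ n → f (fun _ => (n : ℤ)) = (t ^ (4 * (n : ℤ)) - 1) * φ n) →
    ∃ γ : Polynomial AJG.R2, γ ≠ 0 ∧ AJG.Kills γ φ

end AJH

end

section

/-!
# MP_d3fa71_gt, project Mut: basic lemmas on frames and meridians (all proved)
-/

namespace AJM

section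
variable {R : Type} [CommRing R]

@[ext] theorem G_ext {x y : G R} (h00 : x.1 0 0 = y.1 0 0) (h01 : x.1 0 1 = y.1 0 1)
    (h10 : x.1 1 0 = y.1 1 0) (h11 : x.1 1 1 = y.1 1 1) : x = y := by
  apply Subtype.ext
  ext i j
  fin_cases i <;> fin_cases j <;> simp [h00, h01, h10, h11]

theorem G_det (x : G R) : x.1 0 0 * x.1 1 1 - x.1 0 1 * x.1 1 0 = 1 := by
  have := x.2
  rwa [Matrix.det_fin_two] at this

@[simp] theorem G_mul (x y : G R) : (x * y).1 = x.1 * y.1 := rfl
@[simp] theorem G_one : (1 : G R).1 = 1 := rfl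
theorem G_inv (x : G R) : (x⁻¹ : G R).1 = !![x.1 1 1, - x.1 0 1; - x.1 1 0, x.1 0 0] := by
  rw [Matrix.SpecialLinearGroup.coe_inv, Matrix.adjugate_fin_two]

theorem G_inv00 (x : G R) : (x⁻¹ : G R).1 0 0 = x.1 1 1 := by rw [G_inv]; rfl
theorem G_inv01 (x : G R) : (x⁻¹ : G R).1 0 1 = - x.1 0 1 := by rw [G_inv]; rfl
theorem G_inv10 (x : G R) : (x⁻¹ : G R).1 1 0 = - x.1 1 0 := by rw [G_inv]; rfl
theorem G_inv11 (x : G R) : (x⁻¹ : G R).1 1 1 = x.1 0 0 := by rw [G_inv]; rfl
theorem G_mul00 (x y : G R) : (x * y).1 0 0 = x.1 0 0 * y.1 0 0 + x.1 0 1 * y.1 1 0 := by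
  simp [Matrix.mul_apply, Fin.sum_univ_two]
theorem G_mul01 (x y : G R) : (x * y).1 0 1 = x.1 0 0 * y.1 0 1 + x.1 0 1 * y.1 1 1 := by
  simp [Matrix.mul_apply, Fin.sum_univ_two]
theorem G_mul10 (x y : G R) : (x * y).1 1 0 = x.1 1 0 * y.1 0 0 + x.1 1 1 * y.1 1 0 := by
  simp [Matrix.mul_apply, Fin.sum_univ_two]
theorem G_mul11 (x y : G R) : (x * y).1 1 1 = x.1 1 0 * y.1 0 1 + x.1 1 1 * y.1 1 1 := by
  simp [Matrix.mul_apply, Fin.sum_univ_two]

@[simp] theorem dg00 (u : Rˣ) : (dg u).1 0 0 = u := rfl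
@[simp] theorem dg01 (u : Rˣ) : (dg u).1 0 1 = 0 := rfl
@[simp] theorem dg10 (u : Rˣ) : (dg u).1 1 0 = 0 := rfl
@[simp] theorem dg11 (u : Rˣ) : (dg u).1 1 1 = ((u⁻¹ : Rˣ) : R) := rfl
@[simp] theorem J00 : (J : G R).1 0 0 = 0 := rfl
@[simp] theorem J01 : (J : G R).1 0 1 = -1 := rfl
@[simp] theorem J10 : (J : G R).1 1 0 = 1 := rfl
@[simp] theorem J11 : (J : G R).1 1 1 = 0 := rfl

/-- `dg` as a homomorphism. -/
def dgh : Rˣ →* G R where
  toFun := dg
  map_one' := by ext <;> simp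
  map_mul' x y := by ext <;> simp [G_mul00, G_mul01, G_mul10, G_mul11, mul_comm]

@[simp] theorem dg_one : dg (1 : Rˣ) = 1 := dgh.map_one
theorem dg_mul (x y : Rˣ) : dg (x * y) = dg x * dg y := dgh.map_mul x y
theorem dg_inv (x : Rˣ) : dg x⁻¹ = (dg x)⁻¹ := map_inv dgh x
theorem dg_pow (x : Rˣ) (n : ℕ) : dg (x ^ n) = dg x ^ n := map_pow dgh x n
theorem dg_zpow (x : Rˣ) (n : ℤ) : dg (x ^ n) = dg x ^ n := map_zpow dgh x n
theorem dg_comm (x y : Rˣ) : dg x * dg y = dg y * dg x := by rw [← dg_mul, mul_comm, dg_mul]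

theorem J_dg (u : Rˣ) : J * dg u = dg u⁻¹ * (J : G R) := by
  ext <;> simp [G_mul00, G_mul01, G_mul10, G_mul11]
theorem J_J : J * J = dg (-1 : Rˣ) := by
  ext <;> simp [G_mul00, G_mul01, G_mul10, G_mul11]
theorem J_inv : (J : G R)⁻¹ = dg (-1) * J := by
  rw [inv_eq_iff_mul_eq_one, ← mul_assoc, J_dg, mul_assoc, J_J, ← dg_mul]
  simp
theorem dg_neg_comm (x : G R) : dg (-1 : Rˣ) * x = x * dg (-1) := by
  ext <;> simp [G_mul00, G_mul01, G_mul10, G_mul11]

theorem mer_J (M : Rˣ) (h : G R) : mer M (h * J) = (mer M h)⁻¹ := by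
  unfold mer
  rw [mul_assoc h J, J_dg, mul_inv_rev, mul_assoc h, mul_assoc, ← mul_assoc J, mul_inv_cancel,
    one_mul, dg_inv]
  group
theorem mer_dg (M u : Rˣ) (h : G R) : mer M (h * dg u) = mer M h := by
  unfold mer
  rw [mul_assoc h, dg_comm u M, mul_inv_rev, mul_assoc, mul_assoc, mul_assoc,
    ← mul_assoc (dg u), mul_inv_cancel, one_mul]
theorem mer_mul (M : Rˣ) (P h : G R) : mer M (P * h) = P * mer M h * P⁻¹ := by
  unfold mer
  group
theorem mer_self (M : Rˣ) (h : G R) : mer M h * h = h * dg M := by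
  unfold mer
  group
theorem mer_inv_self (M : Rˣ) (h : G R) : (mer M h)⁻¹ * h = h * (dg M)⁻¹ := by
  unfold mer
  group
theorem mer_Jdg (M u : Rˣ) (h : G R) : mer M (h * J * dg u) = (mer M h)⁻¹ := by
  rw [mer_dg, mer_J]

theorem tr_mul_comm (x y : G R) : tr (x * y) = tr (y * x) := by
  simp only [tr, G_mul00, G_mul11]; ring
theorem tr_conj (x y : G R) : tr (x * y * x⁻¹) = tr y := by
  rw [tr_mul_comm, ← mul_assoc, inv_mul_cancel, one_mul]
theorem tr_inv (x : G R) : tr x⁻¹ = tr x := by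
  simp only [tr, G_inv00, G_inv11]; ring
@[simp] theorem tr_dg (u : Rˣ) : tr (dg u) = u + ((u⁻¹ : Rˣ) : R) := rfl
theorem tr_mer (M : Rˣ) (h : G R) : tr (mer M h) = M + ((M⁻¹ : Rˣ) : R) := by
  unfold mer; rw [tr_conj]; rfl
theorem tr_one : tr (1 : G R) = 2 := by simp [tr]; norm_num
/-- `tr (x * y) + tr (x⁻¹ * y) = tr x * tr y`. -/
theorem tr_mul_add (x y : G R) : tr (x * y) + tr (x⁻¹ * y) = tr x * tr y := by
  simp only [tr, G_mul00, G_mul11, G_inv00, G_inv01, G_inv10, G_inv11]; ring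

end

section
variable {F : Type} [Field F]

/-- Over a field, with `M ^ 2 ≠ 1`, frames with the same meridian differ by a diagonal matrix. -/
theorem mer_eq_iff {M : Fˣ} (hM : (M : F) ^ 2 ≠ 1) (h k : G F) :
    mer M h = mer M k ↔ ∃ u : Fˣ, k = h * dg u := by
  constructor
  · intro e
    -- `x = h⁻¹ k` commutes with `dg M`
    have hc : (h⁻¹ * k) * dg M = dg M * (h⁻¹ * k) := by
      unfold mer at e
      have e1 : h * dg M = k * dg M * k⁻¹ * h := by rw [← e]; group
      calc (h⁻¹ * k) * dg M = h⁻¹ * (k * dg M * k⁻¹ * h) * h⁻¹ * k := by group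
        _ = dg M * (h⁻¹ * k) := by rw [← e1]; group
    set x := h⁻¹ * k with hx
    have hM' : (M : F) - ((M⁻¹ : Fˣ) : F) ≠ 0 := by
      intro h0
      apply hM
      have : (M : F) * ((M⁻¹ : Fˣ) : F) = 1 := by simp
      have h1 : (M : F) = ((M⁻¹ : Fˣ) : F) := sub_eq_zero.1 h0
      rw [pow_two]; nth_rewrite 2 [h1]; exact this
    have h01 : x.1 0 1 = 0 := by
      have := congrArg (fun z : G F => z.1 0 1) hc
      simp only [G_mul01, dg00, dg01, dg11] at this
      have h2 : x.1 0 1 * ((M : F) - ((M⁻¹ : Fˣ) : F)) = 0 := by linear_combination -this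
      exact (mul_eq_zero.1 h2).resolve_right hM'
    have h10 : x.1 1 0 = 0 := by
      have := congrArg (fun z : G F => z.1 1 0) hc
      simp only [G_mul10, dg00, dg10, dg11] at this
      have h2 : x.1 1 0 * ((M : F) - ((M⁻¹ : Fˣ) : F)) = 0 := by linear_combination this
      exact (mul_eq_zero.1 h2).resolve_right hM'
    have hd := G_det x
    rw [h01, zero_mul, sub_zero] at hd
    refine ⟨⟨x.1 0 0, x.1 1 1, hd, by rw [mul_comm]; exact hd⟩, ?_⟩
    have : x = dg ⟨x.1 0 0, x.1 1 1, hd, by rw [mul_comm]; exact hd⟩ := by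
      ext
      · rfl
      · rw [h01]; rfl
      · rw [h10]; rfl
      · rfl
    rw [← this, hx]; group
  · rintro ⟨u, rfl⟩
    rw [mer_dg]

end

end AJM

end

section

/-!
# MP_d3fa71_gt, project Mut, block H, item Count
-/

set_option autoImplicit false

open Polynomial

namespace AJH

/-! ### The action of an operator as a full sum -/

theorem Count_act_eq {r : ℕ} (P : MvPolynomial (Fin r) (Polynomial AJG.R2))
    (g : ℤ → (Fin r → ℤ) → K) (n : ℤ) (y : Fin r → ℤ) (S : Finset (Fin r →₀ ℕ)) (J : Finset ℕ)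
    (hS : ∀ m, m ∉ S → MvPolynomial.coeff m P = 0)
    (hJ : ∀ m j, j ∉ J → (MvPolynomial.coeff m P).coeff j = 0) :
    act P g n y = ∑ m ∈ S, ∑ j ∈ J,
      evz n ((MvPolynomial.coeff m P).coeff j) * g (n + j) (fun i => y i + (m i : ℤ)) := by
  unfold act
  have h1 : ∀ m, ∑ j ∈ (MvPolynomial.coeff m P).support,
      evz n ((MvPolynomial.coeff m P).coeff j) * g (n + j) (fun i => y i + (m i : ℤ)) =
      ∑ j ∈ J,
      evz n ((MvPolynomial.coeff m P).coeff j) * g (n + j) (fun i => y i + (m i : ℤ)) := by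
    intro m
    refine Finset.sum_subset (fun j hj => ?_) fun j _ hj => ?_
    · by_contra hjJ
      exact (Polynomial.mem_support_iff.1 hj) (hJ m j hjJ)
    · rw [Polynomial.notMem_support_iff.1 hj, map_zero, zero_mul]
  rw [Finset.sum_congr rfl fun m _ => h1 m]
  refine Finset.sum_subset (fun m hm => ?_) fun m _ hm => ?_
  · by_contra hmS
    exact (MvPolynomial.mem_support_iff.1 hm) (hS m hmS)
  · refine Finset.sum_eq_zero fun j _ => ?_
    rw [MvPolynomial.notMem_support_iff.1 hm, Polynomial.coeff_zero, map_zero, zero_mul]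

/-- The coefficients of a sum of monomials. -/
theorem Count_coeff {r : ℕ} {ι : Type} [Fintype ι] (mf : ι → Fin r →₀ ℕ) (jf : ι → ℕ)
    (cf : ι → AJG.R2) (m : Fin r →₀ ℕ) (j : ℕ) :
    (MvPolynomial.coeff m (∑ i, MvPolynomial.monomial (mf i)
      (Polynomial.monomial (jf i) (cf i)))).coeff j =
    ∑ i, if mf i = m ∧ jf i = j then cf i else 0 := by
  classical
  rw [MvPolynomial.coeff_sum, Polynomial.finsetSum_coeff]
  refine Finset.sum_congr rfl fun i _ => ?_
  rw [MvPolynomial.coeff_monomial]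
  by_cases h1 : mf i = m
  · rw [if_pos h1, Polynomial.coeff_monomial]
    by_cases h2 : jf i = j
    · rw [if_pos h2, if_pos ⟨h1, h2⟩]
    · rw [if_neg h2, if_neg fun h => h2 h.2]
  · rw [if_neg h1, Polynomial.coeff_zero, if_neg fun h => h1 h.1]

theorem Count_act_sum {r : ℕ} {ι : Type} [Fintype ι] (mf : ι → Fin r →₀ ℕ) (jf : ι → ℕ)
    (cf : ι → AJG.R2) (g : ℤ → (Fin r → ℤ) → K) (n : ℤ) (y : Fin r → ℤ) :
    act (∑ i, MvPolynomial.monomial (mf i) (Polynomial.monomial (jf i) (cf i))) g n y =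
      ∑ i, evz n (cf i) * g (n + jf i) (fun k => y k + (mf i k : ℤ)) := by
  classical
  have hmem : ∀ i, mf i ∈ (Finset.univ.image mf) := fun i =>
    Finset.mem_image_of_mem _ (Finset.mem_univ i)
  have hmemj : ∀ i, jf i ∈ (Finset.univ.image jf) := fun i =>
    Finset.mem_image_of_mem _ (Finset.mem_univ i)
  rw [Count_act_eq _ g n y (Finset.univ.image mf) (Finset.univ.image jf)]
  · have h1 : ∀ m ∈ Finset.univ.image mf, ∑ j ∈ Finset.univ.image jf,
        evz n ((MvPolynomial.coeff m (∑ i, MvPolynomial.monomial (mf i)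
          (Polynomial.monomial (jf i) (cf i)))).coeff j) *
          g (n + j) (fun i => y i + (m i : ℤ)) =
        ∑ i, if mf i = m then
          evz n (cf i) * g (n + jf i) (fun k => y k + (mf i k : ℤ)) else 0 := by
      intro m _
      have h2 : ∀ j ∈ Finset.univ.image jf,
          evz n ((MvPolynomial.coeff m (∑ i, MvPolynomial.monomial (mf i)
          (Polynomial.monomial (jf i) (cf i)))).coeff j) *
          g (n + j) (fun i => y i + (m i : ℤ)) =
          ∑ i, if jf i = j then (if mf i = m then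
          evz n (cf i) * g (n + jf i) (fun k => y k + (mf i k : ℤ)) else 0) else 0 := by
        intro j _
        rw [Count_coeff, map_sum, Finset.sum_mul]
        refine Finset.sum_congr rfl fun i _ => ?_
        by_cases h1 : mf i = m
        · by_cases h2 : jf i = j
          · rw [if_pos ⟨h1, h2⟩, if_pos h2, if_pos h1, h1, h2]
          · rw [if_neg fun h => h2 h.2, if_neg h2, map_zero, zero_mul]
        · rw [if_neg fun h => h1 h.1, if_neg h1, map_zero, zero_mul, ite_self]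
      rw [Finset.sum_congr rfl h2, Finset.sum_comm]
      refine Finset.sum_congr rfl fun i _ => ?_
      rw [Finset.sum_ite_eq, if_pos (hmemj i)]
    rw [Finset.sum_congr rfl h1, Finset.sum_comm]
    refine Finset.sum_congr rfl fun i _ => ?_
    rw [Finset.sum_ite_eq, if_pos (hmem i)]
  · intro m hm
    ext1 j
    rw [Count_coeff, Polynomial.coeff_zero]
    refine Finset.sum_eq_zero fun i _ => ?_
    rw [if_neg]
    rintro ⟨h1, -⟩
    exact hm (h1 ▸ hmem i)
  · intro m j hj
    rw [Count_coeff]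
    refine Finset.sum_eq_zero fun i _ => ?_
    rw [if_neg]
    rintro ⟨-, h2⟩
    exact hj (h2 ▸ hmemj i)

theorem Count_ne_zero {r B : ℕ}
    (c : (Fin (B + 1) × Fin (B + 1) × (Fin r → Fin (B + 1))) → LaurentPolynomial ℤ) (hc : c ≠ 0) :
    (∑ i : Fin (B + 1) × Fin (B + 1) × (Fin r → Fin (B + 1)),
      MvPolynomial.monomial (Finsupp.equivFunOnFinite.symm fun k => ((i.2.2 k : ℕ)))
      (Polynomial.monomial (i.2.1 : ℕ)
        (LaurentPolynomial.C (c i) * LaurentPolynomial.T (i.1 : ℕ))) :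
      MvPolynomial (Fin r) (Polynomial AJG.R2)) ≠ 0 := by
  classical
  intro h0
  obtain ⟨i0, hi0⟩ : ∃ i0, c i0 ≠ 0 := by
    by_contra h
    push Not at h
    exact hc (funext h)
  apply hi0
  have h1 := Count_coeff (fun i : Fin (B + 1) × Fin (B + 1) × (Fin r → Fin (B + 1)) =>
    Finsupp.equivFunOnFinite.symm fun k => ((i.2.2 k : ℕ))) (fun i => (i.2.1 : ℕ))
    (fun i => LaurentPolynomial.C (c i) * LaurentPolynomial.T (i.1 : ℕ))
    (Finsupp.equivFunOnFinite.symm fun k => ((i0.2.2 k : ℕ))) (i0.2.1 : ℕ)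
  rw [h0, MvPolynomial.coeff_zero, Polynomial.coeff_zero] at h1
  have h2 := congrArg (fun x : AJG.R2 => (AddMonoidAlgebra.coeff x) ((i0.1 : ℕ) : ℤ)) h1
  simp only [AddMonoidAlgebra.coeff_zero, AddMonoidAlgebra.coeff_sum, Finsupp.coe_zero,
    Pi.zero_apply, Finsupp.finsetSum_apply] at h2
  rw [Finset.sum_eq_single i0] at h2
  · rw [if_pos ⟨rfl, rfl⟩, ← LaurentPolynomial.single_eq_C_mul_T, AddMonoidAlgebra.coeff_single,
      Finsupp.single_eq_same] at h2
    exact h2.symm
  · intro i _ hi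
    by_cases h3 : (Finsupp.equivFunOnFinite.symm fun k => ((i.2.2 k : ℕ))) =
        (Finsupp.equivFunOnFinite.symm fun k => ((i0.2.2 k : ℕ))) ∧ (i.2.1 : ℕ) = (i0.2.1 : ℕ)
    · rw [if_pos h3, ← LaurentPolynomial.single_eq_C_mul_T, AddMonoidAlgebra.coeff_single,
        Finsupp.single_eq_of_ne]
      intro h4
      apply hi
      have h5 : i.1 = i0.1 := Fin.ext (by exact_mod_cast h4.symm)
      have h6 : i.2.1 = i0.2.1 := Fin.ext h3.2
      have h7 : i.2.2 = i0.2.2 := by
        have := Finsupp.equivFunOnFinite.symm.injective h3.1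
        funext k
        exact Fin.ext (congrFun this k)
      exact Prod.ext h5 (Prod.ext h6 h7)
    · rw [if_neg h3]
      rfl
  · intro h
    exact absurd (Finset.mem_univ i0) h

/-! ### Laurent polynomial functions -/

theorem Count_LP_mul {d N₁ N₂ : ℕ} (u : Fin d → ℤ) (hu : ∀ i, |u i| ≤ N₂)
    (p : (Fin d → ℤ) → K) (hp : p ∈ LP d N₁) : (fun x => mono u x * p x) ∈ LP d (N₁ + N₂) := by
  unfold LP at hp
  refine Submodule.span_induction (p := fun p _ => (fun x => mono u x * p x) ∈ LP d (N₁ + N₂))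
    ?_ ?_ ?_ ?_ hp
  · rintro f ⟨w, hw, rfl⟩
    refine Submodule.subset_span ⟨u + w, fun i => ?_, ?_⟩
    · rw [Pi.add_apply]
      refine (abs_add_le _ _).trans ?_
      push_cast
      linarith [hu i, hw i]
    · funext x
      unfold mono
      rw [← zpow_add₀ RatFunc.X_ne_zero, ← Finset.sum_add_distrib]
      congr 1
      refine Finset.sum_congr rfl fun i _ => ?_
      rw [Pi.add_apply]
      ring
  · have : (fun x : Fin d → ℤ => mono u x * (0 : (Fin d → ℤ) → K) x) = 0 := by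
      funext x
      simp
    rw [this]
    exact Submodule.zero_mem _
  · intro f g _ _ hf hg
    have : (fun x : Fin d → ℤ => mono u x * (f + g) x) =
        (fun x => mono u x * f x) + fun x => mono u x * g x := by
      funext x
      simp [mul_add]
    rw [this]
    exact Submodule.add_mem _ hf hg
  · intro a f _ hf
    have : (fun x : Fin d → ℤ => mono u x * (a • f) x) = a • fun x => mono u x * f x := by
      funext x
      simp only [Pi.smul_apply, smul_eq_mul]
      ring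
    rw [this]
    exact Submodule.smul_mem _ _ hf

theorem Count_mono_single {r : ℕ} (a : ℕ) (x : Fin (r + 1) → ℤ) :
    mono (Pi.single (Fin.last r) (4 * (a : ℤ))) x = t ^ (4 * (a : ℤ) * x (Fin.last r)) := by
  unfold mono
  congr 1
  rw [Finset.sum_eq_single (Fin.last r)]
  · rw [Pi.single_eq_same]
  · intro i _ hi
    rw [Pi.single_eq_of_ne hi, zero_mul]
  · intro h
    exact absurd (Finset.mem_univ _) h

theorem Count_evz (n : ℤ) (c : LaurentPolynomial ℤ) (a : ℕ) :
    evz n (LaurentPolynomial.C c * LaurentPolynomial.T (a : ℤ)) =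
      AJG.evq c * t ^ (4 * (a : ℤ) * n) := by
  unfold evz
  rw [LaurentPolynomial.eval₂_C_mul_T, Units.val_zpow_eq_zpow_val, Units.val_mk0, ← zpow_mul]
  congr 2
  ring

theorem prf_Count (hLinDep : LinDep) (hLPDim : LPDim) : Count := by
  classical
  obtain ⟨e, he⟩ := hLinDep
  intro r f hf
  obtain ⟨C, hC⟩ := hf
  obtain ⟨B, hB⟩ : ∃ B : ℕ, B = e * (2 * C + 9) ^ (r + 1) := ⟨_, rfl⟩
  obtain ⟨Φ, hΦ⟩ := hC B
  obtain ⟨N, hN⟩ : ∃ N : ℕ, N = C * (B + 1) + 4 * B := ⟨_, rfl⟩
  obtain ⟨S, hS1, hS2⟩ := hLPDim (r + 1) N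
  -- multiplication by `Φ`
  let L : ((Fin (r + 1) → ℤ) → K) →ₗ[K] ((Fin (r + 1) → ℤ) → K) :=
    { toFun := fun p x => p x * Φ x
      map_add' := fun p q => by
        funext x
        simp [add_mul]
      map_smul' := fun a p => by
        funext x
        simp [mul_assoc] }
  let V : Submodule K ((Fin (r + 1) → ℤ) → K) :=
    Submodule.map L (Submodule.span K (S : Set ((Fin (r + 1) → ℤ) → K)))
  have hVfin : FiniteDimensional K V := inferInstance
  have hVdim : Module.finrank K V ≤ (2 * N + 1) ^ (r + 1) := by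
    refine le_trans ?_ hS1
    refine (Submodule.finrank_map_le L _).trans ?_
    exact finrank_span_finset_le_card S
  -- the shifts
  let sv : (Fin (B + 1) × Fin (B + 1) × (Fin r → Fin (B + 1))) → Fin (r + 1) → ℤ := fun i =>
    Fin.snoc (α := fun _ => ℤ) (fun k => ((i.2.2 k : ℕ) : ℤ)) ((i.2.1 : ℕ) : ℤ)
  have hsv : ∀ i k, 0 ≤ sv i k ∧ sv i k ≤ B := by
    intro i k
    refine Fin.lastCases ?_ (fun k => ?_) k
    · simp only [sv, Fin.snoc_last]
      exact ⟨Int.natCast_nonneg _, by exact_mod_cast Nat.lt_succ_iff.1 i.2.1.2⟩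
    · simp only [sv, Fin.snoc_castSucc]
      exact ⟨Int.natCast_nonneg _, by exact_mod_cast Nat.lt_succ_iff.1 (i.2.2 k).2⟩
  have hmem : ∀ i : Fin (B + 1) × Fin (B + 1) × (Fin r → Fin (B + 1)),
      (fun x : Fin (r + 1) → ℤ => t ^ (4 * ((i.1 : ℕ) : ℤ) * x (Fin.last r)) * f (x + sv i)) ∈
        V := by
    intro i
    obtain ⟨p, hp, hpf⟩ := hΦ (sv i) (hsv i)
    refine Submodule.mem_map.2 ⟨fun x => mono (Pi.single (Fin.last r) (4 * ((i.1 : ℕ) : ℤ))) x *
      p x, ?_, ?_⟩
    · apply hS2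
      rw [hN]
      refine Count_LP_mul _ (fun k => ?_) p hp
      by_cases hk : k = Fin.last r
      · rw [hk, Pi.single_eq_same, abs_of_nonneg (by positivity)]
        have := Nat.lt_succ_iff.1 i.1.2
        push_cast
        have h2 : ((i.1 : ℕ) : ℤ) ≤ B := by exact_mod_cast this
        linarith
      · rw [Pi.single_eq_of_ne hk, abs_zero]
        positivity
    · funext x
      show mono _ x * p x * Φ x = _
      rw [Count_mono_single, hpf, mul_assoc]
  obtain ⟨c, hc0, hc⟩ := he V (Fin (B + 1) × Fin (B + 1) × (Fin r → Fin (B + 1)))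
    (fun i => ⟨_, hmem i⟩) (by
      have h1 : Fintype.card (Fin (B + 1) × Fin (B + 1) × (Fin r → Fin (B + 1))) =
          (B + 1) * ((B + 1) * (B + 1) ^ r) := by
        simp
      rw [h1]
      have h2 : 2 * N + 1 ≤ (2 * C + 9) * (B + 1) := by
        rw [hN]
        nlinarith
      have h3 : (2 * N + 1) ^ (r + 1) ≤ ((2 * C + 9) * (B + 1)) ^ (r + 1) :=
        Nat.pow_le_pow_left h2 _
      calc e * Module.finrank K V ≤ e * ((2 * C + 9) * (B + 1)) ^ (r + 1) :=
            Nat.mul_le_mul_left _ (hVdim.trans h3)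
        _ = B * (B + 1) ^ (r + 1) := by rw [mul_pow, ← mul_assoc, ← hB]
        _ < (B + 1) * (B + 1) ^ (r + 1) :=
            Nat.mul_lt_mul_of_pos_right (Nat.lt_succ_self B) (by positivity)
        _ = (B + 1) * ((B + 1) * (B + 1) ^ r) := by rw [pow_succ']) 
  have hrel : ∀ x : Fin (r + 1) → ℤ, ∑ i, AJG.evq (c i) *
      (t ^ (4 * ((i.1 : ℕ) : ℤ) * x (Fin.last r)) * f (x + sv i)) = 0 := by
    intro x
    have h1 := congrArg (fun v : V => (v : (Fin (r + 1) → ℤ) → K) x) hc
    simp only [Submodule.coe_sum, Submodule.coe_smul, Finset.sum_apply, Pi.smul_apply,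
      smul_eq_mul, Submodule.coe_zero, Pi.zero_apply] at h1
    exact h1
  refine ⟨_, Count_ne_zero c hc0, fun n y => ?_⟩
  rw [Count_act_sum]
  rw [← hrel (Fin.snoc (α := fun _ => ℤ) y n)]
  refine Finset.sum_congr rfl fun i _ => ?_
  rw [Count_evz, Fin.snoc_last, mul_assoc]
  congr 3
  funext k
  refine Fin.lastCases ?_ (fun k => ?_) k
  · simp [sv]
  · simp [sv]

end AJH

end

section

open Polynomial

namespace AJH

/-- The conclusion, as a motive for induction (trivial in dimension zero). -/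
def HSAnn_Q : (D : ℕ) → ((Fin D → ℤ) → K) → Prop
  | 0, _ => True
  | (r + 1), f => ∃ P : MvPolynomial (Fin r) (Polynomial AJG.R2), P ≠ 0 ∧
      ∀ n y, act P (fun n y => f (Fin.snoc y n)) n y = 0

theorem HSAnn_all (hCount : Count) (hSumL : SumL) {D : ℕ} {f : (Fin D → ℤ) → K} (hf : HS D f) :
    HSAnn_Q D f := by
  induction hf with
  | @tame d f h =>
    cases d with
    | zero => trivial
    | succ r => exact hCount r f h
  | @sum d g _ hfin ih =>
    cases d with
    | zero => trivial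
    | succ r =>
      obtain ⟨P, hP, hk⟩ := ih
      have hcons : ∀ (n : ℤ) (y : Fin r → ℤ) (k : ℤ),
          g (Fin.snoc (Fin.cons k y : Fin (r + 1) → ℤ) n : Fin (r + 2) → ℤ) =
            g (Fin.cons k (Fin.snoc y n : Fin (r + 1) → ℤ)) := by
        intro n y k
        rw [← Fin.cons_snoc_eq_snoc_cons]
      obtain ⟨P', hP', hk'⟩ := hSumL r (fun n y => g (Fin.snoc y n)) P hP hk (by
        intro n y
        have := hfin (Fin.snoc y n)
        refine this.subset ?_
        intro k hk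
        simp only [Set.mem_ofPred_eq] at hk ⊢
        rwa [hcons] at hk)
      refine ⟨P', hP', fun n y => ?_⟩
      have h := hk' n y
      simp only [hcons] at h
      exact h

theorem prf_HSAnn (hCount : Count) (hSumL : SumL) : HSAnn := by
  intro r f hf
  exact HSAnn_all hCount hSumL hf

end AJH

end

section

/-!
# MP_d3fa71_gt, project Mut, block H: the indicator function of the non-negative integers
-/

set_option autoImplicit false
set_option linter.unusedVariables false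

namespace AJH

theorem HSInd_pq_neg {x : ℤ} (h : x < 0) : pq x = 0 := if_neg (not_le.2 h)

/-- The summand. -/
noncomputable def HSInd_g (z : Fin 2 → ℤ) : K :=
  (-1 : K) ^ (z 0) * t ^ (2 * z 0 * (z 0 + 1)) * pq (z 0) * pq (z 1 - z 0)

theorem HSInd_tame (hTameMul : TameMul) (hTamePull : TamePull) (hTameQuad : TameQuad)
    (hTamePow : TamePow) (hTamePq : TamePq) : Tame HSInd_g := by
  have h1 : Tame (fun z : Fin 2 → ℤ => (-1 : K) ^ (z 0)) := by
    have h := hTamePull 1 2 (fun _ j => if j = 0 then 1 else 0) (fun _ => 0) _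
      (hTamePow (-1) (neg_ne_zero.2 one_ne_zero))
    have e : (fun z : Fin 2 → ℤ => (-1 : K) ^ (aff (fun (_ : Fin 1) (j : Fin 2) =>
        if j = 0 then 1 else 0) (fun _ => 0) z 0)) = fun z => (-1 : K) ^ (z 0) := by
      funext z
      congr 1
      simp [aff]
    rwa [← e]
  have h2 : Tame (fun z : Fin 2 → ℤ => t ^ (2 * z 0 * (z 0 + 1))) := by
    have h := hTameQuad 2 (fun i j => if i = 0 ∧ j = 0 then 2 else 0) (fun i => if i = 0 then 2 else 0)
      1
    have e : (fun z : Fin 2 → ℤ => (1 : K) * t ^ (∑ i : Fin 2, ∑ j : Fin 2,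
        (if i = 0 ∧ j = 0 then (2 : ℤ) else 0) * z i * z j +
          ∑ i : Fin 2, (if i = 0 then (2 : ℤ) else 0) * z i)) =
        fun z => t ^ (2 * z 0 * (z 0 + 1)) := by
      funext z
      rw [one_mul]
      congr 1
      simp [Fin.sum_univ_two]
      ring
    rwa [← e]
  have h3 : Tame (fun z : Fin 2 → ℤ => pq (z 0)) := by
    have h := hTamePull 1 2 (fun _ j => if j = 0 then 1 else 0) (fun _ => 0) _ hTamePq
    have e : (fun z : Fin 2 → ℤ => pq (aff (fun (_ : Fin 1) (j : Fin 2) =>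
        if j = 0 then 1 else 0) (fun _ => 0) z 0)) = fun z => pq (z 0) := by
      funext z
      congr 1
      simp [aff]
    rwa [← e]
  have h4 : Tame (fun z : Fin 2 → ℤ => pq (z 1 - z 0)) := by
    have h := hTamePull 1 2 (fun _ j => if j = 0 then -1 else 1) (fun _ => 0) _ hTamePq
    have e : (fun z : Fin 2 → ℤ => pq (aff (fun (_ : Fin 1) (j : Fin 2) =>
        if j = 0 then -1 else 1) (fun _ => 0) z 0)) = fun z => pq (z 1 - z 0) := by
      funext z
      congr 1
      simp [aff, Fin.sum_univ_two]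
      ring
    rwa [← e]
  exact hTameMul 2 _ _ (hTameMul 2 _ _ (hTameMul 2 _ _ h1 h2) h3) h4

theorem HSInd_zero (x : Fin 1 → ℤ) (k : ℤ) (h : ¬ (0 ≤ k ∧ k ≤ x 0)) :
    HSInd_g (Fin.cons k x) = 0 := by
  show (-1 : K) ^ k * t ^ (2 * k * (k + 1)) * pq k * pq (x 0 - k) = 0
  by_cases h0 : 0 ≤ k
  · rw [HSInd_pq_neg (x := x 0 - k) (by
      have : ¬ k ≤ x 0 := fun h' => h ⟨h0, h'⟩
      omega), mul_zero]
  · rw [HSInd_pq_neg (x := k) (not_le.1 h0), mul_zero, zero_mul]

theorem HSInd_fin (x : Fin 1 → ℤ) : {k : ℤ | HSInd_g (Fin.cons k x) ≠ 0}.Finite := by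
  refine (Set.finite_Icc 0 (x 0)).subset ?_
  intro k hk
  by_contra h
  exact hk (HSInd_zero x k h)

theorem HSInd_sum (hQBin : QBin) (x : Fin 1 → ℤ) :
    ∑ᶠ k : ℤ, HSInd_g (Fin.cons k x) = if 0 ≤ x 0 then 1 else 0 := by
  by_cases h : 0 ≤ x 0
  · rw [if_pos h, ← hQBin.1 (x 0) h,
      finsum_eq_sum_of_support_subset (s := (Finset.range ((x 0).toNat + 1)).map
        (Nat.castEmbedding : ℕ ↪ ℤ)), Finset.sum_map]
    · refine Finset.sum_congr rfl fun l _ => ?_
      show (-1 : K) ^ ((l : ℕ) : ℤ) * t ^ (2 * (l : ℤ) * (l + 1)) * pq l * pq (x 0 - l) = _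
      rw [zpow_natCast]
    · intro k hk
      have hk' : 0 ≤ k ∧ k ≤ x 0 := by
        by_contra h'
        exact hk (HSInd_zero x k h')
      rw [Finset.coe_map, Set.mem_image]
      refine ⟨k.toNat, ?_, ?_⟩
      · rw [Finset.mem_coe, Finset.mem_range]
        omega
      · show ((k.toNat : ℕ) : ℤ) = k
        omega
  · rw [if_neg h]
    have e : (fun k : ℤ => HSInd_g (Fin.cons k x)) = fun _ => 0 := by
      funext k
      exact HSInd_zero x k (by omega)
    rw [e, finsum_zero]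

theorem prf_HSInd (hHSMul : HSMul) (hHSPull : HSPull) (hTameMul : TameMul)
    (hTamePull : TamePull) (hTameQuad : TameQuad) (hTamePow : TamePow) (hTamePq : TamePq)
    (hQBin : QBin) : HSInd := by
  have h := HS.sum (HS.tame (HSInd_tame hTameMul hTamePull hTameQuad hTamePow hTamePq)) HSInd_fin
  have e : (fun x : Fin 1 → ℤ => ∑ᶠ k : ℤ, HSInd_g (Fin.cons k x)) =
      fun x => if 0 ≤ x 0 then 1 else 0 := by
    funext x
    exact HSInd_sum hQBin x
  rw [e] at h
  exact h

end AJH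

end

section

/-!
# MP_d3fa71_gt, project Mut, block H: products of sums of tame functions
-/

namespace AJH

/-- The matrix of the projection which forgets the first coordinate. -/
def HSMul_A (d : ℕ) : Fin d → Fin (d + 1) → ℤ := fun i j => if j = i.succ then 1 else 0

theorem HSMul_aff (d : ℕ) (z : Fin (d + 1) → ℤ) :
    aff (HSMul_A d) (fun _ => 0) z = fun i => z i.succ := by
  funext i
  unfold aff HSMul_A
  simp

theorem HSMul_aff_cons (d : ℕ) (k : ℤ) (x : Fin d → ℤ) :
    aff (HSMul_A d) (fun _ => 0) (Fin.cons k x : Fin (d + 1) → ℤ) = x := by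
  rw [HSMul_aff]
  funext i
  simp

theorem HSMul_one (hTameMul : TameMul) (hTamePull : TamePull) {d : ℕ} {g : (Fin d → ℤ) → K}
    (hg : HS d g) : ∀ f : (Fin d → ℤ) → K, Tame f → HS d (fun x => f x * g x) := by
  induction hg with
  | tame h => exact fun f hf => HS.tame (hTameMul _ f _ hf h)
  | @sum d g h hfin ih =>
    intro f hf
    have h1 := ih _ (hTamePull d (d + 1) (HSMul_A d) (fun _ => 0) f hf)
    have h2 : ∀ (x : Fin d → ℤ) (k : ℤ),
        f (aff (HSMul_A d) (fun _ => 0) (Fin.cons k x : Fin (d + 1) → ℤ)) = f x := fun x k => by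
      rw [HSMul_aff_cons]
    have h3 := HS.sum h1 (fun x => (hfin x).subset fun k hk => by
      intro h0
      apply hk
      show f _ * g (Fin.cons k x) = 0
      rw [h0, mul_zero])
    convert h3 using 2 with x
    simp only [h2]
    exact mul_finsum _ _

theorem prf_HSMul (hHSPull : HSPull) (hTameMul : TameMul) (hTamePull : TamePull) : HSMul := by
  intro d f g hf
  revert g
  induction hf with
  | tame h => exact fun g hg => HSMul_one hTameMul hTamePull hg _ h
  | @sum d f h hfin ih =>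
    intro g hg
    have h1 := ih _ (hHSPull d (d + 1) (HSMul_A d) (fun _ => 0) g hg)
    have h2 : ∀ (x : Fin d → ℤ) (k : ℤ),
        g (aff (HSMul_A d) (fun _ => 0) (Fin.cons k x : Fin (d + 1) → ℤ)) = g x := fun x k => by
      rw [HSMul_aff_cons]
    have h3 := HS.sum h1 (fun x => (hfin x).subset fun k hk => by
      intro h0
      apply hk
      show f (Fin.cons k x) * _ = 0
      rw [h0, zero_mul])
    convert h3 using 2 with x
    simp only [h2]
    exact finsum_mul _ _

end AJH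

end

section

/-!
# MP_d3fa71_gt, project Mut, block H: the products `pr` are sums of tame functions
-/

set_option autoImplicit false

open Polynomial

namespace AJH

/-- The common factor. -/
noncomputable def HSPr_e (v : Fin 3 → ℤ) : K :=
  (-1 : K) ^ (v 0) * t ^ (2 * v 0 * (v 0 - 1) + 4 * v 0 * (v 1 - v 2 + 1))

/-- The first summand. -/
noncomputable def HSPr_g1 (v : Fin 3 → ℤ) : K := HSPr_e v * (pq (v 0) * pq (v 2 - v 0))

/-- The `q`-binomial coefficients. -/
noncomputable def HSPr_GB (v : Fin 2 → ℤ) : K := pr (v 0) (v 1) * pq (v 1)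

/-- The second summand. -/
noncomputable def HSPr_g2 (v : Fin 3 → ℤ) : K :=
  HSPr_e v * ((if 0 ≤ v 2 then 1 else 0) * HSPr_GB ![v 2, v 0])

theorem HSPr_tame_e (hTameMul : TameMul) (hTamePull : TamePull) (hTameQuad : TameQuad)
    (hTamePow : TamePow) : Tame HSPr_e := by
  have h1 : Tame (fun v : Fin 3 → ℤ => (-1 : K) ^ (v 0)) := by
    have h := hTamePull 1 3 (fun _ => ![1, 0, 0]) (fun _ => 0) _
      (hTamePow (-1) (neg_ne_zero.2 one_ne_zero))
    have e : (fun v : Fin 3 → ℤ => (-1 : K) ^ (v 0)) = (fun x =>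
        (fun x : Fin 1 → ℤ => (-1 : K) ^ (x 0)) (aff (fun _ => ![1, 0, 0]) (fun _ => 0) x)) := by
      funext v
      simp [aff, Fin.sum_univ_three]
    rw [e]
    exact h
  have h2 : Tame (fun v : Fin 3 → ℤ =>
      (t : K) ^ (2 * v 0 * (v 0 - 1) + 4 * v 0 * (v 1 - v 2 + 1))) := by
    have h := hTameQuad 3 (fun i j => ![![2, 4, -4], ![0, 0, 0], ![0, 0, 0]] i j) ![2, 0, 0] 1
    have e : (fun v : Fin 3 → ℤ =>
        (t : K) ^ (2 * v 0 * (v 0 - 1) + 4 * v 0 * (v 1 - v 2 + 1))) =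
        (fun x : Fin 3 → ℤ => (1 : K) * t ^ (∑ i, ∑ j,
          (fun i j => (![![2, 4, -4], ![0, 0, 0], ![0, 0, 0]] : Fin 3 → Fin 3 → ℤ) i j) i j
            * x i * x j + ∑ i, (![2, 0, 0] : Fin 3 → ℤ) i * x i)) := by
      funext v
      rw [one_mul]
      congr 1
      simp [Fin.sum_univ_three]
      ring
    rw [e]
    exact h
  exact hTameMul 3 _ _ h1 h2

theorem HSPr_tame_pq (hTamePull : TamePull) (hTamePq : TamePq) (a : Fin 3 → ℤ) :
    Tame (fun v : Fin 3 → ℤ => pq (a 0 * v 0 + a 1 * v 1 + a 2 * v 2)) := by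
  have h := hTamePull 1 3 (fun _ => a) (fun _ => 0) _ hTamePq
  have e : (fun v : Fin 3 → ℤ => pq (a 0 * v 0 + a 1 * v 1 + a 2 * v 2)) = (fun x =>
      (fun x : Fin 1 → ℤ => pq (x 0)) (aff (fun _ => a) (fun _ => 0) x)) := by
    funext v
    simp [aff, Fin.sum_univ_three]
  rw [e]
  exact h

theorem HSPr_tame_g1 (hTameMul : TameMul) (hTamePull : TamePull) (hTameQuad : TameQuad)
    (hTamePow : TamePow) (hTamePq : TamePq) : Tame HSPr_g1 := by
  refine hTameMul 3 _ _ (HSPr_tame_e hTameMul hTamePull hTameQuad hTamePow)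
    (hTameMul 3 _ _ ?_ ?_)
  · have h := HSPr_tame_pq hTamePull hTamePq ![1, 0, 0]
    have e : (fun v : Fin 3 → ℤ => pq (v 0)) = fun v : Fin 3 → ℤ => pq
        ((![1, 0, 0] : Fin 3 → ℤ) 0 * v 0 + (![1, 0, 0] : Fin 3 → ℤ) 1 * v 1 +
          (![1, 0, 0] : Fin 3 → ℤ) 2 * v 2) := by
      funext v
      simp
    rw [e]
    exact h
  · have h := HSPr_tame_pq hTamePull hTamePq ![-1, 0, 1]
    have e : (fun v : Fin 3 → ℤ => pq (v 2 - v 0)) = fun v : Fin 3 → ℤ => pq
        ((![-1, 0, 1] : Fin 3 → ℤ) 0 * v 0 + (![-1, 0, 1] : Fin 3 → ℤ) 1 * v 1 +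
          (![-1, 0, 1] : Fin 3 → ℤ) 2 * v 2) := by
      funext v
      congr 1
      simp
      ring
    rw [e]
    exact h

theorem HSPr_pq_neg {x : ℤ} (h : x < 0) : pq x = 0 := by
  unfold pq
  rw [if_neg (by omega)]

theorem HSPr_pr_neg {x k : ℤ} (h : k < 0) : pr x k = 0 := by
  unfold pr
  rw [if_neg (by omega)]

theorem HSPr_pr_big {k m : ℤ} (h0 : 0 ≤ k) (h : k < m) : pr k m = 0 := by
  unfold pr
  rw [if_pos (by omega)]
  refine Finset.prod_eq_zero (i := k.toNat) (Finset.mem_range.2 (by omega)) ?_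
  rw [Int.toNat_of_nonneg h0, sub_self]
  simp

/-- A finsum over the integers supported on an interval. -/
theorem HSPr_finsum (f : ℤ → K) (n : ℕ) (h : ∀ k, f k ≠ 0 → 0 ≤ k ∧ k ≤ n) :
    ∑ᶠ k, f k = ∑ l ∈ Finset.range (n + 1), f (l : ℤ) := by
  rw [finsum_eq_sum_of_support_subset (s := (Finset.range (n + 1)).map Nat.castEmbedding),
    Finset.sum_map]
  · rfl
  · intro k hk
    obtain ⟨h1, h2⟩ := h k hk
    rw [Finset.mem_coe, Finset.mem_map]
    refine ⟨k.toNat, Finset.mem_range.2 (by omega), ?_⟩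
    simp [h1]

theorem HSPr_fin1 (x : Fin 2 → ℤ) (k : ℤ) (h : HSPr_g1 (Fin.cons k x) ≠ 0) :
    0 ≤ k ∧ k ≤ x 1 := by
  by_contra hcon
  apply h
  unfold HSPr_g1
  have e0 : (Fin.cons k x : Fin 3 → ℤ) 0 = k := rfl
  have e2 : (Fin.cons k x : Fin 3 → ℤ) 2 = x 1 := rfl
  rw [e0, e2]
  rcases lt_or_ge k 0 with h1 | h1
  · rw [HSPr_pq_neg h1, zero_mul, mul_zero]
  · have h2 : x 1 - k < 0 := by
      by_contra h3
      exact hcon ⟨h1, by omega⟩
    rw [HSPr_pq_neg h2, mul_zero, mul_zero]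

theorem HSPr_fin2 (x : Fin 2 → ℤ) (k : ℤ) (h : HSPr_g2 (Fin.cons k x) ≠ 0) :
    0 ≤ k ∧ k ≤ x 1 := by
  by_contra hcon
  apply h
  unfold HSPr_g2 HSPr_GB
  have e0 : (Fin.cons k x : Fin 3 → ℤ) 0 = k := rfl
  have e2 : (Fin.cons k x : Fin 3 → ℤ) 2 = x 1 := rfl
  rw [e0, e2]
  simp only [Matrix.cons_val_zero, Matrix.cons_val_one]
  rcases lt_or_ge (x 1) 0 with h0 | h0
  · rw [if_neg (by omega), zero_mul, mul_zero]
  rcases lt_or_ge k 0 with h1 | h1
  · rw [HSPr_pq_neg h1, mul_zero, mul_zero, mul_zero]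
  · have h2 : x 1 < k := by
      by_contra h3
      exact hcon ⟨h1, by omega⟩
    rw [HSPr_pr_big h0 h2, zero_mul, mul_zero, mul_zero]

theorem HSPr_eq1 (hQBin : QBin) (x : Fin 2 → ℤ) :
    ∑ᶠ k : ℤ, HSPr_g1 (Fin.cons k x) = HSPr_GB x := by
  rcases lt_or_ge (x 1) 0 with h0 | h0
  · rw [finsum_eq_zero_of_forall_eq_zero]
    · unfold HSPr_GB
      rw [HSPr_pq_neg h0, mul_zero]
    · intro k
      by_contra h
      have := HSPr_fin1 x k h
      omega
  · obtain ⟨m, hm⟩ := Int.eq_ofNat_of_zero_le h0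
    rw [HSPr_finsum _ m (fun k hk => by
      have := HSPr_fin1 x k hk
      rw [hm] at this
      exact this)]
    unfold HSPr_GB
    rw [hm, hQBin.2.1 (x 0) m]
    refine Finset.sum_congr rfl fun l _ => ?_
    unfold HSPr_g1 HSPr_e
    have e0 : (Fin.cons (l : ℤ) x : Fin 3 → ℤ) 0 = l := rfl
    have e1 : (Fin.cons (l : ℤ) x : Fin 3 → ℤ) 1 = x 0 := rfl
    have e2 : (Fin.cons (l : ℤ) x : Fin 3 → ℤ) 2 = x 1 := rfl
    rw [e0, e1, e2, hm, zpow_natCast, ← mul_assoc]

theorem HSPr_eq2 (hQBin : QBin) (x : Fin 2 → ℤ) :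
    ∑ᶠ k : ℤ, HSPr_g2 (Fin.cons k x) = pr (x 0) (x 1) := by
  rcases lt_or_ge (x 1) 0 with h0 | h0
  · rw [finsum_eq_zero_of_forall_eq_zero]
    · rw [HSPr_pr_neg h0]
    · intro k
      by_contra h
      have := HSPr_fin2 x k h
      omega
  · obtain ⟨m, hm⟩ := Int.eq_ofNat_of_zero_le h0
    rw [HSPr_finsum _ m (fun k hk => by
      have := HSPr_fin2 x k hk
      rw [hm] at this
      exact this)]
    rw [hm, hQBin.2.2 (x 0) m]
    refine Finset.sum_congr rfl fun l _ => ?_
    unfold HSPr_g2 HSPr_e HSPr_GB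
    have e0 : (Fin.cons (l : ℤ) x : Fin 3 → ℤ) 0 = l := rfl
    have e1 : (Fin.cons (l : ℤ) x : Fin 3 → ℤ) 1 = x 0 := rfl
    have e2 : (Fin.cons (l : ℤ) x : Fin 3 → ℤ) 2 = x 1 := rfl
    rw [e0, e1, e2, hm, zpow_natCast, if_pos (Int.natCast_nonneg m), one_mul]
    simp only [Matrix.cons_val_zero, Matrix.cons_val_one]

theorem prf_HSPr (hHSMul : HSMul) (hHSPull : HSPull) (hHSInd : HSInd) (hTameMul : TameMul)
    (hTamePull : TamePull) (hTameQuad : TameQuad) (hTamePow : TamePow) (hTamePq : TamePq)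
    (hQBin : QBin) : HSPr := by
  have hGB : HS 2 HSPr_GB := by
    have h := HS.sum (HS.tame (HSPr_tame_g1 hTameMul hTamePull hTameQuad hTamePow hTamePq))
      (fun x => (Set.finite_Icc (0 : ℤ) (x 1)).subset fun k hk => HSPr_fin1 x k hk)
    have e : (fun x : Fin 2 → ℤ => ∑ᶠ k : ℤ, HSPr_g1 (Fin.cons k x)) = HSPr_GB :=
      funext (HSPr_eq1 hQBin)
    rw [e] at h
    exact h
  have hg2 : HS 3 HSPr_g2 := by
    refine hHSMul 3 _ _ (HS.tame (HSPr_tame_e hTameMul hTamePull hTameQuad hTamePow))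
      (hHSMul 3 _ _ ?_ ?_)
    · have h := hHSPull 1 3 (fun _ => ![0, 0, 1]) (fun _ => 0) _ hHSInd
      have e : (fun v : Fin 3 → ℤ => (if 0 ≤ v 2 then 1 else 0 : K)) = (fun x =>
          (fun x : Fin 1 → ℤ => (if 0 ≤ x 0 then 1 else 0 : K))
            (aff (fun _ => ![0, 0, 1]) (fun _ => 0) x)) := by
        funext v
        simp [aff, Fin.sum_univ_three]
      rw [e]
      exact h
    · have h := hHSPull 2 3 ![![0, 0, 1], ![1, 0, 0]] (fun _ => 0) _ hGB
      have e : (fun v : Fin 3 → ℤ => HSPr_GB ![v 2, v 0]) = (fun x =>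
          HSPr_GB (aff (![![0, 0, 1], ![1, 0, 0]] : Fin 2 → Fin 3 → ℤ) (fun _ => 0) x)) := by
        funext v
        congr 1
        funext i
        fin_cases i <;> simp [aff, Fin.sum_univ_three]
      rw [e]
      exact h
  have h := HS.sum hg2
    (fun x => (Set.finite_Icc (0 : ℤ) (x 1)).subset fun k hk => HSPr_fin2 x k hk)
  have e : (fun x : Fin 2 → ℤ => ∑ᶠ k : ℤ, HSPr_g2 (Fin.cons k x)) =
      fun x => pr (x 0) (x 1) := funext (HSPr_eq2 hQBin)
  rw [e] at h
  exact h

end AJH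

end

section

/-!
# MP_d3fa71_gt, project Mut, item HSPull
-/

namespace AJH

/-- The block matrix `(1 0; 0 A)`. -/
def HSPull_A {d d' : ℕ} (A : Fin d → Fin d' → ℤ) : Fin (d + 1) → Fin (d' + 1) → ℤ :=
  Fin.cons (Fin.cons 1 0) (fun i => Fin.cons 0 (A i))

def HSPull_b {d : ℕ} (b : Fin d → ℤ) : Fin (d + 1) → ℤ := Fin.cons 0 b

theorem HSPull_aff {d d' : ℕ} (A : Fin d → Fin d' → ℤ) (b : Fin d → ℤ) (k : ℤ)
    (x : Fin d' → ℤ) :
    aff (HSPull_A A) (HSPull_b b) (Fin.cons k x : Fin (d' + 1) → ℤ) =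
      (Fin.cons k (aff A b x) : Fin (d + 1) → ℤ) := by
  funext i
  refine Fin.cases ?_ (fun j => ?_) i
  · simp [aff, HSPull_A, HSPull_b, Fin.sum_univ_succ]
  · simp [aff, HSPull_A, HSPull_b, Fin.sum_univ_succ]

theorem prf_HSPull (hTamePull : TamePull) : HSPull := by
  intro d d' A b f hf
  induction hf generalizing d' with
  | tame ht => exact HS.tame (hTamePull _ _ A b _ ht)
  | @sum d g hg hfin ih =>
    have h1 := ih (d' + 1) (HSPull_A A) (HSPull_b b)
    have h2 := HS.sum h1 (fun x => by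
      have e : {k : ℤ | g (aff (HSPull_A A) (HSPull_b b) (Fin.cons k x : Fin (d' + 1) → ℤ)) ≠ 0} =
          {k : ℤ | g (Fin.cons k (aff A b x) : Fin (d + 1) → ℤ) ≠ 0} := by
        ext k
        simp only [Set.mem_setOf_eq, HSPull_aff]
      rw [e]
      exact hfin _)
    simp only [HSPull_aff] at h2
    exact h2

end AJH

end

section

/-!
# MP_d3fa71_gt, project Mut, item HSSeq: annihilators of sequences
-/

set_option autoImplicit false

open Polynomial

namespace AJH

/-- The factor `q ^ j Q - 1`. -/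
noncomputable def HSSeq_fac (j : ℕ) : AJG.R2 :=
  LaurentPolynomial.C (LaurentPolynomial.T (j : ℤ)) * LaurentPolynomial.T 1 - 1

theorem HSSeq_coeff {R : Type} [CommRing R] (z : R) (b b' : ℤ) :
    (LaurentPolynomial.C z * LaurentPolynomial.T b).coeff b' = if b = b' then z else 0 := by
  rw [← LaurentPolynomial.single_eq_C_mul_T]
  exact Finsupp.single_apply

theorem HSSeq_T_ne (j : ℤ) : (LaurentPolynomial.T j : LaurentPolynomial ℤ) ≠ 0 := by
  intro h
  have h1 := HSSeq_coeff (1 : ℤ) j j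
  rw [map_one, one_mul, h] at h1
  simp at h1

theorem HSSeq_fac_ne (j : ℕ) : HSSeq_fac j ≠ 0 := by
  intro h
  have h0 : (LaurentPolynomial.C (LaurentPolynomial.T (j : ℤ)) * LaurentPolynomial.T 1 :
      AJG.R2) = LaurentPolynomial.C 1 * LaurentPolynomial.T 0 := by
    rw [map_one, one_mul, LaurentPolynomial.T_zero]
    exact sub_eq_zero.mp h
  have h1 := HSSeq_coeff (LaurentPolynomial.T (j : ℤ) : LaurentPolynomial ℤ) 1 1
  rw [h0, HSSeq_coeff] at h1
  simp only [zero_ne_one, if_false, if_true] at h1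
  exact HSSeq_T_ne _ h1.symm

theorem HSSeq_ev (n : ℕ) : AJG.ev n = evz (n : ℤ) := by
  unfold AJG.ev evz
  congr 1

theorem HSSeq_evz_fac (n : ℤ) (j : ℕ) : evz n (HSSeq_fac j) = t ^ (4 * (n + (j : ℤ))) - 1 := by
  unfold HSSeq_fac
  rw [map_sub, map_one]
  congr 1
  unfold evz
  rw [LaurentPolynomial.eval₂_C_mul_T]
  unfold AJG.evq
  rw [LaurentPolynomial.eval₂_T]
  have ht : (t : K) ≠ 0 := RatFunc.X_ne_zero
  simp only [zpow_one, Units.val_zpow_eq_zpow_val, Units.val_mk0]
  rw [← zpow_natCast, ← zpow_mul, ← zpow_add₀ ht]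
  congr 1
  push_cast
  ring

/-- The annihilator of the sequence. -/
noncomputable def HSSeq_gam (α : Polynomial AJG.R2) : Polynomial AJG.R2 :=
  ∑ j ∈ α.support, monomial j (α.coeff j * HSSeq_fac j)

theorem HSSeq_gam_coeff (α : Polynomial AJG.R2) (j : ℕ) :
    (HSSeq_gam α).coeff j = α.coeff j * HSSeq_fac j := by
  unfold HSSeq_gam
  rw [finsetSum_coeff]
  simp only [coeff_monomial]
  rw [Finset.sum_ite_eq']
  split_ifs with h
  · rfl
  · rw [notMem_support_iff.mp h, zero_mul]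

theorem HSSeq_gam_ne (α : Polynomial AJG.R2) (h : α ≠ 0) : HSSeq_gam α ≠ 0 := by
  intro h0
  apply h
  ext1 j
  have h1 := HSSeq_gam_coeff α j
  rw [h0, coeff_zero] at h1
  rcases mul_eq_zero.mp h1.symm with h2 | h2
  · rw [h2, coeff_zero]
  · exact absurd h2 (HSSeq_fac_ne j)

theorem HSSeq_act (P : MvPolynomial (Fin 0) (Polynomial AJG.R2))
    (f : ℤ → (Fin 0 → ℤ) → K) (n : ℤ) (y : Fin 0 → ℤ) :
    act P f n y = ∑ j ∈ (MvPolynomial.coeff 0 P).support,
      evz n ((MvPolynomial.coeff 0 P).coeff j) * f (n + j) y := by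
  unfold act
  have hy : ∀ m : Fin 0 →₀ ℕ, (fun i => y i + ((m i : ℕ) : ℤ)) = y :=
    fun m => funext fun i => i.elim0
  by_cases h : MvPolynomial.coeff 0 P = 0
  · have hs : P.support = ∅ := by
      rw [Finset.eq_empty_iff_forall_notMem]
      intro m hm
      rw [Subsingleton.elim m 0, MvPolynomial.mem_support_iff] at hm
      exact hm h
    rw [hs, h]
    simp
  · have hs : P.support = {0} := by
      ext m
      rw [Subsingleton.elim m 0, MvPolynomial.mem_support_iff]
      simp [h]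
    rw [hs, Finset.sum_singleton, hy]

theorem prf_HSSeq (hHSAnn : HSAnn) : HSSeq := by
  intro f φ hf hφ
  obtain ⟨P, hP0, hP⟩ := hHSAnn 0 f hf
  set α : Polynomial AJG.R2 := MvPolynomial.coeff 0 P with hα
  have hα0 : α ≠ 0 := by
    intro h
    apply hP0
    ext1 m
    rw [Subsingleton.elim m 0, ← hα, h, MvPolynomial.coeff_zero]
  refine ⟨HSSeq_gam α, HSSeq_gam_ne α hα0, ?_⟩
  intro n hn
  have h1 := hP (n : ℤ) (fun i => i.elim0)
  rw [HSSeq_act, ← hα] at h1
  have h2 : ∀ k : ℤ, (Fin.snoc (fun i : Fin 0 => i.elim0) k : Fin (0 + 1) → ℤ) = fun _ => k := by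
    intro k
    funext i
    have hi : i = Fin.last 0 := by
      ext
      have := i.isLt
      simp only [Fin.val_last]
      omega
    rw [hi]
    exact Fin.snoc_last _ _
  have h3 : ∑ j ∈ α.support, AJG.ev n ((HSSeq_gam α).coeff j) * φ (n + j) = 0 := by
    rw [← h1]
    apply Finset.sum_congr rfl
    intro j hj
    rw [HSSeq_gam_coeff, HSSeq_ev, map_mul, HSSeq_evz_fac]
    have h4 := hφ (n + j) (by omega)
    have h5 : f (Fin.snoc (fun i : Fin 0 => i.elim0) ((n : ℤ) + (j : ℤ))) =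
        (t ^ (4 * (((n + j : ℕ)) : ℤ)) - 1) * φ (n + j) := by
      rw [← h4, h2]
      push_cast
      rfl
    rw [h5]
    push_cast
    ring
  have h6 : ∀ s : Finset ℕ, α.support ⊆ s →
      ∑ j ∈ s, AJG.ev n ((HSSeq_gam α).coeff j) * φ (n + j) = 0 := by
    intro s hs
    rw [← h3]
    symm
    apply Finset.sum_subset hs
    intro j _ hj
    rw [HSSeq_gam_coeff, notMem_support_iff.mp hj, zero_mul, map_zero, zero_mul]
  apply h6
  intro j hj
  rw [Finset.mem_range, Nat.lt_succ_iff]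
  apply le_natDegree_of_ne_zero
  rw [HSSeq_gam_coeff]
  exact mul_ne_zero (mem_support_iff.mp hj) (HSSeq_fac_ne j)

end AJH

end

section

/-!
# MP_d3fa71_gt, project Mut, block H: dimension of the space of Laurent polynomial functions
-/

namespace AJH

theorem prf_LPDim : LPDim := by
  classical
  intro d N
  refine ⟨(Fintype.piFinset fun _ : Fin d => Finset.Icc (-(N : ℤ)) N).image mono, ?_, ?_⟩
  · refine Finset.card_image_le.trans (le_of_eq ?_)
    rw [Fintype.card_piFinset_const, Int.card_Icc]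
    congr 1
    omega
  · refine Submodule.span_mono ?_
    rintro f ⟨u, hu, rfl⟩
    rw [Finset.mem_coe, Finset.mem_image]
    refine ⟨u, ?_, rfl⟩
    rw [Fintype.mem_piFinset]
    intro i
    rw [Finset.mem_Icc]
    exact abs_le.1 (hu i)

end AJH

end

section

set_option autoImplicit false

/-! MP_d3fa71_gt, project Mut, block H, item LinDep. -/

open Polynomial

namespace AJH

theorem LinDep_expand (f : ℤ[X]) : f.eval₂ (Int.castRingHom (RatFunc ℚ)) (AJG.t ^ 4) =
    algebraMap ℚ[X] (RatFunc ℚ) (expand ℚ 4 (f.map (Int.castRingHom ℚ))) := by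
  rw [expand_eq_comp_X_pow, Polynomial.comp, Polynomial.hom_eval₂, Polynomial.eval₂_map, map_pow,
    RatFunc.algebraMap_X]
  congr 1
  exact RingHom.ext_int _ _

theorem LinDep_evq_inj : Function.Injective AJG.evq := by
  rw [injective_iff_map_eq_zero]
  intro b hb
  obtain ⟨n, f', hf'⟩ := LaurentPolynomial.exists_T_pow b
  have h1 : AJG.evq (toLaurent f') = 0 := by rw [hf', map_mul, hb, zero_mul]
  unfold AJG.evq at h1
  rw [LaurentPolynomial.eval₂_toLaurent] at h1
  have h2 : f'.eval₂ (Int.castRingHom (RatFunc ℚ)) (AJG.t ^ 4) = 0 := h1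
  rw [LinDep_expand, map_eq_zero_iff _ (RatFunc.algebraMap_injective ℚ),
    expand_eq_zero (by norm_num),
    Polynomial.map_eq_zero_iff (Int.cast_injective (α := ℚ))] at h2
  rw [h2, map_zero] at hf'
  have h3 : b * LaurentPolynomial.T n * LaurentPolynomial.T (-n) = 0 := by
    rw [← hf', zero_mul]
  rw [mul_assoc, ← LaurentPolynomial.T_add, add_neg_cancel, LaurentPolynomial.T_zero, mul_one] at h3
  exact h3

theorem LinDep_evq_T : AJG.evq (LaurentPolynomial.T 1) = t ^ 4 := by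
  unfold AJG.evq
  rw [LaurentPolynomial.eval₂_T]
  simp

/-- the field of fractions of `ℤ[q, q⁻¹]`. -/
abbrev LinDepF : Type := FractionRing (LaurentPolynomial ℤ)

/-- the embedding of `ℚ(q)` in `ℚ(t)`. -/
noncomputable def LinDep_phi : LinDepF →+* K := IsFractionRing.lift LinDep_evq_inj

theorem LinDep_phi_alg (c : LaurentPolynomial ℤ) :
    LinDep_phi (algebraMap (LaurentPolynomial ℤ) LinDepF c) = AJG.evq c :=
  IsFractionRing.lift_algebraMap LinDep_evq_inj c

noncomputable abbrev LinDep_algebra : Algebra LinDepF K := LinDep_phi.toAlgebra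

attribute [local instance] LinDep_algebra

theorem LinDep_integral : IsIntegral LinDepF (t : K) := by
  refine ⟨X ^ 4 - C (algebraMap (LaurentPolynomial ℤ) LinDepF (LaurentPolynomial.T 1)),
    monic_X_pow_sub_C _ (by norm_num), ?_⟩
  rw [eval₂_sub, eval₂_pow, eval₂_X, eval₂_C]
  have h : algebraMap LinDepF K (algebraMap (LaurentPolynomial ℤ) LinDepF
      (LaurentPolynomial.T 1)) = t ^ 4 := by
    rw [show algebraMap LinDepF K = LinDep_phi from rfl, LinDep_phi_alg, LinDep_evq_T]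
  rw [h, sub_self]

theorem LinDep_top : IntermediateField.adjoin LinDepF {(t : K)} = ⊤ := by
  rw [eq_top_iff]
  intro x _
  have ht : (RatFunc.X : K) ∈ IntermediateField.adjoin LinDepF {(t : K)} :=
    IntermediateField.mem_adjoin_simple_self LinDepF t
  have hp : ∀ p : ℚ[X], algebraMap ℚ[X] K p ∈ IntermediateField.adjoin LinDepF {(t : K)} := by
    intro p
    induction p using Polynomial.induction_on' with
    | add p q hp hq => rw [map_add]; exact add_mem hp hq
    | monomial n a =>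
      rw [← C_mul_X_pow_eq_monomial, map_mul, map_pow, RatFunc.algebraMap_X]
      refine mul_mem ?_ (pow_mem ht n)
      have : algebraMap ℚ[X] K (C a) = ((a : ℚ) : K) := by
        exact (eq_ratCast ((algebraMap ℚ[X] K).comp C) a)
      rw [this]
      exact SubfieldClass.ratCast_mem _ a
  rw [← RatFunc.num_div_denom x]
  exact div_mem (hp _) (hp _)

theorem LinDep_fin : FiniteDimensional LinDepF K := by
  have h : FiniteDimensional LinDepF (IntermediateField.adjoin LinDepF {(t : K)}) :=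
    IntermediateField.adjoin.finiteDimensional LinDep_integral
  rw [LinDep_top] at h
  exact Module.Finite.equiv (IntermediateField.topEquiv (F := LinDepF) (E := K)).toLinearEquiv

theorem prf_LinDep : LinDep := by
  refine ⟨Module.finrank LinDepF K, ?_⟩
  intro V _ _ _ ι _ v hv
  let _ : Module LinDepF V := Module.compHom V LinDep_phi
  have : IsScalarTower LinDepF K V := by
    constructor
    intro a b c
    change (LinDep_phi a * b) • c = LinDep_phi a • (b • c)
    rw [mul_smul]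
  have := LinDep_fin
  have : FiniteDimensional LinDepF V := Module.Finite.trans K V
  rw [Module.finrank_mul_finrank LinDepF K V] at hv
  have hnot : ¬ LinearIndependent LinDepF v := by
    intro h
    exact absurd h.fintype_card_le_finrank (by omega)
  rw [Fintype.not_linearIndependent_iff] at hnot
  obtain ⟨g, hg, i, hi⟩ := hnot
  obtain ⟨b, hb⟩ := IsLocalization.exist_integer_multiples
    (nonZeroDivisors (LaurentPolynomial ℤ)) (Finset.univ : Finset ι) g
  choose c hc using fun i => hb i (Finset.mem_univ i)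
  refine ⟨c, ?_, ?_⟩
  · intro h0
    have h1 := hc i
    rw [h0] at h1
    simp only [Pi.zero_apply, map_zero] at h1
    rw [eq_comm, Algebra.smul_def, mul_eq_zero] at h1
    rcases h1 with h1 | h1
    · have := (IsFractionRing.injective (LaurentPolynomial ℤ) LinDepF) (h1.trans (map_zero _).symm)
      exact nonZeroDivisors.coe_ne_zero b this
    · exact hi h1
  · have h2 : ∀ i, AJG.evq (c i) • v i =
        AJG.evq (b : LaurentPolynomial ℤ) • (g i • v i) := by
      intro i
      rw [← LinDep_phi_alg (c i), hc i, Algebra.smul_def, map_mul,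
        LinDep_phi_alg, mul_smul]
      rfl
    rw [Finset.sum_congr rfl (fun i _ => h2 i), ← Finset.smul_sum, hg, smul_zero]

end AJH

end

section

open Polynomial

namespace AJH

theorem QBin_t_ne : (t : K) ≠ 0 := RatFunc.X_ne_zero

theorem QBin_t_pow_ne {n : ℕ} (hn : 0 < n) : (1 : K) - t ^ n ≠ 0 := by
  intro h
  have h1 : (RatFunc.X : RatFunc ℚ) ^ n = 1 := (sub_eq_zero.1 h).symm
  have h2 : algebraMap ℚ[X] (RatFunc ℚ) (X ^ n) = algebraMap ℚ[X] (RatFunc ℚ) 1 := by
    rw [map_pow, RatFunc.algebraMap_X, map_one]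
    exact h1
  have h3 : (X ^ n : ℚ[X]) = 1 := RatFunc.algebraMap_injective ℚ h2
  have h4 := congrArg Polynomial.natDegree h3
  rw [Polynomial.natDegree_X_pow, Polynomial.natDegree_one] at h4
  omega

/-- `(q; q)_n`. -/
noncomputable def QBin_q (n : ℕ) : K := ∏ i ∈ Finset.range n, (1 - t ^ (4 * (i + 1)))

theorem QBin_q_ne (n : ℕ) : QBin_q n ≠ 0 := by
  unfold QBin_q
  rw [Finset.prod_ne_zero_iff]
  intro i _
  exact QBin_t_pow_ne (by omega)

theorem QBin_q_succ (n : ℕ) : QBin_q (n + 1) = QBin_q n * (1 - t ^ (4 * (n + 1))) :=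
  Finset.prod_range_succ _ _

theorem QBin_q_zero : QBin_q 0 = 1 := by simp [QBin_q]

theorem QBin_pq (n : ℕ) : pq (n : ℤ) = (QBin_q n)⁻¹ := by
  unfold pq QBin_q
  rw [if_pos (Int.natCast_nonneg n), Int.toNat_natCast]
  congr 1

/-- The `q`-binomial coefficients. -/
noncomputable def QBin_G (m l : ℕ) : K :=
  if l ≤ m then QBin_q m * (QBin_q l)⁻¹ * (QBin_q (m - l))⁻¹ else 0

theorem QBin_G_zero (m : ℕ) : QBin_G m 0 = 1 := by
  unfold QBin_G
  rw [if_pos (Nat.zero_le m), QBin_q_zero, inv_one, mul_one, Nat.sub_zero,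
    mul_inv_cancel₀ (QBin_q_ne m)]

theorem QBin_G_gt {m l : ℕ} (h : m < l) : QBin_G m l = 0 := by
  unfold QBin_G
  rw [if_neg (not_le.2 h)]

theorem QBin_G_rec (m l : ℕ) (h : l ≤ m) :
    QBin_G (m + 1) (l + 1) = QBin_G m (l + 1) + t ^ (4 * (m - l)) * QBin_G m l := by
  obtain ⟨d, rfl⟩ := Nat.exists_eq_add_of_le h
  have e1 : l + d - l = d := by omega
  unfold QBin_G
  rw [if_pos (show l + 1 ≤ l + d + 1 by omega), if_pos (show l ≤ l + d by omega),
    show l + d + 1 - (l + 1) = d by omega, e1]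
  have hl := QBin_q_ne l
  have hd := QBin_q_ne d
  have hl1 := QBin_t_pow_ne (n := 4 * (l + 1)) (by omega)
  rcases Nat.eq_zero_or_pos d with h0 | h0
  · subst h0
    rw [if_neg (show ¬ l + 1 ≤ l + 0 by omega), QBin_q_zero]
    simp only [Nat.add_zero, Nat.mul_zero, pow_zero, inv_one, mul_one, one_mul, zero_add]
    rw [mul_inv_cancel₀ (QBin_q_ne _), mul_inv_cancel₀ hl]
  · obtain ⟨c, rfl⟩ := Nat.exists_eq_succ_of_ne_zero h0.ne'
    rw [if_pos (show l + 1 ≤ l + c.succ by omega), show l + c.succ - (l + 1) = c by omega]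
    have hc := QBin_q_ne c
    have hc1 := QBin_t_pow_ne (n := 4 * (c + 1)) (by omega)
    rw [QBin_q_succ (l + c.succ), QBin_q_succ l, Nat.succ_eq_add_one, QBin_q_succ c]
    have h5 : (t : K) ^ (4 * (l + (c + 1) + 1)) = t ^ (4 * (l + 1)) * t ^ (4 * (c + 1)) := by
      rw [← pow_add]; congr 1; ring
    rw [h5]
    field_simp
    ring

/-- The `q`-binomial theorem. -/
theorem QBin_main (z : K) (m : ℕ) : ∏ i ∈ Finset.range m, (1 - z * t ^ (4 * i)) =
    ∑ l ∈ Finset.range (m + 1), (-1) ^ l * t ^ (4 * l.choose 2) * z ^ l * QBin_G m l := by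
  induction m with
  | zero => simp [QBin_G_zero]
  | succ m ih =>
    rw [Finset.prod_range_succ, ih, Finset.sum_range_succ' _ (m + 1), mul_sub, mul_one]
    have h1 : ∑ l ∈ Finset.range (m + 1),
        (-1 : K) ^ l * t ^ (4 * l.choose 2) * z ^ l * QBin_G m l =
        ∑ l ∈ Finset.range (m + 1),
          (-1 : K) ^ (l + 1) * t ^ (4 * (l + 1).choose 2) * z ^ (l + 1) * QBin_G m (l + 1) + 1 := by
      have h2 : ∑ l ∈ Finset.range (m + 1 + 1),
          (-1 : K) ^ l * t ^ (4 * l.choose 2) * z ^ l * QBin_G m l =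
          ∑ l ∈ Finset.range (m + 1),
          (-1 : K) ^ l * t ^ (4 * l.choose 2) * z ^ l * QBin_G m l := by
        rw [Finset.sum_range_succ _ (m + 1), QBin_G_gt (Nat.lt_succ_self m), mul_zero, add_zero]
      rw [← h2, Finset.sum_range_succ' _ (m + 1), QBin_G_zero]
      simp
    rw [h1]
    have h3 : ∀ l ∈ Finset.range (m + 1),
        (-1 : K) ^ (l + 1) * t ^ (4 * (l + 1).choose 2) * z ^ (l + 1) * QBin_G (m + 1) (l + 1) =
        (-1 : K) ^ (l + 1) * t ^ (4 * (l + 1).choose 2) * z ^ (l + 1) * QBin_G m (l + 1) -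
        ((-1 : K) ^ l * t ^ (4 * l.choose 2) * z ^ l * QBin_G m l) * (z * t ^ (4 * m)) := by
      intro l hl
      have hl' : l ≤ m := by rw [Finset.mem_range] at hl; omega
      rw [QBin_G_rec m l hl']
      have h4 : (l + 1).choose 2 = l.choose 2 + l := by
        rw [Nat.choose_succ_succ' l 1, Nat.choose_one_right]; ring
      have h5 : (t : K) ^ (4 * m) = t ^ (4 * l) * t ^ (4 * (m - l)) := by
        rw [← pow_add]; congr 1; omega
      rw [h4, h5, mul_add 4, pow_add (t : K) (4 * l.choose 2), pow_succ (-1 : K), pow_succ z]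
      ring
    rw [Finset.sum_congr rfl h3, Finset.sum_sub_distrib, ← Finset.sum_mul, h1]
    rw [QBin_G_zero]
    simp only [pow_zero, Nat.choose_zero_succ, Nat.mul_zero, mul_one]
    ring

theorem QBin_choose (l : ℕ) : (4 * (l.choose 2 : ℕ) : ℤ) = 2 * (l : ℤ) * (l - 1) := by
  induction l with
  | zero => simp
  | succ l ih =>
    have h4 : (l + 1).choose 2 = l.choose 2 + l := by
      rw [Nat.choose_succ_succ' l 1, Nat.choose_one_right]; ring
    rw [h4]
    push_cast
    rw [mul_add, ih]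
    ring

/-- The product `pr` as a product of `1 - z q ^ i`. -/
theorem QBin_pr (x : ℤ) (m : ℕ) :
    pr x m = ∏ i ∈ Finset.range m, (1 - (t : K) ^ (4 * (x - m + 1)) * t ^ (4 * i)) := by
  unfold pr
  rw [if_pos (Int.natCast_nonneg m), Int.toNat_natCast, ← Finset.prod_range_reflect]
  refine Finset.prod_congr rfl fun i hi => ?_
  rw [Finset.mem_range] at hi
  rw [← zpow_natCast, ← zpow_add₀ QBin_t_ne]
  congr 2
  have : ((m - 1 - i : ℕ) : ℤ) = m - 1 - i := by omega
  rw [this]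
  push_cast
  ring

theorem QBin_pr_q (k m : ℕ) (h : m ≤ k) : pr (k : ℤ) m * QBin_q (k - m) = QBin_q k := by
  obtain ⟨d, rfl⟩ := Nat.exists_eq_add_of_le' h
  rw [Nat.add_sub_cancel, QBin_pr, mul_comm]
  unfold QBin_q
  rw [Finset.prod_range_add]
  congr 1
  refine Finset.prod_congr rfl fun i _ => ?_
  rw [← zpow_natCast, ← zpow_add₀ QBin_t_ne, ← zpow_natCast]
  congr 2
  push_cast
  ring

theorem QBin_two (x : ℤ) (m : ℕ) : pr x m * pq m = ∑ l ∈ Finset.range (m + 1),
    (-1 : K) ^ l * t ^ (2 * (l : ℤ) * (l - 1) + 4 * l * (x - m + 1)) * pq l * pq (m - l) := by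
  rw [QBin_pr, QBin_main, QBin_pq, Finset.sum_mul]
  refine Finset.sum_congr rfl fun l hl => ?_
  have hl' : l ≤ m := by rw [Finset.mem_range] at hl; omega
  have e1 : (m : ℤ) - l = ((m - l : ℕ) : ℤ) := by omega
  rw [e1, QBin_pq, QBin_pq]
  unfold QBin_G
  rw [if_pos hl', zpow_add₀ QBin_t_ne, ← QBin_choose]
  have h1 : (t : K) ^ (4 * (l.choose 2 : ℕ) : ℤ) = t ^ (4 * l.choose 2) := by
    rw [← zpow_natCast]; push_cast; rfl
  have h2 : (t : K) ^ (4 * (l : ℤ) * (x - m + 1)) = (t ^ (4 * (x - m + 1))) ^ l := by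
    rw [← zpow_natCast, ← zpow_mul]; congr 1; ring
  rw [h1, h2]
  have hm := QBin_q_ne m
  field_simp

theorem QBin_one (a : ℤ) (ha : 0 ≤ a) : ∑ l ∈ Finset.range (a.toNat + 1),
    (-1 : K) ^ l * t ^ (2 * (l : ℤ) * (l + 1)) * pq l * pq (a - l) = 1 := by
  obtain ⟨m, rfl⟩ := Int.eq_ofNat_of_zero_le ha
  rw [Int.toNat_natCast]
  have h1 := QBin_two m m
  have h2 : pr (m : ℤ) m * pq m = 1 := by
    have h3 := QBin_pr_q m m le_rfl
    rw [Nat.sub_self, QBin_q_zero, mul_one] at h3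
    rw [h3, QBin_pq, mul_inv_cancel₀ (QBin_q_ne m)]
  rw [h2] at h1
  refine Eq.trans ?_ h1.symm
  refine Finset.sum_congr rfl fun l _ => ?_
  have e : 2 * (l : ℤ) * (l + 1) = 2 * (l : ℤ) * (l - 1) + 4 * l * ((m : ℤ) - m + 1) := by ring
  rw [e]

theorem prf_QBin : QBin := by
  refine ⟨QBin_one, QBin_two, fun x k => ?_⟩
  have h1 := QBin_two x k
  have hk : pr x k = QBin_q k * (pr x k * pq k) := by
    rw [QBin_pq]
    have := QBin_q_ne k
    field_simp
  rw [hk, h1, Finset.mul_sum]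
  refine Finset.sum_congr rfl fun m hm => ?_
  have hm' : m ≤ k := by rw [Finset.mem_range] at hm; omega
  have e1 : (k : ℤ) - m = ((k - m : ℕ) : ℤ) := by omega
  rw [e1, QBin_pq (k - m), ← QBin_pr_q k m hm']
  have := QBin_q_ne (k - m)
  field_simp

end AJH

end

section

open Polynomial

namespace AJH

/-- The inner operator. -/
noncomputable def SumL_in (a : Polynomial AJG.R2) (h : ℤ → K) (n : ℤ) : K :=
  a.sum fun j c => evz n c * h (n + j)

theorem SumL_in_add (a b : Polynomial AJG.R2) (h : ℤ → K) (n : ℤ) :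
    SumL_in (a + b) h n = SumL_in a h n + SumL_in b h n := by
  unfold SumL_in
  refine Polynomial.sum_add_index a b _ (fun i => ?_) (fun i x y => ?_)
  · rw [map_zero, zero_mul]
  · rw [map_add, add_mul]

theorem SumL_in_zero (h : ℤ → K) (n : ℤ) : SumL_in 0 h n = 0 := Polynomial.sum_zero_index _

theorem SumL_in_monomial (j : ℕ) (c : AJG.R2) (h : ℤ → K) (n : ℤ) :
    SumL_in (Polynomial.monomial j c) h n = evz n c * h (n + j) := by
  unfold SumL_in
  rw [Polynomial.sum_monomial_index]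
  rw [map_zero, zero_mul]

theorem SumL_act_eq {r : ℕ} (P : MvPolynomial (Fin r) (Polynomial AJG.R2))
    (f : ℤ → (Fin r → ℤ) → K) (n : ℤ) (y : Fin r → ℤ) (S : Finset (Fin r →₀ ℕ))
    (hS : P.support ⊆ S) : act P f n y = ∑ m ∈ S, SumL_in (MvPolynomial.coeff m P)
      (fun n' => f n' (fun i => y i + (m i : ℤ))) n := by
  have h1 : act P f n y = ∑ m ∈ P.support, SumL_in (MvPolynomial.coeff m P)
      (fun n' => f n' (fun i => y i + (m i : ℤ))) n := rfl
  rw [h1]
  refine Finset.sum_subset hS fun m _ hm => ?_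
  rw [MvPolynomial.notMem_support_iff.1 hm, SumL_in_zero]

theorem SumL_act_add {r : ℕ} (P Q : MvPolynomial (Fin r) (Polynomial AJG.R2))
    (f : ℤ → (Fin r → ℤ) → K) (n : ℤ) (y : Fin r → ℤ) :
    act (P + Q) f n y = act P f n y + act Q f n y := by
  classical
  rw [SumL_act_eq P f n y (P.support ∪ Q.support) Finset.subset_union_left,
    SumL_act_eq Q f n y (P.support ∪ Q.support) Finset.subset_union_right,
    SumL_act_eq (P + Q) f n y (P.support ∪ Q.support) MvPolynomial.support_add,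
    ← Finset.sum_add_distrib]
  refine Finset.sum_congr rfl fun m _ => ?_
  rw [MvPolynomial.coeff_add, SumL_in_add]

theorem SumL_act_zero {r : ℕ} (f : ℤ → (Fin r → ℤ) → K) (n : ℤ) (y : Fin r → ℤ) :
    act 0 f n y = 0 := by
  rw [SumL_act_eq 0 f n y ∅ (by simp)]
  simp

theorem SumL_act_monomial {r : ℕ} (m : Fin r →₀ ℕ) (a : Polynomial AJG.R2)
    (f : ℤ → (Fin r → ℤ) → K) (n : ℤ) (y : Fin r → ℤ) :
    act (MvPolynomial.monomial m a) f n y =
      SumL_in a (fun n' => f n' (fun i => y i + (m i : ℤ))) n := by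
  classical
  rw [SumL_act_eq _ f n y {m} MvPolynomial.support_monomial_subset, Finset.sum_singleton,
    MvPolynomial.coeff_monomial, if_pos rfl]

theorem SumL_act_mono {r : ℕ} (m : Fin r →₀ ℕ) (j : ℕ) (c : AJG.R2)
    (f : ℤ → (Fin r → ℤ) → K) (n : ℤ) (y : Fin r → ℤ) :
    act (MvPolynomial.monomial m (Polynomial.monomial j c)) f n y =
      evz n c * f (n + j) (fun i => y i + (m i : ℤ)) := by
  rw [SumL_act_monomial, SumL_in_monomial]

theorem SumL_ind {r : ℕ} {M : MvPolynomial (Fin r) (Polynomial AJG.R2) → Prop}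
    (hadd : ∀ P Q, M P → M Q → M (P + Q))
    (hmon : ∀ m j c, M (MvPolynomial.monomial m (Polynomial.monomial j c))) : ∀ P, M P := by
  intro P
  induction P using MvPolynomial.induction_on' with
  | monomial u a =>
    induction a using Polynomial.induction_on' with
    | add p q hp hq =>
      rw [map_add]
      exact hadd _ _ hp hq
    | monomial j c => exact hmon u j c
  | add p q hp hq => exact hadd _ _ hp hq

/-- Finiteness of fibres. -/
theorem SumL_fin {r : ℕ} (h : ℤ → ℤ → (Fin r → ℤ) → K)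
    (hh : ∀ n y, {k : ℤ | h k n y ≠ 0}.Finite)
    (Q : MvPolynomial (Fin r) (Polynomial AJG.R2)) :
    ∀ (n : ℤ) (y : Fin r → ℤ), {k : ℤ | act Q (h k) n y ≠ 0}.Finite := by
  refine SumL_ind (M := fun Q => ∀ (n : ℤ) (y : Fin r → ℤ),
    {k : ℤ | act Q (h k) n y ≠ 0}.Finite) ?_ ?_ Q
  · intro P Q hP hQ n y
    refine ((hP n y).union (hQ n y)).subset fun k hk => ?_
    by_contra hcon
    rw [Set.mem_union, not_or] at hcon
    simp only [Set.mem_ofPred_eq, not_not] at hcon
    refine hk ?_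
    rw [SumL_act_add, hcon.1, hcon.2, add_zero]
  · intro m j c n y
    refine (hh (n + j) (fun i => y i + (m i : ℤ))).subset fun k hk => ?_
    intro hcon
    refine hk ?_
    rw [SumL_act_mono, hcon, mul_zero]

/-- Operators commute with sums with finite fibres. -/
theorem SumL_comm {r : ℕ} (h : ℤ → ℤ → (Fin r → ℤ) → K)
    (hh : ∀ n y, {k : ℤ | h k n y ≠ 0}.Finite)
    (Q : MvPolynomial (Fin r) (Polynomial AJG.R2)) :
    ∀ (n : ℤ) (y : Fin r → ℤ),
      act Q (fun n y => ∑ᶠ k : ℤ, h k n y) n y = ∑ᶠ k : ℤ, act Q (h k) n y := by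
  refine SumL_ind (M := fun Q => ∀ (n : ℤ) (y : Fin r → ℤ),
    act Q (fun n y => ∑ᶠ k : ℤ, h k n y) n y = ∑ᶠ k : ℤ, act Q (h k) n y) ?_ ?_ Q
  · intro P Q hP hQ n y
    rw [SumL_act_add, hP, hQ, ← finsum_add_distrib (SumL_fin h hh P n y) (SumL_fin h hh Q n y)]
    refine finsum_congr fun k => ?_
    rw [SumL_act_add]
  · intro m j c n y
    rw [SumL_act_mono, mul_finsum]
    refine finsum_congr fun k => ?_
    rw [SumL_act_mono]

/-- The action of polynomials in the shift of the first variable. -/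
noncomputable def SumL_Act {r : ℕ} (V : Polynomial (MvPolynomial (Fin r) (Polynomial AJG.R2)))
    (g : ℤ → (Fin (r + 1) → ℤ) → K) (n k : ℤ) (y : Fin r → ℤ) : K :=
  V.sum fun i Q => act Q (fun n' y' => g n' (Fin.cons (k + i) y')) n y

theorem SumL_Act_add {r : ℕ} (V W : Polynomial (MvPolynomial (Fin r) (Polynomial AJG.R2)))
    (g : ℤ → (Fin (r + 1) → ℤ) → K) (n k : ℤ) (y : Fin r → ℤ) :
    SumL_Act (V + W) g n k y = SumL_Act V g n k y + SumL_Act W g n k y := by
  unfold SumL_Act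
  refine Polynomial.sum_add_index V W _ (fun i => ?_) (fun i P Q => ?_)
  · rw [SumL_act_zero]
  · rw [SumL_act_add]

theorem SumL_Act_monomial {r : ℕ} (i : ℕ) (Q : MvPolynomial (Fin r) (Polynomial AJG.R2))
    (g : ℤ → (Fin (r + 1) → ℤ) → K) (n k : ℤ) (y : Fin r → ℤ) :
    SumL_Act (Polynomial.monomial i Q) g n k y =
      act Q (fun n' y' => g n' (Fin.cons (k + i) y')) n y := by
  unfold SumL_Act
  rw [Polynomial.sum_monomial_index]
  rw [SumL_act_zero]

theorem SumL_Act_X {r : ℕ} (V : Polynomial (MvPolynomial (Fin r) (Polynomial AJG.R2)))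
    (g : ℤ → (Fin (r + 1) → ℤ) → K) (n k : ℤ) (y : Fin r → ℤ) :
    SumL_Act (Polynomial.X * V) g n k y = SumL_Act V g n (k + 1) y := by
  induction V using Polynomial.induction_on' with
  | add p q hp hq => rw [mul_add, SumL_Act_add, hp, hq, SumL_Act_add]
  | monomial i Q =>
    rw [Polynomial.X_mul_monomial, SumL_Act_monomial, SumL_Act_monomial]
    have h1 : (k + ((i + 1 : ℕ) : ℤ)) = k + 1 + i := by push_cast; ring
    rw [h1]

theorem SumL_Act_fin {r : ℕ} (g : ℤ → (Fin (r + 1) → ℤ) → K)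
    (hg : ∀ n (y : Fin r → ℤ), {k : ℤ | g n (Fin.cons k y) ≠ 0}.Finite)
    (V : Polynomial (MvPolynomial (Fin r) (Polynomial AJG.R2))) (n : ℤ) (y : Fin r → ℤ) :
    {k : ℤ | SumL_Act V g n k y ≠ 0}.Finite := by
  induction V using Polynomial.induction_on' with
  | add p q hp hq =>
    refine (hp.union hq).subset fun k hk => ?_
    by_contra hcon
    rw [Set.mem_union, not_or] at hcon
    simp only [Set.mem_ofPred_eq, not_not] at hcon
    refine hk ?_
    rw [SumL_Act_add, hcon.1, hcon.2, add_zero]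
  | monomial i Q =>
    have h1 : ∀ (n : ℤ) (y : Fin r → ℤ), {k : ℤ | g n (Fin.cons (k + i) y) ≠ 0}.Finite :=
      fun n y => (hg n y).preimage (Function.Injective.injOn (add_left_injective (i : ℤ)))
    have h2 := SumL_fin (fun k n' y' => g n' (Fin.cons (k + i) y')) h1 Q n y
    refine h2.subset fun k hk => ?_
    intro hcon
    exact hk ((SumL_Act_monomial i Q g n k y).trans hcon)

/-- The sum over the first variable. -/
theorem SumL_eval {r : ℕ} (g : ℤ → (Fin (r + 1) → ℤ) → K)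
    (hg : ∀ n (y : Fin r → ℤ), {k : ℤ | g n (Fin.cons k y) ≠ 0}.Finite)
    (V : Polynomial (MvPolynomial (Fin r) (Polynomial AJG.R2))) (n : ℤ) (y : Fin r → ℤ) :
    act (V.eval 1) (fun n y => ∑ᶠ k : ℤ, g n (Fin.cons k y)) n y =
      ∑ᶠ k : ℤ, SumL_Act V g n k y := by
  induction V using Polynomial.induction_on' with
  | add p q hp hq =>
    rw [Polynomial.eval_add, SumL_act_add, hp, hq,
      ← finsum_add_distrib (SumL_Act_fin g hg p n y) (SumL_Act_fin g hg q n y)]
    refine finsum_congr fun k => ?_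
    rw [SumL_Act_add]
  | monomial i Q =>
    have h1 : ∀ (n : ℤ) (y : Fin r → ℤ), {k : ℤ | g n (Fin.cons (k + i) y) ≠ 0}.Finite :=
      fun n y => (hg n y).preimage (Function.Injective.injOn (add_left_injective (i : ℤ)))
    have h2 := SumL_comm (fun k n' y' => g n' (Fin.cons (k + i) y')) h1 Q n y
    have h3 : (fun (n : ℤ) (y : Fin r → ℤ) => ∑ᶠ k : ℤ, g n (Fin.cons (k + i) y)) =
        fun n y => ∑ᶠ k : ℤ, g n (Fin.cons k y) := by
      funext n y
      exact finsum_comp_equiv (Equiv.addRight (i : ℤ)) (f := fun k => g n (Fin.cons k y))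
    rw [Polynomial.eval_monomial, one_pow, mul_one, ← h3]
    refine h2.trans (finsum_congr fun k => ?_)
    rw [SumL_Act_monomial]

/-- Cancellation of the differences. -/
theorem SumL_cancel {r : ℕ} (g : ℤ → (Fin (r + 1) → ℤ) → K)
    (hg : ∀ n (y : Fin r → ℤ), {k : ℤ | g n (Fin.cons k y) ≠ 0}.Finite)
    (W V : Polynomial (MvPolynomial (Fin r) (Polynomial AJG.R2))) (hWV : W + V = Polynomial.X * V)
    (h : ∀ n k y, SumL_Act W g n k y = 0) : ∀ n k y, SumL_Act V g n k y = 0 := by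
  intro n k y
  have h1 : ∀ k, SumL_Act V g n (k + 1) y = SumL_Act V g n k y := by
    intro k
    rw [← SumL_Act_X, ← hWV, SumL_Act_add, h, zero_add]
  have h3 : ∀ k, SumL_Act V g n k y = SumL_Act V g n 0 y := by
    intro k
    induction k using Int.induction_on with
    | zero => rfl
    | succ i hi => rw [h1, hi]
    | pred i hi =>
      have h4 := h1 (-(i : ℤ) - 1)
      rw [sub_add_cancel] at h4
      rw [← h4, hi]
  by_contra hne
  have h5 : {k : ℤ | SumL_Act V g n k y ≠ 0} = Set.univ := by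
    ext k'
    simp only [Set.mem_ofPred_eq, Set.mem_univ, iff_true]
    rw [h3 k', ← h3 k]
    exact hne
  have h6 := SumL_Act_fin g hg V n y
  rw [h5] at h6
  exact Set.infinite_univ h6

/-- Division by powers of `X - 1`. -/
theorem SumL_chainGen {A : Type} [CommRing A] (W : Polynomial A) (hW : W ≠ 0)
    (M : Polynomial A → Prop) (hM : M W)
    (hstep : ∀ V V' : Polynomial A, V + V' = Polynomial.X * V' → M V → M V') :
    ∃ R : Polynomial A, R.eval 1 ≠ 0 ∧ M R := by
  obtain ⟨R, hR, hnd⟩ := Polynomial.exists_eq_pow_rootMultiplicity_mul_and_not_dvd W hW 1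
  refine ⟨R, fun h0 => hnd (Polynomial.dvd_iff_isRoot.2 h0), ?_⟩
  have h1 : ∀ m : ℕ, M ((Polynomial.X - Polynomial.C 1) ^ m * R) → M R := by
    intro m
    induction m with
    | zero => intro h; simpa using h
    | succ m ih =>
      intro h
      refine ih (hstep _ _ ?_ h)
      rw [map_one]
      ring
  exact h1 _ (by rw [← hR]; exact hM)

theorem SumL_chain {r : ℕ} (W : Polynomial (MvPolynomial (Fin r) (Polynomial AJG.R2)))
    (hW : W ≠ 0) (M : Polynomial (MvPolynomial (Fin r) (Polynomial AJG.R2)) → Prop) (hM : M W)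
    (hstep : ∀ V V' : Polynomial (MvPolynomial (Fin r) (Polynomial AJG.R2)),
      V + V' = Polynomial.X * V' → M V → M V') :
    ∃ R : Polynomial (MvPolynomial (Fin r) (Polynomial AJG.R2)), R.eval 1 ≠ 0 ∧ M R :=
  @SumL_chainGen _ (@AddMonoidAlgebra.commRing (Polynomial AJG.R2) (Fin r →₀ ℕ) _ _)
    W hW M hM hstep

/-- Separation of the first variable. -/
theorem SumL_monoSucc {r : ℕ} (u : Fin (r + 1) →₀ ℕ) (a : Polynomial AJG.R2) :
    MvPolynomial.finSuccEquiv (Polynomial AJG.R2) r (MvPolynomial.monomial u a) =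
      Polynomial.monomial (u 0) (MvPolynomial.monomial (Finsupp.tail u) a) := by
  classical
  refine Polynomial.ext fun i => MvPolynomial.ext _ _ fun m => ?_
  rw [MvPolynomial.finSuccEquiv_coeff_coeff, MvPolynomial.coeff_monomial,
    Polynomial.coeff_monomial]
  by_cases h0 : u 0 = i
  · rw [if_pos h0, MvPolynomial.coeff_monomial]
    by_cases h1 : Finsupp.tail u = m
    · rw [if_pos h1, if_pos]
      rw [← h0, ← h1, Finsupp.cons_tail]
    · rw [if_neg h1, if_neg]
      intro h2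
      apply h1
      rw [h2, Finsupp.tail_cons]
  · rw [if_neg h0, MvPolynomial.coeff_zero, if_neg]
    intro h2
    apply h0
    rw [h2, Finsupp.cons_zero]

theorem SumL_act_cons {r : ℕ} (P : MvPolynomial (Fin (r + 1)) (Polynomial AJG.R2))
    (g : ℤ → (Fin (r + 1) → ℤ) → K) (n k : ℤ) (y : Fin r → ℤ) :
    act P g n (Fin.cons k y) =
      SumL_Act (MvPolynomial.finSuccEquiv (Polynomial AJG.R2) r P) g n k y := by
  induction P using MvPolynomial.induction_on' with
  | add p q hp hq => rw [SumL_act_add, hp, hq, map_add, SumL_Act_add]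
  | monomial u a =>
    rw [SumL_act_monomial, SumL_monoSucc, SumL_Act_monomial, SumL_act_monomial]
    congr 1
    funext n'
    congr 1
    funext i
    refine Fin.cases ?_ (fun j => ?_) i
    · rw [Fin.cons_zero, Fin.cons_zero]
    · rw [Fin.cons_succ, Fin.cons_succ, Finsupp.tail_apply]

theorem prf_SumL : SumL := by
  intro r g P hP h hg
  have hW : MvPolynomial.finSuccEquiv (Polynomial AJG.R2) r P ≠ 0 := by
    intro h0
    apply hP
    exact (MvPolynomial.finSuccEquiv (Polynomial AJG.R2) r).injective (by rw [h0, map_zero])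
  obtain ⟨R, hR, h1⟩ := SumL_chain _ hW (fun V => ∀ n k y, SumL_Act V g n k y = 0)
    (fun n k y => by rw [← SumL_act_cons]; exact h n _) (fun V V' hV => SumL_cancel g hg V V' hV)
  refine ⟨R.eval 1, hR, fun n y => ?_⟩
  rw [SumL_eval g hg, finsum_congr (h1 n · y), finsum_zero]

end AJH

end

section

open Polynomial

namespace AJH

theorem TameMul_mono {d : ℕ} (u v : Fin d → ℤ) :
    (mono u * mono v : (Fin d → ℤ) → K) = mono (u + v) := by
  funext x
  have ht : (t : K) ≠ 0 := RatFunc.X_ne_zero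
  simp only [Pi.mul_apply, mono, Pi.add_apply]
  rw [← zpow_add₀ ht, ← Finset.sum_add_distrib]
  congr 1
  exact Finset.sum_congr rfl fun i _ => by ring

theorem TameMul_LP {d N N' : ℕ} {p p' : (Fin d → ℤ) → K} (hp : p ∈ LP d N) (hp' : p' ∈ LP d N') :
    p * p' ∈ LP d (N + N') := by
  have h : p * p' ∈ LP d N * LP d N' := Submodule.mul_mem_mul hp hp'
  unfold LP at h
  rw [Submodule.span_mul_span] at h
  refine Submodule.span_mono ?_ h
  rintro f ⟨a, ⟨u, hu, rfl⟩, b, ⟨v, hv, rfl⟩, rfl⟩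
  refine ⟨u + v, fun i => ?_, TameMul_mono u v⟩
  have h1 := abs_add_le (u i) (v i)
  have h2 := hu i
  have h3 := hv i
  simp only [Pi.add_apply]
  push_cast
  linarith

theorem prf_TameMul : TameMul := by
  rintro d f g ⟨C1, h1⟩ ⟨C2, h2⟩
  refine ⟨C1 + C2, fun B => ?_⟩
  obtain ⟨Φ1, k1⟩ := h1 B
  obtain ⟨Φ2, k2⟩ := h2 B
  refine ⟨Φ1 * Φ2, fun s hs => ?_⟩
  obtain ⟨p1, m1, e1⟩ := k1 s hs
  obtain ⟨p2, m2, e2⟩ := k2 s hs
  refine ⟨p1 * p2, ?_, fun x => ?_⟩
  · rw [add_mul]
    exact TameMul_LP m1 m2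
  · simp only [Pi.mul_apply]
    rw [e1 x, e2 x]; ring

end AJH

end

section

open Polynomial

namespace AJH

theorem prf_TamePow : TamePow := by
  intro u hu
  refine ⟨0, fun B => ⟨fun x => u ^ (x 0), fun s _ => ⟨u ^ (s 0) • mono 0, ?_, fun x => ?_⟩⟩⟩
  · refine Submodule.smul_mem _ _ (Submodule.subset_span ⟨0, fun i => ?_, rfl⟩)
    simp
  · have h1 : (mono (0 : Fin 1 → ℤ) x : K) = 1 := by simp [mono]
    rw [Pi.smul_apply, h1, smul_eq_mul, mul_one]
    show u ^ (x 0 + s 0) = u ^ s 0 * u ^ x 0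
    rw [zpow_add₀ hu, mul_comm]

end AJH

end

section

/-!
# MP_d3fa71_gt, project Mut, block H: the inverse q-factorials are tame
-/

set_option autoImplicit false

open Polynomial

namespace AJH

theorem TamePq_ne0 : (t : K) ≠ 0 := RatFunc.X_ne_zero

theorem TamePq_pow_ne_one {k : ℕ} (hk : 0 < k) : (t : K) ^ k ≠ 1 := by
  intro h
  have h1 : algebraMap ℚ[X] (RatFunc ℚ) (Polynomial.X ^ k) =
      algebraMap ℚ[X] (RatFunc ℚ) (1 : ℚ[X]) := by
    rw [map_pow, RatFunc.algebraMap_X, map_one]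
    exact h
  have h2 := IsFractionRing.injective ℚ[X] (RatFunc ℚ) h1
  have h3 := congrArg Polynomial.natDegree h2
  rw [Polynomial.natDegree_X_pow, Polynomial.natDegree_one] at h3
  omega

theorem TamePq_zpow_ne {y : ℤ} (hy : 0 ≤ y) : 1 - (t : K) ^ (4 * (y + 1)) ≠ 0 := by
  intro h
  obtain ⟨n, rfl⟩ := Int.eq_ofNat_of_zero_le hy
  have h1 : (t : K) ^ (4 * (n + 1)) = 1 := by
    have : (4 * ((n : ℤ) + 1)) = ((4 * (n + 1) : ℕ) : ℤ) := by push_cast; ring
    rw [this, zpow_natCast] at h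
    exact (sub_eq_zero.1 h).symm
  exact TamePq_pow_ne_one (by omega) h1

theorem TamePq_rec (y : ℤ) : pq y = (1 - t ^ (4 * (y + 1))) * pq (y + 1) := by
  rcases lt_trichotomy y (-1) with h | h | h
  · unfold pq
    rw [if_neg (by omega), if_neg (by omega), mul_zero]
  · subst h
    unfold pq
    rw [if_neg (by omega)]
    simp
  · have hy : 0 ≤ y := by omega
    have h1 : (y + 1).toNat = y.toNat + 1 := by omega
    unfold pq
    rw [if_pos hy, if_pos (by omega), h1, Finset.prod_range_succ, mul_inv]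
    have h2 : ((y.toNat : ℕ) : ℤ) = y := Int.toNat_of_nonneg hy
    rw [h2, mul_comm (1 - t ^ (4 * (y + 1)))]
    rw [mul_assoc, inv_mul_cancel₀ (TamePq_zpow_ne hy), mul_one]

theorem TamePq_mono {N M : ℕ} (h : N ≤ M) : LP 1 N ≤ LP 1 M := by
  unfold LP
  apply Submodule.span_mono
  rintro f ⟨u, hu, rfl⟩
  exact ⟨u, fun i => (hu i).trans (by exact_mod_cast h), rfl⟩

theorem TamePq_one : (fun _ => 1 : (Fin 1 → ℤ) → K) ∈ LP 1 0 := by
  unfold LP
  apply Submodule.subset_span
  refine ⟨fun _ => 0, fun i => by simp, ?_⟩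
  funext x
  simp [mono]

theorem TamePq_shift {N : ℕ} {p : (Fin 1 → ℤ) → K} (hp : p ∈ LP 1 N) :
    (fun x => t ^ (4 * x 0) * p x) ∈ LP 1 (N + 4) := by
  unfold LP at hp
  induction hp using Submodule.span_induction with
  | mem p hp =>
    obtain ⟨u, hu, rfl⟩ := hp
    unfold LP
    apply Submodule.subset_span
    refine ⟨fun i => u i + 4, fun i => ?_, ?_⟩
    · have := hu i
      rw [abs_le] at this ⊢
      push_cast
      constructor <;> linarith [this.1, this.2]
    · funext x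
      simp only [mono, Fin.sum_univ_one]
      rw [← zpow_add₀ TamePq_ne0]
      congr 1
      ring
  | zero =>
    have : (fun x : Fin 1 → ℤ => t ^ (4 * x 0) * (0 : (Fin 1 → ℤ) → K) x) = 0 := by
      funext x
      simp
    rw [this]
    exact Submodule.zero_mem _
  | add p p' _ _ h h' =>
    have : (fun x : Fin 1 → ℤ => t ^ (4 * x 0) * (p + p') x) =
        (fun x => t ^ (4 * x 0) * p x) + fun x => t ^ (4 * x 0) * p' x := by
      funext x
      simp only [Pi.add_apply]
      ring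
    rw [this]
    exact Submodule.add_mem _ h h'
  | smul c p _ h =>
    have : (fun x : Fin 1 → ℤ => t ^ (4 * x 0) * (c • p) x) =
        c • (fun x => t ^ (4 * x 0) * p x) := by
      funext x
      simp only [Pi.smul_apply, smul_eq_mul]
      ring
    rw [this]
    exact Submodule.smul_mem _ _ h

theorem TamePq_iter (B : ℤ) : ∀ (n : ℕ) (c : ℤ), c + n = B → ∃ p ∈ LP 1 (4 * n),
    ∀ x : Fin 1 → ℤ, pq (x 0 + c) = p x * pq (x 0 + B) := by
  intro n
  induction n with
  | zero =>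
    intro c hc
    refine ⟨fun _ => 1, TamePq_one, fun x => ?_⟩
    have : c = B := by simpa using hc
    rw [this, one_mul]
  | succ n ih =>
    intro c hc
    obtain ⟨p, hp, h⟩ := ih (c + 1) (by push_cast at hc; omega)
    have hp' : (fun x => t ^ (4 * x 0) * p x) ∈ LP 1 (4 * (n + 1)) := by
      have := TamePq_shift hp
      rwa [show 4 * n + 4 = 4 * (n + 1) by ring] at this
    refine ⟨p + (-(t ^ (4 * (c + 1)))) • (fun x => t ^ (4 * x 0) * p x),
      Submodule.add_mem _ (TamePq_mono (by omega) hp) (Submodule.smul_mem _ _ hp'), fun x => ?_⟩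
    have e1 := h x
    rw [← add_assoc] at e1
    rw [TamePq_rec (x 0 + c), e1]
    have e2 : (t : K) ^ (4 * (x 0 + c + 1)) = t ^ (4 * (c + 1)) * t ^ (4 * x 0) := by
      rw [← zpow_add₀ TamePq_ne0]
      congr 1
      ring
    rw [e2]
    simp only [Pi.add_apply, Pi.smul_apply, smul_eq_mul]
    ring

theorem prf_TamePq : TamePq := by
  refine ⟨4, fun B => ⟨fun x => pq (x 0 + B), fun s hs => ?_⟩⟩
  have h0 := hs 0
  obtain ⟨p, hp, h⟩ := TamePq_iter B (B - s 0).toNat (s 0) (by omega)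
  refine ⟨p, TamePq_mono (by omega) hp, fun x => ?_⟩
  exact h x

end AJH

end
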