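import Pool.Agent.Work.MP_d3fa71_gt.Mut.Bd.B20
import Pool.Agent.Work.MP_d3fa71_gt.Mut.Bd.B01

/-! Bundle of small proof modules (one section per former module). -/

section

set_option autoImplicit false

/-!
# The inverse of the `R`-matrix
-/

open Polynomial Matrix
open scoped Kronecker

namespace AJH

theorem RInv_pow_ne {n : ℕ} (hn : n ≠ 0) : (t : K) ^ n ≠ 1 := by
  intro h
  have h1 : algebraMap ℚ[X] (RatFunc ℚ) (X ^ n) = algebraMap ℚ[X] (RatFunc ℚ) 1 := by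
    rw [map_pow, map_one, RatFunc.algebraMap_X]
    exact h
  have h2 := RatFunc.algebraMap_injective ℚ h1
  have h3 := congrArg Polynomial.natDegree h2
  rw [Polynomial.natDegree_X_pow, Polynomial.natDegree_one] at h3
  exact hn h3

theorem RInv_t_ne : (t : K) ≠ 0 := RatFunc.X_ne_zero

theorem RInv_zpow_ne {e : ℤ} (he : e ≠ 0) : (t : K) ^ e ≠ 1 := by
  intro h
  rcases Int.eq_nat_or_neg e with ⟨n, rfl | rfl⟩
  · rw [zpow_natCast] at h
    exact RInv_pow_ne (by simpa using he) h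
  · rw [_root_.zpow_neg, zpow_natCast, inv_eq_one] at h
    exact RInv_pow_ne (by simpa using he) h

/-- The difference `t ^ a - t ^ (-a)` is not zero. -/
theorem RInv_sub_ne {a : ℤ} (ha : a ≠ 0) : (t : K) ^ a - t ^ (-a) ≠ 0 := by
  intro h
  have h1 : (t : K) ^ (a + a) = 1 := by
    rw [zpow_add₀ RInv_t_ne]
    nth_rewrite 1 [sub_eq_zero.1 h]
    rw [← zpow_add₀ RInv_t_ne]
    simp
  exact RInv_zpow_ne (by omega) h1

theorem RInv_qi_ne (m : ℕ) : AJM.qi (m + 1) ≠ 0 := by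
  unfold AJM.qi
  refine div_ne_zero ?_ ?_
  · exact RInv_sub_ne (a := 2 * ((m + 1 : ℕ) : ℤ)) (by positivity)
  · exact RInv_sub_ne (a := 2) (by norm_num)

/-- The coefficients of the unipotent part. -/
noncomputable def RInv_c (k : ℕ) : K :=
  AJM.tq ^ (k * (k - 1)) * (AJM.tq ^ (2 : ℤ) - AJM.tq ^ (-2 : ℤ)) ^ k /
    ∏ i ∈ Finset.range k, AJM.qi (i + 1)

theorem RInv_prod_ne (k : ℕ) : ∏ i ∈ Finset.range k, AJM.qi (i + 1) ≠ 0 :=
  Finset.prod_ne_zero_iff.2 fun i _ => RInv_qi_ne i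

theorem RInv_c_rec (k : ℕ) : RInv_c (k + 1) * AJM.qi (k + 1) =
    RInv_c k * (AJM.tq ^ (2 : ℤ) - AJM.tq ^ (-2 : ℤ)) * AJM.tq ^ (2 * (k : ℤ)) := by
  have h1 := RInv_prod_ne k
  have h2 := RInv_qi_ne k
  unfold RInv_c
  rw [Finset.prod_range_succ]
  have h3 : (k + 1) * (k + 1 - 1) = k * (k - 1) + 2 * k := by
    rcases k with _ | k
    · rfl
    · simp only [Nat.add_sub_cancel]; ring
  have h4 : AJM.tq ^ (2 * (k : ℤ)) = AJM.tq ^ (2 * k) := by
    rw [← zpow_natCast]; push_cast; rfl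
  rw [h3, h4, pow_add, pow_succ]
  field_simp

theorem RInv_cb_rec (k : ℕ) : ckb (k + 1) * AJM.qi (k + 1) =
    -(ckb k * (AJM.tq ^ (2 : ℤ) - AJM.tq ^ (-2 : ℤ)) * AJM.tq ^ (-(2 * (k : ℤ)))) := by
  have h1 := RInv_prod_ne k
  have h2 := RInv_qi_ne k
  unfold ckb
  rw [Finset.prod_range_succ]
  have h3 : (t : K) ^ (-(((k + 1 : ℕ) : ℤ) * (((k + 1 : ℕ) : ℤ) - 1))) =
      t ^ (-((k : ℤ) * ((k : ℤ) - 1))) * t ^ (-(2 * (k : ℤ))) := by
    rw [← zpow_add₀ RInv_t_ne]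
    congr 1
    push_cast
    ring
  have h4 : (AJM.tq : K) = t := rfl
  rw [h3, h4, pow_succ, pow_succ]
  field_simp

theorem RInv_qi_zero : AJM.qi 0 = 0 := by
  unfold AJM.qi
  simp

theorem RInv_c_zero : RInv_c 0 = 1 := by
  unfold RInv_c
  simp

theorem RInv_cb_zero : ckb 0 = 1 := by
  unfold ckb
  simp

/-- `[i + j] = s ^ (-j) [i] + s ^ i [j]`. -/
theorem RInv_qi_add (i j : ℕ) : AJM.qi (i + j) =
    AJM.tq ^ (-(2 * (j : ℤ))) * AJM.qi i + AJM.tq ^ (2 * (i : ℤ)) * AJM.qi j := by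
  have h0 : (AJM.tq : K) ≠ 0 := RInv_t_ne
  unfold AJM.qi
  rw [← mul_div_assoc, ← mul_div_assoc, ← add_div]
  congr 1
  rw [mul_sub, mul_sub, ← zpow_add₀ h0, ← zpow_add₀ h0, ← zpow_add₀ h0, ← zpow_add₀ h0]
  have e1 : 2 * (((i + j : ℕ)) : ℤ) = 2 * (i : ℤ) + 2 * (j : ℤ) := by push_cast; ring
  have e2 : -(2 * (((i + j : ℕ)) : ℤ)) = -(2 * (j : ℤ)) + -(2 * (i : ℤ)) := by push_cast; ring
  have e3 : -(2 * (j : ℤ)) + 2 * (i : ℤ) = 2 * (i : ℤ) + -(2 * (j : ℤ)) := by ring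
  rw [e1, e3]
  have e4 : -(2 * (i : ℤ) + 2 * (j : ℤ)) = -(2 * (j : ℤ)) + -(2 * (i : ℤ)) := by ring
  rw [e4]
  ring

theorem RInv_conv (N : ℕ) :
    ∑ p ∈ Finset.HasAntidiagonal.antidiagonal (N + 1), RInv_c p.1 * ckb p.2 = 0 := by
  have hN := RInv_qi_ne N
  refine (mul_eq_zero.1 ?_).resolve_left hN
  rw [Finset.mul_sum]
  have h1 : ∀ p ∈ Finset.HasAntidiagonal.antidiagonal (N + 1), AJM.qi (N + 1) * (RInv_c p.1 * ckb p.2) =
      AJM.tq ^ (-(2 * (p.2 : ℤ))) * (RInv_c p.1 * AJM.qi p.1) * ckb p.2 +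
      AJM.tq ^ (2 * (p.1 : ℤ)) * RInv_c p.1 * (ckb p.2 * AJM.qi p.2) := by
    intro p hp
    rw [Finset.HasAntidiagonal.mem_antidiagonal] at hp
    rw [← hp, RInv_qi_add]
    ring
  rw [Finset.sum_congr rfl h1, Finset.sum_add_distrib,
    Finset.Nat.sum_antidiagonal_succ (f := fun p =>
      AJM.tq ^ (-(2 * (p.2 : ℤ))) * (RInv_c p.1 * AJM.qi p.1) * ckb p.2),
    Finset.Nat.sum_antidiagonal_succ' (f := fun p =>
      AJM.tq ^ (2 * (p.1 : ℤ)) * RInv_c p.1 * (ckb p.2 * AJM.qi p.2))]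
  simp only [RInv_qi_zero, mul_zero, zero_mul, zero_add, RInv_c_rec, RInv_cb_rec]
  rw [← Finset.sum_add_distrib]
  refine Finset.sum_eq_zero fun p _ => ?_
  ring

theorem RInv_E_ne {n : ℕ} : ∀ (k : ℕ) (i j : Fin n), (AJM.Em n ^ k) i j ≠ 0 →
    (i : ℕ) + k = j := by
  intro k
  induction k with
  | zero =>
    intro i j h
    rw [pow_zero, Matrix.one_apply] at h
    by_contra hne
    exact h (if_neg fun h1 => hne (by rw [h1]; rfl))
  | succ k ih =>
    intro i j h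
    rw [pow_succ, Matrix.mul_apply] at h
    obtain ⟨l, -, hl⟩ := Finset.exists_ne_zero_of_sum_ne_zero h
    have h1 := ih i l (left_ne_zero_of_mul hl)
    have h2 : (l : ℕ) + 1 = j := by
      by_contra hne
      refine right_ne_zero_of_mul hl ?_
      show (if (l : ℕ) + 1 = j then _ else (0 : RatFunc ℚ)) = 0
      rw [if_neg hne]
    omega

theorem RInv_E_pow (n : ℕ) : AJM.Em n ^ n = 0 := by
  ext i j
  by_contra h
  have := RInv_E_ne n i j h
  omega

theorem RInv_kron (n k : ℕ) : (AJM.Em n ^ k) ⊗ₖ (AJM.Fm n ^ k) =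
    (AJM.Em n ⊗ₖ AJM.Fm n) ^ k := by
  induction k with
  | zero => rw [pow_zero, pow_zero, pow_zero, Matrix.one_kronecker_one]
  | succ k ih => rw [pow_succ, pow_succ, pow_succ, Matrix.mul_kronecker_mul, ih]

/-- Truncated power series at a nilpotent element. -/
theorem RInv_trunc {A : Type} [Ring A] [Algebra K A] {x : A} {n : ℕ} (hn : 0 < n)
    (hx : x ^ n = 0) (c c' : ℕ → K) (h0 : c 0 * c' 0 = 1)
    (h1 : ∀ N, ∑ p ∈ Finset.HasAntidiagonal.antidiagonal (N + 1), c p.1 * c' p.2 = 0) :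
    (∑ k ∈ Finset.range n, c k • x ^ k) * (∑ k ∈ Finset.range n, c' k • x ^ k) = 1 := by
  set P : K[X] := ∑ k ∈ Finset.range n, monomial k (c k) with hP
  set P' : K[X] := ∑ k ∈ Finset.range n, monomial k (c' k) with hP'
  have e1 : aeval x P = ∑ k ∈ Finset.range n, c k • x ^ k := by
    rw [hP, map_sum]
    refine Finset.sum_congr rfl fun k _ => ?_
    rw [aeval_monomial, Algebra.smul_def]
  have e2 : aeval x P' = ∑ k ∈ Finset.range n, c' k • x ^ k := by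
    rw [hP', map_sum]
    refine Finset.sum_congr rfl fun k _ => ?_
    rw [aeval_monomial, Algebra.smul_def]
  have c1 : ∀ i, i < n → P.coeff i = c i := by
    intro i hi
    rw [hP, finsetSum_coeff]
    simp [coeff_monomial, hi]
  have c2 : ∀ i, i < n → P'.coeff i = c' i := by
    intro i hi
    rw [hP', finsetSum_coeff]
    simp [coeff_monomial, hi]
  rw [← e1, ← e2, ← map_mul, aeval_eq_sum_range' (n := (P * P').natDegree + 1) (by omega),
    Finset.sum_eq_single_of_mem 0 (by simp)]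
  · rw [pow_zero, mul_coeff_zero, c1 0 hn, c2 0 hn, h0, one_smul]
  · intro m _ hm
    rcases lt_or_ge m n with h | h
    · obtain ⟨N, rfl⟩ := Nat.exists_eq_succ_of_ne_zero hm
      rw [coeff_mul]
      have h2 : ∑ p ∈ Finset.HasAntidiagonal.antidiagonal N.succ, P.coeff p.1 * P'.coeff p.2 =
          ∑ p ∈ Finset.HasAntidiagonal.antidiagonal (N + 1), c p.1 * c' p.2 := by
        refine Finset.sum_congr rfl fun p hp => ?_
        have h3 := Finset.HasAntidiagonal.mem_antidiagonal.1 hp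
        rw [c1 p.1 (by omega), c2 p.2 (by omega)]
      rw [h2, h1, zero_smul]
    · obtain ⟨d, rfl⟩ := Nat.exists_eq_add_of_le h
      rw [pow_add, hx, zero_mul, smul_zero]

theorem prf_RInv : RInv := by
  intro n
  rcases Nat.eq_zero_or_pos n with rfl | hn
  · exact Subsingleton.elim _ _
  have hx : (AJM.Em n ⊗ₖ AJM.Fm n) ^ n = 0 := by
    rw [← RInv_kron, RInv_E_pow, Matrix.zero_kronecker]
  have h1 := RInv_trunc (A := Matrix (Fin n × Fin n) (Fin n × Fin n) (RatFunc ℚ)) hn hx RInv_c ckb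
    (by rw [RInv_c_zero, RInv_cb_zero, one_mul]) RInv_conv
  have h2 : AJM.Rm n = Matrix.diagonal (fun p => AJM.tq ^ (AJM.wt n p.1 * AJM.wt n p.2)) *
      ∑ k ∈ Finset.range n, RInv_c k • (AJM.Em n ⊗ₖ AJM.Fm n) ^ k := by
    unfold AJM.Rm
    congr 1
    refine Finset.sum_congr rfl fun k _ => ?_
    rw [← RInv_kron]
    rfl
  have h3 : ∑ k ∈ Finset.range n, ckb k • ((AJM.Em n ^ k) ⊗ₖ (AJM.Fm n ^ k)) =
      ∑ k ∈ Finset.range n, ckb k • (AJM.Em n ⊗ₖ AJM.Fm n) ^ k :=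
    Finset.sum_congr rfl fun k _ => by rw [RInv_kron]
  rw [h2, h3, mul_assoc, ← mul_assoc (∑ k ∈ Finset.range n, RInv_c k • _), h1, one_mul,
    Matrix.diagonal_mul_diagonal]
  rw [← Matrix.diagonal_one]
  congr 1
  funext p
  show t ^ _ * t ^ _ = (1 : K)
  rw [← zpow_add₀ RInv_t_ne, add_neg_cancel, zpow_zero]

end AJH

end

section

/-!
# MP_d3fa71_gt, project Mut, block H, second part: item VzOpw
-/

open Polynomial Matrix
open scoped Kronecker

namespace AJH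

lemma VzOpw_cc (n : ℕ) (i : Fin n) : AJM.cc n i = cz n (i : ℕ) := by
  unfold AJM.cc cz
  rw [zpow_natCast]
  rfl

/-- A sum over `Fin n` as a sum over the integers. -/
lemma VzOpw_fsum {n : ℕ} (f : ℤ → K) :
    ∑ c : Fin n, f ((c : ℕ) : ℤ) = ∑ᶠ c : ℤ, (if 0 ≤ c ∧ c < n then f c else 0) := by
  have hinj : Function.Injective (fun c : Fin n => ((c : ℕ) : ℤ)) := by
    intro c d h
    have h2 : ((c : ℕ) : ℤ) = ((d : ℕ) : ℤ) := h
    exact Fin.ext (by exact_mod_cast h2)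
  rw [finsum_eq_sum_of_support_subset (s := Finset.image (fun c : Fin n => ((c : ℕ) : ℤ))
    Finset.univ), Finset.sum_image (fun c _ d _ h => hinj h)]
  · apply Finset.sum_congr rfl
    intro c _
    have h1 := c.isLt
    rw [if_pos ⟨by omega, by omega⟩]
  · intro c hc
    rw [Function.mem_support] at hc
    have h1 : 0 ≤ c ∧ c < n := by
      by_contra h
      exact hc (if_neg h)
    simp only [Finset.coe_image, Finset.coe_univ, Set.image_univ, Set.mem_range]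
    exact ⟨⟨c.toNat, by omega⟩, by simp [h1.1]⟩

/-- A double sum over the diagonal. -/
lemma VzOpw_dsum {n : ℕ} (H : ℤ → K) (P Q : ℤ)
    (hH : ∀ k, H k ≠ 0 → (0 ≤ P - k ∧ P - k < n) ∧ (0 ≤ Q + k ∧ Q + k < n)) :
    ∑ c : Fin n, ∑ d : Fin n,
      (if P - ((c : ℕ) : ℤ) = ((d : ℕ) : ℤ) - Q then H (P - ((c : ℕ) : ℤ)) else 0) =
      ∑ᶠ k : ℤ, H k := by
  have h1 : ∀ c : Fin n, ∑ d : Fin n,
      (if P - ((c : ℕ) : ℤ) = ((d : ℕ) : ℤ) - Q then H (P - ((c : ℕ) : ℤ)) else 0) =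
      H (P - ((c : ℕ) : ℤ)) := by
    intro c
    by_cases h0 : H (P - ((c : ℕ) : ℤ)) = 0
    · simp [h0]
    · obtain ⟨_, h2, h3⟩ := hH _ h0
      have h4 : (Q + (P - ((c : ℕ) : ℤ))).toNat < n := by omega
      rw [Finset.sum_eq_single (⟨(Q + (P - ((c : ℕ) : ℤ))).toNat, h4⟩ : Fin n)]
      · rw [if_pos]
        show P - ((c : ℕ) : ℤ) = (((Q + (P - ((c : ℕ) : ℤ))).toNat : ℕ) : ℤ) - Q
        rw [Int.toNat_of_nonneg h2]
        ring
      · intro d _ hd
        rw [if_neg]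
        intro h5
        apply hd
        apply Fin.ext
        show (d : ℕ) = (Q + (P - ((c : ℕ) : ℤ))).toNat
        omega
      · intro h
        exact absurd (Finset.mem_univ _) h
  simp only [h1]
  have hinj : Function.Injective (fun c : Fin n => P - ((c : ℕ) : ℤ)) := by
    intro c d h
    have h2 : P - ((c : ℕ) : ℤ) = P - ((d : ℕ) : ℤ) := h
    exact Fin.ext (by omega)
  rw [finsum_eq_sum_of_support_subset (s := Finset.image (fun c : Fin n => P - ((c : ℕ) : ℤ))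
    Finset.univ), Finset.sum_image (fun c _ d _ h => hinj h)]
  intro k hk
  rw [Function.mem_support] at hk
  obtain ⟨⟨h2, h3⟩, _⟩ := hH k hk
  simp only [Finset.coe_image, Finset.coe_univ, Set.image_univ, Set.mem_range]
  refine ⟨⟨(P - k).toNat, by omega⟩, ?_⟩
  show P - (((P - k).toNat : ℕ) : ℤ) = k
  omega

/-- One move at position `0`. -/
lemma VzOpw_cor (hB : BEnt) (hBi : BiEnt) (n : ℕ) (k : AJM.Kd) (s : List (Fin n))
    (G : List (Fin n) → K) (g : List ℤ → K)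
    (hG : ∀ s', G s' = g (s'.map fun a : Fin n => ((a : ℕ) : ℤ))) :
    Finsupp.linearCombination K G (AJM.act n k 0 s) =
      cor n k g (s.map fun a : Fin n => ((a : ℕ) : ℤ)) := by
  cases k with
  | cup =>
    have h1 : AJM.act n .cup 0 s = ∑ i : Fin n, Finsupp.single (i :: i.rev :: s) (AJM.cc n i) := by
      simp [AJM.act]
    have h2 : cor n .cup g (s.map fun a : Fin n => ((a : ℕ) : ℤ)) =
        ∑ᶠ c : ℤ, (if 0 ≤ c ∧ c < n then
          (fun c : ℤ => cz n c * g (c :: (n - 1 - c) :: (s.map fun a : Fin n => ((a : ℕ) : ℤ)))) c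
          else 0) := by
      simp [cor]
    rw [h1, h2, ← VzOpw_fsum, map_sum]
    apply Finset.sum_congr rfl
    intro i _
    rw [Finsupp.linearCombination_single, smul_eq_mul, hG, VzOpw_cc]
    simp only [List.map_cons]
    have h3 : ((i.rev : ℕ) : ℤ) = (n : ℤ) - 1 - ((i : ℕ) : ℤ) := by
      rw [Fin.val_rev]
      have := i.isLt
      omega
    rw [h3]
  | cap =>
    match s with
    | [] => simp [AJM.act, cor]
    | [a] => simp [AJM.act, cor]
    | a :: b :: u =>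
      have h1 : AJM.act n .cap 0 (a :: b :: u) =
          if b = a.rev then Finsupp.single u (AJM.cc n b)⁻¹ else 0 := by
        simp [AJM.act]
      have h2 : cor n .cap g ((a :: b :: u).map fun a : Fin n => ((a : ℕ) : ℤ)) =
          if ((b : ℕ) : ℤ) = n - 1 - ((a : ℕ) : ℤ) ∧ 0 ≤ ((a : ℕ) : ℤ) ∧ ((a : ℕ) : ℤ) < n then
            (cz n ((b : ℕ) : ℤ))⁻¹ * g (u.map fun a : Fin n => ((a : ℕ) : ℤ)) else 0 := by
        simp only [List.map_cons, cor]
      rw [h1, h2]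
      have ha := a.isLt
      have hb := b.isLt
      by_cases h : b = a.rev
      · have h3 : ((b : ℕ) : ℤ) = (n : ℤ) - 1 - ((a : ℕ) : ℤ) := by
          rw [h, Fin.val_rev]
          omega
        rw [if_pos h, if_pos ⟨h3, by omega, by omega⟩, Finsupp.linearCombination_single,
          smul_eq_mul, hG, VzOpw_cc]
      · have h3 : ¬ (((b : ℕ) : ℤ) = n - 1 - ((a : ℕ) : ℤ) ∧ 0 ≤ ((a : ℕ) : ℤ) ∧
            ((a : ℕ) : ℤ) < n) := by
          rintro ⟨h4, _⟩
          apply h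
          apply Fin.ext
          rw [Fin.val_rev]
          omega
        rw [if_neg h, if_neg h3, map_zero]
  | neg =>
    match s with
    | [] => simp [AJM.act, cor]
    | [a] => simp [AJM.act, cor]
    | a :: b :: u =>
      have h1 : AJM.act n .neg 0 (a :: b :: u) =
          ∑ p : Fin n × Fin n, Finsupp.single (p.1 :: p.2 :: u) (AJM.Bm n p (a, b)) := by
        simp [AJM.act]
      have h2 : cor n .neg g ((a :: b :: u).map fun a : Fin n => ((a : ℕ) : ℤ)) =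
          ∑ᶠ k : ℤ, (if (0 ≤ ((a : ℕ) : ℤ) ∧ ((a : ℕ) : ℤ) < n) ∧
            (0 ≤ ((b : ℕ) : ℤ) ∧ ((b : ℕ) : ℤ) < n) ∧
            (0 ≤ ((b : ℕ) : ℤ) + k ∧ ((b : ℕ) : ℤ) + k < n) ∧
            (0 ≤ ((a : ℕ) : ℤ) - k ∧ ((a : ℕ) : ℤ) - k < n)
            then bz n ((a : ℕ) : ℤ) ((b : ℕ) : ℤ) k * g ((((b : ℕ) : ℤ) + k) ::
              (((a : ℕ) : ℤ) - k) :: (u.map fun a : Fin n => ((a : ℕ) : ℤ))) else 0) := by
        simp only [List.map_cons, cor]
      rw [h1, h2]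
      have ha := a.isLt
      have hb := b.isLt
      rw [← VzOpw_dsum (n := n) _ ((a : ℕ) : ℤ) ((b : ℕ) : ℤ), map_sum, Fintype.sum_prod_type,
        Finset.sum_comm]
      · apply Finset.sum_congr rfl
        intro d _
        apply Finset.sum_congr rfl
        intro c _
        have hc := c.isLt
        have hd := d.isLt
        rw [Finsupp.linearCombination_single, smul_eq_mul, hG, hB]
        by_cases h : ((a : ℕ) : ℤ) - ((d : ℕ) : ℤ) = ((c : ℕ) : ℤ) - ((b : ℕ) : ℤ)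
        · have e1 : ((b : ℕ) : ℤ) + (((a : ℕ) : ℤ) - ((d : ℕ) : ℤ)) = ((c : ℕ) : ℤ) := by
            rw [h]; ring
          have e2 : ((a : ℕ) : ℤ) - (((a : ℕ) : ℤ) - ((d : ℕ) : ℤ)) = ((d : ℕ) : ℤ) := by ring
          rw [if_pos h.symm, if_pos h, e1, e2, if_pos
            ⟨⟨by omega, by omega⟩, ⟨by omega, by omega⟩, ⟨by omega, by omega⟩,
              by omega, by omega⟩]
          rfl
        · rw [if_neg (fun h' => h h'.symm), if_neg h, zero_mul]
      · intro k hk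
        by_contra hcon
        apply hk
        rw [if_neg]
        rintro ⟨_, _, h3, h4⟩
        exact hcon ⟨h4, h3⟩
  | pos =>
    match s with
    | [] => simp [AJM.act, cor]
    | [a] => simp [AJM.act, cor]
    | a :: b :: u =>
      have h1 : AJM.act n .pos 0 (a :: b :: u) =
          ∑ p : Fin n × Fin n, Finsupp.single (p.1 :: p.2 :: u) ((AJM.Bm n)⁻¹ p (a, b)) := by
        simp [AJM.act]
      have h2 : cor n .pos g ((a :: b :: u).map fun a : Fin n => ((a : ℕ) : ℤ)) =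
          ∑ᶠ k : ℤ, (if (0 ≤ ((a : ℕ) : ℤ) ∧ ((a : ℕ) : ℤ) < n) ∧
            (0 ≤ ((b : ℕ) : ℤ) ∧ ((b : ℕ) : ℤ) < n) ∧
            (0 ≤ ((b : ℕ) : ℤ) - k ∧ ((b : ℕ) : ℤ) - k < n) ∧
            (0 ≤ ((a : ℕ) : ℤ) + k ∧ ((a : ℕ) : ℤ) + k < n)
            then bi n ((a : ℕ) : ℤ) ((b : ℕ) : ℤ) k * g ((((b : ℕ) : ℤ) - k) ::
              (((a : ℕ) : ℤ) + k) :: (u.map fun a : Fin n => ((a : ℕ) : ℤ))) else 0) := by
        simp only [List.map_cons, cor]
      rw [h1, h2]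
      have ha := a.isLt
      have hb := b.isLt
      rw [← VzOpw_dsum (n := n) _ ((b : ℕ) : ℤ) ((a : ℕ) : ℤ), map_sum, Fintype.sum_prod_type]
      · apply Finset.sum_congr rfl
        intro c _
        apply Finset.sum_congr rfl
        intro d _
        have hc := c.isLt
        have hd := d.isLt
        rw [Finsupp.linearCombination_single, smul_eq_mul, hG, hBi]
        by_cases h : ((b : ℕ) : ℤ) - ((c : ℕ) : ℤ) = ((d : ℕ) : ℤ) - ((a : ℕ) : ℤ)
        · have e1 : ((a : ℕ) : ℤ) + (((b : ℕ) : ℤ) - ((c : ℕ) : ℤ)) = ((d : ℕ) : ℤ) := by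
            rw [h]; ring
          have e2 : ((b : ℕ) : ℤ) - (((b : ℕ) : ℤ) - ((c : ℕ) : ℤ)) = ((c : ℕ) : ℤ) := by ring
          rw [if_pos h, if_pos h, e1, e2, if_pos
            ⟨⟨by omega, by omega⟩, ⟨by omega, by omega⟩, ⟨by omega, by omega⟩,
              by omega, by omega⟩]
          rfl
        · rw [if_neg h, if_neg h, zero_mul]
      · intro k hk
        by_contra hcon
        apply hk
        rw [if_neg]
        rintro ⟨_, _, h3, h4⟩
        exact hcon ⟨h3, h4⟩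

/-- The coefficient of the empty state as a linear combination. -/
lemma VzOpw_lin (n : ℕ) (w : List AJM.Mv) (v : AJM.TT n) :
    AJM.opw n w v [] =
      Finsupp.linearCombination K (fun s => AJM.opw n w (Finsupp.single s 1) []) v := by
  have h : (Finsupp.lapply [] : AJM.TT n →ₗ[RatFunc ℚ] RatFunc ℚ) ∘ₗ AJM.opw n w =
      Finsupp.linearCombination K (fun s => AJM.opw n w (Finsupp.single s 1) []) := by
    apply Finsupp.lhom_ext
    intro s c
    rw [Finsupp.linearCombination_single, LinearMap.comp_apply, Finsupp.lapply_apply]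
    have h1 : (Finsupp.single s c : AJM.TT n) = c • Finsupp.single s 1 := by
      rw [Finsupp.smul_single, smul_eq_mul, mul_one]
    rw [h1, map_smul, Finsupp.smul_apply]
  have h2 := LinearMap.congr_fun h v
  rw [LinearMap.comp_apply, Finsupp.lapply_apply] at h2
  exact h2

/-- The form of the list in the statement. -/
lemma VzOpw_do {n : ℕ} (s : List (Fin n)) :
    (s.map fun a => ((a : ℕ) : ℤ)) = (s.map fun a : Fin n => ((a : ℕ) : ℤ)) := by
  have h : (do let a ← s; pure (a : ℕ) : List ℕ) = s.map fun a : Fin n => (a : ℕ) := by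
    induction s with
    | nil => rfl
    | cons a s ih =>
      have h1 : (do let b ← (a :: s); pure (b : ℕ) : List ℕ) =
          (a : ℕ) :: (do let b ← s; pure (b : ℕ) : List ℕ) := by
        simp
      rw [h1, ih]
      rfl
  rw [h, List.map_map]
  rfl

lemma VzOpw_main (hBEnt : BEnt) (hBiEnt : BiEnt) (hActPos : ActPos)
    (n : ℕ) (w : List AJM.Mv) (s : List (Fin n)) (hn : 1 ≤ n) :
    AJM.opw n w (Finsupp.single s 1) [] = Vz w n (s.map fun a : Fin n => ((a : ℕ) : ℤ)) := by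
  induction w generalizing s with
  | nil =>
    have h1 : Vz [] n (s.map fun a : Fin n => ((a : ℕ) : ℤ)) =
        if (s.map fun a : Fin n => ((a : ℕ) : ℤ)) = [] ∧ (1 : ℤ) ≤ n then 1 else 0 := rfl
    have h2 : AJM.opw n [] (Finsupp.single s 1) [] = (Finsupp.single s (1 : RatFunc ℚ)) [] := rfl
    rw [h1, h2, Finsupp.single_apply]
    by_cases h : s = []
    · rw [if_pos h, if_pos ⟨by simp [h], by exact_mod_cast hn⟩]
    · rw [if_neg h, if_neg]
      rintro ⟨h3, _⟩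
      exact h (List.map_eq_nil_iff.mp h3)
  | cons m w ih =>
    obtain ⟨k, i⟩ := m
    have h1 : AJM.opw n ((k, i) :: w) (Finsupp.single s 1) [] =
        AJM.opw n w (AJM.act n k i s) [] := by
      have h2 : AJM.opm n (k, i) (Finsupp.single s 1) = AJM.act n k i s := by
        show Finsupp.linearCombination (RatFunc ℚ) (AJM.act n k i) (Finsupp.single s 1) = _
        rw [Finsupp.linearCombination_single, one_smul]
      show AJM.opw n w (AJM.opm n (k, i) (Finsupp.single s 1)) [] = _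
      rw [h2]
    have h3 : Vz ((k, i) :: w) n (s.map fun a : Fin n => ((a : ℕ) : ℤ)) =
        if i ≤ (s.map fun a : Fin n => ((a : ℕ) : ℤ)).length then
          cor n k (fun s' => Vz w n ((s.map fun a : Fin n => ((a : ℕ) : ℤ)).take i ++ s'))
            ((s.map fun a : Fin n => ((a : ℕ) : ℤ)).drop i) else 0 := rfl
    rw [h1, h3, List.length_map]
    by_cases h : i ≤ s.length
    · rw [if_pos h, (hActPos n k i s).1 h, VzOpw_lin, Finsupp.linearCombination_mapDomain,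
        ← List.map_drop, ← List.map_take]
      apply VzOpw_cor hBEnt hBiEnt
      intro s'
      show AJM.opw n w (Finsupp.single (s.take i ++ s') 1) [] = _
      rw [ih, List.map_append]
    · rw [if_neg h, (hActPos n k i s).2 (by omega), map_zero]
      rfl

theorem prf_VzOpw (hBEnt : BEnt) (hBiEnt : BiEnt) (hActPos : ActPos) : VzOpw := by
  intro n w s hn
  rw [VzOpw_do]
  exact VzOpw_main hBEnt hBiEnt hActPos n w s hn

end AJH

end

section

/-!
# MP_d3fa71_gt, project Mut, block E: item Alg (algebraicity of `ε` over `ℂ(M, ω)`)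
-/

namespace AJM

namespace L_Alg

theorem map_dg {F L : Type} [Field F] [Field L] (f : F →+* L) (u : Fˣ) :
    Matrix.SpecialLinearGroup.map f (dg u) = dg (Units.map f.toMonoidHom u) := by
  apply Subtype.ext
  ext i j
  fin_cases i <;> fin_cases j
  · exact (rfl : f (u : F) = f (u : F))
  · exact map_zero f
  · exact map_zero f
  · exact (rfl : f ((u⁻¹ : Fˣ) : F) = f ((u⁻¹ : Fˣ) : F))

theorem mm_ne {F : Type} [Field F] [Algebra ℂ F] {M : Fˣ} (hM : Transcendental ℂ (M : F)) :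
    mm M ≠ 0 := by
  intro h
  apply hM
  refine ⟨Polynomial.X ^ 2 + 1, ?_, ?_⟩
  · intro h0
    have := congrArg (fun p => Polynomial.coeff p 2) h0
    simp [Polynomial.coeff_one] at this
  · have h1 : (M : F) * ((M⁻¹ : Fˣ) : F) = 1 := by simp
    unfold mm at h
    simp only [map_add, map_pow, Polynomial.aeval_X, map_one]
    linear_combination (M : F) * h - h1

theorem mm_sq {F : Type} [Field F] {M ω : Fˣ} (h4 : ω ≠ M ^ 2) (h5 : ω ≠ (M ^ 2)⁻¹) :
    mm M ^ 2 - 2 ≠ (ω : F) + ((ω⁻¹ : Fˣ) : F) := by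
  intro h
  have h1 : (M : F) * ((M⁻¹ : Fˣ) : F) = 1 := by simp
  have h2 : (ω : F) * ((ω⁻¹ : Fˣ) : F) = 1 := by simp
  unfold mm at h
  have h3 : ((ω : F) - (M : F) ^ 2) * ((ω : F) - ((M⁻¹ : Fˣ) : F) ^ 2) = 0 := by
    linear_combination (-(ω : F)) * h + (2 * (ω : F) + (M : F) * ((M⁻¹ : Fˣ) : F) + 1) * h1 - h2
  rcases mul_eq_zero.1 h3 with h6 | h6
  · apply h4
    apply Units.ext
    rw [Units.val_pow_eq_pow_val]
    exact sub_eq_zero.1 h6
  · apply h5
    apply Units.ext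
    rw [← inv_pow, Units.val_pow_eq_pow_val]
    exact sub_eq_zero.1 h6

end L_Alg

theorem prf_Alg (h1 : RingM) (h2 : MChainMap) (h3 : AlgM) : Alg := by
  intro F _ _ M ω ε ha hb τ hM hω h4 h5 hprod hring
  set K := IntermediateField.adjoin ℂ {(M : F), (ω : F)} with hK
  set f : F →+* AlgebraicClosure F := algebraMap F (AlgebraicClosure F) with hf
  have hinj : Function.Injective f := f.injective
  have hMK : (M : F) ∈ K := IntermediateField.subset_adjoin _ _ (by simp)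
  have hωK : (ω : F) ∈ K := IntermediateField.subset_adjoin _ _ (by simp)
  have hmK : mm M ∈ K := by
    unfold mm
    rw [Units.val_inv_eq_inv_val]
    exact K.add_mem hMK (K.inv_mem hMK)
  have hM1 := h1 F M ha hb (dg ε) τ hring
  have hM2 := h2 F (AlgebraicClosure F) f (mm M) _ _ _ hM1
  rw [L_Alg.map_dg] at hM2
  have key : IsAlgebraic K (((Units.map f.toMonoidHom ε : (AlgebraicClosure F)ˣ)) :
      AlgebraicClosure F) := by
    refine h3 K (AlgebraicClosure F) (f (mm M)) (Units.map f.toMonoidHom ω)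
      (Units.map f.toMonoidHom ε) _ _ ?_ ?_ ?_ ?_ ?_ ?_ hM2
    · rw [hf, isAlgebraic_algebraMap_iff hinj]
      exact isAlgebraic_algebraMap (⟨mm M, hmK⟩ : K)
    · rw [Ne, map_eq_zero_iff f hinj]
      exact L_Alg.mm_ne hM
    · change IsAlgebraic K (f (ω : F))
      rw [hf, isAlgebraic_algebraMap_iff hinj]
      exact isAlgebraic_algebraMap (⟨(ω : F), hωK⟩ : K)
    · intro h6
      apply hω
      apply Units.ext
      have h7 : f (((ω ^ 2 : Fˣ) : F)) = f 1 := by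
        rw [Units.val_pow_eq_pow_val, map_pow, map_one]
        exact h6
      rw [Units.val_one]
      exact hinj h7
    · intro h6
      apply L_Alg.mm_sq h4 h5
      apply hinj
      rw [map_sub, map_pow, map_add, map_ofNat]
      rw [← map_inv] at h6
      exact h6
    · rw [← map_mul, hprod, L_Alg.map_dg]
  change IsAlgebraic K (f (ε : F)) at key
  rwa [hf, isAlgebraic_algebraMap_iff hinj] at key

end AJM

end

section

/-!
# MP_d3fa71_gt, project Mut, block E, item AlgM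
-/

set_option autoImplicit false

namespace AJM

namespace L_AlgM

/-- In an algebraically closed field every element is `θ + θ⁻¹`. -/
theorem exTheta (F : Type) [Field F] [IsAlgClosed F] (Y : F) :
    ∃ θ : Fˣ, (θ : F) + ((θ⁻¹ : Fˣ) : F) = Y := by
  obtain ⟨x, hx⟩ := IsAlgClosed.exists_root (Polynomial.X ^ 2 - Polynomial.C Y * Polynomial.X +
    Polynomial.C (1 : F)) (by
      have : (Polynomial.X ^ 2 - Polynomial.C Y * Polynomial.X +
        Polynomial.C (1 : F)).degree = 2 := by compute_degree!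
      rw [this]
      decide)
  have h : x ^ 2 - Y * x + 1 = 0 := by
    simpa [Polynomial.IsRoot.def] using hx
  have h0 : x ≠ 0 := by
    rintro rfl
    simp at h
  refine ⟨Units.mk0 x h0, ?_⟩
  rw [Units.val_inv_eq_inv_val, Units.val_mk0]
  field_simp
  linear_combination h

theorem sq_eq_one_iff_of_side_cond {F : Type} [Field F] {x : F} (h : x ^ 2 = 1) :
    x = 1 ∨ x = -1 := by
  have h1 : (x - 1) * (x + 1) = 0 := by linear_combination h
  rcases mul_eq_zero.1 h1 with h2 | h2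
  · left
    linear_combination h2
  · right
    linear_combination h2

theorem sq_one {F : Type} [Field F] {θ : Fˣ} (h : (θ : F) ^ 2 = 1) :
    (θ : F) + ((θ⁻¹ : Fˣ) : F) = 2 ∨ (θ : F) + ((θ⁻¹ : Fˣ) : F) = -2 := by
  rw [Units.val_inv_eq_inv_val]
  rcases sq_eq_one_iff_of_side_cond h with h | h
  · left
    rw [h]
    norm_num
  · right
    rw [h, inv_neg, inv_one]
    norm_num

end L_AlgM

open L_AlgM in
theorem prf_AlgM (h1 : SRing) (h2 : KRelAlg) (h3 : YYAlg) (h4 : IAlg) : AlgM := by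
  intro K F _ _ _ _ m ω ε a b hm hm0 hω hω2 hmT hab hC
  have hωi : IsAlgebraic K (((ω⁻¹ : Fˣ)) : F) := by
    rw [Units.val_inv_eq_inv_val]
    exact hω.inv
  have hT : IsAlgebraic K ((ω : F) + ((ω⁻¹ : Fˣ) : F)) := hω.add hωi
  have hT2 : (ω : F) + ((ω⁻¹ : Fˣ) : F) ≠ -2 := by
    intro h
    apply hω2
    rw [Units.val_inv_eq_inv_val] at h
    have h0 : (ω : F) ≠ 0 := ω.ne_zero
    field_simp at h
    have h5 : ((ω : F) + 1) ^ 2 = 0 := by linear_combination h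
    have h6 : (ω : F) = -1 := eq_neg_of_add_eq_zero_left (pow_eq_zero_iff (two_ne_zero) |>.1 h5)
    rw [h6]
    ring
  obtain ⟨κ₀, κ₁, κ₂, κ₃, κ₄, hp, k1, k2, k3, k4, hθ⟩ := h1 F m ω ε a b hω2 hmT hab hC
  have a1 := h2 K F m _ 1 κ₁ hm hT hmT hT2 k1
  have a2 := h2 K F m _ 0 κ₂ hm hT hmT hT2 k2
  have a3 := h2 K F m _ 1 κ₃ hm hT hmT hT2 k3
  have a4 := h2 K F m _ 0 κ₄ hm hT hmT hT2 k4
  have two : IsAlgebraic K (2 : F) := by
    have h := isAlgebraic_algebraMap (R := K) (A := F) (2 : K)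
    rwa [map_ofNat] at h
  have hY : IsAlgebraic K (YY m ((ω : F) + ((ω⁻¹ : Fˣ) : F)) κ₀) := by
    obtain ⟨θ, e⟩ := exTheta F (YY m ((ω : F) + ((ω⁻¹ : Fˣ) : F)) κ₀)
    by_cases c1 : (θ : F) ^ 2 = 1
    · rcases sq_one c1 with h | h
      · rw [← e, h]; exact two
      · rw [← e, h]; exact two.neg
    · by_cases c2 : m ^ 2 - 2 = (θ : F) + ((θ⁻¹ : Fˣ) : F)
      · rw [← e, ← c2]
        exact (hm.pow 2).sub two
      · obtain ⟨μ₁, μ₂, μ₃, μ₄, m1, m2, m3, m4, e2⟩ := hθ θ c1 c2 e.symm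
        rw [← e]
        exact h4 K F m _ _ μ₁ μ₂ μ₃ μ₄ hm hm0 hT m1 m2 m3 m4 e2
  have a0 := h3 K F m _ κ₀ hm hT hmT hT2 hY
  have hp' : (ε : F) ^ 2 = ((κ₀ : F) * (ω : F) ^ 6 * κ₁ * κ₂ * κ₃ * κ₄)⁻¹ := by
    have : (κ₀ : F) * (ω : F) ^ 6 * κ₁ * κ₂ * κ₃ * κ₄ * (ε : F) ^ 2 = 1 := by
      have h := congrArg (fun x : Fˣ => (x : F)) hp
      simpa only [Units.val_mul, Units.val_pow_eq_pow_val, Units.val_one] using h
    exact eq_inv_of_mul_eq_one_right this
  have h7 : IsAlgebraic K ((ε : F) ^ 2) := by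
    rw [hp']
    exact (((((a0.mul (hω.pow 6)).mul a1).mul a2).mul a3).mul a4).inv
  exact IsAlgebraic.of_pow two_pos h7

end AJM

end

section

/-!
# MP_d3fa71_gt, project Mut, block E: conjugation of the column relation
-/

namespace AJM

namespace L_CRelConj

theorem aux {H : Type} [Group H] (a a' P : H) (r : ℤ) :
    ((P * a * P⁻¹)⁻¹ * (P * a' * P⁻¹)) ^ r = P * (a⁻¹ * a') ^ r * P⁻¹ := by
  have h : (P * a * P⁻¹)⁻¹ * (P * a' * P⁻¹) = P * (a⁻¹ * a') * P⁻¹ := by group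
  rw [h, conj_zpow]

theorem aux2 {H : Type} [Group H] (x c P : H) :
    P * (x * c⁻¹ * x⁻¹) * P⁻¹ = P * x * P⁻¹ * (P * c * P⁻¹)⁻¹ * (P * x * P⁻¹)⁻¹ := by group

end L_CRelConj

theorem prf_CRelConj : CRelConj := by
  intro R _ r a b a' b' P h
  obtain ⟨h1, h2⟩ := h
  refine ⟨?_, ?_⟩
  · rw [L_CRelConj.aux, h1]
    exact L_CRelConj.aux2 _ _ _
  · rw [L_CRelConj.aux, h2]
    exact L_CRelConj.aux2 _ _ _

end AJM

end

section

/-!
# The product of a pair is preserved by the column relation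
-/

namespace AJM

namespace L_CRelMul

variable {R : Type} [CommRing R]

lemma tr_eq (x : G R) : tr x = Matrix.trace x.1 := by
  simp [tr, Matrix.trace_fin_two]

lemma tr_conj (g x : G R) : tr (g * x * g⁻¹) = tr x := by
  rw [tr_eq, tr_eq]
  have h : (g * x * g⁻¹).1 = g.1 * x.1 * (g⁻¹).1 := rfl
  rw [h, Matrix.trace_mul_comm, ← Matrix.mul_assoc]
  have h2 : (g⁻¹).1 * g.1 = 1 := by
    have : g⁻¹ * g = 1 := inv_mul_cancel g
    exact congrArg Subtype.val this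
  rw [h2, Matrix.one_mul]

lemma tr_inv (x : G R) : tr x⁻¹ = tr x := by
  have h : (x⁻¹).1 = Matrix.adjugate x.1 := Matrix.SpecialLinearGroup.coe_inv x
  unfold tr
  rw [h, Matrix.adjugate_fin_two]
  simp [add_comm]

end L_CRelMul

open L_CRelMul in
theorem prf_CRelMul : CRelMul := by
  intro R _ r a b a' b' h
  obtain ⟨h1, h2⟩ := h
  have hc : a⁻¹ * a' * (a⁻¹ * a') ^ r = (a⁻¹ * a') ^ r * (a⁻¹ * a') := by
    rw [← zpow_one_add, ← zpow_add_one, add_comm]
  have ha : a' = a * (a⁻¹ * a') := by group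
  refine ⟨?_, ?_, ?_⟩
  · rw [h1, h2]
    calc a' * ((a⁻¹ * a') ^ r * a'⁻¹ * ((a⁻¹ * a') ^ r)⁻¹)
        = a * ((a⁻¹ * a') * (a⁻¹ * a') ^ r) * a'⁻¹ * ((a⁻¹ * a') ^ r)⁻¹ := by
          simp only [mul_assoc, mul_inv_cancel_left]
      _ = a * ((a⁻¹ * a') ^ r * (a⁻¹ * a')) * a'⁻¹ * ((a⁻¹ * a') ^ r)⁻¹ := by rw [hc]
      _ = a * ((a⁻¹ * a') ^ r * a⁻¹ * ((a⁻¹ * a') ^ r)⁻¹) := by
          simp only [mul_assoc, mul_inv_cancel_left]
  · rw [h1, tr_conj, tr_inv]
  · rw [h2, tr_conj, tr_inv]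

end AJM

end

section

set_option autoImplicit false

/-!
# The trace formula for a column
-/

namespace AJM

namespace L_ColTr

variable {R : Type} [CommRing R]

theorem det_e (a : G R) : a.1 0 0 * a.1 1 1 - a.1 0 1 * a.1 1 0 = 1 := by
  have := a.2
  rwa [Matrix.det_fin_two] at this

theorem mul_e (a b : G R) (i j : Fin 2) : (a * b).1 i j = a.1 i 0 * b.1 0 j + a.1 i 1 * b.1 1 j := by
  show (a.1 * b.1) i j = _
  rw [Matrix.mul_apply, Fin.sum_univ_two]

theorem inv_e (a : G R) : (a⁻¹).1 = !![a.1 1 1, -a.1 0 1; -a.1 1 0, a.1 0 0] := by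
  show (a⁻¹ : G R).1 = _
  rw [Matrix.SpecialLinearGroup.coe_inv, Matrix.adjugate_fin_two]

end L_ColTr

open L_ColTr in
theorem prf_ColTr (h1 : PowS) : ColTr := by
  intro R _ r a b a' b' m hC ha ha'
  obtain ⟨hb, -⟩ := hC
  set v : G R := a⁻¹ * a' with hv
  obtain ⟨s, s', hs, hr, hS⟩ := h1 R v r
  have hav : a * v = a' := by rw [hv]; group
  set c : G R := v ^ r with hc
  have hda := det_e a
  have hdv := det_e v
  have hdc := det_e c
  have h00 : c.1 0 0 = s * v.1 0 0 - s' := by rw [hs]; simp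
  have h01 : c.1 0 1 = s * v.1 0 1 := by rw [hs]; simp
  have h10 : c.1 1 0 = s * v.1 1 0 := by rw [hs]; simp
  have h11 : c.1 1 1 = s * v.1 1 1 - s' := by rw [hs]; simp
  have e1 : tr a' = a.1 0 0 * v.1 0 0 + a.1 0 1 * v.1 1 0 +
      (a.1 1 0 * v.1 0 1 + a.1 1 1 * v.1 1 1) := by
    rw [← hav]
    unfold tr
    rw [mul_e a v 0 0, mul_e a v 1 1]
  rw [← hS, hb]
  rw [ha'] at e1
  unfold tr at ha hr ⊢
  have e2 : (a * (c * a⁻¹ * c⁻¹)).1 0 0 + (a * (c * a⁻¹ * c⁻¹)).1 1 1 =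
      (a.1 0 0 + a.1 1 1) ^ 2 + (c.1 0 0 + c.1 1 1) ^ 2 +
      (a.1 0 0 * c.1 0 0 + a.1 0 1 * c.1 1 0 + (a.1 1 0 * c.1 0 1 + a.1 1 1 * c.1 1 1)) ^ 2 -
      (a.1 0 0 + a.1 1 1) * (c.1 0 0 + c.1 1 1) *
      (a.1 0 0 * c.1 0 0 + a.1 0 1 * c.1 1 0 + (a.1 1 0 * c.1 0 1 + a.1 1 1 * c.1 1 1)) - 2 := by
    simp only [mul_e, inv_e, Matrix.of_apply, Matrix.cons_val', Matrix.cons_val_zero,
      Matrix.cons_val_one, Matrix.cons_val_fin_one]
    linear_combination ((c.1 0 0 + c.1 1 1) ^ 2 - 2 * (c.1 0 0 * c.1 1 1 - c.1 0 1 * c.1 1 0)) * hda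
      + ((a.1 0 0 + a.1 1 1) ^ 2 - 2) * hdc
  have e3 : c.1 0 0 + c.1 1 1 = s * (v.1 0 0 + v.1 1 1) - 2 * s' := by
    rw [h00, h11]; ring
  have e4 : a.1 0 0 * c.1 0 0 + a.1 0 1 * c.1 1 0 + (a.1 1 0 * c.1 0 1 + a.1 1 1 * c.1 1 1) =
      (s - s') * m := by
    rw [h00, h01, h10, h11]
    linear_combination (-s) * e1 - s' * ha
  rw [e2, e3, e4, ha]
  linear_combination (4 - m ^ 2) * hr

end AJM

end

section

/-!
# MP_d3fa71_gt, project Mut, block E, item ColUL1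
-/

namespace AJM

namespace L_ColUL1

variable {R : Type} [CommRing R]

theorem inv00 (x : G R) : (x⁻¹ : G R).1 0 0 = x.1 1 1 := by
  rw [Matrix.SpecialLinearGroup.coe_inv, Matrix.adjugate_fin_two]; rfl
theorem inv01 (x : G R) : (x⁻¹ : G R).1 0 1 = - x.1 0 1 := by
  rw [Matrix.SpecialLinearGroup.coe_inv, Matrix.adjugate_fin_two]; rfl
theorem inv10 (x : G R) : (x⁻¹ : G R).1 1 0 = - x.1 1 0 := by
  rw [Matrix.SpecialLinearGroup.coe_inv, Matrix.adjugate_fin_two]; rfl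
theorem inv11 (x : G R) : (x⁻¹ : G R).1 1 1 = x.1 0 0 := by
  rw [Matrix.SpecialLinearGroup.coe_inv, Matrix.adjugate_fin_two]; rfl
theorem mul00 (x y : G R) : (x * y).1 0 0 = x.1 0 0 * y.1 0 0 + x.1 0 1 * y.1 1 0 := by
  simp [Matrix.SpecialLinearGroup.coe_mul, Matrix.mul_apply, Fin.sum_univ_two]
theorem mul01 (x y : G R) : (x * y).1 0 1 = x.1 0 0 * y.1 0 1 + x.1 0 1 * y.1 1 1 := by
  simp [Matrix.SpecialLinearGroup.coe_mul, Matrix.mul_apply, Fin.sum_univ_two]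
theorem mul10 (x y : G R) : (x * y).1 1 0 = x.1 1 0 * y.1 0 0 + x.1 1 1 * y.1 1 0 := by
  simp [Matrix.SpecialLinearGroup.coe_mul, Matrix.mul_apply, Fin.sum_univ_two]
theorem mul11 (x y : G R) : (x * y).1 1 1 = x.1 1 0 * y.1 0 1 + x.1 1 1 * y.1 1 1 := by
  simp [Matrix.SpecialLinearGroup.coe_mul, Matrix.mul_apply, Fin.sum_univ_two]
theorem dg00' (u : Rˣ) : (dg u).1 0 0 = u := rfl
theorem dg01' (u : Rˣ) : (dg u).1 0 1 = 0 := rfl
theorem dg10' (u : Rˣ) : (dg u).1 1 0 = 0 := rfl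
theorem dg11' (u : Rˣ) : (dg u).1 1 1 = ((u⁻¹ : Rˣ) : R) := rfl

end L_ColUL1

open L_ColUL1 in
theorem prf_ColUL1 (h1 : PairT) (h2 : CRelMul) : ColUL1 := by
  intro F _ M a b a' b' hM4 hab hta hta' hC
  obtain ⟨hmul, htb, htb'⟩ := h2 F 1 a b a' b' hC
  obtain ⟨ha00, ha11, ha⟩ := h1 F M a b hM4 hab hta (htb.trans hta)
  obtain ⟨ha'00, ha'11, ha'⟩ := h1 F M a' b' hM4 (hmul.trans hab) hta' (htb'.trans hta')
  have hb : b = a⁻¹ * a' * a⁻¹ * (a⁻¹ * a')⁻¹ := by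
    have := hC.1
    rwa [zpow_one] at this
  have key : dg (M ^ 2) * (a⁻¹ * (a' * a)) = a' := by
    rw [← hab, hb]; group
  have huv : (M : F) * ((M⁻¹ : Fˣ) : F) = 1 := by simp
  have hu0 : (M : F) ≠ 0 := M.ne_zero
  set u : F := (M : F) with hu
  set v : F := ((M⁻¹ : Fˣ) : F) with hv
  have hv0 : v ≠ 0 := (M⁻¹ : Fˣ).ne_zero
  have hd0 : (dg (M ^ 2)).1 0 0 = u ^ 2 := by
    rw [dg00', Units.val_pow_eq_pow_val]
  have hd1 : (dg (M ^ 2)).1 1 1 = v ^ 2 := by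
    rw [dg11', ← inv_pow, Units.val_pow_eq_pow_val]
  have e00 := congrArg (fun z : G F => z.1 0 0) key
  have e11 := congrArg (fun z : G F => z.1 1 1) key
  simp only [mul00, mul01, mul10, mul11, inv00, inv01, inv10, inv11, hd0, hd1, dg01', dg10',
    ha00, ha11, ha'00, ha'11] at e00 e11
  have hu2 : u ^ 2 ≠ 1 := by
    intro h
    apply hM4
    calc u ^ 4 = (u ^ 2) ^ 2 := by ring
      _ = 1 := by rw [h]; ring
  have E00 : u ^ 2 * (1 + v ^ 2 * (a'.1 0 1 * a.1 1 0) - a.1 0 1 * a'.1 1 0) = 1 := by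
    apply mul_left_cancel₀ hu0
    have ha2 : a.1 0 1 * a.1 1 0 = 0 := ha
    linear_combination e00 + u ^ 2 * v * ha2 + (u ^ 2 * v * (a'.1 0 1 * a.1 1 0) - u ^ 3) * huv
  have E11 : v ^ 2 * (1 + u ^ 2 * (a'.1 1 0 * a.1 0 1) - a'.1 0 1 * a.1 1 0) = 1 := by
    apply mul_left_cancel₀ hv0
    have ha2 : a.1 0 1 * a.1 1 0 = 0 := ha
    linear_combination e11 + u * v ^ 2 * ha2 +
      (u * v ^ 2 * (a'.1 1 0 * a.1 0 1) - v ^ 3) * huv
  rcases mul_eq_zero.1 ha with hx | hy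
  · rcases mul_eq_zero.1 ha' with hx' | hy'
    · exfalso; apply hu2
      rw [hx, hx'] at E00
      linear_combination E00
    · right
      rw [hx, hy'] at E11
      have hE : 1 - a.1 1 0 * a'.1 0 1 = u ^ 2 := by
        have h3 : u ^ 2 * v ^ 2 = 1 := by linear_combination (u * v + 1) * huv
        linear_combination u ^ 2 * E11 - (1 - a.1 1 0 * a'.1 0 1) * h3
      refine ⟨⟨hx, ?_⟩, ⟨hy', ?_⟩, hE⟩
      · intro h0
        rw [h0] at hE
        apply hu2; linear_combination -hE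
      · intro h0
        rw [h0] at hE
        apply hu2; linear_combination -hE
  · rcases mul_eq_zero.1 ha' with hx' | hy'
    · left
      rw [hy, hx'] at E00
      have hE : u ^ 2 * (1 - a.1 0 1 * a'.1 1 0) = 1 := by
        linear_combination E00
      refine ⟨⟨hy, ?_⟩, ⟨hx', ?_⟩, hE⟩
      · intro h0
        rw [h0] at hE
        apply hu2; linear_combination hE
      · intro h0
        rw [h0] at hE
        apply hu2; linear_combination hE
    · exfalso; apply hu2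
      rw [hy, hy'] at E00
      linear_combination E00

end AJM

end

section

/-!
# MP_d3fa71_gt, project Mut, item ColUL2
-/

namespace AJM

namespace L_ColUL2

theorem key {F : Type} [Field F] {a b a' g : G F} (hab : a * b = g)
    (hb : b = (a⁻¹ * a') ^ (2 : ℤ) * a⁻¹ * ((a⁻¹ * a') ^ (2 : ℤ))⁻¹) :
    g * ((a⁻¹ * a') * ((a⁻¹ * a') * a)) = a * ((a⁻¹ * a') * (a⁻¹ * a')) := by
  rw [← hab, hb, zpow_two]
  group

end L_ColUL2

theorem prf_ColUL2 (h1 : PairT) (h2 : CRelMul) : ColUL2 := by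
  intro F _ M a b a' b' hM hab hta hta' hC
  obtain ⟨hmul, htb, htb'⟩ := h2 F 2 a b a' b' hC
  obtain ⟨a00, a11, a0110⟩ := h1 F M a b hM hab hta (by rw [htb, hta])
  obtain ⟨c00, c11, c0110⟩ := h1 F M a' b' hM (by rw [hmul, hab]) hta' (by rw [htb', hta'])
  have hk := L_ColUL2.key hab hC.1
  have hMi : (M : F) * ((M⁻¹ : Fˣ) : F) = 1 := by simp
  have hM0 : (M : F) ≠ 0 := M.ne_zero
  have hM2 : (M : F) ^ 2 ≠ 1 := by
    intro h
    apply hM
    calc (M : F) ^ 4 = ((M : F) ^ 2) ^ 2 := by ring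
      _ = 1 := by rw [h, one_pow]
  set i : F := ((M⁻¹ : Fˣ) : F) with hi
  have e00 := congrArg (fun z : G F => z.1 0 0) hk
  have e11 := congrArg (fun z : G F => z.1 1 1) hk
  simp only [G_mul00, G_mul01, G_mul10, G_mul11, G_inv00, G_inv01, G_inv10, G_inv11, dg00, dg01,
    dg10, dg11, a00, a11, c00, c11, Units.val_pow_eq_pow_val] at e00 e11
  have hg : (((M ^ 2)⁻¹ : Fˣ) : F) = i ^ 2 := by
    rw [hi, ← inv_pow]; simp
  rw [hg] at e11
  unfold UU LL
  generalize a.1 0 1 = s at *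
  generalize a.1 1 0 = u at *
  generalize a'.1 0 1 = s' at *
  generalize a'.1 1 0 = u' at *
  have hi0 : i ≠ 0 := by
    rintro h
    rw [h, mul_zero] at hMi
    exact zero_ne_one hMi
  have hi' : i = (M : F)⁻¹ := by
    rw [hi]; simp
  rw [hi'] at e00 e11
  generalize (M : F) = m at *
  clear hi hg hi0 hi' hMi a00 c00 a11 c11
  clear_value i
  have c1 : ¬ (u = 0 ∧ u' = 0) := by
    rintro ⟨rfl, rfl⟩
    apply hM2
    field_simp at e00
    ring_nf at e00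
    have : m * (m ^ 2 - 1) = 0 := by linear_combination e00
    exact sub_eq_zero.1 ((mul_eq_zero.1 this).resolve_left hM0)
  have c2 : ¬ (s = 0 ∧ s' = 0) := by
    rintro ⟨rfl, rfl⟩
    apply hM2
    field_simp at e11
    ring_nf at e11
    exact e11.symm
  rcases mul_eq_zero.1 a0110 with hs | hu
  · right
    subst hs
    have hs' : s' ≠ 0 := fun h => c2 ⟨rfl, h⟩
    have hu' : u' = 0 := (mul_eq_zero.1 c0110).resolve_left hs'
    have hu : u ≠ 0 := fun h => c1 ⟨h, hu'⟩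
    refine ⟨⟨rfl, hu⟩, ⟨hu', hs'⟩, ?_⟩
    subst hu'
    field_simp at e11
    linear_combination e11
  · left
    subst hu
    have hu' : u' ≠ 0 := fun h => c1 ⟨rfl, h⟩
    have hs' : s' = 0 := (mul_eq_zero.1 c0110).resolve_right hu'
    have hs : s ≠ 0 := fun h => c2 ⟨h, hs'⟩
    refine ⟨⟨rfl, hs⟩, ⟨hs', hu'⟩, ?_⟩
    subst hs'
    field_simp at e00
    apply mul_left_cancel₀ hM0
    linear_combination e00

end AJM

end

section

/-!
# MP_d3fa71_gt, project Mut, block E: diagonalisation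
-/

set_option autoImplicit false

namespace AJM

namespace L_DiagW

variable {F : Type} [Field F]

theorem key (w : G F) (θ : Fˣ) (p q r s : F) (hdet : p * s - q * r = 1)
    (h1 : w.1 0 0 * p + w.1 0 1 * r = p * θ) (h2 : w.1 0 0 * q + w.1 0 1 * s = q * ((θ⁻¹ : Fˣ) : F))
    (h3 : w.1 1 0 * p + w.1 1 1 * r = r * θ)
    (h4 : w.1 1 0 * q + w.1 1 1 * s = s * ((θ⁻¹ : Fˣ) : F)) :
    ∃ P : G F, w = P * dg θ * P⁻¹ := by
  obtain ⟨P, hP⟩ : ∃ P : G F, P.1 = !![p, q; r, s] :=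
    ⟨⟨!![p, q; r, s], by rw [Matrix.det_fin_two_of]; exact hdet⟩, rfl⟩
  refine ⟨P, eq_mul_inv_iff_mul_eq.2 (Subtype.ext ?_)⟩
  show w.1 * P.1 = P.1 * (dg θ).1
  have hd : (dg θ).1 = !![(θ : F), 0; 0, ((θ⁻¹ : Fˣ) : F)] := rfl
  rw [hP, hd, Matrix.eta_fin_two w.1, Matrix.mul_fin_two, Matrix.mul_fin_two, h1, h2, h3, h4]
  simp

end L_DiagW

open L_DiagW in
theorem prf_DiagW : DiagW := by
  intro F _ w θ hθ htr
  obtain ⟨t, ht⟩ : ∃ t : F, ((θ⁻¹ : Fˣ) : F) = t := ⟨_, rfl⟩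
  have hinv : (θ : F) * t = 1 := by rw [← ht]; exact θ.mul_inv
  rw [ht] at htr
  have hdet : w.1 0 0 * w.1 1 1 - w.1 0 1 * w.1 1 0 = 1 := by
    have := w.2
    rwa [Matrix.det_fin_two] at this
  have htr' : w.1 0 0 + w.1 1 1 = θ + t := htr
  have hne : (θ : F) - t ≠ 0 := by
    intro h
    apply hθ
    have : t = θ := by linear_combination -h
    rw [this] at hinv
    rw [sq]; exact hinv
  set a := w.1 0 0 with ha
  set b := w.1 0 1 with hb
  set c := w.1 1 0 with hc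
  set d := w.1 1 1 with hd
  by_cases hc0 : c = 0
  · by_cases hb0 : b = 0
    · have had : a * d = 1 := by rw [hb0, hc0] at hdet; linear_combination hdet
      have h0 : (a - θ) * (a - t) = 0 := by
        linear_combination a * htr' + hinv - had
      rcases mul_eq_zero.1 h0 with h | h
      · have h1 : a = θ := by linear_combination h
        have h2 : d = t := by linear_combination htr' - h1
        refine key w θ 1 0 0 1 (by ring) ?_ ?_ ?_ ?_
        · rw [← ha, ← hb, h1]; ring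
        · rw [← ha, ← hb, hb0]; ring
        · rw [← hc, ← hd, hc0]; ring
        · rw [← hc, ← hd, ht, h2]; ring
      · have h1 : a = t := by linear_combination h
        have h2 : d = θ := by linear_combination htr' - h1
        refine key w θ 0 (-1) 1 0 (by ring) ?_ ?_ ?_ ?_
        · rw [← ha, ← hb, hb0]; ring
        · rw [← ha, ← hb, ht, h1]; ring
        · rw [← hc, ← hd, h2]; ring
        · rw [← hc, ← hd, hc0]; ring
    · have hδ : b * (t - θ) ≠ 0 := mul_ne_zero hb0 (by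
        intro h; apply hne; linear_combination -h)
      obtain ⟨e, he⟩ : ∃ e, b * (t - θ) * e = 1 := ⟨_, mul_inv_cancel₀ hδ⟩
      refine key w θ b (b * e) (θ - a) ((t - a) * e) ?_ ?_ ?_ ?_ ?_
      · linear_combination he
      · rw [← ha, ← hb]; ring
      · rw [← ha, ← hb, ht]; ring
      · rw [← hc, ← hd]
        linear_combination (θ : F) * htr' - hdet + hinv
      · rw [← hc, ← hd, ht]
        linear_combination e * (t * htr' - hdet + hinv)
  · have hδ : c * (θ - t) ≠ 0 := mul_ne_zero hc0 hne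
    obtain ⟨e, he⟩ : ∃ e, c * (θ - t) * e = 1 := ⟨_, mul_inv_cancel₀ hδ⟩
    refine key w θ (θ - d) ((t - d) * e) c (c * e) ?_ ?_ ?_ ?_ ?_
    · linear_combination he
    · rw [← ha, ← hb]
      linear_combination (θ : F) * htr' - hdet + hinv
    · rw [← ha, ← hb, ht]
      linear_combination e * (t * htr' - hdet + hinv)
    · rw [← hc, ← hd]; ring
    · rw [← hc, ← hd, ht]; ring

end AJM

end

section

namespace AJM

theorem L_E1.vmm {F Γ : Type} [Field F] [LinearOrderedCommGroupWithZero Γ]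
    (v : Valuation F Γ) (M : Fˣ) (h : 1 < v (M : F)) :
    v (mm M) = v (M : F) := by
  have h0 : v ((M⁻¹ : Fˣ) : F) < v (M : F) := by
    rw [Units.val_inv_eq_inv_val, map_inv₀]
    exact lt_trans (inv_lt_one_of_one_lt₀ h) h
  unfold mm
  exact Valuation.map_add_eq_of_lt_left v h0

theorem prf_E1 (h1 : RingM) (h2 : ValEx) (h3 : E1V) : E1 := by
  intro F _ _ _ M ω ε c e ha hb τ hM hc0 hc1 hω hε hab hR
  obtain ⟨Γ, _, v, hv1, hvM⟩ := h2 ℂ F (M : F) hM
  have hch := h1 F M ha hb (dg ε) τ hR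
  have hM0 : (M : F) ≠ 0 := M.ne_zero
  have hm : v (mm M) = v (M : F) := L_E1.vmm v M hvM
  have hm2 : v ((mm M) ^ 2) = v (M : F) ^ 2 := by rw [map_pow, hm]
  have hM2 : (1 : Γ) < v (M : F) ^ 2 := one_lt_pow₀ hvM two_ne_zero
  have hvω : v (ω : F) = v (M : F) ^ 2 := by
    rw [hω, map_mul, hv1 c hc0, one_mul, map_pow]
  have hcF : algebraMap ℂ F c ≠ 0 := (map_ne_zero _).2 hc0
  refine h3 F Γ v (mm M) ω ε (mer M ha) (mer M hb) ?_ ?_ ?_ ?_ hab hch
  · rw [hm2]; exact hM2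
  · rw [hvω, hm2]
  · have e1 : (mm M) ^ 2 - 2 - ((ω : F) + ((ω⁻¹ : Fˣ) : F)) =
        algebraMap ℂ F (1 - c) * (M : F) ^ 2 + algebraMap ℂ F (1 - c⁻¹) * ((M : F) ^ 2)⁻¹ := by
      rw [Units.val_inv_eq_inv_val, hω]
      simp only [mm, Units.val_inv_eq_inv_val, map_sub, map_one, map_inv₀]
      field_simp
      ring
    rw [e1, hm2]
    have e2 : v (algebraMap ℂ F (1 - c) * (M : F) ^ 2) = v (M : F) ^ 2 := by
      rw [map_mul, hv1 _ (sub_ne_zero.2 (Ne.symm hc1)), one_mul, map_pow]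
    have e3 : v (algebraMap ℂ F (1 - c⁻¹) * ((M : F) ^ 2)⁻¹) < v (M : F) ^ 2 := by
      have hc' : (1 : ℂ) - c⁻¹ ≠ 0 := by
        intro h
        apply hc1
        have : c⁻¹ = 1 := (sub_eq_zero.1 h).symm
        exact inv_eq_one.1 this
      rw [map_mul, hv1 _ hc', one_mul, map_inv₀, map_pow]
      exact lt_trans (inv_lt_one_of_one_lt₀ hM2) hM2
    rw [← e2] at e3 ⊢
    exact Valuation.map_add_eq_of_lt_left v e3
  · rw [hε]
    apply hv1
    intro h
    rw [h, map_zero] at hε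
    exact ε.ne_zero hε

end AJM

end

section

namespace AJM

theorem L_E1V.v2 {F Γ : Type} [Field F] [LinearOrderedCommGroupWithZero Γ]
    (v : Valuation F Γ) : v (2 : F) ≤ 1 := by
  have h : (2 : F) = 1 + 1 := by norm_num
  rw [h]
  exact v.map_add_le (le_of_eq v.map_one) (le_of_eq v.map_one)

theorem L_E1V.quad {F : Type} [Field F] [IsAlgClosed F] (Y : F) :
    ∃ θ : Fˣ, Y = (θ : F) + ((θ⁻¹ : Fˣ) : F) := by
  obtain ⟨x, hx⟩ := IsAlgClosed.exists_root
    (Polynomial.C 1 * Polynomial.X ^ 2 + Polynomial.C (-Y) * Polynomial.X + Polynomial.C (1 : F))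
    (by rw [Polynomial.degree_quadratic one_ne_zero]; decide)
  have hx' : x ^ 2 - Y * x + 1 = 0 := by
    have := hx
    simp only [Polynomial.IsRoot.def, Polynomial.eval_add, Polynomial.eval_mul,
      Polynomial.eval_C, Polynomial.eval_pow, Polynomial.eval_X] at this
    linear_combination this
  have hx0 : x ≠ 0 := by
    rintro rfl
    simp at hx'
  refine ⟨Units.mk0 x hx0, ?_⟩
  rw [Units.val_inv_eq_inv_val, Units.val_mk0]
  field_simp
  linear_combination -hx'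

theorem prf_E1V (h1 : SRing) (h2 : OExpV) (h3 : YYV) (h4 : IExpV) (h5 : IExpFin) : E1V := by
  intro F Γ _ _ _ v m ω ε a b hV hvω hvd hvε hab hch
  set V : Γ := v (m ^ 2) with hVdef
  have hV0 : (V : Γ) ≠ 0 := ne_of_gt (lt_trans zero_lt_one hV)
  have h2le : v (2 : F) ≤ 1 := L_E1V.v2 v
  set T : F := (ω : F) + ((ω⁻¹ : Fˣ) : F) with hT
  have hinv : v ((ω⁻¹ : Fˣ) : F) < v (ω : F) := by
    rw [Units.val_inv_eq_inv_val, map_inv₀, hvω]
    exact lt_trans (inv_lt_one_of_one_lt₀ hV) hV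
  have hvT : v T = V := by
    rw [hT, Valuation.map_add_eq_of_lt_left v hinv, hvω]
  have hvT2 : v (T + 2) = V := by
    rw [Valuation.map_add_eq_of_lt_left v (lt_of_le_of_lt h2le (hvT ▸ hV)), hvT]
  have hNN : v (NN m T) = 1 := by
    unfold NN
    rw [map_div₀, hvd, hvT2, div_self hV0]
  have hω2 : (ω : F) ^ 2 ≠ 1 := by
    intro h
    have h' : v ((ω : F) ^ 2) = 1 := by rw [h, map_one]
    rw [map_pow, hvω] at h'
    exact absurd h' (ne_of_gt (one_lt_pow₀ hV two_ne_zero))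
  have hmT : m ^ 2 - 2 ≠ T := by
    intro h
    rw [h, sub_self, map_zero] at hvd
    exact hV0 hvd.symm
  obtain ⟨κ₀, κ₁, κ₂, κ₃, κ₄, hprod, hK1, hK2, hK3, hK4, hin⟩ := h1 F m ω ε a b hω2 hmT hab hch
  obtain ⟨k₁, hk1, hk1'⟩ := h2 F Γ v m T 1 κ₁ hNN hV hvT hK1
  obtain ⟨k₂, hk2, hk2'⟩ := h2 F Γ v m T 0 κ₂ hNN hV hvT hK2
  obtain ⟨k₃, hk3, hk3'⟩ := h2 F Γ v m T 1 κ₃ hNN hV hvT hK3
  obtain ⟨k₄, hk4, hk4'⟩ := h2 F Γ v m T 0 κ₄ hNN hV hvT hK4
  have hprodF : (κ₀ : F) * (ω : F) ^ 6 * κ₁ * κ₂ * κ₃ * κ₄ * (ε : F) ^ 2 = 1 := by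
    have := congrArg (fun u : Fˣ => (u : F)) hprod
    simpa using this
  have hprodV : v (κ₀ : F) * V ^ (6 + k₁ + k₂ + k₃ + k₄) = 1 := by
    have h := congrArg v hprodF
    rw [map_one] at h
    simp only [map_mul, map_pow] at h
    rw [hk1, hk2, hk3, hk4, hvε, hvω] at h
    rw [zpow_add₀ hV0, zpow_add₀ hV0, zpow_add₀ hV0, zpow_add₀ hV0]
    rw [← h]
    have h6 : V ^ (6 : ℤ) = V ^ 6 := by norm_cast
    rw [h6]
    simp only [← hVdef, one_pow, mul_one, mul_assoc]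
  obtain ⟨β, hβ⟩ : ∃ β : ℕ, (β : ℤ) = 6 + k₁ + k₂ + k₃ + k₄ := by
    refine ⟨(6 + k₁ + k₂ + k₃ + k₄).toNat, ?_⟩
    rw [abs_le] at hk1' hk2' hk3' hk4'
    omega
  rw [abs_le] at hk1' hk2' hk3' hk4'
  have hβ2 : 2 ≤ β := by omega
  have hβ10 : β ≤ 10 := by omega
  rw [← hβ, zpow_natCast] at hprodV
  have hVβ : 1 < V ^ β := one_lt_pow₀ hV (by omega)
  have hκ0 : v (κ₀ : F) = (V ^ β)⁻¹ := eq_inv_of_mul_eq_one_left hprodV
  have hκ0lt : v (κ₀ : F) < 1 := by rw [hκ0]; exact inv_lt_one_of_one_lt₀ hVβ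
  have hYY : v (YY m T (κ₀ : F)) = V ^ β := by
    rcases h3 F Γ v m T κ₀ hNN with ⟨_, h⟩ | ⟨hgt, _, h | h⟩
    · exact absurd h (ne_of_lt hκ0lt)
    · exact absurd (h ▸ hgt) (not_lt.2 hκ0lt.le)
    · rw [hκ0] at h
      exact (inv_injective h).symm
  obtain ⟨θ, hθ⟩ := L_E1V.quad (YY m T (κ₀ : F))
  have hVlt : V < V ^ β := by
    calc V = V ^ 1 := (pow_one V).symm
      _ < V ^ β := pow_lt_pow_right₀ hV (by omega)
  have hvm2 : v (m ^ 2 - 2) = V := by
    rw [Valuation.map_sub_eq_of_lt_left v (lt_of_le_of_lt h2le hV)]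
  have hθ2 : (θ : F) ^ 2 ≠ 1 := by
    intro h
    have hY : YY m T (κ₀ : F) = 2 ∨ YY m T (κ₀ : F) = -2 := by
      rw [sq] at h
      rcases mul_self_eq_one_iff.1 h with h | h
      · left; rw [hθ, Units.val_inv_eq_inv_val, h]; norm_num
      · right; rw [hθ, Units.val_inv_eq_inv_val, h]; norm_num
    have : v (YY m T (κ₀ : F)) ≤ 1 := by
      rcases hY with h | h
      · rw [h]; exact h2le
      · rw [h, Valuation.map_neg]; exact h2le
    rw [hYY] at this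
    exact absurd hVβ (not_lt.2 this)
  have hmΘ : m ^ 2 - 2 ≠ (θ : F) + ((θ⁻¹ : Fˣ) : F) := by
    intro h
    rw [← hθ] at h
    have h' := congrArg v h
    rw [hvm2, hYY] at h'
    exact absurd h' (ne_of_lt hVlt)
  obtain ⟨μ₁, μ₂, μ₃, μ₄, hL1, hL2, hL3, hL4, hTY⟩ := hin θ hθ2 hmΘ hθ
  rw [← hθ] at hL1 hL2 hL3 hL4 hTY
  obtain ⟨l₁, hl1, hl1'⟩ := h4 F Γ v m _ 3 β μ₁ (by omega) hβ2 hV hYY hL1
  obtain ⟨l₂, hl2, hl2'⟩ := h4 F Γ v m _ 2 β μ₂ (by omega) hβ2 hV hYY hL2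
  obtain ⟨l₃, hl3, hl3'⟩ := h4 F Γ v m _ 4 β μ₃ (by omega) hβ2 hV hYY hL3
  obtain ⟨l₄, hl4, hl4'⟩ := h4 F Γ v m _ 4 β μ₄ (by omega) hβ2 hV hYY hL4
  have hNN' : v (NN m (YY m T (κ₀ : F))) = 1 := by
    unfold NN
    rw [map_div₀]
    have e1 : v (m ^ 2 - 2 - YY m T (κ₀ : F)) = V ^ β := by
      rw [Valuation.map_sub_eq_of_lt_right v (by rw [hvm2, hYY]; exact hVlt), hYY]
    have e2 : v (YY m T (κ₀ : F) + 2) = V ^ β := by
      rw [Valuation.map_add_eq_of_lt_left v (lt_of_le_of_lt h2le (by rw [hYY]; exact hVβ)), hYY]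
    have e1' : v (m ^ 2 - 2 - YY m T (κ₀ : F)) = v (YY m T (κ₀ : F) + 2) := by rw [e1, e2]
    have e3 : v (YY m T (κ₀ : F) + 2) ≠ 0 := by
      rw [e2]; exact pow_ne_zero _ hV0
    unfold YY NN at e1' e3 ⊢
    rw [e1', div_self e3]
  have hμ : v ((μ₁ * μ₂ * μ₃ * μ₄ : Fˣ) : F) = V ∨ v ((μ₁ * μ₂ * μ₃ * μ₄ : Fˣ) : F) = V⁻¹ := by
    rcases h3 F Γ v m _ (μ₁ * μ₂ * μ₃ * μ₄) hNN' with ⟨h, _⟩ | ⟨_, _, h⟩
    · rw [← hTY, hvT] at h
      exact absurd hV (not_lt.2 h)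
    · rw [← hTY, hvT] at h
      exact h
  have hμ840 : v ((μ₁ * μ₂ * μ₃ * μ₄ : Fˣ) : F) ^ 840 = V ^ (l₁ + l₂ + l₃ + l₄) := by
    rw [zpow_add₀ hV0, zpow_add₀ hV0, zpow_add₀ hV0, ← hl1, ← hl2, ← hl3, ← hl4]
    simp only [Units.val_mul, map_mul, mul_pow]
  have hsum : |l₁ + l₂ + l₃ + l₄| = 840 := by
    rcases hμ with h | h
    · rw [h] at hμ840
      have h8 : V ^ (840 : ℤ) = V ^ 840 := by norm_cast
      rw [← h8] at hμ840
      have := zpow_right_injective₀ (lt_trans zero_lt_one hV) (ne_of_gt hV) hμ840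
      rw [← this]; norm_num
    · rw [h] at hμ840
      have h8 : V ^ (-840 : ℤ) = (V⁻¹) ^ 840 := by
        rw [zpow_neg, inv_pow]
        norm_cast
      rw [← h8] at hμ840
      have := zpow_right_injective₀ (lt_trans zero_lt_one hV) (ne_of_gt hV) hμ840
      rw [← this]; norm_num
  exact h5 β l₁ l₂ l₃ l₄ hβ2 hβ10 hl1' hl2' hl3' hl4' hsum

end AJM

end

section

namespace AJM

theorem prf_E2 (h1 : RingM) (h2 : E2M) : E2 := by
  intro F _ _ _ M ω ε ha hb τ j hM hω hε hab hR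
  have hch := h1 F M ha hb (dg ε) τ hR
  have hε' : (ε : F) ^ 2 = ((M : F) ^ 2) ^ j := by
    have := congrArg (fun z : Fˣ => (z : F)) hε
    push_cast at this
    rw [this, zpow_mul]
    norm_cast
  rcases hω with rfl | rfl
  · refine h2 F M ε _ _ hM ?_ hab hch
    rw [hε']
    exact zpow_mem (IntermediateField.mem_adjoin_simple_self ℂ _) j
  · have hmm : mm M⁻¹ = mm M := by
      unfold mm; rw [inv_inv, add_comm]
    rw [← hmm] at hch
    refine h2 F M⁻¹ ε _ _ ?_ ?_ ?_ hch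
    · intro h
      apply hM
      have := h.inv
      rwa [Units.val_inv_eq_inv_val, inv_inv] at this
    · rw [hε']
      have e : (M : F) ^ 2 = ((((M⁻¹ : Fˣ) : F)) ^ 2)⁻¹ := by
        rw [Units.val_inv_eq_inv_val, inv_pow, inv_inv]
      rw [e]
      exact zpow_mem (inv_mem (IntermediateField.mem_adjoin_simple_self ℂ _)) j
    · rw [hab, inv_pow]

end AJM

end

section

/-!
# MP_d3fa71_gt, project Mut, block E: the two quadratic equations of E2
-/

namespace AJM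

namespace L_E2Alg

theorem ne_algebraMap {F : Type} [Field F] [Algebra ℂ F] {t : F} (ht : Transcendental ℂ t)
    (c : ℂ) : t ≠ algebraMap ℂ F c := by
  intro h
  exact ht (h ▸ isAlgebraic_algebraMap c)

end L_E2Alg

open L_E2Alg in
theorem prf_E2Alg (h1 : NotSq) : E2Alg := by
  intro F _ _ t x y ht hx hy hr
  set K := IntermediateField.adjoin ℂ {t} with hK
  have htK : t ∈ K := IntermediateField.mem_adjoin_simple_self ℂ t
  have hnat : ∀ n : ℕ, (n : F) ∈ K := fun n => natCast_mem K n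
  have h1K : (1 : F) ∈ K := K.one_mem
  have h2K : (2 : F) ∈ K := by exact_mod_cast hnat 2
  have h3K : (3 : F) ∈ K := by exact_mod_cast hnat 3
  have ht0 : t ≠ 0 := by simpa using ne_algebraMap ht 0
  have ht1 : t ≠ 1 := by simpa using ne_algebraMap ht 1
  have htm1 : t ≠ -1 := by simpa using ne_algebraMap ht (-1)
  have hx' : t * x ^ 2 - (3 * t - 1) * x + (t - 1) = 0 := by linear_combination hx
  have hy' : y ^ 2 - (3 - t) * y + (1 - t) = 0 := by linear_combination hy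
  have hxK : x ∉ K := by
    intro hxK
    refine h1 F t (2 * t * x - (3 * t - 1)) ht ?_ ?_
    · exact K.sub_mem (K.mul_mem (K.mul_mem h2K htK) hxK) (K.sub_mem (K.mul_mem h3K htK) h1K)
    · linear_combination (4 * t) * hx'
  have hmain : t * (x * y) ^ 2 + (1 - t) ^ 2 +
      x * ((1 - t) * (3 * t - 1) - t * (3 - t) * (x * y)) = 0 := by
    linear_combination (t * x ^ 2) * hy' - (1 - t) * hx'
  set r := x * y with hrdef
  have hnum : t * r ^ 2 + (1 - t) ^ 2 ∈ K :=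
    K.add_mem (K.mul_mem htK (pow_mem hr 2)) (pow_mem (K.sub_mem h1K htK) 2)
  have hden : (1 - t) * (3 * t - 1) - t * (3 - t) * r ∈ K :=
    K.sub_mem (K.mul_mem (K.sub_mem h1K htK) (K.sub_mem (K.mul_mem h3K htK) h1K))
      (K.mul_mem (K.mul_mem htK (K.sub_mem h3K htK)) hr)
  have hc : (1 - t) * (3 * t - 1) - t * (3 - t) * r = 0 := by
    by_contra hc
    apply hxK
    have : x = -(t * r ^ 2 + (1 - t) ^ 2) / ((1 - t) * (3 * t - 1) - t * (3 - t) * r) := by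
      rw [eq_div_iff hc]
      linear_combination hmain
    rw [this]
    exact K.div_mem (K.neg_mem hnum) hden
  have hr2 : t * r ^ 2 + (1 - t) ^ 2 = 0 := by
    rw [hc, mul_zero, add_zero] at hmain
    exact hmain
  have h1t : (1 - t) ≠ 0 := sub_ne_zero.mpr (Ne.symm ht1)
  have hcube : (1 - t) ^ 2 * (t + 1) ^ 3 = 0 := by
    linear_combination ((1 - t) * (3 * t - 1) + t * (3 - t) * r) * hc + t * (3 - t) ^ 2 * hr2
  rcases mul_eq_zero.mp hcube with h | h
  · exact pow_ne_zero 2 h1t h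
  · have h2 : t + 1 = 0 := pow_eq_zero_iff (three_ne_zero) |>.mp h
    exact htm1 (eq_neg_of_add_eq_zero_left h2)

end AJM

end

section

/-!
# MP_d3fa71_gt, project Mut, item E2M
-/

namespace AJM

set_option linter.unusedSimpArgs false

namespace L_E2M

theorem conj_dg01 {F : Type} [Field F] (ε : Fˣ) (a : G F) :
    (dg ε * a * (dg ε)⁻¹).1 0 1 = (ε : F) ^ 2 * a.1 0 1 := by
  simp only [G_mul00, G_mul01, G_mul10, G_mul11, G_inv00, G_inv01, G_inv10, G_inv11, dg00, dg01,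
    dg10, dg11]
  ring

theorem conj_dg10 {F : Type} [Field F] (ε : Fˣ) (a : G F) :
    (dg ε * a * (dg ε)⁻¹).1 1 0 = ((ε⁻¹ : Fˣ) : F) ^ 2 * a.1 1 0 := by
  simp only [G_mul00, G_mul01, G_mul10, G_mul11, G_inv00, G_inv01, G_inv10, G_inv11, dg00, dg01,
    dg10, dg11]
  ring

theorem conj_J01 {F : Type} [Field F] (a : G F) : (J * a * J⁻¹).1 0 1 = - a.1 1 0 := by
  simp only [G_mul00, G_mul01, G_mul10, G_mul11, G_inv00, G_inv01, G_inv10, G_inv11, J00, J01,
    J10, J11]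
  ring

theorem conj_J10 {F : Type} [Field F] (a : G F) : (J * a * J⁻¹).1 1 0 = - a.1 0 1 := by
  simp only [G_mul00, G_mul01, G_mul10, G_mul11, G_inv00, G_inv01, G_inv10, G_inv11, J00, J01,
    J10, J11]
  ring

theorem conj_J_dg {F : Type} [Field F] (u : Fˣ) : J * dg u * J⁻¹ = dg u⁻¹ := by
  rw [J_dg, mul_assoc, mul_inv_cancel, mul_one]

end L_E2M

open L_E2M in
theorem prf_E2M (h1 : E2U) (h2 : MChainConj) (h3 : ColUL1) (h4 : PairT) (h5 : CRelMul) :
    E2M := by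
  intro F _ _ M ε a b hM hε hab hC
  have hM0 : (M : F) ≠ 0 := M.ne_zero
  have hM4 : (M : F) ^ 4 ≠ 1 := by
    intro h
    apply hM
    refine ⟨Polynomial.X ^ 4 - Polynomial.C 1, ?_, ?_⟩
    · exact Polynomial.X_pow_sub_C_ne_zero (by norm_num : 0 < 4) (1 : ℂ)
    · simp [h]
  have key : UU a ∨ LL a := by
    obtain ⟨hE, a₀, b₀, a₁, b₁, a₂, b₂, a₃, b₃, a₄, b₄, a₅, b₅, ta₀, tb₀, ta₁, tb₁, ta₂, tb₂, ta₃,
      tb₃, ta₄, tb₄, ta₅, tb₅, -, -, -, -, -, -, h54, ha, hb⟩ := hC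
    have h55 : a₅ * b₅ = dg (M ^ 2) := by
      have : dg ε * (a₅ * b₅) * (dg ε)⁻¹ = dg (M ^ 2) := by
        rw [← hab, ← ha, ← hb]; group
      calc a₅ * b₅ = (dg ε)⁻¹ * (dg ε * (a₅ * b₅) * (dg ε)⁻¹) * dg ε := by group
        _ = (dg ε)⁻¹ * (dg (M ^ 2) * dg ε) := by rw [this, mul_assoc]
        _ = dg (M ^ 2) := by rw [dg_comm]; group
    have hε0 : (ε : F) ≠ 0 := ε.ne_zero
    have hεi : ((ε⁻¹ : Fˣ) : F) ≠ 0 := (ε⁻¹).ne_zero
    rcases h3 F M a₅ b₅ a₄ b₄ hM4 h55 ta₅ ta₄ h54 with ⟨⟨hu1, hu2⟩, -, -⟩ | ⟨⟨hu1, hu2⟩, -, -⟩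
    · left
      refine ⟨?_, ?_⟩
      · rw [← ha, conj_dg10, hu1, mul_zero]
      · rw [← ha, conj_dg01]
        exact mul_ne_zero (pow_ne_zero _ hε0) hu2
    · right
      refine ⟨?_, ?_⟩
      · rw [← ha, conj_dg01, hu1, mul_zero]
      · rw [← ha, conj_dg10]
        exact mul_ne_zero (pow_ne_zero _ hεi) hu2
  rcases key with hU | hL
  · exact h1 F M ε a b hM hε hab hU hC
  · have hC' := h2 F (mm M) a b (dg ε) J hC
    rw [conj_J_dg] at hC'
    have hmm : mm M = mm M⁻¹ := by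
      unfold mm
      rw [inv_inv, add_comm]
    rw [hmm] at hC'
    refine h1 F M⁻¹ ε⁻¹ _ _ ?_ ?_ ?_ ?_ hC'
    · rw [Units.val_inv_eq_inv_val]
      intro h
      apply hM
      simpa using h.inv
    · have e1 : IntermediateField.adjoin ℂ {((M⁻¹ : Fˣ) : F) ^ 2} =
          IntermediateField.adjoin ℂ {(M : F) ^ 2} := by
        rw [Units.val_inv_eq_inv_val, inv_pow]
        apply le_antisymm
        · rw [IntermediateField.adjoin_simple_le_iff]
          exact inv_mem (IntermediateField.mem_adjoin_simple_self ℂ _)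
        · rw [IntermediateField.adjoin_simple_le_iff]
          have := inv_mem (IntermediateField.mem_adjoin_simple_self ℂ (((M : F) ^ 2)⁻¹))
          rwa [inv_inv] at this
      rw [e1, Units.val_inv_eq_inv_val, inv_pow]
      exact inv_mem hε
    · have : J * a * J⁻¹ * (J * b * J⁻¹) = J * (a * b) * J⁻¹ := by group
      rw [this, hab, conj_J_dg, inv_pow]
    · refine ⟨?_, ?_⟩
      · rw [conj_J10, hL.1, neg_zero]
      · rw [conj_J01]
        exact neg_ne_zero.2 hL.2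

end AJM

end

section

namespace AJM
namespace L_E2U

section
variable {F : Type} [Field F]

theorem conj_dg01 (u : Fˣ) (x : G F) : (dg u * x * (dg u)⁻¹).1 0 1 = (u : F) ^ 2 * x.1 0 1 := by
  rw [G_mul01, G_inv01, G_inv11, G_mul00, G_mul01]
  simp
  ring

theorem conj_dg10 (u : Fˣ) (x : G F) :
    (u : F) ^ 2 * (dg u * x * (dg u)⁻¹).1 1 0 = x.1 1 0 := by
  rw [G_mul10, G_inv00, G_inv10, G_mul10, G_mul11]
  simp
  field_simp

theorem npow_of_trans {F : Type} [Field F] [Algebra ℂ F] (M : Fˣ)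
    (hM : Transcendental ℂ (M : F)) (n : ℤ) (hn : n ≠ 0) : M ^ n ≠ 1 := by
  intro h
  have key : ∀ k : ℕ, k ≠ 0 → (M : F) ^ k ≠ 1 := by
    intro k hk h1
    apply hM
    refine IsAlgebraic.of_pow (n := k) (Nat.pos_of_ne_zero hk) ?_
    rw [h1]
    exact isAlgebraic_one
  obtain ⟨k, rfl | rfl⟩ := n.eq_nat_or_neg
  · apply key k (by simpa using hn)
    have := congrArg (fun z : Fˣ => (z : F)) h
    simpa using this
  · apply key k (by simpa using hn)
    have h2 : M ^ (k : ℤ) = 1 := by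
      rw [zpow_neg, inv_eq_one] at h
      exact h
    have := congrArg (fun z : Fˣ => (z : F)) h2
    simpa using this

end

end L_E2U

open L_E2U in
theorem prf_E2U (h1 : ColUL1) (h2 : ColUL2) (h3 : RAU) (h4 : E2Alg) (h5 : CRelMul) : E2U := by
  intro F _ _ M ε a b hM hε hab hU hch
  obtain ⟨hcomm, a₀, b₀, a₁, b₁, a₂, b₂, a₃, b₃, a₄, b₄, a₅, b₅, ta0, tb0, ta1, tb1, ta2, tb2,
    ta3, tb3, ta4, tb4, ta5, tb5, hRA, ha1, hb1, c12, c23, c43, c54, e5a, e5b⟩ := hch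
  have hpow := npow_of_trans M hM
  have hM4 : (M : F) ^ 4 ≠ 1 := by
    intro h
    apply hpow 4 (by norm_num)
    apply Units.ext
    push_cast
    simpa using h
  -- products
  have hRA' := hRA
  obtain ⟨x₁, y₁, x₂, y₂, x₃, y₃, _, _, _, _, _, _, _, r1, r2, r3, r4⟩ := hRA'
  have p0 : a₀ * b₀ = dg (M ^ 2) := by
    have q1 := (h5 F 3 _ _ _ _ r1).1
    have q2 := (h5 F 2 _ _ _ _ r2).1
    have q3 := (h5 F (-4) _ _ _ _ r3).1
    have q4 := (h5 F (-4) _ _ _ _ r4).1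
    have : a⁻¹ * a₀ = b * b₀⁻¹ := by rw [q4, q3, q2, q1]
    have e : a₀ * b₀ = a * b := by
      calc a₀ * b₀ = a * (a⁻¹ * a₀) * b₀ := by group
        _ = a * b := by rw [this]; group
    rw [e, hab]
  have p1 : a₁ * b₁ = dg (M ^ 2) := by
    have e : a₁ * b₁ = (a₀ * b₀) ^ 3 * (a₀ * b₀) * ((a₀ * b₀) ^ 3)⁻¹ := by
      rw [ha1, hb1]
      simp only [mul_assoc, inv_mul_cancel_left]
    rw [e, p0, ← pow_succ, pow_succ', mul_inv_cancel_right]
  have p2 : a₂ * b₂ = dg (M ^ 2) := by rw [(h5 F 2 _ _ _ _ c12).1, p1]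
  have p3 : a₃ * b₃ = dg (M ^ 2) := by rw [(h5 F 1 _ _ _ _ c23).1, p2]
  have p4 : a₄ * b₄ = dg (M ^ 2) := by rw [← (h5 F 2 _ _ _ _ c43).1, p3]
  have p5 : a₅ * b₅ = dg (M ^ 2) := by rw [← (h5 F 1 _ _ _ _ c54).1, p4]
  -- a₅
  have s5 : (ε : F) ^ 2 * a₅.1 0 1 = a.1 0 1 := by rw [← e5a, conj_dg01]
  have s5' : a₅.1 1 0 = 0 := by
    have := conj_dg10 ε a₅
    rw [e5a, hU.1, mul_zero] at this
    exact this.symm
  have s5n : a₅.1 0 1 ≠ 0 := by
    intro h0
    rw [h0, mul_zero] at s5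
    exact hU.2 s5.symm
  -- columns
  rcases h1 F M a₅ b₅ a₄ b₄ hM4 p5 ta5 ta4 c54 with ⟨_, L4, f5⟩ | ⟨L5, _, _⟩
  swap
  · exact L5.2 s5'
  rcases h2 F M a₄ b₄ a₃ b₃ hM4 p4 ta4 ta3 c43 with ⟨U4, _, _⟩ | ⟨_, U3, f4⟩
  · exact L4.2 U4.1
  rcases h1 F M a₂ b₂ a₃ b₃ hM4 p2 ta2 ta3 c23 with ⟨_, L3, _⟩ | ⟨L2, _, f2⟩
  · exact L3.2 U3.1
  rcases h2 F M a₁ b₁ a₂ b₂ hM4 p1 ta1 ta2 c12 with ⟨U1, _, f1⟩ | ⟨_, U2, _⟩
  swap
  · exact L2.2 U2.1
  -- a₀
  have hg3 : (a₀ * b₀) ^ 3 = dg (M ^ 6) := by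
    rw [p0, ← dg_pow]
    congr 1
    rw [← pow_mul]
  have s1 : a₁.1 0 1 = (M : F) ^ 12 * a₀.1 0 1 := by
    rw [ha1, hg3, conj_dg01]
    push_cast
    ring
  have s1' : a₀.1 1 0 = 0 := by
    have := conj_dg10 (M ^ 6) a₀
    rw [← hg3, ← ha1, U1.1, mul_zero] at this
    exact this.symm
  have U0 : UU a₀ := by
    refine ⟨s1', ?_⟩
    intro h0
    rw [h0, mul_zero] at s1
    exact U1.2 s1
  set K := IntermediateField.adjoin ℂ {(M : F) ^ 2} with hK
  have htK : (M : F) ^ 2 ∈ K := IntermediateField.subset_adjoin ℂ _ (by simp)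
  obtain ⟨η, hη, hη'⟩ := h3 F K.toSubfield M a b a₀ b₀ hpow htK hab p0 hRA hU U0
  have ht : Transcendental ℂ ((M : F) ^ 2) := by
    intro h
    exact hM (IsAlgebraic.of_pow (by norm_num) h)
  apply h4 F ((M : F) ^ 2) (a₁.1 0 1 * a₂.1 1 0) (a₄.1 1 0 * a₃.1 0 1) ht f1 f4
  have hM0 : (M : F) ≠ 0 := M.ne_zero
  have e1 : a₂.1 1 0 * a₃.1 0 1 = 1 - (M : F) ^ 2 := by linear_combination -f2
  have e2 : a₅.1 0 1 * a₄.1 1 0 = 1 - ((M : F) ^ 2)⁻¹ := by
    have : (M : F) ^ 2 * (((M : F) ^ 2)⁻¹) = 1 := mul_inv_cancel₀ (pow_ne_zero 2 hM0)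
    have h0 : (M : F) ^ 2 ≠ 0 := pow_ne_zero 2 hM0
    apply mul_left_cancel₀ h0
    linear_combination -f5 + this
  have e3 : a₁.1 0 1 = ((M : F) ^ 2) ^ 6 * η * (ε : F) ^ 2 * a₅.1 0 1 := by
    rw [s1, hη', ← s5]
    ring
  have e4 : a₁.1 0 1 * a₂.1 1 0 * (a₄.1 1 0 * a₃.1 0 1) =
      ((M : F) ^ 2) ^ 6 * η * (ε : F) ^ 2 * (1 - ((M : F) ^ 2)⁻¹) * (1 - (M : F) ^ 2) := by
    rw [← e1, ← e2, e3]
    ring
  rw [e4]
  have one : (1 : F) ∈ K := K.one_mem
  exact K.mul_mem (K.mul_mem (K.mul_mem (K.mul_mem (pow_mem htK 6) hη) hε)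
    (K.sub_mem one (K.inv_mem htK))) (K.sub_mem one htK)

end AJM

end
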