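import Pool.Agent.Work.MP_d3fa71_gt.Mut.Bd.B20
import Pool.Agent.Work.MP_d3fa71_gt.Mut.Bd.B01

/-! Bundle of small proof modules (one section per former module). -/

section

/-!
# MP_d3fa71_gt, project Mut, block E: the inner columns, algebraicity
-/

set_option autoImplicit false

namespace AJM

namespace L_IAlg

section
variable {Γ : Type} [LinearOrderedCommGroupWithZero Γ]

theorem zpow_ne_one {B : Γ} (hB : 1 < B) {s : ℤ} (hs : s ≠ 0) : B ^ s ≠ 1 := by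
  have h0 : 0 < B := lt_trans zero_lt_one hB
  intro h
  have h1 := zpow_right_injective₀ h0 hB.ne' (a₁ := s) (a₂ := 0) (by simpa using h)
  exact hs h1

/-- The exponents of one column. -/
theorem step {F : Type} [Field F] (v : Valuation F Γ) (h2 : KRelV) {m Θ : F} {n : ℕ} {μ : Fˣ}
    (hN : v (NN m Θ) = 1) (hm : v (m ^ 2) = 1) (hB : 1 < v (Θ - 2)) (hK : KRel m (n + 1) Θ μ) :
    ∃ e : ℤ, (e = 1 ∨ e = -1) ∧ v (μ : F) ^ (2 * n + 2) = v (Θ - 2) ^ e := by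
  rcases h2 F Γ v m Θ n μ hN hm.ge hK with ⟨-, h⟩ | ⟨y, hy, hμ, h⟩
  · rw [hm] at h
    exact absurd hB (not_lt.2 h)
  · rw [hm] at h
    rcases h with ⟨-, h⟩ | ⟨h, -⟩ | ⟨h, -⟩
    · rcases hμ with hμ | hμ
      · exact ⟨1, Or.inl rfl, by rw [hμ, h, zpow_one]⟩
      · exact ⟨-1, Or.inr rfl, by rw [hμ, h, zpow_neg_one, inv_pow]⟩
    · exact absurd h (not_lt.2 hy.le)
    · exact absurd h hy.ne'

/-- The exponent of the product. -/
theorem prod_exp {B a b c d : Γ} (hB : 1 < B) {e₁ e₂ e₃ e₄ : ℤ} (h1 : e₁ = 1 ∨ e₁ = -1)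
    (h2 : e₂ = 1 ∨ e₂ = -1) (h3 : e₃ = 1 ∨ e₃ = -1) (h4 : e₄ = 1 ∨ e₄ = -1)
    (ha : a ^ 6 = B ^ e₁) (hb : b ^ 4 = B ^ e₂) (hc : c ^ 8 = B ^ e₃) (hd : d ^ 8 = B ^ e₄) :
    a * b * c * d ≠ 1 := by
  intro h
  have h0 : B ≠ 0 := (lt_trans zero_lt_one hB).ne'
  have e : (a * b * c * d) ^ 24 = B ^ (4 * e₁ + 6 * e₂ + 3 * e₃ + 3 * e₄) := by
    have e1 : (a * b * c * d) ^ 24 = (a ^ 6) ^ 4 * (b ^ 4) ^ 6 * (c ^ 8) ^ 3 * (d ^ 8) ^ 3 := by
      rw [mul_pow, mul_pow, mul_pow, ← pow_mul, ← pow_mul, ← pow_mul, ← pow_mul]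
    rw [e1, ha, hb, hc, hd, zpow_add₀ h0, zpow_add₀ h0, zpow_add₀ h0, mul_comm 4 e₁,
      mul_comm 6 e₂, mul_comm 3 e₃, mul_comm 3 e₄, zpow_mul, zpow_mul, zpow_mul, zpow_mul]
    norm_cast
  rw [h, one_pow] at e
  refine zpow_ne_one hB ?_ e.symm
  omega

end

end L_IAlg

theorem prf_IAlg (h1 : ValEx) (h2 : KRelV) (h3 : YYV) : IAlg := by
  intro K F _ _ _ m T Θ μ₁ μ₂ μ₃ μ₄ hm hm0 hT k1 k2 k3 k4 hTY
  by_contra hΘ
  obtain ⟨Γ, _, v, hv, hx⟩ := h1 K F Θ hΘ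
  have : v.IsTrivialOn K := ⟨hv⟩
  have halg : ∀ x : F, x ≠ 0 → IsAlgebraic K x → v x = 1 := by
    intro x h0 hx
    by_contra h
    exact (v.transcendental_of_ne_one K x h0 h) hx
  have halg' : ∀ x : F, IsAlgebraic K x → v x ≤ 1 := by
    intro x hx
    by_cases h0 : x = 0
    · rw [h0, map_zero]
      exact zero_le_one
    · exact (halg x h0 hx).le
  have hvm : v (m ^ 2) = 1 := by rw [map_pow, halg m hm0 hm, one_pow]
  have h2' : v (2 : F) ≤ 1 := by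
    have h := halg' (algebraMap K F 2) (isAlgebraic_algebraMap 2)
    rwa [map_ofNat] at h
  have hnum : v (m ^ 2 - 2 - Θ) = v Θ :=
    v.map_sub_eq_of_lt_right (lt_of_le_of_lt (v.map_sub_le hvm.le h2') hx)
  have hden : v (Θ + 2) = v Θ := v.map_add_eq_of_lt_left (lt_of_le_of_lt h2' hx)
  have hB : v (Θ - 2) = v Θ := v.map_sub_eq_of_lt_left (lt_of_le_of_lt h2' hx)
  have hΘ0 : v Θ ≠ 0 := (lt_trans zero_lt_one hx).ne'
  have hN : v (NN m Θ) = 1 := by
    unfold NN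
    rw [map_div₀, hnum, hden, div_self hΘ0]
  have hB1 : 1 < v (Θ - 2) := by rwa [hB]
  obtain ⟨e₁, he₁, q1⟩ := L_IAlg.step v h2 (n := 2) hN hvm hB1 k1
  obtain ⟨e₂, he₂, q2⟩ := L_IAlg.step v h2 (n := 1) hN hvm hB1 k2
  obtain ⟨e₃, he₃, q3⟩ := L_IAlg.step v h2 (n := 3) hN hvm hB1 k3
  obtain ⟨e₄, he₄, q4⟩ := L_IAlg.step v h2 (n := 3) hN hvm hB1 k4
  have hne := L_IAlg.prod_exp hB1 he₁ he₂ he₃ he₄ q1 q2 q3 q4
  have hprod : v (((μ₁ * μ₂ * μ₃ * μ₄ : Fˣ)) : F) =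
      v (μ₁ : F) * v (μ₂ : F) * v (μ₃ : F) * v (μ₄ : F) := by
    rw [Units.val_mul, Units.val_mul, Units.val_mul, map_mul, map_mul, map_mul]
  rcases h3 F Γ v m Θ (μ₁ * μ₂ * μ₃ * μ₄) hN with ⟨-, h⟩ | ⟨h, -⟩
  · exact hne (hprod ▸ h)
  · rw [← hTY] at h
    exact absurd h (not_lt.2 (halg' T hT))

end AJM

end

section

set_option autoImplicit false

/-!
# MP_d3fa71_gt, project Mut: the finite check on the exponents of the inner columns
-/

namespace AJM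

namespace L_IExpFin

/-- The possible exponents. -/
def S (n β : ℕ) : List ℤ :=
  (if β ≤ 2 * n then [840, -840] else []) ++
  ((if β < 2 * n then [840 * ((β : ℤ) - 1) / (2 * (n : ℤ) - 1),
    -(840 * ((β : ℤ) - 1) / (2 * (n : ℤ) - 1))] else []) ++
  (if 2 * n < β then [840 * (β : ℤ) / (2 * (n : ℤ)), -(840 * (β : ℤ) / (2 * (n : ℤ)))] else []))

theorem mem_S (n β : ℕ) (k : ℤ) (hn : 1 ≤ n) (h : IExp n β k) : k ∈ S n β := by
  have hn' : (1 : ℤ) ≤ n := by exact_mod_cast hn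
  unfold S
  rw [List.mem_append, List.mem_append]
  rcases h with ⟨h1, h2⟩ | ⟨h1, h2⟩ | ⟨h1, h2⟩
  · left
    rw [if_pos h2]
    rcases abs_eq (by norm_num : (0 : ℤ) ≤ 840) |>.1 h1 with h | h
    · rw [h]; simp
    · rw [h]; simp
  · right; left
    rw [if_pos h2]
    have h3 : |k| = 840 * ((β : ℤ) - 1) / (2 * (n : ℤ) - 1) :=
      (Int.ediv_eq_of_eq_mul_left (by omega) h1.symm).symm
    rw [← h3]
    rcases abs_choice k with h | h
    · rw [h]; simp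
    · rw [h]; simp
  · right; right
    rw [if_pos h2]
    have h3 : |k| = 840 * (β : ℤ) / (2 * (n : ℤ)) :=
      (Int.ediv_eq_of_eq_mul_left (by omega) h1.symm).symm
    rw [← h3]
    rcases abs_choice k with h | h
    · rw [h]; simp
    · rw [h]; simp

theorem key : ∀ β ∈ Finset.Icc 2 10, ∀ k₁ ∈ S 3 β, ∀ k₂ ∈ S 2 β, ∀ k₃ ∈ S 4 β, ∀ k₄ ∈ S 4 β,
    k₁ + k₂ + k₃ + k₄ ≠ 840 ∧ k₁ + k₂ + k₃ + k₄ ≠ -840 := by
  decide +kernel

end L_IExpFin

open L_IExpFin in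
theorem prf_IExpFin : IExpFin := by
  intro β k₁ k₂ k₃ k₄ h2 h10 h1 h3 h4 h5 h
  have hk := key β (Finset.mem_Icc.2 ⟨h2, h10⟩) k₁ (mem_S 3 β k₁ (by norm_num) h1)
    k₂ (mem_S 2 β k₂ (by norm_num) h3) k₃ (mem_S 4 β k₃ (by norm_num) h4)
    k₄ (mem_S 4 β k₄ (by norm_num) h5)
  rcases abs_eq (by norm_num : (0 : ℤ) ≤ 840) |>.1 h with h | h
  · exact hk.1 h
  · exact hk.2 h

end AJM

end

section

/-!
# MP_d3fa71_gt, project Mut, item IExpV: exponents of the inner columns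
-/

namespace AJM

namespace L_IExpV

theorem val_two {F Γ : Type} [Field F] [LinearOrderedCommGroupWithZero Γ] (v : Valuation F Γ) :
    v 2 ≤ 1 := by
  have h : (2 : F) = 1 + 1 := by norm_num
  rw [h]
  refine (v.map_add 1 1).trans ?_
  simp

theorem sign {Γ : Type} [LinearOrderedCommGroupWithZero Γ] {x y V : Γ} {k : ℕ}
    (hx : x = y ∨ x = y⁻¹) (hy : y ^ 840 = V ^ k) :
    ∃ l : ℤ, |l| = k ∧ x ^ 840 = V ^ l := by
  rcases hx with rfl | rfl
  · exact ⟨k, by simp, by rw [hy, zpow_natCast]⟩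
  · exact ⟨-k, by simp, by rw [inv_pow, hy, zpow_neg, zpow_natCast]⟩

end L_IExpV

theorem prf_IExpV (h1 : KRelV) : IExpV := by
  intro F Γ _ _ v m T n β κ hn hβ hV hT hK
  set V := v (m ^ 2) with hVdef
  have hVβ : V < V ^ β := by
    have := (pow_lt_pow_iff_right₀ hV (n := 1) (m := β)).2 (by omega)
    rwa [pow_one] at this
  have h2 : v 2 < V := (L_IExpV.val_two v).trans_lt hV
  have h2T : v 2 < v T := by rw [hT]; exact h2.trans hVβ
  have ha : v (T + 2) = V ^ β := by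
    rw [← hT]; exact v.map_add_eq_of_lt_left h2T
  have hb : v (T - 2) = V ^ β := by
    rw [← hT]; exact v.map_sub_eq_of_lt_left h2T
  have hc : v (m ^ 2 - 2 - T) = V ^ β := by
    have h3 : v (m ^ 2 - 2) < v T := by
      rw [hT]
      refine (v.map_sub (m ^ 2) 2).trans_lt ?_
      exact max_lt hVβ (h2.trans hVβ)
    rw [← hT]
    exact v.map_sub_eq_of_lt_right h3
  have hV0 : V ≠ 0 := (zero_lt_one.trans hV).ne'
  have hN : v (NN m T) = 1 := by
    unfold NN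
    rw [map_div₀, ha, hc]
    exact div_self (pow_ne_zero _ hV0)
  obtain ⟨n', rfl⟩ : ∃ n', n = n' + 1 := ⟨n - 1, by omega⟩
  rcases h1 F Γ v m T n' κ hN hV.le hK with ⟨-, h⟩ | ⟨y, hy, hκ, h⟩
  · rw [hb] at h
    exact absurd h (not_le.2 hVβ)
  rw [hb] at h
  rcases h with ⟨hVy, h⟩ | ⟨hyV, h⟩ | ⟨hyV, h⟩
  · -- `V < y`
    have hlt : 2 * (n' + 1) < β := by
      have h4 : V ^ (2 * n' + 2) < y ^ (2 * n' + 2) :=
        pow_lt_pow_left₀ hVy zero_le (by omega)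
      rw [← h, pow_lt_pow_iff_right₀ hV] at h4
      omega
    obtain ⟨q, hq⟩ : ∃ q, 840 = (2 * n' + 2) * q := by
      have : n' = 1 ∨ n' = 2 ∨ n' = 3 := by omega
      rcases this with rfl | rfl | rfl
      · exact ⟨210, by norm_num⟩
      · exact ⟨140, by norm_num⟩
      · exact ⟨105, by norm_num⟩
    have hy8 : y ^ 840 = V ^ (β * q) := by
      rw [hq, pow_mul, ← h, ← pow_mul]
    obtain ⟨k, hk, hk2⟩ := L_IExpV.sign hκ hy8
    refine ⟨k, hk2, Or.inr (Or.inr ⟨?_, ?_⟩)⟩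
    · rw [hk]
      have : (840 : ℤ) = (2 * n' + 2) * q := by exact_mod_cast hq
      rw [this]
      push_cast
      ring
    · omega
  · -- `y < V`
    have hβ1 : V ^ (β - 1) = y ^ (2 * n' + 1) := by
      apply mul_right_cancel₀ hV0
      rw [← h, ← pow_succ]
      congr 1
      omega
    have hlt : β - 1 < 2 * n' + 1 := by
      have h4 : y ^ (2 * n' + 1) < V ^ (2 * n' + 1) :=
        pow_lt_pow_left₀ hyV zero_le (by omega)
      rwa [← hβ1, pow_lt_pow_iff_right₀ hV] at h4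
    obtain ⟨q, hq⟩ : ∃ q, 840 = (2 * n' + 1) * q := by
      have : n' = 1 ∨ n' = 2 ∨ n' = 3 := by omega
      rcases this with rfl | rfl | rfl
      · exact ⟨280, by norm_num⟩
      · exact ⟨168, by norm_num⟩
      · exact ⟨120, by norm_num⟩
    have hy8 : y ^ 840 = V ^ ((β - 1) * q) := by
      rw [hq, pow_mul, ← hβ1, ← pow_mul]
    obtain ⟨k, hk, hk2⟩ := L_IExpV.sign hκ hy8
    refine ⟨k, hk2, Or.inr (Or.inl ⟨?_, ?_⟩)⟩
    · rw [hk]
      have : (840 : ℤ) = (2 * n' + 1) * q := by exact_mod_cast hq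
      rw [this]
      have hb1 : ((β - 1 : ℕ) : ℤ) = (β : ℤ) - 1 := by
        have : 1 ≤ β := by omega
        push_cast [this]
        ring
      rw [Nat.cast_mul, hb1]
      push_cast
      ring
    · omega
  · -- `y = V`
    subst hyV
    have hle : β ≤ 2 * n' + 2 := (pow_le_pow_iff_right₀ hy).1 h
    obtain ⟨k, hk, hk2⟩ := L_IExpV.sign (k := 840) hκ rfl
    exact ⟨k, hk2, Or.inl ⟨by rw [hk]; norm_num, by omega⟩⟩

end AJM

end

section

/-!
# MP_d3fa71_gt, project Mut: `InStep`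
-/

namespace AJM

namespace L_InStep

variable {F : Type} [Field F]

/-- The translation. -/
def U (c : F) : G F := ⟨!![1, c; 0, 1], by simp [Matrix.det_fin_two_of]⟩

theorem U00 (c : F) : (U c).1 0 0 = 1 := rfl
theorem U01 (c : F) : (U c).1 0 1 = c := rfl
theorem U10 (c : F) : (U c).1 1 0 = 0 := rfl
theorem U11 (c : F) : (U c).1 1 1 = 1 := rfl

theorem U_add (a b : F) : U (a + b) = U a * U b := by
  apply G_ext <;>
    simp only [G_mul00, G_mul01, G_mul10, G_mul11, U00, U01, U10, U11] <;> ring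

/-- As a homomorphism. -/
def Uh : Multiplicative F →* G F where
  toFun := fun a => U (Multiplicative.toAdd a)
  map_one' := by
    apply G_ext <;> simp [U00, U01, U10, U11]
  map_mul' x y := by
    rw [toAdd_mul]; exact U_add _ _

theorem U_zpow (c : F) (r : ℤ) : (U c) ^ r = U (r * c) := by
  have h := map_zpow (Uh (F := F)) (Multiplicative.ofAdd c) r
  have e : Uh (F := F) (Multiplicative.ofAdd c) = U c := rfl
  rw [e] at h
  rw [← h]
  have e2 : Uh (F := F) (Multiplicative.ofAdd c ^ r) = U (r • c) := by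
    have : (Multiplicative.ofAdd c ^ r) = Multiplicative.ofAdd (r • c) := rfl
    rw [this]; rfl
  rw [e2, zsmul_eq_mul]

theorem U_neg (a : F) : U (-a) = (U a)⁻¹ := by
  rw [eq_inv_iff_mul_eq_one, ← U_add]
  apply G_ext <;> simp [U00, U01, U10, U11]

/-- A triangular matrix with trace `M + M⁻¹`. -/
theorem tri {M : Fˣ} {x : G F} (h10 : x.1 1 0 = 0) (ht : tr x = mm M) :
    ∃ l : Fˣ, (l = M ∨ l = M⁻¹) ∧ x.1 0 0 = l ∧ x.1 1 1 = ((l⁻¹ : Fˣ) : F) := by
  have hd := G_det x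
  rw [h10, mul_zero, sub_zero] at hd
  unfold tr mm at ht
  have hM : (M : F) * ((M⁻¹ : Fˣ) : F) = 1 := by simp
  have hz : (x.1 0 0 - M) * (x.1 0 0 - ((M⁻¹ : Fˣ) : F)) = 0 := by
    linear_combination (-(x.1 0 0)) * ht.symm + hM - hd
  rcases mul_eq_zero.1 hz with h | h
  · have h0 : x.1 0 0 = M := sub_eq_zero.1 h
    refine ⟨M, Or.inl rfl, h0, ?_⟩
    rw [h0] at ht
    exact add_left_cancel ht
  · have h0 : x.1 0 0 = ((M⁻¹ : Fˣ) : F) := sub_eq_zero.1 h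
    refine ⟨M⁻¹, Or.inr rfl, h0, ?_⟩
    rw [inv_inv]
    rw [h0, add_comm] at ht
    exact add_right_cancel ht

/-- The normal form. -/
theorem norm {x : G F} {l : Fˣ} (h10 : x.1 1 0 = 0) (h00 : x.1 0 0 = l)
    (h11 : x.1 1 1 = ((l⁻¹ : Fˣ) : F)) (hl : (l : F) ^ 2 ≠ 1) :
    x = U (cen x) * dg l * (U (cen x))⁻¹ := by
  have hl0 : (l : F) ≠ 0 := l.ne_zero
  have h1 : (1 : F) - (l : F) ^ 2 ≠ 0 := sub_ne_zero.2 (Ne.symm hl)
  rw [← U_neg]
  apply G_ext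
  · simp only [G_mul00, G_mul01, G_mul10, G_mul11, U00, U01, U10, U11, dg00, dg01, dg10, dg11, h00]
    ring
  · simp only [G_mul00, G_mul01, G_mul10, G_mul11, U00, U01, U10, U11, dg00, dg01, dg10, dg11,
      cen, h00, Units.val_inv_eq_inv_val]
    field_simp
    ring
  · simp only [G_mul00, G_mul01, G_mul10, G_mul11, U00, U01, U10, U11, dg00, dg01, dg10, dg11, h10]
    ring
  · simp only [G_mul00, G_mul01, G_mul10, G_mul11, U00, U01, U10, U11, dg00, dg01, dg10, dg11, h11]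
    ring

/-- Case A. -/
theorem caseA {l : Fˣ} {p q ζ : F} {r : ℤ} (hr : (r : F) ≠ 0) (hl : (l : F) ^ 2 ≠ 1)
    (h : (U p * dg l * (U p)⁻¹)⁻¹ * U ζ *
        ((U p * dg l * (U p)⁻¹)⁻¹ * (U q * dg l * (U q)⁻¹)) ^ r =
      ((U p * dg l * (U p)⁻¹)⁻¹ * (U q * dg l * (U q)⁻¹)) ^ r * (U p * dg l * (U p)⁻¹)⁻¹) :
    q - p = (-((l : F) ^ 2) / (r * ((l : F) ^ 2 - 1) ^ 2)) * ζ := by
  have hl0 : (l : F) ≠ 0 := l.ne_zero
  have h1 : (l : F) ^ 2 - 1 ≠ 0 := sub_ne_zero.2 hl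
  have hv : (U p * dg l * (U p)⁻¹)⁻¹ * (U q * dg l * (U q)⁻¹) =
      U ((p - q) * (1 - ((l : F) ^ 2)⁻¹)) := by
    rw [← U_neg, ← U_neg]
    apply G_ext <;>
    simp only [G_mul00, G_mul01, G_mul10, G_mul11, G_inv00, G_inv01, G_inv10, G_inv11,
      U00, U01, U10, U11, dg00, dg01, dg10, dg11, Units.val_inv_eq_inv_val] <;>
    field_simp <;> ring
  rw [hv, U_zpow, ← U_neg] at h
  have h01 := congrArg (fun z : G F => z.1 0 1) h
  simp only [G_mul00, G_mul01, G_mul10, G_mul11, G_inv00, G_inv01, G_inv10, G_inv11,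
      U00, U01, U10, U11, dg00, dg01, dg10, dg11, Units.val_inv_eq_inv_val] at h01
  field_simp at h01
  field_simp
  linear_combination h01

/-- Case B. -/
theorem caseB {l : Fˣ} {p q ζ : F} {r : ℤ} (hl : (l : F) ^ 2 ≠ 1)
    (hl2 : (l : F) ^ 2 + 1 ≠ 0) (hm : ((l ^ (-2 : ℤ)) ^ r : Fˣ) ^ 2 ≠ 1)
    (h : (U p * dg l * (U p)⁻¹)⁻¹ * U ζ *
        ((U p * dg l * (U p)⁻¹)⁻¹ * (U q * dg l⁻¹ * (U q)⁻¹)) ^ r =
      ((U p * dg l * (U p)⁻¹)⁻¹ * (U q * dg l⁻¹ * (U q)⁻¹)) ^ r * (U p * dg l * (U p)⁻¹)⁻¹) :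
    q - p = (-((l : F) ^ 2 + 1) / ((1 - (((l ^ (-2 : ℤ)) ^ r : Fˣ) : F) ^ 2) *
      (1 - (l : F) ^ 2))) * ζ := by
  have hl0 : (l : F) ≠ 0 := l.ne_zero
  have h1 : 1 - (l : F) ^ 2 ≠ 0 := sub_ne_zero.2 (Ne.symm hl)
  set c : F := ((l : F) ^ 2 * p + q) / ((l : F) ^ 2 + 1) with hc
  have hv : (U p * dg l * (U p)⁻¹)⁻¹ * (U q * dg l⁻¹ * (U q)⁻¹) =
      U c * dg (l ^ (-2 : ℤ)) * (U c)⁻¹ := by
    rw [← U_neg, ← U_neg, ← U_neg]
    apply G_ext <;>
    simp only [G_mul00, G_mul01, G_mul10, G_mul11, G_inv00, G_inv01, G_inv10, G_inv11,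
      U00, U01, U10, U11, dg00, dg01, dg10, dg11, Units.val_inv_eq_inv_val, inv_inv,
      zpow_neg, Units.val_zpow_eq_zpow_val, zpow_ofNat, Units.val_pow_eq_pow_val, hc] <;>
    field_simp <;> ring
  rw [hv, conj_zpow, ← dg_zpow] at h
  generalize (l ^ (-2 : ℤ)) ^ r = μ at h hm ⊢
  have hμ0 : (μ : F) ≠ 0 := μ.ne_zero
  have hμ : 1 - (μ : F) ^ 2 ≠ 0 := by
    intro e
    apply hm
    apply Units.ext
    push_cast
    exact (sub_eq_zero.1 e).symm
  rw [← U_neg, ← U_neg] at h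
  have h01 := congrArg (fun z : G F => z.1 0 1) h
  simp only [G_mul00, G_mul01, G_mul10, G_mul11, G_inv00, G_inv01, G_inv10, G_inv11,
      U00, U01, U10, U11, dg00, dg01, dg10, dg11, Units.val_inv_eq_inv_val] at h01
  field_simp at h01
  have hcp : q - p = (c - p) * ((l : F) ^ 2 + 1) := by
    rw [hc]; field_simp; ring
  rw [hcp]
  field_simp
  linear_combination h01

theorem prf (h1 : CRelMul) : InStep := by
  intro F _ _ K M r x y x' y' ζ hM hMK hr hζ hC hw hx hx'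
  have : CharZero F := charZero_of_injective_algebraMap (algebraMap ℂ F).injective
  obtain ⟨hm, ht, ht'⟩ := h1 F r x y x' y' hC
  have hw2 : x * y = U ζ := Subtype.ext hw
  have hy : y = x⁻¹ * U ζ := by rw [← hw2, inv_mul_cancel_left]
  have hy' : y' = x'⁻¹ * U ζ := by rw [← hw2, ← hm, inv_mul_cancel_left]
  have h10 : x.1 1 0 = 0 := by
    rw [hy] at ht
    simp only [tr, G_mul00, G_mul11, G_inv00, G_inv01, G_inv10, G_inv11, U00, U01, U10, U11] at ht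
    have : ζ * x.1 1 0 = 0 := by linear_combination -ht
    exact (mul_eq_zero.1 this).resolve_left hζ
  have h10' : x'.1 1 0 = 0 := by
    rw [hy'] at ht'
    simp only [tr, G_mul00, G_mul11, G_inv00, G_inv01, G_inv10, G_inv11, U00, U01, U10, U11] at ht'
    have : ζ * x'.1 1 0 = 0 := by linear_combination -ht'
    exact (mul_eq_zero.1 this).resolve_left hζ
  obtain ⟨l, hlM, h00, h11⟩ := tri h10 hx
  obtain ⟨l', hlM', h00', h11'⟩ := tri h10' hx'
  refine ⟨h10, h10', ?_⟩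
  -- properties of `l`
  have hln : ∀ n : ℤ, n ≠ 0 → l ^ n ≠ 1 := by
    rcases hlM with h | h
    · rw [h]; exact hM
    · rw [h]
      intro n hn e
      apply hM n hn
      rw [inv_zpow, inv_eq_one] at e
      exact e
  have hlK : (l : F) ^ 2 ∈ K := by
    rcases hlM with h | h
    · rw [h]; exact hMK
    · rw [h]
      have e : (((M⁻¹ : Fˣ) : F)) ^ 2 = ((M : F) ^ 2)⁻¹ := by
        rw [Units.val_inv_eq_inv_val, inv_pow]
      rw [e]
      exact K.inv_mem hMK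
  have hl2 : (l : F) ^ 2 ≠ 1 := by
    intro e
    apply hln 2 (by norm_num)
    apply Units.ext
    rw [zpow_ofNat, Units.val_pow_eq_pow_val, e, Units.val_one]
  have hl4 : (l : F) ^ 2 + 1 ≠ 0 := by
    intro e
    apply hln 4 (by norm_num)
    apply Units.ext
    rw [zpow_ofNat, Units.val_pow_eq_pow_val, Units.val_one]
    linear_combination ((l : F) ^ 2 - 1) * e
  have hll : l' = l ∨ l' = l⁻¹ := by
    rcases hlM with h | h <;> rcases hlM' with h' | h'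
    · exact Or.inl (h'.trans h.symm)
    · exact Or.inr (by rw [h', h])
    · exact Or.inr (by rw [h', h, inv_inv])
    · exact Or.inl (h'.trans h.symm)
  have hl2' : (l' : F) ^ 2 ≠ 1 := by
    rcases hll with h | h
    · rw [h]; exact hl2
    · rw [h]
      intro e
      rw [Units.val_inv_eq_inv_val, inv_pow, inv_eq_one] at e
      exact hl2 e
  have hn := norm h10 h00 h11 hl2
  have hn' := norm h10' h00' h11' hl2'
  -- the relation
  have hrel : x⁻¹ * U ζ * (x⁻¹ * x') ^ r = (x⁻¹ * x') ^ r * x⁻¹ := by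
    rw [← hy]
    have e := hC.1
    conv_lhs => rw [e]
    rw [inv_mul_cancel_right]
  generalize cen x = p at hn ⊢
  generalize cen x' = q at hn' ⊢
  rw [hn, hn'] at hrel
  rcases hll with h | h
  · rw [h] at hrel
    have hr' : (r : F) ≠ 0 := Int.cast_ne_zero.2 hr
    refine ⟨_, ?_, caseA hr' hl2 hrel⟩
    exact K.div_mem (K.neg_mem hlK)
      (K.mul_mem (K.intCast_mem r) (K.pow_mem (K.sub_mem hlK K.one_mem) 2))
  · rw [h] at hrel
    have hmu : ((l ^ (-2 : ℤ)) ^ r : Fˣ) ^ 2 ≠ 1 := by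
      have e : ((l ^ (-2 : ℤ)) ^ r : Fˣ) ^ 2 = l ^ (-2 * r * 2) := by
        rw [← zpow_mul, ← zpow_ofNat, ← zpow_mul]
      rw [e]
      apply hln
      intro h0
      apply hr
      linarith
    refine ⟨_, ?_, caseB hl2 hl4 hmu hrel⟩
    have hmK : (((l ^ (-2 : ℤ)) ^ r : Fˣ) : F) ∈ K := by
      have e : (((l ^ (-2 : ℤ)) ^ r : Fˣ) : F) = (((l : F) ^ 2)⁻¹) ^ r := by
        rw [Units.val_zpow_eq_zpow_val, Units.val_zpow_eq_zpow_val, zpow_neg, zpow_ofNat]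
      rw [e]
      exact K.zpow_mem (K.inv_mem hlK) r
    exact K.div_mem (K.neg_mem (K.add_mem hlK K.one_mem))
      (K.mul_mem (K.sub_mem K.one_mem (K.pow_mem hmK 2)) (K.sub_mem K.one_mem hlK))

end L_InStep

theorem prf_InStep (h1 : CRelMul) : InStep := L_InStep.prf h1

end AJM

end

section

namespace AJM

namespace L_InvApp

theorem tr_mer' {R : Type} [CommRing R] (M : Rˣ) (h : G R) : tr (mer M h) = mm M := by
  have hd : h.1 0 0 * h.1 1 1 - h.1 0 1 * h.1 1 0 = 1 := by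
    have := h.2
    rwa [Matrix.det_fin_two] at this
  have hi : (h⁻¹ : G R).1 = !![h.1 1 1, - h.1 0 1; - h.1 1 0, h.1 0 0] := by
    rw [Matrix.SpecialLinearGroup.coe_inv, Matrix.adjugate_fin_two]
  have e00 : (mer M h).1 0 0 = h.1 0 0 * (M : R) * h.1 1 1 - h.1 0 1 * ((M⁻¹ : Rˣ) : R) * h.1 1 0 := by
    unfold mer
    rw [Matrix.SpecialLinearGroup.coe_mul, hi, Matrix.SpecialLinearGroup.coe_mul]
    simp [Matrix.mul_apply, Fin.sum_univ_two, dg]
    ring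
  have e11 : (mer M h).1 1 1 = - (h.1 1 0 * (M : R) * h.1 0 1) + h.1 1 1 * ((M⁻¹ : Rˣ) : R) * h.1 0 0 := by
    unfold mer
    rw [Matrix.SpecialLinearGroup.coe_mul, hi, Matrix.SpecialLinearGroup.coe_mul]
    simp [Matrix.mul_apply, Fin.sum_univ_two, dg]
    try ring
  unfold tr mm
  rw [e00, e11]
  linear_combination ((M : R) + ((M⁻¹ : Rˣ) : R)) * hd

end L_InvApp

theorem prf_InvApp (h1 : PathAppend) : InvApp := by
  intro R _ M w₁ w₂ P₁ P₂ hw₁ hw₂ h k s s' τ hp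
  obtain ⟨s₁, τ₁, τ₂, hp₁, hp₂, -⟩ := (h1 R M w₁ w₂ (h :: k :: s) s' τ).1 hp
  obtain ⟨h', k', rfl, hP₁⟩ := hw₁ h k s s₁ τ₁ hp₁
  obtain ⟨h'', k'', rfl, hP₂⟩ := hw₂ h' k' s s' τ₂ hp₂
  exact ⟨h'', k'', rfl, mer M h', mer M k', L_InvApp.tr_mer' M h', L_InvApp.tr_mer' M k', hP₁, hP₂⟩

end AJM

end

section

/-!
# MP_d3fa71_gt, project Mut: the column relation
-/

namespace AJM

namespace L_InvCol

theorem mono {R : Type} [CommRing R] {M : Rˣ} {w : List Mv}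
    {P Q : G R → G R → G R → G R → Prop} (h : Inv2 M w P)
    (hPQ : ∀ a b a' b', P a b a' b' → Q a b a' b') : Inv2 M w Q := by
  intro x k s s' τ hp
  obtain ⟨x', k', hs, hP⟩ := h x k s s' τ hp
  exact ⟨x', k', hs, hPQ _ _ _ _ hP⟩

theorem grp1 {H : Type} [Group H] (r : ℤ) (a b a' b' : H)
    (h1 : a⁻¹ = ((b * b'⁻¹) ^ r)⁻¹ * b * (b * b'⁻¹) ^ r)
    (h2 : a' = ((b * b'⁻¹) ^ r)⁻¹ * b'⁻¹ * (b * b'⁻¹) ^ r) :
    b = (a⁻¹ * a') ^ r * a⁻¹ * ((a⁻¹ * a') ^ r)⁻¹ ∧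
      b' = (a⁻¹ * a') ^ r * a'⁻¹ * ((a⁻¹ * a') ^ r)⁻¹ := by
  have hc : (b * b'⁻¹) ^ r * (b * b'⁻¹) = (b * b'⁻¹) * (b * b'⁻¹) ^ r := by
    rw [← zpow_add_one, ← zpow_one_add, add_comm]
  have hw : a⁻¹ * a' = b * b'⁻¹ := by
    rw [h1, h2]
    generalize (b * b'⁻¹) ^ r = u at *
    have : u⁻¹ * b * u * (u⁻¹ * b'⁻¹ * u) = u⁻¹ * ((b * b'⁻¹) * u) := by group
    rw [this, ← hc]
    group
  rw [hw]
  generalize (b * b'⁻¹) ^ r = u at *
  refine ⟨?_, ?_⟩
  · rw [h1]; group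
  · rw [h2]; group

theorem grp2 {H : Type} [Group H] (r : ℤ) (a b a' b' : H)
    (h1 : b' = ((a'⁻¹ * a) ^ (-r))⁻¹ * a'⁻¹ * (a'⁻¹ * a) ^ (-r))
    (h2 : b⁻¹ = ((a'⁻¹ * a) ^ (-r))⁻¹ * a * (a'⁻¹ * a) ^ (-r)) :
    b' = (a'⁻¹ * a) ^ r * a'⁻¹ * ((a'⁻¹ * a) ^ r)⁻¹ ∧
      b = (a'⁻¹ * a) ^ r * a⁻¹ * ((a'⁻¹ * a) ^ r)⁻¹ := by
  rw [zpow_neg, inv_inv] at h1 h2
  refine ⟨h1, ?_⟩
  rw [← inv_inv b, h2]
  generalize (a'⁻¹ * a) ^ r = u at *
  group

end L_InvCol

theorem prf_InvCol (h1 : InvRot) (h2 : InvRor) (h3 : InvTws) : InvCol := by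
  intro R _ M r
  refine ⟨?_, ?_⟩
  · refine L_InvCol.mono (h1 R M _ _ (h3 R M r)) ?_
    rintro a b a' b' ⟨e1, e2⟩
    exact L_InvCol.grp1 r a b a' b' e1 e2
  · have h := h2 R M _ _ (h3 R M (-r))
    have e : (2 * (-r) : ℤ) = -(2 * r) := by ring
    rw [e] at h
    refine L_InvCol.mono h ?_
    rintro a b a' b' ⟨e1, e2⟩
    exact L_InvCol.grp2 r a b a' b' e1 e2

end AJM

end

section

/-!
# MP_d3fa71_gt, project Mut: reversed rotation of a two-strand word on meridians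
-/

namespace AJM

namespace L_InvRor

section
variable {R : Type} [CommRing R]

theorem cup0 {M : Rˣ} {s s' : List (G R)} {τ : Rˣ} (h : Step M (.cup, 0) s s' τ) :
    ∃ x : G R, s' = x :: x * J :: s := by
  cases h with
  | cup x s => exact ⟨x, rfl⟩

theorem cap0 {M : Rˣ} {s s' : List (G R)} {τ : Rˣ} (h : Step M (.cap, 0) s s' τ) :
    ∃ x : G R, s = x :: x * J * dg τ :: s' := by
  cases h with
  | cap x τ s => exact ⟨x, rfl⟩

theorem shi {M : Rˣ} {k : Kd} {i : ℕ} {s s' : List (G R)} {τ : Rˣ}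
    (h : Step M (k, i + 1) s s' τ) :
    ∃ (z : G R) (t t' : List (G R)), s = z :: t ∧ s' = z :: t' ∧ Step M (k, i) t t' τ := by
  generalize hm : ((k, i + 1) : Mv) = m at h
  cases h with
  | cup x s => simp at hm
  | cap x τ s => simp at hm
  | pos x y s => simp at hm
  | neg x y s => simp at hm
  | sh z h =>
    simp only [Prod.mk.injEq, Nat.add_right_cancel_iff] at hm
    obtain ⟨rfl, rfl⟩ := hm
    exact ⟨z, _, _, rfl, rfl, h⟩

theorem pcons {M : Rˣ} {m : Mv} {w : List Mv} {s s'' : List (G R)} {τ : Rˣ}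
    (h : Path M (m :: w) s s'' τ) :
    ∃ (s' : List (G R)) (τ₁ τ₂ : Rˣ), Step M m s s' τ₁ ∧ Path M w s' s'' τ₂ ∧ τ = τ₁ * τ₂ := by
  cases h with
  | cons h1 h2 => exact ⟨_, _, _, h1, h2, rfl⟩

theorem pnil {M : Rˣ} {s s'' : List (G R)} {τ : Rˣ}
    (h : Path M [] s s'' τ) : s = s'' := by
  cases h with
  | nil s => rfl

end

end L_InvRor

open L_InvRor in
theorem prf_InvRor (h1 : PathAppend) (h2 : PathShift) : InvRor := by
  intro R _ M w P hw h k s s' τ hp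
  have hp1 : Path M ((.cup, 0) :: (sh 1 w ++ [(.cap, 2)])) (h :: k :: s) s' τ := hp
  obtain ⟨s₁, a₁, b₁, g1, hp2, -⟩ := pcons hp1
  obtain ⟨x, rfl⟩ := cup0 g1
  obtain ⟨s₂, c₁, c₂, hp3, hp4, -⟩ := (h1 R M _ _ _ _ _).1 hp2
  have hp5 : Path M (sh [x].length w) ([x] ++ (x * J :: h :: (k :: s))) s₂ c₁ := hp3
  obtain ⟨s₃, rfl, hp6⟩ := (h2 R M w [x] (x * J :: h :: (k :: s)) s₂ c₁).1 hp5
  obtain ⟨h', k', rfl, hP⟩ := hw _ _ _ _ _ hp6
  obtain ⟨s₄, d₁, d₂, g4, hp7, -⟩ := pcons hp4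
  have e4 := pnil hp7
  subst e4
  obtain ⟨z₁, t₁, t₁', e1, rfl, g2⟩ := shi g4
  obtain ⟨z₂, t₂, t₂', e2, rfl, g3⟩ := shi g2
  obtain ⟨z, e3⟩ := cap0 g3
  simp only [List.cons_append, List.nil_append, List.cons.injEq] at e1
  obtain ⟨rfl, rfl⟩ := e1
  simp only [List.cons.injEq] at e2
  obtain ⟨rfl, rfl⟩ := e2
  simp only [List.cons.injEq] at e3
  obtain ⟨rfl, rfl, rfl⟩ := e3
  refine ⟨x, h', rfl, ?_⟩
  change P (mer M x)⁻¹ (mer M h) (mer M h') (mer M (k' * J * dg d₁))⁻¹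
  rw [mer_Jdg, inv_inv]
  rw [mer_J] at hP
  exact hP

end AJM

end

section

/-!
# MP_d3fa71_gt, project Mut: rotation of a two-strand word on meridians
-/

namespace AJM

namespace L_InvRot

section
variable {R : Type} [CommRing R]

theorem cup0 {M : Rˣ} {s s' : List (G R)} {τ : Rˣ} (h : Step M (.cup, 0) s s' τ) :
    ∃ x : G R, s' = x :: x * J :: s := by
  cases h with
  | cup x s => exact ⟨x, rfl⟩

theorem cap0 {M : Rˣ} {s s' : List (G R)} {τ : Rˣ} (h : Step M (.cap, 0) s s' τ) :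
    ∃ x : G R, s = x :: x * J * dg τ :: s' := by
  cases h with
  | cap x τ s => exact ⟨x, rfl⟩

theorem shi {M : Rˣ} {k : Kd} {i : ℕ} {s s' : List (G R)} {τ : Rˣ}
    (h : Step M (k, i + 1) s s' τ) :
    ∃ (z : G R) (t t' : List (G R)), s = z :: t ∧ s' = z :: t' ∧ Step M (k, i) t t' τ := by
  generalize hm : ((k, i + 1) : Mv) = m at h
  cases h with
  | cup x s => simp at hm
  | cap x τ s => simp at hm
  | pos x y s => simp at hm
  | neg x y s => simp at hm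
  | sh z h =>
    simp only [Prod.mk.injEq, Nat.add_right_cancel_iff] at hm
    obtain ⟨rfl, rfl⟩ := hm
    exact ⟨z, _, _, rfl, rfl, h⟩

theorem pcons {M : Rˣ} {m : Mv} {w : List Mv} {s s'' : List (G R)} {τ : Rˣ}
    (h : Path M (m :: w) s s'' τ) :
    ∃ (s' : List (G R)) (τ₁ τ₂ : Rˣ), Step M m s s' τ₁ ∧ Path M w s' s'' τ₂ ∧ τ = τ₁ * τ₂ := by
  cases h with
  | cons h1 h2 => exact ⟨_, _, _, h1, h2, rfl⟩

theorem pnil {M : Rˣ} {s s'' : List (G R)} {τ : Rˣ}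
    (h : Path M [] s s'' τ) : s = s'' := by
  cases h with
  | nil s => rfl

end

end L_InvRot

open L_InvRot in
theorem prf_InvRot (h1 : PathAppend) (h2 : PathShift) : InvRot := by
  intro R _ M w P hw h k s s' τ hp
  have hp1 : Path M ((.cup, 2) :: (sh 1 w ++ [(.cap, 0)])) (h :: k :: s) s' τ := hp
  obtain ⟨s₁, a₁, b₁, g1, hp2, -⟩ := pcons hp1
  obtain ⟨z₁, t₁, t₁', e1, rfl, g2⟩ := shi g1
  obtain ⟨z₂, t₂, t₂', e2, rfl, g3⟩ := shi g2
  obtain ⟨x, rfl⟩ := cup0 g3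
  simp only [List.cons.injEq] at e1
  obtain ⟨rfl, rfl⟩ := e1
  simp only [List.cons.injEq] at e2
  obtain ⟨rfl, rfl⟩ := e2
  obtain ⟨s₂, c₁, c₂, hp3, hp4, -⟩ := (h1 R M _ _ _ _ _).1 hp2
  have hp5 : Path M (sh [h].length w) ([h] ++ (k :: x :: x * J :: s)) s₂ c₁ := hp3
  obtain ⟨s₃, rfl, hp6⟩ := (h2 R M w [h] (k :: x :: x * J :: s) s₂ c₁).1 hp5
  obtain ⟨h', k', rfl, hP⟩ := hw _ _ _ _ _ hp6
  obtain ⟨s₄, d₁, d₂, g4, hp7, -⟩ := pcons hp4
  obtain ⟨z, e3⟩ := cap0 g4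
  have e4 := pnil hp7
  subst e4
  simp only [List.cons_append, List.nil_append, List.cons.injEq] at e3
  obtain ⟨rfl, rfl, rfl⟩ := e3
  refine ⟨k', x * J, rfl, ?_⟩
  change P (mer M k) (mer M (x * J))⁻¹ (mer M h)⁻¹ (mer M k')
  rw [mer_J, inv_inv]
  rw [mer_Jdg] at hP
  exact hP

end AJM

end

section

/-!
# MP_d3fa71_gt, project Mut: the relation of a column is an algebraic equation for `κ`
-/

namespace AJM

open Polynomial

namespace L_KRelAlg

theorem map_Sp {R S : Type} [CommRing R] [CommRing S] (f : R →+* S) (Y : R) (n : ℕ) :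
    f (Sp n Y) = Sp n (f Y) := by
  have h : ∀ n, f (Sp n Y) = Sp n (f Y) ∧ f (Sp (n + 1) Y) = Sp (n + 1) (f Y) := by
    intro n
    induction n with
    | zero => exact ⟨map_zero f, map_one f⟩
    | succ n ih =>
      refine ⟨ih.2, ?_⟩
      rw [Sp, Sp, map_sub, map_mul, ih.1, ih.2]
  exact (h n).1

theorem Sp_X (R : Type) [CommRing R] [Nontrivial R] (n : ℕ) :
    ((Sp (n + 1) (X : R[X])).Monic ∧ (Sp (n + 1) (X : R[X])).natDegree = n) ∧
      ((Sp (n + 2) (X : R[X])).Monic ∧ (Sp (n + 2) (X : R[X])).natDegree = n + 1) := by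
  induction n with
  | zero =>
    have h : Sp 2 (X : R[X]) = X := by
      show X * 1 - 0 = X
      ring
    exact ⟨⟨monic_one, natDegree_one⟩, by rw [h]; exact monic_X, by rw [h]; exact natDegree_X⟩
  | succ n ih =>
    obtain ⟨⟨h1, h2⟩, h3, h4⟩ := ih
    refine ⟨⟨h3, h4⟩, ?_⟩
    have h5 : Sp (n + 1 + 2) (X : R[X]) = X * Sp (n + 2) X - Sp (n + 1) X := rfl
    have h6 : (X * Sp (n + 2) (X : R[X])).Monic := monic_X.mul h3
    have h7 : (X * Sp (n + 2) (X : R[X])).natDegree = n + 2 := by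
      rw [monic_X.natDegree_mul h3, natDegree_X, h4]
      ring
    have h8 : (Sp (n + 1) (X : R[X])).degree < (X * Sp (n + 2) (X : R[X])).degree := by
      rw [degree_eq_natDegree h1.ne_zero, degree_eq_natDegree h6.ne_zero, h2, h7]
      exact_mod_cast (by omega : n < n + 2)
    rw [h5]
    refine ⟨h6.sub_of_left h8, ?_⟩
    rw [natDegree_sub_eq_left_of_natDegree_lt (by rw [h2, h7]; omega), h7]

theorem integral {R S : Type} [CommRing R] [Nontrivial R] [CommRing S] [Algebra R S] (m T : R)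
    (Y : S) (n : ℕ) (h : Sp (n + 1) Y ^ 2 * (Y - 2) * (Y + 2 - algebraMap R S m ^ 2) =
      algebraMap R S T - 2) : IsIntegral R Y := by
  set q : R[X] := Sp (n + 1) X ^ 2 * ((X - C 2) * (X + C (2 - m ^ 2))) with hq
  have h1 := (Sp_X R n).1
  have hm : q.Monic := (h1.1.pow 2).mul ((monic_X_sub_C _).mul (monic_X_add_C _))
  have hd : q.natDegree = 2 * n + 2 := by
    rw [hq, (h1.1.pow 2).natDegree_mul ((monic_X_sub_C _).mul (monic_X_add_C _)),
      (monic_X_sub_C _).natDegree_mul (monic_X_add_C _), h1.1.natDegree_pow, h1.2,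
      natDegree_X_sub_C, natDegree_X_add_C]
  have hlt : (C (T - 2) : R[X]).degree < q.degree := by
    rw [degree_eq_natDegree hm.ne_zero, hd]
    refine lt_of_le_of_lt degree_C_le ?_
    exact_mod_cast (by omega : 0 < 2 * n + 2)
  refine ⟨q - C (T - 2), hm.sub_of_left hlt, ?_⟩
  rw [eval₂_sub, eval₂_C, hq, eval₂_mul, eval₂_mul, eval₂_pow, eval₂_sub, eval₂_add, eval₂_X,
    eval₂_C, eval₂_C]
  have h2 : eval₂ (algebraMap R S) Y (Sp (n + 1) X) = Sp (n + 1) Y := by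
    have := map_Sp (eval₂RingHom (algebraMap R S) Y) X (n + 1)
    rwa [coe_eval₂RingHom, eval₂_X] at this
  rw [h2, map_sub, map_sub, map_pow, show algebraMap R S 2 = 2 from map_ofNat _ 2]
  linear_combination h

end L_KRelAlg

theorem prf_KRelAlg (h1 : YYAlg) : KRelAlg := by
  intro K F _ _ _ m T n κ hm hT hne hT2 hK
  refine h1 K F m T κ hm hT hne hT2 ?_
  let m' : algebraicClosure K F := ⟨m, mem_algebraicClosure_iff.2 hm⟩
  let T' : algebraicClosure K F := ⟨T, mem_algebraicClosure_iff.2 hT⟩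
  have h2 : IsIntegral (algebraicClosure K F) (YY m T (κ : F)) :=
    L_KRelAlg.integral m' T' (YY m T (κ : F)) n hK
  have h3 : IsAlgebraic (algebraicClosure K F) (YY m T (κ : F)) := h2.isAlgebraic
  exact h3.restrictScalars K

end AJM

end

section

set_option autoImplicit false

namespace AJM

theorem prf_KRelV (h1 : SpV) (h2 : YYV) : KRelV := by
  intro F Γ _ _ v m T n κ hN hm hK
  have v2 : v (2 : F) ≤ 1 := by
    have h : (2 : F) = 1 + 1 := by norm_num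
    rw [h]
    exact (v.map_add 1 1).trans (by rw [v.map_one, max_self])
  unfold KRel at hK
  set Y : F := YY m T κ with hY
  have hv : v (T - 2) = v (Sp (n + 1) Y) ^ 2 * v (Y - 2) * v (Y + 2 - m ^ 2) := by
    rw [← hK, map_mul, map_mul, map_pow]
  rcases h2 F Γ v m T κ hN with ⟨hY1, hκ⟩ | ⟨hY1, hY2, hκ⟩
  · left
    refine ⟨hκ, ?_⟩
    have a1 : v (Sp (n + 1) Y) ≤ 1 := (h1 F Γ v (n + 1) Y).2 hY1
    have a2 : v (Y - 2) ≤ 1 := (v.map_sub _ _).trans (max_le hY1 v2)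
    have a3 : v (Y + 2 - m ^ 2) ≤ v (m ^ 2) :=
      (v.map_sub _ _).trans (max_le (((v.map_add _ _).trans (max_le hY1 v2)).trans hm) le_rfl)
    rw [hv]
    calc v (Sp (n + 1) Y) ^ 2 * v (Y - 2) * v (Y + 2 - m ^ 2)
        ≤ 1 * 1 * v (m ^ 2) :=
          mul_le_mul' (mul_le_mul' (pow_le_one₀ zero_le a1) a2) a3
      _ = v (m ^ 2) := by rw [one_mul, one_mul]
  · right
    refine ⟨v Y, hY1, hκ, ?_⟩
    have a1 : v (Sp (n + 1) Y) = v Y ^ n := (h1 F Γ v n Y).1 hY1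
    have a3 : v (Y + 2) = v Y := Valuation.map_add_eq_of_lt_left v (lt_of_le_of_lt v2 hY1)
    have hY2' : v (Y - 2) = v Y := hY2
    have hv' : v (T - 2) = v Y ^ (2 * n + 1) * v (Y + 2 - m ^ 2) := by
      rw [hv, a1, hY2', ← pow_mul, mul_comm n 2, pow_succ (v Y) (2 * n)]
    rcases lt_trichotomy (v (m ^ 2)) (v Y) with h | h | h
    · left
      refine ⟨h, ?_⟩
      have a4 : v (Y + 2 - m ^ 2) = v Y := by
        rw [Valuation.map_sub_eq_of_lt_left, a3]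
        rwa [a3]
      rw [hv', a4, ← pow_succ]
    · right; right
      refine ⟨h.symm, ?_⟩
      have a4 : v (Y + 2 - m ^ 2) ≤ v Y := by
        refine (v.map_sub _ _).trans ?_
        rw [a3, h, max_self]
      rw [hv', show 2 * n + 2 = (2 * n + 1) + 1 by ring, pow_succ _ (2 * n + 1)]
      exact mul_le_mul' le_rfl a4
    · right; left
      refine ⟨h, ?_⟩
      have a4 : v (Y + 2 - m ^ 2) = v (m ^ 2) := by
        rw [Valuation.map_sub_eq_of_lt_right]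
        rwa [a3]
      rw [hv', a4]

end AJM

end

section

/-!
# MP_d3fa71_gt, project Mut, block E: a column on a pair with diagonal product
-/

namespace AJM

theorem prf_KapCol (h1 : CRelMul) (h2 : KapEx) (h3 : ColTr) : KapCol := by
  intro F _ m θ r a b a' b' hθ hm hab ha ha' hC
  obtain ⟨e1, e2, e3⟩ := h1 F r a b a' b' hC
  rw [hab] at e1
  rw [ha] at e2
  rw [ha'] at e3
  obtain ⟨κ, k1, k2, k3⟩ := h2 F m θ a b a' b' hθ hm hab e1 ha e2 ha' e3
  refine ⟨e1, κ, k1, k2, k3, ?_⟩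
  have h4 := h3 F r a b a' b' m hC ha ha'
  rw [hab, k3] at h4
  exact h4.symm

end AJM

end

section

/-!
# MP_d3fa71_gt, project Mut, block E, item KapEx
-/

set_option autoImplicit false

namespace AJM

namespace L_KapEx

lemma T_ne {F : Type} [Field F] (θ : Fˣ) (hθ : (θ : F) ^ 2 ≠ 1) :
    (θ : F) + ((θ⁻¹ : Fˣ) : F) + 2 ≠ 0 := by
  intro h
  have h0 : (θ : F) ≠ 0 := θ.ne_zero
  have h1 : (θ : F) * ((θ⁻¹ : Fˣ) : F) = 1 := by
    rw [← Units.val_mul, mul_inv_cancel, Units.val_one]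
  have h2 : ((θ : F) + 1) ^ 2 = 0 := by
    linear_combination (θ : F) * h - h1
  have h3 : (θ : F) + 1 = 0 := by
    exact pow_eq_zero_iff (two_ne_zero) |>.1 h2
  apply hθ
  have h4 : (θ : F) = -1 := by linear_combination h3
  rw [h4]
  ring

lemma tr_inv_mul {F : Type} [Field F] (a a' : G F) :
    tr (a⁻¹ * a') = a.1 1 1 * a'.1 0 0 - a.1 0 1 * a'.1 1 0 +
      (-a.1 1 0 * a'.1 0 1 + a.1 0 0 * a'.1 1 1) := by
  unfold tr
  rw [Matrix.SpecialLinearGroup.coe_mul, Matrix.SpecialLinearGroup.SL2_inv_expl]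
  simp [Matrix.mul_apply, Fin.sum_univ_two]
  ring

end L_KapEx

open L_KapEx in
theorem prf_KapEx (h1 : PairN) : KapEx := by
  intro F _ m θ a b a' b' hθ hm hab hab' ha hb ha' hb'
  obtain ⟨p1, p2, p3⟩ := h1 F m θ a b hθ hab ha hb
  obtain ⟨q1, q2, q3⟩ := h1 F m θ a' b' hθ hab' ha' hb'
  obtain ⟨T, hT⟩ : ∃ T : F, T = (θ : F) + ((θ⁻¹ : Fˣ) : F) := ⟨_, rfl⟩
  have hT2 : T + 2 ≠ 0 := by rw [hT]; exact T_ne θ hθ
  rw [← hT] at p3 q3 hm ⊢
  obtain ⟨N, hN⟩ : ∃ N : F, N = NN m T := ⟨_, rfl⟩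
  have hN0 : N ≠ 0 := by
    rw [hN]
    unfold NN
    exact div_ne_zero (sub_ne_zero.2 hm) hT2
  rw [← hN] at p3 q3
  have ha0 : a.1 0 1 ≠ 0 := fun h => hN0 (by rw [← p3, h, zero_mul])
  have ha0' : a'.1 0 1 ≠ 0 := fun h => hN0 (by rw [← q3, h, zero_mul])
  obtain ⟨k, hk⟩ : ∃ k : Fˣ, (k : F) = a'.1 0 1 / a.1 0 1 :=
    ⟨Units.mk0 (a'.1 0 1 / a.1 0 1) (div_ne_zero ha0' ha0), rfl⟩
  have hk1 : a'.1 0 1 = k * a.1 0 1 := by
    rw [hk]
    field_simp
  have hk2 : a.1 1 0 = k * a'.1 1 0 := by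
    have h2 : a.1 0 1 * a.1 1 0 = a.1 0 1 * (k * a'.1 1 0) := by
      rw [p3, ← q3, hk1]
      ring
    exact mul_left_cancel₀ ha0 h2
  refine ⟨k, hk1, hk2, ?_⟩
  rw [tr_inv_mul]
  have hd : a.1 0 0 * a.1 1 1 - a.1 0 1 * a.1 1 0 = 1 := by
    have := a.2
    rw [Matrix.det_fin_two] at this
    exact this
  have hkk : (k : F) * (k : F)⁻¹ = 1 := mul_inv_cancel₀ k.ne_zero
  have e1 : a'.1 0 0 = a.1 0 0 := by rw [p1, q1]
  have e2 : a'.1 1 1 = a.1 1 1 := by rw [p2, q2]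
  have e3 : a.1 0 1 * a'.1 1 0 = N * (k : F)⁻¹ := by
    rw [← p3, hk2]
    linear_combination (-(a.1 0 1 * a'.1 1 0)) * hkk
  have e4 : a.1 1 0 * a'.1 0 1 = N * k := by
    rw [← p3, hk1]
    ring
  unfold YY
  rw [← hN, e1, e2]
  linear_combination 2 * hd + 2 * p3 - e3 - e4

end AJM

end

section

/-!
# MP_d3fa71_gt, project Mut: conjugation of a ring on the level of meridians
-/

namespace AJM

namespace L_MChainConj

section
variable {H : Type} [Group H]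

theorem cmul (P x y : H) : (P * x * P⁻¹) * (P * y * P⁻¹) = P * (x * y) * P⁻¹ := by group

theorem cinv (P x : H) : (P * x * P⁻¹)⁻¹ = P * x⁻¹ * P⁻¹ := by group

theorem cinj (P x y : H) (h : x = y) : P * x * P⁻¹ = P * y * P⁻¹ := by rw [h]

end

theorem RA_conj {F : Type} [Field F] (h1 : CRelConj) (m : F) (a b a' b' P : G F)
    (h : RA m a b a' b') :
    RA m (P * a * P⁻¹) (P * b * P⁻¹) (P * a' * P⁻¹) (P * b' * P⁻¹) := by
  obtain ⟨x₁, y₁, x₂, y₂, x₃, y₃, t1, t2, t3, t4, t5, t6, t7, c1, c2, c3, c4⟩ := h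
  refine ⟨P * x₁ * P⁻¹, P * y₁ * P⁻¹, P * x₂ * P⁻¹, P * y₂ * P⁻¹, P * x₃ * P⁻¹, P * y₃ * P⁻¹,
    ?_, ?_, ?_, ?_, ?_, ?_, ?_, ?_, ?_, ?_, ?_⟩
  · rw [tr_conj]; exact t1
  · rw [tr_conj]; exact t2
  · rw [tr_conj]; exact t3
  · rw [tr_conj]; exact t4
  · rw [tr_conj]; exact t5
  · rw [tr_conj]; exact t6
  · rw [tr_conj]; exact t7
  · rw [cinv]; exact h1 F 3 _ _ _ _ P c1
  · exact h1 F 2 _ _ _ _ P c2
  · exact h1 F (-4) _ _ _ _ P c3
  · rw [cinv]; exact h1 F (-4) _ _ _ _ P c4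

end L_MChainConj

open L_MChainConj in
theorem prf_MChainConj (h1 : CRelConj) : MChainConj := by
  intro F _ m a b E P h
  obtain ⟨hE, a₀, b₀, a₁, b₁, a₂, b₂, a₃, b₃, a₄, b₄, a₅, b₅, t0, u0, t1, u1, t2, u2, t3, u3,
    t4, u4, t5, u5, hR, e1, e1', c2, c3, c4, c5, e6, e6'⟩ := h
  refine ⟨?_, P * a₀ * P⁻¹, P * b₀ * P⁻¹, P * a₁ * P⁻¹, P * b₁ * P⁻¹, P * a₂ * P⁻¹,
    P * b₂ * P⁻¹, P * a₃ * P⁻¹, P * b₃ * P⁻¹, P * a₄ * P⁻¹, P * b₄ * P⁻¹, P * a₅ * P⁻¹,
    P * b₅ * P⁻¹, ?_, ?_, ?_, ?_, ?_, ?_, ?_, ?_, ?_, ?_, ?_, ?_, ?_, ?_, ?_, ?_, ?_, ?_, ?_,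
    ?_, ?_⟩
  · rw [cmul, cmul, cmul, hE]
  · rw [tr_conj]; exact t0
  · rw [tr_conj]; exact u0
  · rw [tr_conj]; exact t1
  · rw [tr_conj]; exact u1
  · rw [tr_conj]; exact t2
  · rw [tr_conj]; exact u2
  · rw [tr_conj]; exact t3
  · rw [tr_conj]; exact u3
  · rw [tr_conj]; exact t4
  · rw [tr_conj]; exact u4
  · rw [tr_conj]; exact t5
  · rw [tr_conj]; exact u5
  · exact RA_conj h1 m _ _ _ _ P hR
  · rw [cmul, conj_pow, cmul, cinv, cmul, e1]
  · rw [cmul, conj_pow, cmul, cinv, cmul, e1']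
  · exact h1 F 2 _ _ _ _ P c2
  · exact h1 F 1 _ _ _ _ P c3
  · exact h1 F 2 _ _ _ _ P c4
  · exact h1 F 1 _ _ _ _ P c5
  · rw [cmul, cinv, cmul, e6]
  · rw [cmul, cinv, cmul, e6']

end AJM

end

section

set_option autoImplicit false

namespace AJM

namespace L_MChainMap

variable {F L : Type} [Field F] [Field L] (f : F →+* L)

theorem tr_map (x : G F) : tr (Matrix.SpecialLinearGroup.map f x) = f (tr x) := by
  unfold tr
  rw [map_add]
  rfl

theorem tr_map' {x : G F} {m : F} (h : tr x = m) :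
    tr (Matrix.SpecialLinearGroup.map f x) = f m := by
  rw [tr_map, h]

theorem crel_map {r : ℤ} {a b a' b' : G F} (h : CRel r a b a' b') :
    CRel r (Matrix.SpecialLinearGroup.map f a) (Matrix.SpecialLinearGroup.map f b)
      (Matrix.SpecialLinearGroup.map f a') (Matrix.SpecialLinearGroup.map f b') := by
  obtain ⟨h1, h2⟩ := h
  constructor
  · have := congrArg (Matrix.SpecialLinearGroup.map f) h1
    simpa only [map_mul, map_zpow, map_inv] using this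
  · have := congrArg (Matrix.SpecialLinearGroup.map f) h2
    simpa only [map_mul, map_zpow, map_inv] using this

theorem ra_map {m : F} {a b a' b' : G F} (h : RA m a b a' b') :
    RA (f m) (Matrix.SpecialLinearGroup.map f a) (Matrix.SpecialLinearGroup.map f b)
      (Matrix.SpecialLinearGroup.map f a') (Matrix.SpecialLinearGroup.map f b') := by
  obtain ⟨x₁, y₁, x₂, y₂, x₃, y₃, h1, h2, h3, h4, h5, h6, h7, c1, c2, c3, c4⟩ := h
  refine ⟨Matrix.SpecialLinearGroup.map f x₁, Matrix.SpecialLinearGroup.map f y₁,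
    Matrix.SpecialLinearGroup.map f x₂, Matrix.SpecialLinearGroup.map f y₂,
    Matrix.SpecialLinearGroup.map f x₃, Matrix.SpecialLinearGroup.map f y₃,
    tr_map' f h1, tr_map' f h2, tr_map' f h3, tr_map' f h4, tr_map' f h5, tr_map' f h6,
    tr_map' f h7, ?_, crel_map f c2, crel_map f c3, ?_⟩
  · have := crel_map f c1
    rwa [map_inv] at this
  · have := crel_map f c4
    rwa [map_inv] at this

end L_MChainMap

open L_MChainMap in
theorem prf_MChainMap : MChainMap := by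
  intro F L _ _ f m a b E h
  obtain ⟨hE, a₀, b₀, a₁, b₁, a₂, b₂, a₃, b₃, a₄, b₄, a₅, b₅, t1, t2, t3, t4, t5, t6, t7, t8, t9,
    t10, t11, t12, hR, e1, e2, c1, c2, c3, c4, e3, e4⟩ := h
  refine ⟨?_, Matrix.SpecialLinearGroup.map f a₀, Matrix.SpecialLinearGroup.map f b₀,
    Matrix.SpecialLinearGroup.map f a₁, Matrix.SpecialLinearGroup.map f b₁,
    Matrix.SpecialLinearGroup.map f a₂, Matrix.SpecialLinearGroup.map f b₂,
    Matrix.SpecialLinearGroup.map f a₃, Matrix.SpecialLinearGroup.map f b₃,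
    Matrix.SpecialLinearGroup.map f a₄, Matrix.SpecialLinearGroup.map f b₄,
    Matrix.SpecialLinearGroup.map f a₅, Matrix.SpecialLinearGroup.map f b₅,
    tr_map' f t1, tr_map' f t2, tr_map' f t3, tr_map' f t4, tr_map' f t5, tr_map' f t6,
    tr_map' f t7, tr_map' f t8, tr_map' f t9, tr_map' f t10, tr_map' f t11, tr_map' f t12,
    ra_map f hR, ?_, ?_, crel_map f c1, crel_map f c2, crel_map f c3, crel_map f c4, ?_, ?_⟩
  · have := congrArg (Matrix.SpecialLinearGroup.map f) hE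
    simpa only [map_mul] using this
  · have := congrArg (Matrix.SpecialLinearGroup.map f) e1
    simpa only [map_mul, map_pow, map_inv] using this
  · have := congrArg (Matrix.SpecialLinearGroup.map f) e2
    simpa only [map_mul, map_pow, map_inv] using this
  · have := congrArg (Matrix.SpecialLinearGroup.map f) e3
    simpa only [map_mul, map_inv] using this
  · have := congrArg (Matrix.SpecialLinearGroup.map f) e4
    simpa only [map_mul, map_inv] using this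

end AJM

end

section

/-!
# MP_d3fa71_gt, project Mut, block E: `5 t ^ 2 - 2 t + 1` is not a square in `ℂ(t)`
-/

open Polynomial

namespace AJM

namespace L_NotSq

noncomputable def al : ℂ := (1 + 2 * Complex.I) / 5

noncomputable def be : ℂ := (1 - 2 * Complex.I) / 5

theorem al_ne : al ≠ be := by
  intro h
  have h1 := congrArg Complex.im h
  simp [al, be] at h1
  norm_num at h1

theorem fac : (5 * X ^ 2 - 2 * X + 1 : ℂ[X]) = C 5 * ((X - C al) * (X - C be)) := by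
  have h1 : al + be = 2 / 5 := by
    unfold al be
    ring
  have h2 : al * be = 1 / 5 := by
    unfold al be
    linear_combination (-4 / 25 : ℂ) * Complex.I_sq
  have h3 : (C al + C be : ℂ[X]) = C (2 / 5) := by rw [← C_add, h1]
  have h4 : (C al * C be : ℂ[X]) = C (1 / 5) := by rw [← C_mul, h2]
  have h5 : (C 5 * C (2 / 5) : ℂ[X]) = 2 := by
    rw [← C_mul, show (5 : ℂ) * (2 / 5) = 2 by norm_num]
    exact map_ofNat C 2
  have h6 : (C 5 * C (1 / 5) : ℂ[X]) = 1 := by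
    rw [← C_mul, show (5 : ℂ) * (1 / 5) = 1 by norm_num]
    exact map_one C
  have h7 : (C 5 : ℂ[X]) = 5 := map_ofNat C 5
  have h8 : (C 5 : ℂ[X]) * ((X - C al) * (X - C be)) =
      C 5 * X ^ 2 - C 5 * (C al + C be) * X + C 5 * (C al * C be) := by ring
  rw [h8, h3, h4, h5, h6, h7]

theorem poly_ne : (5 * X ^ 2 - 2 * X + 1 : ℂ[X]) ≠ 0 := by
  rw [fac]
  exact mul_ne_zero (C_ne_zero.2 (by norm_num)) (mul_ne_zero (X_sub_C_ne_zero _) (X_sub_C_ne_zero _))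

theorem mult : rootMultiplicity al (5 * X ^ 2 - 2 * X + 1 : ℂ[X]) = 1 := by
  have h := poly_ne
  rw [fac] at h ⊢
  rw [rootMultiplicity_mul h, rootMultiplicity_mul (right_ne_zero_of_mul h), rootMultiplicity_C,
    rootMultiplicity_X_sub_C_self, rootMultiplicity_X_sub_C, if_neg al_ne]

theorem no_sq (r s : ℂ[X]) (hs : s ≠ 0) (h : r ^ 2 = (5 * X ^ 2 - 2 * X + 1) * s ^ 2) : False := by
  have hs2 : s ^ 2 ≠ 0 := pow_ne_zero 2 hs
  have hr2 : r ^ 2 ≠ 0 := by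
    rw [h]
    exact mul_ne_zero poly_ne hs2
  have h1 := congrArg (rootMultiplicity al) h
  have e1 : ∀ q : ℂ[X], q ^ 2 ≠ 0 → rootMultiplicity al (q ^ 2) = 2 * rootMultiplicity al q := by
    intro q hq
    rw [sq] at hq ⊢
    rw [rootMultiplicity_mul hq, two_mul]
  rw [rootMultiplicity_mul (mul_ne_zero poly_ne hs2), mult, e1 r hr2, e1 s hs2] at h1
  omega

end L_NotSq

open L_NotSq in
theorem prf_NotSq : NotSq := by
  intro F _ _ t z ht hz h
  rw [transcendental_iff_injective] at ht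
  have hP : aeval t (5 * X ^ 2 - 2 * X + 1 : ℂ[X]) = 5 * t ^ 2 - 2 * t + 1 := by
    have e5 : aeval t (5 : ℂ[X]) = 5 := map_ofNat (aeval t) 5
    have e2 : aeval t (2 : ℂ[X]) = 2 := map_ofNat (aeval t) 2
    rw [map_add, map_sub, map_mul, map_mul, map_pow, map_one, aeval_X, e5, e2]
  obtain ⟨r, s, hrs⟩ := (IntermediateField.mem_adjoin_simple_iff ℂ z).1 hz
  by_cases h0 : aeval t s = 0
  · rw [h0, div_zero] at hrs
    rw [hrs, ← hP] at h
    apply poly_ne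
    apply ht
    rw [← h, map_zero]
    norm_num
  · have hs : s ≠ 0 := by
      rintro rfl
      exact h0 (map_zero _)
    apply no_sq r s hs
    apply ht
    rw [map_mul, map_pow, map_pow, hP, ← h, hrs, div_pow]
    field_simp

end AJM

end

section

/-!
# MP_d3fa71_gt, project Mut, block E: outer columns, exponents
-/

namespace AJM

namespace L_OExpV

theorem two_le {F Γ : Type} [Field F] [LinearOrderedCommGroupWithZero Γ] (v : Valuation F Γ) :
    v 2 ≤ 1 := by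
  have h := v.map_add 1 1
  rw [one_add_one_eq_two, map_one, max_self] at h
  exact h

theorem no_big {Γ : Type} [LinearOrderedCommGroupWithZero Γ] (V y : Γ) (n : ℕ) (hy : 1 < y)
    (h1 : V < y) (h2 : V = y ^ (2 * n + 2)) : False := by
  have h3 : y ≤ y ^ (2 * n + 2) := le_self_pow₀ hy.le (by omega)
  rw [← h2] at h3
  exact absurd h1 (not_lt.2 h3)

theorem no_small {Γ : Type} [LinearOrderedCommGroupWithZero Γ] (V y : Γ) (n : ℕ) (hy : 1 < y)
    (hV : 1 < V) (h2 : V = y ^ (2 * n + 1) * V) : False := by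
  have hV0 : V ≠ 0 := (lt_trans zero_lt_one hV).ne'
  have h3 : y ^ (2 * n + 1) = 1 := by
    have h4 : y ^ (2 * n + 1) * V = 1 * V := by rw [one_mul]; exact h2.symm
    exact mul_right_cancel₀ hV0 h4
  have h5 : 1 < y ^ (2 * n + 1) := one_lt_pow₀ hy (by omega)
  exact absurd h3 h5.ne'

end L_OExpV

theorem prf_OExpV (h1 : KRelV) : OExpV := by
  intro F Γ _ _ v m T n κ hN hV hT hK
  have h2 : v (2 : F) < v T := by
    rw [hT]
    exact lt_of_le_of_lt (L_OExpV.two_le v) hV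
  have h3 : v (T - 2) = v (m ^ 2) := by
    rw [Valuation.map_sub_eq_of_lt_left v h2, hT]
  rcases h1 F Γ v m T n κ hN hV.le hK with ⟨h4, -⟩ | ⟨y, hy, h5, h6⟩
  · exact ⟨0, by rw [h4, zpow_zero], by norm_num⟩
  · rcases h6 with ⟨h7, h8⟩ | ⟨h7, h8⟩ | ⟨h7, h8⟩
    · rw [h3] at h8
      exact (L_OExpV.no_big _ y n hy h7 h8).elim
    · rw [h3] at h8
      exact (L_OExpV.no_small _ y n hy hV h8).elim
    · rcases h5 with h5 | h5
      · exact ⟨1, by rw [h5, h7, zpow_one], by norm_num⟩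
      · exact ⟨-1, by rw [h5, h7, zpow_neg, zpow_one], by norm_num⟩

end AJM

end
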