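import Pool.Agent.Work.MP_d3fa71_gt.Mut.Bd.B20
import Pool.Agent.Work.MP_d3fa71_gt.Mut.Bd.B01
import Pool.Agent.Work.MP_d3fa71_gt.Mut.DefsF
import Pool.Agent.Work.MP_d3fa71_gt.Mut.Main

/-! Bundle of small proof modules (one section per former module). -/

section

/-!
# MP_d3fa71_gt, project Mut, item PairN: pairs with diagonal product
-/

namespace AJM

namespace L_PairN

variable {R : Type} [CommRing R]

theorem det (x : G R) : x.1 0 0 * x.1 1 1 - x.1 0 1 * x.1 1 0 = 1 := by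
  have := x.2
  rwa [Matrix.det_fin_two] at this

theorem entries {x y : G R} {θ : Rˣ} (h : x * y = dg θ) :
    x.1 0 0 * y.1 0 0 + x.1 0 1 * y.1 1 0 = θ ∧ x.1 0 0 * y.1 0 1 + x.1 0 1 * y.1 1 1 = 0 ∧
    x.1 1 0 * y.1 0 0 + x.1 1 1 * y.1 1 0 = 0 ∧
    x.1 1 0 * y.1 0 1 + x.1 1 1 * y.1 1 1 = ((θ⁻¹ : Rˣ) : R) := by
  have h1 : x.1 * y.1 = (dg θ).1 := congrArg Subtype.val h
  have e : ∀ i j, (x.1 * y.1) i j = (dg θ).1 i j := fun i j => by rw [h1]
  have h00 := e 0 0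
  have h01 := e 0 1
  have h10 := e 1 0
  have h11 := e 1 1
  simp only [Matrix.mul_apply, Fin.sum_univ_two] at h00 h01 h10 h11
  exact ⟨h00, h01, h10, h11⟩

end L_PairN

theorem prf_PairN : PairN := by
  intro F _ m θ a b hθ hab ha hb
  obtain ⟨e00, e01, e10, e11⟩ := L_PairN.entries hab
  have da := L_PairN.det a
  have hθ0 : (θ : F) ≠ 0 := θ.ne_zero
  have hinv : ((θ⁻¹ : Fˣ) : F) = (θ : F)⁻¹ := Units.val_inv_eq_inv_val θ
  rw [hinv] at e11
  unfold tr at ha hb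
  have b00 : b.1 0 0 = a.1 1 1 * θ := by
    linear_combination (- b.1 0 0) * da + a.1 1 1 * e00 - a.1 0 1 * e10
  have b11 : b.1 1 1 = a.1 0 0 * (θ : F)⁻¹ := by
    linear_combination (- b.1 1 1) * da + a.1 0 0 * e11 - a.1 1 0 * e01
  rw [b00, b11] at hb
  have hb2 : a.1 1 1 * (θ : F) ^ 2 + a.1 0 0 = m * θ := by
    have := congrArg (fun z => z * (θ : F)) hb
    simp only [add_mul, mul_assoc, inv_mul_cancel₀ hθ0, mul_one] at this
    linear_combination this
  have h1 : (θ : F) - 1 ≠ 0 := by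
    intro h
    apply hθ
    linear_combination (θ + 1 : F) * h
  have h2 : (θ : F) + 1 ≠ 0 := by
    intro h
    apply hθ
    linear_combination (θ - 1 : F) * h
  have k11 : a.1 1 1 * (θ + 1) = m := by
    apply mul_left_cancel₀ h1
    linear_combination hb2 - ha
  have k00 : a.1 0 0 * (θ + 1) = m * θ := by
    linear_combination (θ + 1 : F) * ha - k11
  have r11 : a.1 1 1 = m / (θ + 1) := (eq_div_iff h2).2 k11
  have r00 : a.1 0 0 = m * θ / (θ + 1) := (eq_div_iff h2).2 k00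
  refine ⟨r00, r11, ?_⟩
  have hT : (θ : F) + (θ : F)⁻¹ + 2 = (θ + 1) ^ 2 / θ := by
    field_simp
    ring
  have hprod : a.1 0 1 * a.1 1 0 = m ^ 2 * θ / (θ + 1) ^ 2 - 1 := by
    have : a.1 0 1 * a.1 1 0 = a.1 0 0 * a.1 1 1 - 1 := by linear_combination -da
    rw [this, r00, r11]
    field_simp
  unfold NN
  rw [hinv, hT, hprod]
  field_simp
  ring

end AJM

end

section

set_option autoImplicit false

/-!
# MP_d3fa71_gt, project Mut: pairs with product `dg (M ^ 2)`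
-/

namespace AJM

theorem prf_PairT (h1 : PairN) : PairT := by
  intro F _ M a b hM hab ha hb
  have hM2 : ((M ^ 2 : Fˣ) : F) ^ 2 ≠ 1 := by
    rw [Units.val_pow_eq_pow_val, ← pow_mul]
    exact hM
  obtain ⟨e1, e2, e3⟩ := h1 F (mm M) (M ^ 2) a b hM2 hab ha hb
  have hxy : (M : F) * ((M⁻¹ : Fˣ) : F) = 1 := Units.mul_inv M
  have hin : (((M ^ 2)⁻¹ : Fˣ) : F) = ((M⁻¹ : Fˣ) : F) ^ 2 := by
    rw [← Units.val_pow_eq_pow_val, inv_pow]
  have hθ : (M : F) ^ 2 + 1 ≠ 0 := by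
    intro h
    apply hM
    linear_combination ((M : F) ^ 2 - 1) * h
  rw [Units.val_pow_eq_pow_val] at e1 e2 e3
  rw [hin] at e3
  unfold mm at e1 e2 e3
  refine ⟨?_, ?_, ?_⟩
  · rw [e1, div_eq_iff hθ]
    linear_combination (M : F) * hxy
  · rw [e2, div_eq_iff hθ]
    linear_combination -(M : F) * hxy
  · rw [e3]
    unfold NN
    have h0 : ((M : F) + ((M⁻¹ : Fˣ) : F)) ^ 2 - 2 -
        ((M : F) ^ 2 + ((M⁻¹ : Fˣ) : F) ^ 2) = 0 := by
      linear_combination 2 * hxy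
    rw [h0, zero_div]

end AJM

end

section

/-!
# MP_d3fa71_gt, project Mut, item PowS (helper48)
-/

namespace AJM

namespace L_PowS

theorem rel {R : Type} [CommRing R] (Y : R) (n : ℕ) :
    Sp (n + 1) Y ^ 2 - Y * Sp (n + 1) Y * Sp n Y + Sp n Y ^ 2 = 1 := by
  induction n with
  | zero => simp [Sp]
  | succ n ih =>
    have h : Sp (n + 1 + 1) Y = Y * Sp (n + 1) Y - Sp n Y := rfl
    rw [h]
    linear_combination ih

theorem sq {R : Type} [CommRing R] (v : G R) :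
    v.1 * v.1 = tr v • v.1 - (1 : Matrix (Fin 2) (Fin 2) R) := by
  have hdet := v.2
  rw [Matrix.det_fin_two] at hdet
  ext i j
  fin_cases i <;> fin_cases j <;>
    simp only [Matrix.mul_apply, Fin.sum_univ_two, tr, Matrix.sub_apply, Matrix.smul_apply,
      Matrix.one_apply, smul_eq_mul, Fin.zero_eta, Fin.mk_one, Fin.isValue, Fin.reduceEq,
      if_true, if_false]
  · linear_combination (-1 : R) * hdet
  · simp
    ring
  · simp
    ring
  · linear_combination (-1 : R) * hdet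

theorem pow_nat {R : Type} [CommRing R] (v : G R) (n : ℕ) :
    (v ^ (n + 1)).1 = Sp (n + 1) (tr v) • v.1 - Sp n (tr v) • (1 : Matrix (Fin 2) (Fin 2) R) := by
  induction n with
  | zero => simp [Sp]
  | succ n ih =>
    have h : Sp (n + 1 + 1) (tr v) = tr v * Sp (n + 1) (tr v) - Sp n (tr v) := rfl
    rw [pow_succ, Matrix.SpecialLinearGroup.coe_mul, ih, sub_mul, smul_mul_assoc, smul_mul_assoc,
      one_mul, sq, h]
    module

end L_PowS

open L_PowS in
theorem prf_PowS : PowS := by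
  intro R _ v r
  obtain ⟨n, rfl | rfl⟩ := r.eq_nat_or_neg
  · rcases n with _ | n
    · exact ⟨0, -1, by simp, by ring, by simp [Sp]⟩
    · refine ⟨Sp (n + 1) (tr v), Sp n (tr v), ?_, rel _ _, rfl⟩
      rw [zpow_natCast]
      exact pow_nat v n
  · rcases n with _ | n
    · exact ⟨0, -1, by simp, by ring, by simp [Sp]⟩
    · have h : Sp (n + 1 + 1) (tr v) = tr v * Sp (n + 1) (tr v) - Sp n (tr v) := rfl
      refine ⟨-Sp (n + 1) (tr v), -Sp (n + 1 + 1) (tr v), ?_, ?_, by rw [Int.natAbs_neg, neg_sq]; rfl⟩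
      · rw [zpow_neg, zpow_natCast, Matrix.SpecialLinearGroup.coe_inv, pow_nat, h]
        ext i j
        fin_cases i <;> fin_cases j <;> simp [Matrix.adjugate_fin_two, tr] <;> ring
      · have := rel (tr v) (n + 1)
        linear_combination this

end AJM

end

section

/-!
# The inner chain on upper triangular pairs
-/

namespace AJM

namespace L_RAU

variable {F : Type} [Field F]

lemma inv00 (a : G F) : (a⁻¹).1 0 0 = a.1 1 1 := by
  have h : (a⁻¹).1 = Matrix.adjugate a.1 := Matrix.SpecialLinearGroup.coe_inv a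
  rw [h, Matrix.adjugate_fin_two]; simp

lemma inv01 (a : G F) : (a⁻¹).1 0 1 = -a.1 0 1 := by
  have h : (a⁻¹).1 = Matrix.adjugate a.1 := Matrix.SpecialLinearGroup.coe_inv a
  rw [h, Matrix.adjugate_fin_two]; simp

lemma inv10 (a : G F) : (a⁻¹).1 1 0 = -a.1 1 0 := by
  have h : (a⁻¹).1 = Matrix.adjugate a.1 := Matrix.SpecialLinearGroup.coe_inv a
  rw [h, Matrix.adjugate_fin_two]; simp

lemma inv11 (a : G F) : (a⁻¹).1 1 1 = a.1 0 0 := by
  have h : (a⁻¹).1 = Matrix.adjugate a.1 := Matrix.SpecialLinearGroup.coe_inv a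
  rw [h, Matrix.adjugate_fin_two]; simp

lemma tr_inv (x : G F) : tr x⁻¹ = tr x := by
  unfold tr
  rw [inv00, inv11, add_comm]

lemma mul_val (a b : G F) (i j : Fin 2) :
    (a * b).1 i j = a.1 i 0 * b.1 0 j + a.1 i 1 * b.1 1 j := by
  have h : (a * b).1 = a.1 * b.1 := rfl
  rw [h, Matrix.mul_apply, Fin.sum_univ_two]

end L_RAU

open L_RAU in
theorem prf_RAU (h1 : InStep) (h2 : PairT) (h3 : CRelMul) : RAU := by
  intro F _ _ K M a b a' b' hM hMK hab hab' hRA hU hU'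
  obtain ⟨x₁, y₁, x₂, y₂, x₃, y₃, ta, tb, ta', tb', t1, t2, t3, c1, c2, c3, c4⟩ := hRA
  have hM0 : (M : F) ≠ 0 := M.ne_zero
  have hM4 : (M : F) ^ 4 ≠ 1 := by
    intro h
    refine hM 4 (by norm_num) ?_
    have : M ^ (4 : ℕ) = 1 := Units.ext (by push_cast; exact h)
    exact_mod_cast this
  have hM2 : (1 : F) - (M : F) ^ 2 ≠ 0 := by
    intro h
    apply hM4
    have : (M : F) ^ 2 = 1 := by linear_combination -h
    calc (M : F) ^ 4 = ((M : F) ^ 2) ^ 2 := by ring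
      _ = 1 := by rw [this]; ring
  have hM2' : (M : F) ^ 2 + 1 ≠ 0 := by
    intro h
    apply hM4
    have : (M : F) ^ 2 = -1 := by linear_combination h
    calc (M : F) ^ 4 = ((M : F) ^ 2) ^ 2 := by ring
      _ = 1 := by rw [this]; ring
  obtain ⟨a00, a11, -⟩ := h2 F M a b hM4 hab ta tb
  obtain ⟨a00', a11', -⟩ := h2 F M a' b' hM4 hab' ta' tb'
  obtain ⟨a10, hs⟩ := hU
  obtain ⟨a10', hs'⟩ := hU'
  set s := a.1 0 1 with hsdef
  set s1 := a'.1 0 1 with hs1def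
  have hinv : ((M⁻¹ : Fˣ) : F) = (M : F)⁻¹ := by simp
  rw [hinv] at a11 a11'
  by_cases hss : s1 = s
  · exact ⟨1, K.one_mem, by rw [one_mul]; exact hss⟩
  -- the products
  obtain ⟨p1, -, -⟩ := h3 F 3 _ _ _ _ c1
  obtain ⟨p2, -, -⟩ := h3 F 2 _ _ _ _ c2
  obtain ⟨p3, -, -⟩ := h3 F (-4) _ _ _ _ c3
  obtain ⟨p4, -, -⟩ := h3 F (-4) _ _ _ _ c4
  set ζ : F := (s1 - s) / M with hζ
  have hζ0 : ζ ≠ 0 := div_ne_zero (sub_ne_zero.2 hss) hM0
  have hw : (a⁻¹ * a').1 = !![1, ζ; 0, 1] := by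
    ext i j
    rw [mul_val]
    fin_cases i <;> fin_cases j
    · simp only [Fin.zero_eta, Fin.isValue, inv00, inv01, a11, a00', a10']
      simp [hM0]
    · simp only [Fin.zero_eta, Fin.isValue, Fin.mk_one, inv00, inv01, a11, a11', ← hsdef,
        ← hs1def]
      simp only [Matrix.of_apply, Matrix.cons_val', Matrix.cons_val_zero, Matrix.cons_val_one,
        Matrix.cons_val_fin_one, hζ]
      field_simp
      ring
    · simp only [Fin.zero_eta, Fin.isValue, Fin.mk_one, inv10, inv11, a10, a10', a00']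
      simp
    · simp only [Fin.isValue, Fin.mk_one, inv10, inv11, a10, a00, a11']
      simp [hM0]
  have q4 : (x₃ * y₃).1 = !![1, ζ; 0, 1] := by rw [← p4]; exact hw
  have q3 : (x₂ * y₂).1 = !![1, ζ; 0, 1] := by rw [← p3]; exact q4
  have q2 : (x₁ * y₁).1 = !![1, ζ; 0, 1] := by rw [← p2]; exact q3
  have q1 : (b * b'⁻¹).1 = !![1, ζ; 0, 1] := by rw [← p1]; exact q2
  obtain ⟨-, -, ρ1, hρ1, e1⟩ := h1 F K M 3 b b'⁻¹ x₁ y₁ ζ hM hMK (by norm_num) hζ0 c1 q1 tb t1
  obtain ⟨-, -, ρ2, hρ2, e2⟩ := h1 F K M 2 x₁ y₁ x₂ y₂ ζ hM hMK (by norm_num) hζ0 c2 q2 t1 t2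
  obtain ⟨-, -, ρ3, hρ3, e3⟩ := h1 F K M (-4) x₂ y₂ x₃ y₃ ζ hM hMK (by norm_num) hζ0 c3 q3 t2 t3
  obtain ⟨-, -, ρ4, hρ4, e4⟩ := h1 F K M (-4) x₃ y₃ a⁻¹ a' ζ hM hMK (by norm_num) hζ0 c4 q4 t3
    (by rw [tr_inv]; exact ta)
  have hb : b = a⁻¹ * dg (M ^ 2) := by rw [← hab]; group
  have hd00 : (dg (M ^ 2) : G F).1 0 0 = (M : F) ^ 2 := by simp [dg]
  have hd01 : (dg (M ^ 2) : G F).1 0 1 = 0 := by simp [dg]
  have hd10 : (dg (M ^ 2) : G F).1 1 0 = 0 := by simp [dg]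
  have hd11 : (dg (M ^ 2) : G F).1 1 1 = ((M : F) ^ 2)⁻¹ := by simp [dg]
  have b00 : b.1 0 0 = M := by
    rw [hb, mul_val, inv00, inv01, a11, hd00, hd10]
    field_simp
    ring
  have b01 : b.1 0 1 = -s / (M : F) ^ 2 := by
    rw [hb, mul_val, inv00, inv01, hd01, hd11, ← hsdef]
    field_simp
    ring
  have ca : cen a⁻¹ = s * M / (1 - (M : F) ^ 2) := by
    unfold cen
    rw [inv00, inv01, a11, ← hsdef]
    have h5 : (1 : F) - ((M : F)⁻¹) ^ 2 ≠ 0 := by
      intro h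
      apply hM2
      have : (M : F) ^ 2 * (1 - ((M : F)⁻¹) ^ 2) = 0 := by rw [h, mul_zero]
      have h6 : (M : F) ^ 2 * (1 - ((M : F)⁻¹) ^ 2) = (M : F) ^ 2 - 1 := by field_simp
      rw [h6] at this
      linear_combination -this
    rw [div_eq_div_iff h5 hM2]
    field_simp
    ring
  have cb : cen b = -s / (M * (1 - (M : F) ^ 2)) := by
    unfold cen
    rw [b00, b01, div_eq_div_iff hM2 (mul_ne_zero hM0 hM2)]
    field_simp
  have hsum : cen a⁻¹ - cen b = (ρ1 + ρ2 + ρ3 + ρ4) * ζ := by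
    linear_combination e1 + e2 + e3 + e4
  set ρ := ρ1 + ρ2 + ρ3 + ρ4 with hρ
  have hρK : ρ ∈ K := K.add_mem (K.add_mem (K.add_mem hρ1 hρ2) hρ3) hρ4
  have key : s * ((M : F) ^ 2 + 1) = ρ * (s1 - s) * (1 - (M : F) ^ 2) := by
    rw [ca, cb, hζ] at hsum
    field_simp at hsum
    linear_combination hsum
  have hρ0 : ρ ≠ 0 := by
    intro h
    rw [h] at key
    have : s * ((M : F) ^ 2 + 1) = 0 := by rw [key]; ring
    rcases mul_eq_zero.1 this with h | h
    · exact hs h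
    · exact hM2' h
  refine ⟨1 + ((M : F) ^ 2 + 1) / ((1 - (M : F) ^ 2) * ρ), ?_, ?_⟩
  · exact K.add_mem K.one_mem (K.div_mem (K.add_mem hMK K.one_mem)
      (K.mul_mem (K.sub_mem K.one_mem hMK) hρK))
  · have h7 : (1 - (M : F) ^ 2) * ρ ≠ 0 := mul_ne_zero hM2 hρ0
    field_simp
    linear_combination -key

end AJM

end

section

/-!
# MP_d3fa71_gt, project Mut, block E: the ring on the level of meridians
-/

namespace AJM

theorem prf_RingM (h1 : InvApp) (h2 : InvRot) (h3 : InvCol) (h4 : InvTws) (h5 : CRelMul)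
    (h6 : PathAppend) : RingM := by
  intro F _ M ha hb E τ hR
  obtain ⟨hE, ha', hb', τT, α, β, hP, hα, hβ, -⟩ := hR
  have c3 := (h3 F M 3).1
  have c2 := (h3 F M 2).1
  have c1 := (h3 F M 1).1
  have c4 := (h3 F M (-4)).1
  have r2 := (h3 F M 2).2
  have r1 := (h3 F M 1).2
  have t3 := h4 F M (-3)
  have hin := h1 F M _ _ _ _ (h1 F M _ _ _ _ (h1 F M _ _ _ _ c3 c2) c4) c4
  have hrot := h2 F M _ _ hin
  have hB := h1 F M _ _ _ _ hrot t3
  have hT := h1 F M _ _ _ _ (h1 F M _ _ _ _ (h1 F M _ _ _ _ (h1 F M _ _ _ _ hB c2) c1) r2) r1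
  obtain ⟨x, y, hxy, c, d, htc, htd, ⟨e, f, hte, htf, ⟨g, i, htg, hti, ⟨j, k, htj, htk,
    ⟨l, o, htl, hto, ⟨x₃, y₃, htx₃, hty₃, ⟨x₂, y₂, htx₂, hty₂, ⟨x₁, y₁, htx₁, hty₁, q1, q2⟩,
      q3⟩, q4⟩, q5, q6⟩, q7⟩, q8⟩, q9⟩, q10⟩ := hT ha hb [] [ha', hb'] τT hP
  obtain ⟨rfl, rfl⟩ : ha' = x ∧ hb' = y := by simpa using hxy
  have hEa : E * mer M ha' * E⁻¹ = mer M ha := by rw [← mer_mul, hα, mer_dg]
  have hEb : E * mer M hb' * E⁻¹ = mer M hb := by rw [← mer_mul, hβ, mer_dg]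
  have hz : ∀ w : G F, w ^ (-3 : ℤ) = (w ^ 3)⁻¹ := fun w => by
    rw [zpow_neg]; rfl
  rw [hz, inv_inv] at q5 q6
  exact ⟨hE, l, o, j, k, g, i, e, f, c, d, mer M ha', mer M hb', htl, hto, htj, htk, htg, hti,
    hte, htf, htc, htd, tr_mer M ha', tr_mer M hb',
    ⟨x₁, y₁, x₂, y₂, x₃, y₃, tr_mer M ha, tr_mer M hb, htl, hto, htx₁, htx₂, htx₃, q1, q2, q3,
      q4⟩, q5, q6, q7, q8, q9, q10, hEa, hEb⟩

end AJM

end

section

/-!
# MP_d3fa71_gt, project Mut, block E: the scalar consequences of a ring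
-/

namespace AJM

namespace L_SRing

variable {F : Type} [Field F]

theorem tr_inv_mul (x y : G F) : tr (x⁻¹ * y) =
    x.1 1 1 * y.1 0 0 - x.1 0 1 * y.1 1 0 - x.1 1 0 * y.1 0 1 + x.1 0 0 * y.1 1 1 := by
  simp only [tr, G_mul00, G_mul11, G_inv00, G_inv01, G_inv10, G_inv11]
  ring

theorem tr_conj' (Q x : G F) : tr (Q * x * Q⁻¹) = tr x := tr_conj Q x

theorem conj01 (u : Fˣ) (x : G F) : (dg u * x * (dg u)⁻¹).1 0 1 = (u : F) ^ 2 * x.1 0 1 := by
  rw [← dg_inv]
  simp only [G_mul01, G_mul00, dg00, dg01, dg10, dg11, inv_inv]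
  ring

theorem add_two_ne (θ : Fˣ) (hθ : (θ : F) ^ 2 ≠ 1) : (θ : F) + ((θ⁻¹ : Fˣ) : F) + 2 ≠ 0 := by
  intro h
  have h1 : (θ : F) * ((θ⁻¹ : Fˣ) : F) = 1 := by simp
  have h2 : ((θ : F) + 1) ^ 2 = 0 := by linear_combination (θ : F) * h - h1
  have h3 : (θ : F) + 1 = 0 := by
    exact pow_eq_zero_iff (two_ne_zero) |>.1 h2
  apply hθ
  linear_combination ((θ : F) - 1) * h3

theorem NN_ne (m : F) (θ : Fˣ) (hθ : (θ : F) ^ 2 ≠ 1)
    (hm : m ^ 2 - 2 ≠ (θ : F) + ((θ⁻¹ : Fˣ) : F)) :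
    NN m ((θ : F) + ((θ⁻¹ : Fˣ) : F)) ≠ 0 := by
  unfold NN
  refine div_ne_zero (sub_ne_zero.2 hm) (add_two_ne θ hθ)

theorem prodYY (h3 : PairN) (m : F) (θ : Fˣ) (hθ : (θ : F) ^ 2 ≠ 1) (x y x' y' : G F) (μ : Fˣ)
    (hxy : x * y = dg θ) (hxy' : x' * y' = dg θ) (tx : tr x = m) (ty : tr y = m)
    (tx' : tr x' = m) (ty' : tr y' = m) (e1 : x'.1 0 1 = μ * x.1 0 1)
    (e2 : x.1 1 0 = μ * x'.1 1 0) :
    tr (x⁻¹ * x') = YY m ((θ : F) + ((θ⁻¹ : Fˣ) : F)) μ := by
  obtain ⟨p1, p2, p3⟩ := h3 F m θ x y hθ hxy tx ty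
  obtain ⟨q1, q2, q3⟩ := h3 F m θ x' y' hθ hxy' tx' ty'
  rw [tr_inv_mul]
  unfold YY
  set N := NN m ((θ : F) + ((θ⁻¹ : Fˣ) : F)) with hN
  have hd := G_det x
  have hμ : (μ : F) ≠ 0 := μ.ne_zero
  have e3 : x.1 0 1 * x'.1 1 0 = N * (μ : F)⁻¹ := by
    rw [← p3, e2]
    field_simp
  have e4 : x.1 1 0 * x'.1 0 1 = N * μ := by
    rw [← p3, e1]
    ring
  have e5 : x'.1 0 0 = x.1 0 0 := by rw [p1, q1]
  have e6 : x'.1 1 1 = x.1 1 1 := by rw [p2, q2]
  rw [e5, e6]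
  linear_combination 2 * hd + 2 * p3 - e3 - e4

theorem step (h2 : KapEx) (h6 : CRelMul) (h7 : ColTr) (m : F) (r : ℤ) (ω : Fˣ)
    (hω : (ω : F) ^ 2 ≠ 1) (hm : m ^ 2 - 2 ≠ (ω : F) + ((ω⁻¹ : Fˣ) : F))
    (a b a' b' : G F) (hab : a * b = dg ω) (ta : tr a = m) (tb : tr b = m) (ta' : tr a' = m)
    (tb' : tr b' = m) (hc : CRel r a' b' a b) :
    a' * b' = dg ω ∧ ∃ κ : Fˣ, a'.1 0 1 = κ * a.1 0 1 ∧
      KRel m r.natAbs ((ω : F) + ((ω⁻¹ : Fˣ) : F)) κ := by
  have hab' : a' * b' = dg ω := by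
    rw [← hab, (h6 F r a' b' a b hc).1]
  obtain ⟨κ, k1, _, k3⟩ := h2 F m ω a b a' b' hω hm hab hab' ta tb ta' tb'
  refine ⟨hab', κ, k1, ?_⟩
  have h8 := h7 F r a' b' a b m hc ta' ta
  have h9 : tr (a'⁻¹ * a) = YY m ((ω : F) + ((ω⁻¹ : Fˣ) : F)) κ := by
    rw [← k3, ← tr_inv (a⁻¹ * a')]
    congr 1
    group
  rw [h9, hab', tr_dg] at h8
  unfold KRel
  exact h8.symm

end L_SRing

open L_SRing in
theorem prf_SRing (h1 : KapCol) (h2 : KapEx) (h3 : PairN) (h4 : CRelConj) (h5 : DiagW)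
    (h6 : CRelMul) (h7 : ColTr) : SRing := by
  intro F _ m ω ε a b hω hm hab hch
  obtain ⟨-, a₀, b₀, a₁, b₁, a₂, b₂, a₃, b₃, a₄, b₄, a₅, b₅, ta0, tb0, ta1, tb1, ta2, tb2, ta3,
    tb3, ta4, tb4, ta5, tb5, hRA, ha1, hb1, c1, c2, c3, c4, he, -⟩ := hch
  obtain ⟨x₁, y₁, x₂, y₂, x₃, y₃, ta, tb, -, -, tx1, tx2, tx3, d1, d2, d3, d4⟩ := hRA
  -- products
  have p1 := (h6 F _ _ _ _ _ d1).1
  have p2 := (h6 F _ _ _ _ _ d2).1
  have p3 := (h6 F _ _ _ _ _ d3).1
  have p4 := (h6 F _ _ _ _ _ d4).1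
  have pw : a⁻¹ * a₀ = b * b₀⁻¹ := by rw [p4, p3, p2, p1]
  have hab0 : a₀ * b₀ = dg ω := by
    rw [← hab]
    have : a₀ = a * (b * b₀⁻¹) := by rw [← pw]; group
    rw [this]
    group
  obtain ⟨κ₀, k01, _, k03⟩ := h2 F m ω a b a₀ b₀ hω hm hab hab0 ta tb ta0 tb0
  rw [hab0, ← dg_pow] at ha1 hb1
  have e1 : a₁.1 0 1 = (ω : F) ^ 6 * a₀.1 0 1 := by
    rw [ha1, conj01]
    push_cast
    ring
  have hab1 : a₁ * b₁ = dg ω := by
    rw [ha1, hb1]
    calc dg (ω ^ 3) * a₀ * (dg (ω ^ 3))⁻¹ * (dg (ω ^ 3) * b₀ * (dg (ω ^ 3))⁻¹)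
        = dg (ω ^ 3) * (a₀ * b₀) * (dg (ω ^ 3))⁻¹ := by group
      _ = dg ω := by rw [hab0, dg_comm, mul_inv_cancel_right]
  obtain ⟨hab2, κ₁, k11, _, _, k14⟩ := h1 F m ω 2 a₁ b₁ a₂ b₂ hω hm hab1 ta1 ta2 c1
  obtain ⟨hab3, κ₂, k21, _, _, k24⟩ := h1 F m ω 1 a₂ b₂ a₃ b₃ hω hm hab2 ta2 ta3 c2
  obtain ⟨hab4, κ₃, k31, k34⟩ := step h2 h6 h7 m 2 ω hω hm a₃ b₃ a₄ b₄ hab3 ta3 tb3 ta4 tb4 c3
  obtain ⟨hab5, κ₄, k41, k44⟩ := step h2 h6 h7 m 1 ω hω hm a₄ b₄ a₅ b₅ hab4 ta4 tb4 ta5 tb5 c4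
  have hN := (h3 F m ω a b hω hab ta tb).2.2
  have ha01 : a.1 0 1 ≠ 0 := by
    intro h0
    rw [h0, zero_mul] at hN
    exact NN_ne m ω hω hm hN.symm
  have e2 : (ε : F) ^ 2 * a₅.1 0 1 = a.1 0 1 := by
    rw [← conj01, he]
  refine ⟨κ₀, κ₁, κ₂, κ₃, κ₄, ?_, k14, k24, k34, k44, ?_⟩
  · apply Units.ext
    push_cast
    apply mul_right_cancel₀ ha01
    rw [one_mul]
    calc (κ₀ : F) * ω ^ 6 * κ₁ * κ₂ * κ₃ * κ₄ * ε ^ 2 * a.1 0 1
        = ε ^ 2 * (κ₄ * (κ₃ * (κ₂ * (κ₁ * (ω ^ 6 * (κ₀ * a.1 0 1)))))) := by ring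
      _ = a.1 0 1 := by rw [← k01, ← e1, ← k11, ← k21, ← k31, ← k41, e2]
  · intro θ hθ hmθ hYθ
    have tw : tr (a⁻¹ * a₀) = (θ : F) + ((θ⁻¹ : Fˣ) : F) := by rw [k03, hYθ]
    obtain ⟨P, hP⟩ := h5 F (a⁻¹ * a₀) θ hθ tw
    set Q := P⁻¹ with hQ
    have hQw : Q * (a⁻¹ * a₀) * Q⁻¹ = dg θ := by
      rw [hP, hQ]
      group
    have q0 : (Q * b * Q⁻¹) * (Q * b₀⁻¹ * Q⁻¹) = dg θ := by
      rw [← hQw, pw]
      group
    have q4 : (Q * a⁻¹ * Q⁻¹) * (Q * a₀ * Q⁻¹) = dg θ := by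
      rw [← hQw]
      group
    have d1' := h4 F _ _ _ _ _ Q d1
    have d2' := h4 F _ _ _ _ _ Q d2
    have d3' := h4 F _ _ _ _ _ Q d3
    have d4' := h4 F _ _ _ _ _ Q d4
    have ux0 : tr (Q * b * Q⁻¹) = m := by rw [tr_conj]; exact tb
    have uy0 : tr (Q * b₀⁻¹ * Q⁻¹) = m := by rw [tr_conj, tr_inv]; exact tb0
    have ux1 : tr (Q * x₁ * Q⁻¹) = m := by rw [tr_conj]; exact tx1
    have ux2 : tr (Q * x₂ * Q⁻¹) = m := by rw [tr_conj]; exact tx2
    have ux3 : tr (Q * x₃ * Q⁻¹) = m := by rw [tr_conj]; exact tx3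
    have ux4 : tr (Q * a⁻¹ * Q⁻¹) = m := by rw [tr_conj, tr_inv]; exact ta
    have uy4 : tr (Q * a₀ * Q⁻¹) = m := by rw [tr_conj]; exact ta0
    obtain ⟨r1, μ₁, m11, m12, _, m14⟩ := h1 F m θ 3 _ _ _ _ hθ hmθ q0 ux0 ux1 d1'
    obtain ⟨r2, μ₂, m21, m22, _, m24⟩ := h1 F m θ 2 _ _ _ _ hθ hmθ r1 ux1 ux2 d2'
    obtain ⟨r3, μ₃, m31, m32, _, m34⟩ := h1 F m θ (-4) _ _ _ _ hθ hmθ r2 ux2 ux3 d3'
    obtain ⟨r4, μ₄, m41, m42, _, m44⟩ := h1 F m θ (-4) _ _ _ _ hθ hmθ r3 ux3 ux4 d4'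
    refine ⟨μ₁, μ₂, μ₃, μ₄, m14, m24, m34, m44, ?_⟩
    have key := prodYY h3 m θ hθ (Q * b * Q⁻¹) (Q * b₀⁻¹ * Q⁻¹) (Q * a⁻¹ * Q⁻¹) (Q * a₀ * Q⁻¹)
      (μ₁ * μ₂ * μ₃ * μ₄) q0 q4 ux0 uy0 ux4 uy4
      (by rw [m41, m31, m21, m11]; push_cast; ring)
      (by rw [m12, m22, m32, m42]; push_cast; ring)
    rw [← key]
    have e3 : (Q * b * Q⁻¹)⁻¹ * (Q * a⁻¹ * Q⁻¹) = Q * (a * b)⁻¹ * Q⁻¹ := by group
    rw [e3, tr_conj, tr_inv, hab, tr_dg]

end AJM

end

section

/-!
# Valuations of the Chebyshev polynomials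
-/

namespace AJM

namespace L_SpV

variable {F Γ : Type} [Field F] [LinearOrderedCommGroupWithZero Γ]

lemma big (v : Valuation F Γ) (Y : F) (hY : 1 < v Y) :
    ∀ n : ℕ, v (Sp (n + 1) Y) = v Y ^ n ∧ v (Sp (n + 2) Y) = v Y ^ (n + 1) := by
  intro n
  induction n with
  | zero =>
    constructor
    · simp [Sp]
    · simp [Sp]
  | succ n ih =>
    refine ⟨ih.2, ?_⟩
    have e : Sp (n + 1 + 2) Y = Y * Sp (n + 2) Y - Sp (n + 1) Y := rfl
    have h1 : v (Y * Sp (n + 2) Y) = v Y ^ (n + 2) := by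
      rw [map_mul, ih.2, ← pow_succ']
    have h2 : v (Sp (n + 1) Y) < v (Y * Sp (n + 2) Y) := by
      rw [h1, ih.1]
      exact pow_lt_pow_right₀ hY (by omega)
    rw [e, Valuation.map_sub_eq_of_lt_left v h2, h1]

lemma small (v : Valuation F Γ) (Y : F) (hY : v Y ≤ 1) :
    ∀ n : ℕ, v (Sp n Y) ≤ 1 ∧ v (Sp (n + 1) Y) ≤ 1 := by
  intro n
  induction n with
  | zero =>
    constructor
    · simp [Sp]
    · simp [Sp]
  | succ n ih =>
    refine ⟨ih.2, ?_⟩
    have e : Sp (n + 1 + 1) Y = Y * Sp (n + 1) Y - Sp n Y := rfl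
    rw [e]
    have h1 : v (Y * Sp (n + 1) Y) ≤ 1 := by
      rw [map_mul]
      exact mul_le_one' hY ih.2
    exact v.map_sub_le h1 ih.1

end L_SpV

theorem prf_SpV : SpV := by
  intro F Γ _ _ v n Y
  exact ⟨fun h => (L_SpV.big v Y h n).1, fun h => (L_SpV.small v Y h n).1⟩

end AJM

end

section

/-!
# MP_d3fa71_gt, project Mut: existence of a valuation trivial on the constants
-/

namespace AJM

namespace L_ValEx

theorem aux (K F : Type) [Field K] [Field F] [Algebra K F] (x : F) (hx : Transcendental K x) :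
    ∃ V : ValuationSubring F, (∀ c : K, algebraMap K F c ∈ V) ∧ x ∉ V := by
  have hxR : x ∉ (integralClosure K F).toSubring := by
    intro h
    have h1 : IsIntegral K x := h
    exact hx h1.isAlgebraic
  have : IsIntegrallyClosedIn (integralClosure K F).toSubring F := by
    have h2 : IsIntegrallyClosedIn (integralClosure K F) F := inferInstance
    exact h2
  obtain ⟨V, h1, h2⟩ := Subring.exists_le_valuationSubring_of_isIntegrallyClosedIn hxR
  refine ⟨V, fun c => h1 ?_, h2⟩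
  exact (integralClosure K F).algebraMap_mem c

end L_ValEx

theorem prf_ValEx : ValEx := by
  intro K F _ _ _ x hx
  obtain ⟨V, h1, h2⟩ := L_ValEx.aux K F x hx
  refine ⟨V.ValueGroup, inferInstance, V.valuation, ?_, ?_⟩
  · intro c hc
    have e1 : V.valuation (algebraMap K F c) ≤ 1 := (V.valuation_le_one_iff _).2 (h1 c)
    have e2 : V.valuation (algebraMap K F c⁻¹) ≤ 1 := (V.valuation_le_one_iff _).2 (h1 _)
    have hc' : algebraMap K F c ≠ 0 := by
      intro h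
      exact hc ((map_eq_zero _).1 h)
    rw [map_inv₀, map_inv₀] at e2
    have h0 : V.valuation (algebraMap K F c) ≠ 0 := (Valuation.ne_zero_iff _).2 hc'
    refine le_antisymm e1 ?_
    exact (inv_le_one₀ (zero_lt_iff.2 h0)).1 e2
  · by_contra h
    exact h2 ((V.valuation_le_one_iff _).1 (not_lt.1 h))

end AJM

end

section

/-! MP_d3fa71_gt, project Mut, block E, item YYAlg. -/

namespace AJM

namespace L_YYAlg

open Polynomial

theorem quad (K F : Type) [Field K] [Field F] [Algebra K F] (c x : F) (hc : IsIntegral K c)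
    (h : x ^ 2 - c * x + 1 = 0) : IsIntegral K x := by
  have h1 : IsIntegral (integralClosure K F) x := by
    refine ⟨X ^ 2 - C (⟨c, hc⟩ : integralClosure K F) * X + 1, ?_, ?_⟩
    · have h2 : (X ^ 2 - C (⟨c, hc⟩ : integralClosure K F) * X + 1) =
          X ^ 2 + C (-(⟨c, hc⟩ : integralClosure K F)) * X + C 1 := by
        rw [C_neg, C_1]
        ring
      rw [h2]
      monicity!
    · simp only [eval₂_add, eval₂_sub, eval₂_pow, eval₂_X, eval₂_mul, eval₂_C, eval₂_one]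
      exact h
  exact isIntegral_trans x h1

end L_YYAlg

open L_YYAlg in
theorem prf_YYAlg : YYAlg := by
  intro K F _ _ _ m T κ hm hT h1 h2 hY
  have hi2 : IsIntegral K (2 : F) := by
    have := isIntegral_algebraMap (R := K) (A := F) (x := (2 : K))
    rwa [map_ofNat] at this
  rw [isAlgebraic_iff_isIntegral] at hm hT hY ⊢
  have hN0 : NN m T ≠ 0 := by
    refine div_ne_zero (sub_ne_zero.2 h1) ?_
    intro h
    exact h2 (eq_neg_of_add_eq_zero_left h)
  have hN : IsIntegral K (NN m T) := by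
    unfold NN
    rw [div_eq_mul_inv]
    exact (((hm.pow 2).sub hi2).sub hT).mul (hT.add hi2).inv
  have hk : (κ : F) ≠ 0 := κ.ne_zero
  refine quad K F (2 + (2 - YY m T κ) * (NN m T)⁻¹) κ (hi2.add ((hi2.sub hY).mul hN.inv)) ?_
  unfold YY
  field_simp
  ring

end AJM

end

section

set_option autoImplicit false

namespace AJM

namespace L_YYV

variable {F Γ : Type} [Field F] [LinearOrderedCommGroupWithZero Γ] (v : Valuation F Γ)

theorem v_two : v (2 : F) ≤ 1 := by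
  have h : (2 : F) = 1 + 1 := by norm_num
  rw [h]
  exact (v.map_add 1 1).trans (by rw [v.map_one, max_self])

theorem yy_sub (m T : F) (κ : Fˣ) :
    YY m T κ - 2 = -(NN m T * (((κ : F) - 1) ^ 2 * (κ : F)⁻¹)) := by
  have hk : (κ : F) ≠ 0 := κ.ne_zero
  unfold YY
  field_simp
  ring

theorem v_sub (m T : F) (κ : Fˣ) (hN : v (NN m T) = 1) :
    v (YY m T κ - 2) = v ((κ : F) - 1) ^ 2 * (v (κ : F))⁻¹ := by
  rw [yy_sub, Valuation.map_neg, map_mul, hN, one_mul, map_mul, map_pow, map_inv₀]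

end L_YYV

open L_YYV in
theorem prf_YYV : YYV := by
  intro F Γ _ _ v m T κ hN
  have h1 := v_sub v m T κ hN
  have h2 := v_two v
  have hk : v (κ : F) ≠ 0 := (v.ne_zero_iff).2 κ.ne_zero
  have e : YY m T κ = (YY m T κ - 2) + 2 := by ring
  rcases lt_trichotomy (v (κ : F)) 1 with h | h | h
  · right
    have h3 : v ((κ : F) - 1) = 1 := by
      rw [v.map_sub_swap, Valuation.map_sub_eq_of_lt_left, v.map_one]
      rwa [v.map_one]
    rw [h3, one_pow, one_mul] at h1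
    have h4 : 1 < v (YY m T κ - 2) := by
      rw [h1]; exact (one_lt_inv₀ (zero_lt_iff.2 hk)).2 h
    have h5 : v (YY m T κ) = v (YY m T κ - 2) := by
      conv_lhs => rw [e]
      exact Valuation.map_add_eq_of_lt_left v (lt_of_le_of_lt h2 h4)
    refine ⟨by rw [h5]; exact h4, h5.symm, Or.inr ?_⟩
    rw [h5, h1, inv_inv]
  · left
    have h3 : v ((κ : F) - 1) ≤ 1 := by
      refine (v.map_sub _ _).trans ?_
      rw [h, v.map_one, max_self]
    have h4 : v (YY m T κ - 2) ≤ 1 := by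
      rw [h1, h, inv_one, mul_one]
      exact pow_le_one₀ zero_le h3
    refine ⟨?_, h⟩
    rw [e]
    exact (v.map_add _ _).trans (max_le h4 h2)
  · right
    have h3 : v ((κ : F) - 1) = v (κ : F) := by
      rw [Valuation.map_sub_eq_of_lt_left]
      rwa [v.map_one]
    rw [h3, pow_two, mul_assoc, mul_inv_cancel₀ hk, mul_one] at h1
    have h4 : 1 < v (YY m T κ - 2) := by
      rw [h1]; exact h
    have h5 : v (YY m T κ) = v (YY m T κ - 2) := by
      conv_lhs => rw [e]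
      exact Valuation.map_add_eq_of_lt_left v (lt_of_le_of_lt h2 h4)
    refine ⟨by rw [h5]; exact h4, h5.symm, Or.inl ?_⟩
    rw [h5, h1]

end AJM

end

section

/-!
# MP_d3fa71_gt, project Mut: statements on paths of words (block B, shared)
-/

namespace AJM

/-! ## Widths -/

/-- Number of strands after a move (`none` if the move does not fit). -/
def mvw : Mv → ℕ → Option ℕ
  | (.cup, i), l => if i ≤ l then some (l + 2) else none
  | (.cap, i), l => if i + 2 ≤ l then some (l - 2) else none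
  | (.pos, i), l => if i + 2 ≤ l then some l else none
  | (.neg, i), l => if i + 2 ≤ l then some l else none

/-- Number of strands after a word. -/
def wid : List Mv → ℕ → Option ℕ
  | [], l => some l
  | m :: w, l => (mvw m l).bind (wid w)

/-- Reversed rotation. -/
def rrt (w : List Mv) : List Mv := (.cup, 0) :: sh 1 w ++ [(.cap, 2)]

/-- Locality: a word of width `l → l'` acts on the first `l` strands. -/
def PathRight : Prop :=
  ∀ (R : Type) [CommRing R] (M : Rˣ) (w : List Mv) (l l' : ℕ) (s x s₁ : List (G R)) (τ : Rˣ),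
    wid w l = some l' → s.length = l →
    (Path M w (s ++ x) s₁ τ ↔ ∃ s', s'.length = l' ∧ s₁ = s' ++ x ∧ Path M w s s' τ)

/-- Widths of appended words. -/
def WidAppend : Prop :=
  ∀ (w₁ w₂ : List Mv) (l : ℕ), wid (w₁ ++ w₂) l = (wid w₁ l).bind (wid w₂)

/-- Widths of shifted words. -/
def WidSh : Prop :=
  ∀ (w : List Mv) (k l l' : ℕ), wid w l = some l' → wid (sh k w) (l + k) = some (l' + k)

/-- Widths of the two-strand words. -/
def WidTwo : Prop :=
  (∀ n : ℤ, wid (tws n) 2 = some 2) ∧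
  (∀ w, wid w 2 = some 2 → wid (rot w) 2 = some 2 ∧ wid (rrt w) 2 = some 2) ∧
  (∀ w w', wid w 2 = some 2 → wid w' 2 = some 2 → wid (w ++ w') 2 = some 2) ∧
  (∀ r, wid (Col r) 2 = some 2) ∧ (∀ j' j n, wid (Vg j' j n) 2 = some 2)

/-- A path can only see words that fit: splitting of the state. -/
def ShiftSplit : Prop :=
  ∀ (R : Type) [CommRing R] (M : Rˣ) (w : List Mv) (k : ℕ) (s s₁ : List (G R)) (τ : Rˣ),
    w ≠ [] → Path M (sh k w) s s₁ τ →
    ∃ p s' s₁', p.length = k ∧ s = p ++ s' ∧ s₁ = p ++ s₁' ∧ Path M w s' s₁' τ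

/-- The product of the meridians is preserved. -/
def PathProd : Prop :=
  ∀ (R : Type) [CommRing R] (M : Rˣ) (w : List Mv) (s s' : List (G R)) (τ : Rˣ),
    Path M w s s' τ → (s.map (mer M)).prod = (s'.map (mer M)).prod

/-- Reversal of paths. -/
def PathRev : Prop :=
  ∀ (R : Type) [CommRing R] (M : Rˣ) (w : List Mv) (s s' : List (G R)) (τ : Rˣ),
    Path M w s s' τ → ∃ (d : List Rˣ) (τ' : Rˣ), d.length = s.length ∧
      Path M (Rev w) s' (scl s d) τ' ∧ τ' * d.prod = τ⁻¹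

/-- The image of a path under a ring homomorphism. -/
def PathMap : Prop :=
  ∀ (R S : Type) [CommRing R] [CommRing S] (f : R →+* S) (M : Rˣ) (w : List Mv)
    (s s' : List (G R)) (τ : Rˣ), Path M w s s' τ →
    Path (Units.map f.toMonoidHom M) w (s.map (Matrix.SpecialLinearGroup.map f))
      (s'.map (Matrix.SpecialLinearGroup.map f)) (Units.map f.toMonoidHom τ)

/-! ## Formulas for the words -/

/-- Even twists. -/
def TwsEven : Prop :=
  ∀ (R : Type) [CommRing R] (M : Rˣ) (n : ℤ) (h k : G R) (s s₁ : List (G R)) (τ : Rˣ),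
    Path M (tws (2 * n)) (h :: k :: s) s₁ τ ↔
      τ = 1 ∧ s₁ = (mer M h * mer M k) ^ (-n) * h * dg M ^ n ::
        (mer M h * mer M k) ^ (-n) * k * dg M ^ n :: s

/-- Odd twists. -/
def TwsOdd : Prop :=
  ∀ (R : Type) [CommRing R] (M : Rˣ) (n : ℕ) (h k : G R) (s s₁ : List (G R)) (τ : Rˣ),
    Path M (tws (2 * (n : ℤ) + 1)) (h :: k :: s) s₁ τ ↔
      τ = 1 ∧ s₁ = (mer M h * mer M k) ^ (-(n : ℤ)) * k * dg M ^ n ::
        (mer M h * mer M k) ^ (-(n : ℤ)) * (mer M k)⁻¹ * h * dg M ^ n :: s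

/-- Rotation of a two-strand word. -/
def RotInv : Prop :=
  ∀ (R : Type) [CommRing R] (M : Rˣ) (w : List Mv) (ha hb ha' hb' : G R) (τ : Rˣ),
    wid w 2 = some 2 →
    (Path M (rot w) [ha, hb] [ha', hb'] τ ↔ ∃ (k : G R) (τ' τ'' : Rˣ),
      Path M w [hb, k] [ha * J * dg τ'', ha'] τ' ∧ hb' = k * J ∧ τ = τ' * τ'')

/-- Reversed rotation of a two-strand word. -/
def RrtInv : Prop :=
  ∀ (R : Type) [CommRing R] (M : Rˣ) (w : List Mv) (ha hb ha' hb' : G R) (τ : Rˣ),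
    wid w 2 = some 2 →
    (Path M (rrt w) [ha, hb] [ha', hb'] τ ↔ ∃ (y : G R) (τ' τ'' : Rˣ),
      Path M w [ha' * J, ha] [hb', y] τ' ∧ hb = y * J * dg τ'' ∧ τ = τ' * τ'')

/-- Columns. -/
def ColInv : Prop :=
  ∀ (R : Type) [CommRing R] (M : Rˣ) (r : ℤ) (ha hb ha' hb' : G R) (τ : Rˣ),
    Path M (Col r) [ha, hb] [ha', hb'] τ ↔
      (mer M hb * (mer M hb')⁻¹) ^ (-r) * hb * dg M ^ r = ha * J * dg τ ∧
      ha' = (mer M hb * (mer M hb')⁻¹) ^ (-r) * (hb' * J⁻¹) * dg M ^ r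

/-- Columns on meridians. -/
def ColMer : Prop :=
  ∀ (R : Type) [CommRing R] (M : Rˣ) (r : ℤ) (ha hb ha' hb' : G R) (τ : Rˣ),
    Path M (Col r) [ha, hb] [ha', hb'] τ →
      mer M hb = ((mer M ha)⁻¹ * mer M ha') ^ r * (mer M ha)⁻¹ *
        ((mer M ha)⁻¹ * mer M ha') ^ (-r) ∧
      mer M hb' = ((mer M ha)⁻¹ * mer M ha') ^ r * (mer M ha')⁻¹ *
        ((mer M ha)⁻¹ * mer M ha') ^ (-r)

/-- Reversed columns on meridians. -/
def RColMer : Prop :=
  ∀ (R : Type) [CommRing R] (M : Rˣ) (r : ℤ) (ha hb ha' hb' : G R) (τ : Rˣ),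
    Path M (rrt (tws (-2 * r))) [ha, hb] [ha', hb'] τ →
      mer M hb' = ((mer M ha')⁻¹ * mer M ha) ^ r * (mer M ha')⁻¹ *
        ((mer M ha')⁻¹ * mer M ha) ^ (-r) ∧
      mer M hb = ((mer M ha')⁻¹ * mer M ha) ^ r * (mer M ha)⁻¹ *
        ((mer M ha')⁻¹ * mer M ha) ^ (-r)

/-- Closure of a two-strand word. -/
def NclInv : Prop :=
  ∀ (R : Type) [CommRing R] (M : Rˣ) (w : List Mv) (τ : Rˣ), wid w 2 = some 2 →
    (Path M (Ncl w) [] [] τ ↔ ∃ (ha hb : G R) (τ' α β : Rˣ),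
      Path M w [ha, hb] [ha * dg α, hb * dg β] τ' ∧ τ = τ' * α * β)

/-- Composition of two-strand words. -/
def TwoAppend : Prop :=
  ∀ (R : Type) [CommRing R] (M : Rˣ) (w₁ w₂ : List Mv) (ha hb ha' hb' : G R) (τ : Rˣ),
    wid w₁ 2 = some 2 → wid w₂ 2 = some 2 →
    (Path M (w₁ ++ w₂) [ha, hb] [ha', hb'] τ ↔ ∃ (x y : G R) (τ₁ τ₂ : Rˣ),
      Path M w₁ [ha, hb] [x, y] τ₁ ∧ Path M w₂ [x, y] [ha', hb'] τ₂ ∧ τ = τ₁ * τ₂)

end AJM

end

section

/-!
# MP_d3fa71_gt, project Mut, block D: knot groups and paths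
-/

namespace AJM

/-! ## Labels in a group -/

/-- Labels of the strands by pairs `(x, g)` of elements of a group (see `Mut/DefsF.lean`). -/
inductive WStep {H : Type} [Group H] : Mv → List (H × H) → List (H × H) → Prop
  | cup (x g : H) (s : List (H × H)) : WStep (.cup, 0) s ((x, g) :: (x⁻¹, g) :: s)
  | cap (x g : H) (s : List (H × H)) : WStep (.cap, 0) ((x, g) :: (x⁻¹, g) :: s) s
  | pos (x g y h : H) (s : List (H × H)) :
      WStep (.pos, 0) ((x, g) :: (y, h) :: s) ((y, h) :: (y⁻¹ * x * y, y⁻¹ * g) :: s)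
  | neg (x g y h : H) (s : List (H × H)) :
      WStep (.neg, 0) ((x, g) :: (y, h) :: s) ((x * y * x⁻¹, x * h) :: (x, g) :: s)
  | sh (a : H × H) {k : Kd} {i : ℕ} {s s' : List (H × H)} :
      WStep (k, i) s s' → WStep (k, i + 1) (a :: s) (a :: s')

inductive WPath {H : Type} [Group H] : List Mv → List (H × H) → List (H × H) → Prop
  | nil (s : List (H × H)) : WPath [] s s
  | cons {m : Mv} {w : List Mv} {s s' s'' : List (H × H)} :
      WStep m s s' → WPath w s' s'' → WPath (m :: w) s s''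

/-- The pairs `(m, l)` of a word `(cup, 0) :: w` over a ring: there is a labelling with upper
triangular meridian and longitude. -/
def ESp {R : Type} [CommRing R] (w : List Mv) (e : ℤ) (m l : Rˣ) : Prop :=
  ∃ μ ν : G R, μ.1 1 0 = 0 ∧ ν.1 1 0 = 0 ∧ μ.1 0 0 = m ∧ ν.1 0 0 = l * ((m ^ e : Rˣ) : R) ∧
    WPath w [(μ, 1), (μ⁻¹, ν)] []

/-- The set of the pairs over `ℂ`. -/
def ES (w : List Mv) (e : ℤ) : Set (ℂ × ℂ) :=
  {p | ∃ m l : ℂˣ, p = ((m : ℂ), (l : ℂ)) ∧ ESp w e m l}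

/-! ## The group and the labels -/

def WMap : Prop :=
  ∀ (H H' : Type) [Group H] [Group H'] (φ : H →* H') (w : List Mv) (s s' : List (H × H)),
    WPath w s s' → WPath w (s.map (Prod.map φ φ)) (s'.map (Prod.map φ φ))

/-- The first move is `(cup, 0)`. -/
def FirstCup : Prop :=
  ∀ (w : List Mv) (e : ℤ), IsKnot w e → ∃ w₁, w = (.cup, 0) :: w₁

/-- Evaluation of the symbolic labels. -/
def WEval : Prop :=
  ∀ (H : Type) [Group H] (φ : WF →* H) (w : List Mv) (c : ℕ) (s : List (WF × WF))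
    (b : List Bool) (e : ℤ), OPath w b [] e → b.length = s.length →
    (∀ r ∈ wrel c w s, φ r = 1) → WPath w (s.map (Prod.map φ φ)) []

/-- `x` is a word in the generators of number less than `c`. -/
def Low (c : ℕ) (x : WF) : Prop :=
  ∀ (H : Type) [Group H] (f g : ℕ × Bool → H), (∀ i < c, ∀ b, f (i, b) = g (i, b)) →
    FreeGroup.lift f x = FreeGroup.lift g x

/-- Labels define homomorphisms. -/
def WLift : Prop :=
  ∀ (H : Type) [Group H] (w : List Mv) (c : ℕ) (s : List (WF × WF)) (b : List Bool) (e : ℤ)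
    (f : ℕ × Bool → H), OPath w b [] e → b.length = s.length →
    (∀ p ∈ s, Low c p.1 ∧ Low c p.2) →
    WPath w (s.map (Prod.map (FreeGroup.lift f) (FreeGroup.lift f))) [] →
    ∃ f' : ℕ × Bool → H, (∀ i < c, ∀ b, f' (i, b) = f (i, b)) ∧
      (∀ j b, (∀ i, w[j]? ≠ some (.cup, i)) → f' (c + j, b) = 1) ∧
      ∀ r ∈ wrel c w s, FreeGroup.lift f' r = 1

/-- Homomorphisms from the knot group. -/
def KGHom : Prop :=
  ∀ (H : Type) [Group H] (w : List Mv) (e : ℤ) (μ ν : H), IsKnot ((.cup, 0) :: w) e →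
    ((∃ ρ : (KG ((.cup, 0) :: w) e).G →* H, ρ (KG ((.cup, 0) :: w) e).mer = μ ∧
      ρ (KG ((.cup, 0) :: w) e).lon = ν * μ ^ (-e)) ↔ WPath w [(μ, 1), (μ⁻¹, ν)] [])

/-- The eigenvalue pairs. -/
def EigES : Prop :=
  ∀ (w : List Mv) (e : ℤ), IsKnot ((.cup, 0) :: w) e →
    AJG.EigSet (KG ((.cup, 0) :: w) e) = ES w e

/-! ## From labels to paths -/

/-- The class of a label: the meridian of the oriented strand, moved back to the base point. -/
def cls {H : Type} [Group H] (b : Bool) (x g : H) : H :=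
  if b then g⁻¹ * x * g else g⁻¹ * x⁻¹ * g

/-- Labels and orientations; the last argument lists the classes of the cups. -/
inductive XStep {H : Type} [Group H] : Mv → List (Bool × H × H) → List (Bool × H × H) →
    List H → Prop
  | cup (b : Bool) (x g : H) (s : List (Bool × H × H)) :
      XStep (.cup, 0) s ((b, x, g) :: (!b, x⁻¹, g) :: s) [cls b x g]
  | cap (b : Bool) (x g : H) (s : List (Bool × H × H)) :
      XStep (.cap, 0) ((b, x, g) :: (!b, x⁻¹, g) :: s) s []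
  | pos (b c : Bool) (x g y h : H) (s : List (Bool × H × H)) :
      XStep (.pos, 0) ((b, x, g) :: (c, y, h) :: s)
        ((c, y, h) :: (b, y⁻¹ * x * y, y⁻¹ * g) :: s) []
  | neg (b c : Bool) (x g y h : H) (s : List (Bool × H × H)) :
      XStep (.neg, 0) ((b, x, g) :: (c, y, h) :: s)
        ((c, x * y * x⁻¹, x * h) :: (b, x, g) :: s) []
  | sh (a : Bool × H × H) {k : Kd} {i : ℕ} {s s' : List (Bool × H × H)} {L : List H} :
      XStep (k, i) s s' L → XStep (k, i + 1) (a :: s) (a :: s') L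

inductive XPath {H : Type} [Group H] : List Mv → List (Bool × H × H) → List (Bool × H × H) →
    List H → Prop
  | nil (s : List (Bool × H × H)) : XPath [] s s []
  | cons {m : Mv} {w : List Mv} {s s' s'' : List (Bool × H × H)} {L L' : List H} :
      XStep m s s' L → XPath w s' s'' L' → XPath (m :: w) s s'' (L ++ L')

/-- Labels and orientations together. -/
def XofW : Prop :=
  ∀ (H : Type) [Group H] (w : List Mv) (b b' : List Bool) (s s' : List (H × H)) (e : ℤ),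
    WPath w s s' → OPath w b b' e → b.length = s.length →
    b'.length = s'.length ∧ ∃ L, XPath w (List.zip b s) (List.zip b' s') L

/-- The classes are constant along the strands. -/
def XtoC : Prop :=
  ∀ (H : Type) [Group H] (φ : H → ℕ) (w : List Mv) (s s' : List (Bool × H × H)) (L : List H),
    XPath w s s' L →
    CPath w (s.map fun a => φ (cls a.1 a.2.1 a.2.2)) (s'.map fun a => φ (cls a.1 a.2.1 a.2.2))
      (L.map φ)

/-- Each label occurs an even number of times. -/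
def CEven : Prop :=
  ∀ (w : List Mv) (s s' L : List ℕ) (x : ℕ), CPath w s s' L → Even (s.count x + s'.count x)

/-- The meridian of a strand with orientation `b` and transport `g`. -/
def mr {H : Type} [Group H] (μ : H) (b : Bool) (g : H) : H :=
  if b then g * μ * g⁻¹ else g * μ⁻¹ * g⁻¹

/-- Oriented transports. -/
inductive TStep {H : Type} [Group H] (μ : H) : Mv → List (Bool × H) → List (Bool × H) → Prop
  | cup (b : Bool) (g : H) (s : List (Bool × H)) : TStep μ (.cup, 0) s ((b, g) :: (!b, g) :: s)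
  | cap (b : Bool) (g : H) (s : List (Bool × H)) : TStep μ (.cap, 0) ((b, g) :: (!b, g) :: s) s
  | pos (b c : Bool) (g h : H) (s : List (Bool × H)) :
      TStep μ (.pos, 0) ((b, g) :: (c, h) :: s) ((c, h) :: (b, (mr μ c h)⁻¹ * g) :: s)
  | neg (b c : Bool) (g h : H) (s : List (Bool × H)) :
      TStep μ (.neg, 0) ((b, g) :: (c, h) :: s) ((c, mr μ b g * h) :: (b, g) :: s)
  | sh (a : Bool × H) {k : Kd} {i : ℕ} {s s' : List (Bool × H)} :
      TStep μ (k, i) s s' → TStep μ (k, i + 1) (a :: s) (a :: s')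

inductive TPath {H : Type} [Group H] (μ : H) : List Mv → List (Bool × H) →
    List (Bool × H) → Prop
  | nil (s : List (Bool × H)) : TPath μ [] s s
  | cons {m : Mv} {w : List Mv} {s s' s'' : List (Bool × H)} :
      TStep μ m s s' → TPath μ w s' s'' → TPath μ (m :: w) s s''

/-- Forgetting the Wirtinger generators. -/
def XtoT : Prop :=
  ∀ (H : Type) [Group H] (μ : H) (w : List Mv) (s s' : List (Bool × H × H)) (L : List H),
    XPath w s s' L → (∀ x ∈ L, x = μ) → (∀ a ∈ s, cls a.1 a.2.1 a.2.2 = μ) →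
    TPath μ w (s.map fun a => (a.1, a.2.2)) (s'.map fun a => (a.1, a.2.2))

/-- Labels of a knot diagram: meridian and longitude commute, and transports. -/
def WtoT : Prop :=
  ∀ (H : Type) [Group H] (w : List Mv) (e : ℤ) (μ ν : H), IsKnot ((.cup, 0) :: w) e →
    WPath w [(μ, 1), (μ⁻¹, ν)] [] → μ * ν = ν * μ ∧ TPath μ w [(true, 1), (false, ν)] []

/-- The frame of a strand with orientation and transport. -/
def fr {R : Type} [CommRing R] (h₀ : G R) (a : Bool × G R) : G R :=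
  if a.1 then a.2 * h₀ else a.2 * h₀ * J

/-- From transports to frames. -/
def TtoP : Prop :=
  ∀ (R : Type) [CommRing R] (M : Rˣ) (h₀ : G R) (w : List Mv) (s s' : List (Bool × G R)),
    TPath (mer M h₀) w s s' → ∃ (d : List Rˣ) (τ : Rˣ), d.length = s'.length ∧
      Path M w (s.map (fr h₀)) (scl (s'.map (fr h₀)) d) τ ∧ (τ * d.prod = 1 ∨ τ * d.prod = -1)

/-- From the pairs over a field to closed paths. -/
def EStoP : Prop :=
  ∀ (K : Type) [Field K] (w : List Mv) (e : ℤ) (m l : Kˣ), IsKnot ((.cup, 0) :: w) e →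
    (m : K) ^ 2 ≠ 1 → ESp w e m l →
    ∃ τ : Kˣ, (τ = l * m ^ e ∨ τ = -(l * m ^ e)) ∧ Path m ((.cup, 0) :: w) [] [] τ

/-! ## From paths to labels -/

/-- No closed components: every label of a new arc is a label of an end. -/
def NC (w : List Mv) : Prop := ∀ s L : List ℕ, CPath w s [] L → ∀ x ∈ L, x ∈ s

def CMap : Prop :=
  ∀ (f : ℕ → ℕ) (w : List Mv) (s s' L : List ℕ), CPath w s s' L →
    CPath w (s.map f) (s'.map f) (L.map f)

/-- Constant labels exist. -/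
def CZero : Prop :=
  ∀ (w : List Mv) (b b' : List Bool) (e : ℤ), OPath w b b' e →
    ∃ L, CPath w (b.map fun _ => 0) (b'.map fun _ => 0) L ∧ ∀ x ∈ L, x = 0

def NCTail : Prop :=
  ∀ (m : Mv) (w : List Mv) (b : List Bool) (e : ℤ), OPath (m :: w) b [] e → NC (m :: w) → NC w

def NCKnot : Prop :=
  ∀ (w : List Mv) (e : ℤ), IsKnot ((.cup, 0) :: w) e → NC w

/-- The generic labelling: each label occurs at exactly two ends, with different
orientations. -/
def GenEx : Prop :=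
  ∀ (w : List Mv) (b : List Bool) (e : ℤ), OPath w b [] e → NC w →
    ∃ s L : List ℕ, CPath w s [] L ∧ s.length = b.length ∧
      ∀ x ∈ s, (List.zip s b).count (x, true) = 1 ∧ (List.zip s b).count (x, false) = 1

/-- Right multiplication of the transports, along the components. -/
def WScale : Prop :=
  ∀ (H : Type) [Group H] (z : ℕ → H) (w : List Mv) (s s' : List (H × H)) (c c' L : List ℕ),
    WPath w s s' → CPath w c c' L → c.length = s.length →
    WPath w (List.zipWith (fun a n => (a.1, a.2 * z n)) s c)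
      (List.zipWith (fun a n => (a.1, a.2 * z n)) s' c')

/-- The transport of a frame. -/
def gf {R : Type} [CommRing R] (h₀ : G R) (b : Bool) (h : G R) : G R :=
  if b then h * h₀⁻¹ else h * J⁻¹ * h₀⁻¹

/-- The label `(x, g)` of a frame with scaling `d` and orientation `b`. -/
def lbl {R : Type} [CommRing R] (M : Rˣ) (h₀ : G R) (b : Bool) (h : G R) (d : Rˣ) : G R × G R :=
  (mer M h, gf h₀ b (h * dg d))

/-- The labels of a state. -/
def lbs {R : Type} [CommRing R] (M : Rˣ) (h₀ : G R) : List Bool → List (G R) → List Rˣ →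
    List (G R × G R)
  | b :: bs, h :: s, d :: ds => lbl M h₀ b h d :: lbs M h₀ bs s ds
  | _, _, _ => []

/-- From paths to labels, for words without closed components. -/
def PtoW : Prop :=
  ∀ (R : Type) [CommRing R] (M : Rˣ) (h₀ : G R) (w : List Mv) (b : List Bool) (e : ℤ)
    (s : List (G R)) (τ : Rˣ), OPath w b [] e → NC w → b.length = s.length →
    Path M w s [] τ → ∃ d : List Rˣ, d.length = s.length ∧ WPath w (lbs M h₀ b s d) [] ∧
      (τ * d.prod = 1 ∨ τ * d.prod = -1)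

/-- From closed paths to the pairs. -/
def PtoES : Prop :=
  ∀ (K : Type) [Field K] (w : List Mv) (e : ℤ) (m τ : Kˣ), IsKnot ((.cup, 0) :: w) e →
    Path m ((.cup, 0) :: w) [] [] τ →
    ESp w e m (τ * m ^ (-e)) ∨ ESp w e m (-(τ * m ^ (-e)))

end AJM

end

section

/-!
# MP_d3fa71_gt, project Mut, block H: GoodCap
-/

namespace AJH

theorem prf_GoodCap (hHSEnt : HSEnt) (hHSMul : HSMul) (hTameQuad : TameQuad) : GoodCap := by
  intro i g hg d N L
  by_cases hi : i ≤ L.length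
  swap
  · exact GoodX_short hTameQuad N L _ i g hi
  match hD : L.drop i with
  | [] =>
    refine GoodX_congr (GoodX_zero hTameQuad d) fun x => ?_
    beta_reduce
    rw [GoodX_long N L _ i g hi x, hD]
    rfl
  | [a] =>
    refine GoodX_congr (GoodX_zero hTameQuad d) fun x => ?_
    beta_reduce
    rw [GoodX_long N L _ i g hi x, hD]
    rfl
  | a :: b :: u =>
    have h1 : HS d (fun x => (if afe b x = afe (N - GoodX_c d 1 - a) x then (1 : K) else 0) *
        (GoodX_in (afe a x) (afe N x) * ((cz (afe N x) (afe b x))⁻¹ *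
          g (afe N x) ((L.take i ++ u).map fun φ => afe φ x)))) :=
      hHSMul _ _ _ (hHSEnt d N b (N - GoodX_c d 1 - a) a).2.2.2.2.2
        (hHSMul _ _ _ (GoodX_HS_in hHSEnt _ _)
          (hHSMul _ _ _ (hHSEnt d N b b b).2.2.2.1 (hg d N (L.take i ++ u))))
    refine GoodX_congr h1 fun x => ?_
    beta_reduce
    rw [GoodX_long N L _ i g hi x, hD]
    simp only [List.map_cons, List.map_append, GoodX_afe_sub, GoodX_afe_c]
    show _ = if afe b x = afe N x - 1 - afe a x ∧ 0 ≤ afe a x ∧ afe a x < afe N x then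
      (cz (afe N x) (afe b x))⁻¹ * g (afe N x)
        ((L.take i).map (fun φ => afe φ x) ++ u.map fun φ => afe φ x) else 0
    by_cases h2 : afe b x = afe N x - 1 - afe a x
    · rw [if_pos h2, one_mul]
      by_cases h3 : 0 ≤ afe a x ∧ afe a x < afe N x
      · rw [GoodX_in_pos h3, one_mul, if_pos ⟨h2, h3⟩]
      · rw [GoodX_in_neg h3, zero_mul, if_neg fun h => h3 h.2]
    · rw [if_neg h2, zero_mul, if_neg fun h => h2 h.1]

end AJH

end

section

/-!
# MP_d3fa71_gt, project Mut, block H: GoodCup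
-/

namespace AJH

theorem prf_GoodCup (hHSEnt : HSEnt) (hHSMul : HSMul) (hTameQuad : TameQuad) : GoodCup := by
  intro i g hg d N L
  by_cases hi : i ≤ L.length
  swap
  · exact GoodX_short hTameQuad N L _ i g hi
  let L' : List ((Fin (d + 1) → ℤ) × ℤ) := (L.take i).map GoodX_lift ++
    (GoodX_k d :: (GoodX_lift N - GoodX_c (d + 1) 1 - GoodX_k d) :: (L.drop i).map GoodX_lift)
  let G : (Fin (d + 1) → ℤ) → K := fun z =>
    GoodX_in (afe (GoodX_k d) z) (afe (GoodX_lift N) z) *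
      (cz (afe (GoodX_lift N) z) (afe (GoodX_k d) z) *
        g (afe (GoodX_lift N) z) (L'.map fun φ => afe φ z))
  have hG : HS (d + 1) G := hHSMul _ _ _ (GoodX_HS_in hHSEnt _ _)
    (hHSMul _ _ _ (hHSEnt (d + 1) (GoodX_lift N) (GoodX_k d) (GoodX_k d) (GoodX_k d)).2.2.1
      (hg (d + 1) (GoodX_lift N) L'))
  have hGe : ∀ (c : ℤ) (x : Fin d → ℤ), G (Fin.cons c x) =
      if 0 ≤ c ∧ c < afe N x then cz (afe N x) c * g (afe N x)
        ((L.take i).map (fun φ => afe φ x) ++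
          (c :: (afe N x - 1 - c) :: (L.drop i).map fun φ => afe φ x)) else 0 := by
    intro c x
    simp only [G, L', List.map_append, List.map_cons, GoodX_map_lift, GoodX_afe_sub,
      GoodX_afe_lift, GoodX_afe_k, GoodX_afe_c]
    split_ifs with h
    · rw [GoodX_in_pos h, one_mul]
    · rw [GoodX_in_neg h, zero_mul]
  refine GoodX_congr (HS.sum hG fun x => ?_) fun x => ?_
  · refine (Set.finite_Ico 0 (afe N x)).subset fun c hc => ?_
    by_contra h
    refine hc ?_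
    rw [hGe, if_neg]
    exact h
  · beta_reduce
    rw [GoodX_long N L _ i g hi x]
    simp only [hGe]
    rfl

end AJH

end

section

/-!
# MP_d3fa71_gt, project Mut, block H: GoodNeg
-/

namespace AJH

theorem prf_GoodNeg (hHSEnt : HSEnt) (hHSMul : HSMul) (hTameQuad : TameQuad) : GoodNeg := by
  intro i g hg d N L
  by_cases hi : i ≤ L.length
  swap
  · exact GoodX_short hTameQuad N L _ i g hi
  match hD : L.drop i with
  | [] =>
    refine GoodX_congr (GoodX_zero hTameQuad d) fun x => ?_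
    beta_reduce
    rw [GoodX_long N L _ i g hi x, hD]
    rfl
  | [a] =>
    refine GoodX_congr (GoodX_zero hTameQuad d) fun x => ?_
    beta_reduce
    rw [GoodX_long N L _ i g hi x, hD]
    rfl
  | a :: b :: u =>
    let L' : List ((Fin (d + 1) → ℤ) × ℤ) := (L.take i).map GoodX_lift ++
      ((GoodX_lift b + GoodX_k d) :: (GoodX_lift a - GoodX_k d) :: u.map GoodX_lift)
    let G : (Fin (d + 1) → ℤ) → K := fun z =>
      GoodX_in (afe (GoodX_lift a) z) (afe (GoodX_lift N) z) *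
      (GoodX_in (afe (GoodX_lift b) z) (afe (GoodX_lift N) z) *
      (GoodX_in (afe (GoodX_lift b + GoodX_k d) z) (afe (GoodX_lift N) z) *
      (GoodX_in (afe (GoodX_lift a - GoodX_k d) z) (afe (GoodX_lift N) z) *
      (bz (afe (GoodX_lift N) z) (afe (GoodX_lift a) z) (afe (GoodX_lift b) z)
          (afe (GoodX_k d) z) *
        g (afe (GoodX_lift N) z) (L'.map fun φ => afe φ z)))))
    have hG : HS (d + 1) G := hHSMul _ _ _ (GoodX_HS_in hHSEnt _ _)
      (hHSMul _ _ _ (GoodX_HS_in hHSEnt _ _) (hHSMul _ _ _ (GoodX_HS_in hHSEnt _ _)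
      (hHSMul _ _ _ (GoodX_HS_in hHSEnt _ _)
      (hHSMul _ _ _ (hHSEnt (d + 1) (GoodX_lift N) (GoodX_lift a) (GoodX_lift b)
        (GoodX_k d)).1 (hg (d + 1) (GoodX_lift N) L')))))
    have hGe : ∀ (c : ℤ) (x : Fin d → ℤ), G (Fin.cons c x) =
        if (0 ≤ afe a x ∧ afe a x < afe N x) ∧ (0 ≤ afe b x ∧ afe b x < afe N x) ∧
          (0 ≤ afe b x + c ∧ afe b x + c < afe N x) ∧ (0 ≤ afe a x - c ∧ afe a x - c < afe N x)
        then bz (afe N x) (afe a x) (afe b x) c * g (afe N x)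
          ((L.take i).map (fun φ => afe φ x) ++
            ((afe b x + c) :: (afe a x - c) :: u.map fun φ => afe φ x)) else 0 := by
      intro c x
      simp only [G, L', List.map_append, List.map_cons, GoodX_map_lift, GoodX_afe_sub,
        GoodX_afe_add, GoodX_afe_lift, GoodX_afe_k]
      by_cases h1 : 0 ≤ afe a x ∧ afe a x < afe N x
      swap
      · rw [GoodX_in_neg h1, zero_mul, if_neg fun h => h1 h.1]
      by_cases h2 : 0 ≤ afe b x ∧ afe b x < afe N x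
      swap
      · rw [GoodX_in_neg h2, zero_mul, mul_zero, if_neg fun h => h2 h.2.1]
      by_cases h3 : 0 ≤ afe b x + c ∧ afe b x + c < afe N x
      swap
      · rw [GoodX_in_neg h3, zero_mul, mul_zero, mul_zero, if_neg fun h => h3 h.2.2.1]
      by_cases h4 : 0 ≤ afe a x - c ∧ afe a x - c < afe N x
      swap
      · rw [GoodX_in_neg h4, zero_mul, mul_zero, mul_zero, mul_zero, if_neg fun h => h4 h.2.2.2]
      rw [GoodX_in_pos h1, GoodX_in_pos h2, GoodX_in_pos h3, GoodX_in_pos h4,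
        if_pos ⟨h1, h2, h3, h4⟩, one_mul, one_mul, one_mul, one_mul]
    refine GoodX_congr (HS.sum hG fun x => ?_) fun x => ?_
    · refine (Set.finite_Ico (-afe b x) (afe N x - afe b x)).subset fun c hc => ?_
      by_contra h
      refine hc ?_
      rw [hGe, if_neg]
      rintro ⟨-, -, h1, -⟩
      exact h ⟨by linarith [h1.1, h1.2], by linarith [h1.1, h1.2]⟩
    · beta_reduce
      rw [GoodX_long N L _ i g hi x, hD]
      simp only [hGe]
      rfl

end AJH

end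

section

/-!
# MP_d3fa71_gt, project Mut, block H: GoodPos
-/

namespace AJH

theorem prf_GoodPos (hHSEnt : HSEnt) (hHSMul : HSMul) (hTameQuad : TameQuad) : GoodPos := by
  intro i g hg d N L
  by_cases hi : i ≤ L.length
  swap
  · exact GoodX_short hTameQuad N L _ i g hi
  match hD : L.drop i with
  | [] =>
    refine GoodX_congr (GoodX_zero hTameQuad d) fun x => ?_
    beta_reduce
    rw [GoodX_long N L _ i g hi x, hD]
    rfl
  | [a] =>
    refine GoodX_congr (GoodX_zero hTameQuad d) fun x => ?_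
    beta_reduce
    rw [GoodX_long N L _ i g hi x, hD]
    rfl
  | a :: b :: u =>
    let L' : List ((Fin (d + 1) → ℤ) × ℤ) := (L.take i).map GoodX_lift ++
      ((GoodX_lift b - GoodX_k d) :: (GoodX_lift a + GoodX_k d) :: u.map GoodX_lift)
    let G : (Fin (d + 1) → ℤ) → K := fun z =>
      GoodX_in (afe (GoodX_lift a) z) (afe (GoodX_lift N) z) *
      (GoodX_in (afe (GoodX_lift b) z) (afe (GoodX_lift N) z) *
      (GoodX_in (afe (GoodX_lift b - GoodX_k d) z) (afe (GoodX_lift N) z) *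
      (GoodX_in (afe (GoodX_lift a + GoodX_k d) z) (afe (GoodX_lift N) z) *
      (bi (afe (GoodX_lift N) z) (afe (GoodX_lift a) z) (afe (GoodX_lift b) z)
          (afe (GoodX_k d) z) *
        g (afe (GoodX_lift N) z) (L'.map fun φ => afe φ z)))))
    have hG : HS (d + 1) G := hHSMul _ _ _ (GoodX_HS_in hHSEnt _ _)
      (hHSMul _ _ _ (GoodX_HS_in hHSEnt _ _) (hHSMul _ _ _ (GoodX_HS_in hHSEnt _ _)
      (hHSMul _ _ _ (GoodX_HS_in hHSEnt _ _)
      (hHSMul _ _ _ (hHSEnt (d + 1) (GoodX_lift N) (GoodX_lift a) (GoodX_lift b)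
        (GoodX_k d)).2.1 (hg (d + 1) (GoodX_lift N) L')))))
    have hGe : ∀ (c : ℤ) (x : Fin d → ℤ), G (Fin.cons c x) =
        if (0 ≤ afe a x ∧ afe a x < afe N x) ∧ (0 ≤ afe b x ∧ afe b x < afe N x) ∧
          (0 ≤ afe b x - c ∧ afe b x - c < afe N x) ∧ (0 ≤ afe a x + c ∧ afe a x + c < afe N x)
        then bi (afe N x) (afe a x) (afe b x) c * g (afe N x)
          ((L.take i).map (fun φ => afe φ x) ++
            ((afe b x - c) :: (afe a x + c) :: u.map fun φ => afe φ x)) else 0 := by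
      intro c x
      simp only [G, L', List.map_append, List.map_cons, GoodX_map_lift, GoodX_afe_sub,
        GoodX_afe_add, GoodX_afe_lift, GoodX_afe_k]
      by_cases h1 : 0 ≤ afe a x ∧ afe a x < afe N x
      swap
      · rw [GoodX_in_neg h1, zero_mul, if_neg fun h => h1 h.1]
      by_cases h2 : 0 ≤ afe b x ∧ afe b x < afe N x
      swap
      · rw [GoodX_in_neg h2, zero_mul, mul_zero, if_neg fun h => h2 h.2.1]
      by_cases h3 : 0 ≤ afe b x - c ∧ afe b x - c < afe N x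
      swap
      · rw [GoodX_in_neg h3, zero_mul, mul_zero, mul_zero, if_neg fun h => h3 h.2.2.1]
      by_cases h4 : 0 ≤ afe a x + c ∧ afe a x + c < afe N x
      swap
      · rw [GoodX_in_neg h4, zero_mul, mul_zero, mul_zero, mul_zero, if_neg fun h => h4 h.2.2.2]
      rw [GoodX_in_pos h1, GoodX_in_pos h2, GoodX_in_pos h3, GoodX_in_pos h4,
        if_pos ⟨h1, h2, h3, h4⟩, one_mul, one_mul, one_mul, one_mul]
    refine GoodX_congr (HS.sum hG fun x => ?_) fun x => ?_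
    · refine (Set.finite_Ico (afe b x - afe N x + 1) (afe b x + 1)).subset fun c hc => ?_
      by_contra h
      refine hc ?_
      rw [hGe, if_neg]
      rintro ⟨-, -, h1, -⟩
      exact h ⟨by linarith [h1.1, h1.2], by linarith [h1.1, h1.2]⟩
    · beta_reduce
      rw [GoodX_long N L _ i g hi x, hD]
      simp only [hGe]
      rfl

end AJH

end
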