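import Pool.Agent.Work.MP_d3fa71_gt.Mut.Bd.B20
import Pool.Agent.Work.MP_d3fa71_gt.Mut.Bd.B05
import Pool.Agent.Work.MP_d3fa71_gt.Mut.Bd.B01

/-! Bundle of small proof modules (one section per former module). -/

section

/-!
# MP_d3fa71_gt, project Mut, block H: GoodVz
-/

namespace AJH

theorem prf_GoodVz (hGoodCup : GoodCup) (hGoodCap : GoodCap) (hGoodNeg : GoodNeg)
    (hGoodPos : GoodPos) (hHSEnt : HSEnt) (hTameQuad : TameQuad) : GoodVz := by
  intro w
  induction w with
  | nil =>
    intro d N L
    cases L with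
    | nil =>
      refine GoodX_congr (GoodX_HS_in hHSEnt (GoodX_c d 0) N) fun x => ?_
      rw [GoodX_afe_c, GoodX_in]
      simp only [List.map_nil, Vz, true_and, le_refl]
      by_cases h : 0 < afe N x
      · rw [if_pos h, if_pos (by omega)]
      · rw [if_neg h, if_neg (by omega)]
    | cons a L =>
      refine GoodX_congr (GoodX_zero hTameQuad d) fun x => ?_
      simp [Vz]
  | cons m w ih =>
    obtain ⟨k, i⟩ := m
    cases k with
    | cup => exact hGoodCup i (Vz w) ih
    | cap => exact hGoodCap i (Vz w) ih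
    | pos => exact hGoodPos i (Vz w) ih
    | neg => exact hGoodNeg i (Vz w) ih

end AJH

end

section

/-!
# MP_d3fa71_gt, project Mut: item CEven
-/

namespace AJM

theorem L_CEven_step {m : Mv} {s s1 L : List ℕ} (h : CStep m s s1 L) (x : ℕ) :
    Even (s.count x + s1.count x) := by
  induction h with
  | cup a s =>
    simp only [List.count_cons]
    rw [show List.count x s + (List.count x s + (if (a == x) = true then 1 else 0) +
      (if (a == x) = true then 1 else 0)) = 2 * (List.count x s +
      (if (a == x) = true then 1 else 0)) by ring]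
    exact even_two_mul _
  | cap a s =>
    simp only [List.count_cons]
    rw [show List.count x s + (if (a == x) = true then 1 else 0) +
      (if (a == x) = true then 1 else 0) + List.count x s = 2 * (List.count x s +
      (if (a == x) = true then 1 else 0)) by ring]
    exact even_two_mul _
  | pos a b s =>
    simp only [List.count_cons]
    rw [show List.count x s + (if (b == x) = true then 1 else 0) +
      (if (a == x) = true then 1 else 0) + (List.count x s + (if (a == x) = true then 1 else 0) +
      (if (b == x) = true then 1 else 0)) = 2 * (List.count x s +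
      (if (a == x) = true then 1 else 0) + (if (b == x) = true then 1 else 0)) by ring]
    exact even_two_mul _
  | neg a b s =>
    simp only [List.count_cons]
    rw [show List.count x s + (if (b == x) = true then 1 else 0) +
      (if (a == x) = true then 1 else 0) + (List.count x s + (if (a == x) = true then 1 else 0) +
      (if (b == x) = true then 1 else 0)) = 2 * (List.count x s +
      (if (a == x) = true then 1 else 0) + (if (b == x) = true then 1 else 0)) by ring]
    exact even_two_mul _
  | @sh y k i s s' L _ ih =>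
    simp only [List.count_cons]
    rw [show List.count x s + (if (y == x) = true then 1 else 0) + (List.count x s' +
      (if (y == x) = true then 1 else 0)) = List.count x s + List.count x s' +
      2 * (if (y == x) = true then 1 else 0) by ring]
    exact ih.add (even_two_mul _)

theorem prf_CEven : CEven := by
  intro w s s' L x h
  induction h with
  | nil s =>
    rw [← two_mul]
    exact even_two_mul _
  | @cons m w s s' s'' L L' h1 _ ih =>
    have h2 := L_CEven_step h1 x
    rw [Nat.even_add] at h2 ih ⊢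
    rw [h2, ih]

end AJM

end

section

set_option autoImplicit false

/-!
# MP_d3fa71_gt, project Mut, block D: maps of labels
-/

namespace AJM

theorem L_CMap_step (f : ℕ → ℕ) {m : Mv} {s s' L : List ℕ} (h : CStep m s s' L) :
    CStep m (s.map f) (s'.map f) (L.map f) := by
  induction h with
  | cup a s => exact CStep.cup (f a) (s.map f)
  | cap a s => exact CStep.cap (f a) (s.map f)
  | pos a b s => exact CStep.pos (f a) (f b) (s.map f)
  | neg a b s => exact CStep.neg (f a) (f b) (s.map f)
  | sh x _ ih => exact CStep.sh (f x) ih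

theorem prf_CMap : CMap := by
  intro f w s s' L h
  induction h with
  | nil s => exact CPath.nil _
  | cons hm _ ih =>
    rw [List.map_append]
    exact CPath.cons (L_CMap_step f hm) ih

end AJM

end

section

/-!
# MP_d3fa71_gt, project Mut, block D: constant labels exist
-/

set_option autoImplicit false

namespace AJM

theorem L_CZero_step {m : Mv} {b b' : List Bool} {e : ℤ} (h : OStep m b b' e) :
    ∃ L, CStep m (b.map fun _ => 0) (b'.map fun _ => 0) L ∧ ∀ x ∈ L, x = 0 := by
  induction h with
  | cup b s => exact ⟨[0], CStep.cup 0 _, by simp⟩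
  | cap b s => exact ⟨[], CStep.cap 0 _, by simp⟩
  | pos a b s => exact ⟨[], CStep.pos 0 0 _, by simp⟩
  | neg a b s => exact ⟨[], CStep.neg 0 0 _, by simp⟩
  | sh x h ih =>
    obtain ⟨L, h1, h2⟩ := ih
    exact ⟨L, CStep.sh 0 h1, h2⟩

theorem prf_CZero : CZero := by
  intro w b b' e h
  induction h with
  | nil s => exact ⟨[], CPath.nil _, by simp⟩
  | cons h1 h2 ih =>
    obtain ⟨L1, hL1, hz1⟩ := L_CZero_step h1
    obtain ⟨L2, hL2, hz2⟩ := ih
    refine ⟨L1 ++ L2, CPath.cons hL1 hL2, fun x hx => ?_⟩
    rcases List.mem_append.1 hx with hx | hx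
    · exact hz1 x hx
    · exact hz2 x hx

end AJM

end

section

/-!
# MP_d3fa71_gt, project Mut, block D: from the pairs over a field to closed paths
-/

namespace AJM

section
variable {K : Type} [Field K]

/-- the unipotent matrix -/
def L_EStoP_up (y : K) : G K := ⟨!![1, y; 0, 1], by simp [Matrix.det_fin_two_of]⟩

theorem L_EStoP_mul_up (x : G K) (y : K) (h10 : x.1 1 0 = 0) (u : Kˣ) (h00 : x.1 0 0 = u)
    (h01 : (u : K) * y + x.1 0 1 = y * ((u⁻¹ : Kˣ) : K)) :
    x * L_EStoP_up y = L_EStoP_up y * dg u := by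
  have h11 : x.1 1 1 = ((u⁻¹ : Kˣ) : K) := by
    have hd := G_det x
    rw [h10, mul_zero, sub_zero, h00] at hd
    rw [Units.val_inv_eq_inv_val]
    exact (eq_inv_of_mul_eq_one_right hd)
  ext
  · rw [G_mul00, G_mul00, h00]
    simp [L_EStoP_up]
  · rw [G_mul01, G_mul01, h00]
    simp only [L_EStoP_up, Matrix.of_apply, Matrix.cons_val', Matrix.cons_val_zero,
      Matrix.cons_val_one, dg01, dg11]
    simpa using h01
  · rw [G_mul10, G_mul10, h10]
    simp [L_EStoP_up]
  · rw [G_mul11, G_mul11, h10, h11]
    simp [L_EStoP_up]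

end

theorem prf_EStoP (hWtoT : WtoT) (hTtoP : TtoP) (hPathScale : PathScale) : EStoP := by
  intro K _ w e m l hknot hm hES
  obtain ⟨μ, ν, hμ10, hν10, hμ00, hν00, hW⟩ := hES
  obtain ⟨hcomm, hT⟩ := hWtoT (G K) w e μ ν hknot hW
  set l' : Kˣ := l * m ^ e with hl'
  have hν00' : ν.1 0 0 = (l' : K) := by rw [hν00, hl', Units.val_mul]
  have hμ11 : μ.1 1 1 = ((m⁻¹ : Kˣ) : K) := by
    have hd := G_det μ
    rw [hμ10, mul_zero, sub_zero, hμ00] at hd
    rw [Units.val_inv_eq_inv_val]
    exact (eq_inv_of_mul_eq_one_right hd)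
  have hν11 : ν.1 1 1 = ((l'⁻¹ : Kˣ) : K) := by
    have hd := G_det ν
    rw [hν10, mul_zero, sub_zero, hν00'] at hd
    rw [Units.val_inv_eq_inv_val]
    exact (eq_inv_of_mul_eq_one_right hd)
  have hmm : ((m⁻¹ : Kˣ) : K) - m ≠ 0 := by
    intro h0
    apply hm
    have h1 : (m : K) * ((m⁻¹ : Kˣ) : K) = 1 := by simp
    have h2 : ((m⁻¹ : Kˣ) : K) = m := sub_eq_zero.1 h0
    rw [h2] at h1
    rw [pow_two]
    exact h1
  set y : K := μ.1 0 1 / (((m⁻¹ : Kˣ) : K) - m) with hy
  have hy' : y * (((m⁻¹ : Kˣ) : K) - m) = μ.1 0 1 := div_mul_cancel₀ _ hmm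
  have hμh : μ * L_EStoP_up y = L_EStoP_up y * dg m :=
    L_EStoP_mul_up μ y hμ10 m hμ00 (by linear_combination -hy')
  have hνh : ν * L_EStoP_up y = L_EStoP_up y * dg l' := by
    refine L_EStoP_mul_up ν y hν10 l' hν00' ?_
    have h3 := congrArg (fun z : G K => z.1 0 1) hcomm
    simp only [G_mul01, hμ00, hν00', hμ11, hν11] at h3
    have h4 : (((m⁻¹ : Kˣ) : K) - m) * ((l' : K) * y + ν.1 0 1 - y * ((l'⁻¹ : Kˣ) : K)) = 0 := by
      linear_combination -h3 + ((l' : K) - ((l'⁻¹ : Kˣ) : K)) * hy'
    exact sub_eq_zero.1 ((mul_eq_zero.1 h4).resolve_left hmm)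
  have hmer : mer m (L_EStoP_up y) = μ := by
    unfold mer
    rw [← hμh]
    group
  rw [← hmer] at hT
  obtain ⟨d, τ₀, hd, hP, hτ₀⟩ := hTtoP K m (L_EStoP_up y) w _ _ hT
  have hd0 : d = [] := List.length_eq_zero_iff.1 (by simpa using hd)
  subst hd0
  obtain ⟨d', τ', hd', hP', hτ'⟩ := hPathScale K m w _ _ τ₀ [1, l'] hP (by simp)
  have hd0' : d' = [] := List.length_eq_zero_iff.1 (by simpa [scl] using hd')
  subst hd0'
  have hs : scl ([(true, (1 : G K)), (false, ν)].map (fr (L_EStoP_up y))) [1, l'] =
      [L_EStoP_up y, L_EStoP_up y * J] := by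
    simp only [List.map_cons, List.map_nil, scl, List.zipWith_cons_cons, List.zipWith_nil_left,
      fr, if_true, one_mul, dg_one, mul_one]
    have h5 : ν * L_EStoP_up y * J * dg l' = L_EStoP_up y * J := by
      rw [hνh, mul_assoc, mul_assoc, J_dg, ← mul_assoc (dg l'), ← dg_mul, mul_inv_cancel,
        dg_one, one_mul]
    simp [h5]
  rw [hs] at hP'
  refine ⟨1 * τ', ?_, Path.cons (Step.cup (L_EStoP_up y) []) hP'⟩
  simp only [List.prod_nil, mul_one, List.prod_cons, one_mul] at hτ' hτ₀ ⊢
  rw [hτ']
  rcases hτ₀ with h | h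
  · left; rw [h, one_mul]
  · right; rw [h, neg_mul, one_mul]

end AJM

end

section

namespace AJM

/-- Each label occurs at exactly two ends, with different orientations. -/
def L_GenEx_Ok (Z : List (ℕ × Bool)) : Prop := ∀ z ∈ Z, ∀ o, Z.count (z.1, o) = 1

theorem L_GenEx_O {k : Kd} : ∀ (i : ℕ) (b b1 : List Bool) (e : ℤ), OStep (k, i) b b1 e →
    ∃ p t t1 : List Bool, p.length = i ∧ b = p ++ t ∧ b1 = p ++ t1 ∧ OStep (k, 0) t t1 e := by
  intro i
  induction i with
  | zero =>
    intro b b1 e h
    exact ⟨[], b, b1, rfl, rfl, rfl, h⟩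
  | succ i ih =>
    intro b b1 e h
    cases h with
    | sh x h' =>
      obtain ⟨p, t, t1, hp, h1, h2, h3⟩ := ih _ _ _ h'
      exact ⟨x :: p, t, t1, by simp [hp], by simp [h1], by simp [h2], h3⟩

theorem L_GenEx_C {k : Kd} (p : List ℕ) {t t1 L : List ℕ} (h : CStep (k, 0) t t1 L) :
    CStep (k, p.length) (p ++ t) (p ++ t1) L := by
  induction p with
  | nil => simpa using h
  | cons x p ih => exact CStep.sh x ih

theorem L_GenEx_count_zero {A : List (ℕ × Bool)} {n : ℕ} (h : n ∉ A.map Prod.fst) (o : Bool) :
    A.count (n, o) = 0 := by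
  rw [List.count_eq_zero]
  intro hm
  exact h (List.mem_map.2 ⟨(n, o), hm, rfl⟩)

theorem L_GenEx_cap {A B : List (ℕ × Bool)} {N : ℕ} (β : Bool) (h : L_GenEx_Ok (A ++ B))
    (hA : N ∉ A.map Prod.fst) (hB : N ∉ B.map Prod.fst) :
    L_GenEx_Ok (A ++ (N, β) :: (N, !β) :: B) := by
  have key : ∀ n o, (A ++ (N, β) :: (N, !β) :: B).count (n, o) =
      (A ++ B).count (n, o) + if n = N then 1 else 0 := by
    intro n o
    simp only [List.count_append, List.count_cons]
    by_cases hn : n = N
    · subst hn
      cases β <;> cases o <;> simp <;> omega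
    · have h1 : ((N, β) == (n, o)) = false := by
        simp only [beq_eq_false_iff_ne, ne_eq, Prod.mk.injEq, not_and]
        intro h2
        exact absurd h2.symm hn
      have h2 : ((N, !β) == (n, o)) = false := by
        simp only [beq_eq_false_iff_ne, ne_eq, Prod.mk.injEq, not_and]
        intro h2
        exact absurd h2.symm hn
      simp [h1, h2, hn]
  intro z hz o
  rw [key]
  by_cases hn : z.1 = N
  · rw [if_pos hn, hn, List.count_append, L_GenEx_count_zero hA, L_GenEx_count_zero hB]
  · rw [if_neg hn, add_zero]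
    apply h
    rw [List.mem_append] at hz ⊢
    rcases hz with hz | hz
    · exact Or.inl hz
    · rw [List.mem_cons, List.mem_cons] at hz
      rcases hz with hz | hz | hz
      · exact absurd (by rw [hz]) hn
      · exact absurd (by rw [hz]) hn
      · exact Or.inr hz

theorem L_GenEx_cross {A B : List (ℕ × Bool)} {z1 z2 : ℕ × Bool}
    (h : L_GenEx_Ok (A ++ z1 :: z2 :: B)) : L_GenEx_Ok (A ++ z2 :: z1 :: B) := by
  have hp : (A ++ z2 :: z1 :: B).Perm (A ++ z1 :: z2 :: B) :=
    List.Perm.append_left A (List.Perm.swap z1 z2 B)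
  intro z hz o
  rw [hp.count_eq]
  exact h z (hp.mem_iff.1 hz) o

theorem L_GenEx_map_ne {x y n : ℕ} (hx : n ≠ x) (hy : n ≠ y) (o : Bool)
    (A : List (ℕ × Bool)) :
    (A.map (Prod.map (fun m => if m = x then y else m) id)).count (n, o) = A.count (n, o) := by
  induction A with
  | nil => rfl
  | cons z A ih =>
    rw [List.map_cons, List.count_cons, List.count_cons, ih]
    congr 1
    obtain ⟨m, c⟩ := z
    simp only [Prod.map_apply, id_eq, beq_iff_eq, Prod.mk.injEq]
    by_cases hm : m = x
    · subst hm
      rw [if_pos rfl, if_neg (fun h => hy h.1.symm), if_neg (fun h => hx h.1.symm)]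
    · rw [if_neg hm]

theorem L_GenEx_map_y {x y : ℕ} (hxy : x ≠ y) (o : Bool) (A : List (ℕ × Bool)) :
    (A.map (Prod.map (fun m => if m = x then y else m) id)).count (y, o) =
      A.count (x, o) + A.count (y, o) := by
  induction A with
  | nil => rfl
  | cons z A ih =>
    rw [List.map_cons, List.count_cons, List.count_cons, List.count_cons, ih]
    obtain ⟨m, c⟩ := z
    simp only [Prod.map_apply, id_eq, beq_iff_eq, Prod.mk.injEq]
    by_cases hm : m = x
    · subst hm
      simp only [true_and, if_true, hxy, false_and, if_false]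
      omega
    · simp only [hm, false_and, if_false]
      omega

/-- The labelling of the strands, as a list of pairs. -/
theorem L_GenEx_main (hNCTail : NCTail) (hCMap : CMap) :
    ∀ (w : List Mv) (b : List Bool) (e : ℤ), OPath w b [] e → NC w →
    ∃ (Z : List (ℕ × Bool)) (L : List ℕ), Z.map Prod.snd = b ∧
      CPath w (Z.map Prod.fst) [] L ∧ L_GenEx_Ok Z := by
  intro w
  induction w with
  | nil =>
    intro b e hO _
    cases hO
    exact ⟨[], [], rfl, CPath.nil _, fun z hz => absurd hz (by simp)⟩
  | cons m w ih =>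
    intro b e hO hNC
    have hNC' := hNCTail m w b e hO hNC
    cases hO with
    | cons hs hp =>
    obtain ⟨Z1, L1, hZ1, hC1, hok⟩ := ih _ _ hp hNC'
    obtain ⟨k, i⟩ := m
    obtain ⟨p, t, t1, hpi, hb, hb1, hst⟩ := L_GenEx_O i _ _ _ hs
    rw [hb1, List.map_eq_append_iff] at hZ1
    obtain ⟨A, B1, hAB, hA, hB1⟩ := hZ1
    subst hAB
    have hlen : (A.map Prod.fst).length = i := by
      rw [List.length_map, ← hpi, ← hA, List.length_map]
    cases hst with
    | cup β q =>
      rw [List.map_eq_cons_iff] at hB1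
      obtain ⟨⟨x, β'⟩, B2, hB2, hβ', hB3⟩ := hB1
      rw [List.map_eq_cons_iff] at hB3
      obtain ⟨⟨y, β''⟩, B, hB4, hβ'', hB⟩ := hB3
      simp only at hβ' hβ''
      subst hβ' hβ'' hB4 hB2
      rw [List.map_append, List.map_cons, List.map_cons] at hC1
      simp only at hC1
      -- counts
      have hcx : ∀ o, A.count (x, o) + B.count (x, o) +
          ((if β' = o then 1 else 0) + (if y = x ∧ (!β') = o then 1 else 0)) = 1 := by
        intro o
        have := hok (x, β') (by simp) o
        simp only [List.count_append, List.count_cons, beq_iff_eq, Prod.mk.injEq,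
          true_and] at this
        omega
      have hcy : ∀ o, A.count (y, o) + B.count (y, o) +
          ((if x = y ∧ β' = o then 1 else 0) + (if (!β') = o then 1 else 0)) = 1 := by
        intro o
        have := hok (y, !β') (by simp) o
        simp only [List.count_append, List.count_cons, beq_iff_eq, Prod.mk.injEq,
          true_and] at this
        omega
      by_cases hxy : x = y
      · exfalso
        subst hxy
        have hz : ∀ o, A.count (x, o) = 0 ∧ B.count (x, o) = 0 := by
          intro o
          have := hcx o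
          cases β' <;> cases o <;> simp at this <;> omega
        have hn : ∀ n ∈ A.map Prod.fst ++ B.map Prod.fst, n ≠ x := by
          intro n hn hnx
          subst hnx
          rw [List.mem_append, List.mem_map, List.mem_map] at hn
          rcases hn with ⟨z, hz1, hz2⟩ | ⟨z, hz1, hz2⟩
          · have := (hz z.2).1
            rw [List.count_eq_zero] at this
            exact this (by rw [← hz2]; exact hz1)
          · have := (hz z.2).2
            rw [List.count_eq_zero] at this
            exact this (by rw [← hz2]; exact hz1)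
        have hm := hCMap (fun n => if n = x then 1 else 0) _ _ _ _ hC1
        rw [List.map_append, List.map_cons, List.map_cons] at hm
        simp only [if_true, List.map_nil] at hm
        have hstep := L_GenEx_C ((A.map Prod.fst).map (fun n => if n = x then 1 else 0))
          (CStep.cup 1 ((B.map Prod.fst).map (fun n => if n = x then 1 else 0)))
        rw [List.length_map, hlen] at hstep
        have hpath := CPath.cons hstep hm
        have h1 := hNC _ _ hpath 1 (by simp)
        rw [List.mem_append, List.mem_map, List.mem_map] at h1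
        rcases h1 with ⟨n, hn1, hn2⟩ | ⟨n, hn1, hn2⟩
        · rw [if_neg (hn n (List.mem_append.2 (Or.inl hn1)))] at hn2
          exact absurd hn2 (by norm_num)
        · rw [if_neg (hn n (List.mem_append.2 (Or.inr hn1)))] at hn2
          exact absurd hn2 (by norm_num)
      · have hm := hCMap (fun n => if n = x then y else n) _ _ _ _ hC1
        rw [List.map_append, List.map_cons, List.map_cons] at hm
        simp only [if_true, if_neg (Ne.symm hxy), List.map_nil] at hm
        have hstep := L_GenEx_C ((A.map Prod.fst).map (fun n => if n = x then y else n))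
          (CStep.cup y ((B.map Prod.fst).map (fun n => if n = x then y else n)))
        rw [List.length_map, hlen] at hstep
        refine ⟨(A ++ B).map (Prod.map (fun n => if n = x then y else n) id),
          [y] ++ L1.map (fun n => if n = x then y else n), ?_, ?_, ?_⟩
        · rw [hb, List.map_map, List.map_append, ← hA, ← hB]
          rfl
        · have hpath := CPath.cons hstep hm
          have he : (List.map (Prod.map (fun n => if n = x then y else n) id) (A ++ B)).map
              Prod.fst = (A.map Prod.fst).map (fun n => if n = x then y else n) ++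
                (B.map Prod.fst).map (fun n => if n = x then y else n) := by
            rw [List.map_map, List.map_append, List.map_map, List.map_map]
            rfl
          rw [he]
          exact hpath
        · intro z hz o
          rw [List.mem_map] at hz
          obtain ⟨z', hz', rfl⟩ := hz
          by_cases h1 : (Prod.map (fun n => if n = x then y else n) id z').1 = y
          · rw [h1, L_GenEx_map_y hxy, List.count_append, List.count_append]
            have h2 := hcx o
            have h3 := hcy o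
            have hyx : ¬ y = x := fun h => hxy h.symm
            simp only [hyx, hxy, false_and, if_false] at h2 h3
            cases β' <;> cases o <;> simp at h2 h3 ⊢ <;> omega
          · have h4 : z'.1 ≠ x := by
              intro h5
              apply h1
              simp [h5]
            have h5 : (Prod.map (fun n => if n = x then y else n) id z').1 = z'.1 := by
              simp [h4]
            rw [h5] at h1 ⊢
            rw [L_GenEx_map_ne h4 h1]
            have h6 := hok z' (by
              rw [List.mem_append] at hz' ⊢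
              rcases hz' with hz' | hz'
              · exact Or.inl hz'
              · exact Or.inr (List.mem_cons_of_mem _ (List.mem_cons_of_mem _ hz'))) o
            simp only [List.count_append, List.count_cons, beq_iff_eq, Prod.mk.injEq] at h6 ⊢
            rw [if_neg (fun h => h1 h.1.symm), if_neg (fun h => h4 h.1.symm)] at h6
            omega
    | cap β q =>
      obtain ⟨N, hN⟩ := Infinite.exists_notMem_finset ((A ++ B1).map Prod.fst).toFinset
      rw [List.mem_toFinset, List.map_append, List.mem_append, not_or] at hN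
      refine ⟨A ++ (N, β) :: (N, !β) :: B1, [] ++ L1, ?_, ?_, L_GenEx_cap β hok hN.1 hN.2⟩
      · rw [hb, List.map_append, List.map_cons, List.map_cons, hA, hB1]
      · have hstep := L_GenEx_C (A.map Prod.fst) (CStep.cap N (B1.map Prod.fst))
        rw [hlen] at hstep
        rw [List.map_append] at hC1
        rw [List.map_append, List.map_cons, List.map_cons]
        exact CPath.cons hstep hC1
    | pos x y q =>
      rw [List.map_eq_cons_iff] at hB1
      obtain ⟨⟨u, y'⟩, B2, hB2, hy', hB3⟩ := hB1
      rw [List.map_eq_cons_iff] at hB3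
      obtain ⟨⟨v, x'⟩, B, hB4, hx', hB⟩ := hB3
      simp only at hy' hx'
      subst hy' hx' hB4 hB2
      refine ⟨A ++ (v, x') :: (u, y') :: B, [] ++ L1, ?_, ?_, L_GenEx_cross hok⟩
      · rw [hb, List.map_append, List.map_cons, List.map_cons, hA, hB]
      · have hstep := L_GenEx_C (A.map Prod.fst) (CStep.pos v u (B.map Prod.fst))
        rw [hlen] at hstep
        rw [List.map_append, List.map_cons, List.map_cons] at hC1
        rw [List.map_append, List.map_cons, List.map_cons]
        exact CPath.cons hstep hC1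
    | neg x y q =>
      rw [List.map_eq_cons_iff] at hB1
      obtain ⟨⟨u, y'⟩, B2, hB2, hy', hB3⟩ := hB1
      rw [List.map_eq_cons_iff] at hB3
      obtain ⟨⟨v, x'⟩, B, hB4, hx', hB⟩ := hB3
      simp only at hy' hx'
      subst hy' hx' hB4 hB2
      refine ⟨A ++ (v, x') :: (u, y') :: B, [] ++ L1, ?_, ?_, L_GenEx_cross hok⟩
      · rw [hb, List.map_append, List.map_cons, List.map_cons, hA, hB]
      · have hstep := L_GenEx_C (A.map Prod.fst) (CStep.neg v u (B.map Prod.fst))
        rw [hlen] at hstep
        rw [List.map_append, List.map_cons, List.map_cons] at hC1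
        rw [List.map_append, List.map_cons, List.map_cons]
        exact CPath.cons hstep hC1

theorem prf_GenEx (hNCTail : NCTail) (hCMap : CMap) (hCZero : CZero) : GenEx := by
  intro w b e hO hNC
  have _ := hCZero
  obtain ⟨Z, L, hZ, hC, hok⟩ := L_GenEx_main hNCTail hCMap w b e hO hNC
  refine ⟨Z.map Prod.fst, L, hC, by rw [← hZ, List.length_map, List.length_map], ?_⟩
  have hzip : List.zip (Z.map Prod.fst) b = Z := by
    rw [← hZ, List.zip_map', List.map_id']
  intro x hx
  rw [hzip]
  obtain ⟨z, hz, rfl⟩ := List.mem_map.1 hx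
  exact ⟨hok z hz true, hok z hz false⟩

end AJM

end

section

/-!
# MP_d3fa71_gt, project Mut, item KGHom
-/

set_option autoImplicit false

namespace AJM

theorem L_KGHom_inv {w : List Mv} {e : ℤ} (h : OPath ((.cup, 0) :: w) [] [] e) :
    ∃ (b : Bool) (e' : ℤ), OPath w [b, !b] [] e' := by
  cases h with
  | cons hs hw =>
    cases hs with
    | cup b s => exact ⟨b, _, hw⟩

/-- The symbolic state after the first cup. -/
def L_KGHom_S : List (WF × WF) :=
  [(.of (0, false), 1), ((.of (0, false))⁻¹, .of (0, true))]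

theorem L_KGHom_low (c : ℕ) (b : Bool) : Low (c + 1) (FreeGroup.of (c, b)) := by
  intro H _ f g h
  rw [FreeGroup.lift_apply_of, FreeGroup.lift_apply_of]
  exact h c (Nat.lt_succ_self c) b

theorem L_KGHom_mp (hWEval : WEval) {H : Type} [Group H] (w : List Mv) (e : ℤ) (μ ν : H)
    (b : Bool) (e' : ℤ) (hw : OPath w [b, !b] [] e')
    (ρ : PresentedGroup (krel ((.cup, 0) :: w)) →* H)
    (h1 : ρ (PresentedGroup.of (0, false)) = μ)
    (h2 : ρ (PresentedGroup.of (0, true) * PresentedGroup.of (0, false) ^ (-e)) =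
      ν * μ ^ (-e)) : WPath w [(μ, 1), (μ⁻¹, ν)] [] := by
  have key := hWEval H (ρ.comp (PresentedGroup.mk (krel ((.cup, 0) :: w)))) w 1 L_KGHom_S
    [b, !b] e' hw rfl (fun r hr => by
      have h3 : PresentedGroup.mk (krel ((.cup, 0) :: w)) r = 1 :=
        PresentedGroup.one_of_mem (Or.inl hr)
      rw [MonoidHom.comp_apply, h3, map_one])
  have h4 : (ρ.comp (PresentedGroup.mk (krel ((.cup, 0) :: w)))) (FreeGroup.of (0, false)) = μ :=
    h1
  have h5 : (ρ.comp (PresentedGroup.mk (krel ((.cup, 0) :: w)))) (FreeGroup.of (0, true)) =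
      ρ (PresentedGroup.of (0, true)) := rfl
  rw [map_mul, map_zpow, h1] at h2
  have h6 := mul_right_cancel h2
  rw [h6] at h5
  have h7 : L_KGHom_S.map (Prod.map (ρ.comp (PresentedGroup.mk (krel ((.cup, 0) :: w))))
      (ρ.comp (PresentedGroup.mk (krel ((.cup, 0) :: w))))) = [(μ, 1), (μ⁻¹, ν)] := by
    unfold L_KGHom_S
    rw [List.map_cons, List.map_cons, List.map_nil, Prod.map_apply, Prod.map_apply, map_one,
      map_inv, h4, h5]
  rw [h7] at key
  exact key

theorem L_KGHom_mpr (hWLift : WLift) {H : Type} [Group H] (w : List Mv) (e : ℤ) (μ ν : H)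
    (b : Bool) (e' : ℤ) (hw : OPath w [b, !b] [] e') (hW : WPath w [(μ, 1), (μ⁻¹, ν)] []) :
    ∃ ρ : PresentedGroup (krel ((.cup, 0) :: w)) →* H,
      ρ (PresentedGroup.of (0, false)) = μ ∧
      ρ (PresentedGroup.of (0, true) * PresentedGroup.of (0, false) ^ (-e)) =
        ν * μ ^ (-e) := by
  classical
  let f : ℕ × Bool → H := fun p => if p = (0, false) then μ else if p = (0, true) then ν else 1
  have hf0 : f (0, false) = μ := rfl
  have hf1 : f (0, true) = ν := rfl
  have hS : L_KGHom_S.map (Prod.map (FreeGroup.lift f) (FreeGroup.lift f)) =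
      [(μ, 1), (μ⁻¹, ν)] := by
    unfold L_KGHom_S
    rw [List.map_cons, List.map_cons, List.map_nil, Prod.map_apply, Prod.map_apply, map_one,
      map_inv, FreeGroup.lift_apply_of, FreeGroup.lift_apply_of, hf0, hf1]
  have hlow : ∀ p ∈ L_KGHom_S, Low 1 p.1 ∧ Low 1 p.2 := by
    intro p hp
    unfold L_KGHom_S at hp
    simp only [List.mem_cons, List.not_mem_nil, or_false] at hp
    rcases hp with rfl | rfl
    · refine ⟨L_KGHom_low 0 false, ?_⟩
      intro H _ f g _
      rw [map_one, map_one]
    · refine ⟨?_, L_KGHom_low 0 true⟩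
      intro H _ f g h
      rw [map_inv, map_inv, L_KGHom_low 0 false H f g h]
  rw [← hS] at hW
  obtain ⟨f', hf', hf'1, hf'2⟩ := hWLift H w 1 L_KGHom_S [b, !b] e' f hw rfl hlow hW
  have hrel : ∀ r ∈ krel ((.cup, 0) :: w), FreeGroup.lift f' r = 1 := by
    rintro r (hr | ⟨c, b', hc, rfl⟩)
    · exact hf'2 r hr
    · rw [FreeGroup.lift_apply_of]
      cases c with
      | zero => exact absurd rfl (hc 0)
      | succ j =>
        have h1 := hf'1 j b' (fun i => hc i)
        rw [Nat.add_comm 1 j] at h1
        exact h1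
  refine ⟨PresentedGroup.toGroup hrel, ?_, ?_⟩
  · rw [PresentedGroup.toGroup.of, hf' 0 Nat.one_pos false, hf0]
  · rw [map_mul, map_zpow, PresentedGroup.toGroup.of, PresentedGroup.toGroup.of,
      hf' 0 Nat.one_pos false, hf' 0 Nat.one_pos true, hf0, hf1]

theorem prf_KGHom (hWEval : WEval) (hWLift : WLift) : KGHom := by
  intro H _ w e μ ν hK
  obtain ⟨b, e', hw⟩ := L_KGHom_inv hK.2
  constructor
  · rintro ⟨ρ, h1, h2⟩
    exact L_KGHom_mp hWEval w e μ ν b e' hw ρ h1 h2
  · intro hW
    exact L_KGHom_mpr hWLift w e μ ν b e' hw hW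

end AJM

end

section

/-!
# MP_d3fa71_gt, project Mut: the tail of a knot diagram has no closed components
-/

namespace AJM

/-- The change of the number of strands. -/
def L_NCKnot_g : Kd → ℤ
  | .cup => 2
  | .cap => -2
  | .pos => 0
  | .neg => 0

theorem L_NCKnot_ostep {m : Mv} {s s' : List Bool} {e : ℤ} (h : OStep m s s' e) :
    (s'.length : ℤ) = s.length + L_NCKnot_g m.1 := by
  induction h with
  | cup b s => simp only [List.length_cons, L_NCKnot_g]; push_cast; ring
  | cap b s => simp only [List.length_cons, L_NCKnot_g]; push_cast; ring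
  | pos a b s => simp only [List.length_cons, L_NCKnot_g]; push_cast; ring
  | neg a b s => simp only [List.length_cons, L_NCKnot_g]; push_cast; ring
  | sh x h ih => simp only [List.length_cons] at ih ⊢; push_cast; linarith

theorem L_NCKnot_cstep {m : Mv} {s s' L : List ℕ} (h : CStep m s s' L) :
    (s'.length : ℤ) = s.length + L_NCKnot_g m.1 := by
  induction h with
  | cup b s => simp only [List.length_cons, L_NCKnot_g]; push_cast; ring
  | cap b s => simp only [List.length_cons, L_NCKnot_g]; push_cast; ring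
  | pos a b s => simp only [List.length_cons, L_NCKnot_g]; push_cast; ring
  | neg a b s => simp only [List.length_cons, L_NCKnot_g]; push_cast; ring
  | sh x h ih => simp only [List.length_cons] at ih ⊢; push_cast; linarith

theorem L_NCKnot_opath {w : List Mv} {s s' : List Bool} {e : ℤ} (h : OPath w s s' e) :
    (s'.length : ℤ) = s.length + (w.map fun m => L_NCKnot_g m.1).sum := by
  induction h with
  | nil s => simp
  | cons h1 h2 ih =>
    rw [ih, L_NCKnot_ostep h1, List.map_cons, List.sum_cons]
    ring

theorem L_NCKnot_cpath {w : List Mv} {s s' L : List ℕ} (h : CPath w s s' L) :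
    (s'.length : ℤ) = s.length + (w.map fun m => L_NCKnot_g m.1).sum := by
  induction h with
  | nil s => simp
  | cons h1 h2 ih =>
    rw [ih, L_NCKnot_cstep h1, List.map_cons, List.sum_cons]
    ring

theorem prf_NCKnot (hCEven : CEven) (_hCMap : CMap) : NCKnot := by
  intro w e hK s L hC x hx
  obtain ⟨⟨_, hone⟩, hO⟩ := hK
  have hl : s.length = 2 := by
    have h1 := L_NCKnot_opath hO
    have h2 := L_NCKnot_cpath hC
    simp only [List.map_cons, List.sum_cons, List.length_nil, L_NCKnot_g] at h1 h2
    omega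
  obtain ⟨a, c, rfl⟩ := List.length_eq_two.1 hl
  have hc : c = a := by
    by_contra hne
    have h3 := hCEven w [a, c] [] L a hC
    have h4 : ([a, c] : List ℕ).count a = 1 := by
      rw [List.count_cons_self, List.count_cons_of_ne hne]
      simp
    rw [h4] at h3
    simp at h3
  subst hc
  obtain ⟨a0, h0⟩ := hone _ (CPath.cons (CStep.cup c []) hC)
  have e1 := h0 c (by simp)
  have e2 := h0 x (by simp [hx])
  rw [e2, ← e1]
  simp

end AJM

end

section

/-!
# MP_d3fa71_gt, project Mut, block D: removal of the first move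
-/

set_option autoImplicit false

namespace AJM

/-- The change of the number of strands. -/
def L_NCTail_k : Kd → ℤ
  | .cup => 2
  | .cap => -2
  | .pos => 0
  | .neg => 0

theorem L_NCTail_cs {m : Mv} {s s' L : List ℕ} (h : CStep m s s' L) :
    (s'.length : ℤ) = s.length + L_NCTail_k m.1 := by
  induction h with
  | cup a s => simp [L_NCTail_k]; ring
  | cap a s => simp [L_NCTail_k]; ring
  | pos a b s => simp [L_NCTail_k]
  | neg a b s => simp [L_NCTail_k]
  | sh x h ih =>
    simp only [List.length_cons] at ih ⊢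
    push_cast
    linarith

theorem L_NCTail_os {m : Mv} {s s' : List Bool} {e : ℤ} (h : OStep m s s' e) :
    (s'.length : ℤ) = s.length + L_NCTail_k m.1 := by
  induction h with
  | cup a s => simp [L_NCTail_k]; ring
  | cap a s => simp [L_NCTail_k]; ring
  | pos a b s => simp [L_NCTail_k]
  | neg a b s => simp [L_NCTail_k]
  | sh x h ih =>
    simp only [List.length_cons] at ih ⊢
    push_cast
    linarith

theorem L_NCTail_cp {w : List Mv} {s s' L : List ℕ} (h : CPath w s s' L) :
    (s'.length : ℤ) = s.length + (w.map fun m => L_NCTail_k m.1).sum := by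
  induction h with
  | nil s => simp
  | cons h1 h2 ih =>
    have h3 := L_NCTail_cs h1
    simp only [List.map_cons, List.sum_cons]
    linarith

theorem L_NCTail_op {w : List Mv} {s s' : List Bool} {e : ℤ} (h : OPath w s s' e) :
    (s'.length : ℤ) = s.length + (w.map fun m => L_NCTail_k m.1).sum := by
  induction h with
  | nil s => simp
  | cons h1 h2 ih =>
    have h3 := L_NCTail_os h1
    simp only [List.map_cons, List.sum_cons]
    linarith

theorem prf_NCTail (hCMap : CMap) (hCZero : CZero) : NCTail := by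
  intro m w b e hO hNC s L hC x hx
  by_contra hxs
  have h1 := hCMap (fun n => if n = x then 1 else 0) w s [] L hC
  have h2 : (s.map fun n => if n = x then 1 else 0) = List.replicate s.length 0 := by
    rw [List.eq_replicate_iff]
    refine ⟨by simp, fun y hy => ?_⟩
    obtain ⟨z, hz, rfl⟩ := List.mem_map.1 hy
    have h3 : z ≠ x := fun h => hxs (h ▸ hz)
    simp [h3]
  cases hO with
  | @cons _ _ _ b1 _ e1 e2 hs hp =>
    have h4 : (s.length : ℤ) = b1.length := by
      have h5 := L_NCTail_cp hC
      have h6 := L_NCTail_op hp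
      simp only [List.length_nil] at h5 h6
      linarith
    have h7 : s.length = b1.length := by exact_mod_cast h4
    have h8 : (b1.map fun _ => 0) = List.replicate s.length 0 := by
      rw [h7]
      simp
    obtain ⟨L0, hL0, -⟩ := hCZero [m] b b1 (e1 + 0) (OPath.cons hs (OPath.nil _))
    cases hL0 with
    | @cons _ _ _ s1 _ L1 L2 hs1 hp1 =>
      cases hp1 with
      | nil _ =>
        rw [h8, ← h2] at hs1
        have h9 := hNC _ _ (CPath.cons hs1 h1) 1
          (List.mem_append.2 (Or.inr (List.mem_map.2 ⟨x, hx, if_pos rfl⟩)))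
        obtain ⟨z, -, hz⟩ := List.mem_map.1 h9
        exact absurd hz (by norm_num)

end AJM

end

section

/-!
# MP_d3fa71_gt, project Mut: closure of a two-strand word
-/

namespace AJM

section
variable {R : Type} [CommRing R]

theorem L_NclInv_cup0 {M : Rˣ} {s s' : List (G R)} {τ : Rˣ} (h : Step M (.cup, 0) s s' τ) :
    ∃ x : G R, s' = x :: x * J :: s ∧ τ = 1 := by
  cases h with
  | cup x s => exact ⟨x, rfl, rfl⟩

theorem L_NclInv_cap0 {M : Rˣ} {s s' : List (G R)} {τ : Rˣ} (h : Step M (.cap, 0) s s' τ) :
    ∃ x : G R, s = x :: x * J * dg τ :: s' := by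
  cases h with
  | cap x τ s => exact ⟨x, rfl⟩

theorem L_NclInv_cup1 {M : Rˣ} {s s' : List (G R)} {τ : Rˣ} (h : Step M (.cup, 1) s s' τ) :
    ∃ (z : G R) (t t' : List (G R)), s = z :: t ∧ s' = z :: t' ∧ Step M (.cup, 0) t t' τ := by
  cases h with
  | sh z h => exact ⟨z, _, _, rfl, rfl, h⟩

theorem L_NclInv_cap1 {M : Rˣ} {s s' : List (G R)} {τ : Rˣ} (h : Step M (.cap, 1) s s' τ) :
    ∃ (z : G R) (t t' : List (G R)), s = z :: t ∧ s' = z :: t' ∧ Step M (.cap, 0) t t' τ := by
  cases h with
  | sh z h => exact ⟨z, _, _, rfl, rfl, h⟩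

theorem L_NclInv_cons {M : Rˣ} {m : Mv} {w : List Mv} {s s'' : List (G R)} {τ : Rˣ}
    (h : Path M (m :: w) s s'' τ) :
    ∃ (s' : List (G R)) (τ₁ τ₂ : Rˣ), Step M m s s' τ₁ ∧ Path M w s' s'' τ₂ ∧ τ = τ₁ * τ₂ := by
  cases h with
  | cons h1 h2 => exact ⟨_, _, _, h1, h2, rfl⟩

theorem L_NclInv_nil {M : Rˣ} {s s'' : List (G R)} {τ : Rˣ}
    (h : Path M [] s s'' τ) : s = s'' ∧ τ = 1 := by
  cases h with
  | nil s => exact ⟨rfl, rfl⟩

/-- If `y J = y' J dg t` then `y' = y dg t`. -/
theorem L_NclInv_solve {x y : G R} {t : Rˣ} (h : y * J = x * J * dg t) : x = y * dg t := by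
  rw [mul_assoc, J_dg, ← mul_assoc] at h
  have h1 : y = x * dg t⁻¹ := mul_right_cancel h
  rw [h1, mul_assoc, ← dg_mul, inv_mul_cancel, dg_one, mul_one]

theorem L_NclInv_solve' (y : G R) (t : Rˣ) : y * dg t * J * dg t = y * J := by
  rw [mul_assoc (y * dg t), J_dg, ← mul_assoc, mul_assoc y, ← dg_mul, mul_inv_cancel, dg_one,
    mul_one]

end

theorem prf_NclInv (hPathAppend : PathAppend) (hPathRight : PathRight) : NclInv := by
  intro R _ M w τ hw
  have hN : Ncl w = (.cup, 0) :: (.cup, 1) :: (w ++ [(.cap, 1), (.cap, 0)]) := by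
    simp [Ncl]
  rw [hN]
  constructor
  · intro g1
    obtain ⟨s₁, a₁, b₁, h1, g2, q1⟩ := L_NclInv_cons g1
    obtain ⟨x, rfl, q2⟩ := L_NclInv_cup0 h1
    obtain ⟨s₂, a₂, b₂, h2, g3, q3⟩ := L_NclInv_cons g2
    obtain ⟨z, t, t', e1, rfl, h2b⟩ := L_NclInv_cup1 h2
    obtain ⟨y, rfl, q4⟩ := L_NclInv_cup0 h2b
    obtain ⟨rfl, rfl⟩ := List.cons.inj e1
    obtain ⟨s₃, c₁, c₂, h3, g4, q5⟩ := (hPathAppend R M _ _ _ _ _).1 g3
    have h4 := (hPathRight R M w 2 2 [x, y] [y * J, x * J] s₃ c₁ hw rfl).1 h3
    obtain ⟨s', hl, rfl, h4b⟩ := h4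
    obtain ⟨x', y', rfl⟩ := List.length_eq_two.1 hl
    obtain ⟨s₄, t₁, d₂, h5, g5, q6⟩ := L_NclInv_cons g4
    obtain ⟨z, t, t', e1, rfl, h5b⟩ := L_NclInv_cap1 h5
    obtain ⟨y₁, rfl⟩ := L_NclInv_cap0 h5b
    obtain ⟨s₅, t₂, d₃, h6, g6, q7⟩ := L_NclInv_cons g5
    obtain ⟨x₁, e2⟩ := L_NclInv_cap0 h6
    obtain ⟨rfl, q8⟩ := L_NclInv_nil g6
    simp only [List.cons_append, List.nil_append, List.cons.injEq] at e1 e2
    obtain ⟨e3, e4, e5, e6⟩ := e1
    obtain ⟨e7, e8⟩ := e2
    subst e3; subst e4; subst e7
    rw [← e6] at e8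
    simp only [List.cons.injEq, and_true] at e8
    refine ⟨x, y, c₁, t₂, t₁, ?_, ?_⟩
    · rw [← L_NclInv_solve e5, ← L_NclInv_solve e8]
      exact h4b
    · rw [q1, q2, q3, q4, q5, q6, q7, q8, one_mul, one_mul, mul_one, mul_comm t₁ t₂, mul_assoc]
  · rintro ⟨ha, hb, τ', α, β, h, rfl⟩
    have h3 : Path M w ([ha, hb] ++ [hb * J, ha * J])
        ([ha * dg α, hb * dg β] ++ [hb * J, ha * J]) τ' :=
      (hPathRight R M w 2 2 [ha, hb] [hb * J, ha * J] _ τ' hw rfl).2 ⟨_, rfl, rfl, h⟩
    have h5 : Step M (.cap, 1) ([ha * dg α, hb * dg β] ++ [hb * J, ha * J])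
        [ha * dg α, ha * J] β := by
      have h6 : Step M (.cap, 0) (hb * dg β :: hb * dg β * J * dg β :: [ha * J]) [ha * J] β :=
        Step.cap _ _ _
      rw [L_NclInv_solve'] at h6
      exact Step.sh (ha * dg α) h6
    have h6 : Step M (.cap, 0) [ha * dg α, ha * J] [] α := by
      have h7 : Step M (.cap, 0) (ha * dg α :: ha * dg α * J * dg α :: []) [] α :=
        Step.cap _ _ _
      rw [L_NclInv_solve'] at h7
      exact h7
    have h7 : Path M [(.cap, 1), (.cap, 0)] ([ha * dg α, hb * dg β] ++ [hb * J, ha * J]) []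
        (β * (α * 1)) := Path.cons h5 (Path.cons h6 (Path.nil []))
    have h8 := (hPathAppend R M w [(.cap, 1), (.cap, 0)] ([ha, hb] ++ [hb * J, ha * J]) []
      (τ' * (β * (α * 1)))).2 ⟨_, _, _, h3, h7, rfl⟩
    have h9 : Step M (.cup, 1) [ha, ha * J] ([ha, hb] ++ [hb * J, ha * J]) 1 :=
      Step.sh ha (Step.cup hb [ha * J])
    have h10 := Path.cons (Step.cup ha ([] : List (G R))) (Path.cons h9 h8)
    have h11 : (1 : Rˣ) * (1 * (τ' * (β * (α * 1)))) = τ' * α * β := by
      rw [one_mul, one_mul, mul_one, mul_comm β α, mul_assoc]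
    rw [h11] at h10
    exact h10

end AJM

end

section

/-! MP_d3fa71_gt, project Mut, block B: the product of the meridians is preserved. -/

set_option autoImplicit false

namespace AJM

theorem L_PathProd_step {R : Type} [CommRing R] {M : Rˣ} {m : Mv} {s s' : List (G R)} {τ : Rˣ}
    (h : Step M m s s' τ) : (s.map (mer M)).prod = (s'.map (mer M)).prod := by
  induction h with
  | cup h s =>
    simp only [List.map_cons, List.prod_cons]
    rw [mer_J, ← mul_assoc, mul_inv_cancel, one_mul]
  | cap h τ s =>
    simp only [List.map_cons, List.prod_cons]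
    rw [mer_Jdg, ← mul_assoc, mul_inv_cancel, one_mul]
  | pos h k s =>
    simp only [List.map_cons, List.prod_cons]
    rw [mer_mul]
    group
  | neg h k s =>
    simp only [List.map_cons, List.prod_cons]
    rw [mer_mul]
    group
  | sh x _ ih =>
    simp only [List.map_cons, List.prod_cons]
    rw [ih]

theorem prf_PathProd : PathProd := by
  intro R _ M w s s' τ h
  induction h with
  | nil s => rfl
  | cons h1 _ ih => rw [L_PathProd_step h1, ih]

end AJM

end

section

/-!
# MP_d3fa71_gt, project Mut: item PathRight (locality of words on the first strands)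
-/

namespace AJM

section
variable {R : Type} [CommRing R]

theorem L_PathRight_step_app {M : Rˣ} {m : Mv} {s s' : List (G R)} {τ : Rˣ} (x : List (G R))
    (h : Step M m s s' τ) : Step M m (s ++ x) (s' ++ x) τ := by
  induction h with
  | cup h s => exact Step.cup h (s ++ x)
  | cap h τ s => exact Step.cap h τ (s ++ x)
  | pos h k s => exact Step.pos h k (s ++ x)
  | neg h k s => exact Step.neg h k (s ++ x)
  | sh y _ ih => exact Step.sh y ih

theorem L_PathRight_two {l : ℕ} {s : List (G R)} (hl : s.length = l) (h2 : 2 ≤ l) :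
    ∃ a b s0, s = a :: b :: s0 := by
  match s, hl with
  | [], hl => simp at hl; omega
  | [a], hl => simp at hl; omega
  | a :: b :: s0, _ => exact ⟨a, b, s0, rfl⟩

theorem L_PathRight_mvw {k : Kd} {i l l1 : ℕ} (h : mvw (k, i + 1) l = some l1) :
    ∃ l0 l2, l = l0 + 1 ∧ l1 = l2 + 1 ∧ mvw (k, i) l0 = some l2 := by
  cases k with
  | cup =>
    simp only [mvw] at h
    split_ifs at h with h1
    simp only [Option.some.injEq] at h
    exact ⟨l - 1, l - 1 + 2, by omega, by omega, by simp only [mvw]; rw [if_pos (by omega)]⟩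
  | cap =>
    simp only [mvw] at h
    split_ifs at h with h1
    simp only [Option.some.injEq] at h
    exact ⟨l - 1, l - 1 - 2, by omega, by omega, by simp only [mvw]; rw [if_pos (by omega)]⟩
  | pos =>
    simp only [mvw] at h
    split_ifs at h with h1
    simp only [Option.some.injEq] at h
    exact ⟨l - 1, l - 1, by omega, by omega, by simp only [mvw]; rw [if_pos (by omega)]⟩
  | neg =>
    simp only [mvw] at h
    split_ifs at h with h1
    simp only [Option.some.injEq] at h
    exact ⟨l - 1, l - 1, by omega, by omega, by simp only [mvw]; rw [if_pos (by omega)]⟩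

theorem L_PathRight_step {M : Rˣ} (k : Kd) (i : ℕ) :
    ∀ (l l1 : ℕ) (s x s1 : List (G R)) (τ : Rˣ),
      mvw (k, i) l = some l1 → s.length = l → Step M (k, i) (s ++ x) s1 τ →
      ∃ s', s'.length = l1 ∧ s1 = s' ++ x ∧ Step M (k, i) s s' τ := by
  induction i with
  | zero =>
    intro l l1 s x s1 τ hm hl hs
    cases k with
    | cup =>
      simp only [mvw] at hm
      split_ifs at hm with h1
      simp only [Option.some.injEq] at hm
      cases hs with
      | cup h _ => exact ⟨h :: h * J :: s, by simp [hl, ← hm], rfl, Step.cup _ _⟩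
    | cap =>
      simp only [mvw] at hm
      split_ifs at hm with h1
      simp only [Option.some.injEq] at hm
      obtain ⟨a, b, s0, rfl⟩ := L_PathRight_two hl (by omega)
      simp only [List.cons_append] at hs
      cases hs with
      | cap _ _ _ =>
        refine ⟨s0, ?_, rfl, Step.cap _ _ _⟩
        simp at hl
        omega
    | pos =>
      simp only [mvw] at hm
      split_ifs at hm with h1
      simp only [Option.some.injEq] at hm
      obtain ⟨a, b, s0, rfl⟩ := L_PathRight_two hl (by omega)
      simp only [List.cons_append] at hs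
      cases hs with
      | pos _ _ _ =>
        refine ⟨_ :: _ :: s0, ?_, rfl, Step.pos _ _ _⟩
        simp at hl ⊢
        omega
    | neg =>
      simp only [mvw] at hm
      split_ifs at hm with h1
      simp only [Option.some.injEq] at hm
      obtain ⟨a, b, s0, rfl⟩ := L_PathRight_two hl (by omega)
      simp only [List.cons_append] at hs
      cases hs with
      | neg _ _ _ =>
        refine ⟨_ :: _ :: s0, ?_, rfl, Step.neg _ _ _⟩
        simp at hl ⊢
        omega
  | succ i ih =>
    intro l l1 s x s1 τ hm hl hs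
    obtain ⟨l0, l2, rfl, rfl, hm'⟩ := L_PathRight_mvw hm
    match s, hl with
    | a :: s0, hl =>
      simp only [List.cons_append] at hs
      cases hs with
      | sh _ hs' =>
        obtain ⟨s', h1, h2, h3⟩ := ih l0 l2 s0 x _ τ hm' (by simpa using hl) hs'
        refine ⟨a :: s', by simp [h1], by simp [h2], Step.sh a h3⟩

end

theorem prf_PathRight : PathRight := by
  intro R _ M w
  induction w with
  | nil =>
    intro l l' s x s₁ τ hw hl
    simp only [wid, Option.some.injEq] at hw
    subst hw
    constructor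
    · intro h
      cases h with
      | nil _ => exact ⟨s, hl, rfl, Path.nil s⟩
    · rintro ⟨s', _, rfl, h⟩
      cases h with
      | nil _ => exact Path.nil _
  | cons m w ih =>
    intro l l' s x s₁ τ hw hl
    obtain ⟨k, i⟩ := m
    simp only [wid] at hw
    obtain ⟨l1, hm, hw'⟩ := Option.bind_eq_some_iff.1 hw
    constructor
    · intro h
      cases h with
      | cons hs hp =>
        obtain ⟨s', h1, rfl, h3⟩ := L_PathRight_step k i l l1 s x _ _ hm hl hs
        obtain ⟨s'', h4, h5, h6⟩ := (ih l1 l' s' x s₁ _ hw' h1).1 hp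
        exact ⟨s'', h4, h5, Path.cons h3 h6⟩
    · rintro ⟨s'', h4, rfl, h⟩
      cases h with
      | cons hs hp =>
        rename_i s' τ1 τ2
        obtain ⟨s2, h1, h2, h3⟩ := L_PathRight_step k i l l1 s [] s' _ hm hl (by simpa using hs)
        have h2' : s' = s2 := by simpa using h2
        subst h2'
        exact Path.cons (L_PathRight_step_app x hs) ((ih l1 l' s' x _ _ hw' h1).2 ⟨s'', h4, rfl, hp⟩)

end AJM

end

section

/-!
# MP_d3fa71_gt, project Mut: item PtoES
-/

namespace AJM

section
variable {R : Type} [CommRing R]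

/-- orientations of a word beginning with a cup -/
theorem L_PtoES_ocup {w : List Mv} {e : ℤ} (h : OPath ((.cup, 0) :: w) [] [] e) :
    ∃ b : Bool, OPath w [b, !b] [] e := by
  cases h with
  | cons h1 h2 =>
    cases h1 with
    | cup b s =>
      refine ⟨b, ?_⟩
      rw [zero_add]
      exact h2

/-- paths of a word beginning with a cup -/
theorem L_PtoES_pcup {w : List Mv} {M τ : Rˣ} (h : Path M ((.cup, 0) :: w) [] [] τ) :
    ∃ h₀ : G R, Path M w [h₀, h₀ * J] [] τ := by
  cases h with
  | cons h1 h2 =>
    cases h1 with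
    | cup h₀ s =>
      refine ⟨h₀, ?_⟩
      rw [one_mul]
      exact h2

/-- the quotient of the two transports -/
theorem L_PtoES_quot (h : G R) (b : Bool) (a a' : Rˣ) :
    ∃ u : Rˣ, (u = (a * a')⁻¹ ∨ u = -(a * a')⁻¹) ∧
      h⁻¹ * (gf h (!b) (h * J * dg a') * (gf h b (h * dg a))⁻¹) * h⁻¹⁻¹ = dg u := by
  cases b with
  | true =>
    refine ⟨(a * a')⁻¹, Or.inl rfl, ?_⟩
    show h⁻¹ * ((h * J * dg a') * J⁻¹ * h⁻¹ * (h * dg a * h⁻¹)⁻¹) * h⁻¹⁻¹ = _
    have e1 : h⁻¹ * ((h * J * dg a') * J⁻¹ * h⁻¹ * (h * dg a * h⁻¹)⁻¹) * h⁻¹⁻¹ =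
        (J * dg a') * J⁻¹ * (dg a)⁻¹ := by group
    rw [e1, J_dg, mul_assoc (dg a'⁻¹) J J⁻¹, mul_inv_cancel, mul_one, ← dg_inv, ← dg_mul,
      mul_inv_rev]
  | false =>
    refine ⟨-(a * a')⁻¹, Or.inr rfl, ?_⟩
    show h⁻¹ * ((h * J * dg a') * h⁻¹ * (h * dg a * J⁻¹ * h⁻¹)⁻¹) * h⁻¹⁻¹ = _
    have e1 : h⁻¹ * ((h * J * dg a') * h⁻¹ * (h * dg a * J⁻¹ * h⁻¹)⁻¹) * h⁻¹⁻¹ =
        (J * dg a') * J * (dg a)⁻¹ := by group
    rw [e1, J_dg, mul_assoc (dg a'⁻¹) J J, J_J, ← dg_inv, ← dg_mul, ← dg_mul]
    congr 1
    rw [mul_inv_rev]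
    simp

end

theorem prf_PtoES (hPtoW : PtoW) (hWScale : WScale) (hWMap : WMap) (hNCKnot : NCKnot)
    (hCZero : CZero) : PtoES := by
  intro K _ w e m τ hK hP
  obtain ⟨b, hb⟩ := L_PtoES_ocup hK.2
  obtain ⟨h, hh⟩ := L_PtoES_pcup hP
  have hNC := hNCKnot w e hK
  obtain ⟨d, hd, hW, hτ⟩ := hPtoW K m h w [b, !b] e [h, h * J] τ hb hNC rfl hh
  obtain ⟨a, a', rfl⟩ : ∃ a a' : Kˣ, d = [a, a'] := by
    rcases d with _ | ⟨a, _ | ⟨a', _ | ⟨a'', d⟩⟩⟩
    · simp at hd
    · simp at hd
    · exact ⟨a, a', rfl⟩
    · simp at hd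
  obtain ⟨L, hL, -⟩ := hCZero w [b, !b] [] e hb
  have hW2 := hWScale (G K) (fun _ => (gf h b (h * dg a))⁻¹) w _ [] [0, 0] [] L hW hL rfl
  have hW3 := hWMap (G K) (G K) (MulAut.conj h⁻¹).toMonoidHom w _ [] hW2
  obtain ⟨u, hu, hq⟩ := L_PtoES_quot h b a a'
  have e1 : h⁻¹ * mer m h * h⁻¹⁻¹ = dg m := by
    unfold mer
    group
  have e2 : h⁻¹ * mer m (h * J) * h⁻¹⁻¹ = (dg m)⁻¹ := by
    rw [mer_J, ← e1]
    group
  have hW4 : WPath w [(dg m, 1), ((dg m)⁻¹, dg u)] [] := by
    have e4 : (List.map (Prod.map (MulAut.conj h⁻¹).toMonoidHom (MulAut.conj h⁻¹).toMonoidHom)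
        (List.zipWith (fun p n => (p.1, p.2 * (fun _ => (gf h b (h * dg a))⁻¹) n))
          (lbs m h [b, !b] [h, h * J] [a, a']) [0, 0])) =
        [(h⁻¹ * mer m h * h⁻¹⁻¹, h⁻¹ * (gf h b (h * dg a) * (gf h b (h * dg a))⁻¹) * h⁻¹⁻¹),
          (h⁻¹ * mer m (h * J) * h⁻¹⁻¹,
            h⁻¹ * (gf h (!b) (h * J * dg a') * (gf h b (h * dg a))⁻¹) * h⁻¹⁻¹)] := rfl
    rw [e4, e1, e2, hq, mul_inv_cancel, mul_one, mul_inv_cancel] at hW3
    exact hW3
  have hτ' : τ = (a * a')⁻¹ ∨ τ = -(a * a')⁻¹ := by
    simp only [List.prod_cons, List.prod_nil, mul_one] at hτ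
    rcases hτ with hτ | hτ
    · left
      exact eq_inv_of_mul_eq_one_left hτ
    · right
      have : (-τ) * (a * a') = 1 := by rw [neg_mul, hτ, neg_neg]
      rw [← eq_inv_of_mul_eq_one_left this, neg_neg]
  have hu' : u = τ ∨ u = -τ := by
    rcases hu with h1 | h1 <;> rcases hτ' with h2 | h2 <;> rw [h1, h2] <;> simp
  rcases hu' with h1 | h1
  · left
    refine ⟨dg m, dg u, rfl, rfl, rfl, ?_, hW4⟩
    rw [dg00, h1, ← Units.val_mul, mul_assoc, ← zpow_add, neg_add_cancel, zpow_zero, mul_one]
  · right
    refine ⟨dg m, dg u, rfl, rfl, rfl, ?_, hW4⟩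
    rw [dg00, h1, ← Units.val_mul, neg_mul, mul_assoc, ← zpow_add, neg_add_cancel, zpow_zero,
      mul_one]

end AJM

end

section

/-!
# MP_d3fa71_gt, project Mut, block D, item PtoW
-/

set_option autoImplicit false

namespace AJM

/-! ### Positions -/

theorem L_PtoW_sstep {R : Type} [CommRing R] {M : Rˣ} {k : Kd} (i : ℕ) :
    ∀ (s s' : List (G R)) (τ : Rˣ), Step M (k, i) s s' τ →
      ∃ p s₀ s₀', p.length = i ∧ s = p ++ s₀ ∧ s' = p ++ s₀' ∧ Step M (k, 0) s₀ s₀' τ := by
  induction i with
  | zero =>
    intro s s' τ h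
    exact ⟨[], s, s', rfl, rfl, rfl, h⟩
  | succ i ih =>
    intro s s' τ h
    cases h with
    | sh x h' =>
      obtain ⟨p, s₀, s₀', h1, h2, h3, h4⟩ := ih _ _ _ h'
      exact ⟨x :: p, s₀, s₀', by rw [List.length_cons, h1], by rw [h2]; rfl, by rw [h3]; rfl, h4⟩

theorem L_PtoW_ostep {k : Kd} (i : ℕ) :
    ∀ (s s' : List Bool) (e : ℤ), OStep (k, i) s s' e →
      ∃ p s₀ s₀', p.length = i ∧ s = p ++ s₀ ∧ s' = p ++ s₀' ∧ OStep (k, 0) s₀ s₀' e := by
  induction i with
  | zero =>
    intro s s' τ h
    exact ⟨[], s, s', rfl, rfl, rfl, h⟩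
  | succ i ih =>
    intro s s' τ h
    cases h with
    | sh x h' =>
      obtain ⟨p, s₀, s₀', h1, h2, h3, h4⟩ := ih _ _ _ h'
      exact ⟨x :: p, s₀, s₀', by rw [List.length_cons, h1], by rw [h2]; rfl, by rw [h3]; rfl, h4⟩

theorem L_PtoW_wshift {H : Type} [Group H] {k : Kd} {s s' : List (H × H)}
    (h : WStep (k, 0) s s') (p : List (H × H)) : WStep (k, p.length) (p ++ s) (p ++ s') := by
  induction p with
  | nil => exact h
  | cons a p ih => exact WStep.sh a ih

theorem L_PtoW_cshift {k : Kd} {s s' L : List ℕ}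
    (h : CStep (k, 0) s s' L) (p : List ℕ) : CStep (k, p.length) (p ++ s) (p ++ s') L := by
  induction p with
  | nil => exact h
  | cons a p ih => exact CStep.sh a ih

theorem L_PtoW_split {A : Type} (d : List A) (i j : ℕ) (h : d.length = i + j) :
    ∃ p q, d = p ++ q ∧ p.length = i ∧ q.length = j :=
  ⟨d.take i, d.drop i, (List.take_append_drop i d).symm, by rw [List.length_take]; omega,
    by rw [List.length_drop]; omega⟩

theorem L_PtoW_two {A : Type} (d : List A) (j : ℕ) (h : d.length = j + 2) :
    ∃ a a' q, d = a :: a' :: q ∧ q.length = j := by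
  match d, h with
  | a :: a' :: q, h => exact ⟨a, a', q, rfl, by simpa using h⟩

/-! ### Labels -/

theorem L_PtoW_cmap (f : ℕ → ℕ) (w : List Mv) (s s' L : List ℕ) (h : CPath w s s' L) :
    CPath w (s.map f) (s'.map f) (L.map f) := by
  have hs : ∀ (m : Mv) (s s' L : List ℕ), CStep m s s' L →
      CStep m (s.map f) (s'.map f) (L.map f) := by
    intro m s s' L h
    induction h with
    | cup a s => exact CStep.cup (f a) _
    | cap a s => exact CStep.cap (f a) _
    | pos a b s => exact CStep.pos (f a) (f b) _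
    | neg a b s => exact CStep.neg (f a) (f b) _
    | sh x _ ih => exact CStep.sh (f x) ih
  induction h with
  | nil s => exact CPath.nil _
  | cons h1 _ ih =>
    rw [List.map_append]
    exact CPath.cons (hs _ _ _ _ h1) ih

section

variable {R : Type} [CommRing R]

theorem L_PtoW_lbs_app (M : Rˣ) (h₀ : G R) (pb : List Bool) : ∀ (p : List (G R)) (pd : List Rˣ)
    (b : List Bool) (s : List (G R)) (d : List Rˣ), p.length = pb.length →
    pd.length = pb.length →
    lbs M h₀ (pb ++ b) (p ++ s) (pd ++ d) = lbs M h₀ pb p pd ++ lbs M h₀ b s d := by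
  induction pb with
  | nil =>
    intro p pd b s d h1 h2
    rw [List.length_nil, List.length_eq_zero_iff] at h1 h2
    rw [h1, h2]
    rfl
  | cons x pb ih =>
    intro p pd b s d h1 h2
    match p, pd, h1, h2 with
    | y :: p, z :: pd, h1, h2 =>
      show lbl M h₀ x y z :: lbs M h₀ (pb ++ b) (p ++ s) (pd ++ d) =
        lbl M h₀ x y z :: (lbs M h₀ pb p pd ++ lbs M h₀ b s d)
      rw [ih p pd b s d (by simpa using h1) (by simpa using h2)]

theorem L_PtoW_lbs_len (M : Rˣ) (h₀ : G R) (pb : List Bool) : ∀ (p : List (G R)) (pd : List Rˣ),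
    p.length = pb.length → pd.length = pb.length → (lbs M h₀ pb p pd).length = pb.length := by
  induction pb with
  | nil =>
    intro p pd h1 h2
    rfl
  | cons x pb ih =>
    intro p pd h1 h2
    match p, pd, h1, h2 with
    | y :: p, z :: pd, h1, h2 =>
      show (lbl M h₀ x y z :: lbs M h₀ pb p pd).length = _
      rw [List.length_cons, List.length_cons,
        ih p pd (by simpa using h1) (by simpa using h2)]

/-- The change of the scalings. -/
def L_PtoW_sc (y : ℕ) (u : Rˣ) : List Bool → List ℕ → List Rˣ → List Rˣ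
  | b :: bs, n :: ns, d :: ds =>
    (if n = y then (if b = true then d * u else d * u⁻¹) else d) :: L_PtoW_sc y u bs ns ds
  | _, _, _ => []

theorem L_PtoW_sc_len (y : ℕ) (u : Rˣ) (b : List Bool) : ∀ (n : List ℕ) (d : List Rˣ),
    n.length = b.length → d.length = b.length → (L_PtoW_sc y u b n d).length = b.length := by
  induction b with
  | nil =>
    intro n d h1 h2
    rfl
  | cons x b ih =>
    intro n d h1 h2
    match n, d, h1, h2 with
    | m :: n, z :: d, h1, h2 =>
      show ((if m = y then (if x = true then z * u else z * u⁻¹) else z) ::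
        L_PtoW_sc y u b n d).length = _
      rw [List.length_cons, List.length_cons, ih n d (by simpa using h1) (by simpa using h2)]

theorem L_PtoW_sc_app (y : ℕ) (u : Rˣ) (pb : List Bool) : ∀ (pn : List ℕ) (pd : List Rˣ)
    (b : List Bool) (n : List ℕ) (d : List Rˣ), pn.length = pb.length →
    pd.length = pb.length →
    L_PtoW_sc y u (pb ++ b) (pn ++ n) (pd ++ d) = L_PtoW_sc y u pb pn pd ++ L_PtoW_sc y u b n d := by
  induction pb with
  | nil =>
    intro p pd b s d h1 h2
    rw [List.length_nil, List.length_eq_zero_iff] at h1 h2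
    rw [h1, h2]
    rfl
  | cons x pb ih =>
    intro p pd b s d h1 h2
    match p, pd, h1, h2 with
    | m :: p, z :: pd, h1, h2 =>
      show (if m = y then (if x = true then z * u else z * u⁻¹) else z) ::
        L_PtoW_sc y u (pb ++ b) (p ++ s) (pd ++ d) =
        (if m = y then (if x = true then z * u else z * u⁻¹) else z) ::
        (L_PtoW_sc y u pb p pd ++ L_PtoW_sc y u b s d)
      rw [ih p pd b s d (by simpa using h1) (by simpa using h2)]

theorem L_PtoW_sc_prod (y : ℕ) (u : Rˣ) (b : List Bool) : ∀ (n : List ℕ) (d : List Rˣ),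
    n.length = b.length → d.length = b.length →
    (L_PtoW_sc y u b n d).prod = d.prod * u ^ ((List.zip n b).count (y, true)) *
      (u⁻¹) ^ ((List.zip n b).count (y, false)) := by
  induction b with
  | nil =>
    intro n d h1 h2
    rw [List.length_nil, List.length_eq_zero_iff] at h1 h2
    rw [h1, h2]
    simp [L_PtoW_sc]
  | cons x b ih =>
    intro n d h1 h2
    match n, d, h1, h2 with
    | m :: n, z :: d, h1, h2 =>
      show ((if m = y then (if x = true then z * u else z * u⁻¹) else z) ::
        L_PtoW_sc y u b n d).prod = _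
      rw [List.prod_cons, List.prod_cons, ih n d (by simpa using h1) (by simpa using h2),
        List.zip_cons_cons, List.count_cons, List.count_cons]
      by_cases hm : m = y
      · subst hm
        cases x
        · simp [pow_succ, mul_assoc, mul_comm, mul_left_comm]
        · simp [pow_succ, mul_assoc, mul_comm, mul_left_comm]
      · simp [hm, mul_assoc]

theorem L_PtoW_Jinv : (J : G R)⁻¹ = dg (-1) * J := J_inv

theorem L_PtoW_dgJi (u : Rˣ) : (J : G R)⁻¹ * dg u = dg u⁻¹ * (J : G R)⁻¹ := by
  rw [J_inv, mul_assoc, J_dg, ← mul_assoc, ← mul_assoc, dg_comm]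

/-- The change of one label. -/
theorem L_PtoW_gf (h₀ : G R) (o : Bool) (h : G R) (d u : Rˣ) :
    gf h₀ o (h * dg d) * (h₀ * dg u * h₀⁻¹) =
      gf h₀ o (h * dg (if o = true then d * u else d * u⁻¹)) := by
  cases o
  · simp only [gf, Bool.false_eq_true, if_false]
    rw [dg_mul]
    have : h * dg d * (J : G R)⁻¹ * h₀⁻¹ * (h₀ * dg u * h₀⁻¹) =
      h * dg d * ((J : G R)⁻¹ * dg u) * h₀⁻¹ := by group
    rw [this, L_PtoW_dgJi]
    group
  · simp only [gf, if_true]
    rw [dg_mul]
    group

theorem L_PtoW_zip (M : Rˣ) (h₀ : G R) (y : ℕ) (u : Rˣ) (b : List Bool) :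
    ∀ (s : List (G R)) (n : List ℕ) (d : List Rˣ),
    s.length = b.length → n.length = b.length → d.length = b.length →
    List.zipWith (fun (a : G R × G R) (m : ℕ) =>
      (a.1, a.2 * (if m = y then h₀ * dg u * h₀⁻¹ else 1))) (lbs M h₀ b s d) n =
      lbs M h₀ b s (L_PtoW_sc y u b n d) := by
  induction b with
  | nil =>
    intro s n d h1 h2 h3
    rfl
  | cons x b ih =>
    intro s n d h1 h2 h3
    match s, n, d, h1, h2, h3 with
    | h :: s, m :: n, z :: d, h1, h2, h3 =>
      show ((lbl M h₀ x h z).1, (lbl M h₀ x h z).2 *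
          (if m = y then h₀ * dg u * h₀⁻¹ else 1)) ::
        List.zipWith (fun (a : G R × G R) (m : ℕ) =>
      (a.1, a.2 * (if m = y then h₀ * dg u * h₀⁻¹ else 1))) (lbs M h₀ b s d) n =
        lbl M h₀ x h (if m = y then (if x = true then z * u else z * u⁻¹) else z) ::
          lbs M h₀ b s (L_PtoW_sc y u b n d)
      rw [ih s n d (by simpa using h1) (by simpa using h2) (by simpa using h3)]
      congr 1
      by_cases hm : m = y
      · rw [if_pos hm, if_pos hm]
        unfold lbl
        rw [L_PtoW_gf]
      · rw [if_neg hm, if_neg hm, mul_one]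

theorem L_PtoW_gfmul (h₀ : G R) (o : Bool) (P h : G R) : gf h₀ o (P * h) = P * gf h₀ o h := by
  cases o
  · simp only [gf, Bool.false_eq_true, if_false, mul_assoc]
  · simp only [gf, if_true, mul_assoc]

/-- The transports of the two strands at a cup. -/
theorem L_PtoW_cup (h₀ : G R) (β : Bool) (h : G R) (a a' : Rˣ) (u : Rˣ)
    (hu : u = if β = true then a * a' else -(a * a')⁻¹) :
    gf h₀ (!β) (h * J * dg (if (!β) = true then a' * u else a' * u⁻¹)) = gf h₀ β (h * dg a) := by
  cases β
  · simp only [Bool.not_false, if_true, Bool.false_eq_true, if_false] at hu ⊢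
    simp only [gf, if_true, Bool.false_eq_true, if_false]
    have e : a' * u = -a⁻¹ := by
      rw [hu, mul_neg, mul_inv_rev, mul_inv_cancel_left]
    rw [e, mul_assoc h, J_dg, J_inv]
    have e2 : (-a⁻¹)⁻¹ = a * -1 := by
      rw [inv_neg, inv_inv, mul_neg, mul_one]
    rw [e2, dg_mul]
    group
  · simp only [Bool.not_true, if_true, Bool.false_eq_true, if_false] at hu ⊢
    simp only [gf, if_true, Bool.false_eq_true, if_false]
    have e : a' * u⁻¹ = a⁻¹ := by
      rw [hu, mul_inv_rev, mul_inv_cancel_left]
    rw [e, mul_assoc h, J_dg, inv_inv]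
    group

theorem L_PtoW_cap (h₀ : G R) (β : Bool) (h : G R) (τ : Rˣ) :
    gf h₀ (!β) (h * J * dg τ * dg (if β = true then τ⁻¹ else -τ⁻¹)) = gf h₀ β (h * dg 1) := by
  cases β
  · simp only [Bool.not_false, Bool.false_eq_true, if_false]
    simp only [gf, if_true, Bool.false_eq_true, if_false]
    have e : h * J * dg τ * dg (-τ⁻¹) = h * (J * dg (-1)) := by
      rw [mul_assoc (h * J), ← dg_mul, mul_neg, mul_inv_cancel, mul_assoc]
    rw [e, ← dg_neg_comm, ← J_inv, dg_one, mul_one]
  · simp only [Bool.not_true, if_true]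
    simp only [gf, if_true, Bool.false_eq_true, if_false]
    rw [mul_assoc (h * J), ← dg_mul, mul_inv_cancel, dg_one, mul_one, mul_one,
      mul_inv_cancel_right]

end

/-- If a label occurs twice at the new strands, there is a closed component. -/
theorem L_PtoW_ne {w : List Mv} {pl ql L : List ℕ} {pb qb : List Bool} {β : Bool} {x : ℕ}
    (hNC : NC ((.cup, pl.length) :: w)) (hC : CPath w (pl ++ x :: x :: ql) [] L)
    (h1 : pl.length = pb.length) (h2 : ql.length = qb.length)
    (hcnt : ∀ z ∈ pl ++ x :: x :: ql,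
      (List.zip (pl ++ x :: x :: ql) (pb ++ β :: (!β) :: qb)).count (z, true) = 1 ∧
      (List.zip (pl ++ x :: x :: ql) (pb ++ β :: (!β) :: qb)).count (z, false) = 1) : False := by
  have hx := hcnt x (by simp)
  rw [List.zip_append h1, List.zip_cons_cons, List.zip_cons_cons, List.count_append,
    List.count_append, List.count_cons, List.count_cons, List.count_cons, List.count_cons] at hx
  have hz : (List.zip pl pb).count (x, true) = 0 ∧ (List.zip pl pb).count (x, false) = 0 ∧
      (List.zip ql qb).count (x, true) = 0 ∧ (List.zip ql qb).count (x, false) = 0 := by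
    cases β <;> simp at hx <;> omega
  have hnot : ∀ (l : List ℕ) (b : List Bool), l.length = b.length →
      (List.zip l b).count (x, true) = 0 → (List.zip l b).count (x, false) = 0 → x ∉ l := by
    intro l
    induction l with
    | nil => intro b _ _ _; simp
    | cons n l ih =>
      intro b hb c1 c2
      match b, hb with
      | o :: b, hb =>
        rw [List.zip_cons_cons, List.count_cons] at c1 c2
        rw [List.mem_cons, not_or]
        refine ⟨?_, ih b (by simpa using hb) (by omega) (by omega)⟩
        rintro rfl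
        cases o <;> simp at c1 c2
  have n1 := hnot pl pb h1 hz.1 hz.2.1
  have n2 := hnot ql qb h2 hz.2.2.1 hz.2.2.2
  have h3 := L_PtoW_cmap (fun n => if n = x then 1 else 0) _ _ _ _ hC
  have z1 : ∀ l : List ℕ, x ∉ l → l.map (fun n => if n = x then 1 else 0) =
      List.replicate l.length 0 := by
    intro l hl
    rw [List.eq_replicate_iff]
    refine ⟨by simp, fun b hb => ?_⟩
    obtain ⟨n, hn, rfl⟩ := List.mem_map.1 hb
    rw [if_neg]
    rintro rfl
    exact hl hn
  rw [List.map_append, List.map_cons, List.map_cons, z1 pl n1, z1 ql n2, if_pos rfl,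
    List.map_nil] at h3
  have h4 : CStep (.cup, (List.replicate pl.length 0).length)
      (List.replicate pl.length 0 ++ List.replicate ql.length 0)
      (List.replicate pl.length 0 ++ 1 :: 1 :: List.replicate ql.length 0) [1] :=
    L_PtoW_cshift (CStep.cup 1 _) _
  rw [List.length_replicate] at h4
  have h5 := hNC _ _ (CPath.cons h4 h3) 1 (by simp)
  simp at h5

theorem prf_PtoW (hGenEx : GenEx) (hNCTail : NCTail) (hWScale : WScale)
    (hPathScale : PathScale) : PtoW := by
  have _hP := hPathScale
  intro R _ M h₀ w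
  induction w with
  | nil =>
    intro b e s τ hO _ hlen hp
    cases hp
    cases hO
    exact ⟨[], rfl, WPath.nil _, Or.inl (by simp)⟩
  | cons m w ih =>
    intro b e s τ hO hNC hlen hp
    have hNC' := hNCTail m w b e hO hNC
    obtain ⟨k, i⟩ := m
    cases hO with
    | cons hos hOw =>
      rename_i b₁ e₁ e₂
      cases hp with
      | cons hst hpw =>
        rename_i s₁ τ₁ τ₂
        obtain ⟨p, s₀, s₀', hpi, rfl, rfl, hst0⟩ := L_PtoW_sstep i _ _ _ hst
        obtain ⟨pb, b₀, b₀', hbi, rfl, rfl, hos0⟩ := L_PtoW_ostep i _ _ _ hos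
        have hpb : p.length = pb.length := by rw [hpi, hbi]
        cases k with
        | cup =>
          cases hst0
          rename_i h
          cases hos0
          rename_i β
          have hl0 : b₀.length = s₀.length := by
            rw [List.length_append, List.length_append] at hlen
            omega
          obtain ⟨d₁, hd1, hW, hτ⟩ := ih _ _ _ _ hOw hNC' (by simp; omega) hpw
          obtain ⟨pd, qd', rfl, hpd, hqd'⟩ := L_PtoW_split d₁ p.length (s₀.length + 2) (by
            rw [hd1, List.length_append]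
            simp)
          obtain ⟨a, a', qd, rfl, hqd⟩ := L_PtoW_two qd' s₀.length hqd'
          obtain ⟨l, L, hC, hll, hcnt⟩ := hGenEx w _ _ hOw hNC'
          obtain ⟨pl, ql', rfl, hpl, hql'⟩ := L_PtoW_split l p.length (b₀.length + 2) (by
            rw [hll, List.length_append]
            simp
            omega)
          obtain ⟨x, y, ql, rfl, hql⟩ := L_PtoW_two ql' b₀.length hql'
          have hxy : x ≠ y := by
            rintro rfl
            refine L_PtoW_ne (pb := pb) (qb := b₀) (β := β) ?_ hC (by omega) (by omega) hcnt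
            rw [hpl, hpi]
            exact hNC
          set u : Rˣ := if β = true then a * a' else -(a * a')⁻¹ with hu
          have hW2 := hWScale (G R) (fun n => if n = y then h₀ * dg u * h₀⁻¹ else 1) w _ _ _ _ _
            hW hC (by
              rw [L_PtoW_lbs_len, hll]
              · simp; omega
              · simp; omega)
          rw [L_PtoW_zip _ _ _ _ _ _ _ _ (by simp; omega) hll (by simp; omega),
            L_PtoW_sc_app _ _ _ _ _ _ _ _ (by omega) (by omega)] at hW2
          set pd' := L_PtoW_sc y u pb pl pd with hpd'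
          set qd'' := L_PtoW_sc y u b₀ ql qd with hqd''
          have hpdl : pd'.length = pb.length := L_PtoW_sc_len _ _ _ _ _ (by omega) (by omega)
          have hqdl : qd''.length = b₀.length := L_PtoW_sc_len _ _ _ _ _ (by omega) (by omega)
          have hsc : L_PtoW_sc y u (β :: (!β) :: b₀) (x :: y :: ql) (a :: a' :: qd) =
              a :: (if (!β) = true then a' * u else a' * u⁻¹) :: qd'' := by
            show (if x = y then (if β = true then a * u else a * u⁻¹) else a) ::
              (if y = y then (if (!β) = true then a' * u else a' * u⁻¹) else a') :: qd'' = _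
            rw [if_neg hxy, if_pos rfl]
          rw [hsc, L_PtoW_lbs_app _ _ _ _ _ _ _ _ hpb (by omega)] at hW2
          refine ⟨pd' ++ qd'', ?_, ?_, ?_⟩
          · rw [List.length_append, List.length_append]
            omega
          · rw [L_PtoW_lbs_app _ _ _ _ _ _ _ _ hpb (by omega)]
            refine WPath.cons ?_ hW2
            have h1 : lbs M h₀ (β :: (!β) :: b₀) (h :: h * J :: s₀)
                (a :: (if (!β) = true then a' * u else a' * u⁻¹) :: qd'') =
                (mer M h, gf h₀ β (h * dg a)) :: ((mer M h)⁻¹, gf h₀ β (h * dg a)) ::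
                  lbs M h₀ b₀ s₀ qd'' := by
              show lbl M h₀ β h a :: lbl M h₀ (!β) (h * J)
                (if (!β) = true then a' * u else a' * u⁻¹) :: lbs M h₀ b₀ s₀ qd'' = _
              unfold lbl
              rw [mer_J, L_PtoW_cup h₀ β h a a' u hu]
            rw [h1]
            have h2 := L_PtoW_wshift (WStep.cup (mer M h) (gf h₀ β (h * dg a))
              (lbs M h₀ b₀ s₀ qd'')) (lbs M h₀ pb p pd')
            rw [L_PtoW_lbs_len _ _ _ _ _ hpb hpdl, hbi] at h2
            exact h2
          · have c1 := hcnt y (by simp)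
            have c2 : (List.zip (pl ++ ql) (pb ++ b₀)).count (y, β) = 1 ∧
                (List.zip (pl ++ ql) (pb ++ b₀)).count (y, !β) = 0 := by
              rw [List.zip_append (by omega), List.zip_cons_cons, List.zip_cons_cons,
                List.count_append, List.count_append, List.count_cons, List.count_cons,
                List.count_cons, List.count_cons] at c1
              rw [List.zip_append (by omega), List.count_append, List.count_append]
              cases β <;> simp [hxy] at c1 ⊢ <;> omega
            have e1 : (pd' ++ qd'').prod = (pd ++ qd).prod * (if β = true then u else u⁻¹) := by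
              rw [hpd', hqd'', ← L_PtoW_sc_app _ _ _ _ _ _ _ _ (by omega) (by omega),
                L_PtoW_sc_prod _ _ _ _ _ (by simp; omega) (by simp; omega)]
              cases β
              · simp only [Bool.not_false] at c2
                rw [c2.1, c2.2, pow_zero, pow_one, mul_one]
                simp
              · simp only [Bool.not_true] at c2
                rw [c2.1, c2.2, pow_zero, pow_one, mul_one]
                simp
            have e2 : (pd ++ a :: a' :: qd).prod = (pd ++ qd).prod * (a * a') := by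
              rw [List.prod_append, List.prod_append, List.prod_cons, List.prod_cons]
              simp only [mul_assoc, mul_comm, mul_left_comm]
            rw [e2] at hτ
            have e3 : (1 : Rˣ) * τ₂ * (pd' ++ qd'').prod = τ₂ * ((pd ++ qd).prod * (a * a')) ∨
                (1 : Rˣ) * τ₂ * (pd' ++ qd'').prod = -(τ₂ * ((pd ++ qd).prod * (a * a'))) := by
              rw [e1, one_mul, hu]
              cases β
              · right
                simp only [Bool.false_eq_true, if_false]
                rw [inv_neg, inv_inv, mul_neg, mul_neg]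
              · left
                simp only [if_true]
            rcases e3 with e3 | e3
            · rw [e3]
              exact hτ
            · rw [e3]
              rcases hτ with hτ | hτ
              · right
                rw [hτ]
              · left
                rw [hτ, neg_neg]
        | cap =>
          cases hst0
          rename_i h
          cases hos0
          rename_i β
          have hl0 : b₀'.length = s₀'.length := by
            rw [List.length_append, List.length_append] at hlen
            simp only [List.length_cons] at hlen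
            omega
          obtain ⟨d₁, hd1, hW, hτ⟩ := ih _ _ _ _ hOw hNC' (by
            rw [List.length_append, List.length_append]; omega) hpw
          obtain ⟨pd, qd, rfl, hpd, hqd⟩ := L_PtoW_split d₁ p.length s₀'.length (by
            rw [hd1, List.length_append])
          rw [L_PtoW_lbs_app _ _ _ _ _ _ _ _ hpb (by omega)] at hW
          refine ⟨pd ++ 1 :: (if β = true then τ₁⁻¹ else -τ₁⁻¹) :: qd, ?_, ?_, ?_⟩
          · simp only [List.length_append, List.length_cons]
            omega
          · rw [L_PtoW_lbs_app _ _ _ _ _ _ _ _ hpb (by omega)]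
            refine WPath.cons ?_ hW
            have h1 : lbs M h₀ (β :: (!β) :: b₀') (h :: h * J * dg τ₁ :: s₀')
                (1 :: (if β = true then τ₁⁻¹ else -τ₁⁻¹) :: qd) =
                (mer M h, gf h₀ β (h * dg 1)) :: ((mer M h)⁻¹, gf h₀ β (h * dg 1)) ::
                  lbs M h₀ b₀' s₀' qd := by
              show lbl M h₀ β h 1 :: lbl M h₀ (!β) (h * J * dg τ₁)
                (if β = true then τ₁⁻¹ else -τ₁⁻¹) :: lbs M h₀ b₀' s₀' qd = _
              unfold lbl
              rw [mer_Jdg, L_PtoW_cap]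
            rw [h1]
            have h2 := L_PtoW_wshift (WStep.cap (mer M h) (gf h₀ β (h * dg 1))
              (lbs M h₀ b₀' s₀' qd)) (lbs M h₀ pb p pd)
            rw [L_PtoW_lbs_len _ _ _ _ _ hpb (by omega), hbi] at h2
            exact h2
          · have e1 : (pd ++ 1 :: (if β = true then τ₁⁻¹ else -τ₁⁻¹) :: qd).prod =
                (pd ++ qd).prod * (if β = true then τ₁⁻¹ else -τ₁⁻¹) := by
              rw [List.prod_append, List.prod_append, List.prod_cons, List.prod_cons, one_mul]
              simp only [mul_assoc, mul_comm]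
            rw [e1]
            cases β
            · simp only [Bool.false_eq_true, if_false]
              have e2 : τ₁ * τ₂ * ((pd ++ qd).prod * -τ₁⁻¹) = -(τ₂ * (pd ++ qd).prod) := by
                rw [mul_neg, mul_neg, mul_comm (pd ++ qd).prod, ← mul_assoc, mul_comm τ₁,
                  mul_assoc τ₂, mul_inv_cancel, mul_one]
              rw [e2]
              rcases hτ with hτ | hτ
              · right
                rw [hτ]
              · left
                rw [hτ, neg_neg]
            · simp only [if_true]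
              have e2 : τ₁ * τ₂ * ((pd ++ qd).prod * τ₁⁻¹) = τ₂ * (pd ++ qd).prod := by
                rw [mul_comm (pd ++ qd).prod, ← mul_assoc, mul_comm τ₁,
                  mul_assoc τ₂, mul_inv_cancel, mul_one]
              rw [e2]
              exact hτ
        | pos =>
          cases hst0
          rename_i h k q
          cases hos0
          rename_i β γ qb
          have hl0 : qb.length = q.length := by
            rw [List.length_append, List.length_append] at hlen
            simp only [List.length_cons] at hlen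
            omega
          obtain ⟨d₁, hd1, hW, hτ⟩ := ih _ _ _ _ hOw hNC' (by simp; omega) hpw
          obtain ⟨pd, qd', rfl, hpd, hqd'⟩ := L_PtoW_split d₁ p.length (q.length + 2) (by
            rw [hd1, List.length_append]
            simp)
          obtain ⟨a, a', qd, rfl, hqd⟩ := L_PtoW_two qd' q.length hqd'
          rw [L_PtoW_lbs_app _ _ _ _ _ _ _ _ hpb (by omega)] at hW
          refine ⟨pd ++ a' :: a :: qd, ?_, ?_, ?_⟩
          · simp only [List.length_append, List.length_cons]
            omega
          · rw [L_PtoW_lbs_app _ _ _ _ _ _ _ _ hpb (by omega)]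
            refine WPath.cons ?_ hW
            have h1 : lbs M h₀ (γ :: β :: qb) (k :: (mer M k)⁻¹ * h :: q) (a :: a' :: qd) =
                (mer M k, gf h₀ γ (k * dg a)) ::
                ((mer M k)⁻¹ * mer M h * mer M k, (mer M k)⁻¹ * gf h₀ β (h * dg a')) ::
                  lbs M h₀ qb q qd := by
              show lbl M h₀ γ k a :: lbl M h₀ β ((mer M k)⁻¹ * h) a' :: lbs M h₀ qb q qd = _
              unfold lbl
              rw [mer_mul, inv_inv, mul_assoc (mer M k)⁻¹ h, L_PtoW_gfmul h₀ β (mer M k)⁻¹ (h * dg a')]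
            rw [h1]
            have h2 := L_PtoW_wshift (WStep.pos (mer M h) (gf h₀ β (h * dg a')) (mer M k)
              (gf h₀ γ (k * dg a)) (lbs M h₀ qb q qd)) (lbs M h₀ pb p pd)
            rw [L_PtoW_lbs_len _ _ _ _ _ hpb (by omega), hbi] at h2
            exact h2
          · have e1 : (pd ++ a' :: a :: qd).prod = (pd ++ a :: a' :: qd).prod := by
              rw [List.prod_append, List.prod_append, List.prod_cons, List.prod_cons,
                List.prod_cons, List.prod_cons, mul_left_comm a']
            rw [e1, one_mul]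
            exact hτ
        | neg =>
          cases hst0
          rename_i h k q
          cases hos0
          rename_i β γ qb
          have hl0 : qb.length = q.length := by
            rw [List.length_append, List.length_append] at hlen
            simp only [List.length_cons] at hlen
            omega
          obtain ⟨d₁, hd1, hW, hτ⟩ := ih _ _ _ _ hOw hNC' (by simp; omega) hpw
          obtain ⟨pd, qd', rfl, hpd, hqd'⟩ := L_PtoW_split d₁ p.length (q.length + 2) (by
            rw [hd1, List.length_append]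
            simp)
          obtain ⟨a, a', qd, rfl, hqd⟩ := L_PtoW_two qd' q.length hqd'
          rw [L_PtoW_lbs_app _ _ _ _ _ _ _ _ hpb (by omega)] at hW
          refine ⟨pd ++ a' :: a :: qd, ?_, ?_, ?_⟩
          · simp only [List.length_append, List.length_cons]
            omega
          · rw [L_PtoW_lbs_app _ _ _ _ _ _ _ _ hpb (by omega)]
            refine WPath.cons ?_ hW
            have h1 : lbs M h₀ (γ :: β :: qb) (mer M h * k :: h :: q) (a :: a' :: qd) =
                (mer M h * mer M k * (mer M h)⁻¹, mer M h * gf h₀ γ (k * dg a)) ::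
                (mer M h, gf h₀ β (h * dg a')) :: lbs M h₀ qb q qd := by
              show lbl M h₀ γ (mer M h * k) a :: lbl M h₀ β h a' :: lbs M h₀ qb q qd = _
              unfold lbl
              rw [mer_mul, mul_assoc (mer M h) k, L_PtoW_gfmul h₀ γ (mer M h) (k * dg a)]
            rw [h1]
            have h2 := L_PtoW_wshift (WStep.neg (mer M h) (gf h₀ β (h * dg a')) (mer M k)
              (gf h₀ γ (k * dg a)) (lbs M h₀ qb q qd)) (lbs M h₀ pb p pd)
            rw [L_PtoW_lbs_len _ _ _ _ _ hpb (by omega), hbi] at h2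
            exact h2
          · have e1 : (pd ++ a' :: a :: qd).prod = (pd ++ a :: a' :: qd).prod := by
              rw [List.prod_append, List.prod_append, List.prod_cons, List.prod_cons,
                List.prod_cons, List.prod_cons, mul_left_comm a']
            rw [e1, one_mul]
            exact hτ

end AJM

end

section

/-!
# MP_d3fa71_gt, project Mut: rotation of a two-strand word
-/

namespace AJM

section
variable {R : Type} [CommRing R]

theorem L_RotInv_sh {M : Rˣ} {k : Kd} {i : ℕ} {x : G R} {s s' : List (G R)} {τ : Rˣ} :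
    Step M (k, i + 1) (x :: s) s' τ ↔ ∃ s'', s' = x :: s'' ∧ Step M (k, i) s s'' τ := by
  constructor
  · intro h
    cases h with
    | sh _ h => exact ⟨_, rfl, h⟩
  · rintro ⟨s'', rfl, h⟩
    exact .sh _ h

theorem L_RotInv_cup {M : Rˣ} {s s' : List (G R)} {τ : Rˣ} :
    Step M (.cup, 0) s s' τ ↔ ∃ h, s' = h :: h * J :: s ∧ τ = 1 := by
  constructor
  · intro h
    cases h with
    | cup h _ => exact ⟨h, rfl, rfl⟩
  · rintro ⟨h, rfl, rfl⟩
    exact .cup _ _

theorem L_RotInv_cap {M : Rˣ} {s s' : List (G R)} {τ : Rˣ} :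
    Step M (.cap, 0) s s' τ ↔ ∃ h, s = h :: h * J * dg τ :: s' := by
  constructor
  · intro h
    cases h with
    | cap h _ _ => exact ⟨h, rfl⟩
  · rintro ⟨h, rfl⟩
    exact .cap _ _ _

theorem L_RotInv_cons {M : Rˣ} {m : Mv} {w : List Mv} {s s' : List (G R)} {τ : Rˣ} :
    Path M (m :: w) s s' τ ↔ ∃ (s₁ : List (G R)) (τ₁ τ₂ : Rˣ), Step M m s s₁ τ₁ ∧
      Path M w s₁ s' τ₂ ∧ τ = τ₁ * τ₂ := by
  constructor
  · intro h
    cases h with
    | cons h1 h2 => exact ⟨_, _, _, h1, h2, rfl⟩
  · rintro ⟨s₁, τ₁, τ₂, h1, h2, rfl⟩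
    exact .cons h1 h2

theorem L_RotInv_nil {M : Rˣ} {s s' : List (G R)} {τ : Rˣ} :
    Path M [] s s' τ ↔ s' = s ∧ τ = 1 := by
  constructor
  · intro h
    cases h with
    | nil => exact ⟨rfl, rfl⟩
  · rintro ⟨rfl, rfl⟩
    exact .nil _

theorem L_RotInv_one {M : Rˣ} {m : Mv} {s s' : List (G R)} {τ : Rˣ} :
    Path M [m] s s' τ ↔ Step M m s s' τ := by
  rw [L_RotInv_cons]
  constructor
  · rintro ⟨s₁, τ₁, τ₂, h1, h2, rfl⟩
    obtain ⟨rfl, rfl⟩ := L_RotInv_nil.1 h2
    rwa [mul_one]
  · intro h
    exact ⟨s', τ, 1, h, .nil _, (mul_one _).symm⟩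

end

theorem prf_RotInv (hPathAppend : PathAppend) (hPathShift : PathShift) (hPathRight : PathRight) :
    RotInv := by
  intro R _ M w ha hb ha' hb' τ hw
  have hrot : rot w = (.cup, 2) :: (sh 1 w ++ [(.cap, 0)]) := rfl
  rw [hrot, L_RotInv_cons]
  constructor
  · rintro ⟨s₁, τ₁, τ₂, h1, h2, rfl⟩
    obtain ⟨s₂, rfl, h1a⟩ := (L_RotInv_sh (i := 1)).1 h1
    obtain ⟨s₃, rfl, h1b⟩ := (L_RotInv_sh (i := 0)).1 h1a
    obtain ⟨k, rfl, rfl⟩ := L_RotInv_cup.1 h1b
    obtain ⟨s₄, τ₃, τ₄, h3, h4, rfl⟩ := (hPathAppend R M _ _ _ _ _).1 h2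
    obtain ⟨s₅, rfl, h5⟩ := (hPathShift R M w [ha] [hb, k, k * J] _ _).1 h3
    obtain ⟨s₆, hl, rfl, h6⟩ := (hPathRight R M w 2 2 [hb, k] [k * J] _ _ hw rfl).1 h5
    rw [L_RotInv_one] at h4
    obtain ⟨h, h7⟩ := L_RotInv_cap.1 h4
    match s₆, hl with
    | [x1, x2], _ =>
      simp only [List.cons_append, List.nil_append, List.cons.injEq, and_true] at h7
      obtain ⟨rfl, rfl, rfl, rfl⟩ := h7
      exact ⟨k, τ₃, τ₄, h6, rfl, by rw [one_mul]⟩
  · rintro ⟨k, τ', τ'', h, rfl, rfl⟩
    refine ⟨[ha, hb, k, k * J], 1, τ' * τ'', ?_, ?_, (one_mul _).symm⟩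
    · exact .sh _ (.sh _ (.cup _ _))
    · refine (hPathAppend R M _ _ _ _ _).2 ⟨[ha, ha * J * dg τ'', ha', k * J], τ', τ'', ?_, ?_, rfl⟩
      · refine (hPathShift R M w [ha] [hb, k, k * J] _ _).2 ⟨_, rfl, ?_⟩
        exact (hPathRight R M w 2 2 [hb, k] [k * J] _ _ hw rfl).2
          ⟨[ha * J * dg τ'', ha'], rfl, rfl, h⟩
      · rw [L_RotInv_one]
        exact .cap _ _ _

end AJM

end

section

/-!
# MP_d3fa71_gt, project Mut, item ShiftSplit
-/

namespace AJM

section
variable {R : Type} [CommRing R]

theorem L_ShiftSplit_inv {M : Rˣ} {m : Mv} {s s₁ : List (G R)} {τ : Rˣ}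
    (h : Step M m s s₁ τ) : ∀ (kd : Kd) (i : ℕ), m = (kd, i + 1) →
    ∃ x s' s₁', s = x :: s' ∧ s₁ = x :: s₁' ∧ Step M (kd, i) s' s₁' τ := by
  cases h with
  | cup h s => intro kd i e; simp at e
  | cap h τ s => intro kd i e; simp at e
  | pos h k s => intro kd i e; simp at e
  | neg h k s => intro kd i e; simp at e
  | sh x hs =>
    intro kd i e
    simp only [Prod.mk.injEq, Nat.add_right_cancel_iff] at e
    obtain ⟨rfl, rfl⟩ := e
    exact ⟨x, _, _, rfl, rfl, hs⟩

theorem L_ShiftSplit_step {M : Rˣ} : ∀ (k : ℕ) (kd : Kd) (i : ℕ) (s s₁ : List (G R)) (τ : Rˣ),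
    Step M (kd, i + k) s s₁ τ →
    ∃ p s' s₁', p.length = k ∧ s = p ++ s' ∧ s₁ = p ++ s₁' ∧ Step M (kd, i) s' s₁' τ := by
  intro k
  induction k with
  | zero => intro kd i s s₁ τ h; exact ⟨[], s, s₁, rfl, rfl, rfl, h⟩
  | succ k ih =>
    intro kd i s s₁ τ h
    obtain ⟨x, s', s₁', rfl, rfl, h'⟩ := L_ShiftSplit_inv h kd (i + k) rfl
    obtain ⟨p, t, t₁, hp, rfl, rfl, h''⟩ := ih kd i s' s₁' τ h'
    exact ⟨x :: p, t, t₁, by simp [hp], rfl, rfl, h''⟩

end

theorem prf_ShiftSplit (_hPathAppend : PathAppend) : ShiftSplit := by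
  intro R _ M w k
  induction w with
  | nil => intro s s₁ τ h0; exact absurd rfl h0
  | cons m w ih =>
    intro s s₁ τ _ hP
    have e : sh k (m :: w) = (m.1, m.2 + k) :: sh k w := rfl
    rw [e] at hP
    cases hP with
    | cons hs hw =>
      rename_i smid τ₁ τ₂
      obtain ⟨p, s', t, hp, rfl, rfl, hs'⟩ := L_ShiftSplit_step k m.1 m.2 _ _ _ hs
      by_cases hwn : w = []
      · subst hwn
        have e2 : sh k ([] : List Mv) = [] := rfl
        rw [e2] at hw
        cases hw
        exact ⟨p, s', t, hp, rfl, rfl, Path.cons hs' (Path.nil t)⟩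
      · obtain ⟨q, t', s₁', hq, hqe, rfl, hw'⟩ := ih _ _ _ hwn hw
        obtain ⟨rfl, rfl⟩ := List.append_inj hqe (by rw [hp, hq])
        exact ⟨p, s', s₁', hp, rfl, rfl, Path.cons hs' hw'⟩

end AJM

end
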