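import Pool.Agent.Work.MP_d3fa71_gt.Mut.Main
import Pool.Agent.Work.MP_d3fa71_gt.Mut.Bd.B01
import Pool.Agent.Work.MP_d3fa71_gt.Mut.DefsJ

/-! Bundle of small proof modules (one section per former module). -/

section

/-!
# MP_d3fa71_gt, project Mut: item Loop
-/

open Filter

namespace AJM

namespace LoopX

section field
variable {k L : Type} [Field k] [Field L] [Algebra k L]

/-- the logarithmic derivative of an integral power. -/
theorem log_zpow (D : Derivation k L L) {x : L} (hx : x ≠ 0) (n : ℤ) :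
    D (x ^ n) / x ^ n = n * (D x / x) := by
  rw [Derivation.leibniz_zpow]
  have h1 : x ^ n ≠ 0 := zpow_ne_zero _ hx
  have h2 : x ^ (n - 1) = x ^ n / x := by rw [zpow_sub_one₀ hx, div_eq_mul_inv]
  rw [h2, zsmul_eq_mul, smul_eq_mul]
  field_simp

/-- constants times a power. -/
theorem dl_cpow (D D' : Derivation k L L) {c x : L} (hc : c ≠ 0) (hx : x ≠ 0)
    (h : D c = 0) (h' : D' c = 0) (n : ℤ) : dl D D' (c * x ^ n) x = 0 := by
  have key : ∀ E : Derivation k L L, E c = 0 → E (c * x ^ n) / (c * x ^ n) = n * (E x / x) := by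
    intro E hE
    rw [Derivation.leibniz, hE, smul_zero, add_zero, smul_eq_mul, mul_div_mul_left _ _ hc,
      log_zpow E hx]
  unfold dl
  rw [key D h, key D' h']
  ring

theorem dl_pow (D D' : Derivation k L L) {x : L} (hx : x ≠ 0) (n : ℤ) :
    dl D D' (x ^ n) x = 0 := by
  unfold dl
  rw [log_zpow D hx, log_zpow D' hx]
  ring

theorem of_dl (D D' : Derivation k L L) {x y : L} (hx : x ≠ 0) (hy : y ≠ 0)
    (h : dl D D' x y = 0) : D x * D' y = D' x * D y := by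
  unfold dl at h
  field_simp at h
  linear_combination h

end field

variable {F : Type} [Field F]

/-- `gu` as a homomorphism. -/
noncomputable def gh (F : Type) [Field F] : (ℕ → Fˣ) →* (Gm F)ˣ where
  toFun := gu
  map_one' := by
    apply Units.ext
    rfl
  map_mul' := by
    intro x y
    apply Units.ext
    rfl

theorem gu_zpow (x : ℕ → Fˣ) (e : ℤ) : gu (fun i => x i ^ e) = gu x ^ e := by
  have h := map_zpow (gh F) x e
  exact h

theorem gu_coe (x : ℕ → Fˣ) : (gu x : Gm F) = gm F (fun i => (x i : F)) := rfl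

variable [Algebra ℂ F]

/-- germs of constants are killed by the derivations. -/
theorem D_cst (D : Derivation (kst F) (Gm F) (Gm F)) (c : ℕ → ℂ) :
    D (gm F (fun i => algebraMap ℂ F (c i))) = 0 := by
  have hmem : gm F (fun i => algebraMap ℂ F (c i)) ∈ kst F := ⟨c, rfl⟩
  exact D.map_algebraMap ⟨_, hmem⟩

instance charZeroGm : CharZero (Gm F) := by
  have f : ℂ →+* Gm F :=
    (gm F).comp ((RingHom.compLeft (algebraMap ℂ F) ℕ).comp (Pi.constRingHom ℕ ℂ))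
  exact charZero_of_injective_ringHom f.injective

end LoopX

open LoopX in
theorem prf_Loop (hI : Iso) (hG : GermPath) (hD : DTL) : Loop := by
  intro F _ _ w M τ n Θ j a N ha hP hτ hoth hj
  refine hD F (fun i => (Θ j i).1) (fun i => (Θ j i).2) (fun i => -a i)
    (fun i i' h => ha (neg_injective h)) (fun i => ?_) (fun D D' => ?_)
  · rw [hj i, ← zpow_add, add_neg_cancel, zpow_zero]
  have h1 := hI (kst F) (Gm F) D D' (gu M) w (gu τ) _ (hG F w M τ n Θ hP)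
  rw [List.map_ofFn, List.sum_ofFn] at h1
  choose c hc using hτ
  have hτc : (gu τ : Gm F) = gm F (fun i => algebraMap ℂ F (c i)) * (gu M : Gm F) ^ N := by
    have e1 : gu (fun i => M i ^ N) = gu M ^ N := gu_zpow M N
    have e2 : ((gu M : Gm F)) ^ N = gm F (fun i => ((M i ^ N : Fˣ) : F)) := by
      rw [← Units.val_zpow_eq_zpow_val, ← e1]
      rfl
    rw [e2, ← map_mul, gu_coe]
    congr 1
    funext i
    exact hc i
  have hne : gm F (fun i => algebraMap ℂ F (c i)) ≠ 0 := by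
    intro h0
    rw [h0, zero_mul] at hτc
    exact (gu τ).ne_zero hτc
  have h2 : dl D D' (gu τ : Gm F) (gu M : Gm F) = 0 := by
    rw [hτc]
    exact dl_cpow D D' hne (gu M).ne_zero (D_cst D c) (D_cst D' c) N
  rw [h2, Finset.sum_eq_single j] at h1
  · exact of_dl D D' (Units.ne_zero _) (Units.ne_zero _) h1
  · intro l _ hl
    show dl D D' ((gu fun i => (Θ l i).1 : (Gm F)ˣ) : Gm F)
      ((gu fun i => (Θ l i).2 : (Gm F)ˣ) : Gm F) = 0
    rcases hoth l hl with ⟨e, he⟩ | h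
    · have h3 : (fun i => (Θ l i).1) = fun i => (Θ l i).2 ^ e := funext he
      rw [h3, gu_zpow (fun i => (Θ l i).2) e, Units.val_zpow_eq_zpow_val]
      exact dl_pow D D' (Units.ne_zero _) e
    · choose c1 hc1 using fun i => (h i).1
      have h4 : ((gu fun i => (Θ l i).1 : (Gm F)ˣ) : Gm F) =
          gm F (fun i => algebraMap ℂ F (c1 i)) := by
        rw [gu_coe]
        congr 1
        funext i
        exact hc1 i
      unfold dl
      rw [h4, D_cst D c1, D_cst D' c1]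
      ring
  · intro hj'
    exact absurd (Finset.mem_univ j) hj'

end AJM

end

section

/-!
# MP_d3fa71_gt, project Mut, block I: basic facts on paths
-/

set_option autoImplicit false

namespace AJM

theorem prf_PathAppend : PathAppend := by
  intro R _ M w₁
  induction w₁ with
  | nil =>
    intro w₂ s s'' τ
    constructor
    · intro h
      exact ⟨s, 1, τ, Path.nil s, h, (one_mul τ).symm⟩
    · rintro ⟨s', τ₁, τ₂, h₁, h₂, rfl⟩
      cases h₁
      rw [one_mul]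
      exact h₂
  | cons m w₁ ih =>
    intro w₂ s s'' τ
    constructor
    · intro h
      cases h with
      | cons hs hp =>
        obtain ⟨s', τ₁, τ₂, h₁, h₂, e⟩ := (ih w₂ _ _ _).1 hp
        exact ⟨s', _, τ₂, Path.cons hs h₁, h₂, by rw [e, mul_assoc]⟩
    · rintro ⟨s', τ₁, τ₂, h₁, h₂, rfl⟩
      cases h₁ with
      | cons hs hp =>
        rw [mul_assoc]
        exact Path.cons hs ((ih w₂ _ _ _).2 ⟨s', _, τ₂, hp, h₂, rfl⟩)

theorem prf_DPathAppend : DPathAppend := by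
  intro R _ M w₁
  induction w₁ with
  | nil =>
    intro w₂ s s'' τ Θ
    constructor
    · intro h
      exact ⟨s, 1, τ, [], Θ, DPath.nil s, h, (one_mul τ).symm, rfl⟩
    · rintro ⟨s', τ₁, τ₂, Θ₁, Θ₂, h₁, h₂, rfl, rfl⟩
      cases h₁
      rw [one_mul]
      exact h₂
  | cons m w₁ ih =>
    intro w₂ s s'' τ Θ
    constructor
    · intro h
      cases h with
      | cons hs hp =>
        obtain ⟨s', τ₁, τ₂, Θ₁, Θ₂, h₁, h₂, e, e'⟩ := (ih w₂ _ _ _ _).1 hp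
        exact ⟨s', _, τ₂, _, Θ₂, DPath.cons hs h₁, h₂, by rw [e, mul_assoc],
          by rw [e', List.append_assoc]⟩
    · rintro ⟨s', τ₁, τ₂, Θ₁, Θ₂, h₁, h₂, rfl, rfl⟩
      cases h₁ with
      | cons hs hp =>
        rw [mul_assoc, List.append_assoc]
        exact DPath.cons hs ((ih w₂ _ _ _ _).2 ⟨s', _, τ₂, _, Θ₂, hp, h₂, rfl, rfl⟩)

namespace PathX

variable {R : Type} [CommRing R] {M : Rˣ}

theorem step_emb {m : Mv} {s s' : List (G R)} {τ : Rˣ} (h : Step M m s s' τ) :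
    DStep M (.mv m.1, m.2) s s' τ [] := by
  induction h with
  | cup h s => exact DStep.cup h s
  | cap h τ s => exact DStep.cap h τ s
  | pos h k s => exact DStep.pos h k s
  | neg h k s => exact DStep.neg h k s
  | sh x _ ih => exact DStep.sh x ih

theorem emb_step {dm : DMv} {s s' : List (G R)} {τ : Rˣ} {Θ : List (Rˣ × Rˣ)}
    (h : DStep M dm s s' τ Θ) : ∀ k i, dm = (.mv k, i) → Step M (k, i) s s' τ ∧ Θ = [] := by
  induction h with
  | cup h s =>
    intro k i e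
    cases e
    exact ⟨Step.cup h s, rfl⟩
  | cap h τ s =>
    intro k i e
    cases e
    exact ⟨Step.cap h τ s, rfl⟩
  | pos h k s =>
    intro k' i e
    cases e
    exact ⟨Step.pos h k s, rfl⟩
  | neg h k s =>
    intro k' i e
    cases e
    exact ⟨Step.neg h k s, rfl⟩
  | tw => intro k i e; cases e
  | sh x _ ih =>
    intro k i e
    cases e
    obtain ⟨h1, h2⟩ := ih _ _ rfl
    exact ⟨Step.sh x h1, h2⟩

theorem mer_mul (P h : G R) : mer M (P * h) = P * mer M h * P⁻¹ := by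
  simp only [mer, mul_inv_rev, mul_assoc]

theorem dg_mul (u v : Rˣ) : dg (u * v) = dg u * dg v := by
  apply Subtype.ext
  rw [Matrix.SpecialLinearGroup.coe_mul]
  simp [dg, mul_comm]

theorem dg_one : dg (1 : Rˣ) = 1 := by
  apply Subtype.ext
  simp [dg, Matrix.one_fin_two]

theorem dg_inv (u : Rˣ) : (dg u)⁻¹ = dg u⁻¹ := by
  rw [inv_eq_iff_mul_eq_one, ← dg_mul, mul_inv_cancel, dg_one]

theorem dg_comm (u v : Rˣ) : dg u * dg v = dg v * dg u := by
  rw [← dg_mul, ← dg_mul, mul_comm]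

/-- `dg u * J * dg u = J`. -/
theorem dg_J_dg (u : Rˣ) : dg u * J * dg u = J := by
  apply Subtype.ext
  rw [Matrix.SpecialLinearGroup.coe_mul, Matrix.SpecialLinearGroup.coe_mul]
  simp [dg, J]

theorem mer_dg (h : G R) (u : Rˣ) : mer M (h * dg u) = mer M h := by
  unfold mer
  rw [mul_inv_rev, mul_assoc h, dg_comm, ← mul_assoc h, mul_assoc (h * dg M), mul_inv_cancel_left]

theorem step_conj (P : G R) {m : Mv} {s s' : List (G R)} {τ : Rˣ} (h : Step M m s s' τ) :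
    Step M m (s.map (P * ·)) (s'.map (P * ·)) τ := by
  induction h with
  | cup h s =>
    simp only [List.map_cons, ← mul_assoc]
    exact Step.cup (P * h) _
  | cap h τ s =>
    simp only [List.map_cons, ← mul_assoc]
    exact Step.cap (P * h) τ _
  | pos h k s =>
    simp only [List.map_cons]
    have e : P * ((mer M k)⁻¹ * h) = (mer M (P * k))⁻¹ * (P * h) := by
      rw [mer_mul]
      group
    rw [e]
    exact Step.pos (P * h) (P * k) _
  | neg h k s =>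
    simp only [List.map_cons]
    have e : P * (mer M h * k) = mer M (P * h) * (P * k) := by
      rw [mer_mul]
      group
    rw [e]
    exact Step.neg (P * h) (P * k) _
  | sh x _ ih =>
    simp only [List.map_cons]
    exact Step.sh (P * x) ih

theorem step_scale {m : Mv} {s s' : List (G R)} {τ : Rˣ} (h : Step M m s s' τ) :
    ∀ d : List Rˣ, d.length = s.length → ∃ (d' : List Rˣ) (τ' : Rˣ), d'.length = s'.length ∧
      Step M m (scl s d) (scl s' d') τ' ∧ τ' * d'.prod = τ * d.prod := by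
  induction h with
  | cup h s =>
    intro d hd
    refine ⟨1 :: 1 :: d, 1, by simp [hd], ?_, by simp⟩
    have e : scl (h :: h * J :: s) (1 :: 1 :: d) = h :: h * J :: scl s d := by
      simp [scl, dg_one]
    rw [e]
    exact Step.cup h _
  | cap h τ s =>
    intro d hd
    match d, hd with
    | a :: b :: d, hd =>
      refine ⟨d, a * τ * b, by simpa using hd, ?_, ?_⟩
      · have e : scl (h :: h * J * dg τ :: s) (a :: b :: d) =
            (h * dg a) :: (h * dg a) * J * dg (a * τ * b) :: scl s d := by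
          have e1 : h * J * dg τ * dg b = h * dg a * J * dg (a * τ * b) := by
            have e2 : h * dg a * J * dg (a * τ * b) = h * (dg a * J * dg a) * dg τ * dg b := by
              rw [dg_mul, dg_mul]
              simp only [mul_assoc]
            rw [e2, dg_J_dg]
          simp only [scl, List.zipWith_cons_cons]
          rw [e1]
        rw [e]
        exact Step.cap (h * dg a) _ _
      · rw [List.prod_cons, List.prod_cons, mul_comm a τ, mul_assoc, mul_assoc]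
  | pos h k s =>
    intro d hd
    match d, hd with
    | a :: b :: d, hd =>
      refine ⟨b :: a :: d, 1, by simpa using hd, ?_, ?_⟩
      · have e : scl (k :: (mer M k)⁻¹ * h :: s) (b :: a :: d) =
            (k * dg b) :: (mer M (k * dg b))⁻¹ * (h * dg a) :: scl s d := by
          simp only [scl, List.zipWith_cons_cons, mer_dg, mul_assoc]
        rw [e]
        exact Step.pos (h * dg a) (k * dg b) _
      · simp only [List.prod_cons]
        rw [one_mul, one_mul, mul_left_comm]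
  | neg h k s =>
    intro d hd
    match d, hd with
    | a :: b :: d, hd =>
      refine ⟨b :: a :: d, 1, by simpa using hd, ?_, ?_⟩
      · have e : scl (mer M h * k :: h :: s) (b :: a :: d) =
            mer M (h * dg a) * (k * dg b) :: (h * dg a) :: scl s d := by
          simp only [scl, List.zipWith_cons_cons, mer_dg, mul_assoc]
        rw [e]
        exact Step.neg (h * dg a) (k * dg b) _
      · simp only [List.prod_cons]
        rw [one_mul, one_mul, mul_left_comm]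
  | sh x _ ih =>
    intro d hd
    match d, hd with
    | a :: d, hd =>
      obtain ⟨d', τ', h1, h2, h3⟩ := ih d (by simpa using hd)
      refine ⟨a :: d', τ', by simpa using h1, ?_, ?_⟩
      · exact Step.sh (x * dg a) h2
      · rw [List.prod_cons, List.prod_cons, mul_left_comm, h3, mul_left_comm]

end PathX

open PathX

theorem prf_PathEmb : PathEmb := by
  intro R _ M w
  induction w with
  | nil =>
    intro s s' τ
    constructor
    · intro h
      cases h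
      exact DPath.nil s
    · intro h
      cases h
      exact Path.nil s
  | cons m w ih =>
    intro s s' τ
    constructor
    · intro h
      cases h with
      | cons hs hp => exact DPath.cons (step_emb hs) ((ih _ _ _).1 hp)
    · intro h
      have h' : DPath M ((.mv m.1, m.2) :: emb w) s s' τ [] := h
      generalize e : ([] : List (Rˣ × Rˣ)) = Θ at h'
      cases h' with
      | cons hs hp =>
        obtain ⟨h1, h2⟩ := emb_step hs _ _ rfl
        rw [h2, List.nil_append] at e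
        subst e
        exact Path.cons h1 ((ih _ _ _).2 hp)

theorem PathX.step_sh {R : Type} [CommRing R] {M : Rˣ} (k : Kd) (i : ℕ) (p : List (G R)) :
    ∀ (s s₁ : List (G R)) (τ : Rˣ),
    Step M (k, i + p.length) (p ++ s) s₁ τ ↔ ∃ s', s₁ = p ++ s' ∧ Step M (k, i) s s' τ := by
  induction p with
  | nil =>
    intro s s₁ τ
    constructor
    · intro h
      exact ⟨s₁, rfl, h⟩
    · rintro ⟨s', rfl, h⟩
      exact h
  | cons x p ih =>
    intro s s₁ τ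
    constructor
    · intro h
      have h' : Step M (k, (i + p.length) + 1) (x :: (p ++ s)) s₁ τ := h
      cases h' with
      | sh _ h' =>
        obtain ⟨s', e, h2⟩ := (ih s _ τ).1 h'
        exact ⟨s', by rw [e]; rfl, h2⟩
    · rintro ⟨s', rfl, h⟩
      exact Step.sh x ((ih s _ τ).2 ⟨s', rfl, h⟩)

theorem prf_PathShift : PathShift := by
  intro R _ M w p
  induction w with
  | nil =>
    intro s s₁ τ
    constructor
    · intro h
      cases h
      exact ⟨s, rfl, Path.nil s⟩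
    · rintro ⟨s', rfl, h⟩
      cases h
      exact Path.nil _
  | cons m w ih =>
    intro s s₁ τ
    obtain ⟨k, i⟩ := m
    constructor
    · intro h
      have h' : Path M ((k, i + p.length) :: sh p.length w) (p ++ s) s₁ τ := h
      cases h' with
      | cons hs hp =>
        obtain ⟨s', e, h2⟩ := (step_sh k i p s _ _).1 hs
        subst e
        obtain ⟨s'', e, h3⟩ := (ih s' _ _).1 hp
        exact ⟨s'', e, Path.cons h2 h3⟩
    · rintro ⟨s', rfl, h⟩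
      cases h with
      | cons hs hp =>
        exact Path.cons ((step_sh k i p s _ _).2 ⟨_, rfl, hs⟩) ((ih _ _ _).2 ⟨s', rfl, hp⟩)

theorem prf_PathConj : PathConj := by
  intro R _ M P w s s' τ h
  induction h with
  | nil s => exact Path.nil _
  | cons hs _ ih => exact Path.cons (step_conj P hs) ih

theorem prf_PathScale : PathScale := by
  intro R _ M w s s' τ d h
  induction h generalizing d with
  | nil s =>
    intro hd
    exact ⟨d, 1, hd, Path.nil _, rfl⟩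
  | cons hs _ ih =>
    intro hd
    obtain ⟨d', τ', h1, h2, h3⟩ := step_scale hs d hd
    obtain ⟨d'', τ'', h4, h5, h6⟩ := ih d' h1
    refine ⟨d'', τ' * τ'', h4, Path.cons h2 h5, ?_⟩
    rw [mul_assoc, h6, mul_left_comm, h3, mul_left_comm, mul_assoc]

end AJM

end

section

/-!
# MP_d3fa71_gt, project Mut, block E: columns, ring states, E1, E2, Alg
(captain helper45; see PROOF.md sections 5, 6, 7.1)
-/

namespace AJM

/-! ## Inversion of paths (meridian level) -/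

/-- All paths of `w` change only the two top strands, and the meridians satisfy `P`. -/
def Inv2 {R : Type} [CommRing R] (M : Rˣ) (w : List Mv) (P : G R → G R → G R → G R → Prop) :
    Prop :=
  ∀ (h k : G R) (s s' : List (G R)) (τ : Rˣ), Path M w (h :: k :: s) s' τ →
    ∃ h' k' : G R, s' = h' :: k' :: s ∧ P (mer M h) (mer M k) (mer M h') (mer M k')

/-- The trace of a meridian. -/
def mm {R : Type} [CommRing R] (M : Rˣ) : R := (M : R) + ((M⁻¹ : Rˣ) : R)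

def InvApp : Prop :=
  ∀ (R : Type) [CommRing R] (M : Rˣ) (w₁ w₂ : List Mv) (P₁ P₂ : G R → G R → G R → G R → Prop),
    Inv2 M w₁ P₁ → Inv2 M w₂ P₂ →
    Inv2 M (w₁ ++ w₂) (fun a b a' b' => ∃ c d : G R, tr c = mm M ∧ tr d = mm M ∧
      P₁ a b c d ∧ P₂ c d a' b')

def InvRot : Prop :=
  ∀ (R : Type) [CommRing R] (M : Rˣ) (w : List Mv) (P : G R → G R → G R → G R → Prop),
    Inv2 M w P → Inv2 M (rot w) (fun a b a' b' => P b b'⁻¹ a⁻¹ a')

/-- The reversed rotation. -/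
def InvRor : Prop :=
  ∀ (R : Type) [CommRing R] (M : Rˣ) (w : List Mv) (P : G R → G R → G R → G R → Prop),
    Inv2 M w P → Inv2 M ((.cup, 0) :: sh 1 w ++ [(.cap, 2)]) (fun a b a' b' => P a'⁻¹ a b' b⁻¹)

def InvTws : Prop :=
  ∀ (R : Type) [CommRing R] (M : Rˣ) (n : ℤ),
    Inv2 M (tws (2 * n)) (fun a b a' b' =>
      a' = ((a * b) ^ n)⁻¹ * a * (a * b) ^ n ∧ b' = ((a * b) ^ n)⁻¹ * b * (a * b) ^ n)

/-- The relation of the column with `2 r` half twists. -/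
def CRel {R : Type} [CommRing R] (r : ℤ) (a b a' b' : G R) : Prop :=
  b = (a⁻¹ * a') ^ r * a⁻¹ * ((a⁻¹ * a') ^ r)⁻¹ ∧ b' = (a⁻¹ * a') ^ r * a'⁻¹ * ((a⁻¹ * a') ^ r)⁻¹

def InvCol : Prop :=
  ∀ (R : Type) [CommRing R] (M : Rˣ) (r : ℤ), Inv2 M (rot (tws (2 * r))) (CRel r) ∧
    Inv2 M ((.cup, 0) :: sh 1 (tws (-(2 * r))) ++ [(.cap, 2)])
      (fun a b a' b' => CRel r a' b' a b)

/-- The relation of the rotated product of columns in `B₀`. -/
def RA {R : Type} [CommRing R] (m : R) (a b a' b' : G R) : Prop :=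
  ∃ x₁ y₁ x₂ y₂ x₃ y₃ : G R, tr a = m ∧ tr b = m ∧ tr a' = m ∧ tr b' = m ∧
    tr x₁ = m ∧ tr x₂ = m ∧ tr x₃ = m ∧
    CRel 3 b b'⁻¹ x₁ y₁ ∧ CRel 2 x₁ y₁ x₂ y₂ ∧ CRel (-4) x₂ y₂ x₃ y₃ ∧ CRel (-4) x₃ y₃ a⁻¹ a'

/-- The ring on the level of meridians: `(a, b)`, then `B₀`, the columns `P`, `G`, `P†`, `G†`. -/
def MChain {R : Type} [CommRing R] (m : R) (a b E : G R) : Prop :=
  E * (a * b) = (a * b) * E ∧
  ∃ a₀ b₀ a₁ b₁ a₂ b₂ a₃ b₃ a₄ b₄ a₅ b₅ : G R,
    tr a₀ = m ∧ tr b₀ = m ∧ tr a₁ = m ∧ tr b₁ = m ∧ tr a₂ = m ∧ tr b₂ = m ∧ tr a₃ = m ∧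
    tr b₃ = m ∧ tr a₄ = m ∧ tr b₄ = m ∧ tr a₅ = m ∧ tr b₅ = m ∧
    RA m a b a₀ b₀ ∧
    a₁ = (a₀ * b₀) ^ 3 * a₀ * ((a₀ * b₀) ^ 3)⁻¹ ∧ b₁ = (a₀ * b₀) ^ 3 * b₀ * ((a₀ * b₀) ^ 3)⁻¹ ∧
    CRel 2 a₁ b₁ a₂ b₂ ∧ CRel 1 a₂ b₂ a₃ b₃ ∧ CRel 2 a₄ b₄ a₃ b₃ ∧ CRel 1 a₅ b₅ a₄ b₄ ∧
    E * a₅ * E⁻¹ = a ∧ E * b₅ * E⁻¹ = b

def RingM : Prop :=
  ∀ (F : Type) [Field F] (M : Fˣ) (ha hb E : G F) (τ : Fˣ), Ring M ha hb E τ →
    MChain (mm M) (mer M ha) (mer M hb) E

/-- The product of a pair is preserved by the column relation. -/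
def CRelMul : Prop :=
  ∀ (R : Type) [CommRing R] (r : ℤ) (a b a' b' : G R), CRel r a b a' b' →
    a' * b' = a * b ∧ tr b = tr a ∧ tr b' = tr a'

/-! ## Chebyshev polynomials and the trace formula -/

/-- `S₀ = 0`, `S₁ = 1`, `S_{n+2} = Y S_{n+1} - S_n`. -/
def Sp {R : Type} [CommRing R] : ℕ → R → R
  | 0, _ => 0
  | 1, _ => 1
  | (n + 2), Y => Y * Sp (n + 1) Y - Sp n Y

def PowS : Prop :=
  ∀ (R : Type) [CommRing R] (v : G R) (r : ℤ), ∃ s s' : R,
    (v ^ r).1 = s • v.1 - s' • (1 : Matrix (Fin 2) (Fin 2) R) ∧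
    s ^ 2 - tr v * s * s' + s' ^ 2 = 1 ∧ s ^ 2 = Sp r.natAbs (tr v) ^ 2

def ColTr : Prop :=
  ∀ (R : Type) [CommRing R] (r : ℤ) (a b a' b' : G R) (m : R), CRel r a b a' b' →
    tr a = m → tr a' = m →
    tr (a * b) - 2 =
      Sp r.natAbs (tr (a⁻¹ * a')) ^ 2 * (tr (a⁻¹ * a') - 2) * (tr (a⁻¹ * a') + 2 - m ^ 2)

/-! ## Pairs with diagonal product -/

section
variable {F : Type} [Field F]

/-- `N = a₁₂ a₂₁`, where `m` is the trace of the meridians and `T` the trace of the product. -/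
def NN (m T : F) : F := (m ^ 2 - 2 - T) / (T + 2)

/-- The trace of `a⁻¹ a'`. -/
def YY (m T κ : F) : F := 2 - NN m T * (κ + κ⁻¹ - 2)

/-- The relation of a column on the level of `κ`. -/
def KRel (m : F) (n : ℕ) (T κ : F) : Prop :=
  Sp n (YY m T κ) ^ 2 * (YY m T κ - 2) * (YY m T κ + 2 - m ^ 2) = T - 2

end

def PairN : Prop :=
  ∀ (F : Type) [Field F] (m : F) (θ : Fˣ) (a b : G F), (θ : F) ^ 2 ≠ 1 → a * b = dg θ →
    tr a = m → tr b = m →
    a.1 0 0 = m * θ / (θ + 1) ∧ a.1 1 1 = m / (θ + 1) ∧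
      a.1 0 1 * a.1 1 0 = NN m ((θ : F) + ((θ⁻¹ : Fˣ) : F))

def KapEx : Prop :=
  ∀ (F : Type) [Field F] (m : F) (θ : Fˣ) (a b a' b' : G F), (θ : F) ^ 2 ≠ 1 →
    m ^ 2 - 2 ≠ (θ : F) + ((θ⁻¹ : Fˣ) : F) → a * b = dg θ → a' * b' = dg θ →
    tr a = m → tr b = m → tr a' = m → tr b' = m →
    ∃ κ : Fˣ, a'.1 0 1 = κ * a.1 0 1 ∧ a.1 1 0 = κ * a'.1 1 0 ∧
      tr (a⁻¹ * a') = YY m ((θ : F) + ((θ⁻¹ : Fˣ) : F)) κ

def CRelConj : Prop :=
  ∀ (R : Type) [CommRing R] (r : ℤ) (a b a' b' P : G R), CRel r a b a' b' →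
    CRel r (P * a * P⁻¹) (P * b * P⁻¹) (P * a' * P⁻¹) (P * b' * P⁻¹)

def DiagW : Prop :=
  ∀ (F : Type) [Field F] (w : G F) (θ : Fˣ), (θ : F) ^ 2 ≠ 1 →
    tr w = (θ : F) + ((θ⁻¹ : Fˣ) : F) → ∃ P : G F, w = P * dg θ * P⁻¹

/-- A column on a pair with diagonal product. -/
def KapCol : Prop :=
  ∀ (F : Type) [Field F] (m : F) (θ : Fˣ) (r : ℤ) (a b a' b' : G F), (θ : F) ^ 2 ≠ 1 →
    m ^ 2 - 2 ≠ (θ : F) + ((θ⁻¹ : Fˣ) : F) → a * b = dg θ → tr a = m → tr a' = m →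
    CRel r a b a' b' →
    a' * b' = dg θ ∧ ∃ κ : Fˣ, a'.1 0 1 = κ * a.1 0 1 ∧ a.1 1 0 = κ * a'.1 1 0 ∧
      tr (a⁻¹ * a') = YY m ((θ : F) + ((θ⁻¹ : Fˣ) : F)) κ ∧
      KRel m r.natAbs ((θ : F) + ((θ⁻¹ : Fˣ) : F)) κ

/-- The scalar consequences of a ring with `ω ≠ ± 1, t ^ (± 1)`. -/
def SRing : Prop :=
  ∀ (F : Type) [Field F] (m : F) (ω ε : Fˣ) (a b : G F), (ω : F) ^ 2 ≠ 1 →
    m ^ 2 - 2 ≠ (ω : F) + ((ω⁻¹ : Fˣ) : F) → a * b = dg ω → MChain m a b (dg ε) →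
    ∃ κ₀ κ₁ κ₂ κ₃ κ₄ : Fˣ, κ₀ * ω ^ 6 * κ₁ * κ₂ * κ₃ * κ₄ * ε ^ 2 = 1 ∧
      KRel m 2 ((ω : F) + ((ω⁻¹ : Fˣ) : F)) κ₁ ∧ KRel m 1 ((ω : F) + ((ω⁻¹ : Fˣ) : F)) κ₂ ∧
      KRel m 2 ((ω : F) + ((ω⁻¹ : Fˣ) : F)) κ₃ ∧ KRel m 1 ((ω : F) + ((ω⁻¹ : Fˣ) : F)) κ₄ ∧
      ∀ θ : Fˣ, (θ : F) ^ 2 ≠ 1 → m ^ 2 - 2 ≠ (θ : F) + ((θ⁻¹ : Fˣ) : F) →
        YY m ((ω : F) + ((ω⁻¹ : Fˣ) : F)) κ₀ = (θ : F) + ((θ⁻¹ : Fˣ) : F) →
        ∃ μ₁ μ₂ μ₃ μ₄ : Fˣ, KRel m 3 ((θ : F) + ((θ⁻¹ : Fˣ) : F)) μ₁ ∧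
          KRel m 2 ((θ : F) + ((θ⁻¹ : Fˣ) : F)) μ₂ ∧ KRel m 4 ((θ : F) + ((θ⁻¹ : Fˣ) : F)) μ₃ ∧
          KRel m 4 ((θ : F) + ((θ⁻¹ : Fˣ) : F)) μ₄ ∧
          (ω : F) + ((ω⁻¹ : Fˣ) : F) =
            YY m ((θ : F) + ((θ⁻¹ : Fˣ) : F)) (((μ₁ * μ₂ * μ₃ * μ₄ : Fˣ)) : F)

/-! ## Valuations -/

def ValEx : Prop :=
  ∀ (K F : Type) [Field K] [Field F] [Algebra K F] (x : F), Transcendental K x →
    ∃ (Γ : Type) (_ : LinearOrderedCommGroupWithZero Γ) (v : Valuation F Γ),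
      (∀ c : K, c ≠ 0 → v (algebraMap K F c) = 1) ∧ 1 < v x

def SpV : Prop :=
  ∀ (F Γ : Type) [Field F] [LinearOrderedCommGroupWithZero Γ] (v : Valuation F Γ) (n : ℕ) (Y : F),
    (1 < v Y → v (Sp (n + 1) Y) = v Y ^ n) ∧ (v Y ≤ 1 → v (Sp n Y) ≤ 1)

/-- The valuations of `κ` and `Y` when `v N = 1`. -/
def YYV : Prop :=
  ∀ (F Γ : Type) [Field F] [LinearOrderedCommGroupWithZero Γ] (v : Valuation F Γ) (m T : F)
    (κ : Fˣ), v (NN m T) = 1 →
    (v (YY m T κ) ≤ 1 ∧ v κ = 1) ∨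
    (1 < v (YY m T κ) ∧ v (YY m T κ - 2) = v (YY m T κ) ∧
      (v κ = v (YY m T κ) ∨ v κ = (v (YY m T κ))⁻¹))

def KRelV : Prop :=
  ∀ (F Γ : Type) [Field F] [LinearOrderedCommGroupWithZero Γ] (v : Valuation F Γ) (m T : F)
    (n : ℕ) (κ : Fˣ), v (NN m T) = 1 → 1 ≤ v (m ^ 2) → KRel m (n + 1) T κ →
    (v κ = 1 ∧ v (T - 2) ≤ v (m ^ 2)) ∨
    ∃ y : Γ, 1 < y ∧ (v κ = y ∨ v κ = y⁻¹) ∧
      ((v (m ^ 2) < y ∧ v (T - 2) = y ^ (2 * n + 2)) ∨
       (y < v (m ^ 2) ∧ v (T - 2) = y ^ (2 * n + 1) * v (m ^ 2)) ∨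
       (y = v (m ^ 2) ∧ v (T - 2) ≤ y ^ (2 * n + 2)))

/-- Exponents of the inner columns (multiplied by `840`). -/
def IExp (n : ℕ) (β : ℕ) (k : ℤ) : Prop :=
  (|k| = 840 ∧ β ≤ 2 * n) ∨ (|k| * (2 * n - 1) = 840 * (β - 1) ∧ β < 2 * n) ∨
    (|k| * (2 * n) = 840 * β ∧ 2 * n < β)

def IExpV : Prop :=
  ∀ (F Γ : Type) [Field F] [LinearOrderedCommGroupWithZero Γ] (v : Valuation F Γ) (m T : F)
    (n β : ℕ) (κ : Fˣ), (n = 2 ∨ n = 3 ∨ n = 4) → 2 ≤ β → 1 < v (m ^ 2) → v T = v (m ^ 2) ^ β →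
    KRel m n T κ → ∃ k : ℤ, v κ ^ 840 = v (m ^ 2) ^ k ∧ IExp n β k

def IExpFin : Prop :=
  ∀ (β : ℕ) (k₁ k₂ k₃ k₄ : ℤ), 2 ≤ β → β ≤ 10 → IExp 3 β k₁ → IExp 2 β k₂ → IExp 4 β k₃ →
    IExp 4 β k₄ → |k₁ + k₂ + k₃ + k₄| ≠ 840

/-- Outer columns in E1. -/
def OExpV : Prop :=
  ∀ (F Γ : Type) [Field F] [LinearOrderedCommGroupWithZero Γ] (v : Valuation F Γ) (m T : F)
    (n : ℕ) (κ : Fˣ), v (NN m T) = 1 → 1 < v (m ^ 2) → v T = v (m ^ 2) → KRel m (n + 1) T κ →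
    ∃ k : ℤ, v κ = v (m ^ 2) ^ k ∧ |k| ≤ 1

/-- The valuation argument of E1. -/
def E1V : Prop :=
  ∀ (F Γ : Type) [Field F] [IsAlgClosed F] [LinearOrderedCommGroupWithZero Γ]
    (v : Valuation F Γ) (m : F) (ω ε : Fˣ) (a b : G F), 1 < v (m ^ 2) →
    v (ω : F) = v (m ^ 2) → v (m ^ 2 - 2 - ((ω : F) + ((ω⁻¹ : Fˣ) : F))) = v (m ^ 2) →
    v (ε : F) = 1 → a * b = dg ω → ¬ MChain m a b (dg ε)

/-! ## Algebraicity -/

def MChainMap : Prop :=
  ∀ (F L : Type) [Field F] [Field L] (f : F →+* L) (m : F) (a b E : G F), MChain m a b E →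
    MChain (f m) (Matrix.SpecialLinearGroup.map f a) (Matrix.SpecialLinearGroup.map f b)
      (Matrix.SpecialLinearGroup.map f E)

def MChainConj : Prop :=
  ∀ (F : Type) [Field F] (m : F) (a b E P : G F), MChain m a b E →
    MChain m (P * a * P⁻¹) (P * b * P⁻¹) (P * E * P⁻¹)

/-- `κ` is algebraic if `YY m T κ` is. -/
def YYAlg : Prop :=
  ∀ (K F : Type) [Field K] [Field F] [Algebra K F] (m T : F) (κ : Fˣ), IsAlgebraic K m →
    IsAlgebraic K T → m ^ 2 - 2 ≠ T → T ≠ -2 → IsAlgebraic K (YY m T κ) → IsAlgebraic K (κ : F)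

def KRelAlg : Prop :=
  ∀ (K F : Type) [Field K] [Field F] [Algebra K F] (m T : F) (n : ℕ) (κ : Fˣ),
    IsAlgebraic K m → IsAlgebraic K T → m ^ 2 - 2 ≠ T → T ≠ -2 → KRel m (n + 1) T κ →
    IsAlgebraic K (κ : F)

/-- The inner columns: `Y` is algebraic. -/
def IAlg : Prop :=
  ∀ (K F : Type) [Field K] [Field F] [Algebra K F] (m T Θ : F) (μ₁ μ₂ μ₃ μ₄ : Fˣ),
    IsAlgebraic K m → m ≠ 0 → IsAlgebraic K T → KRel m 3 Θ μ₁ → KRel m 2 Θ μ₂ →
    KRel m 4 Θ μ₃ → KRel m 4 Θ μ₄ → T = YY m Θ (((μ₁ * μ₂ * μ₃ * μ₄ : Fˣ)) : F) →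
    IsAlgebraic K Θ

def AlgM : Prop :=
  ∀ (K F : Type) [Field K] [Field F] [IsAlgClosed F] [Algebra K F] (m : F) (ω ε : Fˣ)
    (a b : G F), IsAlgebraic K m → m ≠ 0 → IsAlgebraic K (ω : F) → (ω : F) ^ 2 ≠ 1 →
    m ^ 2 - 2 ≠ (ω : F) + ((ω⁻¹ : Fˣ) : F) → a * b = dg ω → MChain m a b (dg ε) →
    IsAlgebraic K (ε : F)

/-! ## The case `ω = t` -/

/-- Pairs with product `dg (M ^ 2)`. -/
def PairT : Prop :=
  ∀ (F : Type) [Field F] (M : Fˣ) (a b : G F), (M : F) ^ 4 ≠ 1 → a * b = dg (M ^ 2) →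
    tr a = mm M → tr b = mm M →
    a.1 0 0 = M ∧ a.1 1 1 = ((M⁻¹ : Fˣ) : F) ∧ a.1 0 1 * a.1 1 0 = 0

/-- Upper triangular with non-zero corner. -/
def UU {F : Type} [Field F] (a : G F) : Prop := a.1 1 0 = 0 ∧ a.1 0 1 ≠ 0
/-- Lower triangular with non-zero corner. -/
def LL {F : Type} [Field F] (a : G F) : Prop := a.1 0 1 = 0 ∧ a.1 1 0 ≠ 0

def ColUL1 : Prop :=
  ∀ (F : Type) [Field F] (M : Fˣ) (a b a' b' : G F), (M : F) ^ 4 ≠ 1 → a * b = dg (M ^ 2) →
    tr a = mm M → tr a' = mm M → CRel 1 a b a' b' →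
    (UU a ∧ LL a' ∧ (M : F) ^ 2 * (1 - a.1 0 1 * a'.1 1 0) = 1) ∨
    (LL a ∧ UU a' ∧ 1 - a.1 1 0 * a'.1 0 1 = (M : F) ^ 2)

def ColUL2 : Prop :=
  ∀ (F : Type) [Field F] (M : Fˣ) (a b a' b' : G F), (M : F) ^ 4 ≠ 1 → a * b = dg (M ^ 2) →
    tr a = mm M → tr a' = mm M → CRel 2 a b a' b' →
    (UU a ∧ LL a' ∧ (M : F) ^ 2 *
      ((a.1 0 1 * a'.1 1 0) ^ 2 - 3 * (a.1 0 1 * a'.1 1 0) + 1) = 1 - a.1 0 1 * a'.1 1 0) ∨
    (LL a ∧ UU a' ∧ (a.1 1 0 * a'.1 0 1) ^ 2 - 3 * (a.1 1 0 * a'.1 0 1) + 1 =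
      (M : F) ^ 2 * (1 - a.1 1 0 * a'.1 0 1))

/-- The centre of an upper triangular matrix (fixed point of the affine map). -/
def cen {F : Type} [Field F] (x : G F) : F := x.1 0 0 * x.1 0 1 / (1 - x.1 0 0 ^ 2)

/-- One column inside `rot A` when the product is parabolic. -/
def InStep : Prop :=
  ∀ (F : Type) [Field F] [Algebra ℂ F] (K : Subfield F) (M : Fˣ) (r : ℤ) (x y x' y' : G F) (ζ : F),
    (∀ n : ℤ, n ≠ 0 → M ^ n ≠ 1) → (M : F) ^ 2 ∈ K → r ≠ 0 → ζ ≠ 0 → CRel r x y x' y' →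
    (x * y).1 = !![1, ζ; 0, 1] → tr x = mm M → tr x' = mm M →
    x.1 1 0 = 0 ∧ x'.1 1 0 = 0 ∧ ∃ ρ ∈ K, cen x' - cen x = ρ * ζ

/-- `rot A` on upper triangular pairs, `ω = t`. -/
def RAU : Prop :=
  ∀ (F : Type) [Field F] [Algebra ℂ F] (K : Subfield F) (M : Fˣ) (a b a' b' : G F),
    (∀ n : ℤ, n ≠ 0 → M ^ n ≠ 1) → (M : F) ^ 2 ∈ K → a * b = dg (M ^ 2) →
    a' * b' = dg (M ^ 2) → RA (mm M) a b a' b' → UU a → UU a' →
    ∃ η ∈ K, a'.1 0 1 = η * a.1 0 1

/-- `5 t ^ 2 - 2 t + 1` is not a square in `ℂ(t)`. -/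
def NotSq : Prop :=
  ∀ (F : Type) [Field F] [Algebra ℂ F] (t z : F), Transcendental ℂ t →
    z ∈ IntermediateField.adjoin ℂ {t} → z ^ 2 ≠ 5 * t ^ 2 - 2 * t + 1

def E2Alg : Prop :=
  ∀ (F : Type) [Field F] [Algebra ℂ F] (t x y : F), Transcendental ℂ t →
    t * (x ^ 2 - 3 * x + 1) = 1 - x → y ^ 2 - 3 * y + 1 = t * (1 - y) →
    x * y ∉ IntermediateField.adjoin ℂ {t}

/-- E2 for upper triangular pairs. -/
def E2U : Prop :=
  ∀ (F : Type) [Field F] [Algebra ℂ F] (M ε : Fˣ) (a b : G F), Transcendental ℂ (M : F) →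
    (ε : F) ^ 2 ∈ IntermediateField.adjoin ℂ {(M : F) ^ 2} → a * b = dg (M ^ 2) → UU a →
    ¬ MChain (mm M) a b (dg ε)

def E2M : Prop :=
  ∀ (F : Type) [Field F] [Algebra ℂ F] (M ε : Fˣ) (a b : G F), Transcendental ℂ (M : F) →
    (ε : F) ^ 2 ∈ IntermediateField.adjoin ℂ {(M : F) ^ 2} → a * b = dg (M ^ 2) →
    ¬ MChain (mm M) a b (dg ε)

end AJM

end

section

/-!
# MP_d3fa71_gt, project Mut, block H, second part: the state sums of words are holonomic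
-/

open Polynomial Matrix
open scoped Kronecker

namespace AJH

/-! ## Explicit entries -/

/-- Powers of `E` and `F`. -/
def EPow : Prop :=
  ∀ (n k : ℕ) (i j : Fin n),
    (AJM.Em n ^ k) i j = (if (i : ℕ) + k = j then
      ∏ l ∈ Finset.range k, AJM.qi (j - l) * AJM.qi (n - j + l) else 0) ∧
    (AJM.Fm n ^ k) i j = if (i : ℕ) = j + k then 1 else 0

/-- The coefficients of the inverse of the unipotent part. -/
noncomputable def ckb (k : ℕ) : K :=
  (-1) ^ k * t ^ (-((k : ℤ) * (k - 1))) * (t ^ (2 : ℤ) - t ^ (-2 : ℤ)) ^ k /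
    ∏ i ∈ Finset.range k, AJM.qi (i + 1)

/-- The inverse of the `R`-matrix. -/
def RInv : Prop :=
  ∀ n : ℕ, AJM.Rm n * ((∑ k ∈ Finset.range n, ckb k • ((AJM.Em n ^ k) ⊗ₖ (AJM.Fm n ^ k))) *
    Matrix.diagonal (fun p => t ^ (-(AJM.wt n p.1 * AJM.wt n p.2)))) = 1

/-- Entries of the braiding, integer labels (`(a, b) ↦ (b + k, a - k)`). -/
noncomputable def bz (n a b k : ℤ) : K :=
  (-1) ^ k * t ^ ((n - 1 - 2 * (b + k)) * (n - 1 - 2 * (a - k)) + 2 * k ^ 2 - 2 * k * n) *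
    (pq k * (pr a k * pr (n - a + k - 1) k))

/-- Entries of the inverse braiding, integer labels (`(a, b) ↦ (b - k, a + k)`). -/
noncomputable def bi (n a b k : ℤ) : K :=
  t ^ (2 * k - 2 * k * n - (n - 1 - 2 * a) * (n - 1 - 2 * b)) *
    (pq k * (pr b k * pr (n - b + k - 1) k))

/-- Entries of the cup, integer labels. -/
noncomputable def cz (n c : ℤ) : K := (-1) ^ c * t ^ (2 * c * (n - 2 - c))

/-- The entries of the braiding. -/
def BEnt : Prop :=
  ∀ (n : ℕ) (a b c d : Fin n), AJM.Bm n (c, d) (a, b) =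
    if (c : ℤ) - b = a - d then bz n a b ((a : ℤ) - d) else 0

/-- The entries of the inverse braiding. -/
def BiEnt : Prop :=
  ∀ (n : ℕ) (a b c d : Fin n), (AJM.Bm n)⁻¹ (c, d) (a, b) =
    if (b : ℤ) - c = d - a then bi n a b ((b : ℤ) - c) else 0

/-! ## Values of words on states with integer labels -/

/-- One move at position `0` with continuation `g`. -/
noncomputable def cor (n : ℤ) : AJM.Kd → (List ℤ → K) → List ℤ → K
  | .cup, g, s => ∑ᶠ c : ℤ, (if 0 ≤ c ∧ c < n then cz n c * g (c :: (n - 1 - c) :: s) else 0)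
  | .cap, g, (a :: b :: s) => if b = n - 1 - a ∧ 0 ≤ a ∧ a < n then (cz n b)⁻¹ * g s else 0
  | .neg, g, (a :: b :: s) => ∑ᶠ k : ℤ,
      (if (0 ≤ a ∧ a < n) ∧ (0 ≤ b ∧ b < n) ∧ (0 ≤ b + k ∧ b + k < n) ∧ (0 ≤ a - k ∧ a - k < n)
        then bz n a b k * g ((b + k) :: (a - k) :: s) else 0)
  | .pos, g, (a :: b :: s) => ∑ᶠ k : ℤ,
      (if (0 ≤ a ∧ a < n) ∧ (0 ≤ b ∧ b < n) ∧ (0 ≤ b - k ∧ b - k < n) ∧ (0 ≤ a + k ∧ a + k < n)
        then bi n a b k * g ((b - k) :: (a + k) :: s) else 0)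
  | _, _, _ => 0

/-- One move at position `i` with continuation `g`. -/
noncomputable def stz (n : ℤ) (m : AJM.Mv) (g : List ℤ → K) (s : List ℤ) : K :=
  if m.2 ≤ s.length then cor n m.1 (fun s' => g (s.take m.2 ++ s')) (s.drop m.2) else 0

/-- The value of a word on a state (the coefficient of the empty state). -/
noncomputable def Vz : List AJM.Mv → ℤ → List ℤ → K
  | [], n, s => if s = [] ∧ 1 ≤ n then 1 else 0
  | m :: w, n, s => stz n m (Vz w n) s

/-- The action at position `i`. -/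
def ActPos : Prop :=
  ∀ (n : ℕ) (k : AJM.Kd) (i : ℕ) (s : List (Fin n)),
    (i ≤ s.length → AJM.act n k i s =
      Finsupp.mapDomain (fun z => s.take i ++ z) (AJM.act n k 0 (s.drop i))) ∧
    (s.length < i → AJM.act n k i s = 0)

/-- `Vz` computes the state sum. -/
def VzOpw : Prop :=
  ∀ (n : ℕ) (w : List AJM.Mv) (s : List (Fin n)), 1 ≤ n →
    AJM.opw n w (Finsupp.single s 1) [] = Vz w n (s.map fun a => ((a : ℕ) : ℤ))

/-! ## Holonomicity of the values -/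

/-- Evaluation of an affine form. -/
def afe {d : ℕ} (φ : (Fin d → ℤ) × ℤ) (x : Fin d → ℤ) : ℤ := ∑ i, φ.1 i * x i + φ.2

/-- Functions of `n` and a list of labels which are in `HS` after every affine substitution. -/
def Good (g : ℤ → List ℤ → K) : Prop :=
  ∀ (d : ℕ) (N : (Fin d → ℤ) × ℤ) (L : List ((Fin d → ℤ) × ℤ)),
    HS d (fun x => g (afe N x) (L.map fun φ => afe φ x))

/-- The entries are in `HS` after every affine substitution. -/
def HSEnt : Prop :=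
  ∀ (d : ℕ) (N a b k : (Fin d → ℤ) × ℤ),
    HS d (fun x => bz (afe N x) (afe a x) (afe b x) (afe k x)) ∧
    HS d (fun x => bi (afe N x) (afe a x) (afe b x) (afe k x)) ∧
    HS d (fun x => cz (afe N x) (afe a x)) ∧
    HS d (fun x => (cz (afe N x) (afe a x))⁻¹) ∧
    HS d (fun x => if 0 ≤ afe a x ∧ afe a x < afe N x then 1 else 0) ∧
    HS d (fun x => if afe a x = afe b x then 1 else 0)

def GoodCup : Prop := ∀ (i : ℕ) (g : ℤ → List ℤ → K), Good g →
  Good (fun n s => stz n (.cup, i) (g n) s)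

def GoodCap : Prop := ∀ (i : ℕ) (g : ℤ → List ℤ → K), Good g →
  Good (fun n s => stz n (.cap, i) (g n) s)

def GoodNeg : Prop := ∀ (i : ℕ) (g : ℤ → List ℤ → K), Good g →
  Good (fun n s => stz n (.neg, i) (g n) s)

def GoodPos : Prop := ∀ (i : ℕ) (g : ℤ → List ℤ → K), Good g →
  Good (fun n s => stz n (.pos, i) (g n) s)

def GoodVz : Prop := ∀ w : List AJM.Mv, Good (Vz w)

/-- Every coloured Jones function has a nonzero annihilator. -/
def JKill : Prop :=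
  ∀ (w : List AJM.Mv) (e : ℤ), ∃ γ : Polynomial AJG.R2, γ ≠ 0 ∧ AJG.Kills γ (AJM.Jc w e)

end AJH

end

section

/-!
# MP_d3fa71_gt, project Mut, block H: the action at position `i`
-/

namespace AJH

lemma ActPos_step (n : ℕ) (k : AJM.Kd) (i : ℕ) (x : Fin n) (s : List (Fin n)) :
    AJM.act n k (i + 1) (x :: s) = Finsupp.mapDomain (x :: ·) (AJM.act n k i s) := by
  cases k <;> simp [AJM.act]

lemma ActPos_nil (n : ℕ) (k : AJM.Kd) (i : ℕ) :
    AJM.act n k (i + 1) ([] : List (Fin n)) = 0 := by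
  cases k <;> simp [AJM.act]

theorem prf_ActPos : ActPos := by
  intro n k i
  induction i with
  | zero =>
    intro s
    refine ⟨fun _ => ?_, fun h => absurd h (Nat.not_lt_zero _)⟩
    simp only [List.take_zero, List.nil_append, List.drop_zero]
    exact (Finsupp.mapDomain_id (v := AJM.act n k 0 s)).symm
  | succ i ih =>
    intro s
    cases s with
    | nil =>
      refine ⟨fun h => absurd h (by simp), fun _ => ActPos_nil n k i⟩
    | cons x s =>
      refine ⟨fun h => ?_, fun h => ?_⟩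
      · rw [ActPos_step, (ih s).1 (by simpa using h), ← Finsupp.mapDomain_comp]
        rfl
      · rw [ActPos_step, (ih s).2 (by simpa using h), Finsupp.mapDomain_zero]

end AJH

end

section

/-!
# Entries of the braiding
-/

open Polynomial Matrix
open scoped Kronecker

namespace AJH

/-- The number `s - 1 / s`. -/
noncomputable def BEnt_s : K := t ^ (2 : ℤ) - t ^ (-2 : ℤ)

lemma BEnt_t : t ≠ 0 := RatFunc.X_ne_zero

lemma BEnt_qi (m : ℕ) : AJM.qi m =
    -(t ^ (-(2 * (m : ℤ))) * (1 - t ^ (4 * (m : ℤ)))) * BEnt_s⁻¹ := by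
  have h1 : AJM.qi m = (t ^ (2 * (m : ℤ)) - t ^ (-(2 * (m : ℤ)))) / BEnt_s := rfl
  have h2 : (t : K) ^ (2 * (m : ℤ)) = t ^ (-(2 * (m : ℤ))) * t ^ (4 * (m : ℤ)) := by
    rw [← zpow_add₀ BEnt_t]
    congr 1
    ring
  rw [h1, h2]
  ring

/-- First product formula. -/
lemma BEnt_p1 (a k : ℕ) (h : k ≤ a) : ∏ l ∈ Finset.range k, AJM.qi (a - l) =
    (-1) ^ k * BEnt_s⁻¹ ^ k * t ^ (-2 * (k : ℤ) * a + k * (k - 1)) * pr a k := by
  induction k with
  | zero => simp [pr]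
  | succ k ih =>
    rw [Finset.prod_range_succ, ih (by omega), BEnt_qi]
    have h1 : pr (a : ℤ) ((k + 1 : ℕ) : ℤ) =
        pr (a : ℤ) (k : ℤ) * (1 - t ^ (4 * ((a : ℤ) - k))) := by
      unfold pr
      rw [if_pos (by positivity), if_pos (by positivity), Int.toNat_natCast, Int.toNat_natCast,
        Finset.prod_range_succ]
    have h2 : (t : K) ^ (-2 * ((k + 1 : ℕ) : ℤ) * a + ((k + 1 : ℕ) : ℤ) * (((k + 1 : ℕ) : ℤ) - 1)) =
        t ^ (-2 * (k : ℤ) * a + k * (k - 1)) * t ^ (-(2 * ((a - k : ℕ) : ℤ))) := by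
      rw [← zpow_add₀ BEnt_t]
      congr 1
      rw [Nat.cast_sub (by omega)]
      push_cast
      ring
    rw [h1, h2, Nat.cast_sub (by omega : k ≤ a)]
    ring

/-- Second product formula. -/
lemma BEnt_p2 (m k : ℕ) : ∏ l ∈ Finset.range k, AJM.qi (m + l) =
    (-1) ^ k * BEnt_s⁻¹ ^ k * t ^ (-2 * (k : ℤ) * m - k * (k - 1)) *
      pr ((m : ℤ) + k - 1) k := by
  have h0 : pr ((m : ℤ) + k - 1) k = ∏ l ∈ Finset.range k, (1 - t ^ (4 * ((m : ℤ) + l))) := by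
    unfold pr
    rw [if_pos (by positivity), Int.toNat_natCast, ← Finset.prod_range_reflect]
    refine Finset.prod_congr rfl fun l hl => ?_
    have h1 := Finset.mem_range.1 hl
    congr 3
    rw [Nat.cast_sub (by omega), Nat.cast_sub (by omega)]
    push_cast
    ring
  rw [h0]
  clear h0
  induction k with
  | zero => simp
  | succ k ih =>
    rw [Finset.prod_range_succ, ih, BEnt_qi, Finset.prod_range_succ]
    have h2 : (t : K) ^ (-2 * ((k + 1 : ℕ) : ℤ) * m - ((k + 1 : ℕ) : ℤ) * (((k + 1 : ℕ) : ℤ) - 1)) =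
        t ^ (-2 * (k : ℤ) * m - k * (k - 1)) * t ^ (-(2 * ((m + k : ℕ) : ℤ))) := by
      rw [← zpow_add₀ BEnt_t]
      congr 1
      push_cast
      ring
    rw [h2]
    push_cast
    ring

/-- Third product formula. -/
lemma BEnt_p3 (k : ℕ) : ∏ i ∈ Finset.range k, AJM.qi (i + 1) =
    (-1) ^ k * BEnt_s⁻¹ ^ k * t ^ (-((k : ℤ) * (k + 1))) * (pq k)⁻¹ := by
  have h0 : (pq (k : ℤ))⁻¹ = ∏ l ∈ Finset.range k, (1 - t ^ (4 * ((l : ℤ) + 1))) := by
    unfold pq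
    rw [if_pos (by positivity), Int.toNat_natCast, inv_inv]
  rw [h0]
  clear h0
  induction k with
  | zero => simp
  | succ k ih =>
    rw [Finset.prod_range_succ, ih, BEnt_qi, Finset.prod_range_succ]
    have h2 : (t : K) ^ (-(((k + 1 : ℕ) : ℤ) * (((k + 1 : ℕ) : ℤ) + 1))) =
        t ^ (-((k : ℤ) * (k + 1))) * t ^ (-(2 * ((k + 1 : ℕ) : ℤ))) := by
      rw [← zpow_add₀ BEnt_t]
      congr 1
      push_cast
      ring
    rw [h2]
    push_cast
    ring

lemma BEnt_pow_ne_one {k : ℕ} (hk : 0 < k) : (t : K) ^ k ≠ 1 := by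
  intro h
  have h1 : algebraMap ℚ[X] (RatFunc ℚ) (Polynomial.X ^ k) =
      algebraMap ℚ[X] (RatFunc ℚ) (1 : ℚ[X]) := by
    rw [map_pow, RatFunc.algebraMap_X, map_one]
    exact h
  have h2 := IsFractionRing.injective ℚ[X] (RatFunc ℚ) h1
  have h3 := congrArg Polynomial.natDegree h2
  rw [Polynomial.natDegree_X_pow, Polynomial.natDegree_one] at h3
  omega

lemma BEnt_s_ne : BEnt_s ≠ 0 := by
  unfold BEnt_s
  intro h
  have h1 : (t : K) ^ 4 = 1 := by
    have h2 : (t : K) ^ (4 : ℤ) = t ^ (2 : ℤ) * t ^ (2 : ℤ) := by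
      rw [← zpow_add₀ BEnt_t]; norm_num
    have h3 : (t : K) ^ (-2 : ℤ) * t ^ (2 : ℤ) = 1 := by
      rw [← zpow_add₀ BEnt_t]; norm_num
    have h4 : (t : K) ^ (4 : ℤ) = t ^ 4 := by
      rw [← zpow_natCast]; norm_num
    rw [← h4, h2]
    linear_combination t ^ (2 : ℤ) * h + h3
  exact BEnt_pow_ne_one (by norm_num) h1

/-- The coefficient. -/
lemma BEnt_ck (k : ℕ) : t ^ (k * (k - 1)) * (t ^ (2 : ℤ) - t ^ (-2 : ℤ)) ^ k /
    ∏ i ∈ Finset.range k, AJM.qi (i + 1) =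
    (-1) ^ k * BEnt_s ^ (2 * k) * t ^ (2 * (k : ℤ) ^ 2) * pq k := by
  have hs : t ^ (2 : ℤ) - t ^ (-2 : ℤ) = BEnt_s := rfl
  rw [BEnt_p3, hs]
  have h1 : (t : K) ^ (k * (k - 1)) = t ^ ((k : ℤ) * (k - 1)) := by
    rw [← zpow_natCast]
    congr 1
    rcases Nat.eq_zero_or_pos k with h | h
    · subst h; simp
    · rw [Nat.cast_mul, Nat.cast_sub (by omega), Nat.cast_one]
  have h2 : (t : K) ^ (2 * (k : ℤ) ^ 2) = t ^ ((k : ℤ) * (k - 1)) * t ^ ((k : ℤ) * (k + 1)) := by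
    rw [← zpow_add₀ BEnt_t]
    congr 1
    ring
  have h3 := BEnt_s_ne
  have h4 : (t : K) ^ ((k : ℤ) * (k + 1)) ≠ 0 := zpow_ne_zero _ BEnt_t
  have h5 : ((-1 : K) ^ k) * (-1) ^ k = 1 := by rw [← mul_pow]; simp
  have h6 : ((-1 : K) ^ k) ≠ 0 := pow_ne_zero _ (by norm_num)
  rw [h1, h2, _root_.zpow_neg, div_eq_mul_inv, mul_inv, mul_inv, mul_inv, inv_inv, inv_inv, inv_pow,
    inv_inv]
  have h7 : ((-1 : K) ^ k)⁻¹ = (-1) ^ k := by
    rw [inv_eq_iff_eq_inv]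
    exact eq_inv_of_mul_eq_one_left h5
  rw [h7, two_mul, pow_add]
  ring

theorem prf_BEnt (hEPow : EPow) : BEnt := by
  intro n a b c d
  have hent : AJM.Bm n (c, d) (a, b) = t ^ (AJM.wt n d * AJM.wt n c) *
      ∑ k ∈ Finset.range n, (t ^ (k * (k - 1)) * (t ^ (2 : ℤ) - t ^ (-2 : ℤ)) ^ k /
        ∏ i ∈ Finset.range k, AJM.qi (i + 1)) *
        ((if (d : ℕ) + k = a then
          ∏ l ∈ Finset.range k, AJM.qi (a - l) * AJM.qi (n - a + l) else 0) *
        (if (c : ℕ) = b + k then 1 else 0)) := by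
    unfold AJM.Bm AJM.Rm
    rw [Matrix.submatrix_apply, Matrix.diagonal_mul, Matrix.sum_apply]
    simp only [Prod.swap_prod_mk, id_eq, Matrix.smul_apply, smul_eq_mul, kroneckerMap_apply]
    refine congrArg₂ (· * ·) rfl (Finset.sum_congr rfl fun k _ => ?_)
    rw [(hEPow n k d a).1, (hEPow n k c b).2]
    rfl
  rw [hent]
  by_cases h1 : (c : ℤ) - b = a - d
  · rw [if_pos h1]
    rcases le_or_gt (d : ℕ) a with h2 | h2
    · obtain ⟨k, hk⟩ : ∃ k : ℕ, (a : ℕ) = d + k := ⟨a - d, by omega⟩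
      have hck : (c : ℕ) = b + k := by omega
      have hkn : k < n := by have := a.2; omega
      rw [Finset.sum_eq_single_of_mem k (Finset.mem_range.2 hkn)]
      · rw [if_pos hk.symm, if_pos hck, BEnt_ck, Finset.prod_mul_distrib,
          BEnt_p1 _ _ (by omega), BEnt_p2]
        have e1 : (a : ℤ) - d = k := by omega
        rw [e1, bz]
        have e2 : AJM.wt n d = (n : ℤ) - 1 - 2 * ((a : ℕ) - k) := by
          unfold AJM.wt; rw [hk]; push_cast; ring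
        have e3 : AJM.wt n c = (n : ℤ) - 1 - 2 * ((b : ℕ) + k) := by
          unfold AJM.wt; rw [hck]; push_cast; ring
        have han : (a : ℕ) ≤ n := a.2.le
        rw [e2, e3, Nat.cast_sub han]
        have h3 := BEnt_s_ne
        have e4 : (t : K) ^ (((n : ℤ) - 1 - 2 * ((b : ℕ) + k)) * ((n : ℤ) - 1 - 2 * ((a : ℕ) - k)) +
            2 * (k : ℤ) ^ 2 - 2 * k * n) =
            t ^ (((n : ℤ) - 1 - 2 * ((a : ℕ) - k)) * ((n : ℤ) - 1 - 2 * ((b : ℕ) + k))) *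
            t ^ (2 * (k : ℤ) ^ 2) * t ^ (-2 * (k : ℤ) * (a : ℕ) + k * (k - 1)) *
            t ^ (-2 * (k : ℤ) * ((n : ℤ) - (a : ℕ)) - k * (k - 1)) := by
          rw [← zpow_add₀ BEnt_t, ← zpow_add₀ BEnt_t, ← zpow_add₀ BEnt_t]
          congr 1
          ring
        rw [e4, zpow_natCast]
        have h5 : ((-1 : K) ^ k) * (-1) ^ k = 1 := by rw [← mul_pow]; simp
        have h6 : BEnt_s ^ (2 * k) * BEnt_s⁻¹ ^ k * BEnt_s⁻¹ ^ k = 1 := by
          rw [two_mul, pow_add, inv_pow]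
          field_simp
        linear_combination (t ^ (((n : ℤ) - 1 - 2 * ((a : ℕ) - k)) * ((n : ℤ) - 1 - 2 * ((b : ℕ) + k))) *
            t ^ (2 * (k : ℤ) ^ 2) * t ^ (-2 * (k : ℤ) * (a : ℕ) + k * (k - 1)) *
            t ^ (-2 * (k : ℤ) * ((n : ℤ) - (a : ℕ)) - k * (k - 1)) * (-1) ^ k * pq k *
            pr a k * pr ((n : ℤ) - a + k - 1) k) *
            (((-1 : K) ^ k) * (-1) ^ k * h6 + h5)
      · intro j _ hj
        rw [if_neg (by omega)]
        simp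
    · have h3 : (a : ℤ) - d < 0 := by omega
      have h4 : bz n a b ((a : ℤ) - d) = 0 := by
        unfold bz pq
        rw [if_neg (by omega)]
        simp
      rw [h4, Finset.sum_eq_zero, mul_zero]
      intro j _
      rw [if_neg (by omega)]
      simp
  · rw [if_neg h1, Finset.sum_eq_zero, mul_zero]
    intro j _
    by_cases h2 : (d : ℕ) + j = a
    · rw [if_neg (by omega : ¬ (c : ℕ) = b + j)]
      simp
    · rw [if_neg h2]
      simp

end AJH

end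

section

/-!
# MP_d3fa71_gt, project Mut, block H: the entries of the inverse braiding
-/

open Polynomial Matrix
open scoped Kronecker

namespace AJH

theorem BiEnt_t0 : (t : K) ≠ 0 := RatFunc.X_ne_zero

theorem BiEnt_pow {m : ℕ} (hm : 0 < m) : (t : K) ^ m ≠ 1 := by
  intro h
  have h3 : (algebraMap (Polynomial ℚ) (RatFunc ℚ)) (Polynomial.X ^ m) =
      algebraMap (Polynomial ℚ) (RatFunc ℚ) 1 := by
    rw [map_pow, RatFunc.algebraMap_X, map_one]
    exact h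
  have h4 := RatFunc.algebraMap_injective ℚ h3
  have h5 := congrArg Polynomial.natDegree h4
  simp at h5
  omega

/-- `s - 1/s`. -/
noncomputable def BiEnt_s : K := t ^ (2 : ℤ) - t ^ (-2 : ℤ)

theorem BiEnt_s0 : BiEnt_s ≠ 0 := by
  unfold BiEnt_s
  intro h
  have h2 : (t : K) ^ (2 : ℤ) = t ^ (-2 : ℤ) := sub_eq_zero.1 h
  have h3 : (t : K) ^ (4 : ℤ) = 1 := by
    rw [show (4 : ℤ) = 2 - (-2) by norm_num, zpow_sub₀ BiEnt_t0, h2,
      div_self (zpow_ne_zero _ BiEnt_t0)]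
  exact BiEnt_pow (m := 4) (by norm_num) (by exact_mod_cast h3)

theorem BiEnt_qi (m : ℕ) :
    AJM.qi m = -(t ^ (-(2 * (m : ℤ))) * (1 - t ^ (4 * (m : ℤ)))) / BiEnt_s := by
  have h : AJM.qi m = (t ^ (2 * (m : ℤ)) - t ^ (-(2 * (m : ℤ)))) / BiEnt_s := rfl
  rw [h]
  congr 1
  rw [mul_sub, mul_one, ← zpow_add₀ BiEnt_t0]
  rw [show -(2 * (m : ℤ)) + 4 * (m : ℤ) = 2 * m by ring]
  ring

theorem BiEnt_prod (f : ℕ → ℕ) (k : ℕ) :
    ∏ l ∈ Finset.range k, AJM.qi (f l) =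
      (-1) ^ k * t ^ (-(2 * ∑ l ∈ Finset.range k, (f l : ℤ))) *
        (∏ l ∈ Finset.range k, (1 - t ^ (4 * (f l : ℤ)))) / BiEnt_s ^ k := by
  induction k with
  | zero => simp
  | succ k ih =>
    rw [Finset.prod_range_succ, ih, Finset.sum_range_succ, Finset.prod_range_succ, BiEnt_qi,
      mul_add, neg_add, zpow_add₀ BiEnt_t0]
    have := BiEnt_s0
    field_simp
    ring

theorem BiEnt_sum1 (b : ℤ) (k : ℕ) :
    2 * ∑ l ∈ Finset.range k, (b - (l : ℤ)) = 2 * k * b - k * (k - 1) := by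
  induction k with
  | zero => simp
  | succ k ih =>
    rw [Finset.sum_range_succ, mul_add, ih]
    push_cast
    ring

theorem BiEnt_sum2 (b : ℤ) (k : ℕ) :
    2 * ∑ l ∈ Finset.range k, (b + (l : ℤ)) = 2 * k * b + k * (k - 1) := by
  induction k with
  | zero => simp
  | succ k ih =>
    rw [Finset.sum_range_succ, mul_add, ih]
    push_cast
    ring

theorem BiEnt_D0 (k : ℕ) :
    (∏ i ∈ Finset.range k, (1 - (t : K) ^ (4 * ((i : ℤ) + 1)))) ≠ 0 := by
  rw [Finset.prod_ne_zero_iff]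
  intro i _ h
  have h1 : (t : K) ^ (4 * (i + 1)) = 1 := by
    have h2 : (t : K) ^ (4 * ((i : ℤ) + 1)) = 1 := (sub_eq_zero.1 h).symm
    exact_mod_cast h2
  exact BiEnt_pow (by omega) h1

theorem BiEnt_ckb (k : ℕ) :
    ckb k = BiEnt_s ^ k * BiEnt_s ^ k * t ^ (2 * (k : ℤ)) * pq k := by
  have hD := BiEnt_D0 k
  have hs := BiEnt_s0
  have h1 : ∏ i ∈ Finset.range k, AJM.qi (i + 1) =
      (-1) ^ k * t ^ (-((k : ℤ) * (k + 1))) *
        (∏ i ∈ Finset.range k, (1 - t ^ (4 * ((i : ℤ) + 1)))) / BiEnt_s ^ k := by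
    rw [BiEnt_prod (fun i => i + 1) k]
    have h2 : 2 * ∑ l ∈ Finset.range k, (((l + 1 : ℕ) : ℕ) : ℤ) = (k : ℤ) * (k + 1) := by
      have h3 := BiEnt_sum2 1 k
      have h4 : ∑ l ∈ Finset.range k, (((l + 1 : ℕ) : ℕ) : ℤ) =
          ∑ l ∈ Finset.range k, (1 + (l : ℤ)) := by
        refine Finset.sum_congr rfl fun l _ => ?_
        push_cast
        ring
      rw [h4, h3]
      ring
    rw [h2]
    congr 3
  have hq : pq (k : ℤ) = (∏ i ∈ Finset.range k, (1 - t ^ (4 * ((i : ℤ) + 1))))⁻¹ := by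
    unfold pq
    rw [if_pos (Int.natCast_nonneg k), Int.toNat_natCast]
  unfold ckb
  rw [h1, hq]
  change (-1) ^ k * t ^ (-((k : ℤ) * (k - 1))) * BiEnt_s ^ k / _ = _
  have e : (t : K) ^ (-((k : ℤ) * (k - 1))) = t ^ (-((k : ℤ) * (k + 1))) * t ^ (2 * (k : ℤ)) := by
    rw [← zpow_add₀ BiEnt_t0]
    congr 1
    ring
  rw [e]
  have ht : (t : K) ^ (-((k : ℤ) * (k + 1))) ≠ 0 := zpow_ne_zero _ BiEnt_t0
  have hm : ((-1 : K)) ^ k ≠ 0 := pow_ne_zero _ (by norm_num)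
  have hsk : BiEnt_s ^ k ≠ 0 := pow_ne_zero _ hs
  generalize (t : K) ^ (-((k : ℤ) * (k + 1))) = x1 at *
  generalize ((-1 : K)) ^ k = x2 at *
  generalize BiEnt_s ^ k = x3 at *
  generalize (∏ i ∈ Finset.range k, (1 - (t : K) ^ (4 * ((i : ℤ) + 1)))) = x4 at *
  field_simp

theorem BiEnt_alg (S P A B x1 x2 x3 x4 s : K) (hS : S ≠ 0) (hs : s * s = 1) :
    (S * S * x1 * P) * ((s * x2 * A / S) * (s * x3 * B / S)) * x4 =
      (x1 * x2 * x3 * x4) * (P * (A * B)) := by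
  have h1 : (S * S * x1 * P) * ((s * x2 * A / S) * (s * x3 * B / S)) * x4 =
      (s * s) * (S / S) * (S / S) * ((x1 * x2 * x3 * x4) * (P * (A * B))) := by
    field_simp
  rw [h1, hs, div_self hS]
  ring

theorem BiEnt_val (n a b k : ℕ) (hk : k ≤ b) (hb : b < n) :
    ckb k * (∏ l ∈ Finset.range k, AJM.qi (b - l) * AJM.qi (n - b + l)) *
      t ^ (-(((n : ℤ) - 1 - 2 * b) * ((n : ℤ) - 1 - 2 * a))) = bi n a b k := by
  have hs := BiEnt_s0
  rw [Finset.prod_mul_distrib, BiEnt_prod (fun l => b - l) k, BiEnt_prod (fun l => n - b + l) k,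
    BiEnt_ckb]
  have hc1 : ∀ l ∈ Finset.range k, (((b - l : ℕ) : ℕ) : ℤ) = (b : ℤ) - l := by
    intro l hl
    rw [Finset.mem_range] at hl
    rw [Nat.cast_sub (by omega)]
  have hc2 : ∀ l ∈ Finset.range k, (((n - b + l : ℕ) : ℕ) : ℤ) = ((n : ℤ) - b) + l := by
    intro l _
    rw [Nat.cast_add, Nat.cast_sub hb.le]
  rw [Finset.sum_congr rfl hc1, Finset.sum_congr rfl hc2, BiEnt_sum1, BiEnt_sum2]
  have hA : ∏ l ∈ Finset.range k, (1 - (t : K) ^ (4 * (((b - l : ℕ) : ℕ) : ℤ))) = pr b k := by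
    unfold pr
    rw [if_pos (Int.natCast_nonneg k), Int.toNat_natCast]
    refine Finset.prod_congr rfl fun l hl => ?_
    rw [hc1 l hl]
  have hB : ∏ l ∈ Finset.range k, (1 - (t : K) ^ (4 * (((n - b + l : ℕ) : ℕ) : ℤ))) =
      pr ((n : ℤ) - b + k - 1) k := by
    unfold pr
    rw [if_pos (Int.natCast_nonneg k), Int.toNat_natCast, ← Finset.prod_range_reflect]
    refine Finset.prod_congr rfl fun l hl => ?_
    have hl' := Finset.mem_range.1 hl
    have h1 : (((n - b + (k - 1 - l) : ℕ) : ℕ) : ℤ) = (n : ℤ) - b + k - 1 - l := by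
      omega
    rw [h1]
  rw [hA, hB]
  rw [BiEnt_alg (BiEnt_s ^ k) (pq k) (pr b k) (pr ((n : ℤ) - b + k - 1) k) _ _ _ _ _
    (pow_ne_zero _ hs) (by rw [← mul_pow]; norm_num)]
  unfold bi
  rw [← zpow_add₀ BiEnt_t0, ← zpow_add₀ BiEnt_t0, ← zpow_add₀ BiEnt_t0]
  congr 2
  ring

theorem prf_BiEnt (hEPow : EPow) (hRInv : RInv) : BiEnt := by
  intro n a b c d
  set X : Matrix (Fin n × Fin n) (Fin n × Fin n) K :=
    (∑ k ∈ Finset.range n, ckb k • ((AJM.Em n ^ k) ⊗ₖ (AJM.Fm n ^ k))) *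
    Matrix.diagonal (fun p => t ^ (-(AJM.wt n p.1 * AJM.wt n p.2))) with hX
  have hR : AJM.Rm n * X = 1 := hRInv n
  have hinv : (AJM.Bm n)⁻¹ = X.submatrix id Prod.swap := by
    apply Matrix.inv_eq_right_inv
    unfold AJM.Bm
    rw [← Matrix.submatrix_mul _ _ _ _ _ Function.bijective_id, hR,
      Matrix.submatrix_one _ Prod.swap_injective]
  rw [hinv]
  have hval : X.submatrix id Prod.swap (c, d) (a, b) =
      ∑ k ∈ Finset.range n, ckb k * ((if (c : ℕ) + k = b then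
        ∏ l ∈ Finset.range k, AJM.qi (b - l) * AJM.qi (n - b + l) else 0) *
        (if (d : ℕ) = a + k then 1 else 0)) * t ^ (-(AJM.wt n b * AJM.wt n a)) := by
    rw [Matrix.submatrix_apply, hX, Matrix.mul_diagonal, Matrix.sum_apply, Finset.sum_mul]
    refine Finset.sum_congr rfl fun k _ => ?_
    rw [Matrix.smul_apply, Matrix.kroneckerMap_apply]
    change (ckb k • ((AJM.Em n ^ k) c b * (AJM.Fm n ^ k) d a)) *
      t ^ (-(AJM.wt n b * AJM.wt n a)) = _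
    rw [(hEPow n k c b).1, (hEPow n k d a).2, smul_eq_mul]
  rw [hval]
  by_cases h : (b : ℤ) - c = d - a
  · rw [if_pos h]
    by_cases hcb : (c : ℕ) ≤ b
    · have hk1 : (c : ℕ) + ((b : ℕ) - c) = b := by omega
      have hk2 : (d : ℕ) = a + ((b : ℕ) - c) := by omega
      rw [Finset.sum_eq_single ((b : ℕ) - c)]
      · rw [if_pos hk1, if_pos hk2, mul_one]
        have hv := BiEnt_val n a b ((b : ℕ) - c) (Nat.sub_le _ _) b.isLt
        have hc : (((b : ℕ) - (c : ℕ) : ℕ) : ℤ) = (b : ℤ) - c := by omega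
        rw [hc] at hv
        unfold AJM.wt
        exact hv
      · intro k _ hk
        rw [if_neg (by omega)]
        simp
      · intro hk
        exact absurd (Finset.mem_range.2 (lt_of_le_of_lt (Nat.sub_le _ _) b.isLt)) hk
    · have h0 : pq ((b : ℤ) - c) = 0 := by
        unfold pq
        rw [if_neg (by omega)]
      unfold bi
      rw [h0, zero_mul, mul_zero]
      apply Finset.sum_eq_zero
      intro k _
      rw [if_neg (by omega)]
      simp
  · rw [if_neg h]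
    apply Finset.sum_eq_zero
    intro k _
    by_cases h1 : (c : ℕ) + k = b
    · rw [if_neg (show ¬ ((d : ℕ) = a + k) by omega)]
      simp
    · rw [if_neg h1]
      simp

end AJH

end

section

/-!
# MP_d3fa71_gt, project Mut, block H: powers of `E` and `F`
-/

namespace AJH

lemma EPow_E (n k : ℕ) : ∀ i j : Fin n,
    (AJM.Em n ^ k) i j = (if (i : ℕ) + k = j then
      ∏ l ∈ Finset.range k, AJM.qi (j - l) * AJM.qi (n - j + l) else 0) := by
  induction k with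
  | zero =>
    intro i j
    simp [Matrix.one_apply, Fin.ext_iff]
  | succ k ih =>
    intro i j
    rw [pow_succ, Matrix.mul_apply]
    have hE : ∀ m : Fin n, AJM.Em n m j =
        if (m : ℕ) + 1 = j then AJM.qi j * AJM.qi (n - j) else 0 := fun m => rfl
    obtain ⟨j, hj⟩ := j
    cases j with
    | zero =>
      rw [if_neg (by simp)]
      refine Finset.sum_eq_zero fun m _ => ?_
      rw [hE, if_neg (by simp), mul_zero]
    | succ j =>
      rw [Finset.sum_eq_single (⟨j, by omega⟩ : Fin n)]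
      · rw [ih, hE, if_pos rfl]
        by_cases h : (i : ℕ) + k = j
        · rw [if_pos h, if_pos (by simp only; omega), Finset.prod_range_succ']
          simp only [Nat.sub_zero, Nat.add_zero]
          congr 1
          refine Finset.prod_congr rfl fun l _ => ?_
          congr 2
          · omega
          · omega
        · rw [if_neg h, if_neg (by simp only; omega), zero_mul]
      · intro m _ hm
        rw [hE, if_neg, mul_zero]
        intro h
        exact hm (Fin.ext (by simpa using h))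
      · intro h
        exact absurd (Finset.mem_univ _) h

lemma EPow_F (n k : ℕ) : ∀ i j : Fin n,
    (AJM.Fm n ^ k) i j = if (i : ℕ) = j + k then 1 else 0 := by
  induction k with
  | zero =>
    intro i j
    simp [Matrix.one_apply, Fin.ext_iff]
  | succ k ih =>
    intro i j
    rw [pow_succ, Matrix.mul_apply]
    have hF : ∀ m : Fin n, AJM.Fm n m j = if (m : ℕ) = j + 1 then 1 else 0 := fun m => rfl
    by_cases hj : (j : ℕ) + 1 < n
    · rw [Finset.sum_eq_single (⟨(j : ℕ) + 1, hj⟩ : Fin n)]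
      · rw [ih, hF, if_pos rfl, mul_one]
        congr 1
        simp only [eq_iff_iff]
        omega
      · intro m _ hm
        rw [hF, if_neg, mul_zero]
        intro h
        exact hm (Fin.ext h)
      · intro h
        exact absurd (Finset.mem_univ _) h
    · rw [if_neg (by have := i.2; omega)]
      refine Finset.sum_eq_zero fun m _ => ?_
      rw [hF, if_neg (by have := m.2; omega), mul_zero]

theorem prf_EPow : EPow := fun n k i j => ⟨EPow_E n k i j, EPow_F n k i j⟩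

end AJH

end

section

/-!
# MP_d3fa71_gt, project Mut, block H: auxiliary lemmas for the items Good*
-/

namespace AJH

/-- A form as a form in one more variable. -/
def GoodX_lift {d : ℕ} (φ : (Fin d → ℤ) × ℤ) : (Fin (d + 1) → ℤ) × ℤ :=
  (Fin.cons (0 : ℤ) φ.1, φ.2)

/-- The new variable. -/
def GoodX_k (d : ℕ) : (Fin (d + 1) → ℤ) × ℤ :=
  (Fin.cons (1 : ℤ) (fun _ => (0 : ℤ)), 0)

/-- A constant. -/
def GoodX_c (d : ℕ) (c : ℤ) : (Fin d → ℤ) × ℤ := (0, c)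

lemma GoodX_afe_lift {d : ℕ} (φ : (Fin d → ℤ) × ℤ) (c : ℤ) (x : Fin d → ℤ) :
    afe (GoodX_lift φ) (Fin.cons c x) = afe φ x := by
  simp [afe, GoodX_lift, Fin.sum_univ_succ]

lemma GoodX_afe_k {d : ℕ} (c : ℤ) (x : Fin d → ℤ) :
    afe (GoodX_k d) (Fin.cons c x) = c := by
  simp [afe, GoodX_k, Fin.sum_univ_succ]

lemma GoodX_afe_c {d : ℕ} (c : ℤ) (x : Fin d → ℤ) : afe (GoodX_c d c) x = c := by
  simp [afe, GoodX_c]

lemma GoodX_afe_add {d : ℕ} (φ ψ : (Fin d → ℤ) × ℤ) (x : Fin d → ℤ) :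
    afe (φ + ψ) x = afe φ x + afe ψ x := by
  simp only [afe, Prod.fst_add, Prod.snd_add, Pi.add_apply, add_mul, Finset.sum_add_distrib]
  ring

lemma GoodX_afe_sub {d : ℕ} (φ ψ : (Fin d → ℤ) × ℤ) (x : Fin d → ℤ) :
    afe (φ - ψ) x = afe φ x - afe ψ x := by
  simp only [afe, Prod.fst_sub, Prod.snd_sub, Pi.sub_apply, sub_mul, Finset.sum_sub_distrib]
  ring

lemma GoodX_map_lift {d : ℕ} (L : List ((Fin d → ℤ) × ℤ)) (c : ℤ) (x : Fin d → ℤ) :
    (L.map GoodX_lift).map (fun φ => afe φ (Fin.cons c x)) = L.map fun φ => afe φ x := by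
  rw [List.map_map]
  refine List.map_congr_left fun φ _ => ?_
  exact GoodX_afe_lift φ c x

lemma GoodX_congr {d : ℕ} {f g : (Fin d → ℤ) → K} (h : HS d f) (hfg : ∀ x, f x = g x) :
    HS d g := by
  rw [← funext hfg]
  exact h

lemma GoodX_zero (hTameQuad : TameQuad) (d : ℕ) : HS d (fun _ => 0) :=
  GoodX_congr (HS.tame (hTameQuad d 0 0 0)) fun x => by simp

/-- The range indicator. -/
noncomputable def GoodX_in (a n : ℤ) : K := if 0 ≤ a ∧ a < n then 1 else 0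

lemma GoodX_in_pos {a n : ℤ} (h : 0 ≤ a ∧ a < n) : GoodX_in a n = 1 := if_pos h

lemma GoodX_in_neg {a n : ℤ} (h : ¬ (0 ≤ a ∧ a < n)) : GoodX_in a n = 0 := if_neg h

lemma GoodX_HS_in (hHSEnt : HSEnt) {d : ℕ} (a N : (Fin d → ℤ) × ℤ) :
    HS d (fun x => GoodX_in (afe a x) (afe N x)) :=
  (hHSEnt d N a a a).2.2.2.2.1

/-- The function is zero on lists that are too short. -/
lemma GoodX_short (hTameQuad : TameQuad) {d : ℕ} (N : (Fin d → ℤ) × ℤ)
    (L : List ((Fin d → ℤ) × ℤ)) (k : AJM.Kd) (i : ℕ) (g : ℤ → List ℤ → K)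
    (h : ¬ i ≤ L.length) :
    HS d (fun x => stz (afe N x) (k, i) (g (afe N x)) (L.map fun φ => afe φ x)) :=
  GoodX_congr (GoodX_zero hTameQuad d) fun x => by
    rw [stz, if_neg]
    rwa [List.length_map]

lemma GoodX_long {d : ℕ} (N : (Fin d → ℤ) × ℤ) (L : List ((Fin d → ℤ) × ℤ)) (k : AJM.Kd)
    (i : ℕ) (g : ℤ → List ℤ → K) (h : i ≤ L.length) (x : Fin d → ℤ) :
    stz (afe N x) (k, i) (g (afe N x)) (L.map fun φ => afe φ x) =
      cor (afe N x) k (fun s' => g (afe N x) ((L.take i).map (fun φ => afe φ x) ++ s'))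
        ((L.drop i).map fun φ => afe φ x) := by
  rw [stz, if_pos (by rwa [List.length_map])]
  simp only [List.map_take, List.map_drop]

end AJH

end

section

/-!
# MP_d3fa71_gt, project Mut, item HSEnt
-/

open Polynomial Matrix
open scoped Kronecker

namespace AJH

theorem HSEnt_pull (hHSPull : HSPull) {d e : ℕ} (φ : Fin e → ((Fin d → ℤ) × ℤ))
    {f : (Fin e → ℤ) → K} (hf : HS e f) : HS d (fun x => f (fun i => afe (φ i) x)) :=
  hHSPull e d (fun i => (φ i).1) (fun i => (φ i).2) f hf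

theorem HSEnt_add {d : ℕ} (φ ψ : (Fin d → ℤ) × ℤ) (x : Fin d → ℤ) :
    afe (φ + ψ) x = afe φ x + afe ψ x := by
  unfold afe
  simp only [Prod.fst_add, Prod.snd_add, Pi.add_apply, add_mul, Finset.sum_add_distrib]
  ring

theorem HSEnt_sub {d : ℕ} (φ ψ : (Fin d → ℤ) × ℤ) (x : Fin d → ℤ) :
    afe (φ - ψ) x = afe φ x - afe ψ x := by
  unfold afe
  simp only [Prod.fst_sub, Prod.snd_sub, Pi.sub_apply, sub_mul, Finset.sum_sub_distrib]
  ring

theorem HSEnt_one {d : ℕ} (x : Fin d → ℤ) : afe ((0, 1) : (Fin d → ℤ) × ℤ) x = 1 := by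
  unfold afe
  simp

theorem HSEnt_quad (hHSPull : HSPull) (hQ : TameQuad) {d : ℕ} (N a b k : (Fin d → ℤ) × ℤ)
    (A : Fin 4 → Fin 4 → ℤ) (B : Fin 4 → ℤ) (c : ℤ) :
    HS d (fun x => t ^ (∑ i, ∑ j, A i j * (![afe N x, afe a x, afe b x, afe k x] i) *
      (![afe N x, afe a x, afe b x, afe k x] j) +
      ∑ i, B i * (![afe N x, afe a x, afe b x, afe k x] i) + c)) := by
  have h1 := HSEnt_pull hHSPull ![N, a, b, k] (HS.tame (hQ 4 A B (t ^ c)))
  have e : ∀ x : Fin d → ℤ, (fun i => afe (![N, a, b, k] i) x) =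
      ![afe N x, afe a x, afe b x, afe k x] := by
    intro x
    funext i
    fin_cases i <;> rfl
  have ht : t ≠ 0 := RatFunc.X_ne_zero
  convert h1 using 2 with x
  rw [e x, zpow_add₀ ht, mul_comm]

theorem HSEnt_sign (hHSPull : HSPull) (hP : TamePow) {d : ℕ} (k : (Fin d → ℤ) × ℤ) :
    HS d (fun x => (-1 : K) ^ (afe k x)) :=
  HSEnt_pull hHSPull ![k] (HS.tame (hP (-1) (by norm_num)))

theorem HSEnt_pq (hHSPull : HSPull) (hP : TamePq) {d : ℕ} (k : (Fin d → ℤ) × ℤ) :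
    HS d (fun x => pq (afe k x)) :=
  HSEnt_pull hHSPull ![k] (HS.tame hP)

theorem HSEnt_pr (hHSPull : HSPull) (hP : HSPr) {d : ℕ} (a k : (Fin d → ℤ) × ℤ) :
    HS d (fun x => pr (afe a x) (afe k x)) :=
  HSEnt_pull hHSPull ![a, k] hP

theorem HSEnt_ind (hHSPull : HSPull) (hP : HSInd) {d : ℕ} (a : (Fin d → ℤ) × ℤ) :
    HS d (fun x => if 0 ≤ afe a x then 1 else 0) :=
  HSEnt_pull hHSPull ![a] hP

theorem HSEnt_inv (c : ℤ) : ((-1 : K) ^ c)⁻¹ = (-1) ^ c := by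
  rw [← _root_.inv_zpow, inv_neg, inv_one]

theorem HSEnt_cz (hHSMul : HSMul) (hHSPull : HSPull) (hTameQuad : TameQuad) (hTamePow : TamePow)
    {d : ℕ} (N a : (Fin d → ℤ) × ℤ) (s : ℤ) :
    HS d (fun x => (-1) ^ (afe a x) * t ^ (s * (2 * afe a x * (afe N x - 2 - afe a x)))) := by
  have h1 := hHSMul d _ _ (HSEnt_sign hHSPull hTamePow a)
    (HSEnt_quad hHSPull hTameQuad N a a a ![![0, 2 * s, 0, 0], ![0, -2 * s, 0, 0],
      ![0, 0, 0, 0], ![0, 0, 0, 0]] ![0, -4 * s, 0, 0] 0)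
  convert h1 using 4 with x
  simp only [Fin.sum_univ_four]
  simp
  ring

theorem prf_HSEnt (hHSMul : HSMul) (hHSPull : HSPull) (hHSInd : HSInd) (hHSPr : HSPr)
    (hTameQuad : TameQuad) (hTamePow : TamePow) (hTamePq : TamePq) (_hTamePull : TamePull)
    (_hTameMul : TameMul) : HSEnt := by
  intro d N a b k
  refine ⟨?_, ?_, ?_, ?_, ?_, ?_⟩
  · have h1 := hHSMul d _ _ (hHSMul d _ _ (HSEnt_sign hHSPull hTamePow k)
      (HSEnt_quad hHSPull hTameQuad N a b k ![![1, -2, -2, -2], ![0, 0, 4, 4],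
        ![0, 0, 0, -4], ![0, 0, 0, -2]] ![-2, 2, 2, 0] 1))
      (hHSMul d _ _ (HSEnt_pq hHSPull hTamePq k) (hHSMul d _ _ (HSEnt_pr hHSPull hHSPr a k)
        (HSEnt_pr hHSPull hHSPr (N - a + k - (0, 1)) k)))
    convert h1 using 2 with x
    unfold bz
    congr 2
    · congr 1
      simp only [Fin.sum_univ_four]
      simp
      ring
    · congr 2
      rw [HSEnt_sub, HSEnt_add, HSEnt_sub, HSEnt_one]
  · have h1 := hHSMul d _ _ 
      (HSEnt_quad hHSPull hTameQuad N a b k ![![-1, 2, 2, -2], ![0, 0, -4, 0],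
        ![0, 0, 0, 0], ![0, 0, 0, 0]] ![2, -2, -2, 2] (-1))
      (hHSMul d _ _ (HSEnt_pq hHSPull hTamePq k) (hHSMul d _ _ (HSEnt_pr hHSPull hHSPr b k)
        (HSEnt_pr hHSPull hHSPr (N - b + k - (0, 1)) k)))
    convert h1 using 2 with x
    unfold bi
    congr 1
    · congr 1
      simp only [Fin.sum_univ_four]
      simp
      ring
    · congr 2
      rw [HSEnt_sub, HSEnt_add, HSEnt_sub, HSEnt_one]
  · convert HSEnt_cz hHSMul hHSPull hTameQuad hTamePow N a 1 using 2 with x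
    unfold cz
    rw [one_mul]
  · convert HSEnt_cz hHSMul hHSPull hTameQuad hTamePow N a (-1) using 2 with x
    unfold cz
    rw [mul_inv, HSEnt_inv, ← _root_.zpow_neg, neg_one_mul]
  · convert hHSMul d _ _ (HSEnt_ind hHSPull hHSInd a)
      (HSEnt_ind hHSPull hHSInd (N - a - (0, 1))) using 2 with x
    rw [HSEnt_sub, HSEnt_sub, HSEnt_one]
    by_cases h1 : 0 ≤ afe a x
    · by_cases h2 : afe a x < afe N x
      · rw [if_pos ⟨h1, h2⟩, if_pos h1, if_pos (by omega), one_mul]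
      · rw [if_neg (fun h => h2 h.2), if_neg (show ¬ (0 ≤ afe N x - afe a x - 1) by omega),
          mul_zero]
    · rw [if_neg (fun h => h1 h.1), if_neg h1, zero_mul]
  · convert hHSMul d _ _ (HSEnt_ind hHSPull hHSInd (a - b))
      (HSEnt_ind hHSPull hHSInd (b - a)) using 2 with x
    rw [HSEnt_sub, HSEnt_sub]
    by_cases h1 : afe a x = afe b x
    · rw [if_pos h1, if_pos (by omega), if_pos (by omega), one_mul]
    · rw [if_neg h1]
      rcases lt_or_gt_of_ne h1 with h2 | h2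
      · rw [if_neg (show ¬ (0 ≤ afe a x - afe b x) by omega), zero_mul]
      · rw [if_neg (show ¬ (0 ≤ afe b x - afe a x) by omega), mul_zero]

end AJH

end

section

/-!
# MP_d3fa71_gt, project Mut, block H, second part: item JKill
-/

open Polynomial

namespace AJH

theorem JKill_t_ne : (t : K) ≠ 0 := RatFunc.X_ne_zero

theorem JKill_t_pow (m : ℕ) (hm : 1 ≤ m) : (t : K) ^ m ≠ 1 := by
  intro h
  have h1 : algebraMap ℚ[X] (RatFunc ℚ) (X ^ m) = algebraMap ℚ[X] (RatFunc ℚ) 1 := by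
    rw [map_pow, map_one, RatFunc.algebraMap_X]
    exact h
  have h2 := RatFunc.algebraMap_injective ℚ h1
  have h3 := congrArg natDegree h2
  rw [natDegree_X_pow, natDegree_one] at h3
  omega

theorem JKill_sub_ne (n : ℕ) (hn : 1 ≤ n) :
    (t : K) ^ (2 * (n : ℤ)) - t ^ (-(2 * (n : ℤ))) ≠ 0 := by
  intro h
  have h1 : (t : K) ^ (4 * n) = 1 := by
    have h2 : (t : K) ^ (4 * n) - 1 =
        t ^ (2 * (n : ℤ)) * (t ^ (2 * (n : ℤ)) - t ^ (-(2 * (n : ℤ)))) := by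
      rw [mul_sub, ← zpow_add₀ JKill_t_ne, ← zpow_add₀ JKill_t_ne, ← zpow_natCast]
      have e1 : ((4 * n : ℕ) : ℤ) = 2 * (n : ℤ) + 2 * (n : ℤ) := by push_cast; ring
      rw [e1, add_neg_cancel, zpow_zero]
    rw [h, mul_zero] at h2
    exact sub_eq_zero.1 h2
  exact JKill_t_pow (4 * n) (by omega) h1

/-- the sequence. -/
theorem JKill_eq (w : List AJM.Mv) (e : ℤ) (n : ℕ) (hn : 1 ≤ n) :
    (t ^ (4 * (n : ℤ)) - 1) * AJM.Jc w e n =
      ((-1 : K) ^ (-e) * (-1)) ^ (n : ℤ) *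
        ((((-1 : K) ^ (-e) * (-1)) * (t ^ (2 : ℤ) - t ^ (-2 : ℤ)) * t ^ e) *
          t ^ (-e * n * n + 2 * n)) * AJM.Zs n w := by
  have ht := JKill_t_ne
  have h1 := JKill_sub_ne n hn
  have h2 : (t : K) ^ (2 : ℤ) - t ^ (-2 : ℤ) ≠ 0 := by
    have := JKill_sub_ne 1 le_rfl
    simpa using this
  have hm : (-1 : K) ≠ 0 := by norm_num
  have hm1 : ((-1 : K) ^ (n + 1)) ≠ 0 := pow_ne_zero _ hm
  have hq : AJM.qi n = (t ^ (2 * (n : ℤ)) - t ^ (-(2 * (n : ℤ)))) /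
      (t ^ (2 : ℤ) - t ^ (-2 : ℤ)) := rfl
  have h4 : (t : K) ^ (4 * (n : ℤ)) - 1 =
      t ^ (2 * (n : ℤ)) * (t ^ (2 * (n : ℤ)) - t ^ (-(2 * (n : ℤ)))) := by
    rw [mul_sub, ← zpow_add₀ ht, ← zpow_add₀ ht, add_neg_cancel, zpow_zero]
    congr 2
    ring
  have hJ : AJM.Jc w e n = ((-1) ^ (n + 1) * t ^ ((n : ℤ) ^ 2 - 1)) ^ (-e) * AJM.Zs n w /
      ((-1) ^ (n + 1) * AJM.qi n) := rfl
  have hs : ((-1 : K) ^ (n + 1)) * ((-1 : K) ^ (n + 1)) = 1 := by
    rw [← mul_pow]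
    norm_num
  have hinv : ((-1 : K) ^ (n + 1))⁻¹ = (-1 : K) ^ (n + 1) := inv_eq_of_mul_eq_one_left hs
  have h5 : (((-1 : K) ^ (n + 1)) * t ^ ((n : ℤ) ^ 2 - 1)) ^ (-e) =
      ((-1 : K) ^ (-e)) ^ (n + 1) * (t ^ (-e * n * n) * t ^ e) := by
    rw [mul_zpow]
    congr 1
    · rw [← zpow_natCast, ← zpow_natCast, ← zpow_mul, ← zpow_mul, mul_comm]
    · rw [← zpow_mul, ← zpow_add₀ ht]
      congr 1
      ring
  have h6 : (t : K) ^ (-e * n * n + 2 * n) = t ^ (-e * n * n) * t ^ (2 * (n : ℤ)) := by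
    rw [← zpow_add₀ ht]
  have h7 : ((-1 : K) ^ (-e) * (-1)) ^ (n : ℤ) * ((-1 : K) ^ (-e) * (-1)) =
      ((-1 : K) ^ (-e)) ^ (n + 1) * (-1 : K) ^ (n + 1) := by
    rw [zpow_natCast, ← pow_succ, mul_pow]
  rw [hJ, hq, h4, h5, h6]
  generalize (t : K) ^ (2 * (n : ℤ)) - t ^ (-(2 * (n : ℤ))) = S at *
  generalize (t : K) ^ (2 : ℤ) - t ^ (-2 : ℤ) = S2 at *
  generalize (t : K) ^ (2 * (n : ℤ)) = A at *
  generalize (t : K) ^ (-e * n * n) = B at *
  generalize (t : K) ^ e = E at *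
  generalize AJM.Zs n w = Z at *
  generalize ((-1 : K) ^ (n + 1)) = s at *
  generalize ((-1 : K) ^ (-e)) ^ (n + 1) = v at *
  generalize ((-1 : K) ^ (-e) * (-1)) ^ (n : ℤ) = a at *
  generalize ((-1 : K) ^ (-e) * (-1)) = b at *
  have h8 : a * (b * S2 * E * (B * A)) * Z = (a * b) * S2 * E * B * A * Z := by ring
  rw [h8, h7]
  field_simp
  linear_combination (-(v * E * B * A * Z)) * hs

theorem prf_JKill (hGoodVz : GoodVz) (hVzOpw : VzOpw) (hHSSeq : HSSeq) (hHSMul : HSMul)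
    (hTameQuad : TameQuad) (hTamePow : TamePow) : JKill := by
  intro w e
  have hm : (-1 : K) ≠ 0 := by norm_num
  have hu : ((-1 : K) ^ (-e) * (-1)) ≠ 0 := mul_ne_zero (zpow_ne_zero _ hm) hm
  set u : K := (-1 : K) ^ (-e) * (-1) with hudef
  set c : K := u * (t ^ (2 : ℤ) - t ^ (-2 : ℤ)) * t ^ e with hc
  have H1 : HS 1 (fun x : Fin 1 → ℤ => u ^ (x 0)) := HS.tame (hTamePow u hu)
  have H2 : HS 1 (fun x : Fin 1 → ℤ => c * t ^ (∑ i, ∑ j, (fun _ _ => -e : Fin 1 → Fin 1 → ℤ) i j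
      * x i * x j + ∑ i, (fun _ => 2 : Fin 1 → ℤ) i * x i)) :=
    HS.tame (hTameQuad 1 (fun _ _ => -e) (fun _ => 2) c)
  have H3 : HS 1 (fun x : Fin 1 → ℤ => Vz w (afe ((fun _ => 1 : Fin 1 → ℤ), (0 : ℤ)) x)
      (([] : List ((Fin 1 → ℤ) × ℤ)).map fun φ => afe φ x)) := hGoodVz w 1 _ _
  refine hHSSeq _ (AJM.Jc w e) (hHSMul 1 _ _ (hHSMul 1 _ _ H1 H2) H3) ?_
  intro n hn
  have hV : AJM.Zs n w = Vz w n [] := hVzOpw n w [] hn
  rw [JKill_eq w e n hn, hV]
  simp only [Fin.sum_univ_one, afe, List.map_nil, one_mul, add_zero]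
  rfl

end AJH

end
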