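import Pool.Agent.Work.MP_d3fa71_gt.Mut.Bd.B05
import Pool.Agent.Work.MP_d3fa71_gt.Mut.Bd.B20
import Pool.Agent.Work.MP_d3fa71_gt.Mut.DefsJ

/-! Bundle of small proof modules (one section per former module). -/

section

/-!
# MP_d3fa71_gt, project Mut, block D: from transports to frames
-/

set_option autoImplicit false

namespace AJM

section
variable {R : Type} [CommRing R]

theorem L_TtoP_JJ : (J : G R) * J = dg (-1) := by
  apply Subtype.ext
  rw [Matrix.SpecialLinearGroup.coe_mul]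
  ext i j
  fin_cases i <;> fin_cases j <;> simp [dg, J, Matrix.mul_apply]

theorem L_TtoP_mm : (dg (-1) : G R) * dg (-1) = 1 := by
  rw [← PathX.dg_mul, neg_mul_neg, one_mul, PathX.dg_one]

theorem L_TtoP_conj (u : Rˣ) : (J : G R) * dg u * J⁻¹ = (dg u)⁻¹ := by
  have h := PathX.dg_J_dg u
  have h1 : (J : G R) * dg u = (dg u)⁻¹ * J := by
    rw [eq_inv_mul_iff_mul_eq, ← mul_assoc]
    exact h
  rw [h1, mul_inv_cancel_right]

theorem L_TtoP_mul (h₀ : G R) (b : Bool) (x g : G R) : fr h₀ (b, x * g) = x * fr h₀ (b, g) := by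
  cases b <;> simp [fr, mul_assoc]

theorem L_TtoP_mer (M : Rˣ) (h₀ : G R) (b : Bool) (g : G R) :
    mer M (fr h₀ (b, g)) = mr (mer M h₀) b g := by
  cases b with
  | true =>
    show mer M (g * h₀) = g * mer M h₀ * g⁻¹
    exact PathX.mer_mul g h₀
  | false =>
    show mer M (g * h₀ * J) = g * (mer M h₀)⁻¹ * g⁻¹
    have h := L_TtoP_conj (R := R) M
    have e1 : mer M (g * h₀ * J) = g * (h₀ * (J * dg M * J⁻¹) * h₀⁻¹) * g⁻¹ := by
      unfold mer
      simp only [mul_inv_rev, mul_assoc]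
    rw [e1, h]
    unfold mer
    simp only [mul_inv_rev, inv_inv, mul_assoc]

theorem L_TtoP_cons (h : G R) (s : List (G R)) (u : Rˣ) (d : List Rˣ) :
    scl (h :: s) (u :: d) = h * dg u :: scl s d := rfl

theorem L_TtoP_ones (s : List (G R)) : scl s (List.replicate s.length 1) = s := by
  induction s with
  | nil => rfl
  | cons h s ih =>
    rw [List.length_cons, List.replicate_succ, L_TtoP_cons, ih, PathX.dg_one, mul_one]

theorem L_TtoP_prod_ones (n : ℕ) : (List.replicate n (1 : Rˣ)).prod = 1 := by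
  rw [List.prod_replicate, one_pow]

theorem L_TtoP_len (s : List (G R)) (d : List Rˣ) (h : d.length = s.length) :
    (scl s d).length = s.length := by
  unfold scl
  rw [List.length_zipWith, h, min_self]

theorem L_TtoP_scl_scl (s : List (G R)) (d d' : List Rˣ) :
    scl (scl s d) d' = scl s (List.zipWith (· * ·) d d') := by
  induction s generalizing d d' with
  | nil => simp [scl]
  | cons h s ih =>
    cases d with
    | nil => simp [scl]
    | cons u d =>
      cases d' with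
      | nil => simp [scl]
      | cons u' d' =>
        rw [L_TtoP_cons, L_TtoP_cons, List.zipWith_cons_cons, L_TtoP_cons,
          ih, PathX.dg_mul, mul_assoc]

theorem L_TtoP_prod (d d' : List Rˣ) (h : d.length = d'.length) :
    (List.zipWith (· * ·) d d').prod = d.prod * d'.prod := by
  induction d generalizing d' with
  | nil =>
    cases d' with
    | nil => simp
    | cons u' d' => simp at h
  | cons u d ih =>
    cases d' with
    | nil => simp at h
    | cons u' d' =>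
      rw [List.length_cons, List.length_cons] at h
      rw [List.zipWith_cons_cons, List.prod_cons, List.prod_cons, List.prod_cons,
        ih d' (by omega)]
      exact mul_mul_mul_comm _ _ _ _

/-- One move. -/
theorem L_TtoP_step {M : Rˣ} {h₀ : G R} {m : Mv} {s s' : List (Bool × G R)}
    (h : TStep (mer M h₀) m s s') :
    ∃ (d : List Rˣ) (τ : Rˣ), d.length = s'.length ∧
      Step M m (s.map (fr h₀)) (scl (s'.map (fr h₀)) d) τ ∧
      (τ * d.prod = 1 ∨ τ * d.prod = -1) := by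
  induction h with
  | cup b g s =>
    cases b with
    | true =>
      refine ⟨List.replicate (s.length + 2) 1, 1, by simp, ?_, Or.inl ?_⟩
      · have e : scl (((true, g) :: (!true, g) :: s).map (fr h₀)) (List.replicate (s.length + 2) 1)
            = (g * h₀) :: (g * h₀) * J :: s.map (fr h₀) := by
          have e1 := L_TtoP_ones (((true, g) :: (!true, g) :: s).map (fr h₀))
          rw [List.length_map, List.length_cons, List.length_cons] at e1
          exact e1
        rw [e]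
        exact Step.cup _ _
      · rw [L_TtoP_prod_ones, mul_one]
    | false =>
      refine ⟨1 :: -1 :: List.replicate s.length 1, 1, by simp, ?_, Or.inr ?_⟩
      · have e : scl (((false, g) :: (!false, g) :: s).map (fr h₀))
            (1 :: -1 :: List.replicate s.length 1)
            = (g * h₀ * J) :: (g * h₀ * J) * J :: s.map (fr h₀) := by
          have e1 := L_TtoP_ones (s.map (fr h₀))
          rw [List.length_map] at e1
          have e2 : ((false, g) :: (!false, g) :: s).map (fr h₀) =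
              (g * h₀ * J) :: (g * h₀) :: s.map (fr h₀) := rfl
          rw [e2, L_TtoP_cons, L_TtoP_cons, e1, PathX.dg_one, mul_one, ← L_TtoP_JJ]
          simp only [mul_assoc]
        rw [e]
        exact Step.cup _ _
      · rw [List.prod_cons, List.prod_cons, L_TtoP_prod_ones, mul_one, one_mul, one_mul]
  | cap b g s =>
    have e1 := L_TtoP_ones (s.map (fr h₀))
    rw [List.length_map] at e1
    cases b with
    | true =>
      refine ⟨List.replicate s.length 1, 1, by simp, ?_, Or.inl ?_⟩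
      · rw [e1]
        have e : ((true, g) :: (!true, g) :: s).map (fr h₀) =
            (g * h₀) :: (g * h₀) * J * dg 1 :: s.map (fr h₀) := by
          rw [PathX.dg_one, mul_one]
          rfl
        rw [e]
        exact Step.cap _ _ _
      · rw [L_TtoP_prod_ones, mul_one]
    | false =>
      refine ⟨List.replicate s.length 1, -1, by simp, ?_, Or.inr ?_⟩
      · rw [e1]
        have e : ((false, g) :: (!false, g) :: s).map (fr h₀) =
            (g * h₀ * J) :: (g * h₀ * J) * J * dg (-1) :: s.map (fr h₀) := by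
          have e2 : g * h₀ * J * J * dg (-1) = g * h₀ := by
            rw [mul_assoc (g * h₀) J J, L_TtoP_JJ, mul_assoc (g * h₀), L_TtoP_mm, mul_one]
          rw [e2]
          rfl
        rw [e]
        exact Step.cap _ _ _
      · rw [L_TtoP_prod_ones, mul_one]
  | pos b c g h s =>
    refine ⟨List.replicate (s.length + 2) 1, 1, by simp, ?_, Or.inl ?_⟩
    · have e1 := L_TtoP_ones (((c, h) :: (b, (mr (mer M h₀) c h)⁻¹ * g) :: s).map (fr h₀))
      rw [List.length_map, List.length_cons, List.length_cons] at e1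
      rw [e1, List.map_cons, List.map_cons, List.map_cons, List.map_cons, L_TtoP_mul,
        ← L_TtoP_mer]
      exact Step.pos _ _ _
    · rw [L_TtoP_prod_ones, mul_one]
  | neg b c g h s =>
    refine ⟨List.replicate (s.length + 2) 1, 1, by simp, ?_, Or.inl ?_⟩
    · have e1 := L_TtoP_ones (((c, mr (mer M h₀) b g * h) :: (b, g) :: s).map (fr h₀))
      rw [List.length_map, List.length_cons, List.length_cons] at e1
      rw [e1, List.map_cons, List.map_cons, List.map_cons, List.map_cons, L_TtoP_mul,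
        ← L_TtoP_mer]
      exact Step.neg _ _ _
    · rw [L_TtoP_prod_ones, mul_one]
  | sh a _ ih =>
    obtain ⟨d, τ, h1, h2, h3⟩ := ih
    refine ⟨1 :: d, τ, by simp [h1], ?_, ?_⟩
    · rw [List.map_cons, List.map_cons, L_TtoP_cons, PathX.dg_one, mul_one]
      exact Step.sh _ h2
    · rw [List.prod_cons, one_mul]
      exact h3

end

theorem prf_TtoP (hPathScale : PathScale) : TtoP := by
  intro R _ M h₀ w s s' h
  induction h with
  | nil s =>
    refine ⟨List.replicate s.length 1, 1, by simp, ?_, Or.inl ?_⟩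
    · have e1 := L_TtoP_ones (s.map (fr h₀))
      rw [List.length_map] at e1
      rw [e1]
      exact Path.nil _
    · rw [L_TtoP_prod_ones, mul_one]
  | cons hs _ ih =>
    obtain ⟨d1, τ1, a1, a2, a3⟩ := L_TtoP_step hs
    obtain ⟨d', τ', b1, b2, b3⟩ := ih
    obtain ⟨d2, τ2, c1, c2, c3⟩ := hPathScale R M _ _ _ _ d1 b2 (by rw [a1, List.length_map])
    rw [L_TtoP_len _ _ (by rw [b1, List.length_map]), List.length_map] at c1
    refine ⟨List.zipWith (· * ·) d' d2, τ1 * τ2, ?_, ?_, ?_⟩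
    · rw [List.length_zipWith, b1, c1, min_self]
    · rw [← L_TtoP_scl_scl]
      exact Path.cons a2 c2
    · rw [L_TtoP_prod _ _ (by rw [b1, c1])]
      have e : τ1 * τ2 * (d'.prod * d2.prod) = (τ1 * d1.prod) * (τ' * d'.prod) := by
        calc τ1 * τ2 * (d'.prod * d2.prod) = τ1 * d'.prod * (τ2 * d2.prod) := by
              rw [mul_assoc τ1 τ2, mul_left_comm τ2, ← mul_assoc τ1]
          _ = τ1 * d'.prod * (τ' * d1.prod) := by rw [c3]
          _ = (τ1 * d1.prod) * (τ' * d'.prod) := by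
              rw [mul_comm τ' d1.prod, mul_mul_mul_comm, mul_comm d'.prod τ']
      rw [e]
      rcases a3 with a3 | a3 <;> rcases b3 with b3 | b3 <;> rw [a3, b3]
      · left; rw [mul_one]
      · right; rw [one_mul]
      · right; rw [mul_one]
      · left; rw [neg_mul_neg, one_mul]

end AJM

end

section

/-! MP_d3fa71_gt, project Mut, block B, item TwoAppend. -/

namespace AJM

theorem prf_TwoAppend (hPathAppend : PathAppend) (hPathRight : PathRight) : TwoAppend := by
  intro R _ M w₁ w₂ ha hb ha' hb' τ hw₁ hw₂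
  rw [hPathAppend]
  constructor
  · rintro ⟨s', τ₁, τ₂, h1, h2, h3⟩
    have h4 := (hPathRight R M w₁ 2 2 [ha, hb] [] s' τ₁ hw₁ rfl).1
      (by rw [List.append_nil]; exact h1)
    obtain ⟨s'', h5, h6, _⟩ := h4
    rw [List.append_nil] at h6
    rw [← h6] at h5
    obtain ⟨x, y, rfl⟩ := List.length_eq_two.1 h5
    exact ⟨x, y, τ₁, τ₂, h1, h2, h3⟩
  · rintro ⟨x, y, τ₁, τ₂, h1, h2, h3⟩
    exact ⟨[x, y], τ₁, τ₂, h1, h2, h3⟩

end AJM

end

section

/-!
# MP_d3fa71_gt, project Mut: even twists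
-/

namespace AJM

section
variable {R : Type} [CommRing R]

theorem L_TwsEven_step_pos {M : Rˣ} {h k : G R} {s s' : List (G R)} {τ : Rˣ} :
    Step M (.pos, 0) (h :: k :: s) s' τ ↔ s' = k :: (mer M k)⁻¹ * h :: s ∧ τ = 1 := by
  constructor
  · intro H
    cases H
    exact ⟨rfl, rfl⟩
  · rintro ⟨rfl, rfl⟩
    exact Step.pos h k s

theorem L_TwsEven_step_neg {M : Rˣ} {h k : G R} {s s' : List (G R)} {τ : Rˣ} :
    Step M (.neg, 0) (h :: k :: s) s' τ ↔ s' = mer M h * k :: h :: s ∧ τ = 1 := by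
  constructor
  · intro H
    cases H
    exact ⟨rfl, rfl⟩
  · rintro ⟨rfl, rfl⟩
    exact Step.neg h k s

theorem L_TwsEven_cons_pos {M : Rˣ} {h k : G R} {s s' : List (G R)} {τ : Rˣ} {w : List Mv} :
    Path M ((.pos, 0) :: w) (h :: k :: s) s' τ ↔
      Path M w (k :: (mer M k)⁻¹ * h :: s) s' τ := by
  constructor
  · intro H
    cases H with
    | cons H1 H2 =>
      obtain ⟨rfl, rfl⟩ := L_TwsEven_step_pos.1 H1
      rwa [one_mul]
  · intro H
    have := Path.cons (Step.pos (M := M) h k s) H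
    rwa [one_mul] at this

theorem L_TwsEven_cons_neg {M : Rˣ} {h k : G R} {s s' : List (G R)} {τ : Rˣ} {w : List Mv} :
    Path M ((.neg, 0) :: w) (h :: k :: s) s' τ ↔
      Path M w (mer M h * k :: h :: s) s' τ := by
  constructor
  · intro H
    cases H with
    | cons H1 H2 =>
      obtain ⟨rfl, rfl⟩ := L_TwsEven_step_neg.1 H1
      rwa [one_mul]
  · intro H
    have := Path.cons (Step.neg (M := M) h k s) H
    rwa [one_mul] at this

theorem L_TwsEven_two_pos {M : Rˣ} {h k : G R} {s s' : List (G R)} {τ : Rˣ} {w : List Mv} :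
    Path M ((.pos, 0) :: (.pos, 0) :: w) (h :: k :: s) s' τ ↔
      Path M w ((mer M h * mer M k)⁻¹ * h * dg M :: (mer M h * mer M k)⁻¹ * k * dg M :: s)
        s' τ := by
  rw [L_TwsEven_cons_pos, L_TwsEven_cons_pos]
  have e1 : (mer M k)⁻¹ * h = (mer M h * mer M k)⁻¹ * h * dg M := by
    rw [mul_assoc _ h, ← mer_self M h]
    group
  have e2 : (mer M ((mer M k)⁻¹ * h))⁻¹ * k = (mer M h * mer M k)⁻¹ * k * dg M := by
    rw [mul_assoc _ k, ← mer_self M k, mer_mul]
    group
  rw [e2, e1]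

theorem L_TwsEven_two_neg {M : Rˣ} {h k : G R} {s s' : List (G R)} {τ : Rˣ} {w : List Mv} :
    Path M ((.neg, 0) :: (.neg, 0) :: w) (h :: k :: s) s' τ ↔
      Path M w ((mer M h * mer M k) * h * (dg M)⁻¹ :: (mer M h * mer M k) * k * (dg M)⁻¹ :: s)
        s' τ := by
  rw [L_TwsEven_cons_neg, L_TwsEven_cons_neg]
  have e1 : mer M h * k = (mer M h * mer M k) * k * (dg M)⁻¹ := by
    rw [mul_assoc _ k, ← mer_inv_self M k]
    group
  have e2 : mer M (mer M h * k) * h = (mer M h * mer M k) * h * (dg M)⁻¹ := by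
    rw [mul_assoc _ h, ← mer_inv_self M h, mer_mul]
    group
  rw [e2, e1]

theorem L_TwsEven_pos (M : Rˣ) (m : ℕ) : ∀ (h k : G R) (s s₁ : List (G R)) (τ : Rˣ),
    Path M (List.replicate (2 * m) (.pos, 0)) (h :: k :: s) s₁ τ ↔
      τ = 1 ∧ s₁ = (mer M h * mer M k) ^ (-(m : ℤ)) * h * dg M ^ (m : ℤ) ::
        (mer M h * mer M k) ^ (-(m : ℤ)) * k * dg M ^ (m : ℤ) :: s := by
  induction m with
  | zero =>
    intro h k s s₁ τ
    simp only [Nat.mul_zero, List.replicate_zero, Nat.cast_zero, neg_zero, zpow_zero, one_mul,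
      mul_one]
    constructor
    · intro H
      cases H
      exact ⟨rfl, rfl⟩
    · rintro ⟨rfl, rfl⟩
      exact Path.nil _
  | succ m ih =>
    intro h k s s₁ τ
    have e : 2 * (m + 1) = 2 * m + 1 + 1 := by ring
    rw [e, List.replicate_succ, List.replicate_succ, L_TwsEven_two_pos, ih]
    set g := mer M h * mer M k with hg
    have e3 : mer M (g⁻¹ * h * dg M) * mer M (g⁻¹ * k * dg M) = g := by
      rw [mer_dg, mer_dg, mer_mul, mer_mul]
      calc g⁻¹ * mer M h * g⁻¹⁻¹ * (g⁻¹ * mer M k * g⁻¹⁻¹)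
          = g⁻¹ * (mer M h * mer M k) * g := by group
        _ = g := by rw [← hg]; group
    rw [e3]
    have e4 : ∀ x : G R, g ^ (-(m : ℤ)) * (g⁻¹ * x * dg M) * dg M ^ (m : ℤ) =
        g ^ (-((m + 1 : ℕ) : ℤ)) * x * dg M ^ ((m + 1 : ℕ) : ℤ) := by
      intro x
      push_cast
      have e5 : g ^ (-((m : ℤ) + 1)) = g ^ (-(m : ℤ)) * g⁻¹ := by
        rw [neg_add, zpow_add, zpow_neg_one]
      have e6 : dg M ^ ((m : ℤ) + 1) = dg M * dg M ^ (m : ℤ) := by
        rw [add_comm, zpow_add, zpow_one]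
      rw [e5, e6]
      simp only [mul_assoc]
    rw [e4, e4]

theorem L_TwsEven_neg (M : Rˣ) (m : ℕ) : ∀ (h k : G R) (s s₁ : List (G R)) (τ : Rˣ),
    Path M (List.replicate (2 * m) (.neg, 0)) (h :: k :: s) s₁ τ ↔
      τ = 1 ∧ s₁ = (mer M h * mer M k) ^ (m : ℤ) * h * dg M ^ (-(m : ℤ)) ::
        (mer M h * mer M k) ^ (m : ℤ) * k * dg M ^ (-(m : ℤ)) :: s := by
  induction m with
  | zero =>
    intro h k s s₁ τ
    simp only [Nat.mul_zero, List.replicate_zero, Nat.cast_zero, neg_zero, zpow_zero, one_mul,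
      mul_one]
    constructor
    · intro H
      cases H
      exact ⟨rfl, rfl⟩
    · rintro ⟨rfl, rfl⟩
      exact Path.nil _
  | succ m ih =>
    intro h k s s₁ τ
    have e : 2 * (m + 1) = 2 * m + 1 + 1 := by ring
    rw [e, List.replicate_succ, List.replicate_succ, L_TwsEven_two_neg, ih]
    set g := mer M h * mer M k with hg
    have e3 : mer M (g * h * (dg M)⁻¹) * mer M (g * k * (dg M)⁻¹) = g := by
      rw [← dg_inv, mer_dg, mer_dg, mer_mul, mer_mul]
      calc g * mer M h * g⁻¹ * (g * mer M k * g⁻¹)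
          = g * (mer M h * mer M k) * g⁻¹ := by group
        _ = g := by rw [← hg]; group
    rw [e3]
    have e4 : ∀ x : G R, g ^ (m : ℤ) * (g * x * (dg M)⁻¹) * dg M ^ (-(m : ℤ)) =
        g ^ ((m + 1 : ℕ) : ℤ) * x * dg M ^ (-((m + 1 : ℕ) : ℤ)) := by
      intro x
      push_cast
      have e5 : g ^ ((m : ℤ) + 1) = g ^ (m : ℤ) * g := by
        rw [zpow_add, zpow_one]
      have e6 : dg M ^ (-((m : ℤ) + 1)) = (dg M)⁻¹ * dg M ^ (-(m : ℤ)) := by
        rw [neg_add, add_comm, zpow_add, zpow_neg_one]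
      rw [e5, e6]
      simp only [mul_assoc]
    rw [e4, e4]

end

theorem prf_TwsEven : TwsEven := by
  intro R _ M n h k s s₁ τ
  rcases lt_or_ge n 0 with hn | hn
  · obtain ⟨m, rfl⟩ : ∃ m : ℕ, n = -((m : ℤ)) := ⟨(-n).toNat, by omega⟩
    have hm : ¬ (0 ≤ 2 * (-(m : ℤ))) := by omega
    have e : (-(2 * (-(m : ℤ)))).toNat = 2 * m := by omega
    unfold tws
    rw [if_neg hm, e, L_TwsEven_neg, neg_neg]
  · obtain ⟨m, rfl⟩ : ∃ m : ℕ, n = (m : ℤ) := ⟨n.toNat, by omega⟩
    have hm : 0 ≤ 2 * (m : ℤ) := by omega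
    have e : (2 * (m : ℤ)).toNat = 2 * m := by omega
    unfold tws
    rw [if_pos hm, e, L_TwsEven_pos]

end AJM

end

section

/-!
# MP_d3fa71_gt, project Mut: odd twists
-/

set_option autoImplicit false

namespace AJM

theorem L_TwsOdd_pos {R : Type} [CommRing R] (M : Rˣ) (h k : G R) (s s₁ : List (G R)) (τ : Rˣ) :
    Path M [(.pos, 0)] (h :: k :: s) s₁ τ ↔ τ = 1 ∧ s₁ = k :: (mer M k)⁻¹ * h :: s := by
  constructor
  · intro hp
    cases hp with
    | cons h1 h2 =>
      cases h1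
      cases h2
      exact ⟨mul_one _, rfl⟩
  · rintro ⟨rfl, rfl⟩
    have := Path.cons (Step.pos (M := M) h k s) (Path.nil _)
    rw [mul_one] at this
    exact this

theorem L_TwsOdd_tws (n : ℕ) : tws (2 * (n : ℤ) + 1) = tws (2 * (n : ℤ)) ++ [(.pos, 0)] := by
  unfold tws
  rw [if_pos (by omega), if_pos (by omega)]
  have h : (2 * (n : ℤ) + 1).toNat = (2 * (n : ℤ)).toNat + 1 := by omega
  rw [h, List.replicate_succ']

theorem L_TwsOdd_frame {R : Type} [CommRing R] (M : Rˣ) (n : ℕ) (g h k : G R) :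
    (mer M (g * k * dg M ^ n))⁻¹ * (g * h * dg M ^ n) = g * (mer M k)⁻¹ * h * dg M ^ n := by
  rw [← dg_pow, mer_dg, mer_mul]
  group

theorem prf_TwsOdd (hTwsEven : TwsEven) (hPathAppend : PathAppend) : TwsOdd := by
  intro R _ M n h k s s₁ τ
  rw [L_TwsOdd_tws, hPathAppend R]
  constructor
  · rintro ⟨s', τ₁, τ₂, h1, h2, rfl⟩
    obtain ⟨rfl, rfl⟩ := (hTwsEven R M n h k s s' τ₁).1 h1
    obtain ⟨rfl, rfl⟩ := (L_TwsOdd_pos M _ _ s s₁ τ₂).1 h2
    refine ⟨mul_one _, ?_⟩
    rw [zpow_natCast (dg M) n, L_TwsOdd_frame]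
  · rintro ⟨rfl, rfl⟩
    refine ⟨_, 1, 1, (hTwsEven R M n h k s _ 1).2 ⟨rfl, rfl⟩, (L_TwsOdd_pos M _ _ s _ 1).2
      ⟨rfl, ?_⟩, (mul_one _).symm⟩
    rw [zpow_natCast (dg M) n, L_TwsOdd_frame]

end AJM

end

section

namespace AJM

theorem L_WEval_sh (c : ℕ) (k : Kd) (i : ℕ) (a : WF × WF) (s : List (WF × WF)) :
    wmv c k (i + 1) (a :: s) = (a :: (wmv c k i s).1, (wmv c k i s).2) := by
  cases k <;> (conv_lhs => unfold wmv)

theorem L_WEval_step {H : Type} [Group H] (φ : WF →* H) (c : ℕ) (k : Kd) :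
    ∀ (i : ℕ) (s : List (WF × WF)) (b b1 : List Bool) (e : ℤ),
    OStep (k, i) b b1 e → b.length = s.length →
    (∀ r ∈ (wmv c k i s).2, φ r = 1) →
    b1.length = (wmv c k i s).1.length ∧
    WStep (k, i) (s.map (Prod.map φ φ)) ((wmv c k i s).1.map (Prod.map φ φ)) := by
  intro i
  induction i with
  | zero =>
    intro s b b1 e h hl hr
    cases h with
    | cup b0 =>
      refine ⟨?_, ?_⟩
      · simp [wmv, hl]
      · simpa [wmv] using WStep.cup (φ (FreeGroup.of (c, false))) (φ (FreeGroup.of (c, true)))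
          (s.map (Prod.map φ φ))
    | cap b0 s0 =>
      rcases s with _ | ⟨⟨x, g⟩, _ | ⟨⟨y, h⟩, s⟩⟩
      · simp at hl
      · simp at hl
      · simp only [wmv, List.mem_cons, List.not_mem_nil, or_false] at hr
        have h1 := hr _ (Or.inl rfl)
        have h2 := hr _ (Or.inr rfl)
        rw [map_mul] at h1
        rw [map_mul, map_inv] at h2
        have h3 : φ y = (φ x)⁻¹ := eq_inv_of_mul_eq_one_right h1
        have h4 : φ h = φ g := by
          rw [mul_inv_eq_one] at h2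
          exact h2.symm
        refine ⟨?_, ?_⟩
        · simp at hl
          simp [wmv, hl]
        · simpa [wmv, h3, h4] using WStep.cap (φ x) (φ g) (s.map (Prod.map φ φ))
    | pos a0 b0 s0 =>
      rcases s with _ | ⟨⟨x, g⟩, _ | ⟨⟨y, h⟩, s⟩⟩
      · simp at hl
      · simp at hl
      · refine ⟨?_, ?_⟩
        · simp at hl
          simp [wmv, hl]
        · simpa [wmv] using WStep.pos (φ x) (φ g) (φ y) (φ h) (s.map (Prod.map φ φ))
    | neg a0 b0 s0 =>
      rcases s with _ | ⟨⟨x, g⟩, _ | ⟨⟨y, h⟩, s⟩⟩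
      · simp at hl
      · simp at hl
      · refine ⟨?_, ?_⟩
        · simp at hl
          simp [wmv, hl]
        · simpa [wmv] using WStep.neg (φ x) (φ g) (φ y) (φ h) (s.map (Prod.map φ φ))
  | succ i ih =>
    intro s b b1 e h hl hr
    cases h with
    | @sh x k i s1 s2 e h =>
      rcases s with _ | ⟨a, s⟩
      · simp at hl
      · rw [L_WEval_sh] at hr ⊢
        have hl' : s1.length = s.length := by simpa using hl
        obtain ⟨h1, h2⟩ := ih s s1 s2 e h hl' hr
        refine ⟨by simp [h1], ?_⟩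
        simpa using WStep.sh (Prod.map φ φ a) h2

theorem prf_WEval : WEval := by
  intro H _ φ w
  induction w with
  | nil =>
    intro c s b e hO hl _
    cases hO
    have : s = [] := by
      cases s with
      | nil => rfl
      | cons a s => simp at hl
    subst this
    exact WPath.nil _
  | cons m w ih =>
    intro c s b e hO hl hr
    obtain ⟨k, i⟩ := m
    cases hO with
    | @cons m w s1 b1 s2 e1 e2 h1 h2 =>
      have hr1 : ∀ r ∈ (wmv c k i s).2, φ r = 1 := fun r hh => hr r (by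
        simp only [wrel, List.mem_append]
        exact Or.inl hh)
      have hr2 : ∀ r ∈ wrel (c + 1) w (wmv c k i s).1, φ r = 1 := fun r hh => hr r (by
        simp only [wrel, List.mem_append]
        exact Or.inr hh)
      obtain ⟨hl1, hs⟩ := L_WEval_step φ c k i s b b1 e1 h1 hl hr1
      exact WPath.cons hs (ih (c + 1) _ b1 e2 h2 hl1 hr2)

end AJM

end

section

/-!
# MP_d3fa71_gt, project Mut, block D: labels define homomorphisms
-/

namespace AJM

theorem L_WLift_mul {c : ℕ} {x y : WF} (hx : Low c x) (hy : Low c y) : Low c (x * y) := by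
  intro H _ f g h
  rw [map_mul, map_mul, hx H f g h, hy H f g h]

theorem L_WLift_inv {c : ℕ} {x : WF} (hx : Low c x) : Low c x⁻¹ := by
  intro H _ f g h
  rw [map_inv, map_inv, hx H f g h]

theorem L_WLift_mono {c : ℕ} {x : WF} (hx : Low c x) : Low (c + 1) x := by
  intro H _ f g h
  exact hx H f g (fun i hi b => h i (by omega) b)

theorem L_WLift_of (c : ℕ) (b : Bool) : Low (c + 1) (FreeGroup.of (c, b)) := by
  intro H _ f g h
  rw [FreeGroup.lift_apply_of, FreeGroup.lift_apply_of, h c (by omega) b]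

theorem L_WLift_map {H : Type} [Group H] {c : ℕ} {f g : ℕ × Bool → H}
    (hfg : ∀ i < c, ∀ b, f (i, b) = g (i, b)) (s : List (WF × WF))
    (hs : ∀ p ∈ s, Low c p.1 ∧ Low c p.2) :
    s.map (Prod.map (FreeGroup.lift f) (FreeGroup.lift f)) =
      s.map (Prod.map (FreeGroup.lift g) (FreeGroup.lift g)) := by
  apply List.map_congr_left
  intro p hp
  obtain ⟨h1, h2⟩ := hs p hp
  exact Prod.ext (h1 H f g hfg) (h2 H f g hfg)

theorem L_WLift_cup {H : Type} [Group H] {s t : List (H × H)} (h : WStep (.cup, 0) s t) :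
    ∃ x g, t = (x, g) :: (x⁻¹, g) :: s := by
  cases h
  exact ⟨_, _, rfl⟩

theorem L_WLift_cap {H : Type} [Group H] {s t : List (H × H)} (h : WStep (.cap, 0) s t) :
    ∃ x g, s = (x, g) :: (x⁻¹, g) :: t := by
  cases h
  exact ⟨_, _, rfl⟩

theorem L_WLift_pos {H : Type} [Group H] {s t : List (H × H)} (h : WStep (.pos, 0) s t) :
    ∃ x g y k s', s = (x, g) :: (y, k) :: s' ∧ t = (y, k) :: (y⁻¹ * x * y, y⁻¹ * g) :: s' := by
  cases h
  exact ⟨_, _, _, _, _, rfl, rfl⟩

theorem L_WLift_neg {H : Type} [Group H] {s t : List (H × H)} (h : WStep (.neg, 0) s t) :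
    ∃ x g y k s', s = (x, g) :: (y, k) :: s' ∧ t = (x * y * x⁻¹, x * k) :: (x, g) :: s' := by
  cases h
  exact ⟨_, _, _, _, _, rfl, rfl⟩

theorem L_WLift_sh {H : Type} [Group H] {k : Kd} {i : ℕ} {s t : List (H × H)}
    (h : WStep (k, i + 1) s t) :
    ∃ a s1 t1, s = a :: s1 ∧ t = a :: t1 ∧ WStep (k, i) s1 t1 := by
  cases h with
  | sh a h => exact ⟨_, _, _, rfl, rfl, h⟩

theorem L_WLift_wmv (c : ℕ) (k : Kd) (i : ℕ) (a : WF × WF) (s : List (WF × WF)) :
    wmv c k (i + 1) (a :: s) = (a :: (wmv c k i s).1, (wmv c k i s).2) := by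
  cases k <;> rfl

/-- The cut off assignment. -/
def L_WLift_cut {H : Type} [Group H] (c : ℕ) (f : ℕ × Bool → H) (x g : H) (p : ℕ × Bool) : H :=
  if p.1 < c then f p else if p.1 = c then (if p.2 then g else x) else 1

theorem L_WLift_cut_lt {H : Type} [Group H] (c : ℕ) (f : ℕ × Bool → H) (x g : H) :
    ∀ i < c, ∀ b, L_WLift_cut c f x g (i, b) = f (i, b) := by
  intro i hi b
  simp [L_WLift_cut, hi]

theorem L_WLift_cut_false {H : Type} [Group H] (c : ℕ) (f : ℕ × Bool → H) (x g : H) :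
    L_WLift_cut c f x g (c, false) = x := by
  simp [L_WLift_cut]

theorem L_WLift_cut_true {H : Type} [Group H] (c : ℕ) (f : ℕ × Bool → H) (x g : H) :
    L_WLift_cut c f x g (c, true) = g := by
  simp [L_WLift_cut]

theorem L_WLift_cut_one {H : Type} [Group H] (c : ℕ) (f : ℕ × Bool → H) (b : Bool) :
    L_WLift_cut c f 1 1 (c, b) = 1 := by
  cases b <;> simp [L_WLift_cut]

theorem L_WLift_step {H : Type} [Group H] (c : ℕ) (f : ℕ × Bool → H) {m : Mv} {b b1 : List Bool}
    {e : ℤ} (hO : OStep m b b1 e) :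
    ∀ (s : List (WF × WF)) (t : List (H × H)), b.length = s.length →
    (∀ p ∈ s, Low c p.1 ∧ Low c p.2) →
    WStep m (s.map (Prod.map (FreeGroup.lift f) (FreeGroup.lift f))) t →
    ∃ f1 : ℕ × Bool → H, (∀ i < c, ∀ b, f1 (i, b) = f (i, b)) ∧
      (m.1 ≠ .cup → ∀ b, f1 (c, b) = 1) ∧
      t = (wmv c m.1 m.2 s).1.map (Prod.map (FreeGroup.lift f1) (FreeGroup.lift f1)) ∧
      (∀ r ∈ (wmv c m.1 m.2 s).2, Low (c + 1) r ∧ FreeGroup.lift f1 r = 1) ∧
      b1.length = (wmv c m.1 m.2 s).1.length ∧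
      (∀ p ∈ (wmv c m.1 m.2 s).1, Low (c + 1) p.1 ∧ Low (c + 1) p.2) := by
  induction hO with
  | cup b0 b =>
    intro s t hl hs hW
    obtain ⟨x, g, rfl⟩ := L_WLift_cup hW
    have hcut := L_WLift_cut_lt c f x g
    refine ⟨L_WLift_cut c f x g, hcut, fun h => absurd rfl h, ?_, ?_, ?_, ?_⟩
    · show _ = (Prod.map _ _ (FreeGroup.of (c, false), FreeGroup.of (c, true))) ::
        (Prod.map _ _ ((FreeGroup.of (c, false))⁻¹, FreeGroup.of (c, true))) :: s.map _
      rw [L_WLift_map hcut s hs]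
      simp only [Prod.map_apply, map_inv, FreeGroup.lift_apply_of, L_WLift_cut_false,
        L_WLift_cut_true]
    · intro r hr
      exact absurd hr (by simp [wmv])
    · simp [wmv, hl]
    · intro p hp
      have hp' : p = (FreeGroup.of (c, false), FreeGroup.of (c, true)) ∨
          p = ((FreeGroup.of (c, false))⁻¹, FreeGroup.of (c, true)) ∨ p ∈ s := by
        simpa [wmv] using hp
      rcases hp' with rfl | rfl | hp'
      · exact ⟨L_WLift_of c false, L_WLift_of c true⟩
      · exact ⟨L_WLift_inv (L_WLift_of c false), L_WLift_of c true⟩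
      · exact ⟨L_WLift_mono (hs p hp').1, L_WLift_mono (hs p hp').2⟩
  | cap b0 b =>
    intro s t hl hs hW
    obtain ⟨x, g, hst⟩ := L_WLift_cap hW
    match s, hl, hs, hst with
    | (x0, g0) :: (y0, h0) :: s, hl, hs, hst =>
      simp only [List.map_cons, Prod.map_apply, List.cons.injEq, Prod.mk.injEq] at hst
      obtain ⟨⟨h1, h2⟩, ⟨h3, h4⟩, h5⟩ := hst
      have hs0 := hs (x0, g0) (by simp)
      have hs1 := hs (y0, h0) (by simp)
      have hs2 : ∀ p ∈ s, Low c p.1 ∧ Low c p.2 := fun p hp => hs p (by simp [hp])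
      have hcut := L_WLift_cut_lt c f 1 1
      refine ⟨L_WLift_cut c f 1 1, hcut, fun _ => L_WLift_cut_one c f, ?_, ?_, ?_, ?_⟩
      · show t = s.map _
        rw [L_WLift_map hcut s hs2, h5]
      · intro r hr
        have hr' : r = x0 * y0 ∨ r = g0 * h0⁻¹ := by
          simpa [wmv] using hr
        rcases hr' with rfl | rfl
        · have hlow : Low c (x0 * y0) := L_WLift_mul hs0.1 hs1.1
          refine ⟨L_WLift_mono hlow, ?_⟩
          rw [hlow H _ f hcut, map_mul, h1, h3, mul_inv_cancel]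
        · have hlow : Low c (g0 * h0⁻¹) := L_WLift_mul hs0.2 (L_WLift_inv hs1.2)
          refine ⟨L_WLift_mono hlow, ?_⟩
          rw [hlow H _ f hcut, map_mul, map_inv, h2, h4, mul_inv_cancel]
      · show b.length = s.length
        simpa using hl
      · intro p hp
        have hp' : p ∈ s := by simpa [wmv] using hp
        exact ⟨L_WLift_mono (hs2 p hp').1, L_WLift_mono (hs2 p hp').2⟩
  | pos a0 b0 b =>
    intro s t hl hs hW
    obtain ⟨x, g, y, k, s', hst, rfl⟩ := L_WLift_pos hW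
    match s, hl, hs, hst with
    | (x0, g0) :: (y0, h0) :: s, hl, hs, hst =>
      simp only [List.map_cons, Prod.map_apply, List.cons.injEq, Prod.mk.injEq] at hst
      obtain ⟨⟨h1, h2⟩, ⟨h3, h4⟩, h5⟩ := hst
      have hs0 := hs (x0, g0) (by simp)
      have hs1 := hs (y0, h0) (by simp)
      have hs2 : ∀ p ∈ s, Low c p.1 ∧ Low c p.2 := fun p hp => hs p (by simp [hp])
      have hcut := L_WLift_cut_lt c f 1 1
      refine ⟨L_WLift_cut c f 1 1, hcut, fun _ => L_WLift_cut_one c f, ?_, ?_, ?_, ?_⟩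
      · show _ = (Prod.map _ _ (y0, h0)) :: (Prod.map _ _ (y0⁻¹ * x0 * y0, y0⁻¹ * g0)) :: s.map _
        rw [← h5, L_WLift_map hcut s hs2]
        simp only [Prod.map_apply, map_mul, map_inv]
        rw [hs0.1 H _ f hcut, hs0.2 H _ f hcut, hs1.1 H _ f hcut, hs1.2 H _ f hcut,
          h1, h2, h3, h4]
      · intro r hr
        exact absurd hr (by simp [wmv])
      · show (b0 :: a0 :: b).length = ((y0, h0) :: (y0⁻¹ * x0 * y0, y0⁻¹ * g0) :: s).length
        simpa using hl
      · intro p hp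
        have hp' : p = (y0, h0) ∨ p = (y0⁻¹ * x0 * y0, y0⁻¹ * g0) ∨ p ∈ s := by
          simpa [wmv] using hp
        rcases hp' with rfl | rfl | hp'
        · exact ⟨L_WLift_mono hs1.1, L_WLift_mono hs1.2⟩
        · exact ⟨L_WLift_mono (L_WLift_mul (L_WLift_mul (L_WLift_inv hs1.1) hs0.1) hs1.1),
            L_WLift_mono (L_WLift_mul (L_WLift_inv hs1.1) hs0.2)⟩
        · exact ⟨L_WLift_mono (hs2 p hp').1, L_WLift_mono (hs2 p hp').2⟩
  | neg a0 b0 b =>
    intro s t hl hs hW
    obtain ⟨x, g, y, k, s', hst, rfl⟩ := L_WLift_neg hW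
    match s, hl, hs, hst with
    | (x0, g0) :: (y0, h0) :: s, hl, hs, hst =>
      simp only [List.map_cons, Prod.map_apply, List.cons.injEq, Prod.mk.injEq] at hst
      obtain ⟨⟨h1, h2⟩, ⟨h3, h4⟩, h5⟩ := hst
      have hs0 := hs (x0, g0) (by simp)
      have hs1 := hs (y0, h0) (by simp)
      have hs2 : ∀ p ∈ s, Low c p.1 ∧ Low c p.2 := fun p hp => hs p (by simp [hp])
      have hcut := L_WLift_cut_lt c f 1 1
      refine ⟨L_WLift_cut c f 1 1, hcut, fun _ => L_WLift_cut_one c f, ?_, ?_, ?_, ?_⟩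
      · show _ = (Prod.map _ _ (x0 * y0 * x0⁻¹, x0 * h0)) :: (Prod.map _ _ (x0, g0)) :: s.map _
        rw [← h5, L_WLift_map hcut s hs2]
        simp only [Prod.map_apply, map_mul, map_inv]
        rw [hs0.1 H _ f hcut, hs0.2 H _ f hcut, hs1.1 H _ f hcut, hs1.2 H _ f hcut,
          h1, h2, h3, h4]
      · intro r hr
        exact absurd hr (by simp [wmv])
      · show (b0 :: a0 :: b).length = ((x0 * y0 * x0⁻¹, x0 * h0) :: (x0, g0) :: s).length
        simpa using hl
      · intro p hp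
        have hp' : p = (x0 * y0 * x0⁻¹, x0 * h0) ∨ p = (x0, g0) ∨ p ∈ s := by
          simpa [wmv] using hp
        rcases hp' with rfl | rfl | hp'
        · exact ⟨L_WLift_mono (L_WLift_mul (L_WLift_mul hs0.1 hs1.1) (L_WLift_inv hs0.1)),
            L_WLift_mono (L_WLift_mul hs0.1 hs1.2)⟩
        · exact ⟨L_WLift_mono hs0.1, L_WLift_mono hs0.2⟩
        · exact ⟨L_WLift_mono (hs2 p hp').1, L_WLift_mono (hs2 p hp').2⟩
  | @sh b0 k i bb bb' e0 hO ih =>
    intro s t hl hs hW
    obtain ⟨a1, s1, t1, hst, rfl, hW1⟩ := L_WLift_sh hW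
    match s, hl, hs, hst with
    | a :: s, hl, hs, hst =>
      simp only [List.map_cons, List.cons.injEq] at hst
      obtain ⟨h1, h2⟩ := hst
      have hs0 := hs a (by simp)
      have hs2 : ∀ p ∈ s, Low c p.1 ∧ Low c p.2 := fun p hp => hs p (by simp [hp])
      rw [← h2] at hW1
      obtain ⟨f1, hf1, hf2, hf3, hf4, hf5, hf6⟩ := ih s t1 (by simpa using hl) hs2 hW1
      refine ⟨f1, hf1, hf2, ?_, ?_, ?_, ?_⟩
      · show _ = (wmv c k (i + 1) (a :: s)).1.map _
        rw [L_WLift_wmv, List.map_cons, ← hf3, ← h1]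
        congr 1
        exact Prod.ext (hs0.1 H f f1 (fun i hi b => (hf1 i hi b).symm))
          (hs0.2 H f f1 (fun i hi b => (hf1 i hi b).symm))
      · show ∀ r ∈ (wmv c k (i + 1) (a :: s)).2, _
        rw [L_WLift_wmv]
        exact hf4
      · show _ = (wmv c k (i + 1) (a :: s)).1.length
        rw [L_WLift_wmv]
        simpa using hf5
      · show ∀ p ∈ (wmv c k (i + 1) (a :: s)).1, _
        rw [L_WLift_wmv]
        intro p hp
        rcases List.mem_cons.1 hp with rfl | hp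
        · exact ⟨L_WLift_mono hs0.1, L_WLift_mono hs0.2⟩
        · exact hf6 p hp

theorem prf_WLift : WLift := by
  intro H _ w
  induction w with
  | nil =>
    intro c s b e f hO hl hs hW
    refine ⟨L_WLift_cut c f 1 1, L_WLift_cut_lt c f 1 1, ?_, ?_⟩
    · intro j b _
      simp [L_WLift_cut]
    · intro r hr
      exact absurd hr (by simp [wrel])
  | cons m w ih =>
    intro c s b e f hO hl hs hW
    cases hO with
    | cons hO1 hO2 =>
      cases hW with
      | cons hW1 hW2 =>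
        obtain ⟨f1, hf1, hf2, hf3, hf4, hf5, hf6⟩ := L_WLift_step c f hO1 s _ hl hs hW1
        rw [hf3] at hW2
        obtain ⟨f', h1, h2, h3⟩ := ih (c + 1) _ _ _ f1 hO2 hf5 hf6 hW2
        refine ⟨f', ?_, ?_, ?_⟩
        · intro i hi b
          rw [h1 i (by omega) b, hf1 i hi b]
        · intro j b hj
          rcases j with _ | j
          · have hm : m.1 ≠ .cup := by
              intro hm
              apply hj m.2
              simp [← hm]
            rw [Nat.add_zero, h1 c (by omega) b, hf2 hm b]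
          · have := h2 j b (fun i => by simpa using hj i)
            rw [show c + (j + 1) = c + 1 + j by omega]
            exact this
        · intro r hr
          rw [wrel, List.mem_append] at hr
          rcases hr with hr | hr
          · obtain ⟨hlow, hr1⟩ := hf4 r hr
            rw [hlow H f' f1 h1, hr1]
          · exact h3 r hr

end AJM

end

section

/-!
# MP_d3fa71_gt, project Mut, block D: homomorphisms map labels to labels
-/

set_option autoImplicit false

namespace AJM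

theorem L_WMap_step {H H' : Type} [Group H] [Group H'] (φ : H →* H') {m : Mv}
    {s s' : List (H × H)} (h : WStep m s s') :
    WStep m (s.map (Prod.map φ φ)) (s'.map (Prod.map φ φ)) := by
  induction h with
  | cup x g s =>
    simp only [List.map_cons, Prod.map_apply, map_inv]
    exact WStep.cup _ _ _
  | cap x g s =>
    simp only [List.map_cons, Prod.map_apply, map_inv]
    exact WStep.cap _ _ _
  | pos x g y h s =>
    simp only [List.map_cons, Prod.map_apply, map_inv, map_mul]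
    exact WStep.pos _ _ _ _ _
  | neg x g y h s =>
    simp only [List.map_cons, Prod.map_apply, map_inv, map_mul]
    exact WStep.neg _ _ _ _ _
  | sh a _ ih =>
    simp only [List.map_cons]
    exact WStep.sh _ ih

theorem prf_WMap : WMap := by
  intro H H' _ _ φ w s s' h
  induction h with
  | nil s => exact WPath.nil _
  | cons h1 _ ih => exact WPath.cons (L_WMap_step φ h1) ih

end AJM

end

section

set_option autoImplicit false

/-!
# MP_d3fa71_gt, project Mut, block D: right multiplication of the transports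
-/

namespace AJM

theorem L_WScale_step {H : Type} [Group H] (z : ℕ → H) {m : Mv} {s s₁ : List (H × H)}
    (hW : WStep m s s₁) : ∀ c c₁ L : List ℕ, CStep m c c₁ L → c.length = s.length →
    WStep m (List.zipWith (fun a n => (a.1, a.2 * z n)) s c)
      (List.zipWith (fun a n => (a.1, a.2 * z n)) s₁ c₁) ∧ c₁.length = s₁.length := by
  induction hW with
  | cup x g s =>
    intro c c₁ L hC hl
    cases hC with
    | cup a c => exact ⟨WStep.cup x (g * z a) _, by simp [hl]⟩
  | cap x g s =>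
    intro c c₁ L hC hl
    cases hC with
    | cap a c => exact ⟨WStep.cap x (g * z a) _, by simpa using hl⟩
  | pos x g y h s =>
    intro c c₁ L hC hl
    cases hC with
    | pos a b c =>
      refine ⟨?_, by simpa using hl⟩
      have h1 := WStep.pos x (g * z a) y (h * z b)
        (List.zipWith (fun a n => (a.1, a.2 * z n)) s c)
      rw [← mul_assoc y⁻¹ g (z a)] at h1
      exact h1
  | neg x g y h s =>
    intro c c₁ L hC hl
    cases hC with
    | neg a b c =>
      refine ⟨?_, by simpa using hl⟩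
      have h1 := WStep.neg x (g * z a) y (h * z b)
        (List.zipWith (fun a n => (a.1, a.2 * z n)) s c)
      rw [← mul_assoc x h (z b)] at h1
      exact h1
  | sh a _ ih =>
    intro c c₁ L hC hl
    cases hC with
    | sh x hC' =>
      obtain ⟨h1, h2⟩ := ih _ _ _ hC' (by simpa using hl)
      exact ⟨WStep.sh _ h1, by simp [h2]⟩

theorem prf_WScale : WScale := by
  intro H _ z w s s' c c' L hW
  induction hW generalizing c c' L with
  | nil s =>
    intro hC _
    cases hC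
    exact WPath.nil _
  | cons hm _ ih =>
    intro hC hl
    cases hC with
    | cons hc hC' =>
      obtain ⟨h1, h2⟩ := L_WScale_step z hm _ _ _ hc hl
      exact WPath.cons h1 (ih _ _ _ hC' h2)

end AJM

end

section

/-!
# MP_d3fa71_gt, project Mut, block B, item WidAppend: widths of appended words
-/

set_option autoImplicit false

namespace AJM

theorem prf_WidAppend : WidAppend := by
  intro w₁ w₂
  induction w₁ with
  | nil =>
    intro l
    simp [wid]
  | cons m w ih =>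
    intro l
    rw [List.cons_append, wid, wid, Option.bind_assoc]
    congr 1
    funext l'
    exact ih l'

end AJM

end

section

/-! Item WidSh: widths of shifted words. -/

set_option autoImplicit false

namespace AJM

theorem L_WidSh_mvw (k : Kd) (i c l l' : ℕ) (h : mvw (k, i) l = some l') :
    mvw (k, i + c) (l + c) = some (l' + c) := by
  cases k <;> simp only [mvw] at h ⊢ <;> split_ifs at h ⊢ <;>
    simp only [Option.some.injEq, reduceCtorEq] at h ⊢ <;> omega

theorem prf_WidSh : WidSh := by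
  intro w c
  induction w with
  | nil =>
    intro l l' h
    simp only [wid, Option.some.injEq] at h
    subst h
    rfl
  | cons m w ih =>
    intro l l' h
    simp only [wid] at h
    rw [Option.bind_eq_some_iff] at h
    obtain ⟨l1, h1, h2⟩ := h
    obtain ⟨k, i⟩ := m
    have h3 := L_WidSh_mvw k i c l l1 h1
    have h4 := ih l1 l' h2
    show (mvw (k, i + c) (l + c)).bind (wid (sh c w)) = some (l' + c)
    rw [h3]
    exact h4

end AJM

end

section

/-!
# MP_d3fa71_gt, project Mut: widths of the two-strand words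
-/

namespace AJM

theorem L_WidTwo_mvw (m : Mv) (l l' c : ℕ) (h : mvw m l = some l') :
    mvw m (l + c) = some (l' + c) := by
  obtain ⟨k, i⟩ := m
  cases k <;> simp only [mvw] at h ⊢ <;> split_ifs at h with h1
  · rw [if_pos (by omega)]
    injection h with h2
    congr 1
    omega
  · rw [if_pos (by omega)]
    injection h with h2
    congr 1
    omega
  · rw [if_pos (by omega)]
    injection h with h2
    congr 1
    omega
  · rw [if_pos (by omega)]
    injection h with h2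
    congr 1
    omega

theorem L_WidTwo_add (w : List Mv) : ∀ (l l' c : ℕ), wid w l = some l' →
    wid w (l + c) = some (l' + c) := by
  induction w with
  | nil =>
    intro l l' c h
    simp only [wid] at h ⊢
    injection h with h2
    rw [h2]
  | cons m w ih =>
    intro l l' c h
    simp only [wid] at h ⊢
    rcases hm : mvw m l with _ | l1
    · rw [hm] at h
      simp at h
    · rw [hm] at h
      rw [L_WidTwo_mvw m l l1 c hm]
      exact ih l1 l' c h

theorem L_WidTwo_rep (k : Kd) (hk : mvw (k, 0) 2 = some 2) (n : ℕ) :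
    wid (List.replicate n (k, 0)) 2 = some 2 := by
  induction n with
  | zero => rfl
  | succ n ih =>
    rw [List.replicate_succ]
    simp only [wid, hk]
    exact ih

theorem prf_WidTwo (hWidAppend : WidAppend) (hWidSh : WidSh) : WidTwo := by
  have h1 : ∀ n : ℤ, wid (tws n) 2 = some 2 := by
    intro n
    unfold tws
    split_ifs
    · exact L_WidTwo_rep .pos rfl _
    · exact L_WidTwo_rep .neg rfl _
  have h2 : ∀ w, wid w 2 = some 2 → wid (rot w) 2 = some 2 ∧ wid (rrt w) 2 = some 2 := by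
    intro w hw
    have h3 : wid w 3 = some 3 := L_WidTwo_add w 2 2 1 hw
    have h4 : wid (sh 1 w) 4 = some 4 := hWidSh w 1 3 3 h3
    constructor
    · show wid (((.cup, 2) :: sh 1 w) ++ [(.cap, 0)]) 2 = some 2
      rw [hWidAppend]
      have h5 : wid ((.cup, 2) :: sh 1 w) 2 = some 4 := h4
      rw [h5]
      rfl
    · show wid (((.cup, 0) :: sh 1 w) ++ [(.cap, 2)]) 2 = some 2
      rw [hWidAppend]
      have h5 : wid ((.cup, 0) :: sh 1 w) 2 = some 4 := h4
      rw [h5]
      rfl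
  have h3 : ∀ w w', wid w 2 = some 2 → wid w' 2 = some 2 → wid (w ++ w') 2 = some 2 := by
    intro w w' hw hw'
    rw [hWidAppend, hw]
    exact hw'
  refine ⟨h1, h2, h3, fun r => (h2 _ (h1 _)).1, fun j' j n => ?_⟩
  unfold Vg
  exact (h2 _ (h3 _ _ (h3 _ _ (h2 _ (h1 _)).1 (h1 _)) (h2 _ (h1 _)).1)).1

end AJM

end

section

/-!
# MP_d3fa71_gt, project Mut: labels of a knot diagram give transports
-/

namespace AJM

theorem L_WtoT_step {m : Mv} {s s' : List Bool} {e : ℤ} (h : OStep m s s' e) :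
    OStep m (s.map not) (s'.map not) e := by
  induction h with
  | cup b s =>
    have h := OStep.cup (!b) (s.map not)
    simpa using h
  | cap b s =>
    have h := OStep.cap (!b) (s.map not)
    simpa using h
  | pos a b s =>
    have h := OStep.pos (!a) (!b) (s.map not)
    have h2 : ((!a) = (!b)) = (a = b) := by cases a <;> cases b <;> simp
    simp only [h2] at h
    simpa using h
  | neg a b s =>
    have h := OStep.neg (!a) (!b) (s.map not)
    have h2 : ((!a) = (!b)) = (a = b) := by cases a <;> cases b <;> simp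
    simp only [h2] at h
    simpa using h
  | sh x _ ih =>
    simp only [List.map_cons]
    exact OStep.sh _ ih

theorem L_WtoT_path {w : List Mv} {s s' : List Bool} {e : ℤ} (h : OPath w s s' e) :
    OPath w (s.map not) (s'.map not) e := by
  induction h with
  | nil s => exact OPath.nil _
  | cons h1 _ ih => exact OPath.cons (L_WtoT_step h1) ih

theorem L_WtoT_or {w : List Mv} {e : ℤ} (h : OPath ((.cup, 0) :: w) [] [] e) :
    ∃ e', OPath w [true, false] [] e' := by
  cases h with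
  | cons h1 h2 =>
    cases h1 with
    | cup b _ =>
      cases b with
      | true => exact ⟨_, h2⟩
      | false => exact ⟨_, L_WtoT_path h2⟩

theorem prf_WtoT (hXofW : XofW) (hXtoC : XtoC) (hCEven : CEven) (hXtoT : XtoT) : WtoT := by
  classical
  intro H _ w e μ ν hK hW
  obtain ⟨⟨-, hOne⟩, hWr⟩ := hK
  obtain ⟨e', hO⟩ := L_WtoT_or hWr
  obtain ⟨-, L, hX⟩ := hXofW H w [true, false] [] [(μ, 1), (μ⁻¹, ν)] [] e' hW hO rfl
  have hX' : XPath w [(true, μ, 1), (false, μ⁻¹, ν)] [] L := hX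
  obtain ⟨φ, hφ⟩ : ∃ φ : H → ℕ, ∀ x, φ x = if x = μ then 0 else 1 := ⟨_, fun _ => rfl⟩
  have hφ0 : ∀ x, φ x = 0 → x = μ := by
    intro x hx
    rw [hφ] at hx
    split_ifs at hx with h
    exact h
  have hC := hXtoC H φ w _ _ L hX'
  have hC' : CPath w [φ (cls true μ 1), φ (cls false μ⁻¹ ν)] [] (L.map φ) := hC
  have c1 : cls true μ (1 : H) = μ := by simp [cls]
  have hμ : φ μ = 0 := by simp [hφ]
  rw [c1, hμ] at hC'
  have hev := hCEven w _ _ _ 0 hC'
  have h2 : φ (cls false μ⁻¹ ν) = 0 := by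
    by_contra hne
    rw [List.count_nil, add_zero, List.count_cons_self, List.count_cons_of_ne hne,
      List.count_nil] at hev
    exact absurd hev (by decide)
  have c2 : cls false μ⁻¹ ν = μ := hφ0 _ h2
  rw [h2] at hC'
  obtain ⟨a, ha⟩ := hOne _ (CPath.cons (CStep.cup 0 []) hC')
  have ha0 : 0 = a := ha 0 (by simp)
  have hL : ∀ x ∈ L, x = μ := by
    intro x hx
    apply hφ0
    rw [ha0]
    apply ha
    simp only [List.singleton_append, List.mem_cons, List.mem_map]
    exact Or.inr ⟨x, hx, rfl⟩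
  constructor
  · have h3 : ν⁻¹ * μ * ν = μ := by
      simpa [cls] using c2
    calc μ * ν = ν * (ν⁻¹ * μ * ν) := by group
      _ = ν * μ := by rw [h3]
  · have hT := hXtoT H μ w _ _ L hX' hL (by
      intro a ha
      simp only [List.mem_cons, List.not_mem_nil, or_false] at ha
      rcases ha with rfl | rfl
      · exact c1
      · exact c2)
    exact hT

end AJM

end

section

/-!
# MP_d3fa71_gt, project Mut: item XofW
-/

namespace AJM

theorem L_XofW_step {H : Type} [Group H] {m : Mv} {s s1 : List (H × H)} (hW : WStep m s s1) :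
    ∀ (b b1 : List Bool) (e : ℤ), OStep m b b1 e → b.length = s.length →
      b1.length = s1.length ∧ ∃ L, XStep m (List.zip b s) (List.zip b1 s1) L := by
  induction hW with
  | cup x g s =>
    intro b b1 e hO hl
    cases hO with
    | cup c b =>
      exact ⟨by simp [hl], [cls c x g], XStep.cup c x g (List.zip b s)⟩
  | cap x g s =>
    intro b b1 e hO hl
    cases hO with
    | cap c b =>
      exact ⟨by simpa using hl, [], XStep.cap c x g (List.zip b1 s)⟩
  | pos x g y h s =>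
    intro b b1 e hO hl
    cases hO with
    | pos c d b =>
      exact ⟨by simpa using hl, [], XStep.pos c d x g y h (List.zip b s)⟩
  | neg x g y h s =>
    intro b b1 e hO hl
    cases hO with
    | neg c d b =>
      exact ⟨by simpa using hl, [], XStep.neg c d x g y h (List.zip b s)⟩
  | sh a h ih =>
    intro b b1 e hO hl
    cases hO with
    | sh x hO' =>
      obtain ⟨h1, L, h2⟩ := ih _ _ _ hO' (by simpa using hl)
      exact ⟨by simp [h1], L, XStep.sh (x, a) h2⟩

theorem prf_XofW : XofW := by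
  intro H _ w
  induction w with
  | nil =>
    intro b b' s s' e hW hO hl
    cases hW
    cases hO
    exact ⟨hl, [], XPath.nil _⟩
  | cons m w ih =>
    intro b b' s s' e hW hO hl
    cases hW with
    | cons hW1 hW2 =>
      cases hO with
      | cons hO1 hO2 =>
        obtain ⟨h1, L, h2⟩ := L_XofW_step hW1 _ _ _ hO1 hl
        obtain ⟨h3, L', h4⟩ := ih _ _ _ _ _ hW2 hO2 h1
        exact ⟨h3, L ++ L', XPath.cons h2 h4⟩

end AJM

end

section

/-!
# MP_d3fa71_gt, project Mut: `XtoC`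
-/

namespace AJM

lemma L_XtoC_cup {H : Type} [Group H] (b : Bool) (x g : H) :
    cls (!b) x⁻¹ g = cls b x g := by
  cases b <;> simp [cls]

lemma L_XtoC_pos {H : Type} [Group H] (b : Bool) (x g y : H) :
    cls b (y⁻¹ * x * y) (y⁻¹ * g) = cls b x g := by
  cases b <;> simp [cls, mul_assoc]

lemma L_XtoC_neg {H : Type} [Group H] (c : Bool) (x y h : H) :
    cls c (x * y * x⁻¹) (x * h) = cls c y h := by
  cases c <;> simp [cls, mul_assoc]

lemma L_XtoC_step {H : Type} [Group H] (φ : H → ℕ) (m : Mv) (s s' : List (Bool × H × H))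
    (L : List H) (h : XStep m s s' L) :
    CStep m (s.map fun a => φ (cls a.1 a.2.1 a.2.2)) (s'.map fun a => φ (cls a.1 a.2.1 a.2.2))
      (L.map φ) := by
  induction h with
  | cup b x g s =>
    simp only [List.map_cons, List.map_nil, L_XtoC_cup]
    exact CStep.cup _ _
  | cap b x g s =>
    simp only [List.map_cons, List.map_nil, L_XtoC_cup]
    exact CStep.cap _ _
  | pos b c x g y h s =>
    simp only [List.map_cons, List.map_nil, L_XtoC_pos]
    exact CStep.pos _ _ _
  | neg b c x g y h s =>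
    simp only [List.map_cons, List.map_nil, L_XtoC_neg]
    exact CStep.neg _ _ _
  | sh a _ ih =>
    simp only [List.map_cons]
    exact CStep.sh _ ih

theorem prf_XtoC : XtoC := by
  intro H _ φ w s s' L h
  induction h with
  | nil s => exact CPath.nil _
  | cons h1 _ ih =>
    rw [List.map_append]
    exact CPath.cons (L_XtoC_step φ _ _ _ _ h1) ih

end AJM

end

section

set_option autoImplicit false

/-!
# MP_d3fa71_gt, project Mut, block D: forgetting the Wirtinger generators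
-/

namespace AJM

theorem L_XtoT_mr {H : Type} [Group H] (μ : H) (c : Bool) (y h : H) (hc : cls c y h = μ) :
    mr μ c h = y := by
  cases c with
  | true =>
    have h1 : h⁻¹ * y * h = μ := hc
    change h * μ * h⁻¹ = y
    rw [← h1]
    group
  | false =>
    have h1 : h⁻¹ * y⁻¹ * h = μ := hc
    change h * μ⁻¹ * h⁻¹ = y
    rw [← h1]
    group

theorem L_XtoT_not {H : Type} [Group H] (b : Bool) (x g : H) : cls (!b) x⁻¹ g = cls b x g := by
  cases b with
  | true =>
    change g⁻¹ * (x⁻¹)⁻¹ * g = g⁻¹ * x * g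
    rw [inv_inv]
  | false => rfl

theorem L_XtoT_conj {H : Type} [Group H] (b : Bool) (x g y : H) :
    cls b (y * x * y⁻¹) (y * g) = cls b x g := by
  cases b with
  | true =>
    change (y * g)⁻¹ * (y * x * y⁻¹) * (y * g) = g⁻¹ * x * g
    group
  | false =>
    change (y * g)⁻¹ * (y * x * y⁻¹)⁻¹ * (y * g) = g⁻¹ * x⁻¹ * g
    group

theorem L_XtoT_conj' {H : Type} [Group H] (b : Bool) (x g y : H) :
    cls b (y⁻¹ * x * y) (y⁻¹ * g) = cls b x g := by
  have h := L_XtoT_conj b x g y⁻¹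
  rwa [inv_inv] at h

theorem L_XtoT_step {H : Type} [Group H] (μ : H) {m : Mv} {s s₁ : List (Bool × H × H)}
    {L : List H} (hX : XStep m s s₁ L) : (∀ x ∈ L, x = μ) →
    (∀ a ∈ s, cls a.1 a.2.1 a.2.2 = μ) →
    TStep μ m (s.map fun a => (a.1, a.2.2)) (s₁.map fun a => (a.1, a.2.2)) ∧
      ∀ a ∈ s₁, cls a.1 a.2.1 a.2.2 = μ := by
  induction hX with
  | cup b x g s =>
    intro hL hs
    have h0 : cls b x g = μ := hL _ (List.mem_singleton.2 rfl)
    refine ⟨TStep.cup b g _, ?_⟩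
    intro a ha
    rcases List.mem_cons.1 ha with rfl | ha
    · exact h0
    · rcases List.mem_cons.1 ha with rfl | ha
      · exact (L_XtoT_not b x g).trans h0
      · exact hs a ha
  | cap b x g s =>
    intro _ hs
    refine ⟨TStep.cap b g _, fun a ha => hs a ?_⟩
    exact List.mem_cons_of_mem _ (List.mem_cons_of_mem _ ha)
  | pos b c x g y h s =>
    intro _ hs
    have h1 : cls b x g = μ := hs (b, x, g) List.mem_cons_self
    have h2 : cls c y h = μ := hs (c, y, h) (List.mem_cons_of_mem _ List.mem_cons_self)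
    refine ⟨?_, ?_⟩
    · have h3 := TStep.pos (μ := μ) b c g h (s.map fun a => (a.1, a.2.2))
      rw [L_XtoT_mr μ c y h h2] at h3
      exact h3
    · intro a ha
      rcases List.mem_cons.1 ha with rfl | ha
      · exact h2
      · rcases List.mem_cons.1 ha with rfl | ha
        · exact (L_XtoT_conj' b x g y).trans h1
        · exact hs a (List.mem_cons_of_mem _ (List.mem_cons_of_mem _ ha))
  | neg b c x g y h s =>
    intro _ hs
    have h1 : cls b x g = μ := hs (b, x, g) List.mem_cons_self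
    have h2 : cls c y h = μ := hs (c, y, h) (List.mem_cons_of_mem _ List.mem_cons_self)
    refine ⟨?_, ?_⟩
    · have h3 := TStep.neg (μ := μ) b c g h (s.map fun a => (a.1, a.2.2))
      rw [L_XtoT_mr μ b x g h1] at h3
      exact h3
    · intro a ha
      rcases List.mem_cons.1 ha with rfl | ha
      · exact (L_XtoT_conj c y h x).trans h2
      · rcases List.mem_cons.1 ha with rfl | ha
        · exact h1
        · exact hs a (List.mem_cons_of_mem _ (List.mem_cons_of_mem _ ha))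
  | sh a _ ih =>
    intro hL hs
    obtain ⟨h1, h2⟩ := ih hL fun b hb => hs b (List.mem_cons_of_mem _ hb)
    refine ⟨TStep.sh _ h1, ?_⟩
    intro b hb
    rcases List.mem_cons.1 hb with rfl | hb
    · exact hs _ List.mem_cons_self
    · exact h2 b hb

theorem prf_XtoT : XtoT := by
  intro H _ μ w s s' L hX
  induction hX with
  | nil s =>
    intro _ _
    exact TPath.nil _
  | cons hm _ ih =>
    intro hL hs
    obtain ⟨h1, h2⟩ := L_XtoT_step μ hm (fun x hx => hL x (List.mem_append_left _ hx)) hs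
    exact TPath.cons h1 (ih (fun x hx => hL x (List.mem_append_right _ hx)) h2)

end AJM

end

section

/-!
# MP_d3fa71_gt, project Mut, block Q: the state sums of `K` and `K'` agree; writhes; components
-/

open Matrix
open scoped Kronecker

namespace AJM

/-! ## The quantum group on `V_n` and on `V_n ⊗ V_n` -/

/-- `s - s⁻¹`. -/
noncomputable def sd : RatFunc ℚ := tq ^ (2 : ℤ) - tq ^ (-2 : ℤ)

/-- `K`. -/
noncomputable def Km (n : ℕ) : Matrix (Fin n) (Fin n) (RatFunc ℚ) :=
  Matrix.diagonal fun j => tq ^ (2 * wt n j)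

/-- `K⁻¹`. -/
noncomputable def Ki (n : ℕ) : Matrix (Fin n) (Fin n) (RatFunc ℚ) :=
  Matrix.diagonal fun j => tq ^ (-(2 * wt n j))

/-- `Δ(E)`. -/
noncomputable def DE (n : ℕ) : Matrix (Fin n × Fin n) (Fin n × Fin n) (RatFunc ℚ) :=
  (1 : Matrix (Fin n) (Fin n) (RatFunc ℚ)) ⊗ₖ Em n + Em n ⊗ₖ Km n

/-- `Δ(F)`. -/
noncomputable def DF (n : ℕ) : Matrix (Fin n × Fin n) (Fin n × Fin n) (RatFunc ℚ) :=
  Ki n ⊗ₖ Fm n + Fm n ⊗ₖ (1 : Matrix (Fin n) (Fin n) (RatFunc ℚ))

/-- `Δ(K)`. -/
noncomputable def DK (n : ℕ) : Matrix (Fin n × Fin n) (Fin n × Fin n) (RatFunc ℚ) :=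
  Km n ⊗ₖ Km n

/-- The diagonal part of the `R`-matrix. -/
noncomputable def Dm (n : ℕ) : Matrix (Fin n × Fin n) (Fin n × Fin n) (RatFunc ℚ) :=
  Matrix.diagonal (fun p => tq ^ (wt n p.1 * wt n p.2))

/-- The coefficients of the unipotent part of the `R`-matrix. -/
noncomputable def ck (k : ℕ) : RatFunc ℚ :=
  tq ^ (k * (k - 1)) * (tq ^ (2 : ℤ) - tq ^ (-2 : ℤ)) ^ k / ∏ i ∈ Finset.range k, qi (i + 1)

/-- The unipotent part of the `R`-matrix. -/
noncomputable def Qm (n : ℕ) : Matrix (Fin n × Fin n) (Fin n × Fin n) (RatFunc ℚ) :=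
  ∑ k ∈ Finset.range n, ck k • ((Em n ^ k) ⊗ₖ (Fm n ^ k))

def QIne : Prop := tq ≠ 0 ∧ sd ≠ 0 ∧ (∀ m : ℕ, qi (m + 1) ≠ 0) ∧ (∀ e : ℤ, tq ^ e = 1 → e = 0)

def RelK : Prop :=
  ∀ n, Km n * Ki n = 1 ∧ Ki n * Km n = 1 ∧
    Km n * Em n = tq ^ (4 : ℤ) • (Em n * Km n) ∧ Ki n * Em n = tq ^ (-4 : ℤ) • (Em n * Ki n) ∧
    Km n * Fm n = tq ^ (-4 : ℤ) • (Fm n * Km n) ∧ Ki n * Fm n = tq ^ (4 : ℤ) • (Fm n * Ki n)

def RelEF : Prop := ∀ n, Em n * Fm n - Fm n * Em n = sd⁻¹ • (Km n - Ki n)

def RelEn : Prop := ∀ n, Em n ^ n = 0 ∧ Fm n ^ n = 0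

def RelEFk : Prop :=
  ∀ n (k : ℕ), Em n * Fm n ^ (k + 1) - Fm n ^ (k + 1) * Em n =
    (qi (k + 1) / sd) • (Fm n ^ k * (tq ^ (-(2 * (k : ℤ))) • Km n - tq ^ (2 * (k : ℤ)) • Ki n))

def RelEkF : Prop :=
  ∀ n (k : ℕ), Em n ^ (k + 1) * Fm n - Fm n * Em n ^ (k + 1) =
    (qi (k + 1) / sd) • (Em n ^ k * (tq ^ (2 * (k : ℤ)) • Km n - tq ^ (-(2 * (k : ℤ))) • Ki n))

/-- Conjugation with the diagonal part. -/
def DRel : Prop :=
  ∀ n, (∀ X : Matrix (Fin n) (Fin n) (RatFunc ℚ), X * Km n = Km n * X →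
      X * Ki n = Ki n * X →
      Dm n * (X ⊗ₖ Em n) = ((X * Km n) ⊗ₖ Em n) * Dm n ∧
      Dm n * (X ⊗ₖ Fm n) = ((X * Ki n) ⊗ₖ Fm n) * Dm n ∧
      Dm n * (Em n ⊗ₖ X) = (Em n ⊗ₖ (X * Km n)) * Dm n ∧
      Dm n * (Fm n ⊗ₖ X) = (Fm n ⊗ₖ (X * Ki n)) * Dm n)

/-- `ck (k + 1) [k + 1] = ck k (s - s⁻¹) s ^ k`. -/
def CkRec : Prop :=
  ck 0 = 1 ∧ ∀ k : ℕ, ck (k + 1) * qi (k + 1) = ck k * sd * tq ^ (2 * (k : ℤ))

def QE : Prop :=
  ∀ n, Qm n * DE n = ((1 : Matrix (Fin n) (Fin n) (RatFunc ℚ)) ⊗ₖ Em n + Em n ⊗ₖ Ki n) * Qm n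

def QF : Prop :=
  ∀ n, Qm n * DF n = (Fm n ⊗ₖ (1 : Matrix (Fin n) (Fin n) (RatFunc ℚ)) + Km n ⊗ₖ Fm n) * Qm n

/-- `R Δ = Δ^{op} R`. -/
def RInt : Prop :=
  ∀ n, Rm n * DE n =
      (Em n ⊗ₖ (1 : Matrix (Fin n) (Fin n) (RatFunc ℚ)) + Km n ⊗ₖ Em n) * Rm n ∧
    Rm n * DF n =
      (Fm n ⊗ₖ Ki n + (1 : Matrix (Fin n) (Fin n) (RatFunc ℚ)) ⊗ₖ Fm n) * Rm n ∧
    Rm n * DK n = DK n * Rm n

/-- `A` commutes with the quantum group. -/
def Cm (n : ℕ) (A : Matrix (Fin n × Fin n) (Fin n × Fin n) (RatFunc ℚ)) : Prop :=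
  A * DE n = DE n * A ∧ A * DF n = DF n * A ∧ A * DK n = DK n * A

def BInt : Prop := ∀ n, Cm n (Bm n)

/-- The coefficients of the inverse of the unipotent part. -/
noncomputable def bk (k : ℕ) : RatFunc ℚ :=
  (-1) ^ k * tq ^ (-((k : ℤ) * ((k : ℤ) - 1))) * sd ^ k / ∏ i ∈ Finset.range k, qi (i + 1)

/-- The inverse of the unipotent part. -/
noncomputable def Qi (n : ℕ) : Matrix (Fin n × Fin n) (Fin n × Fin n) (RatFunc ℚ) :=
  ∑ k ∈ Finset.range n, bk k • ((Em n ^ k) ⊗ₖ (Fm n ^ k))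

/-- The inverse of the diagonal part. -/
noncomputable def Di (n : ℕ) : Matrix (Fin n × Fin n) (Fin n × Fin n) (RatFunc ℚ) :=
  Matrix.diagonal (fun p => tq ^ (-(wt n p.1 * wt n p.2)))

def AbSum : Prop := ∀ m : ℕ, 1 ≤ m → ∑ i ∈ Finset.range (m + 1), ck i * bk (m - i) = 0

def QInv : Prop := ∀ n, Qm n * Qi n = 1 ∧ Dm n * Di n = 1

/-- The explicit inverse of the braiding. -/
def BInvEx : Prop :=
  ∀ n, (Bm n)⁻¹ = (Qi n * Di n).submatrix id Prod.swap ∧ Bm n * (Bm n)⁻¹ = 1 ∧
    (Bm n)⁻¹ * Bm n = 1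

def BiInt : Prop := ∀ n, Cm n (Bm n)⁻¹

/-- The invariant vector. -/
noncomputable def cupv (n : ℕ) : Fin n × Fin n → RatFunc ℚ :=
  fun p => if p.2 = p.1.rev then cc n p.1 else 0

/-- The invariant form. -/
noncomputable def capv (n : ℕ) : Fin n × Fin n → RatFunc ℚ :=
  fun p => if p.2 = p.1.rev then (cc n p.2)⁻¹ else 0

def CupInt : Prop :=
  ∀ n, DE n *ᵥ cupv n = 0 ∧ DF n *ᵥ cupv n = 0 ∧ DK n *ᵥ cupv n = cupv n

def CapInt : Prop :=
  ∀ n, capv n ᵥ* DE n = 0 ∧ capv n ᵥ* DF n = 0 ∧ capv n ᵥ* DK n = capv n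

/-! ## The commutant of `V_n ⊗ V_n` is commutative -/

/-- The basis vector `e_i ⊗ e_j` (`0` out of range). -/
noncomputable def eb (n i j : ℕ) : Fin n × Fin n → RatFunc ℚ :=
  fun p => if (p.1 : ℕ) = i ∧ (p.2 : ℕ) = j then 1 else 0

/-- The action of `E` and `F` on the basis. -/
def EFeb : Prop :=
  ∀ n i j : ℕ, i < n → j < n →
    (DE n *ᵥ eb n i (j + 1) = (if j + 1 < n then qi (j + 1) * qi (n - (j + 1)) else 0) • eb n i j +
      (if j + 1 < n ∧ 0 < i then
        qi i * qi (n - i) * tq ^ (2 * ((n : ℤ) - 1 - 2 * ((j : ℤ) + 1))) else 0) •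
        eb n (i - 1) (j + 1)) ∧
    (DE n *ᵥ eb n i 0 = (if 0 < i then
        qi i * qi (n - i) * tq ^ (2 * ((n : ℤ) - 1)) else 0) • eb n (i - 1) 0) ∧
    DF n *ᵥ eb n i j = tq ^ (-(2 * ((n : ℤ) - 1 - 2 * (i : ℤ)))) • eb n i (j + 1) +
      eb n (i + 1) j

/-- Submodules containing `e_0 ⊗ e_{n-1}` and stable under `E`, `F` are everything. -/
def GenTop : Prop :=
  ∀ (n : ℕ) (S : Submodule (RatFunc ℚ) (Fin n × Fin n → RatFunc ℚ)), 1 ≤ n →
    eb n 0 (n - 1) ∈ S → (∀ v ∈ S, DE n *ᵥ v ∈ S) → (∀ v ∈ S, DF n *ᵥ v ∈ S) → S = ⊤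

/-- Weight zero vectors. -/
def WtZero : Prop :=
  ∀ (n : ℕ) (A : Matrix (Fin n × Fin n) (Fin n × Fin n) (RatFunc ℚ)), 1 ≤ n →
    A * DK n = DK n * A → ∃ c : ℕ → RatFunc ℚ,
      A *ᵥ eb n 0 (n - 1) = ∑ i ∈ Finset.range n, c i • eb n i (n - 1 - i)

/-- `e_i ⊗ e_{n-1-i}` is a polynomial in `F E` applied to `e_0 ⊗ e_{n-1}`. -/
def PolyV : Prop :=
  ∀ (n i : ℕ), i < n → ∃ p : Polynomial (RatFunc ℚ),
    eb n i (n - 1 - i) = (Polynomial.aeval (DF n * DE n) p) *ᵥ eb n 0 (n - 1)

/-- Commuting with the quantum group implies commuting with each other. -/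
def Comm2 : Prop :=
  ∀ (n : ℕ) (A B : Matrix (Fin n × Fin n) (Fin n × Fin n) (RatFunc ℚ)),
    Cm n A → Cm n B → A * B = B * A

/-! ## The quantum group on tensor powers -/

/-- The eigenvalue of `K` on a basis vector. -/
noncomputable def kk (n : ℕ) (s : List (Fin n)) : RatFunc ℚ :=
  (s.map fun x => tq ^ (2 * wt n x)).prod

noncomputable def eL (n : ℕ) : List (Fin n) → TT n
  | [] => 0
  | x :: s => Finsupp.mapDomain (x :: ·) (eL n s) +
      ∑ y : Fin n, Finsupp.single (y :: s) (kk n s * Em n y x)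

noncomputable def fL (n : ℕ) : List (Fin n) → TT n
  | [] => 0
  | x :: s => tq ^ (-(2 * wt n x)) • Finsupp.mapDomain (x :: ·) (fL n s) +
      ∑ y : Fin n, Finsupp.single (y :: s) (Fm n y x)

/-- `E` on all tensor powers. -/
noncomputable def Eo (n : ℕ) : TT n →ₗ[RatFunc ℚ] TT n :=
  Finsupp.linearCombination (RatFunc ℚ) (eL n)

/-- `F` on all tensor powers. -/
noncomputable def Fo (n : ℕ) : TT n →ₗ[RatFunc ℚ] TT n :=
  Finsupp.linearCombination (RatFunc ℚ) (fL n)

/-- `K` on all tensor powers. -/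
noncomputable def Ko (n : ℕ) : TT n →ₗ[RatFunc ℚ] TT n :=
  Finsupp.linearCombination (RatFunc ℚ) fun s => Finsupp.single s (kk n s)

/-- Commuting with `E`, `F`, `K`. -/
def CmO (n : ℕ) (f : TT n →ₗ[RatFunc ℚ] TT n) : Prop :=
  f ∘ₗ Eo n = Eo n ∘ₗ f ∧ f ∘ₗ Fo n = Fo n ∘ₗ f ∧ f ∘ₗ Ko n = Ko n ∘ₗ f

/-- The operator of a matrix on the first two factors. -/
noncomputable def mL (n : ℕ) (A : Matrix (Fin n × Fin n) (Fin n × Fin n) (RatFunc ℚ)) :
    List (Fin n) → TT n
  | a :: b :: s => ∑ p : Fin n × Fin n, Finsupp.single (p.1 :: p.2 :: s) (A p (a, b))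
  | _ => 0

noncomputable def mo (n : ℕ) (A : Matrix (Fin n × Fin n) (Fin n × Fin n) (RatFunc ℚ)) :
    TT n →ₗ[RatFunc ℚ] TT n := Finsupp.linearCombination (RatFunc ℚ) (mL n A)

/-- The action of `E`, `F` on lists with at least two entries. -/
def EoTwo : Prop :=
  ∀ (n : ℕ) (a b : Fin n) (s : List (Fin n)),
    eL n (a :: b :: s) = Finsupp.mapDomain (fun z => a :: b :: z) (eL n s) +
      ∑ p : Fin n × Fin n, Finsupp.single (p.1 :: p.2 :: s) (kk n s * DE n p (a, b)) ∧
    fL n (a :: b :: s) = tq ^ (-(2 * (wt n a + wt n b))) •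
        Finsupp.mapDomain (fun z => a :: b :: z) (fL n s) +
      ∑ p : Fin n × Fin n, Finsupp.single (p.1 :: p.2 :: s) (DF n p (a, b)) ∧
    kk n (a :: b :: s) = tq ^ (2 * (wt n a + wt n b)) * kk n s

def MatInt : Prop :=
  ∀ (n : ℕ) (A : Matrix (Fin n × Fin n) (Fin n × Fin n) (RatFunc ℚ)), Cm n A → CmO n (mo n A)

def CupOp : Prop := ∀ n, CmO n (opm n (.cup, 0))

def CapOp : Prop := ∀ n, CmO n (opm n (.cap, 0))

def CrossOp : Prop := ∀ n, CmO n (opm n (.pos, 0)) ∧ CmO n (opm n (.neg, 0))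

def ShOp : Prop := ∀ (n : ℕ) (k : Kd) (i : ℕ), CmO n (opm n (k, i)) → CmO n (opm n (k, i + 1))

def WordInt : Prop := ∀ (n : ℕ) (w : List Mv), CmO n (opw n w)

def OpwAppend : Prop :=
  ∀ (n : ℕ) (w₁ w₂ : List Mv), opw n (w₁ ++ w₂) = opw n w₂ ∘ₗ opw n w₁

/-- Locality. -/
def OpLoc : Prop :=
  ∀ (n : ℕ) (w : List Mv) (l l' : ℕ), wid w l = some l' → ∀ u : List (Fin n), u.length = l →
    (∀ s, opw n w (Finsupp.single (u ++ s) 1) =
      Finsupp.mapDomain (fun z => z ++ s) (opw n w (Finsupp.single u 1))) ∧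
    ∀ z ∈ (opw n w (Finsupp.single u 1)).support, z.length = l'

/-- The matrix of a word on two strands. -/
def Mat2 : Prop :=
  ∀ (n : ℕ) (w : List Mv), wid w 2 = some 2 →
    ∃ A : Matrix (Fin n × Fin n) (Fin n × Fin n) (RatFunc ℚ), Cm n A ∧
      ∀ (a b : Fin n) (s : List (Fin n)),
        opw n w (Finsupp.single (a :: b :: s) 1) = mo n A (Finsupp.single (a :: b :: s) 1)

/-- The operator of a product of matrices. -/
def MoMul : Prop :=
  ∀ (n : ℕ) (A B : Matrix (Fin n × Fin n) (Fin n × Fin n) (RatFunc ℚ)),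
    mo n A ∘ₗ mo n B = mo n (A * B)

/-- Exchange of two words on two strands. -/
def Exch : Prop :=
  ∀ (n : ℕ) (w₁ w₂ : List Mv), wid w₁ 2 = some 2 → wid w₂ 2 = some 2 →
    ∀ (a b : Fin n) (s : List (Fin n)),
      opw n (w₁ ++ w₂) (Finsupp.single (a :: b :: s) 1) =
        opw n (w₂ ++ w₁) (Finsupp.single (a :: b :: s) 1)

/-- Exchange inside a closure. -/
def ZExch : Prop :=
  ∀ (n : ℕ) (x w₁ w₂ y : List Mv), wid x 2 = some 2 → wid w₁ 2 = some 2 → wid w₂ 2 = some 2 →
    Zs n (Ncl (x ++ w₁ ++ w₂ ++ y)) = Zs n (Ncl (x ++ w₂ ++ w₁ ++ y))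

/-- The blocks are words on two strands. -/
def WidBlocks : Prop :=
  ∀ v : List Mv, wid v 2 = some 2 →
    wid (Pw v) 2 = some 2 ∧ wid (Pr v) 2 = some 2 ∧ wid (Gw v) 2 = some 2 ∧
    ∀ v' v'' : List Mv, wid v' 2 = some 2 → wid v'' 2 = some 2 → wid (Bw v v' v'') 2 = some 2

/-- The state sums agree. -/
def QMut : Prop :=
  ∀ (n k : ℕ) (v : Fin 7 → List Mv), (∀ i, wid (v i) 2 = some 2) →
    Zs n (Kw k v) = Zs n (Kw' k v)

/-! ## Orientations -/

def OPathAppend : Prop :=
  ∀ (w₁ w₂ : List Mv) (s s'' : List Bool) (e : ℤ), OPath (w₁ ++ w₂) s s'' e ↔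
    ∃ (s' : List Bool) (e₁ e₂ : ℤ), OPath w₁ s s' e₁ ∧ OPath w₂ s' s'' e₂ ∧ e = e₁ + e₂

def OPathSh : Prop :=
  ∀ (w : List Mv) (p s s₁ : List Bool) (e : ℤ),
    OPath (sh p.length w) (p ++ s) s₁ e ↔ ∃ s', s₁ = p ++ s' ∧ OPath w s s' e

/-- Reversal of all orientations. -/
def OPathNot : Prop :=
  ∀ (w : List Mv) (s s' : List Bool) (e : ℤ), OPath w s s' e →
    OPath w (s.map (!·)) (s'.map (!·)) e

/-- Type `0`: the strands go through. -/
def O0 (w : List Mv) : Prop :=
  ∃ f : Bool → Bool → ℤ, ∀ (a b : Bool) (s s' : List Bool) (e : ℤ),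
    OPath w (a :: b :: s) s' e ↔ s' = a :: b :: s ∧ e = f a b

/-- Type `X`: the strands cross. -/
def OX (w : List Mv) : Prop :=
  ∃ f : Bool → Bool → ℤ, ∀ (a b : Bool) (s s' : List Bool) (e : ℤ),
    OPath w (a :: b :: s) s' e ↔ s' = b :: a :: s ∧ e = f a b

/-- Type `I`: the two incoming strands are connected, and the two outgoing strands. -/
def OI (w : List Mv) : Prop :=
  ∃ f : Bool → Bool → ℤ, ∀ (a b : Bool) (s s' : List Bool) (e : ℤ),
    OPath w (a :: b :: s) s' e ↔ b = !a ∧ ∃ c, s' = c :: (!c) :: s ∧ e = f a c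

def OTws : Prop := ∀ n : ℤ, O0 (tws (2 * n)) ∧ OX (tws (2 * n + 1))

def OComp : Prop :=
  ∀ w w' : List Mv, (O0 w → O0 w' → O0 (w ++ w')) ∧ (O0 w → OI w' → OI (w ++ w')) ∧
    (OI w → O0 w' → OI (w ++ w')) ∧ (OX w → O0 w' → OX (w ++ w')) ∧ (OX w → OX w' → O0 (w ++ w'))

def ORot : Prop :=
  ∀ w : List Mv, (O0 w → OI (rot w) ∧ OI (rrt w)) ∧ (OI w → O0 (rot w) ∧ O0 (rrt w)) ∧
    (OX w → OX (rot w) ∧ OX (rrt w))

def OVg : Prop := ∀ j' j n, OI (Vg j' j n)

def OBlocks : Prop :=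
  ∀ v v' v'' : List Mv, OI v → OI v' → OI v'' → O0 (Bw v v' v'') ∧ O0 (Pw v) ∧ O0 (Pr v) ∧
    O0 (Gw v) ∧ OI Gr

def OFw : Prop := ∀ (k : ℕ) (v : List Mv), OI v → O0 (Fw k v)

def ONcl : Prop := ∀ w : List Mv, OI w → ∃ e, ∀ e', Wr (Ncl w) e' ↔ e' = e

/-- The writhes exist, are unique and agree. -/
def QWr : Prop :=
  ∀ (k : ℕ) (v : Fin 7 → List Mv), (∀ i, OI (v i)) → ∃ e : ℤ,
    (∀ e', Wr (Kw k v) e' ↔ e' = e) ∧ ∀ e', Wr (Kw' k v) e' ↔ e' = e

/-! ## Components -/

def CPathAppend : Prop :=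
  ∀ (w₁ w₂ : List Mv) (s s'' L : List ℕ), CPath (w₁ ++ w₂) s s'' L ↔
    ∃ (s' L₁ L₂ : List ℕ), CPath w₁ s s' L₁ ∧ CPath w₂ s' s'' L₂ ∧ L = L₁ ++ L₂

def CPathSh : Prop :=
  ∀ (w : List Mv) (p s s₁ L : List ℕ),
    CPath (sh p.length w) (p ++ s) s₁ L ↔ ∃ s', s₁ = p ++ s' ∧ CPath w s s' L

def C0 (w : List Mv) : Prop :=
  ∀ (a b : ℕ) (s s' L : List ℕ), CPath w (a :: b :: s) s' L →
    s' = a :: b :: s ∧ ∀ x ∈ L, x = a ∨ x = b

def CX (w : List Mv) : Prop :=
  ∀ (a b : ℕ) (s s' L : List ℕ), CPath w (a :: b :: s) s' L →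
    s' = b :: a :: s ∧ ∀ x ∈ L, x = a ∨ x = b

def CI (w : List Mv) : Prop :=
  ∀ (a b : ℕ) (s s' L : List ℕ), CPath w (a :: b :: s) s' L →
    b = a ∧ ∃ c, s' = c :: c :: s ∧ ∀ x ∈ L, x = a ∨ x = c

def CTws : Prop := ∀ n : ℤ, C0 (tws (2 * n)) ∧ CX (tws (2 * n + 1))

def CComp : Prop :=
  ∀ w w' : List Mv, (C0 w → C0 w' → C0 (w ++ w')) ∧ (C0 w → CI w' → CI (w ++ w')) ∧
    (CI w → C0 w' → CI (w ++ w')) ∧ (CX w → C0 w' → CX (w ++ w')) ∧ (CX w → CX w' → C0 (w ++ w'))

def CRot : Prop :=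
  ∀ w : List Mv, (C0 w → CI (rot w) ∧ CI (rrt w)) ∧ (CI w → C0 (rot w) ∧ C0 (rrt w)) ∧
    (CX w → CX (rot w) ∧ CX (rrt w))

def CVg : Prop := ∀ j' j n, CI (Vg j' j n)

def CBlocks : Prop :=
  ∀ v v' v'' : List Mv, CI v → CI v' → CI v'' → C0 (Bw v v' v'') ∧ C0 (Pw v) ∧ C0 (Pr v) ∧
    C0 (Gw v) ∧ CI Gr

def CFw : Prop := ∀ (k : ℕ) (v : List Mv), CI v → C0 (Fw k v)

def CNcl : Prop := ∀ w : List Mv, CI w → One (Ncl w)

/-- `K` and `K'` have one component. -/
def QOne : Prop :=
  ∀ (k : ℕ) (v : Fin 7 → List Mv), (∀ i, CI (v i)) → One (Kw k v) ∧ One (Kw' k v)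

/-! ## The final statements of block Q -/

/-- `K` and `K'` are knots with the same writhe and the same coloured Jones function. -/
def QFinal : Prop :=
  ∀ (k : ℕ) (j' j m : Fin 7 → ℕ), ∃ e : ℤ,
    One (Kw k fun i => Vg (j' i) (j i) (m i)) ∧ One (Kw' k fun i => Vg (j' i) (j i) (m i)) ∧
    (∀ e', Wr (Kw k fun i => Vg (j' i) (j i) (m i)) e' ↔ e' = e) ∧
    (∀ e', Wr (Kw' k fun i => Vg (j' i) (j i) (m i)) e' ↔ e' = e) ∧
    Jc (Kw k fun i => Vg (j' i) (j i) (m i)) e = Jc (Kw' k fun i => Vg (j' i) (j i) (m i)) e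

/-- Sanity: the unknot has coloured Jones function `1`. -/
def JUnknot : Prop := ∀ n : ℕ, 1 ≤ n → Jc [(.cup, 0), (.cap, 0)] 0 n = 1

end AJM

end
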