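import Pool.Agent.Work.MP_d3fa71_gt.Mut.Bd.B01
import Pool.Agent.Work.MP_d3fa71_gt.Mut.Main

/-! Bundle of small proof modules (one section per former module). -/

section

open Polynomial

namespace AJH

theorem TamePull_t_ne : (t : K) ≠ 0 := RatFunc.X_ne_zero

theorem TamePull_mono {d N M : ℕ} (h : N ≤ M) : LP d N ≤ LP d M := by
  refine Submodule.span_mono ?_
  rintro f ⟨u, hu, rfl⟩
  refine ⟨u, fun i => (hu i).trans ?_, rfl⟩
  exact_mod_cast h

/-- The sum of the absolute values of the entries. -/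
def TamePull_a {d d' : ℕ} (A : Fin d → Fin d' → ℤ) : ℕ := ∑ i, ∑ j, (A i j).natAbs

theorem TamePull_row {d d' : ℕ} (A : Fin d → Fin d' → ℤ) (i : Fin d) :
    ∑ j, |A i j| ≤ (TamePull_a A : ℤ) := by
  have h : ∑ j, (A i j).natAbs ≤ TamePull_a A :=
    Finset.single_le_sum (f := fun i => ∑ j, (A i j).natAbs) (fun _ _ => Nat.zero_le _)
      (Finset.mem_univ i)
  have h2 : ((∑ j, (A i j).natAbs : ℕ) : ℤ) ≤ (TamePull_a A : ℤ) := by exact_mod_cast h
  rw [Nat.cast_sum] at h2
  simpa only [Int.natCast_natAbs] using h2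

theorem TamePull_col {d d' : ℕ} (A : Fin d → Fin d' → ℤ) (j : Fin d') :
    ∑ i, |A i j| ≤ (TamePull_a A : ℤ) := by
  have h : ∑ i, (A i j).natAbs ≤ TamePull_a A := by
    unfold TamePull_a
    refine Finset.sum_le_sum fun i _ => ?_
    exact Finset.single_le_sum (f := fun j => (A i j).natAbs) (fun _ _ => Nat.zero_le _)
      (Finset.mem_univ j)
  have h2 : ((∑ i, (A i j).natAbs : ℕ) : ℤ) ≤ (TamePull_a A : ℤ) := by exact_mod_cast h
  rw [Nat.cast_sum] at h2
  simpa only [Int.natCast_natAbs] using h2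

theorem TamePull_bound {m : ℕ} (f g : Fin m → ℤ) (N a : ℤ) (hN : 0 ≤ N)
    (hg : ∀ i, |g i| ≤ N) (hf : ∑ i, |f i| ≤ a) : |∑ i, f i * g i| ≤ a * N := by
  calc |∑ i, f i * g i| ≤ ∑ i, |f i * g i| := Finset.abs_sum_le_sum_abs _ _
    _ ≤ ∑ i, |f i| * N := by
        refine Finset.sum_le_sum fun i _ => ?_
        rw [abs_mul]
        exact mul_le_mul_of_nonneg_left (hg i) (abs_nonneg _)
    _ = (∑ i, |f i|) * N := by rw [Finset.sum_mul]
    _ ≤ a * N := mul_le_mul_of_nonneg_right hf hN

/-- Composition with an affine map. -/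
theorem TamePull_comp {d d' : ℕ} (A : Fin d → Fin d' → ℤ) (b : Fin d → ℤ) (N : ℕ)
    (p : (Fin d → ℤ) → K) (hp : p ∈ LP d N) :
    (fun x => p (aff A b x)) ∈ LP d' (TamePull_a A * N) := by
  refine Submodule.span_induction (p := fun p _ => (fun x => p (aff A b x)) ∈
    LP d' (TamePull_a A * N)) ?_ ?_ ?_ ?_ hp
  · rintro _ ⟨u, hu, rfl⟩
    have h1 : (fun x => mono u (aff A b x)) = (t ^ (∑ i, u i * b i) : K) •
        (mono (fun j => ∑ i, A i j * u i) : (Fin d' → ℤ) → K) := by
      funext x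
      rw [Pi.smul_apply, smul_eq_mul]
      unfold mono
      rw [← zpow_add₀ TamePull_t_ne]
      congr 1
      unfold aff
      have h2 : ∑ j, (∑ i, A i j * u i) * x j = ∑ i, u i * ∑ j, A i j * x j := by
        simp only [Finset.sum_mul, Finset.mul_sum]
        rw [Finset.sum_comm]
        refine Finset.sum_congr rfl fun i _ => Finset.sum_congr rfl fun j _ => ?_
        ring
      rw [h2, ← Finset.sum_add_distrib]
      refine Finset.sum_congr rfl fun i _ => ?_
      ring
    rw [h1]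
    refine Submodule.smul_mem _ _ (Submodule.subset_span ⟨_, fun j => ?_, rfl⟩)
    have h3 := TamePull_bound (fun i => A i j) u N (TamePull_a A) (Int.natCast_nonneg N) hu
      (TamePull_col A j)
    push_cast
    exact h3
  · exact (LP d' (TamePull_a A * N)).zero_mem
  · intro f g _ _ hf hg
    exact (LP d' (TamePull_a A * N)).add_mem hf hg
  · intro c f _ hf
    exact (LP d' (TamePull_a A * N)).smul_mem c hf

theorem prf_TamePull : TamePull := by
  intro d d' A b f hf
  obtain ⟨C, hC⟩ := hf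
  refine ⟨TamePull_a A * (C * (2 * TamePull_a A + 1)), fun B => ?_⟩
  obtain ⟨Φ, hΦ⟩ := hC (2 * TamePull_a A * B)
  refine ⟨fun x => Φ (aff A (fun i => b i - TamePull_a A * B) x), fun s hs => ?_⟩
  have hs' : ∀ i, |∑ j, A i j * s j| ≤ (TamePull_a A : ℤ) * B := fun i =>
    TamePull_bound (A i) s B (TamePull_a A) (Int.natCast_nonneg B)
      (fun j => by rw [abs_of_nonneg (hs j).1]; exact (hs j).2) (TamePull_row A i)
  obtain ⟨p, hp, hpx⟩ := hΦ (fun i => ∑ j, A i j * s j + TamePull_a A * B) (fun i => by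
    have h1 := abs_le.1 (hs' i)
    push_cast
    constructor
    · linarith [h1.1]
    · linarith [h1.2])
  refine ⟨fun x => p (aff A (fun i => b i - TamePull_a A * B) x), ?_, fun x => ?_⟩
  · have h1 := TamePull_comp A (fun i => b i - TamePull_a A * B) _ p hp
    refine TamePull_mono ?_ h1
    rw [mul_assoc (TamePull_a A), mul_assoc C]
    refine Nat.mul_le_mul_left _ (Nat.mul_le_mul_left _ ?_)
    nlinarith [Nat.zero_le B, Nat.zero_le (TamePull_a A)]
  · beta_reduce
    rw [← hpx]
    congr 1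
    funext i
    rw [Pi.add_apply]
    unfold aff
    have h2 : ∑ j, A i j * (x + s) j = ∑ j, A i j * x j + ∑ j, A i j * s j := by
      rw [← Finset.sum_add_distrib]
      refine Finset.sum_congr rfl fun j _ => ?_
      rw [Pi.add_apply]
      ring
    rw [h2]
    ring

end AJH

end

section

/-!
# MP_d3fa71_gt, project Mut, block H: quadratic exponents are tame
-/

set_option autoImplicit false

namespace AJH

theorem TameQuad_add {d : ℕ} (A : Fin d → Fin d → ℤ) (b x s : Fin d → ℤ) :
    ∑ i, ∑ j, A i j * (x + s) i * (x + s) j + ∑ i, b i * (x + s) i =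
      (∑ i, ∑ j, A i j * s i * s j + ∑ i, b i * s i) +
      ∑ i, (∑ j, (A i j + A j i) * s j) * x i +
      (∑ i, ∑ j, A i j * x i * x j + ∑ i, b i * x i) := by
  have h1 : ∑ i, ∑ j, A i j * (x + s) i * (x + s) j =
      ∑ i, ∑ j, A i j * x i * x j + ∑ i, ∑ j, A i j * s i * s j +
        (∑ i, ∑ j, A i j * s j * x i + ∑ i, ∑ j, A i j * s i * x j) := by
    simp only [← Finset.sum_add_distrib]
    refine Finset.sum_congr rfl fun i _ => Finset.sum_congr rfl fun j _ => ?_
    simp only [Pi.add_apply]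
    ring
  have h2 : ∑ i, ∑ j, A i j * s i * x j = ∑ i, ∑ j, A j i * s j * x i := Finset.sum_comm
  have h3 : ∑ i, (∑ j, (A i j + A j i) * s j) * x i =
      ∑ i, ∑ j, A i j * s j * x i + ∑ i, ∑ j, A j i * s j * x i := by
    simp only [← Finset.sum_add_distrib, Finset.sum_mul]
    refine Finset.sum_congr rfl fun i _ => Finset.sum_congr rfl fun j _ => ?_
    ring
  have h4 : ∑ i, b i * (x + s) i = ∑ i, b i * x i + ∑ i, b i * s i := by
    simp only [← Finset.sum_add_distrib]
    refine Finset.sum_congr rfl fun i _ => ?_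
    simp only [Pi.add_apply]
    ring
  rw [h1, h2, h3, h4]
  ring

theorem TameQuad_bound {d : ℕ} (A : Fin d → Fin d → ℤ) (B : ℕ) (s : Fin d → ℤ)
    (hs : ∀ i, 0 ≤ s i ∧ s i ≤ B) (i : Fin d) :
    |∑ j, (A i j + A j i) * s j| ≤
      (((∑ i, ∑ j, ((A i j).natAbs + (A j i).natAbs)) * (B + 1) : ℕ) : ℤ) := by
  have h1 : |∑ j, (A i j + A j i) * s j| ≤ ∑ j, (((A i j).natAbs + (A j i).natAbs : ℕ) : ℤ) * B := by
    refine (Finset.abs_sum_le_sum_abs _ _).trans (Finset.sum_le_sum fun j _ => ?_)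
    rw [abs_mul]
    refine mul_le_mul ?_ ?_ (abs_nonneg _) (Int.natCast_nonneg _)
    · rw [Nat.cast_add, Int.natCast_natAbs, Int.natCast_natAbs]
      exact abs_add_le _ _
    · rw [abs_of_nonneg (hs j).1]
      exact (hs j).2
  have h2 : ∑ j, ((A i j).natAbs + (A j i).natAbs) ≤
      ∑ i, ∑ j, ((A i j).natAbs + (A j i).natAbs) :=
    Finset.single_le_sum (f := fun i => ∑ j, ((A i j).natAbs + (A j i).natAbs))
      (fun _ _ => Nat.zero_le _) (Finset.mem_univ i)
  refine h1.trans ?_
  rw [← Finset.sum_mul, ← Nat.cast_sum, ← Nat.cast_mul, Nat.cast_le]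
  exact Nat.mul_le_mul h2 (Nat.le_succ B)

theorem prf_TameQuad : TameQuad := by
  intro d A b c
  have ht : t ≠ 0 := RatFunc.X_ne_zero
  refine ⟨∑ i, ∑ j, ((A i j).natAbs + (A j i).natAbs), fun B => ⟨fun x =>
    c * t ^ (∑ i, ∑ j, A i j * x i * x j + ∑ i, b i * x i), fun s hs => ?_⟩⟩
  refine ⟨t ^ (∑ i, ∑ j, A i j * s i * s j + ∑ i, b i * s i) •
    mono (fun i => ∑ j, (A i j + A j i) * s j), ?_, ?_⟩
  · exact Submodule.smul_mem _ _ (Submodule.subset_span
      ⟨_, fun i => TameQuad_bound A B s hs i, rfl⟩)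
  · intro x
    show c * t ^ (∑ i, ∑ j, A i j * (x + s) i * (x + s) j + ∑ i, b i * (x + s) i) = _
    rw [TameQuad_add, zpow_add₀ ht, zpow_add₀ ht, Pi.smul_apply, smul_eq_mul, mono]
    ring

end AJH

end

section

/-!
# MP_d3fa71_gt, project Mut: the dependence lemma
-/

open Filter

namespace AJM

namespace DTLX

section alg

variable {F : Type} [Field F] [Algebra ℂ F]

theorem const_of_algebraic {x : F} (hx : IsAlgebraic ℂ x) : ∃ c : ℂ, x = algebraMap ℂ F c := by
  have hi : IsIntegral ℂ x := hx.isIntegral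
  have h1 : (minpoly ℂ x).degree = 1 :=
    IsAlgClosed.degree_eq_one_of_irreducible ℂ (minpoly.irreducible hi)
  obtain ⟨c, hc⟩ := minpoly.mem_range_of_degree_eq_one ℂ x h1
  exact ⟨c, hc.symm⟩

theorem const_of_sum {σ : Type} (S : Finset σ) (c : σ → ℂ) (e : σ → ℤ)
    (he : ∀ m ∈ S, ∀ m' ∈ S, e m = e m' → m = m') (m0 : σ) (hm0 : m0 ∈ S) (hc : c m0 ≠ 0)
    (w : Fˣ) (hs : ∑ m ∈ S, algebraMap ℂ F (c m) * ((w ^ e m : Fˣ) : F) = 0) :
    ∃ c : ℂ, (w : F) = algebraMap ℂ F c := by
  obtain ⟨K, hK⟩ : ∃ K : ℕ, ∀ m ∈ S, 0 ≤ e m + K := by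
    refine ⟨∑ m ∈ S, (e m).natAbs, fun m hm => ?_⟩
    have h1 : (e m).natAbs ≤ ∑ m ∈ S, (e m).natAbs :=
      Finset.single_le_sum (f := fun m => (e m).natAbs) (fun _ _ => Nat.zero_le _) hm
    omega
  set p : Polynomial ℂ := ∑ m ∈ S, Polynomial.C (c m) * Polynomial.X ^ (e m + K).toNat with hp
  have hp0 : p ≠ 0 := by
    intro h0
    have h1 : p.coeff (e m0 + K).toNat = c m0 := by
      rw [hp, Polynomial.finsetSum_coeff, Finset.sum_eq_single m0]
      · rw [Polynomial.coeff_C_mul_X_pow, if_pos rfl]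
      · intro m hm hne
        rw [Polynomial.coeff_C_mul_X_pow, if_neg]
        intro h
        apply hne
        apply he m hm m0 hm0
        have h2 := hK m hm
        have h3 := hK m0 hm0
        omega
      · intro h
        exact absurd hm0 h
    rw [h0, Polynomial.coeff_zero] at h1
    exact hc h1.symm
  apply const_of_algebraic
  refine ⟨p, hp0, ?_⟩
  have h2 : ∀ m ∈ S, algebraMap ℂ F (c m) * (w : F) ^ (e m + K).toNat =
      (w : F) ^ K * (algebraMap ℂ F (c m) * ((w ^ e m : Fˣ) : F)) := by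
    intro m hm
    have h3 : (w : F) ^ (e m + K).toNat = (w : F) ^ K * ((w ^ e m : Fˣ) : F) := by
      rw [← Units.val_pow_eq_pow_val, ← Units.val_pow_eq_pow_val, ← Units.val_mul]
      congr 1
      rw [← zpow_natCast, ← zpow_natCast, ← zpow_add, Int.toNat_of_nonneg (hK m hm), add_comm]
    rw [h3]
    ring
  rw [hp, map_sum]
  simp only [map_mul, Polynomial.aeval_C, map_pow, Polynomial.aeval_X]
  rw [Finset.sum_congr rfl h2, ← Finset.mul_sum, hs, mul_zero]

end alg

section germ

variable {F : Type} [Field F]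

theorem gm_eq_zero (x : ℕ → F) : gm F x = 0 ↔ ∀ᶠ i in (hyperfilter ℕ : Filter ℕ), x i = 0 := by
  have h : gm F x = ((x : ℕ → F) : Gm F) := rfl
  rw [h, ← Germ.coe_zero, Germ.coe_eq]
  exact Iff.rfl

theorem gu_val (x : ℕ → Fˣ) : ((gu x : (Gm F)ˣ) : Gm F) = gm F (fun i => (x i : F)) := rfl

variable [Algebra ℂ F]

theorem mem_kst (x : kst F) : ∃ c : ℕ → ℂ, gm F (fun i => algebraMap ℂ F (c i)) = (x : Gm F) := by
  obtain ⟨c, hc⟩ := x.2
  exact ⟨c, hc⟩

theorem charZero_Gm : CharZero (Gm F) := by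
  have h : Function.Injective ((gm F).comp ((RingHom.compLeft (algebraMap ℂ F) ℕ).comp
    (Pi.constRingHom ℕ ℂ))) := RingHom.injective _
  exact charZero_of_injective_ringHom h

theorem charZero_kst : CharZero (kst F) := by
  have := charZero_Gm (F := F)
  refine ⟨fun a b h => ?_⟩
  have h1 : ((a : kst F) : Gm F) = ((b : kst F) : Gm F) := congrArg Subtype.val h
  have h2 : ((a : kst F) : Gm F) = (a : Gm F) := rfl
  have h3 : ((b : kst F) : Gm F) = (b : Gm F) := rfl
  rw [h2, h3] at h1
  exact Nat.cast_injective h1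

end germ

/-- different exponents. -/
theorem exps {n : ℤ} {d : ℕ} (hd : (d : ℤ) < |n|) {a b a' b' : ℕ} (ha : a ≤ d) (hb : b ≤ d)
    (ha' : a' ≤ d) (hb' : b' ≤ d) (h : (b : ℤ) - n * a = (b' : ℤ) - n * a') :
    a = a' ∧ b = b' := by
  have h1 : n * ((a : ℤ) - a') = (b : ℤ) - b' := by linarith
  have h2 : |n| * |(a : ℤ) - a'| = |(b : ℤ) - b'| := by rw [← abs_mul, h1]
  have h3 : |(b : ℤ) - b'| ≤ d := by
    rw [abs_le]
    constructor <;> omega
  have h4 : |(a : ℤ) - a'| = 0 := by
    by_contra hne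
    have h5 : 1 ≤ |(a : ℤ) - a'| := by
      have := abs_nonneg ((a : ℤ) - a')
      omega
    have h6 : |n| * 1 ≤ |n| * |(a : ℤ) - a'| := mul_le_mul_of_nonneg_left h5 (abs_nonneg n)
    linarith
  have h7 : (a : ℤ) - a' = 0 := abs_eq_zero.1 h4
  rw [h7, mul_zero] at h1
  constructor <;> omega

end DTLX

open DTLX in
theorem prf_DTL (h : DepJac) : DTL := by
  intro F _ _ E W n hn hEW hD
  have hch := charZero_kst (F := F)
  have hdep := h (kst F) (Gm F) (gu E : Gm F) (gu W : Gm F) hD
  rw [algebraicIndependent_iff] at hdep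
  push_neg at hdep
  obtain ⟨P, hP0, hP⟩ := hdep
  choose C hC using fun m : Fin 2 →₀ ℕ => mem_kst (P.coeff m)
  -- the relation
  have hrel : ∀ᶠ i in (hyperfilter ℕ : Filter ℕ),
      ∑ m ∈ P.support, algebraMap ℂ F (C m i) * ((E i : F) ^ m 0 * (W i : F) ^ m 1) = 0 := by
    rw [← gm_eq_zero, ← hP0, MvPolynomial.aeval_def, MvPolynomial.eval₂_eq']
    have h1 : (fun i => ∑ m ∈ P.support,
        algebraMap ℂ F (C m i) * ((E i : F) ^ m 0 * (W i : F) ^ m 1)) =
        ∑ m ∈ P.support, (fun i => algebraMap ℂ F (C m i)) *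
          ((fun i => (E i : F)) ^ m 0 * (fun i => (W i : F)) ^ m 1) := by
      funext i
      rw [Finset.sum_apply]
      rfl
    rw [h1, map_sum]
    refine Finset.sum_congr rfl fun m _ => ?_
    rw [map_mul, map_mul, map_pow, map_pow, hC, Fin.prod_univ_two]
    rfl
  -- a nonzero coefficient
  obtain ⟨m0, hm0⟩ := Finset.nonempty_iff_ne_empty.2
    (fun hc => hP (MvPolynomial.support_eq_empty.1 hc))
  have hnz : ∀ᶠ i in (hyperfilter ℕ : Filter ℕ), C m0 i ≠ 0 := by
    rw [Ultrafilter.eventually_not]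
    intro hc
    rw [MvPolynomial.mem_support_iff] at hm0
    apply hm0
    apply Subtype.ext
    rw [← hC m0]
    refine (gm_eq_zero _).2 (hc.mono fun i hi => ?_)
    rw [hi, map_zero]
  -- the exponents
  obtain ⟨d, hd⟩ : ∃ d : ℕ, ∀ m ∈ P.support, m 0 ≤ d ∧ m 1 ≤ d := by
    refine ⟨∑ m ∈ P.support, (m 0 + m 1), fun m hm => ?_⟩
    have h1 : m 0 + m 1 ≤ ∑ m ∈ P.support, (m 0 + m 1) :=
      Finset.single_le_sum (f := fun m : Fin 2 →₀ ℕ => m 0 + m 1) (fun _ _ => Nat.zero_le _) hm
    constructor <;> omega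
  have hlarge : ∀ᶠ i in (hyperfilter ℕ : Filter ℕ), (d : ℤ) < |n i| := by
    apply hyperfilter_le_cofinite
    have h1 : Set.Finite {i : ℕ | ¬ (d : ℤ) < |n i|} := by
      have h2 : Set.Finite (Set.Icc (-(d : ℤ)) d) := Set.finite_Icc _ _
      refine (h2.preimage hn.injOn).subset fun i hi => ?_
      simp only [Set.mem_setOf_eq, not_lt] at hi
      exact abs_le.1 hi
    exact h1
  filter_upwards [hrel, hnz, hlarge] with i h1 h2 h3
  refine const_of_sum P.support (fun m => C m i) (fun m => (m 1 : ℤ) - n i * m 0) ?_ m0 hm0 h2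
    (W i) ?_
  · intro m hm m' hm' hmm
    obtain ⟨h4, h5⟩ := exps h3 (hd m hm).1 (hd m hm).2 (hd m' hm').1 (hd m' hm').2 hmm
    ext l
    refine Fin.cases ?_ (fun l => ?_) l
    · exact h4
    · rw [Subsingleton.elim l 0]
      exact h5
  · rw [← h1]
    refine Finset.sum_congr rfl fun m _ => ?_
    have h4 : E i = W i ^ (-n i) := by
      rw [zpow_neg]
      exact eq_inv_of_mul_eq_one_left (hEW i)
    have h5 : W i ^ ((m 1 : ℤ) - n i * m 0) = E i ^ m 0 * W i ^ m 1 := by
      rw [h4, ← zpow_natCast, ← zpow_natCast, ← zpow_mul, ← zpow_add]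
      congr 1
      ring
    rw [h5, Units.val_mul, Units.val_pow_eq_pow_val, Units.val_pow_eq_pow_val]

end AJM

end

section

/-!
# MP_d3fa71_gt, project Mut, item DepJac: derivations and algebraic independence
-/

namespace AJM

namespace DepJacX

open MvPolynomial

section
variable {k L ι : Type} [Field k] [Field L] [Algebra k L] {x : ι → L}

/-- the derivation on the polynomial subalgebra with prescribed values -/
theorem der0 (hx : AlgebraicIndependent k x) (c : ι → L) :
    ∃ d : Derivation k (Algebra.adjoin k (Set.range x)) L,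
      ∀ i, d ⟨x i, Algebra.subset_adjoin ⟨i, rfl⟩⟩ = c i := by
  let _ : Algebra (MvPolynomial ι k) L := (aeval x : MvPolynomial ι k →ₐ[k] L).toRingHom.toAlgebra
  have _ : IsScalarTower k (MvPolynomial ι k) L := IsScalarTower.of_algebraMap_eq fun r => by
    change algebraMap k L r = aeval x (algebraMap k (MvPolynomial ι k) r)
    rw [AlgHom.commutes]
  have hsm : ∀ (p : MvPolynomial ι k) (l : L), p • l = aeval x p * l := fun p l => by
    rw [Algebra.smul_def]
    rfl
  refine ⟨Derivation.mk' ((mkDerivation k c).toLinearMap ∘ₗ hx.aevalEquiv.symm.toLinearMap) ?_, ?_⟩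
  · intro a b
    have h1 : ∀ a : Algebra.adjoin k (Set.range x), aeval x (hx.aevalEquiv.symm a) = (a : L) := by
      intro a
      rw [← hx.algebraMap_aevalEquiv, AlgEquiv.apply_symm_apply]
      rfl
    change mkDerivation k c (hx.aevalEquiv.symm (a * b)) =
      a • mkDerivation k c (hx.aevalEquiv.symm b) + b • mkDerivation k c (hx.aevalEquiv.symm a)
    rw [map_mul, Derivation.leibniz, hsm, hsm, h1, h1]
    rfl
  · intro i
    change mkDerivation k c (hx.aevalEquiv.symm ⟨x i, Algebra.subset_adjoin ⟨i, rfl⟩⟩) = c i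
    have h2 : hx.aevalEquiv (X i) = ⟨x i, Algebra.subset_adjoin ⟨i, rfl⟩⟩ := by
      apply Subtype.ext
      change algebraMap (Algebra.adjoin k (Set.range x)) L (hx.aevalEquiv (X i)) = x i
      rw [hx.algebraMap_aevalEquiv, aeval_X]
    rw [← h2, AlgEquiv.symm_apply_apply, mkDerivation_X]

open scoped IntermediateField.algebraAdjoinAdjoin in
theorem etale [CharZero k] (hx : IsTranscendenceBasis k x) :
    Algebra.FormallyEtale (Algebra.adjoin k (Set.range x)) L := by
  have h1 : Algebra.FormallyEtale (Algebra.adjoin k (Set.range x))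
      (IntermediateField.adjoin k (Set.range x)) :=
    Algebra.FormallyEtale.of_isLocalization (nonZeroDivisors (Algebra.adjoin k (Set.range x)))
  have h2 : Algebra.IsAlgebraic (IntermediateField.adjoin k (Set.range x)) L :=
    hx.isAlgebraic_field
  have h0 : CharZero (IntermediateField.adjoin k (Set.range x)) :=
    charZero_of_injective_algebraMap (algebraMap k _).injective
  have h4 : Algebra.FormallyEtale (IntermediateField.adjoin k (Set.range x)) L :=
    Algebra.FormallyEtale.of_isSeparable _ L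
  exact Algebra.FormallyEtale.comp _ (IntermediateField.adjoin k (Set.range x)) _

/-- derivations with prescribed values on a transcendence basis -/
theorem key [CharZero k] (hx : IsTranscendenceBasis k x) (c : ι → L) :
    ∃ D : Derivation k L L, ∀ i, D (x i) = c i := by
  obtain ⟨d, hd⟩ := der0 hx.1 c
  have _ := etale hx
  let e := KaehlerDifferential.tensorKaehlerEquivOfFormallyEtale k
    (Algebra.adjoin k (Set.range x)) L
  let g := (d.liftKaehlerDifferential).liftBaseChange L
  refine ⟨(g ∘ₗ e.symm.toLinearMap).compDer (KaehlerDifferential.D k L), fun i => ?_⟩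
  have h1 : (x i : L) = algebraMap (Algebra.adjoin k (Set.range x)) L
    ⟨x i, Algebra.subset_adjoin ⟨i, rfl⟩⟩ := rfl
  change g (e.symm (KaehlerDifferential.D k L (x i))) = c i
  rw [h1, KaehlerDifferential.tensorKaehlerEquivOfFormallyEtale_symm_D_algebraMap]
  change (d.liftKaehlerDifferential).liftBaseChange L _ = c i
  rw [LinearMap.liftBaseChange_one_tmul, Derivation.liftKaehlerDifferential_comp_D, hd]

end

/-- derivations with prescribed values on an independent set -/
theorem key' {k L : Type} [Field k] [Field L] [Algebra k L] [CharZero k] {s : Set L}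
    (hs : AlgebraicIndepOn k id s) (c : L → L) : ∃ D : Derivation k L L, ∀ y ∈ s, D y = c y := by
  obtain ⟨t, hst, ht⟩ := exists_isTranscendenceBasis_superset hs
  obtain ⟨D, hD⟩ := key ht (fun y => c y)
  exact ⟨D, fun y hy => hD ⟨y, hst hy⟩⟩

end DepJacX

open DepJacX

theorem prf_DepJac : DepJac := by
  intro k L _ _ _ _ E W h hind
  classical
  have hEW : W ≠ E := by
    intro hc
    have := hind.injective (show ![E, W] 0 = ![E, W] 1 from hc.symm)
    exact absurd this (by decide)
  have hs : AlgebraicIndepOn k id (Set.range ![E, W]) := hind.coe_range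
  have hE : E ∈ Set.range ![E, W] := ⟨0, rfl⟩
  have hW : W ∈ Set.range ![E, W] := ⟨1, rfl⟩
  obtain ⟨D, hD⟩ := key' hs (fun y => if y = E then 1 else 0)
  obtain ⟨D', hD'⟩ := key' hs (fun y => if y = E then 0 else 1)
  have h1 := h D D'
  rw [hD E hE, hD W hW, hD' E hE, hD' W hW] at h1
  simp [hEW] at h1

theorem prf_AlgDer : AlgDer := by
  intro k L _ _ _ _ x h
  by_contra hc
  have hind : AlgebraicIndependent k ![x] := algebraicIndependent_iff_transcendental.2 hc
  have hs : AlgebraicIndepOn k id (Set.range ![x]) := hind.coe_range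
  obtain ⟨D, hD⟩ := key' hs (fun _ => 1)
  have h1 := hD x ⟨0, rfl⟩
  rw [h D] at h1
  exact one_ne_zero h1.symm

end AJM

end
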