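import Pool.Agent.Work.MP_d3fa71_gt.Mut.Bd.B05
import Pool.Agent.Work.MP_d3fa71_gt.Mut.Bd.B20
import Pool.Agent.Work.MP_d3fa71_gt.Mut.Bd.B04
import Pool.Agent.Work.MP_d3fa71_gt.Mut.Bd.B01
import Pool.Agent.Work.MP_d3fa71_gt.Mut.Bd.B07
import Pool.Agent.Work.MP_d3fa71_gt.Mut.Bd.B03
import Pool.Agent.Work.MP_d3fa71_gt.Mut.Bd.B19
import Pool.Agent.Work.MP_d3fa71_gt.Mut.Bd.B06

/-! Bundle of small proof modules (one section per former module). -/

section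

/-!
# MP_d3fa71_gt, project Mut: statements of block V (the gadget)
-/

namespace AJM

/-! ## Powers and traces -/

/-- Elementary identities of the polynomials. -/
def SpId : Prop :=
  ∀ (R : Type) [CommRing R] (Y : R) (n : ℕ),
    Ep n Y = Sp (n + 1) Y - Sp n Y ∧
    Sp (n + 1) Y ^ 2 - Sp n Y * Sp (n + 2) Y = 1 ∧
    Sp (2 * n + 1) Y = Sp (n + 1) Y ^ 2 - Sp n Y ^ 2 ∧
    Sp (2 * n + 2) Y = Sp (n + 1) Y * (Sp (n + 2) Y - Sp n Y)

/-- Powers. -/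
def PowTr : Prop :=
  ∀ (R : Type) [CommRing R] (x y : G R) (n : ℕ),
    tr (x ^ n * y) = Sp n (tr x) * tr (x * y) - (tr x * Sp n (tr x) - Sp (n + 1) (tr x)) * tr y ∧
    tr (x ^ (n + 1) * y) = Sp (n + 1) (tr x) * tr (x * y) - Sp n (tr x) * tr y

/-- `tr (x ^ (2 n + 1)) + 2 = E n ^ 2 (Y + 2)`. -/
def TrOdd : Prop :=
  ∀ (R : Type) [CommRing R] (x : G R) (n : ℕ),
    tr (x ^ (2 * n + 1)) + 2 = Ep n (tr x) ^ 2 * (tr x + 2)

/-- If `E n (tr x) = 0` then `x ^ (2 n + 1) = - 1`. -/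
def OddPow : Prop :=
  ∀ (R : Type) [CommRing R] (x : G R) (n : ℕ), Ep n (tr x) = 0 → x ^ (2 * n + 1) = dg (-1)

/-- `tr ((y z) ^ n z) = m E n` and `tr ((y z) ^ n y) = m E n`. -/
def OddHalf : Prop :=
  ∀ (R : Type) [CommRing R] (y z : G R) (n : ℕ), tr y = tr z →
    tr ((y * z) ^ n * z) = tr z * Ep n (tr (y * z)) ∧
    tr ((y * z) ^ n * y) = tr z * Ep n (tr (y * z))

/-- The trace of the middle pair. -/
def OddTrace : Prop :=
  ∀ (R : Type) [CommRing R] (y z : G R) (n : ℕ), tr y = tr z →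
    tr (((y * z) ^ n)⁻¹ * z⁻¹ * (y * z) ^ (n + 1) * z⁻¹) =
      2 + Ep n (tr (y * z)) ^ 2 * (tr z ^ 2 - 2 - tr (y * z))

/-- The torus knot relations. -/
def OddRel : Prop :=
  ∀ (R : Type) [CommRing R] (y z : G R) (n : ℕ), tr y = tr z → Ep n (tr (y * z)) = 0 →
    (((y * z) ^ n)⁻¹ * z⁻¹) * (((y * z) ^ n)⁻¹ * z⁻¹) = dg (-1) ∧
    ((y * z) ^ n)⁻¹ * z * (y * z) ^ n = y ∧
    ((y * z) ^ n)⁻¹ * z⁻¹ * y * z * (y * z) ^ n = z

/-! ## The equations of the gadget -/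

section
variable {R : Type} [CommRing R]

/-- First frame after the first odd twist and cap. -/
def Vhp (M : Rˣ) (j' : ℕ) (k r : G R) : G R :=
  (mer M k * mer M r) ^ (-(j' : ℤ)) * (mer M r)⁻¹ * k * dg M ^ j'

/-- The product of the middle pair. -/
def Vw (M : Rˣ) (j' : ℕ) (k r : G R) : G R := mer M (Vhp M j' k r) * mer M (r * J)

/-- The frames after the middle twist. -/
def Vhq (M : Rˣ) (j' n : ℕ) (k r : G R) : G R :=
  Vw M j' k r ^ (-(n : ℤ)) * Vhp M j' k r * dg M ^ n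
def Vr (M : Rˣ) (j' n : ℕ) (k r : G R) : G R :=
  Vw M j' k r ^ (-(n : ℤ)) * (r * J) * dg M ^ n

/-- The product of the last pair. -/
def VW (M : Rˣ) (j' n : ℕ) (k r v : G R) : G R := mer M (Vr M j' n k r) * mer M v

/-- The equations of the gadget. -/
def VEq (M : Rˣ) (j' j n : ℕ) (ha hb ha' hb' : G R) (τ : Rˣ) (k r v : G R)
    (t₁ t₂ t₃ : Rˣ) : Prop :=
  (mer M k * mer M r) ^ (-(j' : ℤ)) * r * dg M ^ j' = hb * J * dg t₁ ∧
  VW M j' n k r v ^ (-(j : ℤ)) * v * dg M ^ j = Vhq M j' n k r * J * dg t₂ ∧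
  VW M j' n k r v ^ (-(j : ℤ)) * (mer M v)⁻¹ * Vr M j' n k r * dg M ^ j = ha * J * dg t₃ ∧
  ha' = v * J ∧ hb' = k * J ∧ τ = t₁ * t₂ * t₃

end

/-- Inversion of the gadget. -/
def VInv : Prop :=
  ∀ (R : Type) [CommRing R] (M : Rˣ) (j' j n : ℕ) (ha hb ha' hb' : G R) (τ : Rˣ),
    Path M (Vg j' j n) [ha, hb] [ha', hb'] τ ↔
      ∃ (k r v : G R) (t₁ t₂ t₃ : Rˣ), VEq M j' j n ha hb ha' hb' τ k r v t₁ t₂ t₃

/-- The two expressions for the trace of the middle pair. -/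
def VTrace : Prop :=
  ∀ (R : Type) [CommRing R] (M : Rˣ) (j' j n : ℕ) (ha hb ha' hb' : G R) (τ : Rˣ)
    (k r v : G R) (t₁ t₂ t₃ : Rˣ), VEq M j' j n ha hb ha' hb' τ k r v t₁ t₂ t₃ →
    tr (Vw M j' k r) = 2 + Ep j' (tr (mer M k * mer M r)) ^ 2 *
      (((M : R) + ((M⁻¹ : Rˣ) : R)) ^ 2 - 2 - tr (mer M k * mer M r)) ∧
    tr (Vw M j' k r) = 2 + Ep j (tr (VW M j' n k r v)) ^ 2 *
      (((M : R) + ((M⁻¹ : Rˣ) : R)) ^ 2 - 2 - tr (VW M j' n k r v))

/-- The frames when both polynomials vanish. -/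
def VAlg : Prop :=
  ∀ (F : Type) [Field F] (M : Fˣ) (j' j n : ℕ) (ha hb ha' hb' : G F) (τ : Fˣ)
    (k r v : G F) (t₁ t₂ t₃ : Fˣ), (M : F) ^ 2 ≠ 1 →
    VEq M j' j n ha hb ha' hb' τ k r v t₁ t₂ t₃ →
    Ep j' (tr (mer M k * mer M r)) = 0 → Ep j (tr (VW M j' n k r v)) = 0 →
    ∃ α β : Fˣ, ha' = ha * dg α ∧ hb' = hb * dg β ∧ τ * α * β = M ^ (2 * j' + 2 * j + 2 * n + 2)

/-- Being a constant. -/
def Cst {F : Type} [Field F] [Algebra ℂ F] (x : F) : Prop := ∃ c : ℂ, x = algebraMap ℂ F c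

/-- If the three traces are constants, the gadget acts trivially. -/
def VConst : Prop :=
  ∀ (F : Type) [Field F] [Algebra ℂ F] (M : Fˣ) (j' j n : ℕ) (ha hb ha' hb' : G F) (τ : Fˣ)
    (k r v : G F) (t₁ t₂ t₃ : Fˣ), Transcendental ℂ (M : F) →
    VEq M j' j n ha hb ha' hb' τ k r v t₁ t₂ t₃ →
    Cst (tr (mer M k * mer M r)) → Cst (tr (Vw M j' k r)) → Cst (tr (VW M j' n k r v)) →
    ∃ α β : Fˣ, ha' = ha * dg α ∧ hb' = hb * dg β ∧ τ * α * β = M ^ (2 * j' + 2 * j + 2 * n + 2)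

/-! ## The drilled gadget -/

/-- The drilled gadget. -/
def dV : List DMv :=
  [(.mv .cup, 2), (.mv .cup, 3), (.mv .pos, 2), (.tw, 2), (.mv .cap, 1), (.tw, 1),
    (.mv .cup, 3), (.mv .pos, 2), (.tw, 2), (.mv .cap, 1), (.mv .cap, 0)]

/-- Shift of drilled words. -/
def dsh (k : ℕ) (w : List DMv) : List DMv := w.map (fun m => (m.1, m.2 + k))

/-- Drilled paths with a prefix. -/
def DPathShift : Prop :=
  ∀ (R : Type) [CommRing R] (M : Rˣ) (w : List DMv) (p s s' : List (G R)) (τ : Rˣ)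
    (Θ : List (Rˣ × Rˣ)), DPath M w s s' τ Θ → DPath M (dsh p.length w) (p ++ s) (p ++ s') τ Θ

/-- Drilled paths with a suffix. -/
def DPathRight : Prop :=
  ∀ (R : Type) [CommRing R] (M : Rˣ) (w : List DMv) (s s' x : List (G R)) (τ : Rˣ)
    (Θ : List (Rˣ × Rˣ)), DPath M w s s' τ Θ → DPath M w (s ++ x) (s' ++ x) τ Θ

/-- An eigenvector for each element, with unit eigenvalue. -/
def EigEx : Prop :=
  ∀ (F : Type) [Field F] [IsAlgClosed F] (x : G F), ∃ (ω : Fˣ) (v u : Fin 2 → F),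
    Matrix.mulVec x.1 v = (ω : F) • v ∧ u 0 * v 0 + u 1 * v 1 = 1 ∧
    tr x = (ω : F) + ((ω⁻¹ : Fˣ) : F)

/-- Eigenvectors of powers. -/
def EigPow : Prop :=
  ∀ (F : Type) [Field F] (x : G F) (ω : Fˣ) (v : Fin 2 → F) (n : ℤ),
    Matrix.mulVec x.1 v = (ω : F) • v → Matrix.mulVec (x ^ n).1 v = ((ω ^ n : Fˣ) : F) • v

/-- The drilled path of a gadget path. -/
def VDrill : Prop :=
  ∀ (F : Type) [Field F] [IsAlgClosed F] (M : Fˣ) (j' j n : ℕ) (ha hb ha' hb' : G F) (τ : Fˣ)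
    (k r v : G F) (t₁ t₂ t₃ : Fˣ), VEq M j' j n ha hb ha' hb' τ k r v t₁ t₂ t₃ →
    ∃ x y z : Fˣ, tr (mer M k * mer M r) = (x : F) + ((x⁻¹ : Fˣ) : F) ∧
      tr (Vw M j' k r) = (y : F) + ((y⁻¹ : Fˣ) : F) ∧
      tr (VW M j' n k r v) = (z : F) + ((z⁻¹ : Fˣ) : F) ∧
      DPath M dV [ha, hb] [ha', hb'] (τ * (M ^ (2 * j' + 2 * j + 2 * n))⁻¹)
        [(x ^ (-(j' : ℤ)), x), (y ^ (-(n : ℤ)), y), (z ^ (-(j : ℤ)), z)]

/-- `ω + 1 / ω` is constant iff `ω` is. -/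
def CstTr : Prop :=
  ∀ (F : Type) [Field F] [Algebra ℂ F] (ω : Fˣ),
    Cst ((ω : F) + ((ω⁻¹ : Fˣ) : F)) ↔ Cst (ω : F)

/-! ## Solutions -/

/-- A solution of the word with a gadget, with its three traces. -/
def VSol (F : Type) [Field F] [Algebra ℂ F] (w₁ w₂ : List Mv) (i : ℕ) (N : ℤ) (j' j n : ℕ)
    (x y z : F) : Prop :=
  ∃ (M τ₁ τ₂ τ t₁ t₂ t₃ : Fˣ) (p s : List (G F)) (ha hb ha' hb' k r v : G F),
    Transcendental ℂ (M : F) ∧
    (τ₁ * τ * τ₂ = M ^ (N + 2 * j' + 2 * j + 2 * n + 2) ∨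
      τ₁ * τ * τ₂ = -M ^ (N + 2 * j' + 2 * j + 2 * n + 2)) ∧ p.length = i ∧
    Path M w₁ [] (p ++ ha :: hb :: s) τ₁ ∧ VEq M j' j n ha hb ha' hb' τ k r v t₁ t₂ t₃ ∧
    Path M w₂ (p ++ ha' :: hb' :: s) [] τ₂ ∧ x = tr (mer M k * mer M r) ∧
    y = tr (Vw M j' k r) ∧ z = tr (VW M j' n k r v)

def VSolOf : Prop :=
  ∀ (F : Type) [Field F] [Algebra ℂ F] (w₁ w₂ : List Mv) (i : ℕ) (N : ℤ) (j' j n : ℕ),
    SS F (w₁ ++ sh i (Vg j' j n) ++ w₂) (N + 2 * j' + 2 * j + 2 * n + 2) →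
    ∃ x y z, VSol F w₁ w₂ i N j' j n x y z

def VSolConst : Prop :=
  ∀ (F : Type) [Field F] [Algebra ℂ F] (w₁ w₂ : List Mv) (i : ℕ) (N : ℤ) (j' j n : ℕ) (x y z : F),
    VSol F w₁ w₂ i N j' j n x y z → Cst x → Cst y → Cst z → SS F (w₁ ++ w₂) N

def VSolDrill : Prop :=
  ∀ (F : Type) [Field F] [Algebra ℂ F] [IsAlgClosed F] (w₁ w₂ : List Mv) (i : ℕ) (N : ℤ)
    (j' j n : ℕ) (x y z : F), VSol F w₁ w₂ i N j' j n x y z →
    ∃ M τ a b c : Fˣ, Transcendental ℂ (M : F) ∧ (τ = M ^ (N + 2) ∨ τ = -M ^ (N + 2)) ∧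
      x = (a : F) + ((a⁻¹ : Fˣ) : F) ∧ y = (b : F) + ((b⁻¹ : Fˣ) : F) ∧
      z = (c : F) + ((c⁻¹ : Fˣ) : F) ∧
      DPath M (emb w₁ ++ dsh i dV ++ emb w₂) [] [] τ
        [(a ^ (-(j' : ℤ)), a), (b ^ (-(n : ℤ)), b), (c ^ (-(j : ℤ)), c)]

def VA : Prop :=
  ∀ (F : Type) [Field F] [Algebra ℂ F] [IsAlgClosed F] (w₁ w₂ : List Mv) (i : ℕ) (N : ℤ)
    (j' j : ℕ), ∃ b : ℕ, ∀ n ≥ b, ∀ x y z, VSol F w₁ w₂ i N j' j n x y z → Cst y

def VB : Prop :=
  ∀ (F : Type) [Field F] [Algebra ℂ F] [IsAlgClosed F] (w₁ w₂ : List Mv) (i : ℕ) (N : ℤ)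
    (j' : ℕ), ∃ b : ℕ, ∀ j ≥ b, ∀ n, ∀ x y z, VSol F w₁ w₂ i N j' j n x y z → Cst y → Cst z

def VC : Prop :=
  ∀ (F : Type) [Field F] [Algebra ℂ F] [IsAlgClosed F] (w₁ w₂ : List Mv) (i : ℕ) (N : ℤ),
    ∃ b : ℕ, ∀ j' ≥ b, ∀ j n, ∀ x y z, VSol F w₁ w₂ i N j' j n x y z → Cst y → Cst z → Cst x

/-! ## The positive direction -/

/-- Frames exist. -/
def FrameEx : Prop :=
  ∀ (F : Type) [Field F] (M : Fˣ) (x : G F), (M : F) ^ 2 ≠ 1 →
    tr x = (M : F) + ((M⁻¹ : Fˣ) : F) → ∃ r : G F, mer M r = x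

/-- The existence of the element `z`. -/
def PExist : Prop :=
  ∀ (F : Type) [Field F] [IsAlgClosed F] (M : Fˣ) (ha hb : G F) (Y' Y'' : F),
    (M : F) ^ 2 ≠ 1 → mer M ha * mer M hb ≠ mer M hb * mer M ha → Y' ≠ Y'' →
    ((M : F) + ((M⁻¹ : Fˣ) : F)) ^ 2 ≠ Y' + Y'' →
    ∃ z : G F, tr z = (M : F) + ((M⁻¹ : Fˣ) : F) ∧ tr (mer M ha * z) = Y'' ∧
      tr ((mer M hb)⁻¹ * z) = Y'

end AJM

end

section

/-!
# MP_d3fa71_gt, project Mut: statements of the blocks C (coil) and Z (special representation)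

See `PROOF.md`, sections 6 (COIL) and 8. Captain of these blocks: helper60.
-/

namespace AJM

/-! ## Calculus of paths -/

/-- The word `w` leads from `s` to `s'` up to scaling of the frames; `σ` is the total weight. -/
def SP {R : Type} [CommRing R] (M : Rˣ) (w : List Mv) (s s' : List (G R)) (σ : Rˣ) : Prop :=
  ∃ (d : List Rˣ) (τ : Rˣ), d.length = s'.length ∧ Path M w s (scl s' d) τ ∧ τ * d.prod = σ

/-- `Fits w m m'`: the word `w` can be applied to `m` strands and then gives `m'` strands. -/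
def Fits : List Mv → ℕ → ℕ → Prop
  | [], m, m' => m = m'
  | (.cup, i) :: w, m, m' => i ≤ m ∧ Fits w (m + 2) m'
  | (.cap, i) :: w, m, m' => i + 2 ≤ m ∧ Fits w (m - 2) m'
  | (.pos, i) :: w, m, m' => i + 2 ≤ m ∧ Fits w m m'
  | (.neg, i) :: w, m, m' => i + 2 ≤ m ∧ Fits w m m'

/-- Strands below are not touched. -/
def PathRightZ : Prop :=
  ∀ (R : Type) [CommRing R] (M : Rˣ) (w : List Mv) (s s' r : List (G R)) (τ : Rˣ),
    Path M w s s' τ → Path M w (s ++ r) (s' ++ r) τ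

/-- Strands below are not touched (inversion). -/
def PathRightInv : Prop :=
  ∀ (R : Type) [CommRing R] (M : Rˣ) (w : List Mv) (s s₁ r : List (G R)) (τ : Rˣ) (m' : ℕ),
    Fits w s.length m' → Path M w (s ++ r) s₁ τ →
    ∃ s' : List (G R), s₁ = s' ++ r ∧ s'.length = m' ∧ Path M w s s' τ

/-- Braid words are deterministic. -/
def PathDet : Prop :=
  ∀ (R : Type) [CommRing R] (M : Rˣ) (w : List Mv) (s s₁ s₂ : List (G R)) (τ₁ τ₂ : Rˣ),
    (∀ m ∈ w, m.1 = Kd.pos ∨ m.1 = Kd.neg) → Path M w s s₁ τ₁ → Path M w s s₂ τ₂ →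
    s₁ = s₂ ∧ τ₁ = τ₂

/-- Basic calculus of `SP`. -/
def SPCalc : Prop :=
  ∀ (R : Type) [CommRing R] (M : Rˣ),
    (∀ (w : List Mv) (s s' : List (G R)) (τ : Rˣ), Path M w s s' τ → SP M w s s' τ) ∧
    (∀ (w : List Mv) (s : List (G R)) (τ : Rˣ), SP M w s [] τ → Path M w s [] τ) ∧
    (∀ (w₁ w₂ : List Mv) (s s' s'' : List (G R)) (σ σ' : Rˣ), SP M w₁ s s' σ →
      SP M w₂ s' s'' σ' → SP M (w₁ ++ w₂) s s'' (σ * σ')) ∧
    (∀ (w : List Mv) (s s' : List (G R)) (d : List Rˣ) (σ : Rˣ), d.length = s'.length →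
      SP M w s (scl s' d) σ → SP M w s s' (σ * d.prod)) ∧
    (∀ (w : List Mv) (s s' : List (G R)) (d : List Rˣ) (σ : Rˣ), d.length = s.length →
      SP M w s s' σ → SP M w (scl s d) s' (σ * d.prod)) ∧
    (∀ (w : List Mv) (p s s' r : List (G R)) (σ : Rˣ), SP M w s s' σ →
      SP M (sh p.length w) (p ++ s ++ r) (p ++ s' ++ r) σ)

/-- Full twists, `PROOF.md` (0.1). -/
def TwsPath : Prop :=
  ∀ (R : Type) [CommRing R] (M : Rˣ) (n : ℤ) (h k : G R) (s : List (G R)),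
    Path M (tws (2 * n)) (h :: k :: s)
      ((mer M h * mer M k) ^ (-n) * h * dg (M ^ n) ::
        (mer M h * mer M k) ^ (-n) * k * dg (M ^ n) :: s) 1

/-- Windings of the top strand around the next two. -/
def WindPath : Prop :=
  ∀ (R : Type) [CommRing R] (M : Rˣ) (n : ℕ) (c a b : G R) (s : List (G R)),
    Path M (rep n Wind) (c :: a :: b :: s)
      ((mer M c * (mer M a * mer M b)) ^ n * c * dg (M ^ (-(n : ℤ))) ::
        (mer M c * (mer M a * mer M b)) ^ n * ((mer M a * mer M b) ^ n)⁻¹ * a ::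
        (mer M c * (mer M a * mer M b)) ^ n * ((mer M a * mer M b) ^ n)⁻¹ * b :: s) 1

/-- Two frames of the same meridian. -/
def FrameUniq : Prop :=
  ∀ (F : Type) [Field F] (M : Fˣ) (h k : G F), (M : F) ^ 2 ≠ 1 → mer M h = mer M k →
    ∃ u : Fˣ, k = h * dg u

/-! ## The coil -/

/-- Inversion for closures. -/
def NclInvZ : Prop :=
  ∀ (R : Type) [CommRing R] (M : Rˣ) (w : List Mv) (τ : Rˣ), Fits w 2 2 →
    Path M (Ncl w) [] [] τ →
    ∃ (ha hb : G R) (α β τ' : Rˣ), Path M w [ha, hb] [ha * dg α, hb * dg β] τ' ∧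
      τ = τ' * α * β

/-- The words fit. -/
def FitsTw : Prop := Fits Tw 2 2 ∧ ∀ k : ℕ, Fits (Fw k []) 2 2

/-- Inversion for the coil. -/
def FwInv : Prop :=
  ∀ (R : Type) [CommRing R] (M : Rˣ) (k : ℕ) (ha' hb' x y : G R) (τ : Rˣ),
    Path M (Fw k []) [ha', hb'] [x, y] τ →
    ∃ (ρ : G R) (z : Rˣ),
      (mer M ρ * (mer M ha' * mer M hb')) ^ (2 * k) * ρ = ρ * dg z ∧
      x = (mer M ha' * mer M hb') ^ k * (mer M ρ * (mer M ha' * mer M hb')) ^ (2 * k) *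
        ((mer M ha' * mer M hb') ^ (2 * k))⁻¹ * ha' * dg (M ^ (-(k : ℤ))) ∧
      y = (mer M ha' * mer M hb') ^ k * (mer M ρ * (mer M ha' * mer M hb')) ^ (2 * k) *
        ((mer M ha' * mer M hb') ^ (2 * k))⁻¹ * hb' * dg (M ^ (-(k : ℤ))) ∧
      τ = z * M ^ (-(2 * k : ℤ))

/-! ## The special representation -/

/-- `(1 x; 0 1)`. -/
def Tm {R : Type} [CommRing R] (x : R) : G R := ⟨!![1, x; 0, 1], by simp [Matrix.det_fin_two_of]⟩

/-- Closing a block which acts trivially up to scaling. -/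
def NclPath : Prop :=
  ∀ (R : Type) [CommRing R] (M : Rˣ) (w : List Mv) (ha hb : G R) (σ : Rˣ),
    SP M w [ha, hb] [ha, hb] σ → Path M (Ncl w) [] [] σ

/-- A column with gadget. -/
def ColUp : Prop :=
  ∀ (F : Type) [Field F] (M : Fˣ) (r : ℤ) (v : List Mv) (γ τ : Fˣ) (ha hb k : G F)
    (s : List (G F)), Vok M v γ → mer M hb * mer M k ≠ mer M k * mer M hb →
    (mer M hb * mer M k) ^ (-r) * hb * dg (M ^ r) = ha * J * dg τ →
    Path M (rot (v ++ tws (2 * r))) (ha :: hb :: s)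
      ((mer M hb * mer M k) ^ (-r) * k * dg (M ^ r) :: k * J :: s) (γ * τ)

/-- The reversed column with gadget. -/
def ColDown : Prop :=
  ∀ (F : Type) [Field F] (M : Fˣ) (r : ℤ) (v : List Mv) (γ τ : Fˣ) (ha hb k : G F)
    (s : List (G F)), Vok M v γ → mer M hb * mer M k ≠ mer M k * mer M hb →
    (mer M hb * mer M k) ^ (-r) * hb * dg (M ^ r) = ha * J * dg τ →
    Path M ((.cup, 0) :: sh 1 (tws (-(2 * r)) ++ v) ++ [(.cap, 2)])
      ((mer M hb * mer M k) ^ (-r) * k * dg (M ^ r) :: k * J :: s)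
      (ha :: hb * dg τ⁻¹ :: s) γ

/-- The pair `P`, `P†`: column of `2 r` half twists (`r = 1, 2`) from the upper triangular pair
with fixed points `1`, `- M⁻²`. -/
def ColRoot : Prop :=
  ∀ (M : ℂˣ) (r : ℤ), (M : ℂ) ^ 4 ≠ 1 → r = 1 ∨ r = 2 →
    ∃ (k : G ℂ) (τ : ℂˣ),
      mer M (Tm (-((M : ℂ) ^ 2)⁻¹)) * mer M k ≠ mer M k * mer M (Tm (-((M : ℂ) ^ 2)⁻¹)) ∧
      (mer M (Tm (-((M : ℂ) ^ 2)⁻¹)) * mer M k) ^ (-r) * Tm (-((M : ℂ) ^ 2)⁻¹) * dg (M ^ r) =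
        Tm 1 * J * dg τ

/-- The block `B`. -/
def ZB : Prop :=
  ∀ (M : ℂˣ) (v₁ v₂ v₃ : List Mv) (g₁ g₂ g₃ : ℂˣ), (M : ℂ) ^ 12 ≠ 1 → Vok M v₁ g₁ →
    Vok M v₂ g₂ → Vok M v₃ g₃ →
    SP M (Bw v₁ v₂ v₃) [Tm 1, Tm (-((M : ℂ) ^ 2)⁻¹)] [Tm 1, Tm (-((M : ℂ) ^ 2)⁻¹)]
      (M ^ (-12 : ℤ) * g₁ * g₂ * g₃)

/-- An inner column of `B` which does not switch, from the pair of types `-`, `+` with fixed
points `x`, `y` to the pair with fixed points `x'`, `y'`. -/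
def ZStay : Prop :=
  ∀ (M : ℂˣ) (v : List Mv) (g : ℂˣ) (r : ℤ) (x y x' y' : ℂ), (M : ℂ) ^ 2 ≠ 1 → Vok M v g →
    y ≠ y' → x' - x = y' - y → y = x + r * (x - x') * (1 - (M : ℂ) ^ 2) →
    SP M (rot (v ++ tws (2 * r))) [Tm x * J, Tm y] [Tm x' * J, Tm y'] (g * M ^ (2 * r))

/-- The inner column of `B` which switches, `r = 3`. -/
def ZFlip : Prop :=
  ∀ (M : ℂˣ) (v : List Mv) (g : ℂˣ), (M : ℂ) ^ 12 ≠ 1 → Vok M v g →
    SP M (rot (v ++ tws 6)) [Tm (-((M : ℂ) ^ 2)⁻¹), Tm (-((M : ℂ) ^ 14)⁻¹) * J]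
      [Tm 1 * J, Tm ((M : ℂ) ^ 12)⁻¹] (-(g * M ^ (-6 : ℤ)))

/-- The block `P P†` (`r = 2`) or `G G†` (`r = 1`). -/
def ZPP : Prop :=
  ∀ (M : ℂˣ) (r : ℤ) (v v' : List Mv) (g g' : ℂˣ), (M : ℂ) ^ 4 ≠ 1 → r = 1 ∨ r = 2 →
    Vok M v g → Vok M v' g' →
    SP M (rot (v ++ tws (2 * r)) ++ ((.cup, 0) :: sh 1 (tws (-(2 * r)) ++ v') ++ [(.cap, 2)]))
      [Tm 1, Tm (-((M : ℂ) ^ 2)⁻¹)] [Tm 1, Tm (-((M : ℂ) ^ 2)⁻¹)] (g * g')

/-- The coil. -/
def ZF : Prop :=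
  ∀ (M : ℂˣ) (k : ℕ) (v : List Mv) (g : ℂˣ), (M : ℂ) ^ 4 ≠ 1 → Vok M v g →
    SP M (Fw k v) [Tm 1, Tm (-((M : ℂ) ^ 2)⁻¹)] [Tm 1, Tm (-((M : ℂ) ^ 2)⁻¹)]
      (M ^ (-(6 * k : ℤ)) * g)

/-- Roots of the polynomials `E_n`. -/
def EpRoot : Prop :=
  ∀ j' j : ℕ, 1 ≤ j' → j' < j → ∃ Y' Y'' : ℂ, Ep j' Y' = 0 ∧ Ep j Y'' = 0 ∧ Y' ≠ Y''

end AJM

end

section

/-!
# MP_d3fa71_gt, project Mut: assembly of block E
-/

namespace AJM

theorem tE_PathAppend : PathAppend := prf_PathAppend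
theorem tE_PathShift : PathShift := prf_PathShift
theorem tE_InvApp : InvApp := prf_InvApp tE_PathAppend
theorem tE_InvRot : InvRot := prf_InvRot tE_PathAppend tE_PathShift
theorem tE_InvRor : InvRor := prf_InvRor tE_PathAppend tE_PathShift
theorem tE_InvTws : InvTws := by
  intro R _ M n h k s s' τ hp
  obtain ⟨_, e⟩ := (prf_TwsEven R M n h k s s' τ).1 hp
  have key : ∀ x : G R, mer M ((mer M h * mer M k) ^ (-n) * x * dg M ^ n) =
      ((mer M h * mer M k) ^ n)⁻¹ * mer M x * (mer M h * mer M k) ^ n := by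
    intro x
    rw [← dg_zpow, mer_dg, mer_mul, zpow_neg, inv_inv]
  exact ⟨_, _, e, key h, key k⟩
theorem tE_InvCol : InvCol := prf_InvCol tE_InvRot tE_InvRor tE_InvTws
theorem tE_CRelMul : CRelMul := prf_CRelMul
theorem tE_RingM : RingM :=
  prf_RingM tE_InvApp tE_InvRot tE_InvCol tE_InvTws tE_CRelMul tE_PathAppend
theorem tE_PowS : PowS := prf_PowS
theorem tE_ColTr : ColTr := prf_ColTr tE_PowS
theorem tE_PairN : PairN := prf_PairN
theorem tE_KapEx : KapEx := prf_KapEx tE_PairN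
theorem tE_CRelConj : CRelConj := prf_CRelConj
theorem tE_DiagW : DiagW := prf_DiagW
theorem tE_KapCol : KapCol := prf_KapCol tE_CRelMul tE_KapEx tE_ColTr
theorem tE_SRing : SRing :=
  prf_SRing tE_KapCol tE_KapEx tE_PairN tE_CRelConj tE_DiagW tE_CRelMul tE_ColTr
theorem tE_ValEx : ValEx := prf_ValEx
theorem tE_SpV : SpV := prf_SpV
theorem tE_YYV : YYV := prf_YYV
theorem tE_KRelV : KRelV := prf_KRelV tE_SpV tE_YYV
theorem tE_IExpV : IExpV := prf_IExpV tE_KRelV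
theorem tE_IExpFin : IExpFin := prf_IExpFin
theorem tE_OExpV : OExpV := prf_OExpV tE_KRelV
theorem tE_E1V : E1V := prf_E1V tE_SRing tE_OExpV tE_YYV tE_IExpV tE_IExpFin
theorem tE_E1 : E1 := prf_E1 tE_RingM tE_ValEx tE_E1V
theorem tE_MChainMap : MChainMap := prf_MChainMap
theorem tE_MChainConj : MChainConj := prf_MChainConj tE_CRelConj
theorem tE_YYAlg : YYAlg := prf_YYAlg
theorem tE_KRelAlg : KRelAlg := prf_KRelAlg tE_YYAlg
theorem tE_IAlg : IAlg := prf_IAlg tE_ValEx tE_KRelV tE_YYV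
theorem tE_AlgM : AlgM := prf_AlgM tE_SRing tE_KRelAlg tE_YYAlg tE_IAlg
theorem tE_Alg : Alg := prf_Alg tE_RingM tE_MChainMap tE_AlgM
theorem tE_PairT : PairT := prf_PairT tE_PairN
theorem tE_ColUL1 : ColUL1 := prf_ColUL1 tE_PairT tE_CRelMul
theorem tE_ColUL2 : ColUL2 := prf_ColUL2 tE_PairT tE_CRelMul
theorem tE_InStep : InStep := prf_InStep tE_CRelMul
theorem tE_RAU : RAU := prf_RAU tE_InStep tE_PairT tE_CRelMul
theorem tE_NotSq : NotSq := prf_NotSq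
theorem tE_E2Alg : E2Alg := prf_E2Alg tE_NotSq
theorem tE_E2U : E2U := prf_E2U tE_ColUL1 tE_ColUL2 tE_RAU tE_E2Alg tE_CRelMul
theorem tE_E2M : E2M := by
  first
  | exact prf_E2M tE_E2U tE_MChainConj tE_ColUL1 tE_PairT tE_CRelMul
  | exact prf_E2M tE_E2U tE_MChainConj tE_ColUL1 tE_CRelMul
theorem tE_E2 : E2 := prf_E2 tE_RingM tE_E2M

end AJM

end

section

/-!
# MP_d3fa71_gt, project Mut: assembly of block H (annihilators of coloured Jones functions)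
-/

namespace AJH

theorem all_HSPull : HSPull := prf_HSPull prf_TamePull

theorem all_HSMul : HSMul := prf_HSMul all_HSPull prf_TameMul prf_TamePull

theorem all_HSInd : HSInd :=
  prf_HSInd all_HSMul all_HSPull prf_TameMul prf_TamePull prf_TameQuad prf_TamePow prf_TamePq
    prf_QBin

theorem all_HSPr : HSPr :=
  prf_HSPr all_HSMul all_HSPull all_HSInd prf_TameMul prf_TamePull prf_TameQuad prf_TamePow
    prf_TamePq prf_QBin

theorem all_HSAnn : HSAnn := prf_HSAnn (prf_Count prf_LinDep prf_LPDim) prf_SumL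

theorem all_HSSeq : HSSeq := prf_HSSeq all_HSAnn

theorem all_HSEnt : HSEnt :=
  prf_HSEnt all_HSMul all_HSPull all_HSInd all_HSPr prf_TameQuad prf_TamePow prf_TamePq
    prf_TamePull prf_TameMul

theorem all_GoodVz : GoodVz :=
  prf_GoodVz (prf_GoodCup all_HSEnt all_HSMul prf_TameQuad)
    (prf_GoodCap all_HSEnt all_HSMul prf_TameQuad) (prf_GoodNeg all_HSEnt all_HSMul prf_TameQuad)
    (prf_GoodPos all_HSEnt all_HSMul prf_TameQuad) all_HSEnt prf_TameQuad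

theorem all_VzOpw : VzOpw :=
  prf_VzOpw (prf_BEnt prf_EPow) (prf_BiEnt prf_EPow prf_RInv) prf_ActPos

theorem all_JKill : JKill :=
  prf_JKill all_GoodVz all_VzOpw all_HSSeq all_HSMul prf_TameQuad prf_TamePow

end AJH

end

section

/-!
# MP_d3fa71_gt, project Mut, item AbSum
-/

set_option autoImplicit false

open Finset

namespace AJM

theorem L_AbSum_qadd (hQ : QIne) (i j : ℕ) :
    qi (i + j) = tq ^ (2 * (j : ℤ)) * qi i + tq ^ (-(2 * (i : ℤ))) * qi j := by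
  have e1 : tq ^ (2 * (((i + j : ℕ)) : ℤ)) = tq ^ (2 * (i : ℤ)) * tq ^ (2 * (j : ℤ)) := by
    rw [← zpow_add₀ hQ.1]; congr 1; push_cast; ring
  have e2 : tq ^ (-(2 * (((i + j : ℕ)) : ℤ))) = tq ^ (-(2 * (i : ℤ))) * tq ^ (-(2 * (j : ℤ))) := by
    rw [← zpow_add₀ hQ.1]; congr 1; push_cast; ring
  unfold qi
  rw [e1, e2]
  ring

theorem L_AbSum_qzero : qi 0 = 0 := by
  unfold qi
  simp

theorem L_AbSum_qmul (hQ : QIne) (m : ℕ) :
    tq ^ (2 * (m : ℤ)) - tq ^ (-(2 * (m : ℤ))) = sd * qi m := by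
  have h : sd ≠ 0 := hQ.2.1
  unfold qi
  show _ = sd * (_ / sd)
  rw [mul_div_cancel₀ _ h]

theorem L_AbSum_bk (hQ : QIne) (j : ℕ) :
    bk (j + 1) * qi (j + 1) = -(bk j * sd * tq ^ (-(2 * (j : ℤ)))) := by
  have e1 : tq ^ (-((((j + 1 : ℕ)) : ℤ) * ((((j + 1 : ℕ)) : ℤ) - 1))) =
      tq ^ (-((j : ℤ) * ((j : ℤ) - 1))) * tq ^ (-(2 * (j : ℤ))) := by
    rw [← zpow_add₀ hQ.1]; congr 1; push_cast; ring
  unfold bk
  rw [e1, Finset.prod_range_succ, div_mul_eq_mul_div, mul_div_mul_right _ _ (hQ.2.2.1 j)]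
  ring

theorem prf_AbSum (hQIne : QIne) (hCkRec : CkRec) : AbSum := by
  -- the recursion
  have hrec : ∀ m : ℕ, qi (m + 1) * ∑ p ∈ antidiagonal (m + 1), ck p.1 * bk p.2 =
      sd * (sd * qi m) * ∑ p ∈ antidiagonal m, ck p.1 * bk p.2 := by
    intro m
    have h1 : qi (m + 1) * ∑ p ∈ antidiagonal (m + 1), ck p.1 * bk p.2 =
        ∑ p ∈ antidiagonal (m + 1), ck p.1 * qi p.1 * (bk p.2 * tq ^ (2 * (p.2 : ℤ))) +
        ∑ p ∈ antidiagonal (m + 1), ck p.1 * tq ^ (-(2 * (p.1 : ℤ))) * (bk p.2 * qi p.2) := by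
      rw [Finset.mul_sum, ← Finset.sum_add_distrib]
      refine Finset.sum_congr rfl fun p hp => ?_
      rw [Finset.HasAntidiagonal.mem_antidiagonal] at hp
      rw [← hp, L_AbSum_qadd hQIne]
      ring
    have h2 : ∑ p ∈ antidiagonal (m + 1), ck p.1 * qi p.1 * (bk p.2 * tq ^ (2 * (p.2 : ℤ))) =
        sd * tq ^ (2 * (m : ℤ)) * ∑ p ∈ antidiagonal m, ck p.1 * bk p.2 := by
      rw [Finset.Nat.sum_antidiagonal_succ, L_AbSum_qzero, mul_zero, zero_mul, zero_add,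
        Finset.mul_sum]
      refine Finset.sum_congr rfl fun p hp => ?_
      rw [Finset.HasAntidiagonal.mem_antidiagonal] at hp
      rw [hCkRec.2, ← hp]
      have e1 : tq ^ (2 * (((p.1 + p.2 : ℕ)) : ℤ)) = tq ^ (2 * (p.1 : ℤ)) * tq ^ (2 * (p.2 : ℤ)) := by
        rw [← zpow_add₀ hQIne.1]; congr 1; push_cast; ring
      rw [e1]
      ring
    have h3 : ∑ p ∈ antidiagonal (m + 1), ck p.1 * tq ^ (-(2 * (p.1 : ℤ))) * (bk p.2 * qi p.2) =
        -(sd * tq ^ (-(2 * (m : ℤ))) * ∑ p ∈ antidiagonal m, ck p.1 * bk p.2) := by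
      rw [Finset.Nat.sum_antidiagonal_succ', L_AbSum_qzero, mul_zero, mul_zero, zero_add,
        Finset.mul_sum, ← Finset.sum_neg_distrib]
      refine Finset.sum_congr rfl fun p hp => ?_
      rw [Finset.HasAntidiagonal.mem_antidiagonal] at hp
      rw [L_AbSum_bk hQIne, ← hp]
      have e1 : tq ^ (-(2 * (((p.1 + p.2 : ℕ)) : ℤ))) =
          tq ^ (-(2 * (p.1 : ℤ))) * tq ^ (-(2 * (p.2 : ℤ))) := by
        rw [← zpow_add₀ hQIne.1]; congr 1; push_cast; ring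
      rw [e1]
      ring
    rw [h1, h2, h3, ← L_AbSum_qmul hQIne]
    ring
  have hz : ∀ m : ℕ, ∑ p ∈ antidiagonal (m + 1), ck p.1 * bk p.2 = 0 := by
    intro m
    induction m with
    | zero =>
      have h := hrec 0
      rw [L_AbSum_qzero, mul_zero, mul_zero, zero_mul] at h
      exact (mul_eq_zero.1 h).resolve_left (hQIne.2.2.1 0)
    | succ m ih =>
      have h := hrec (m + 1)
      rw [ih, mul_zero] at h
      exact (mul_eq_zero.1 h).resolve_left (hQIne.2.2.1 (m + 1))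
  intro m hm
  obtain ⟨k, rfl⟩ : ∃ k, m = k + 1 := ⟨m - 1, by omega⟩
  rw [← hz k, Finset.Nat.sum_antidiagonal_eq_sum_range_succ (fun i j => ck i * bk j)]

end AJM

end

section

/-!
# MP_d3fa71_gt, project Mut, item BInt
-/

open Matrix
open scoped Kronecker

namespace AJM

theorem L_BInt_swap {n : ℕ} (A B : Matrix (Fin n) (Fin n) (RatFunc ℚ)) :
    (A ⊗ₖ B).submatrix Prod.swap Prod.swap = B ⊗ₖ A := by
  ext p q
  simp only [submatrix_apply, kroneckerMap_apply, Prod.fst_swap, Prod.snd_swap]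
  exact mul_comm _ _

theorem L_BInt_key {n : ℕ} {X X' : Matrix (Fin n × Fin n) (Fin n × Fin n) (RatFunc ℚ)}
    (h : Rm n * X = X' * Rm n) (hX : X'.submatrix Prod.swap Prod.swap = X) :
    Bm n * X = X * Bm n := by
  have h1 : (Rm n * X).submatrix Prod.swap id = Bm n * X := by
    rw [submatrix_mul (Rm n) X Prod.swap id id Function.bijective_id, submatrix_id_id]
    rfl
  have h2 : (X' * Rm n).submatrix Prod.swap id = X * Bm n := by
    rw [submatrix_mul X' (Rm n) Prod.swap Prod.swap id Prod.swap_bijective, hX]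
    have e : (Rm n).submatrix Prod.swap id = Bm n := rfl
    rw [e]
  rw [← h1, h, h2]

theorem prf_BInt (hRInt : RInt) : BInt := by
  intro n
  obtain ⟨h1, h2, h3⟩ := hRInt n
  refine ⟨L_BInt_key h1 ?_, L_BInt_key h2 ?_, L_BInt_key h3 ?_⟩
  · rw [submatrix_add, Pi.add_apply, Pi.add_apply, L_BInt_swap, L_BInt_swap]
    rfl
  · rw [submatrix_add, Pi.add_apply, Pi.add_apply, L_BInt_swap, L_BInt_swap]
    rfl
  · unfold DK
    exact L_BInt_swap _ _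

end AJM

end

section

/-!
# MP_d3fa71_gt, project Mut, item BInvEx: the explicit inverse of the braiding
-/

set_option autoImplicit false

namespace AJM

theorem L_BInvEx_Rm (n : ℕ) : Rm n = Dm n * Qm n := rfl

theorem L_BInvEx_mul (hQInv : QInv) (n : ℕ) :
    Bm n * (Qi n * Di n).submatrix id Prod.swap = 1 := by
  obtain ⟨h1, h2⟩ := hQInv n
  have h3 : Rm n * (Qi n * Di n) = 1 := by
    rw [L_BInvEx_Rm, Matrix.mul_assoc, ← Matrix.mul_assoc (Qm n), h1, Matrix.one_mul, h2]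
  unfold Bm
  rw [← Matrix.submatrix_mul (Rm n) (Qi n * Di n) Prod.swap id Prod.swap Function.bijective_id,
    h3]
  exact Matrix.submatrix_one Prod.swap Prod.swap_injective

theorem prf_BInvEx (hQInv : QInv) : BInvEx := by
  intro n
  have h := L_BInvEx_mul hQInv n
  have h1 : (Bm n)⁻¹ = (Qi n * Di n).submatrix id Prod.swap := Matrix.inv_eq_right_inv h
  refine ⟨h1, ?_, ?_⟩
  · rw [h1]
    exact h
  · rw [h1]
    exact mul_eq_one_comm.mp h

end AJM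

end

section

/-!
# MP_d3fa71_gt, project Mut, block Q: the inverse braiding commutes with the quantum group
-/

set_option autoImplicit false

open Matrix
open scoped Kronecker

namespace AJM

theorem L_BiInt_inv {m F : Type} [Fintype m] [DecidableEq m] [Field F] (A X : Matrix m m F)
    (h : A * X = X * A) : A⁻¹ * X = X * A⁻¹ := by
  by_cases hA : IsUnit A.det
  · calc A⁻¹ * X = A⁻¹ * (X * A) * A⁻¹ := by
          rw [Matrix.mul_assoc A⁻¹, Matrix.mul_assoc X, Matrix.mul_nonsing_inv A hA,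
            Matrix.mul_one]
      _ = A⁻¹ * (A * X) * A⁻¹ := by rw [h]
      _ = X * A⁻¹ := by
          rw [← Matrix.mul_assoc A⁻¹ A, Matrix.nonsing_inv_mul A hA, Matrix.one_mul]
  · rw [Matrix.nonsing_inv_apply_not_isUnit A hA, Matrix.zero_mul, Matrix.mul_zero]

theorem prf_BiInt (hBInt : BInt) : BiInt := by
  intro n
  obtain ⟨h1, h2, h3⟩ := hBInt n
  exact ⟨L_BiInt_inv _ _ h1, L_BiInt_inv _ _ h2, L_BiInt_inv _ _ h3⟩

end AJM

end

section

set_option autoImplicit false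

/-!
# Component types of the blocks
-/

namespace AJM

theorem prf_CBlocks (hCTws : CTws) (hCComp : CComp) (hCRot : CRot) : CBlocks := by
  intro v v' v'' hv hv' hv''
  have t6 : C0 (tws 6) := (hCTws 3).1
  have t4 : C0 (tws 4) := (hCTws 2).1
  have t2 : C0 (tws 2) := (hCTws 1).1
  have t8 : C0 (tws (-8)) := by
    have h := (hCTws (-4)).1
    have e : (2 * (-4) : ℤ) = -8 := by norm_num
    rwa [e] at h
  have t6' : C0 (tws (-6)) := by
    have h := (hCTws (-3)).1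
    have e : (2 * (-3) : ℤ) = -6 := by norm_num
    rwa [e] at h
  have t4' : C0 (tws (-4)) := by
    have h := (hCTws (-2)).1
    have e : (2 * (-2) : ℤ) = -4 := by norm_num
    rwa [e] at h
  have t2' : C0 (tws (-2)) := by
    have h := (hCTws (-1)).1
    have e : (2 * (-1) : ℤ) = -2 := by norm_num
    rwa [e] at h
  have c00 : ∀ {w w' : List Mv}, C0 w → C0 w' → C0 (w ++ w') := fun {w w'} => (hCComp w w').1
  have c0I : ∀ {w w' : List Mv}, C0 w → CI w' → CI (w ++ w') := fun {w w'} => (hCComp w w').2.1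
  have cI0 : ∀ {w w' : List Mv}, CI w → C0 w' → CI (w ++ w') :=
    fun {w w'} => (hCComp w w').2.2.1
  have r0 : ∀ {w : List Mv}, C0 w → CI (rot w) := fun {w} h => ((hCRot w).1 h).1
  have rI : ∀ {w : List Mv}, CI w → C0 (rot w) := fun {w} h => ((hCRot w).2.1 h).1
  have s0 : ∀ {w : List Mv}, C0 w → CI (rrt w) := fun {w} h => ((hCRot w).1 h).2
  have sI : ∀ {w : List Mv}, CI w → C0 (rrt w) := fun {w} h => ((hCRot w).2.1 h).2
  have hcol : CI (Col (-4)) := r0 (hCTws (-4)).1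
  refine ⟨?_, ?_, ?_, ?_, ?_⟩
  · exact c00 (rI (c0I (c00 (c00 (rI (cI0 hv t6)) (rI (cI0 hv' t4))) (rI (cI0 hv'' t8))) hcol)) t6'
  · exact rI (cI0 hv t4)
  · exact sI (w := tws (-4) ++ v) (c0I t4' hv)
  · exact rI (cI0 hv t2)
  · exact s0 (w := tws (-2)) t2'

end AJM

end

section

set_option autoImplicit false

/-!
# MP_d3fa71_gt, project Mut, block Q: types of concatenations
-/

namespace AJM

theorem prf_CComp (hCPathAppend : CPathAppend) : CComp := by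
  intro w w'
  refine ⟨?_, ?_, ?_, ?_, ?_⟩
  · intro h h' a b s s' L hp
    obtain ⟨t, L₁, L₂, h1, h2, rfl⟩ := (hCPathAppend _ _ _ _ _).1 hp
    obtain ⟨rfl, k1⟩ := h a b s t L₁ h1
    obtain ⟨rfl, k2⟩ := h' a b s s' L₂ h2
    exact ⟨rfl, fun x hx => (List.mem_append.1 hx).elim (k1 x) (k2 x)⟩
  · intro h h' a b s s' L hp
    obtain ⟨t, L₁, L₂, h1, h2, rfl⟩ := (hCPathAppend _ _ _ _ _).1 hp
    obtain ⟨rfl, k1⟩ := h a b s t L₁ h1
    obtain ⟨rfl, c, rfl, k2⟩ := h' a b s s' L₂ h2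
    refine ⟨rfl, c, rfl, fun x hx => ?_⟩
    rcases List.mem_append.1 hx with hx | hx
    · rcases k1 x hx with rfl | rfl
      · exact Or.inl rfl
      · exact Or.inl rfl
    · exact k2 x hx
  · intro h h' a b s s' L hp
    obtain ⟨t, L₁, L₂, h1, h2, rfl⟩ := (hCPathAppend _ _ _ _ _).1 hp
    obtain ⟨rfl, c, rfl, k1⟩ := h a b s t L₁ h1
    obtain ⟨rfl, k2⟩ := h' c c s s' L₂ h2
    refine ⟨rfl, c, rfl, fun x hx => ?_⟩
    rcases List.mem_append.1 hx with hx | hx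
    · exact k1 x hx
    · rcases k2 x hx with rfl | rfl
      · exact Or.inr rfl
      · exact Or.inr rfl
  · intro h h' a b s s' L hp
    obtain ⟨t, L₁, L₂, h1, h2, rfl⟩ := (hCPathAppend _ _ _ _ _).1 hp
    obtain ⟨rfl, k1⟩ := h a b s t L₁ h1
    obtain ⟨rfl, k2⟩ := h' b a s s' L₂ h2
    exact ⟨rfl, fun x hx => (List.mem_append.1 hx).elim (k1 x) (fun hx => (k2 x hx).symm)⟩
  · intro h h' a b s s' L hp
    obtain ⟨t, L₁, L₂, h1, h2, rfl⟩ := (hCPathAppend _ _ _ _ _).1 hp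
    obtain ⟨rfl, k1⟩ := h a b s t L₁ h1
    obtain ⟨rfl, k2⟩ := h' b a s s' L₂ h2
    exact ⟨rfl, fun x hx => (List.mem_append.1 hx).elim (k1 x) (fun hx => (k2 x hx).symm)⟩

end AJM

end

section

/-!
# MP_d3fa71_gt, project Mut, block Q: components of the coil
-/

set_option autoImplicit false
set_option linter.unusedVariables false

namespace AJM

theorem L_CFw_cup0 {s s' L : List ℕ} (h : CStep (.cup, 0) s s' L) :
    ∃ c, s' = c :: c :: s ∧ L = [c] := by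
  cases h
  exact ⟨_, rfl, rfl⟩

theorem L_CFw_cap0 {x y : ℕ} {s s' L : List ℕ} (h : CStep (.cap, 0) (x :: y :: s) s' L) :
    x = y ∧ s' = s ∧ L = [] := by
  cases h
  exact ⟨rfl, rfl, rfl⟩

theorem L_CFw_neg0 {x y : ℕ} {s s' L : List ℕ} (h : CStep (.neg, 0) (x :: y :: s) s' L) :
    s' = y :: x :: s ∧ L = [] := by
  cases h
  exact ⟨rfl, rfl⟩

theorem L_CFw_sh {k : Kd} {i x : ℕ} {s s' L : List ℕ} (h : CStep (k, i + 1) (x :: s) s' L) :
    ∃ s₁, s' = x :: s₁ ∧ CStep (k, i) s s₁ L := by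
  cases h with
  | sh _ h => exact ⟨_, rfl, h⟩

theorem L_CFw_neg1 {x y z : ℕ} {s s' L : List ℕ} (h : CStep (.neg, 1) (x :: y :: z :: s) s' L) :
    s' = x :: z :: y :: s ∧ L = [] := by
  obtain ⟨s₁, rfl, h1⟩ := L_CFw_sh h
  obtain ⟨rfl, rfl⟩ := L_CFw_neg0 h1
  exact ⟨rfl, rfl⟩

theorem L_CFw_cons {m : Mv} {w : List Mv} {s s'' L : List ℕ} (h : CPath (m :: w) s s'' L) :
    ∃ s' L₁ L₂, CStep m s s' L₁ ∧ CPath w s' s'' L₂ ∧ L = L₁ ++ L₂ := by
  cases h with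
  | cons h1 h2 => exact ⟨_, _, _, h1, h2, rfl⟩

theorem L_CFw_nil {s s' L : List ℕ} (h : CPath [] s s' L) : s' = s ∧ L = [] := by
  cases h
  exact ⟨rfl, rfl⟩

theorem L_CFw_wind {x y z : ℕ} {s s' L : List ℕ} (h : CPath Wind (x :: y :: z :: s) s' L) :
    s' = x :: y :: z :: s ∧ L = [] := by
  obtain ⟨s₁, L₁, L₁', h1, h1', rfl⟩ := L_CFw_cons h
  obtain ⟨rfl, rfl⟩ := L_CFw_neg0 h1
  obtain ⟨s₂, L₂, L₂', h2, h2', rfl⟩ := L_CFw_cons h1'
  obtain ⟨rfl, rfl⟩ := L_CFw_neg1 h2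
  obtain ⟨s₃, L₃, L₃', h3, h3', rfl⟩ := L_CFw_cons h2'
  obtain ⟨rfl, rfl⟩ := L_CFw_neg1 h3
  obtain ⟨s₄, L₄, L₄', h4, h4', rfl⟩ := L_CFw_cons h3'
  obtain ⟨rfl, rfl⟩ := L_CFw_neg0 h4
  obtain ⟨rfl, rfl⟩ := L_CFw_nil h4'
  exact ⟨rfl, rfl⟩

theorem L_CFw_rep (hCPathAppend : CPathAppend) (n : ℕ) {x y z : ℕ} {s s' L : List ℕ}
    (h : CPath (rep n Wind) (x :: y :: z :: s) s' L) : s' = x :: y :: z :: s ∧ L = [] := by
  induction n generalizing s' L with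
  | zero => exact L_CFw_nil h
  | succ n ih =>
    have e : rep (n + 1) Wind = Wind ++ rep n Wind := rfl
    rw [e] at h
    obtain ⟨s₁, L₁, L₂, h1, h2, rfl⟩ := (hCPathAppend _ _ _ _ _).1 h
    obtain ⟨rfl, rfl⟩ := L_CFw_wind h1
    obtain ⟨rfl, rfl⟩ := ih h2
    exact ⟨rfl, rfl⟩

theorem prf_CFw (hCPathAppend : CPathAppend) (hCPathSh : CPathSh) (hCTws : CTws)
    (hCComp : CComp) : CFw := by
  intro k v hv a b s s' L h
  have e : Fw k v = (.cup, 0) :: ((sh 1 (v ++ rep (2 * k) Wind) ++ [(.cap, 0)]) ++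
      tws (-2 * k)) := rfl
  rw [e] at h
  obtain ⟨s₁, L₁, L₁', h1, h1', rfl⟩ := L_CFw_cons h
  obtain ⟨c, rfl, rfl⟩ := L_CFw_cup0 h1
  obtain ⟨s₂, L₂, L₂', h2, h2', rfl⟩ := (hCPathAppend _ _ _ _ _).1 h1'
  obtain ⟨s₃, L₃, L₃', h3, h3', rfl⟩ := (hCPathAppend _ _ _ _ _).1 h2
  obtain ⟨s₄, rfl, h4⟩ := (hCPathSh (v ++ rep (2 * k) Wind) [c] _ _ _).1 h3
  obtain ⟨s₅, L₅, L₅', h5, h5', rfl⟩ := (hCPathAppend _ _ _ _ _).1 h4
  obtain ⟨rfl, r, rfl, hL⟩ := hv _ _ _ _ _ h5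
  obtain ⟨rfl, rfl⟩ := L_CFw_rep hCPathAppend _ h5'
  obtain ⟨s₆, L₆, L₆', h6, h6', rfl⟩ := L_CFw_cons h3'
  obtain ⟨rfl, rfl⟩ := L_CFw_nil h6'
  obtain ⟨rfl, rfl, rfl⟩ := L_CFw_cap0 h6
  rw [show (-2 : ℤ) * k = 2 * (-(k : ℤ)) by ring] at h2'
  obtain ⟨rfl, hL'⟩ := (hCTws _).1 _ _ _ _ _ h2'
  refine ⟨rfl, fun x hx => ?_⟩
  simp only [List.mem_append, List.mem_singleton, List.append_nil] at hx
  rcases hx with hx | hx | hx
  · exact Or.inl hx
  · rcases hL x hx with h7 | h7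
    · exact Or.inl h7
    · exact Or.inl h7
  · exact hL' x hx

end AJM

end

section

/-!
# MP_d3fa71_gt, project Mut: item CNcl
-/

namespace AJM

theorem L_CNcl_cup {s s' L : List ℕ} (h : CStep (.cup, 0) s s' L) :
    ∃ a, s' = a :: a :: s ∧ L = [a] := by
  cases h with
  | cup a s => exact ⟨a, rfl, rfl⟩

theorem L_CNcl_cap {s s' L : List ℕ} (h : CStep (.cap, 0) s s' L) :
    ∃ a, s = a :: a :: s' ∧ L = [] := by
  cases h with
  | cap a s => exact ⟨a, rfl, rfl⟩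

theorem L_CNcl_sh {k : Kd} {i : ℕ} {s s' L : List ℕ} (h : CStep (k, i + 1) s s' L) :
    ∃ (x : ℕ) (s0 s0' : List ℕ), s = x :: s0 ∧ s' = x :: s0' ∧ CStep (k, i) s0 s0' L := by
  cases h with
  | sh x h => exact ⟨x, _, _, rfl, rfl, h⟩

theorem L_CNcl_nil {s s' L : List ℕ} (h : CPath [] s s' L) : s' = s ∧ L = [] := by
  cases h with
  | nil s => exact ⟨rfl, rfl⟩

theorem L_CNcl_cons {m : Mv} {w : List Mv} {s s' L : List ℕ} (h : CPath (m :: w) s s' L) :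
    ∃ (s1 L1 L2 : List ℕ), CStep m s s1 L1 ∧ CPath w s1 s' L2 ∧ L = L1 ++ L2 := by
  cases h with
  | cons h1 h2 => exact ⟨_, _, _, h1, h2, rfl⟩

theorem prf_CNcl (hCPathAppend : CPathAppend) : CNcl := by
  intro w hw
  refine ⟨by simp [Ncl], ?_⟩
  intro L h
  unfold Ncl at h
  obtain ⟨s', L₁, L₂, h1, h2, rfl⟩ := (hCPathAppend _ _ _ _ _).1 h
  obtain ⟨s1, L3, L4, h3, h4, rfl⟩ := (hCPathAppend _ _ _ _ _).1 h1
  obtain ⟨t1, L5, L6, h5, h6, rfl⟩ := L_CNcl_cons h3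
  obtain ⟨x, rfl, rfl⟩ := L_CNcl_cup h5
  obtain ⟨t2, L7, L8, h7, h8, rfl⟩ := L_CNcl_cons h6
  obtain ⟨x', t3, t4, e1, rfl, h9⟩ := L_CNcl_sh h7
  obtain ⟨y, rfl, rfl⟩ := L_CNcl_cup h9
  obtain ⟨rfl, rfl⟩ := L_CNcl_nil h8
  obtain ⟨rfl, rfl⟩ : x' = x ∧ t3 = [x] := by
    have := List.cons.inj e1
    exact ⟨this.1.symm, this.2.symm⟩
  obtain ⟨rfl, c, rfl, h10⟩ := hw _ _ _ _ _ h4
  obtain ⟨t5, L9, L10, h11, h12, rfl⟩ := L_CNcl_cons h2
  obtain ⟨z, t6, t7, e2, rfl, h13⟩ := L_CNcl_sh h11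
  obtain ⟨a, e3, rfl⟩ := L_CNcl_cap h13
  have e4 := (List.cons.inj e2).2
  rw [e3] at e4
  have e5 : c = a := (List.cons.inj e4).1
  have e6 : y = a := (List.cons.inj (List.cons.inj e4).2).1
  obtain ⟨t8, L11, L12, h14, h15, rfl⟩ := L_CNcl_cons h12
  obtain ⟨b, e7, rfl⟩ := L_CNcl_cap h14
  obtain ⟨-, rfl⟩ := L_CNcl_nil h15
  refine ⟨y, ?_⟩
  intro v hv
  simp only [List.mem_append, List.mem_singleton, List.not_mem_nil, or_false] at hv
  rcases hv with (hv | hv) | hv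
  · exact hv
  · exact hv
  · rcases h10 v hv with h | h
    · exact h
    · rw [h, e5, e6]

end AJM

end

section

set_option autoImplicit false

/-!
# MP_d3fa71_gt, project Mut, block Q: labellings of a concatenation
-/

namespace AJM

theorem prf_CPathAppend : CPathAppend := by
  intro w₁ w₂
  induction w₁ with
  | nil =>
    intro s s'' L
    constructor
    · intro h
      exact ⟨s, [], L, CPath.nil s, h, rfl⟩
    · rintro ⟨s', L₁, L₂, h1, h2, rfl⟩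
      cases h1
      exact h2
  | cons m w ih =>
    intro s s'' L
    constructor
    · intro h
      rw [List.cons_append] at h
      cases h with
      | cons hm hw =>
        obtain ⟨s', L₁, L₂, h1, h2, h3⟩ := (ih _ _ _).1 hw
        refine ⟨s', _, L₂, CPath.cons hm h1, h2, ?_⟩
        rw [h3, List.append_assoc]
    · rintro ⟨s', L₁, L₂, h1, h2, rfl⟩
      cases h1 with
      | cons hm hw =>
        rw [List.append_assoc, List.cons_append]
        exact CPath.cons hm ((ih _ _ _).2 ⟨_, _, _, hw, h2, rfl⟩)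

end AJM

end

section

/-!
# MP_d3fa71_gt, project Mut, block Q: shifted words and labellings
-/

set_option autoImplicit false

namespace AJM

theorem L_CPathSh_step (k : Kd) (i : ℕ) : ∀ (p s s₁ L : List ℕ),
    CStep (k, i + p.length) (p ++ s) s₁ L ↔ ∃ s', s₁ = p ++ s' ∧ CStep (k, i) s s' L
  | [], s, s₁, L => by
    constructor
    · intro h
      exact ⟨s₁, rfl, h⟩
    · rintro ⟨s', rfl, h⟩
      exact h
  | x :: p, s, s₁, L => by
    have ih := L_CPathSh_step k i p s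
    constructor
    · intro h
      have h' : CStep (k, (i + p.length) + 1) (x :: (p ++ s)) s₁ L := h
      cases h' with
      | sh _ h1 =>
        obtain ⟨s', rfl, h2⟩ := (ih _ _).1 h1
        exact ⟨s', rfl, h2⟩
    · rintro ⟨s', rfl, h⟩
      exact CStep.sh x ((ih _ _).2 ⟨s', rfl, h⟩)

theorem prf_CPathSh : CPathSh := by
  intro w
  induction w with
  | nil =>
    intro p s s₁ L
    constructor
    · intro h
      cases h
      exact ⟨s, rfl, CPath.nil s⟩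
    · rintro ⟨s', rfl, h⟩
      cases h
      exact CPath.nil _
  | cons m w ih =>
    obtain ⟨k, i⟩ := m
    intro p s s₁ L
    constructor
    · intro h
      have h' : CPath ((k, i + p.length) :: sh p.length w) (p ++ s) s₁ L := h
      cases h' with
      | cons h1 h2 =>
        obtain ⟨s', rfl, h3⟩ := (L_CPathSh_step k i p s _ _).1 h1
        obtain ⟨s'', rfl, h4⟩ := (ih p s' _ _).1 h2
        exact ⟨s'', rfl, CPath.cons h3 h4⟩
    · rintro ⟨s', rfl, h⟩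
      cases h with
      | cons h1 h2 =>
        have h3 := (L_CPathSh_step k i p s _ _).2 ⟨_, rfl, h1⟩
        have h4 := (ih p _ _ _).2 ⟨_, rfl, h2⟩
        exact CPath.cons (m := (k, i + p.length)) h3 h4

end AJM

end

section

/-!
# MP_d3fa71_gt, project Mut, item CRot
-/

namespace AJM

theorem L_CRot_cup0 {s s' L : List ℕ} (h : CStep (.cup, 0) s s' L) :
    ∃ c, s' = c :: c :: s ∧ L = [c] := by
  cases h with
  | cup a s => exact ⟨a, rfl, rfl⟩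

theorem L_CRot_cap0 {s s' L : List ℕ} (h : CStep (.cap, 0) s s' L) :
    ∃ c, s = c :: c :: s' ∧ L = [] := by
  cases h with
  | cap a s => exact ⟨a, rfl, rfl⟩

theorem L_CRot_sh {k : Kd} {i : ℕ} {s s' L : List ℕ} (h : CStep (k, i + 1) s s' L) :
    ∃ x t t', s = x :: t ∧ s' = x :: t' ∧ CStep (k, i) t t' L := by
  cases h with
  | sh x h => exact ⟨x, _, _, rfl, rfl, h⟩

theorem L_CRot_one {m : Mv} {s s' L : List ℕ} (h : CPath [m] s s' L) : CStep m s s' L := by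
  cases h with
  | cons h1 h2 =>
    cases h2
    simpa using h1

theorem L_CRot_rot (hA : CPathAppend) (hS : CPathSh) {w : List Mv} {a b : ℕ} {s s' L : List ℕ}
    (h : CPath (rot w) (a :: b :: s) s' L) :
    ∃ c t L4, CPath w (b :: c :: c :: s) (a :: t) L4 ∧ s' = t ∧ L = c :: L4 := by
  have h1 : CPath (((.cup, 2) :: sh 1 w) ++ [(.cap, 0)]) (a :: b :: s) s' L := h
  obtain ⟨s1, L1, L2, h2, h3, rfl⟩ := (hA _ _ _ _ _).1 h1
  cases h2 with
  | cons h4 h5 =>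
    obtain ⟨x, t, t', e1, e2, h6⟩ := L_CRot_sh (i := 1) h4
    obtain ⟨x', t1, t1', e3, e4, h7⟩ := L_CRot_sh (i := 0) h6
    obtain ⟨c, e5, e6⟩ := L_CRot_cup0 h7
    simp only [List.cons.injEq] at e1
    obtain ⟨rfl, rfl⟩ := e1
    simp only [List.cons.injEq] at e3
    obtain ⟨rfl, rfl⟩ := e3
    subst e5 e4 e2 e6
    obtain ⟨s3, e7, h8⟩ := (hS w [a] _ _ _).1 h5
    obtain ⟨d, e8, e9⟩ := L_CRot_cap0 (L_CRot_one h3)
    rw [e7] at e8
    simp only [List.cons_append, List.nil_append, List.cons.injEq] at e8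
    obtain ⟨rfl, rfl⟩ := e8
    subst e9
    exact ⟨c, s', _, h8, rfl, by simp⟩

theorem L_CRot_rrt (hA : CPathAppend) (hS : CPathSh) {w : List Mv} {a b : ℕ} {s s' L : List ℕ}
    (h : CPath (rrt w) (a :: b :: s) s' L) :
    ∃ c d x t L4, CPath w (c :: a :: b :: s) (x :: d :: d :: t) L4 ∧ s' = c :: x :: t ∧
      L = c :: L4 := by
  have h1 : CPath (((.cup, 0) :: sh 1 w) ++ [(.cap, 2)]) (a :: b :: s) s' L := h
  obtain ⟨s1, L1, L2, h2, h3, rfl⟩ := (hA _ _ _ _ _).1 h1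
  cases h2 with
  | cons h4 h5 =>
    obtain ⟨c, e5, e6⟩ := L_CRot_cup0 h4
    subst e5 e6
    obtain ⟨s3, e7, h8⟩ := (hS w [c] _ _ _).1 h5
    obtain ⟨x, t, t', e1, e2, h6⟩ := L_CRot_sh (i := 1) (L_CRot_one h3)
    obtain ⟨x', t1, t1', e3, e4, h7⟩ := L_CRot_sh (i := 0) h6
    obtain ⟨d, e8, e9⟩ := L_CRot_cap0 h7
    rw [e7] at e1
    simp only [List.cons_append, List.nil_append, List.cons.injEq] at e1
    obtain ⟨rfl, rfl⟩ := e1
    subst e3 e8 e9 e4 e2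
    exact ⟨c, d, x', t1', _, h8, rfl, by simp⟩

theorem prf_CRot (hCPathAppend : CPathAppend) (hCPathSh : CPathSh) : CRot := by
  intro w
  refine ⟨fun hw => ⟨?_, ?_⟩, fun hw => ⟨?_, ?_⟩, fun hw => ⟨?_, ?_⟩⟩
  · intro a b s s' L h
    obtain ⟨c, t, L4, h1, rfl, rfl⟩ := L_CRot_rot hCPathAppend hCPathSh h
    obtain ⟨e1, h2⟩ := hw _ _ _ _ _ h1
    simp only [List.cons.injEq] at e1
    obtain ⟨rfl, rfl⟩ := e1
    refine ⟨rfl, c, rfl, ?_⟩
    intro x hx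
    rcases List.mem_cons.1 hx with hx | hx
    · exact Or.inr hx
    · exact h2 x hx
  · intro a b s s' L h
    obtain ⟨c, d, y, t, L4, h1, rfl, rfl⟩ := L_CRot_rrt hCPathAppend hCPathSh h
    obtain ⟨e1, h2⟩ := hw _ _ _ _ _ h1
    simp only [List.cons.injEq] at e1
    obtain ⟨rfl, rfl, rfl, rfl⟩ := e1
    refine ⟨rfl, y, rfl, ?_⟩
    intro x hx
    rcases List.mem_cons.1 hx with hx | hx
    · exact Or.inr hx
    · exact (h2 x hx).symm
  · intro a b s s' L h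
    obtain ⟨c, t, L4, h1, rfl, rfl⟩ := L_CRot_rot hCPathAppend hCPathSh h
    obtain ⟨rfl, d, e1, h2⟩ := hw _ _ _ _ _ h1
    simp only [List.cons.injEq] at e1
    obtain ⟨rfl, rfl⟩ := e1
    refine ⟨rfl, ?_⟩
    intro x hx
    rcases List.mem_cons.1 hx with hx | hx
    · exact Or.inr hx
    · exact (h2 x hx).symm
  · intro a b s s' L h
    obtain ⟨c, d, y, t, L4, h1, rfl, rfl⟩ := L_CRot_rrt hCPathAppend hCPathSh h
    obtain ⟨rfl, e, e1, h2⟩ := hw _ _ _ _ _ h1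
    simp only [List.cons.injEq] at e1
    obtain ⟨rfl, rfl, rfl, rfl⟩ := e1
    refine ⟨rfl, ?_⟩
    intro x hx
    rcases List.mem_cons.1 hx with hx | hx
    · exact Or.inl hx
    · exact h2 x hx
  · intro a b s s' L h
    obtain ⟨c, t, L4, h1, rfl, rfl⟩ := L_CRot_rot hCPathAppend hCPathSh h
    obtain ⟨e1, h2⟩ := hw _ _ _ _ _ h1
    simp only [List.cons.injEq] at e1
    obtain ⟨rfl, rfl⟩ := e1
    refine ⟨rfl, ?_⟩
    intro x hx
    rcases List.mem_cons.1 hx with hx | hx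
    · exact Or.inl hx
    · exact (h2 x hx).symm
  · intro a b s s' L h
    obtain ⟨c, d, y, t, L4, h1, rfl, rfl⟩ := L_CRot_rrt hCPathAppend hCPathSh h
    obtain ⟨e1, h2⟩ := hw _ _ _ _ _ h1
    simp only [List.cons.injEq] at e1
    obtain ⟨rfl, rfl, rfl, rfl⟩ := e1
    refine ⟨rfl, ?_⟩
    intro x hx
    rcases List.mem_cons.1 hx with hx | hx
    · exact Or.inr hx
    · exact (h2 x hx).symm

end AJM

end

section

/-!
# MP_d3fa71_gt, project Mut, block Q, item CTws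
-/

set_option autoImplicit false

namespace AJM

theorem L_CTws_step {k : Kd} (hk : k = .pos ∨ k = .neg) {a b : ℕ} {s s' L : List ℕ}
    (h : CStep (k, 0) (a :: b :: s) s' L) : s' = b :: a :: s ∧ L = [] := by
  rcases hk with rfl | rfl
  · cases h
    exact ⟨rfl, rfl⟩
  · cases h
    exact ⟨rfl, rfl⟩

theorem L_CTws_path {k : Kd} (hk : k = .pos ∨ k = .neg) (m : ℕ) :
    ∀ (a b : ℕ) (s s' L : List ℕ), CPath (List.replicate m (k, 0)) (a :: b :: s) s' L →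
      s' = (if Even m then a :: b :: s else b :: a :: s) ∧ L = [] := by
  induction m with
  | zero =>
    intro a b s s' L h
    cases h
    exact ⟨by simp, rfl⟩
  | succ m ih =>
    intro a b s s' L h
    rw [List.replicate_succ] at h
    cases h with
    | cons hs hp =>
      obtain ⟨h1, h2⟩ := L_CTws_step hk hs
      subst h1
      subst h2
      obtain ⟨h3, h4⟩ := ih b a s s' _ hp
      rw [h4]
      refine ⟨?_, rfl⟩
      rw [h3]
      by_cases hm : Even m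
      · rw [if_pos hm, if_neg (by rw [Nat.even_add_one]; exact not_not.2 hm)]
      · rw [if_neg hm, if_pos (by rw [Nat.even_add_one]; exact hm)]

theorem L_CTws_C0 {k : Kd} (hk : k = .pos ∨ k = .neg) {m : ℕ} (hm : Even m) :
    C0 (List.replicate m (k, 0)) := by
  intro a b s s' L h
  obtain ⟨h1, h2⟩ := L_CTws_path hk m a b s s' L h
  rw [if_pos hm] at h1
  refine ⟨h1, ?_⟩
  rw [h2]
  intro x hx
  exact absurd hx List.not_mem_nil

theorem L_CTws_CX {k : Kd} (hk : k = .pos ∨ k = .neg) {m : ℕ} (hm : ¬ Even m) :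
    CX (List.replicate m (k, 0)) := by
  intro a b s s' L h
  obtain ⟨h1, h2⟩ := L_CTws_path hk m a b s s' L h
  rw [if_neg hm] at h1
  refine ⟨h1, ?_⟩
  rw [h2]
  intro x hx
  exact absurd hx List.not_mem_nil

theorem prf_CTws (_hCPathAppend : CPathAppend) : CTws := by
  intro n
  constructor
  · unfold tws
    split_ifs with h
    · refine L_CTws_C0 (Or.inl rfl) ⟨n.toNat, by omega⟩
    · refine L_CTws_C0 (Or.inr rfl) ⟨(-n).toNat, by omega⟩
  · unfold tws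
    split_ifs with h
    · refine L_CTws_CX (Or.inl rfl) ?_
      rw [Nat.not_even_iff_odd]
      exact ⟨n.toNat, by omega⟩
    · refine L_CTws_CX (Or.inr rfl) ?_
      rw [Nat.not_even_iff_odd]
      exact ⟨(-n - 1).toNat, by omega⟩

end AJM

end
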