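import Pool.Agent.Work.MP_d3fa71_gt.Mut.Bd.B15
import Pool.Agent.Work.MP_d3fa71_gt.Mut.Bd.B01
import Pool.Agent.Work.MP_d3fa71_gt.Mut.Bd.B19
import Pool.Agent.Work.MP_d3fa71_gt.Mut.Bd.B07
import Pool.Agent.Work.MP_d3fa71_gt.Bd.B05
import Pool.Agent.Work.MP_d3fa71_gt.Mut.Bd.B06
import Pool.Agent.Work.MP_d3fa71_gt.Defs

/-! Bundle of small proof modules (one section per former module). -/

section

/-!
# MP_d3fa71_gt, project Mut, item LinkNeg
-/

namespace AJM

theorem L_LinkNeg_sq {F : Type} [Field F] (M ω ε : Fˣ) (k : ℕ) (h : ω = M ^ 2 ∨ ω = (M ^ 2)⁻¹)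
    (he : ε = ω ^ (-(k : ℤ)) ∨ ε = -ω ^ (-(k : ℤ))) : ∃ j : ℤ, ε ^ 2 = M ^ (2 * j) := by
  have h2 : ε ^ 2 = (ω ^ (-(k : ℤ))) ^ 2 := by
    rcases he with he | he
    · rw [he]
    · rw [he, neg_sq]
  rcases h with h | h
  · refine ⟨-2 * k, ?_⟩
    rw [h2, h, ← zpow_natCast, ← zpow_natCast, ← zpow_mul, ← zpow_mul]
    congr 1
    push_cast
    ring
  · refine ⟨2 * k, ?_⟩
    rw [h2, h, ← zpow_natCast, ← zpow_natCast, ← zpow_neg, ← zpow_mul, ← zpow_mul]
    congr 1
    push_cast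
    ring

theorem prf_LinkNeg (hLkI : LkI) (hLkII : LkII) (hLkIII : LkIII) (hCaseSplit : CaseSplit)
    (hE1 : E1) (hE2 : E2) : LinkNeg := by
  intro F _ _ _ N
  obtain ⟨k1, h1⟩ := hLkI F N
  obtain ⟨k2, h2⟩ := hLkII F N (-2) (by norm_num)
  obtain ⟨k3, h3⟩ := hLkIII F N
  refine ⟨max k1 (max k2 k3), fun k hk => ?_⟩
  have hk1 : k1 ≤ k := (le_max_left _ _).trans hk
  have hk2 : k2 ≤ k := (le_max_left _ _).trans ((le_max_right _ _).trans hk)
  have hk3 : k3 ≤ k := (le_max_right _ _).trans ((le_max_right _ _).trans hk)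
  rintro ⟨M, hM, τ, hτ, hp⟩
  rcases hCaseSplit F N k M τ hM hτ hp with
    ⟨x, τ', ha, hb, hτ', hab, hR⟩ | ⟨τ', ε, ω, hτ', hω, hD⟩ | ⟨ω, ε, τ', ha, hb, hω, hab, hε, hτ', hR⟩
  · obtain ⟨c, hc⟩ := h1 k hk1 M x τ' ha hb hM hτ' hab hR
    have hc0 : c ≠ 0 := by
      rintro rfl
      rw [map_zero] at hc
      exact x.ne_zero hc
    by_cases hc1 : c = 1
    · have hx : x = 1 := by
        apply Units.ext
        rw [hc, hc1, map_one, Units.val_one]
      rw [hx, mul_one] at hab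
      rw [hx, one_pow] at hR
      exact hE2 F M (M ^ 2) 1 ha hb τ' 0 hM (Or.inl rfl) (by simp) hab hR
    · refine hE1 F M (M ^ 2 * x) (x ^ k) c (c ^ k) ha hb τ' hM hc0 hc1 ?_ ?_ hab hR
      · rw [Units.val_mul, Units.val_pow_eq_pow_val, hc, mul_comm]
      · rw [Units.val_pow_eq_pow_val, hc, map_pow]
  · refine h2 k hk2 M τ' ε ω hM ?_ hω hD
    simpa using hτ'
  · by_cases hω2 : ω = M ^ 2 ∨ ω = (M ^ 2)⁻¹
    · obtain ⟨j, hj⟩ := L_LinkNeg_sq M ω ε k hω2 hε
      exact hE2 F M ω ε ha hb τ' j hM hω2 hj hab hR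
    · push Not at hω2
      exact h3 k hk3 M ω ε τ' ha hb hM hω hω2.1 hω2.2 hab hε hτ' hR

end AJM

end

section

/-!
# MP_d3fa71_gt, project Mut: item LkI
-/

set_option autoImplicit false

open Filter

namespace AJM

section field
variable {k L : Type} [Field k] [Field L] [Algebra k L]

/-- the logarithmic derivative of an integral power. -/
theorem L_LkI_zpow (D : Derivation k L L) {x : L} (hx : x ≠ 0) (n : ℤ) :
    D (x ^ n) / x ^ n = n * (D x / x) := by
  rw [Derivation.leibniz_zpow]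
  have h1 : x ^ n ≠ 0 := zpow_ne_zero _ hx
  have h2 : x ^ (n - 1) = x ^ n / x := by rw [zpow_sub_one₀ hx, div_eq_mul_inv]
  rw [h2, zsmul_eq_mul, smul_eq_mul]
  field_simp

theorem L_LkI_pow (D : Derivation k L L) {x : L} (hx : x ≠ 0) (n : ℕ) :
    D (x ^ n) / x ^ n = n * (D x / x) := by
  have h := L_LkI_zpow D hx n
  rw [zpow_natCast] at h
  rw [h, Int.cast_natCast]

theorem L_LkI_mul (D : Derivation k L L) {x y : L} (hx : x ≠ 0) (hy : y ≠ 0) :
    D (x * y) / (x * y) = D x / x + D y / y := by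
  rw [Derivation.leibniz, smul_eq_mul, smul_eq_mul]
  field_simp
  ring

theorem L_LkI_main (D D' : Derivation k L L) {e m X om t : L} (he : e ≠ 0) (hm : m ≠ 0)
    (hX : X ≠ 0) (N : ℤ) (hom : om = m ^ 2 * X)
    (ht : ∀ D : Derivation k L L, D t / t = D (m ^ N * e ^ 2) / (m ^ N * e ^ 2))
    (h : dl D D' e om = dl D D' t m) : D e * D' X = D' e * D X := by
  have key : ∀ E : Derivation k L L, E om / om = 2 * (E m / m) + E X / X := by
    intro E
    rw [hom, L_LkI_mul E (pow_ne_zero _ hm) hX, L_LkI_pow E hm]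
    norm_num
  have key2 : ∀ E : Derivation k L L, E t / t = N * (E m / m) + 2 * (E e / e) := by
    intro E
    rw [ht E, L_LkI_mul E (zpow_ne_zero _ hm) (pow_ne_zero _ he), L_LkI_zpow E hm,
      L_LkI_pow E he]
    norm_num
  unfold dl at h
  rw [key D, key D', key2 D, key2 D'] at h
  have h2 : D e / e * (D' X / X) = D' e / e * (D X / X) := by
    linear_combination h
  field_simp at h2
  exact h2

end field

variable {F : Type} [Field F]

/-- `gu` as a homomorphism. -/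
noncomputable def L_LkI_gh (F : Type) [Field F] : (ℕ → Fˣ) →* (Gm F)ˣ where
  toFun := gu
  map_one' := by
    apply Units.ext
    rfl
  map_mul' := by
    intro x y
    apply Units.ext
    rfl

theorem L_LkI_gu_zpow (x : ℕ → Fˣ) (e : ℤ) : gu (fun i => x i ^ e) = gu x ^ e :=
  map_zpow (L_LkI_gh F) x e

theorem L_LkI_gu_pow (x : ℕ → Fˣ) (e : ℕ) : gu (fun i => x i ^ e) = gu x ^ e :=
  map_pow (L_LkI_gh F) x e

theorem L_LkI_gu_mul (x y : ℕ → Fˣ) : gu (fun i => x i * y i) = gu x * gu y :=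
  map_mul (L_LkI_gh F) x y

theorem L_LkI_dgv (u : Fˣ) : Matrix.mulVec (dg u).1 ![(1 : F), 0] = (u : F) • ![(1 : F), 0] := by
  funext i
  fin_cases i <;> simp [dg, Matrix.mulVec, dotProduct, Fin.sum_univ_two]

theorem prf_LkI (hRingD : RingD) (hRingIso : RingIso) (hDlogSq : DlogSq) (hDTL : DTL) : LkI := by
  intro F _ _ _ N
  by_contra hcon
  push Not at hcon
  have hfr : ∃ᶠ k in (atTop : Filter ℕ), ∃ (M x τ : Fˣ) (ha hb : G F),
      Transcendental ℂ (M : F) ∧ (τ = M ^ N * x ^ (2 * k) ∨ τ = -(M ^ N * x ^ (2 * k))) ∧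
      mer M ha * mer M hb = dg (M ^ 2 * x) ∧ Ring M ha hb (dg (x ^ k)) τ ∧ ¬ Cst (x : F) := by
    rw [frequently_atTop]
    intro k₀
    obtain ⟨k, hk, M, x, τ, ha, hb, h1, h2, h3, h4, h5⟩ := hcon k₀
    exact ⟨k, hk, M, x, τ, ha, hb, h1, h2, h3, h4, h5⟩
  obtain ⟨k, hk, hP⟩ := extraction_of_frequently_atTop hfr
  choose M x τ ha hb h1 h2 h3 h4 h5 using hP
  set ε : ℕ → Fˣ := fun i => x i ^ k i with hε
  set ω : ℕ → Fˣ := fun i => M i ^ 2 * x i with hω
  have hpath : ∀ i, DPath (M i) rwd [] [] (τ i) [(ε i, ω i)] := by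
    intro i
    refine hRingD F (M i) (ha i) (hb i) (dg (x i ^ k i)) (τ i) (ε i) (ω i) ![1, 0] ?_
      (L_LkI_dgv _) ?_ (h4 i)
    · intro h
      have := congrFun h 0
      simp at this
    · rw [h3 i]
      exact L_LkI_dgv _
  have hiso := hRingIso F M τ ε ω hpath
  have hτ : ∀ i, τ i = M i ^ N * ε i ^ 2 ∨ τ i = -(M i ^ N * ε i ^ 2) := by
    intro i
    have : ε i ^ 2 = x i ^ (2 * k i) := by
      rw [hε]
      simp only
      rw [← pow_mul, mul_comm]
    rw [this]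
    exact h2 i
  have hlog := hDlogSq F τ (fun i => M i ^ N * ε i ^ 2) hτ
  have hguτ : (gu (fun i => M i ^ N * ε i ^ 2) : Gm F) = (gu M : Gm F) ^ N * (gu ε : Gm F) ^ 2 := by
    rw [L_LkI_gu_mul (fun i => M i ^ N) (fun i => ε i ^ 2), L_LkI_gu_zpow, L_LkI_gu_pow,
      Units.val_mul, Units.val_zpow_eq_zpow_val, Units.val_pow_eq_pow_val]
  have hguω : (gu ω : Gm F) = (gu M : Gm F) ^ 2 * (gu x : Gm F) := by
    rw [hω, L_LkI_gu_mul (fun i => M i ^ 2) x, L_LkI_gu_pow, Units.val_mul,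
      Units.val_pow_eq_pow_val]
  have hmain : ∀ D D' : Derivation (kst F) (Gm F) (Gm F),
      D (gu ε : Gm F) * D' (gu x : Gm F) = D' (gu ε : Gm F) * D (gu x : Gm F) := by
    intro D D'
    refine L_LkI_main D D' (Units.ne_zero _) (Units.ne_zero _) (Units.ne_zero _) N hguω ?_
      (hiso D D')
    intro E
    rw [hlog E, hguτ]
  have hfin := hDTL F ε x (fun i => -(k i : ℤ)) (fun i j hij => by
      have : (k i : ℤ) = k j := neg_injective hij
      exact hk.injective (by exact_mod_cast this)) (fun i => by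
      rw [hε]
      simp only
      rw [zpow_neg, zpow_natCast, mul_inv_cancel]) hmain
  obtain ⟨i, c, hc⟩ := hfin.exists
  exact h5 i ⟨c, hc⟩

end AJM

end

section

/-!
# MP_d3fa71_gt, project Mut, block L, item LkII
-/

open Filter

namespace AJM

theorem L_LkII_gu_one (F : Type) [Field F] : gu (F := F) (fun _ => 1) = 1 := by
  apply Units.ext
  change gm F (fun i => ((1 : Fˣ) : F)) = 1
  have : (fun _ : ℕ => ((1 : Fˣ) : F)) = 1 := by
    ext i
    simp
  rw [this, map_one]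

theorem prf_LkII (hRingIso : RingIso) (hDlogSq : DlogSq) (hDTL : DTL) : LkII := by
  intro F _ _ _ N b hb
  by_contra hcon
  push Not at hcon
  have h1 : ∀ n : ℕ, ∃ k > n, ∃ (M τ ε ω : Fˣ), Transcendental ℂ (M : F) ∧
      (τ = M ^ (N + b * k) ∨ τ = -M ^ (N + b * k)) ∧ (ω = 1 ∨ ω = -1) ∧
      DPath M rwd [] [] τ [(ε, ω)] := by
    intro n
    obtain ⟨k, hk, M, τ, ε, ω, h⟩ := hcon (n + 1)
    exact ⟨k, hk, M, τ, ε, ω, h⟩
  obtain ⟨k, hk, h2⟩ := extraction_of_frequently_atTop (frequently_atTop'.2 h1)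
  choose M τ ε ω hM hτ hω hP using h2
  have hiso := hRingIso F M τ ε ω hP
  have hω' : ∀ D : Derivation (kst F) (Gm F) (Gm F), D (gu ω : Gm F) / (gu ω : Gm F) = 0 := by
    intro D
    rw [hDlogSq F ω (fun _ => 1) (fun i => hω i) D, L_LkII_gu_one, Units.val_one,
      D.map_one_eq_zero, zero_div]
  have hτ' := hDlogSq F τ (fun i => M i ^ (N + b * (k i : ℤ))) hτ
  have hinj : Function.Injective fun i => -(N + b * (k i : ℤ)) := by
    intro i j hij
    have h3 : b * (k i : ℤ) = b * (k j : ℤ) := by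
      have : -(N + b * (k i : ℤ)) = -(N + b * (k j : ℤ)) := hij
      linarith
    have h4 : (k i : ℤ) = (k j : ℤ) := mul_left_cancel₀ hb h3
    exact hk.injective (by exact_mod_cast h4)
  have h5 := hDTL F (fun i => M i ^ (N + b * (k i : ℤ))) M (fun i => -(N + b * (k i : ℤ))) hinj
    (fun i => by rw [← zpow_add, add_neg_cancel, zpow_zero]) (fun D D' => by
      have h6 := hiso D D'
      unfold dl at h6
      rw [hω' D, hω' D', mul_zero, mul_zero, sub_zero, hτ' D, hτ' D'] at h6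
      set E : (Gm F)ˣ := gu fun i => M i ^ (N + b * (k i : ℤ)) with hE
      have hE0 : (E : Gm F) ≠ 0 := E.ne_zero
      have hM0 : ((gu M : (Gm F)ˣ) : Gm F) ≠ 0 := (gu M).ne_zero
      field_simp at h6
      linear_combination -h6)
  obtain ⟨i, c, hc⟩ := h5.exists
  exact hM i (hc ▸ isAlgebraic_algebraMap c)

end AJM

end

section

/-!
# MP_d3fa71_gt, project Mut, block L, item LkIII
-/

open Filter

namespace AJM

theorem L_LkIII_gm {F : Type} [Field F] {x y : ℕ → F} (h : gm F x = gm F y) : ∃ i, x i = y i := by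
  have h1 : x =ᶠ[(hyperfilter ℕ : Filter ℕ)] y := Germ.coe_eq.1 h
  exact h1.exists

theorem L_LkIII_gu {F : Type} [Field F] (x : ℕ → Fˣ) :
    (gu x : Gm F) = gm F (fun i => (x i : F)) := rfl

theorem L_LkIII_char0 (F : Type) [Field F] [Algebra ℂ F] : CharZero (kst F) := by
  have h1 : CharZero F := charZero_of_injective_algebraMap (algebraMap ℂ F).injective
  have h2 : CharZero (Gm F) := by
    have hinj : Function.Injective ((gm F).comp (Pi.constRingHom ℕ F)) :=
      RingHom.injective _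
    exact charZero_of_injective_ringHom hinj
  exact (kst F).subtype.charZero

theorem L_LkIII_vec {F : Type} [Field F] (u : Fˣ) :
    Matrix.mulVec (dg u).1 ![(1 : F), 0] = (u : F) • ![(1 : F), 0] := by
  ext i
  fin_cases i <;> simp [Matrix.mulVec, dotProduct, Fin.sum_univ_two, dg]

theorem prf_LkIII (hRingD : RingD) (hRingIso : RingIso) (hGermPath : GermPath)
    (hRingDInv : RingDInv) (hAlgG : AlgG) (hAlgTau : AlgTau) (hMTrans : MTrans)
    (hLkIIIa : LkIIIa) (hLkIIIb : LkIIIb) : LkIII := by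
  intro F _ _ _ N
  by_contra hcon
  push Not at hcon
  have hfr : ∃ᶠ k : ℕ in atTop, ∃ (M ω ε τ : Fˣ) (ha hb : G F),
      Transcendental ℂ (M : F) ∧ (ω : F) ^ 2 ≠ 1 ∧ ω ≠ M ^ 2 ∧ ω ≠ (M ^ 2)⁻¹ ∧
      mer M ha * mer M hb = dg ω ∧ (ε = ω ^ (-(k : ℤ)) ∨ ε = -ω ^ (-(k : ℤ))) ∧
      (τ = M ^ (N - 2 * k) ∨ τ = -M ^ (N - 2 * k)) ∧ Ring M ha hb (dg ε) τ := by
    rw [frequently_atTop]
    intro a
    obtain ⟨k, hk, h⟩ := hcon a
    exact ⟨k, hk, h⟩
  obtain ⟨k, hk, hP⟩ := extraction_of_frequently_atTop hfr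
  choose M ω ε τ ha hb hM hω2 hωM hωM' hmer hε hτ hRing using hP
  have hpath : ∀ i, DPath (M i) rwd [] [] (τ i) [(ε i, ω i)] := by
    intro i
    refine hRingD F (M i) (ha i) (hb i) (dg (ε i)) (τ i) (ε i) (ω i) ![1, 0] ?_
      (L_LkIII_vec _) ?_ (hRing i)
    · intro h
      have := congrFun h 0
      simp at this
    · rw [hmer i]
      exact L_LkIII_vec _
  have hdl := hRingIso F M τ ε ω hpath
  have hg : DPath (gu M) rwd [] [] (gu τ) [(gu ε, gu ω)] := by
    have := hGermPath F rwd M τ 1 (fun _ i => (ε i, ω i)) (by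
      intro i
      simpa using hpath i)
    simpa using this
  have hw2 : (gu ω : Gm F) ^ 2 ≠ 1 := by
    intro h
    rw [L_LkIII_gu, ← map_pow, ← map_one (gm F)] at h
    obtain ⟨i, hi⟩ := L_LkIII_gm h
    exact hω2 i hi
  have hwM : gu ω ≠ gu M ^ 2 := by
    intro h
    have h := congrArg (fun z : (Gm F)ˣ => (z : Gm F)) h
    simp only [Units.val_pow_eq_pow_val, L_LkIII_gu, ← map_pow] at h
    obtain ⟨i, hi⟩ := L_LkIII_gm h
    apply hωM i
    apply Units.ext
    simpa using hi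
  have hwM' : gu ω ≠ (gu M ^ 2)⁻¹ := by
    intro h
    rw [eq_inv_iff_mul_eq_one] at h
    have h := congrArg (fun z : (Gm F)ˣ => (z : Gm F)) h
    simp only [Units.val_mul, Units.val_one, Units.val_pow_eq_pow_val, L_LkIII_gu, ← map_pow,
      ← map_mul, ← map_one (gm F)] at h
    obtain ⟨i, hi⟩ := L_LkIII_gm h
    apply hωM' i
    rw [eq_inv_iff_mul_eq_one]
    apply Units.ext
    simpa using hi
  have hMt : Transcendental (kst F) (gu M : Gm F) := hMTrans F (fun i => (M i : F)) hM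
  obtain ⟨ga, gb, hgm, hgR⟩ := hRingDInv (Gm F) (gu M) (gu τ) (gu ε) (gu ω) hw2 hg
  have hεalg := hAlgG (kst F) (Gm F) (gu M) (gu ω) (gu ε) (gu τ) ga gb hMt hw2 hwM hwM' hgm hgR
  by_cases hind : AlgebraicIndependent (kst F) ![(gu M : Gm F), (gu ω : Gm F)]
  · have := L_LkIII_char0 F
    have hτalg := hAlgTau (kst F) (Gm F) (gu M) (gu ω) (gu ε) (gu τ) hMt hεalg hdl
    exact hLkIIIa F M ω ε τ k N hk hM hε hτ hεalg hτalg hind
  · exact hLkIIIb F M ω ε τ k N hk hM hε hτ hεalg hind hdl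

end AJM

end

section

/-!
# MP_d3fa71_gt, project Mut, item `LkIIIa`
-/

open Filter

namespace AJM

theorem L_LkIIIa_rel {k L : Type} [Field k] [Field L] [Algebra k L] {n : ℕ} {x : Fin n → L}
    (h : ¬ AlgebraicIndependent k x) :
    ∃ P : MvPolynomial (Fin n) k, P ≠ 0 ∧ MvPolynomial.aeval x P = 0 := by
  by_contra hne
  apply h
  rw [algebraicIndependent_iff]
  intro P hP
  by_contra h0
  exact hne ⟨P, h0, hP⟩

theorem prf_LkIIIa (hDepOfAlg : DepOfAlg) (hPolyGerm : PolyGerm) (hGermPoly : GermPoly)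
    (hSubst1 : Subst1) (hSubst2 : Subst2) (hBiDeg : BiDeg) : LkIIIa := by
  intro F _ _ M ω ε τ k N hk hM hε hτ hAε hAτ hind
  obtain ⟨Pe, hPe0, hPe⟩ := L_LkIIIa_rel (hDepOfAlg _ _ _ _ _ hAε)
  obtain ⟨Pt, hPt0, hPt⟩ := L_LkIIIa_rel (hDepOfAlg _ _ _ _ _ hAτ)
  have e1 : ∀ z : ℕ → Fˣ, (fun j => gm F ((![fun i => (M i : F), fun i => (ω i : F),
      fun i => (z i : F)] : Fin 3 → ℕ → F) j)) = ![(gu M : Gm F), (gu ω : Gm F), (gu z : Gm F)] := by
    intro z
    funext j
    fin_cases j <;> rfl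
  have e2 : ∀ (z : ℕ → Fˣ) (i : ℕ), (fun j => (![fun i => (M i : F), fun i => (ω i : F),
      fun i => (z i : F)] : Fin 3 → ℕ → F) j i) = ![(M i : F), (ω i : F), (z i : F)] := by
    intro z i
    funext j
    fin_cases j <;> rfl
  obtain ⟨C₁, h₁⟩ := hPolyGerm F 3 (![fun i => (M i : F), fun i => (ω i : F),
      fun i => (ε i : F)]) Pe hPe0 (by rw [e1]; exact hPe)
  obtain ⟨C₂, h₂⟩ := hPolyGerm F 3 (![fun i => (M i : F), fun i => (ω i : F),
      fun i => (τ i : F)]) Pt hPt0 (by rw [e1]; exact hPt)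
  have h₃ : ∀ᶠ i in (hyperfilter ℕ : Filter ℕ), max C₁ C₂ + N.natAbs + 1 ≤ i := by
    apply Nat.hyperfilter_le_atTop
    exact eventually_ge_atTop _
  refine hGermPoly F 2 (max C₁ C₂) ![fun i => (M i : F), fun i => (ω i : F)] ?_ ?_
  · filter_upwards [h₁, h₂, h₃] with i hi₁ hi₂ hi₃
    obtain ⟨Qe, hQe0, hQed, hQe⟩ := hi₁
    obtain ⟨Qt, hQt0, hQtd, hQt⟩ := hi₂
    rw [e2] at hQe hQt
    have hki : i ≤ k i := hk.le_apply
    obtain ⟨s, hs0, hs⟩ : ∃ s : ℂ, s ≠ 0 ∧ (ε i : F) =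
        algebraMap ℂ F s * ((ω i ^ (-(k i : ℤ)) : Fˣ) : F) := by
      rcases hε i with h | h
      · exact ⟨1, one_ne_zero, by rw [h]; simp⟩
      · exact ⟨-1, by simp, by rw [h]; simp⟩
    obtain ⟨t, ht0, ht⟩ : ∃ t : ℂ, t ≠ 0 ∧ (τ i : F) =
        algebraMap ℂ F t * ((M i ^ (N - 2 * (k i : ℤ)) : Fˣ) : F) := by
      rcases hτ i with h | h
      · exact ⟨1, one_ne_zero, by rw [h]; simp⟩
      · exact ⟨-1, by simp, by rw [h]; simp⟩
    rw [hs] at hQe
    rw [ht] at hQt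
    obtain ⟨P, hP0, hPd, hP⟩ := hSubst1 ℂ F (M i) (ω i) t _ (max C₁ C₂) Qt hQt0 ht0
      (fun j => (hQtd j).trans (le_max_right _ _)) (by
        have : (N.natAbs : ℤ) = |N| := Int.natCast_natAbs N
        have h4 : ((max C₁ C₂ : ℕ) : ℤ) + |N| + 1 ≤ k i := by
          rw [← this]; exact_mod_cast hi₃.trans hki
        have h5 := abs_le.1 (le_refl |N|)
        rw [lt_abs]
        right
        linarith [h5.1, h5.2, abs_nonneg N]) hQt
    obtain ⟨P', hP'0, hP'd, hP'⟩ := hSubst2 ℂ F (M i) (ω i) s _ (max C₁ C₂) Qe hQe0 hs0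
      (fun j => (hQed j).trans (le_max_left _ _)) (by
        have : (N.natAbs : ℤ) = |N| := Int.natCast_natAbs N
        have h4 : ((max C₁ C₂ : ℕ) : ℤ) + |N| + 1 ≤ k i := by
          rw [← this]; exact_mod_cast hi₃.trans hki
        rw [lt_abs]
        right
        linarith [abs_nonneg N]) hQe
    obtain ⟨S, hS0, hSd, hS⟩ := hBiDeg ℂ F (M i : F) (ω i : F) (max C₁ C₂) P P' (hM i) hP0 hP'0
      hPd hP'd hP hP'
    refine ⟨S, hS0, hSd, ?_⟩
    have e3 : (fun j => (![fun i => (M i : F), fun i => (ω i : F)] : Fin 2 → ℕ → F) j i) =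
        ![(M i : F), (ω i : F)] := by
      funext j
      fin_cases j <;> rfl
    rw [e3]
    exact hS
  · have e4 : (fun j => gm F ((![fun i => (M i : F), fun i => (ω i : F)] : Fin 2 → ℕ → F) j)) =
        ![(gu M : Gm F), (gu ω : Gm F)] := by
      funext j
      fin_cases j <;> rfl
    rw [e4]
    exact hind

end AJM

end

section

/-!
# MP_d3fa71_gt, project Mut, item `LkIIIb`
-/

open Filter

namespace AJM

theorem L_LkIIIb_charZero (F : Type) [Field F] [Algebra ℂ F] : CharZero (Gm F) :=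
  charZero_of_injective_ringHom
    ((gm F).comp ((Pi.constRingHom ℕ F).comp (algebraMap ℂ F))).injective

theorem L_LkIIIb_tower {k L : Type} [Field k] [Field L] [Algebra k L] {x y z : L}
    (hy : IsAlgebraic (IntermediateField.adjoin k {x}) y)
    (hz : IsAlgebraic (IntermediateField.adjoin k {x, y}) z) :
    IsAlgebraic (IntermediateField.adjoin k {x}) z := by
  have h1 : ({x, y} : Set L) = {x} ∪ {y} := by
    rw [Set.insert_eq]
  rw [h1, ← IntermediateField.adjoin_adjoin_left] at hz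
  have h2 : IsAlgebraic (IntermediateField.adjoin (IntermediateField.adjoin k ({x} : Set L))
      ({y} : Set L)) z := hz
  have : Algebra.IsAlgebraic (IntermediateField.adjoin k ({x} : Set L))
      (IntermediateField.adjoin (IntermediateField.adjoin k ({x} : Set L)) ({y} : Set L)) :=
    IntermediateField.isAlgebraic_adjoin_simple hy.isIntegral
  exact h2.restrictScalars _

theorem prf_LkIIIb (hMTrans : MTrans) (hAlgOfDep : AlgOfDep) (hWedgeZero : WedgeZero)
    (hDlogSq : DlogSq) (hDTL : DTL) : LkIIIb := by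
  intro F _ _ M ω ε τ k N hk hM hε hτ hAε hdep hiso
  have := L_LkIIIb_charZero F
  have hMt : Transcendental (kst F) (gu M : Gm F) := hMTrans F (fun i => (M i : F)) hM
  have hω : IsAlgebraic (IntermediateField.adjoin (kst F) {(gu M : Gm F)}) (gu ω : Gm F) :=
    hAlgOfDep _ _ _ _ hMt hdep
  have hε' := L_LkIIIb_tower hω hAε
  have hW := hWedgeZero (kst F) (Gm F) _ _ _ hε' hω
  have hne : ∀ u : ℕ → Fˣ, (gu u : Gm F) ≠ 0 := fun u => (gu u).ne_zero
  have hcon := hDTL F (fun i => ω i ^ (-(k i : ℤ))) ω (fun i => (k i : ℤ))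
    (fun a b hab => hk.injective (by simpa using hab))
    (fun i => by rw [← zpow_add]; simp) (by
      intro D D'
      have h1 := hDlogSq F ε _ hε D
      have h2 := hDlogSq F ε _ hε D'
      have h3 := hW D D'
      rw [div_eq_div_iff (hne _) (hne _)] at h1 h2
      have h4 := hne ε
      have h5 : (gu ε : Gm F) * (D (gu fun i => ω i ^ (-(k i : ℤ)) : Gm F) * D' (gu ω : Gm F)) =
          (gu ε : Gm F) * (D' (gu fun i => ω i ^ (-(k i : ℤ)) : Gm F) * D (gu ω : Gm F)) := by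
        linear_combination (gu fun i => ω i ^ (-(k i : ℤ)) : Gm F) * h3 -
          D' (gu ω : Gm F) * h1 + D (gu ω : Gm F) * h2
      exact mul_left_cancel₀ h4 h5)
  have hDω : ∀ D : Derivation (kst F) (Gm F) (Gm F), D (gu ω : Gm F) = 0 := by
    intro D
    have hmem : (gu ω : Gm F) ∈ kst F := by
      classical
      let c : ℕ → ℂ := fun i =>
        if h : ∃ c : ℂ, (ω i : F) = algebraMap ℂ F c then h.choose else 0
      have hc : ∀ᶠ i in (hyperfilter ℕ : Filter ℕ), algebraMap ℂ F (c i) = (ω i : F) := by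
        filter_upwards [hcon] with i hi
        have : c i = hi.choose := dif_pos hi
        rw [this]
        exact hi.choose_spec.symm
      exact ⟨c, Germ.coe_eq.2 hc⟩
    have := D.map_algebraMap (⟨_, hmem⟩ : kst F)
    exact this
  have hcon2 := hDTL F (fun i => M i ^ (N - 2 * (k i : ℤ))) M (fun i => -(N - 2 * (k i : ℤ)))
    (fun a b hab => hk.injective (by
      have : (k a : ℤ) = k b := by
        simp only at hab
        linarith
      exact_mod_cast this))
    (fun i => by rw [← zpow_add]; simp) (by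
      intro D D'
      have h1 := hDlogSq F τ _ hτ D
      have h2 := hDlogSq F τ _ hτ D'
      have h3 := hiso D D'
      unfold dl at h3
      simp only [hDω, zero_div, mul_zero, sub_zero] at h3
      rw [h1, h2] at h3
      have h4 := hne (fun i => M i ^ (N - 2 * (k i : ℤ)))
      have h5 := hne M
      field_simp at h3
      linear_combination -h3)
  obtain ⟨i, c, hc⟩ := hcon2.exists
  apply hM i
  rw [hc]
  exact isAlgebraic_algebraMap c

end AJM

end

section

/-!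
# MP_d3fa71_gt, project Mut, block L, item MTrans
-/

open Filter

namespace AJM

theorem prf_MTrans (hPolyGerm : PolyGerm) : MTrans := by
  intro F _ _ M hM
  rw [← algebraicIndependent_unique_type_iff (ι := Fin 1) (x := fun _ => gm F M)]
  by_contra hcon
  rw [algebraicIndependent_iff] at hcon
  push Not at hcon
  obtain ⟨P, hP, hP0⟩ := hcon
  obtain ⟨C, hC⟩ := hPolyGerm F 1 (fun _ => M) P hP0 hP
  obtain ⟨i, Q, hQ, -, hQ0⟩ := hC.exists
  have h1 := (algebraicIndependent_unique_type_iff (ι := Fin 1) (x := fun _ => M i)).2 (hM i)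
  rw [algebraicIndependent_iff] at h1
  exact hQ (h1 Q hQ0)

end AJM

end

section

/-!
# MP_d3fa71_gt, project Mut, block L: relations over the constants of the ultrapower
-/

open Filter

namespace AJM

theorem L_PolyGerm_germ {F : Type} [Field F] [Algebra ℂ F] {n : ℕ} (x : Fin n → ℕ → F)
    (P : MvPolynomial (Fin n) (kst F)) (c : (Fin n →₀ ℕ) → ℕ → ℂ)
    (hc : ∀ m, gm F (fun i => algebraMap ℂ F (c m i)) = ((P.coeff m : kst F) : Gm F)) :
    gm F (fun i => ∑ m ∈ P.support, algebraMap ℂ F (c m i) * ∏ j, x j i ^ m j) =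
      MvPolynomial.aeval (fun j => gm F (x j)) P := by
  rw [MvPolynomial.aeval_def, MvPolynomial.eval₂_eq']
  have h1 : (fun i => ∑ m ∈ P.support, algebraMap ℂ F (c m i) * ∏ j, x j i ^ m j) =
      ∑ m ∈ P.support, (fun i => algebraMap ℂ F (c m i)) * ∏ j, x j ^ m j := by
    funext i
    rw [Finset.sum_apply]
    refine Finset.sum_congr rfl fun m _ => ?_
    rw [Pi.mul_apply, Finset.prod_apply]
    rfl
  rw [h1, map_sum]
  refine Finset.sum_congr rfl fun m _ => ?_
  rw [map_mul, hc, map_prod]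
  simp only [map_pow]
  rfl

theorem prf_PolyGerm : PolyGerm := by
  intro F _ _ n x P hP0 hP
  choose c hc using fun m : Fin n →₀ ℕ => DTLX.mem_kst (P.coeff m)
  have hrel : ∀ᶠ i in (hyperfilter ℕ : Filter ℕ),
      ∑ m ∈ P.support, algebraMap ℂ F (c m i) * ∏ j, x j i ^ m j = 0 := by
    rw [← DTLX.gm_eq_zero, L_PolyGerm_germ x P c hc, hP]
  obtain ⟨m0, hm0⟩ := Finset.nonempty_iff_ne_empty.2
    (fun h => hP0 (MvPolynomial.support_eq_empty.1 h))
  have hnz : ∀ᶠ i in (hyperfilter ℕ : Filter ℕ), c m0 i ≠ 0 := by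
    rw [Ultrafilter.eventually_not]
    intro h
    have h0 := MvPolynomial.mem_support_iff.1 hm0
    apply h0
    apply Subtype.ext
    rw [← hc m0]
    refine (DTLX.gm_eq_zero _).2 (h.mono fun i hi => ?_)
    rw [hi, map_zero]
  refine ⟨∑ m ∈ P.support, ∑ j, m j, ?_⟩
  filter_upwards [hrel, hnz] with i h1 h2
  set Q : MvPolynomial (Fin n) ℂ := ∑ m ∈ P.support, MvPolynomial.monomial m (c m i) with hQ
  have hcoef : ∀ m, Q.coeff m = if m ∈ P.support then c m i else 0 := by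
    intro m
    rw [hQ, MvPolynomial.coeff_sum]
    simp only [MvPolynomial.coeff_monomial]
    rw [Finset.sum_ite_eq' P.support m]
  refine ⟨Q, ?_, ?_, ?_⟩
  · intro h
    have h3 := hcoef m0
    rw [h, MvPolynomial.coeff_zero, if_pos hm0] at h3
    exact h2 h3.symm
  · intro j
    rw [MvPolynomial.degreeOf_le_iff]
    intro m hm
    have hm' : m ∈ P.support := by
      by_contra h
      rw [MvPolynomial.mem_support_iff, hcoef, if_neg h] at hm
      exact hm rfl
    calc m j ≤ ∑ l, m l := Finset.single_le_sum (fun _ _ => Nat.zero_le _) (Finset.mem_univ j)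
      _ ≤ _ := Finset.single_le_sum (f := fun m : Fin n →₀ ℕ => ∑ l, m l)
          (fun _ _ => Nat.zero_le _) hm'
  · rw [hQ, map_sum, ← h1]
    refine Finset.sum_congr rfl fun m _ => ?_
    rw [MvPolynomial.aeval_monomial, Finsupp.prod_fintype _ _ (fun j => pow_zero _)]

end AJM

end

section

/-!
# MP_d3fa71_gt, project Mut, block Q: commutator of `E ^ k` and `F`
-/

namespace AJM

theorem prf_RelEkF (hQIne : QIne) (hRelK : RelK) (hRelEF : RelEF) : RelEkF := by
  intro n k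
  obtain ⟨_, _, hKE, hKiE, _, _⟩ := hRelK n
  have hEF := hRelEF n
  have hs : sd ≠ 0 := hQIne.2.1
  induction k with
  | zero =>
    have h1 : qi (0 + 1) = 1 := by
      unfold qi
      rw [show ((0 + 1 : ℕ) : ℤ) = 1 by norm_num, mul_one]
      exact div_self hs
    rw [h1, zero_add, pow_one, hEF, pow_zero, one_mul, Nat.cast_zero, mul_zero, neg_zero,
      zpow_zero, one_smul, one_smul, one_div]
  | succ k ih =>
    have e1 : Em n ^ (k + 1 + 1) * Fm n - Fm n * Em n ^ (k + 1 + 1) =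
        (Em n ^ (k + 1) * Fm n - Fm n * Em n ^ (k + 1)) * Em n +
          Em n ^ (k + 1) * (Em n * Fm n - Fm n * Em n) := by
      rw [pow_succ (Em n) (k + 1)]
      noncomm_ring
    have e2 : Em n ^ k * (tq ^ (2 * (k : ℤ)) • Km n - tq ^ (-(2 * (k : ℤ))) • Ki n) * Em n =
        (tq ^ (2 * (k : ℤ)) * tq ^ (4 : ℤ)) • (Em n ^ (k + 1) * Km n) -
          (tq ^ (-(2 * (k : ℤ))) * tq ^ (-4 : ℤ)) • (Em n ^ (k + 1) * Ki n) := by
      rw [mul_assoc, sub_mul, Matrix.smul_mul, Matrix.smul_mul, hKE, hKiE, smul_smul, smul_smul,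
        mul_sub, Matrix.mul_smul, Matrix.mul_smul, ← mul_assoc, ← mul_assoc, ← pow_succ]
    obtain ⟨q1, q2⟩ := L_RelEFk_qi hQIne k
    rw [e1, ih, hEF, Matrix.smul_mul, e2, Matrix.mul_smul, mul_sub, mul_sub, Matrix.mul_smul,
      Matrix.mul_smul]
    set P := Em n ^ (k + 1) * Km n
    set Q := Em n ^ (k + 1) * Ki n
    rw [smul_sub, smul_sub, smul_sub, smul_smul, smul_smul, smul_smul, smul_smul]
    have c1 : qi (k + 1) / sd * (tq ^ (2 * (k : ℤ)) * tq ^ (4 : ℤ)) + sd⁻¹ =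
        qi (k + 1 + 1) / sd * tq ^ (2 * ((k + 1 : ℕ) : ℤ)) := by
      have : qi (k + 1 + 1) / sd * tq ^ (2 * ((k + 1 : ℕ) : ℤ)) =
          qi (k + 2) * tq ^ (2 * ((k + 1 : ℕ) : ℤ)) / sd := by ring
      rw [this, ← q2]
      ring
    have c2 : qi (k + 1) / sd * (tq ^ (-(2 * (k : ℤ))) * tq ^ (-4 : ℤ)) + sd⁻¹ =
        qi (k + 1 + 1) / sd * tq ^ (-(2 * ((k + 1 : ℕ) : ℤ))) := by
      have : qi (k + 1 + 1) / sd * tq ^ (-(2 * ((k + 1 : ℕ) : ℤ))) =
          qi (k + 2) * tq ^ (-(2 * ((k + 1 : ℕ) : ℤ))) / sd := by ring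
      rw [this, ← q1]
      ring
    rw [← c1, ← c2, add_smul, add_smul]
    abel

end AJM

end

section

/-!
# MP_d3fa71_gt, project Mut: inversion of the closed drilled ring
-/

namespace AJM

section
variable {R : Type} [CommRing R]

theorem L_RingDInv_step {M : Rˣ} {m : DMv} {s s' : List (G R)} {τ : Rˣ} {Θ : List (Rˣ × Rˣ)}
    (h : DStep M m s s' τ Θ) : m.1 ≠ DKd.tw → Θ = [] := by
  induction h with
  | cup => intro _; rfl
  | cap => intro _; rfl
  | pos => intro _; rfl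
  | neg => intro _; rfl
  | tw => intro h; exact absurd rfl h
  | sh x h ih => intro hk; exact ih hk

theorem L_RingDInv_path {M : Rˣ} {w : List DMv} {s s' : List (G R)} {τ : Rˣ}
    {Θ : List (Rˣ × Rˣ)} (h : DPath M w s s' τ Θ) : (∀ m ∈ w, m.1 ≠ DKd.tw) → Θ = [] := by
  induction h with
  | nil => intro _; rfl
  | cons h1 h2 ih =>
    intro hw
    rw [L_RingDInv_step h1 (hw _ (by simp)), ih (fun m hm => hw m (by simp [hm]))]
    rfl

theorem L_RingDInv_emb (hPathEmb : PathEmb) {M : Rˣ} {w : List Mv} {s s' : List (G R)} {τ : Rˣ}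
    {Θ : List (Rˣ × Rˣ)} (h : DPath M (emb w) s s' τ Θ) : Θ = [] ∧ Path M w s s' τ := by
  have h1 : Θ = [] := by
    apply L_RingDInv_path h
    intro m hm
    simp only [emb, List.mem_map] at hm
    obtain ⟨a, _, rfl⟩ := hm
    simp
  refine ⟨h1, ?_⟩
  rw [hPathEmb]
  rw [h1] at h
  exact h

theorem L_RingDInv_cons {M : Rˣ} {m : DMv} {w : List DMv} {s s'' : List (G R)} {τ : Rˣ}
    {Θ : List (Rˣ × Rˣ)} (h : DPath M (m :: w) s s'' τ Θ) :
    ∃ (s' : List (G R)) (τ₁ τ₂ : Rˣ) (Θ₁ Θ₂ : List (Rˣ × Rˣ)), DStep M m s s' τ₁ Θ₁ ∧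
      DPath M w s' s'' τ₂ Θ₂ ∧ τ = τ₁ * τ₂ ∧ Θ = Θ₁ ++ Θ₂ := by
  cases h with
  | cons h1 h2 => exact ⟨_, _, _, _, _, h1, h2, rfl, rfl⟩

theorem L_RingDInv_nil {M : Rˣ} {s s'' : List (G R)} {τ : Rˣ} {Θ : List (Rˣ × Rˣ)}
    (h : DPath M [] s s'' τ Θ) : s = s'' ∧ τ = 1 ∧ Θ = [] := by
  cases h with
  | nil s => exact ⟨rfl, rfl, rfl⟩

theorem L_RingDInv_tw {M : Rˣ} {s s' : List (G R)} {τ : Rˣ} {Θ : List (Rˣ × Rˣ)}
    (h : DStep M (.tw, 0) s s' τ Θ) :
    ∃ (E x y : G R) (t : List (G R)) (ε ω : Rˣ) (v u : Fin 2 → R),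
      E * (mer M x * mer M y) = mer M x * mer M y * E ∧
      Matrix.mulVec E.1 v = (ε : R) • v ∧
      Matrix.mulVec (mer M x * mer M y).1 v = (ω : R) • v ∧
      u 0 * v 0 + u 1 * v 1 = 1 ∧ s = x :: y :: t ∧ s' = E * x :: E * y :: t ∧ τ = 1 ∧
      Θ = [(ε, ω)] := by
  cases h with
  | tw E x y t ε ω v u hc hE hw hv =>
    exact ⟨E, x, y, t, ε, ω, v, u, hc, hE, hw, hv, rfl, rfl, rfl, rfl⟩

end

section
variable {F : Type} [Field F]

theorem L_RingDInv_ne {ω : Fˣ} (h : (ω : F) ^ 2 ≠ 1) : (ω : F) - ((ω⁻¹ : Fˣ) : F) ≠ 0 := by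
  intro h0
  apply h
  have h1 : (ω : F) * ((ω⁻¹ : Fˣ) : F) = 1 := by simp
  linear_combination (ω : F) * h0 + h1

/-- Simultaneous diagonalisation. -/
theorem L_RingDInv_diag (g E : G F) (ε ω : Fˣ) (v u : Fin 2 → F) (hω : (ω : F) ^ 2 ≠ 1)
    (hc : E * g = g * E) (hE : Matrix.mulVec E.1 v = (ε : F) • v)
    (hg : Matrix.mulVec g.1 v = (ω : F) • v) (hv : u 0 * v 0 + u 1 * v 1 = 1) :
    ∃ Q : G F, Q * g * Q⁻¹ = dg ω ∧ Q * E * Q⁻¹ = dg ε := by
  have hE0 : E.1 0 0 * v 0 + E.1 0 1 * v 1 = ε * v 0 := by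
    have h := congrFun hE 0
    simpa [Matrix.mulVec, dotProduct, Fin.sum_univ_two] using h
  have hE1 : E.1 1 0 * v 0 + E.1 1 1 * v 1 = ε * v 1 := by
    have h := congrFun hE 1
    simpa [Matrix.mulVec, dotProduct, Fin.sum_univ_two] using h
  have hg0 : g.1 0 0 * v 0 + g.1 0 1 * v 1 = ω * v 0 := by
    have h := congrFun hg 0
    simpa [Matrix.mulVec, dotProduct, Fin.sum_univ_two] using h
  have hg1 : g.1 1 0 * v 0 + g.1 1 1 * v 1 = ω * v 1 := by
    have h := congrFun hg 1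
    simpa [Matrix.mulVec, dotProduct, Fin.sum_univ_two] using h
  have hd := L_RingDInv_ne hω
  have hωi : (ω : F) * ((ω⁻¹ : Fˣ) : F) = 1 := by simp
  have hεi : (ε : F) * ((ε⁻¹ : Fˣ) : F) = 1 := by simp
  -- the entry to be killed
  obtain ⟨c, hcdef⟩ : ∃ c : F, c = u 0 * (g.1 0 0 * (- u 1) + g.1 0 1 * u 0) +
    u 1 * (g.1 1 0 * (- u 1) + g.1 1 1 * u 0) := ⟨_, rfl⟩
  obtain ⟨t, htc⟩ : ∃ t : F, t * ((ω : F) - ((ω⁻¹ : Fˣ) : F)) = - c :=
    ⟨- c / ((ω : F) - ((ω⁻¹ : Fˣ) : F)), div_mul_cancel₀ _ hd⟩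
  let P : G F := ⟨!![v 0, - u 1 + t * v 0; v 1, u 0 + t * v 1], by
    rw [Matrix.det_fin_two_of]
    linear_combination hv⟩
  have hP00 : P.1 0 0 = v 0 := rfl
  have hP01 : P.1 0 1 = - u 1 + t * v 0 := rfl
  have hP10 : P.1 1 0 = v 1 := rfl
  have hP11 : P.1 1 1 = u 0 + t * v 1 := rfl
  have key00 : ∀ (X : G F) (e : F), X.1 0 0 * v 0 + X.1 0 1 * v 1 = e * v 0 →
      X.1 1 0 * v 0 + X.1 1 1 * v 1 = e * v 1 → (P⁻¹ * X * P).1 0 0 = e := by
    intro X e h0 h1
    rw [G_mul00, G_mul00, G_mul01, G_inv00, G_inv01, hP00, hP01, hP10, hP11]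
    linear_combination (u 0 + t * v 1) * h0 + (u 1 - t * v 0) * h1 + e * hv
  have key10 : ∀ (X : G F) (e : F), X.1 0 0 * v 0 + X.1 0 1 * v 1 = e * v 0 →
      X.1 1 0 * v 0 + X.1 1 1 * v 1 = e * v 1 → (P⁻¹ * X * P).1 1 0 = 0 := by
    intro X e h0 h1
    rw [G_mul10, G_mul10, G_mul11, G_inv10, G_inv11, hP00, hP10]
    linear_combination (- v 1) * h0 + v 0 * h1
  have key11 : ∀ (X : G F) (e : Fˣ), X.1 0 0 * v 0 + X.1 0 1 * v 1 = e * v 0 →
      X.1 1 0 * v 0 + X.1 1 1 * v 1 = e * v 1 →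
      (P⁻¹ * X * P).1 1 1 = ((e⁻¹ : Fˣ) : F) := by
    intro X e h0 h1
    have h2 := G_det (P⁻¹ * X * P)
    rw [key00 X e h0 h1, key10 X e h0 h1] at h2
    have h3 : (e : F) * ((e⁻¹ : Fˣ) : F) = 1 := by simp
    have h4 : (e : F) * (P⁻¹ * X * P).1 1 1 = (e : F) * ((e⁻¹ : Fˣ) : F) := by
      linear_combination h2 - h3
    exact mul_left_cancel₀ (Units.ne_zero e) h4
  have hgd : P⁻¹ * g * P = dg ω := by
    ext
    · rw [key00 g ω hg0 hg1, dg00]
    · rw [dg01]
      -- the entry `ω t + c - t ω⁻¹`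
      have h5 := key11 g ω hg0 hg1
      rw [G_mul11, G_mul10, G_mul11, G_inv10, G_inv11, hP00, hP01, hP10, hP11] at h5
      rw [G_mul01, G_mul00, G_mul01, G_inv00, G_inv01, hP01, hP11]
      linear_combination ((u 0 + t * v 1) * t) * hg0 + ((u 1 - t * v 0) * t) * hg1 +
        (t * ω) * hv - t * h5 + t * (-(v 1) * t) * hg0 + t * (v 0 * t) * hg1 + htc - hcdef
    · rw [key10 g ω hg0 hg1, dg10]
    · rw [key11 g ω hg0 hg1, dg11]
  have hEc : (P⁻¹ * E * P) * dg ω = dg ω * (P⁻¹ * E * P) := by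
    rw [← hgd]
    calc P⁻¹ * E * P * (P⁻¹ * g * P) = P⁻¹ * (E * g) * P := by group
      _ = P⁻¹ * (g * E) * P := by rw [hc]
      _ = P⁻¹ * g * P * (P⁻¹ * E * P) := by group
  have hEd : P⁻¹ * E * P = dg ε := by
    ext
    · rw [key00 E ε hE0 hE1, dg00]
    · rw [dg01]
      have h := congrArg (fun z : G F => z.1 0 1) hEc
      simp only [G_mul01 _ (dg ω), G_mul01 (dg ω), dg00, dg01, dg11, mul_zero, zero_mul, zero_add,
        add_zero] at h
      have h2 : (P⁻¹ * E * P).1 0 1 * ((ω : F) - ((ω⁻¹ : Fˣ) : F)) = 0 := by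
        linear_combination - h
      exact (mul_eq_zero.1 h2).resolve_right hd
    · rw [key10 E ε hE0 hE1, dg10]
    · rw [key11 E ε hE0 hE1, dg11]
  refine ⟨P⁻¹, ?_, ?_⟩
  · rw [inv_inv]; exact hgd
  · rw [inv_inv]; exact hEd

end

theorem prf_RingDInv (hDPathAppend : DPathAppend) (hPathEmb : PathEmb) (hNclInv : NclInv)
    (hPathProd : PathProd) (hRingConj : RingConj) (hWidTwo : WidTwo) (hPathRight : PathRight) :
    RingDInv := by
  intro F _ M τ ε ω hω hD
  obtain ⟨s₂, τa, τb, Θa, Θb, hD1, hD2, q1, q2⟩ := (hDPathAppend F M _ _ _ _ _ _).1 hD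
  obtain ⟨s₁, τ₁, τ₂, Θ₁, Θ₂, hD3, hD4, q3, q4⟩ := (hDPathAppend F M _ _ _ _ _ _).1 hD1
  obtain ⟨q5, g1⟩ := L_RingDInv_emb hPathEmb hD3
  obtain ⟨q6, g4⟩ := L_RingDInv_emb hPathEmb hD2
  -- the cups
  obtain ⟨r₁, a₁, b₁, h1, g2, p1⟩ := L_NclInv_cons g1
  obtain ⟨x, rfl, p2⟩ := L_NclInv_cup0 h1
  obtain ⟨r₂, a₂, b₂, h2, g3, p3⟩ := L_NclInv_cons g2
  obtain ⟨z, t, t', e1, rfl, h2b⟩ := L_NclInv_cup1 h2
  obtain ⟨y, rfl, p4⟩ := L_NclInv_cup0 h2b
  obtain ⟨rfl, rfl⟩ := List.cons.inj e1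
  -- the ring word
  have hwid : wid Tw 2 = some 2 := by decide
  have h4 := (hPathRight F M Tw 2 2 [x, y] [y * J, x * J] s₁ b₂ hwid rfl).1 g3
  obtain ⟨s', hl, rfl, h4b⟩ := h4
  obtain ⟨x', y', rfl⟩ := List.length_eq_two.1 hl
  -- the drilled move
  obtain ⟨r₃, a₃, b₃, Θ₃, Θ₄, h5, h6, p5, p6⟩ := L_RingDInv_cons hD4
  obtain ⟨rfl, p7, p8⟩ := L_RingDInv_nil h6
  obtain ⟨E, x₁, y₁, t, ε', ω', v, u, hc, hE, hg, hv, e1, rfl, p9, p10⟩ := L_RingDInv_tw h5
  simp only [List.cons_append, List.nil_append, List.cons.injEq] at e1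
  obtain ⟨rfl, rfl, rfl⟩ := e1
  -- the caps
  obtain ⟨r₄, a₄, b₄, h7, g5, p11⟩ := L_NclInv_cons g4
  obtain ⟨z, t, t', e1, rfl, h7b⟩ := L_NclInv_cap1 h7
  obtain ⟨y₂, rfl⟩ := L_NclInv_cap0 h7b
  obtain ⟨r₅, a₅, b₅, h8, g6, p12⟩ := L_NclInv_cons g5
  obtain ⟨x₂, e2⟩ := L_NclInv_cap0 h8
  obtain ⟨rfl, p13⟩ := L_NclInv_nil g6
  simp only [List.cons.injEq] at e1 e2
  obtain ⟨e3, e4, e5, e6⟩ := e1
  obtain ⟨e7, e8⟩ := e2
  subst e4
  rw [← e3] at e7
  subst e7
  rw [← e6] at e8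
  simp only [List.cons.injEq, and_true] at e8
  have e9 := L_NclInv_solve e5
  have e10 := L_NclInv_solve e8
  -- the pair
  have hΘ : ε = ε' ∧ ω = ω' := by
    rw [q4, q5, q6, p6, p8, p10] at q2
    simpa using q2
  obtain ⟨rfl, rfl⟩ := hΘ
  have hprod : mer M x * mer M y = mer M x' * mer M y' := by
    have h := hPathProd F M Tw [x, y] [x', y'] b₂ h4b
    simpa using h
  obtain ⟨Q, hQg, hQE⟩ := L_RingDInv_diag (mer M x' * mer M y') E ε ω v u hω hc hE hg hv
  have hR : Ring M x y E τ := by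
    refine ⟨?_, x', y', b₂, a₅, a₄, h4b, e10, e9, ?_⟩
    · rw [hprod]; exact hc
    · rw [q1, q3, p1, p2, p3, p4, p5, p7, p9, p11, p12, p13]
      simp only [one_mul, mul_one]
      rw [mul_comm a₄ a₅, mul_assoc]
  refine ⟨Q * x, Q * y, ?_, ?_⟩
  · rw [mer_mul, mer_mul, ← hQg, ← hprod]
    group
  · rw [← hQE]
    exact hRingConj F M Q x y E τ hR

end AJM

end

section

/-!
# MP_d3fa71_gt, project Mut: item RingIso
-/

open Filter

namespace AJM

/-- the characteristic of the ultrapower -/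
theorem L_RingIso_charZero (F : Type) [Field F] [Algebra ℂ F] : CharZero (Gm F) := by
  have f : ℂ →+* Gm F :=
    (gm F).comp ((RingHom.compLeft (algebraMap ℂ F) ℕ).comp (Pi.constRingHom ℕ ℂ))
  exact charZero_of_injective_ringHom f.injective

theorem prf_RingIso (hGermPath : GermPath) (hIso : Iso) : RingIso := by
  intro F _ _ M τ ε ω h D D'
  have := L_RingIso_charZero F
  have h1 := hGermPath F rwd M τ 1 (fun _ i => (ε i, ω i)) (fun i => by
    rw [List.ofFn_succ, List.ofFn_zero]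
    exact h i)
  have h2 := hIso (kst F) (Gm F) D D' (gu M) rwd (gu τ) _ h1
  rw [List.map_ofFn, List.sum_ofFn, Fin.sum_univ_one] at h2
  exact h2

end AJM

end

section

/-!
# MP_d3fa71_gt, project Mut, block L: the seven slots
-/

namespace AJM

/-- A word depending on `x` through exactly one shifted occurrence of `x`. -/
def L_SlotSplit_Slot (f : List Mv → List Mv) : Prop :=
  ∃ (w₁ w₂ : List Mv) (i : ℕ), ∀ x : List Mv, f x = w₁ ++ sh i x ++ w₂

theorem L_SlotSplit_sh_zero (w : List Mv) : sh 0 w = w := by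
  simp [sh]

theorem L_SlotSplit_sh_append (k : ℕ) (v w : List Mv) : sh k (v ++ w) = sh k v ++ sh k w := by
  simp [sh]

theorem L_SlotSplit_sh_sh (k l : ℕ) (w : List Mv) : sh k (sh l w) = sh (l + k) w := by
  simp [sh, List.map_map, Function.comp_def, add_assoc]

theorem L_SlotSplit_id : L_SlotSplit_Slot (fun x => x) :=
  ⟨[], [], 0, fun x => by simp [L_SlotSplit_sh_zero]⟩

theorem L_SlotSplit_left {f : List Mv → List Mv} (a : List Mv) (h : L_SlotSplit_Slot f) :
    L_SlotSplit_Slot (fun x => a ++ f x) := by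
  obtain ⟨w₁, w₂, i, hf⟩ := h
  exact ⟨a ++ w₁, w₂, i, fun x => by simp [hf, List.append_assoc]⟩

theorem L_SlotSplit_right {f : List Mv → List Mv} (a : List Mv) (h : L_SlotSplit_Slot f) :
    L_SlotSplit_Slot (fun x => f x ++ a) := by
  obtain ⟨w₁, w₂, i, hf⟩ := h
  exact ⟨w₁, w₂ ++ a, i, fun x => by simp [hf, List.append_assoc]⟩

theorem L_SlotSplit_cons {f : List Mv → List Mv} (m : Mv) (h : L_SlotSplit_Slot f) :
    L_SlotSplit_Slot (fun x => m :: f x) := by
  obtain ⟨w₁, w₂, i, hf⟩ := h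
  exact ⟨m :: w₁, w₂, i, fun x => by simp [hf]⟩

theorem L_SlotSplit_sh {f : List Mv → List Mv} (k : ℕ) (h : L_SlotSplit_Slot f) :
    L_SlotSplit_Slot (fun x => sh k (f x)) := by
  obtain ⟨w₁, w₂, i, hf⟩ := h
  exact ⟨sh k w₁, sh k w₂, i + k, fun x => by
    simp [hf, L_SlotSplit_sh_append, L_SlotSplit_sh_sh]⟩

theorem L_SlotSplit_rot {f : List Mv → List Mv} (h : L_SlotSplit_Slot f) :
    L_SlotSplit_Slot (fun x => rot (f x)) := by
  unfold rot
  exact L_SlotSplit_right _ (L_SlotSplit_cons _ (L_SlotSplit_sh 1 h))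

theorem L_SlotSplit_Ncl {f : List Mv → List Mv} (h : L_SlotSplit_Slot f) :
    L_SlotSplit_Slot (fun x => Ncl (f x)) := by
  unfold Ncl
  exact L_SlotSplit_right _ (L_SlotSplit_left _ h)

theorem prf_SlotSplit : SlotSplit := by
  intro k v m
  change L_SlotSplit_Slot (fun x => Kw' k (Function.update v m x))
  unfold Kw'
  apply L_SlotSplit_Ncl
  fin_cases m
  · simp only [Fin.zero_eta, Function.update_self, ne_eq, Fin.reduceEq, not_false_eq_true,
      Function.update_of_ne]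
    refine L_SlotSplit_right _ (L_SlotSplit_right _ (L_SlotSplit_right _ (L_SlotSplit_right _
      (L_SlotSplit_right _ ?_))))
    unfold Bw
    exact L_SlotSplit_right _ (L_SlotSplit_rot (L_SlotSplit_right _ (L_SlotSplit_right _
      (L_SlotSplit_right _ (L_SlotSplit_rot (L_SlotSplit_right _ L_SlotSplit_id))))))
  · simp only [Fin.mk_one, Function.update_self, ne_eq, Fin.reduceEq, not_false_eq_true,
      Function.update_of_ne]
    refine L_SlotSplit_right _ (L_SlotSplit_right _ (L_SlotSplit_right _ (L_SlotSplit_right _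
      (L_SlotSplit_right _ ?_))))
    unfold Bw
    exact L_SlotSplit_right _ (L_SlotSplit_rot (L_SlotSplit_right _ (L_SlotSplit_right _
      (L_SlotSplit_left _ (L_SlotSplit_rot (L_SlotSplit_right _ L_SlotSplit_id))))))
  · simp only [Fin.reduceFinMk, Function.update_self, ne_eq, Fin.reduceEq, not_false_eq_true,
      Function.update_of_ne]
    refine L_SlotSplit_right _ (L_SlotSplit_right _ (L_SlotSplit_right _ (L_SlotSplit_right _
      (L_SlotSplit_right _ ?_))))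
    unfold Bw
    exact L_SlotSplit_right _ (L_SlotSplit_rot (L_SlotSplit_right _
      (L_SlotSplit_left _ (L_SlotSplit_rot (L_SlotSplit_right _ L_SlotSplit_id)))))
  · simp only [Fin.reduceFinMk, Function.update_self, ne_eq, Fin.reduceEq, not_false_eq_true,
      Function.update_of_ne]
    refine L_SlotSplit_right _ (L_SlotSplit_right _ (L_SlotSplit_right _ (L_SlotSplit_right _
      (L_SlotSplit_left _ ?_))))
    unfold Pw
    exact L_SlotSplit_rot (L_SlotSplit_right _ L_SlotSplit_id)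
  · simp only [Fin.reduceFinMk, Function.update_self, ne_eq, Fin.reduceEq, not_false_eq_true,
      Function.update_of_ne]
    refine L_SlotSplit_right _ (L_SlotSplit_right _ (L_SlotSplit_left _ ?_))
    unfold Pr
    exact L_SlotSplit_right _ (L_SlotSplit_cons _ (L_SlotSplit_sh 1
      (L_SlotSplit_left _ L_SlotSplit_id)))
  · simp only [Fin.reduceFinMk, Function.update_self, ne_eq, Fin.reduceEq, not_false_eq_true,
      Function.update_of_ne]
    refine L_SlotSplit_right _ (L_SlotSplit_right _ (L_SlotSplit_right _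
      (L_SlotSplit_left _ ?_)))
    unfold Gw
    exact L_SlotSplit_rot (L_SlotSplit_right _ L_SlotSplit_id)
  · simp only [Fin.reduceFinMk, Function.update_self, ne_eq, Fin.reduceEq, not_false_eq_true,
      Function.update_of_ne]
    refine L_SlotSplit_left _ ?_
    unfold Fw
    exact L_SlotSplit_right _ (L_SlotSplit_right _ (L_SlotSplit_cons _ (L_SlotSplit_sh 1
      (L_SlotSplit_right _ L_SlotSplit_id))))

end AJM

end

section

/-!
# MP_d3fa71_gt, project Mut: item Subst1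
-/

set_option autoImplicit false

open Filter

namespace AJM

/-- the exponent of the first variable. -/
def L_Subst1_E (n : ℤ) (C : ℕ) (m : Fin 3 →₀ ℕ) : ℕ := ((m 0 : ℤ) + n * m 2 + |n| * C).toNat

/-- the new exponents. -/
noncomputable def L_Subst1_e (n : ℤ) (C : ℕ) (m : Fin 3 →₀ ℕ) : Fin 2 →₀ ℕ :=
  Finsupp.equivFunOnFinite.symm ![L_Subst1_E n C m, m 1]

theorem L_Subst1_e0 (n : ℤ) (C : ℕ) (m : Fin 3 →₀ ℕ) :
    L_Subst1_e n C m 0 = L_Subst1_E n C m := rfl
theorem L_Subst1_e1 (n : ℤ) (C : ℕ) (m : Fin 3 →₀ ℕ) : L_Subst1_e n C m 1 = m 1 := rfl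

theorem L_Subst1_Ecast {n : ℤ} {C : ℕ} {m : Fin 3 →₀ ℕ} (h : m 2 ≤ C) :
    ((L_Subst1_E n C m : ℕ) : ℤ) = (m 0 : ℤ) + n * m 2 + |n| * C := by
  unfold L_Subst1_E
  rw [Int.toNat_of_nonneg]
  have h1 : -(|n| * (m 2 : ℤ)) ≤ n * m 2 := by
    have := neg_abs_le (n * (m 2 : ℤ))
    rw [abs_mul, Nat.abs_cast] at this
    exact this
  have h2 : |n| * (m 2 : ℤ) ≤ |n| * (C : ℤ) :=
    mul_le_mul_of_nonneg_left (by exact_mod_cast h) (abs_nonneg n)
  have h3 : (0 : ℤ) ≤ m 0 := Int.natCast_nonneg _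
  linarith

theorem L_Subst1_inj {n : ℤ} {C : ℕ} {m m' : Fin 3 →₀ ℕ} (hC : (C : ℤ) < |n|)
    (h : ∀ j, m j ≤ C) (h' : ∀ j, m' j ≤ C) (he : L_Subst1_e n C m = L_Subst1_e n C m') :
    m = m' := by
  have e0 := DFunLike.congr_fun he 0
  have e1 := DFunLike.congr_fun he 1
  rw [L_Subst1_e0, L_Subst1_e0] at e0
  rw [L_Subst1_e1, L_Subst1_e1] at e1
  have e0' : ((L_Subst1_E n C m : ℕ) : ℤ) = ((L_Subst1_E n C m' : ℕ) : ℤ) := by rw [e0]
  rw [L_Subst1_Ecast (h 2), L_Subst1_Ecast (h' 2)] at e0'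
  have h3 : n * ((m 2 : ℤ) - m' 2) = (m' 0 : ℤ) - m 0 := by linarith
  have h4 : |(m' 0 : ℤ) - m 0| ≤ C := by
    have a1 := h 0
    have a2 := h' 0
    rw [abs_le]
    constructor <;> omega
  have h5 : (m 2 : ℤ) - m' 2 = 0 := by
    by_contra hne
    have h6 : 1 ≤ |(m 2 : ℤ) - m' 2| := Int.one_le_abs hne
    have h7 : |n| * |(m 2 : ℤ) - m' 2| ≤ C := by
      rw [← abs_mul, h3]
      exact h4
    nlinarith [abs_nonneg n]
  rw [h5, mul_zero] at h3
  ext j
  fin_cases j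
  · show m 0 = m' 0
    omega
  · exact e1
  · show m 2 = m' 2
    omega

theorem prf_Subst1 : Subst1 := by
  classical
  intro k F _ _ _ M ω s n C Q hQ hs hdeg hC hz
  have hle : ∀ m ∈ Q.support, ∀ j, m j ≤ C := fun m hm j =>
    (MvPolynomial.degreeOf_le_iff.1 (hdeg j)) m hm
  set P : MvPolynomial (Fin 2) k := ∑ m ∈ Q.support,
    MvPolynomial.monomial (L_Subst1_e n C m) (Q.coeff m * s ^ (m 2)) with hP
  have hcoeff : ∀ d, P.coeff d = ∑ m ∈ Q.support,
      if L_Subst1_e n C m = d then Q.coeff m * s ^ (m 2) else 0 := by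
    intro d
    rw [hP, MvPolynomial.coeff_sum]
    refine Finset.sum_congr rfl fun m _ => ?_
    rw [MvPolynomial.coeff_monomial]
  refine ⟨P, ?_, ?_, ?_⟩
  · obtain ⟨m, hm⟩ := Finset.nonempty_iff_ne_empty.2
      (fun h => hQ (MvPolynomial.support_eq_empty.1 h))
    intro h0
    have h1 := hcoeff (L_Subst1_e n C m)
    rw [h0, MvPolynomial.coeff_zero, Finset.sum_eq_single m] at h1
    · rw [if_pos rfl] at h1
      rcases mul_eq_zero.1 h1.symm with h2 | h2
      · exact MvPolynomial.mem_support_iff.1 hm h2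
      · exact pow_ne_zero _ hs h2
    · intro m' hm' hne
      rw [if_neg]
      intro he
      exact hne (L_Subst1_inj hC (hle m' hm') (hle m hm) he)
    · intro h
      exact absurd hm h
  · rw [MvPolynomial.degreeOf_le_iff]
    intro d hd
    rw [MvPolynomial.mem_support_iff, hcoeff d] at hd
    obtain ⟨m, hm, hne⟩ := Finset.exists_ne_zero_of_sum_ne_zero hd
    have h1 : L_Subst1_e n C m = d := by
      by_contra h
      exact hne (if_neg h)
    rw [← h1, L_Subst1_e1]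
    exact hle m hm 1
  · have h1 : MvPolynomial.aeval ![(M : F), (ω : F)] P =
        (M : F) ^ (|n| * C) * MvPolynomial.aeval
          ![(M : F), (ω : F), algebraMap k F s * ((M ^ n : Fˣ) : F)] Q := by
      rw [hP, map_sum, MvPolynomial.aeval_def, MvPolynomial.eval₂_eq', Finset.mul_sum]
      refine Finset.sum_congr rfl fun m hm => ?_
      rw [MvPolynomial.aeval_monomial, Finsupp.prod_fintype _ _ (fun i => pow_zero _),
        Fin.prod_univ_two, Fin.prod_univ_three, L_Subst1_e0, L_Subst1_e1]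
      have hM : (M : F) ≠ 0 := M.ne_zero
      have h2 : (M : F) ^ (L_Subst1_E n C m) =
          (M : F) ^ (m 0) * ((M : F) ^ n) ^ (m 2) * (M : F) ^ (|n| * (C : ℤ)) := by
        rw [← zpow_natCast, L_Subst1_Ecast (hle m hm 2), zpow_add₀ hM, zpow_add₀ hM,
          zpow_natCast, zpow_mul, zpow_natCast]
      show algebraMap k F (Q.coeff m * s ^ (m 2)) * ((M : F) ^ (L_Subst1_E n C m) *
          (ω : F) ^ (m 1)) = (M : F) ^ (|n| * (C : ℤ)) * (algebraMap k F (Q.coeff m) *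
          ((M : F) ^ (m 0) * (ω : F) ^ (m 1) *
            (algebraMap k F s * ((M ^ n : Fˣ) : F)) ^ (m 2)))
      rw [h2, map_mul, map_pow, mul_pow, Units.val_zpow_eq_zpow_val]
      ring
    rw [h1, hz, mul_zero]

end AJM

end

section

set_option autoImplicit false

/-!
# Substitution of a large power of the second variable
-/

namespace AJM

theorem L_Subst2_gen {k F : Type} [Field k] [Field F] [Algebra k F] (x y u c : F) (s : k)
    (Q : MvPolynomial (Fin 3) k) (e : (Fin 3 →₀ ℕ) → (Fin 2 →₀ ℕ)) (j : Fin 2) (C : ℕ)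
    (hQ : Q ≠ 0) (hs : s ≠ 0) (hinj : ∀ m ∈ Q.support, ∀ m' ∈ Q.support, e m = e m' → m = m')
    (he : ∀ m ∈ Q.support, x ^ (e m 0) * y ^ (e m 1) = c * (x ^ m 0 * y ^ m 1 * u ^ m 2))
    (hC : ∀ m ∈ Q.support, e m j ≤ C)
    (h0 : MvPolynomial.aeval ![x, y, algebraMap k F s * u] Q = 0) :
    ∃ P : MvPolynomial (Fin 2) k, P ≠ 0 ∧ P.degreeOf j ≤ C ∧
      MvPolynomial.aeval ![x, y] P = 0 := by
  classical
  set P : MvPolynomial (Fin 2) k :=
    ∑ m ∈ Q.support, MvPolynomial.monomial (e m) (MvPolynomial.coeff m Q * s ^ m 2) with hP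
  refine ⟨P, ?_, ?_, ?_⟩
  · obtain ⟨m₀, hm₀⟩ := MvPolynomial.support_nonempty.2 hQ
    intro h
    have h1 : MvPolynomial.coeff (e m₀) P = MvPolynomial.coeff m₀ Q * s ^ m₀ 2 := by
      rw [hP, MvPolynomial.coeff_sum, Finset.sum_eq_single_of_mem m₀ hm₀]
      · rw [MvPolynomial.coeff_monomial, if_pos rfl]
      · intro m hm hne
        rw [MvPolynomial.coeff_monomial, if_neg fun h2 => hne (hinj m hm m₀ hm₀ h2)]
    rw [h, MvPolynomial.coeff_zero] at h1
    exact mul_ne_zero (MvPolynomial.mem_support_iff.1 hm₀) (pow_ne_zero _ hs) h1.symm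
  · rw [MvPolynomial.degreeOf_le_iff]
    intro d hd
    have h1 := MvPolynomial.support_sum hd
    rw [Finset.mem_biUnion] at h1
    obtain ⟨m, hm, h2⟩ := h1
    have h3 := MvPolynomial.support_monomial_subset h2
    rw [Finset.mem_singleton] at h3
    rw [h3]
    exact hC m hm
  · have h1 : MvPolynomial.aeval ![x, y] P =
        c * MvPolynomial.aeval ![x, y, algebraMap k F s * u] Q := by
      rw [hP, map_sum, MvPolynomial.aeval_def _ Q, MvPolynomial.eval₂_eq', Finset.mul_sum]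
      refine Finset.sum_congr rfl fun m hm => ?_
      rw [MvPolynomial.aeval_monomial, Finsupp.prod_fintype _ _ (by simp), Fin.prod_univ_two,
        Fin.prod_univ_three]
      simp only [Matrix.cons_val_zero, Matrix.cons_val_one, Matrix.cons_val, map_mul, map_pow]
      have h2 := he m hm
      rw [h2]
      ring
    rw [h1, h0, mul_zero]

/-- The exponent function. -/
noncomputable def L_Subst2_e (a b c : ℕ) (n : ℤ) (C : ℕ) : Fin 2 →₀ ℕ :=
  Finsupp.equivFunOnFinite.symm ![a, (b + n * c + |n| * C).toNat]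

theorem prf_Subst2 : Subst2 := by
  intro k F _ _ _ M ω s n C Q hQ hs hd hn h0
  have hsup : ∀ m ∈ Q.support, ∀ j, m j ≤ C := fun m hm j =>
    (MvPolynomial.degreeOf_le_iff.1 (hd j)) m hm
  have hnn : ∀ m ∈ Q.support, 0 ≤ ((m 1 : ℕ) : ℤ) + n * (m 2 : ℕ) + |n| * C := by
    intro m hm
    have h1 : ((m 2 : ℕ) : ℤ) ≤ C := by exact_mod_cast hsup m hm 2
    have h2 := neg_abs_le n
    have h3 := abs_nonneg n
    have h4 : -|n| * (m 2 : ℕ) ≤ n * (m 2 : ℕ) := mul_le_mul_of_nonneg_right h2 (by positivity)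
    have h5 : |n| * (m 2 : ℕ) ≤ |n| * C := mul_le_mul_of_nonneg_left h1 h3
    have h6 : (0 : ℤ) ≤ ((m 1 : ℕ) : ℤ) := by positivity
    linarith
  refine L_Subst2_gen (M : F) (ω : F) ((ω ^ n : Fˣ) : F) ((ω ^ (|n| * C) : Fˣ) : F) s Q
    (fun m => L_Subst2_e (m 0) (m 1) (m 2) n C) 0 C hQ hs ?_ ?_ ?_ h0
  · intro m hm m' hm' h
    have ha := DFunLike.congr_fun h 0
    have hb := DFunLike.congr_fun h 1
    simp only [L_Subst2_e, Finsupp.equivFunOnFinite_symm_apply_apply, Matrix.cons_val_zero,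
      Matrix.cons_val_one] at ha hb
    have hb' : ((m 1 : ℕ) : ℤ) + n * (m 2 : ℕ) + |n| * C =
        ((m' 1 : ℕ) : ℤ) + n * (m' 2 : ℕ) + |n| * C := by
      have := congrArg (fun t : ℕ => (t : ℤ)) hb
      simp only [Int.toNat_of_nonneg (hnn m hm), Int.toNat_of_nonneg (hnn m' hm')] at this
      exact this
    have h1 : n * (((m 2 : ℕ) : ℤ) - (m' 2 : ℕ)) = ((m' 1 : ℕ) : ℤ) - (m 1 : ℕ) := by linarith
    have h2 : |(((m' 1 : ℕ) : ℤ) - (m 1 : ℕ))| ≤ C := by
      have e1 : ((m 1 : ℕ) : ℤ) ≤ C := by exact_mod_cast hsup m hm 1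
      have e2 : ((m' 1 : ℕ) : ℤ) ≤ C := by exact_mod_cast hsup m' hm' 1
      rw [abs_le]
      constructor <;> omega
    have h3 : ((m 2 : ℕ) : ℤ) - (m' 2 : ℕ) = 0 := by
      by_contra hne
      have h4 : 1 ≤ |(((m 2 : ℕ) : ℤ) - (m' 2 : ℕ))| := Int.one_le_abs hne
      have h5 : |n| * |(((m 2 : ℕ) : ℤ) - (m' 2 : ℕ))| ≤ C := by
        rw [← abs_mul, h1]; exact h2
      nlinarith [abs_nonneg n]
    rw [h3, mul_zero] at h1
    ext j
    fin_cases j
    · exact ha
    · show m 1 = m' 1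
      omega
    · show m 2 = m' 2
      omega
  · intro m hm
    simp only [L_Subst2_e, Finsupp.equivFunOnFinite_symm_apply_apply, Matrix.cons_val_zero,
      Matrix.cons_val_one]
    have h1 : (ω : F) ^ (((m 1 : ℕ) : ℤ) + n * (m 2 : ℕ) + |n| * C).toNat =
        ((ω ^ (((m 1 : ℕ) : ℤ) + n * (m 2 : ℕ) + |n| * C) : Fˣ) : F) := by
      rw [← Units.val_pow_eq_pow_val]
      congr 1
      rw [← zpow_natCast, Int.toNat_of_nonneg (hnn m hm)]
    rw [h1, zpow_add, zpow_add, zpow_mul, zpow_natCast, zpow_natCast]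
    push_cast
    ring
  · intro m hm
    simp only [L_Subst2_e, Finsupp.equivFunOnFinite_symm_apply_apply, Matrix.cons_val_zero]
    exact hsup m hm 0

end AJM

end

section

/-!
# Block L, item WedgeZero
-/

open Filter

namespace AJM

/-- A derivation which kills `x` kills `k(x)`. -/
lemma L_WedgeZero_adj {k L : Type} [Field k] [Field L] [Algebra k L] {x : L}
    (E : Derivation k L L) (hx : E x = 0) :
    ∀ u ∈ IntermediateField.adjoin k {x}, E u = 0 := by
  intro u hu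
  induction hu using IntermediateField.adjoin_induction with
  | mem y hy => rw [Set.mem_singleton_iff.1 hy]; exact hx
  | algebraMap c => exact E.map_algebraMap c
  | add a b _ _ ha hb => rw [map_add, ha, hb, add_zero]
  | inv a _ ha => rw [Derivation.leibniz_inv, ha, smul_zero]
  | mul a b _ _ ha hb => rw [E.leibniz, ha, hb, smul_zero, smul_zero, add_zero]

/-- A derivation which kills `x` kills everything algebraic over `k(x)`. -/
lemma L_WedgeZero_kill {k L : Type} [Field k] [Field L] [Algebra k L] [CharZero L] {x u : L}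
    (E : Derivation k L L) (hx : E x = 0)
    (hu : IsAlgebraic (IntermediateField.adjoin k {x}) u) : E u = 0 := by
  have hadj := L_WedgeZero_adj E hx
  let E' : Derivation (IntermediateField.adjoin k {x}) L L :=
    { toFun := fun v => E v
      map_add' := fun a b => map_add E a b
      map_smul' := fun c a => by
        show E ((c : L) * a) = (c : L) * E a
        rw [E.leibniz, hadj c c.2, smul_zero, add_zero, smul_eq_mul]
      map_one_eq_zero' := E.map_one_eq_zero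
      leibniz' := fun a b => E.leibniz a b }
  have hE : E' u = E u := rfl
  have hirr := minpoly.irreducible hu.isIntegral
  have hcz : CharZero (IntermediateField.adjoin k {x}) :=
    ⟨fun a b h => by
      have h2 := congrArg (algebraMap (IntermediateField.adjoin k {x}) L) h
      rw [map_natCast, map_natCast] at h2
      exact Nat.cast_injective h2⟩
  have hsep : (minpoly (IntermediateField.adjoin k {x}) u).Separable := hirr.separable
  have h0 : Polynomial.aeval u (minpoly (IntermediateField.adjoin k {x}) u) = 0 :=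
    minpoly.aeval _ _
  have hne := hsep.aeval_derivative_ne_zero h0
  have h1 := Derivation.map_aeval E' (minpoly (IntermediateField.adjoin k {x}) u) u
  rw [h0, map_zero, smul_eq_mul] at h1
  rcases mul_eq_zero.1 h1.symm with h | h
  · exact absurd h hne
  · rw [← hE, h]

theorem prf_WedgeZero : WedgeZero := by
  intro k L _ _ _ _ x y z hy hz D D'
  have key : ∀ u : L, IsAlgebraic (IntermediateField.adjoin k {x}) u →
      D' x * D u = D x * D' u := by
    intro u hu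
    have h := L_WedgeZero_kill (D' x • D - D x • D')
      (by simp [smul_eq_mul, mul_comm]) hu
    simpa [smul_eq_mul, sub_eq_zero] using h
  have h1 := key y hy
  have h2 := key z hz
  by_cases ha : D x = 0
  · by_cases hb : D' x = 0
    · rw [L_WedgeZero_kill D ha hy, L_WedgeZero_kill D' hb hy, zero_mul, zero_mul]
    · apply mul_left_cancel₀ hb
      rw [← mul_assoc, h1]
      linear_combination (D' y) * (-h2)
  · apply mul_left_cancel₀ ha
    linear_combination (D z) * h1 - D y * h2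

end AJM

end

section

/-!
# MP_d3fa71_gt, project Mut: statements of block X (A-polynomials, existence and factors)
-/

open Filter Polynomial

namespace AJM

open AJG (PGroup EigSet Zcl ZeroSet IsAPoly IsEig)

/-- The complexification of a polynomial with integer coefficients. -/
noncomputable def cx (A : ℤ[X][X]) : ℂ[X][X] := A.map (Polynomial.mapRingHom (Int.castRingHom ℂ))

/-- The polynomial `L - e M ^ N`, or `M ^ (-N) L - e`. -/
noncomputable def FNe (e N : ℤ) : ℤ[X][X] :=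
  if 0 ≤ N then X - C (C e * X ^ N.toNat) else C (X ^ (-N).toNat) * X - C (C e)

def FIrr : Prop :=
  ∀ e N : ℤ, (e = 1 ∨ e = -1) → Irreducible (FNe e N) ∧ (FNe e N).natDegree = 1

def FEval : Prop :=
  ∀ (e N : ℤ) (m l : ℂ), m ≠ 0 → (e = 1 ∨ e = -1) →
    ((cx (FNe e N)).evalEval m l = 0 ↔ l = (e : ℂ) * m ^ N)

def FDvd : Prop :=
  ∀ (e N : ℤ) (A : ℤ[X][X]), (e = 1 ∨ e = -1) →
    Set.Infinite {m : ℂ | m ≠ 0 ∧ (cx A).evalEval m ((e : ℂ) * m ^ N) = 0} → FNe e N ∣ A

/-- Points of a set of eigenvalue pairs have non-zero coordinates. -/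
def EigNe : Prop :=
  ∀ (P : PGroup) (p : ℂ × ℂ), p ∈ EigSet P → p.1 ≠ 0 ∧ p.2 ≠ 0

def FDivOf : Prop :=
  ∀ (P : PGroup) (A : ℤ[X][X]) (e N : ℤ), (e = 1 ∨ e = -1) → IsAPoly P A →
    Set.Infinite {m : ℂ | (m, (e : ℂ) * m ^ N) ∈ EigSet P} → FNe e N ∣ A

def FNDivOf : Prop :=
  ∀ (P : PGroup) (A : ℤ[X][X]) (e N : ℤ), (e = 1 ∨ e = -1) → IsAPoly P A →
    Set.Finite {m : ℂ | (m, (e : ℂ) * m ^ N) ∈ EigSet P} → ¬ FNe e N ∣ A

/-! ## Extension of homomorphisms (Atiyah-Macdonald 5.23) -/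

def IntExt : Prop :=
  ∀ (A B K : Type) [CommRing A] [CommRing B] [Algebra A B] [Field K] [IsAlgClosed K],
    Function.Injective (algebraMap A B) → Algebra.IsIntegral A B → ∀ φ : A →+* K,
    ∃ ψ : B →+* K, ψ.comp (algebraMap A B) = φ

/-- `B` is generated by one element over `A`. -/
def HomExt1 : Prop :=
  ∀ (A B K : Type) [CommRing A] [IsDomain A] [CommRing B] [IsDomain B] [Algebra A B] [Field K]
    [IsAlgClosed K], Function.Injective (algebraMap A B) → ∀ x : B,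
    Algebra.adjoin A {x} = ⊤ → ∀ b : B, b ≠ 0 → ∃ a : A, a ≠ 0 ∧ ∀ φ : A →+* K, φ a ≠ 0 →
    ∃ ψ : B →+* K, ψ.comp (algebraMap A B) = φ ∧ ψ b ≠ 0

def HomExt : Prop :=
  ∀ (A B K : Type) [CommRing A] [IsDomain A] [CommRing B] [IsDomain B] [Algebra A B] [Field K]
    [IsAlgClosed K], Function.Injective (algebraMap A B) → Algebra.FiniteType A B → ∀ b : B,
    b ≠ 0 → ∃ a : A, a ≠ 0 ∧ ∀ φ : A →+* K, φ a ≠ 0 →
    ∃ ψ : B →+* K, ψ.comp (algebraMap A B) = φ ∧ ψ b ≠ 0

/-! ## Plane curves -/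

/-- An irreducible polynomial and a non-multiple have finitely many common zeros. -/
def FinInter : Prop :=
  ∀ (R : Type) [CommRing R] [IsDomain R] [UniqueFactorizationMonoid R] (φ : R →+* ℂ),
    Function.Injective φ → ∀ g h : R[X][X], Irreducible g → ¬ g ∣ h →
    Set.Finite {p : ℂ × ℂ | (g.map (Polynomial.mapRingHom φ)).evalEval p.1 p.2 = 0 ∧
      (h.map (Polynomial.mapRingHom φ)).evalEval p.1 p.2 = 0}

/-- Zero sets of complex polynomials have no isolated points. -/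
def NoIso : Prop :=
  ∀ (g G : ℂ[X][X]) (T : Set (ℂ × ℂ)), T.Finite → g ≠ 0 →
    (∀ p : ℂ × ℂ, g.evalEval p.1 p.2 = 0 → p ∉ T → G.evalEval p.1 p.2 = 0) →
    ∀ p : ℂ × ℂ, g.evalEval p.1 p.2 = 0 → G.evalEval p.1 p.2 = 0

/-- Zero sets together with finite sets are closed. -/
def ClosedFin : Prop :=
  ∀ (A : ℤ[X][X]) (E T : Set (ℂ × ℂ)), T.Finite → E ⊆ ZeroSet A ∪ T →
    Zcl E ⊆ ZeroSet A ∪ T

/-! ## Representations over the ultrapower -/

/-- The prime field of the ultrapower. -/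
noncomputable abbrev pf : Subfield (Gm ℂ) := ⊥

/-- Constants in the ultrapower. -/
noncomputable def cst : ℂ →+* Gm ℂ := (gm ℂ).comp (Pi.constRingHom ℕ ℂ)

noncomputable instance algGm : Algebra ℂ (Gm ℂ) where
  algebraMap := cst
  commutes' := fun r x => mul_comm _ _
  smul_def' := by
    intro r x
    refine Filter.Germ.inductionOn x fun f => ?_
    rfl

/-- The algebraic closure of the ultrapower. -/
abbrev FF : Type := AlgebraicClosure (Gm ℂ)

/-- Representations into `SL₂ F` with a common eigenvector of meridian and longitude. -/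
def EigF (P : PGroup) (F : Type) [Field F] : Set (F × F) :=
  {p | ∃ (ρ : P.G →* G F) (w : Fin 2 → F), w ≠ 0 ∧
    Matrix.mulVec (ρ P.mer).1 w = p.1 • w ∧ Matrix.mulVec (ρ P.lon).1 w = p.2 • w}

def EigFC : Prop := ∀ P : PGroup, EigF P ℂ = EigSet P

/-- Germs of representations. -/
def EigGerm : Prop :=
  ∀ (P : PGroup) (M L : ℕ → ℂ), (∀ i, (M i, L i) ∈ EigSet P) →
    ((gm ℂ M, gm ℂ L) : Gm ℂ × Gm ℂ) ∈ EigF P (Gm ℂ)

/-- Extension of the field. -/
def EigMap : Prop :=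
  ∀ (P : PGroup) (F K : Type) [Field F] [Field K] (f : F →+* K) (p : F × F),
    p ∈ EigF P F → (f p.1, f p.2) ∈ EigF P K

/-- The dimension hypothesis (it follows from isotropy). -/
def DimH (P : PGroup) : Prop :=
  ∀ (M L : ℕ → ℂˣ), (∀ i, ((M i : ℂ), (L i : ℂ)) ∈ EigSet P) → (∀ i, (M i : ℂ) ^ 2 ≠ 1) →
    ∀ D D' : Derivation pf (Gm ℂ) (Gm ℂ),
      D (gu M : Gm ℂ) * D' (gu L : Gm ℂ) = D' (gu M : Gm ℂ) * D (gu L : Gm ℂ)

/-- A relation over the prime field is a relation over `ℤ` at many indices. -/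
def PfRel : Prop :=
  ∀ M L : ℕ → ℂ, ¬ AlgebraicIndependent pf ![gm ℂ M, gm ℂ L] →
    ∃ f : ℤ[X][X], f ≠ 0 ∧
      ∀ᶠ i in (hyperfilter ℕ : Filter ℕ), (cx f).evalEval (M i) (L i) = 0

/-- The eigenvalue pairs lie on one curve with integer coefficients. -/
def RatCurve : Prop :=
  ∀ P : PGroup, DimH P → ∃ f : ℤ[X][X], f ≠ 0 ∧ ∀ p ∈ EigSet P, (cx f).evalEval p.1 p.2 = 0

/-- If an irreducible curve contains infinitely many eigenvalue pairs, all but finitely many of
its points are eigenvalue pairs. -/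
def CurveInf : Prop :=
  ∀ (P : PGroup), Group.FG P.G → ∀ g : ℤ[X][X], Irreducible g →
    Set.Infinite {p : ℂ × ℂ | p ∈ EigSet P ∧ (cx g).evalEval p.1 p.2 = 0} →
    Set.Finite {p : ℂ × ℂ | (cx g).evalEval p.1 p.2 = 0 ∧ p ∉ EigSet P}

/-- Existence of the A-polynomial. -/
def AEx : Prop :=
  ∀ P : PGroup, Group.FG P.G → DimH P → ∃ A, IsAPoly P A

/-! ## Generic points on `F` -/

/-- Infinitely many eigenvalue pairs on `F` give a generic one over the algebraic closure of the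
ultrapower. -/
def SpreadInf : Prop :=
  ∀ (P : PGroup) (e N : ℤ), (e = 1 ∨ e = -1) →
    Set.Infinite {m : ℂ | (m, (e : ℂ) * m ^ N) ∈ EigSet P} →
    ∃ M : FFˣ, Transcendental ℂ (M : FF) ∧
      ((M : FF), (e : FF) * ((M ^ N : FFˣ) : FF)) ∈ EigF P FF

end AJM

end
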