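import Pool.Agent.Work.MP_d3fa71_gt.Mut.Bd.B15
import Pool.Agent.Work.MP_d3fa71_gt.Mut.Bd.B08
import Pool.Agent.Work.MP_d3fa71_gt.Mut.Bd.B06
import Pool.Agent.Work.MP_d3fa71_gt.Mut.Bd.B16
import Pool.Agent.Work.MP_d3fa71_gt.Mut.Bd.B07
import Pool.Agent.Work.MP_d3fa71_gt.Bd.B05
import Pool.Agent.Work.MP_d3fa71_gt.Mut.Bd.B01

/-! Bundle of small proof modules (one section per former module). -/

section

/-!
# MP_d3fa71_gt, project Mut: assembly of block L

`KPos_holds` (the positive half for the knots), `LinkNeg_of`, `KNeg_of` (the negative half, from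
the inversion of the coil word `FwInv`).
-/

namespace AJM

theorem KPos_holds : KPos := prf_KPos all_ZPos Vpos_holds prf_EpRoot

theorem RingIso_holds : RingIso := prf_RingIso prf_GermPath prf_Iso

theorem MTrans_holds : MTrans := prf_MTrans prf_PolyGerm

theorem NclInv_holds : NclInv := prf_NclInv prf_PathAppend prf_PathRight

theorem RingDInv_holds : RingDInv :=
  prf_RingDInv prf_DPathAppend prf_PathEmb NclInv_holds prf_PathProd all_RingConj WidTwo_holds
    prf_PathRight

theorem AlgG_holds : AlgG := prf_AlgG tE_RingM prf_MChainMap tE_AlgM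

theorem AlgTau_holds : AlgTau := prf_AlgTau prf_AlgDer

theorem LkI_holds : LkI := prf_LkI all_RingD RingIso_holds prf_DlogSq DTL_holds

theorem LkII_holds : LkII := prf_LkII RingIso_holds prf_DlogSq DTL_holds

theorem LkIIIa_holds : LkIIIa :=
  prf_LkIIIa prf_DepOfAlg prf_PolyGerm prf_GermPoly prf_Subst1 prf_Subst2 prf_BiDeg

theorem LkIIIb_holds : LkIIIb :=
  prf_LkIIIb MTrans_holds prf_AlgOfDep prf_WedgeZero prf_DlogSq DTL_holds

theorem LkIII_holds : LkIII :=
  prf_LkIII all_RingD RingIso_holds prf_GermPath RingDInv_holds AlgG_holds AlgTau_holds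
    MTrans_holds LkIIIa_holds LkIIIb_holds

theorem NclInvZ_holds : NclInvZ := prf_NclInvZ prf_PathAppend prf_PathRightInv

theorem Coil_of (hFwInv : FwInv) : Coil :=
  prf_Coil NclInvZ_holds prf_FitsTw prf_PathAppend prf_PathRightInv prf_PathProd hFwInv

theorem CaseSplit_of (hFwInv : FwInv) : CaseSplit :=
  prf_CaseSplit (Coil_of hFwInv) all_RingConj all_RingD prf_EigEx prf_EigPow

theorem LinkNeg_of (hFwInv : FwInv) : LinkNeg :=
  prf_LinkNeg LkI_holds LkII_holds LkIII_holds (CaseSplit_of hFwInv) tE_E1 tE_E2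

theorem KNeg_of (hFwInv : FwInv) : KNeg :=
  prf_KNeg Vneg_holds (LinkNeg_of hFwInv) prf_SlotSplit

end AJM

end

section

/-!
# MP_d3fa71_gt, project Mut, block Q: assembly
-/

namespace AJM

theorem QIne_holds : QIne := prf_QIne
theorem RelK_holds : RelK := prf_RelK QIne_holds
theorem RelEF_holds : RelEF := prf_RelEF QIne_holds
theorem RelEn_holds : RelEn := prf_RelEn
theorem RelEFk_holds : RelEFk := prf_RelEFk QIne_holds RelK_holds RelEF_holds
theorem RelEkF_holds : RelEkF := prf_RelEkF QIne_holds RelK_holds RelEF_holds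
theorem DRel_holds : DRel := prf_DRel QIne_holds
theorem CkRec_holds : CkRec := prf_CkRec QIne_holds
theorem QE_holds : QE := prf_QE QIne_holds RelK_holds RelEn_holds RelEFk_holds CkRec_holds
theorem QF_holds : QF := prf_QF QIne_holds RelK_holds RelEn_holds RelEkF_holds CkRec_holds
theorem RInt_holds : RInt := prf_RInt RelK_holds DRel_holds QE_holds QF_holds
theorem BInt_holds : BInt := prf_BInt RInt_holds
theorem BiInt_holds : BiInt := prf_BiInt BInt_holds
theorem AbSum_holds : AbSum := prf_AbSum QIne_holds CkRec_holds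
theorem QInv_holds : QInv := prf_QInv RelEn_holds AbSum_holds CkRec_holds
theorem BInvEx_holds : BInvEx := prf_BInvEx QInv_holds
theorem CupInt_holds : CupInt := prf_CupInt QIne_holds
theorem CapInt_holds : CapInt := prf_CapInt QIne_holds
theorem EFeb_holds : EFeb := prf_EFeb
theorem GenTop_holds : GenTop := prf_GenTop QIne_holds EFeb_holds
theorem WtZero_holds : WtZero := prf_WtZero QIne_holds
theorem PolyV_holds : PolyV := prf_PolyV QIne_holds EFeb_holds
theorem Comm2_holds : Comm2 := prf_Comm2 GenTop_holds WtZero_holds PolyV_holds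
theorem EoTwo_holds : EoTwo := prf_EoTwo
theorem MatInt_holds : MatInt := prf_MatInt EoTwo_holds
theorem CupOp_holds : CupOp := prf_CupOp EoTwo_holds CupInt_holds
theorem CapOp_holds : CapOp := prf_CapOp QIne_holds EoTwo_holds CapInt_holds
theorem CrossOp_holds : CrossOp := prf_CrossOp MatInt_holds BInt_holds BiInt_holds
theorem ShOp_holds : ShOp := prf_ShOp
theorem WordInt_holds : WordInt := prf_WordInt CupOp_holds CapOp_holds CrossOp_holds ShOp_holds
theorem OpwAppend_holds : OpwAppend := prf_OpwAppend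
theorem OpLoc_holds : OpLoc := prf_OpLoc
theorem Mat2_holds : Mat2 := prf_Mat2 WordInt_holds OpLoc_holds EoTwo_holds
theorem MoMul_holds : MoMul := prf_MoMul
theorem Exch_holds : Exch := prf_Exch Mat2_holds MoMul_holds Comm2_holds OpwAppend_holds
theorem ZExch_holds : ZExch := prf_ZExch Mat2_holds Exch_holds OpwAppend_holds
theorem WidBlocks_holds : WidBlocks :=
  prf_WidBlocks (prf_WidTwo prf_WidAppend prf_WidSh) prf_WidAppend
theorem QMut_holds : QMut :=
  prf_QMut ZExch_holds WidBlocks_holds (prf_WidTwo prf_WidAppend prf_WidSh)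
theorem OPathAppend_holds : OPathAppend := prf_OPathAppend
theorem OPathSh_holds : OPathSh := prf_OPathSh
theorem OPathNot_holds : OPathNot := prf_OPathNot
theorem OTws_holds : OTws := prf_OTws OPathAppend_holds
theorem OComp_holds : OComp := prf_OComp OPathAppend_holds
theorem ORot_holds : ORot := prf_ORot OPathAppend_holds OPathSh_holds
theorem OVg_holds : OVg := prf_OVg OTws_holds OComp_holds ORot_holds
theorem OBlocks_holds : OBlocks := prf_OBlocks OTws_holds OComp_holds ORot_holds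
theorem OFw_holds : OFw := prf_OFw OPathAppend_holds OPathSh_holds OTws_holds OComp_holds
theorem ONcl_holds : ONcl := prf_ONcl OPathAppend_holds OPathNot_holds
theorem QWr_holds : QWr := prf_QWr OComp_holds OBlocks_holds OFw_holds ONcl_holds OPathAppend_holds
theorem CPathAppend_holds : CPathAppend := prf_CPathAppend
theorem CPathSh_holds : CPathSh := prf_CPathSh
theorem CTws_holds : CTws := prf_CTws CPathAppend_holds
theorem CComp_holds : CComp := prf_CComp CPathAppend_holds
theorem CRot_holds : CRot := prf_CRot CPathAppend_holds CPathSh_holds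
theorem CVg_holds : CVg := prf_CVg CTws_holds CComp_holds CRot_holds
theorem CBlocks_holds : CBlocks := prf_CBlocks CTws_holds CComp_holds CRot_holds
theorem CFw_holds : CFw := prf_CFw CPathAppend_holds CPathSh_holds CTws_holds CComp_holds
theorem CNcl_holds : CNcl := prf_CNcl CPathAppend_holds
theorem QOne_holds : QOne := prf_QOne CComp_holds CBlocks_holds CFw_holds CNcl_holds
theorem QFinal_holds : QFinal :=
  prf_QFinal QMut_holds QWr_holds QOne_holds OVg_holds CVg_holds (prf_WidTwo prf_WidAppend prf_WidSh)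
theorem JUnknot_holds : JUnknot := prf_JUnknot QIne_holds

end AJM

end

section

/-!
# MP_d3fa71_gt, project Mut: existence of the A-polynomial
-/

open Filter Polynomial

namespace AJM

open AJG (PGroup EigSet Zcl ZeroSet IsAPoly)

/-- Evaluation of an integer polynomial at a point. -/
noncomputable def L_AEx_ev (p : ℂ × ℂ) : ℤ[X][X] →+* ℂ :=
  (Polynomial.evalEvalRingHom p.1 p.2).comp
    (Polynomial.mapRingHom (Polynomial.mapRingHom (Int.castRingHom ℂ)))

theorem L_AEx_ev_eq (p : ℂ × ℂ) (f : ℤ[X][X]) :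
    L_AEx_ev p f = (cx f).evalEval p.1 p.2 := rfl

theorem L_AEx_ev_X (p : ℂ × ℂ) : L_AEx_ev p X = p.2 := by
  simp [L_AEx_ev]

theorem L_AEx_cx_ne (g : ℤ[X][X]) (hg : g ≠ 0) : cx g ≠ 0 := by
  unfold cx
  intro h
  apply hg
  apply Polynomial.map_injective (Polynomial.mapRingHom (Int.castRingHom ℂ))
  · exact Polynomial.map_injective _ Int.cast_injective
  · rw [h, Polynomial.map_zero]

theorem L_AEx_ev_prod (p : ℂ × ℂ) (s : Multiset ℤ[X][X]) (h : L_AEx_ev p s.prod = 0) :
    ∃ g ∈ s, L_AEx_ev p g = 0 := by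
  rw [map_multiset_prod, Multiset.prod_eq_zero_iff, Multiset.mem_map] at h
  exact h

theorem L_AEx_ev_mem (p : ℂ × ℂ) (s : Multiset ℤ[X][X]) (g : ℤ[X][X]) (hg : g ∈ s)
    (h : L_AEx_ev p g = 0) : L_AEx_ev p s.prod = 0 := by
  rw [map_multiset_prod, Multiset.prod_eq_zero_iff, Multiset.mem_map]
  exact ⟨g, hg, h⟩

theorem prf_AEx (hRatCurve : RatCurve) (hCurveInf : CurveInf) (hNoIso : NoIso)
    (hClosedFin : ClosedFin) (hEigNe : EigNe) : AEx := by
  classical
  intro P hFG hP
  obtain ⟨f, hf, hfE⟩ := hRatCurve P hP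
  set m : Multiset ℤ[X][X] := UniqueFactorizationMonoid.factors f with hm
  have hirr : ∀ g ∈ m, Irreducible g := fun g hg =>
    UniqueFactorizationMonoid.irreducible_of_factor g hg
  have hprod : Associated m.prod f := UniqueFactorizationMonoid.factors_prod hf
  set good : ℤ[X][X] → Prop := fun g => Set.Infinite {p : ℂ × ℂ | p ∈ EigSet P ∧
    (cx g).evalEval p.1 p.2 = 0} with hgood
  set A : ℤ[X][X] := (m.filter good).prod with hA
  have hA0 : A ≠ 0 := by
    rw [hA]
    apply Multiset.prod_ne_zero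
    intro h0
    exact (hirr 0 (Multiset.mem_of_mem_filter h0)).ne_zero rfl
  have hX : ¬ (X ∣ A) := by
    intro hdvd
    obtain ⟨g, hg, hXg⟩ := Polynomial.prime_X.exists_mem_multiset_dvd hdvd
    obtain ⟨hgm, hgg⟩ := Multiset.mem_filter.1 hg
    have hass := (Polynomial.irreducible_X (R := ℤ[X])).associated_of_dvd (hirr g hgm) hXg
    obtain ⟨c, hc⟩ := hass.symm.dvd
    obtain ⟨p, hp, hp0⟩ := hgg.nonempty
    apply (hEigNe P p hp).2
    rw [← L_AEx_ev_X p, hc, map_mul, L_AEx_ev_eq p g, hp0, zero_mul]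
  -- the bad points
  have hT0 : Set.Finite {p : ℂ × ℂ | p ∈ EigSet P ∧ p ∉ ZeroSet A} := by
    have hsub : {p : ℂ × ℂ | p ∈ EigSet P ∧ p ∉ ZeroSet A} ⊆
        ⋃ g ∈ (m.filter fun g => ¬ good g).toFinset,
          {p : ℂ × ℂ | p ∈ EigSet P ∧ (cx g).evalEval p.1 p.2 = 0} := by
      rintro p ⟨hp, hpA⟩
      have h0 : L_AEx_ev p m.prod = 0 := by
        obtain ⟨c, hc⟩ := hprod.symm.dvd
        rw [hc, map_mul, L_AEx_ev_eq p f, hfE p hp, zero_mul]
      obtain ⟨g, hg, hg0⟩ := L_AEx_ev_prod p m h0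
      simp only [Set.mem_iUnion]
      refine ⟨g, ?_, hp, hg0⟩
      rw [Multiset.mem_toFinset, Multiset.mem_filter]
      refine ⟨hg, fun hgg => hpA ?_⟩
      refine ⟨(hEigNe P p hp).1, (hEigNe P p hp).2, ?_⟩
      exact L_AEx_ev_mem p _ g (Multiset.mem_filter.2 ⟨hg, hgg⟩) hg0
    refine Set.Finite.subset ?_ hsub
    refine Set.Finite.biUnion (Finset.finite_toSet _) ?_
    intro g hg
    have hg' : g ∈ (m.filter fun g => ¬ good g).toFinset := hg
    rw [Multiset.mem_toFinset, Multiset.mem_filter] at hg'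
    exact Set.not_infinite.1 hg'.2
  have hE : EigSet P ⊆ ZeroSet A ∪ {p : ℂ × ℂ | p ∈ EigSet P ∧ p ∉ ZeroSet A} := by
    intro p hp
    by_cases h : p ∈ ZeroSet A
    · exact Or.inl h
    · exact Or.inr ⟨hp, h⟩
  have hcl := hClosedFin A (EigSet P) _ hT0 hE
  have hZ : ZeroSet A ⊆ Zcl (EigSet P) := by
    rintro q ⟨hq1, hq2, hq⟩
    refine ⟨hq1, hq2, fun G hG => ?_⟩
    obtain ⟨g, hg, hg0⟩ := L_AEx_ev_prod q _ hq
    obtain ⟨hgm, hgg⟩ := Multiset.mem_filter.1 hg
    have hfin := hCurveInf P hFG g (hirr g hgm) hgg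
    refine hNoIso (cx g) G _ hfin (L_AEx_cx_ne g (hirr g hgm).ne_zero) ?_ q hg0
    intro p hp hpT
    apply hG
    by_contra hpE
    exact hpT ⟨hp, hpE⟩
  refine ⟨A, hA0, hX, Zcl (EigSet P) \ ZeroSet A, ?_, ?_⟩
  · refine hT0.subset ?_
    rintro p ⟨hp, hpA⟩
    rcases hcl hp with h | h
    · exact absurd h hpA
    · exact h
  · ext p
    constructor
    · intro hp
      by_cases h : p ∈ ZeroSet A
      · exact Or.inl h
      · exact Or.inr ⟨hp, h⟩
    · rintro (h | h)
      · exact hZ h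
      · exact h.1

end AJM

end

section

/-!
# Zero sets together with finite sets are closed
-/

set_option autoImplicit false

open Filter Polynomial

namespace AJM

open AJG (PGroup EigSet Zcl ZeroSet IsAPoly IsEig)

open Classical in
theorem prf_ClosedFin : ClosedFin := by
  intro A E T hT hE p hp
  obtain ⟨h1, h2, h3⟩ := hp
  by_contra hcon
  rw [Set.mem_union, not_or] at hcon
  have hA : (cx A).evalEval p.1 p.2 ≠ 0 := fun h => hcon.1 ⟨h1, h2, h⟩
  let l : ℂ × ℂ → ℂ[X][X] := fun t =>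
    if t.1 = p.1 then X - C (C t.2) else C X - C (C t.1)
  have hl : ∀ t : ℂ × ℂ, (l t).evalEval t.1 t.2 = 0 := by
    intro t
    simp only [l]
    split_ifs <;> simp [evalEval]
  have hl' : ∀ t : ℂ × ℂ, t ≠ p → (l t).evalEval p.1 p.2 ≠ 0 := by
    intro t ht
    simp only [l]
    split_ifs with h
    · have : p.2 - t.2 ≠ 0 := by
        intro h4
        exact ht (Prod.ext h (sub_eq_zero.1 h4).symm)
      simpa [evalEval] using this
    · have : p.1 - t.1 ≠ 0 := by
        intro h4
        exact h (sub_eq_zero.1 h4).symm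
      simpa [evalEval] using this
  have hG := h3 (cx A * ∏ t ∈ hT.toFinset, l t) (by
    intro e he
    have e1 : (cx A * ∏ t ∈ hT.toFinset, l t).evalEval e.1 e.2 =
        (cx A).evalEval e.1 e.2 * ∏ t ∈ hT.toFinset, (l t).evalEval e.1 e.2 := by
      rw [← coe_evalEvalRingHom, map_mul, map_prod]
    rw [e1]
    rcases hE he with h4 | h4
    · have h5 : (cx A).evalEval e.1 e.2 = 0 := h4.2.2
      rw [h5, zero_mul]
    · rw [Finset.prod_eq_zero (hT.mem_toFinset.2 h4) (hl e), mul_zero])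
  have e2 : (cx A * ∏ t ∈ hT.toFinset, l t).evalEval p.1 p.2 =
      (cx A).evalEval p.1 p.2 * ∏ t ∈ hT.toFinset, (l t).evalEval p.1 p.2 := by
    rw [← coe_evalEvalRingHom, map_mul, map_prod]
  rw [e2] at hG
  refine mul_ne_zero hA (Finset.prod_ne_zero_iff.2 fun t ht => hl' t ?_) hG
  rintro rfl
  exact hcon.2 (hT.mem_toFinset.1 ht)

end AJM

end

section

/-!
# MP_d3fa71_gt, project Mut, item `CurveInf`
-/

open Polynomial Filter

namespace AJM

open AJG (PGroup EigSet Zcl ZeroSet IsAPoly IsEig)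

/-- Evaluation at a point. -/
noncomputable def L_CurveInf_ev {R : Type} [CommRing R] (x y : R) : ℤ[X][X] →+* R :=
  (evalEvalRingHom x y).comp (mapRingHom (mapRingHom (Int.castRingHom R)))

theorem L_CurveInf_ev_cx (x y : ℂ) (h : ℤ[X][X]) :
    L_CurveInf_ev x y h = (cx h).evalEval x y := rfl

theorem L_CurveInf_ev_X {R : Type} [CommRing R] (x y : R) :
    L_CurveInf_ev x y (C X) = x := by
  simp [L_CurveInf_ev]

theorem L_CurveInf_ev_Y {R : Type} [CommRing R] (x y : R) :
    L_CurveInf_ev x y X = y := by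
  simp [L_CurveInf_ev]

theorem L_CurveInf_ev_map {R S : Type} [CommRing R] [CommRing S] (f : R →+* S) (x y : R)
    (h : ℤ[X][X]) : f (L_CurveInf_ev x y h) = L_CurveInf_ev (f x) (f y) h := by
  have : f.comp (L_CurveInf_ev x y) = L_CurveInf_ev (f x) (f y) := by
    apply Polynomial.ringHom_ext'
    · apply Polynomial.ringHom_ext'
      · exact RingHom.ext_int _ _
      · simp [L_CurveInf_ev]
    · simp [L_CurveInf_ev]
  exact congrArg (fun k : ℤ[X][X] →+* S => k h) this

theorem L_CurveInf_germ (M L : ℕ → ℂ) (h : ℤ[X][X])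
    (h0 : L_CurveInf_ev (gm ℂ M) (gm ℂ L) h = 0) :
    ∀ᶠ i in (hyperfilter ℕ : Filter ℕ), (cx h).evalEval (M i) (L i) = 0 := by
  rw [← L_CurveInf_ev_map (gm ℂ) M L h] at h0
  have h1 : ∀ᶠ i in (hyperfilter ℕ : Filter ℕ), L_CurveInf_ev M L h i = (0 : ℕ → ℂ) i :=
    Germ.coe_eq.1 h0
  filter_upwards [h1] with i hi
  rw [← L_CurveInf_ev_cx]
  have h2 := L_CurveInf_ev_map (Pi.evalRingHom (fun _ : ℕ => ℂ) i) M L h
  have h3 : L_CurveInf_ev M L h i = L_CurveInf_ev (M i) (L i) h := h2
  rw [← h3, hi]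
  rfl

theorem L_CurveInf_germ' (M L : ℕ → ℂ) (h : ℤ[X][X])
    (h0 : ∀ i, (cx h).evalEval (M i) (L i) = 0) :
    L_CurveInf_ev (gm ℂ M) (gm ℂ L) h = 0 := by
  rw [← L_CurveInf_ev_map (gm ℂ) M L h]
  have : L_CurveInf_ev M L h = 0 := by
    funext i
    have h2 := L_CurveInf_ev_map (Pi.evalRingHom (fun _ : ℕ => ℂ) i) M L h
    have h3 : L_CurveInf_ev M L h i = L_CurveInf_ev (M i) (L i) h := h2
    rw [h3, L_CurveInf_ev_cx, h0]
    rfl
  rw [this, map_zero]

/-- Matrices with entries in a subring. -/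
def L_CurveInf_sub {R : Type} [CommRing R] (B : Subalgebra ℤ R) : Subgroup (G R) where
  carrier := {x | ∀ i j, x.1 i j ∈ B}
  one_mem' := by
    intro i j
    fin_cases i <;> fin_cases j <;> simp
  mul_mem' := by
    intro x y hx hy i j
    have : (x * y).1 i j = x.1 i 0 * y.1 0 j + x.1 i 1 * y.1 1 j := by
      simp [Matrix.mul_apply, Fin.sum_univ_two]
    rw [this]
    exact B.add_mem (B.mul_mem (hx _ _) (hy _ _)) (B.mul_mem (hx _ _) (hy _ _))
  inv_mem' := by
    intro x hx i j
    fin_cases i <;> fin_cases j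
    · change (x⁻¹ : G R).1 0 0 ∈ B
      rw [G_inv00]; exact hx _ _
    · change (x⁻¹ : G R).1 0 1 ∈ B
      rw [G_inv01]; exact B.neg_mem (hx _ _)
    · change (x⁻¹ : G R).1 1 0 ∈ B
      rw [G_inv10]; exact B.neg_mem (hx _ _)
    · change (x⁻¹ : G R).1 1 1 ∈ B
      rw [G_inv11]; exact hx _ _

/-- A matrix with entries in a subring. -/
def L_CurveInf_el {R : Type} [CommRing R] (B : Subalgebra ℤ R) (x : G R)
    (h : ∀ i j, x.1 i j ∈ B) : G B :=
  ⟨Matrix.of fun i j => (⟨x.1 i j, h i j⟩ : B), by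
    apply Subtype.ext
    rw [Matrix.det_fin_two]
    exact G_det x⟩

/-- A homomorphism into the matrices with entries in a subring. -/
def L_CurveInf_res {R : Type} [CommRing R] (B : Subalgebra ℤ R) {Γ : Type} [Group Γ]
    (ρ : Γ →* G R) (h : ∀ γ i j, (ρ γ).1 i j ∈ B) : Γ →* G B where
  toFun γ := L_CurveInf_el B (ρ γ) (h γ)
  map_one' := by
    ext
    · change (ρ 1).1 0 0 = _
      rw [map_one]; rfl
    · change (ρ 1).1 0 1 = _
      rw [map_one]; rfl
    · change (ρ 1).1 1 0 = _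
      rw [map_one]; rfl
    · change (ρ 1).1 1 1 = _
      rw [map_one]; rfl
  map_mul' x y := by
    ext
    · rw [G_mul00]
      change (ρ (x * y)).1 0 0 = _
      rw [map_mul, G_mul00]; rfl
    · rw [G_mul01]
      change (ρ (x * y)).1 0 1 = _
      rw [map_mul, G_mul01]; rfl
    · rw [G_mul10]
      change (ρ (x * y)).1 1 0 = _
      rw [map_mul, G_mul10]; rfl
    · rw [G_mul11]
      change (ρ (x * y)).1 1 1 = _
      rw [map_mul, G_mul11]; rfl

theorem L_CurveInf_spread (hHomExt : HomExt) {B R : Type} [CommRing B] [IsDomain B] [CommRing R]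
    (hB : Algebra.FiniteType ℤ B) (F : R →+* B) (b : B) (hb : b ≠ 0) :
    ∃ h : R, F h ≠ 0 ∧ ∀ e : R →+* ℂ, (∀ k, F k = 0 → e k = 0) → e h ≠ 0 →
      ∃ ψ : B →+* ℂ, (∀ k, ψ (F k) = e k) ∧ ψ b ≠ 0 := by
  have : (RingHom.ker F).IsPrime := RingHom.ker_isPrime F
  letI : Algebra (R ⧸ RingHom.ker F) B := (RingHom.kerLift F).toAlgebra
  have hinj : Function.Injective (algebraMap (R ⧸ RingHom.ker F) B) :=
    fun x y hxy => RingHom.kerLift_injective F hxy
  have hft : Algebra.FiniteType (R ⧸ RingHom.ker F) B :=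
    Algebra.FiniteType.of_restrictScalars_finiteType ℤ (R ⧸ RingHom.ker F) B
  obtain ⟨a, ha0, ha⟩ := hHomExt (R ⧸ RingHom.ker F) B ℂ hinj hft b hb
  obtain ⟨h, rfl⟩ := Ideal.Quotient.mk_surjective a
  refine ⟨h, ?_, ?_⟩
  · intro h0
    exact ha0 (Ideal.Quotient.eq_zero_iff_mem.2 h0)
  · intro e he heh
    let φ : R ⧸ RingHom.ker F →+* ℂ := Ideal.Quotient.lift (RingHom.ker F) e he
    obtain ⟨ψ, hψ, hψb⟩ := ha φ heh
    refine ⟨ψ, ?_, hψb⟩
    intro k
    have h1 : (ψ.comp (algebraMap (R ⧸ RingHom.ker F) B)) (Ideal.Quotient.mk _ k) =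
        φ (Ideal.Quotient.mk _ k) := by
      rw [hψ]
    exact h1

theorem prf_CurveInf (_hEigNe : EigNe) (hEigFC : EigFC) (hEigGerm : EigGerm) (hHomExt : HomExt)
    (hFinInter : FinInter) : CurveInf := by
  classical
  intro P hFG g hg hinf
  let p : ℕ → ℂ × ℂ := fun i => (hinf.natEmbedding _ i : ℂ × ℂ)
  have hpinj : Function.Injective p := fun i j hij =>
    (hinf.natEmbedding _).injective (Subtype.ext hij)
  have hpE : ∀ i, p i ∈ EigSet P := fun i => (hinf.natEmbedding _ i).2.1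
  have hpg : ∀ i, (cx g).evalEval (p i).1 (p i).2 = 0 := fun i => (hinf.natEmbedding _ i).2.2
  let M : ℕ → ℂ := fun i => (p i).1
  let L : ℕ → ℂ := fun i => (p i).2
  obtain ⟨ρ, w, hw, hmer, hlon⟩ := hEigGerm P M L hpE
  simp only at hmer hlon
  obtain ⟨S, hS⟩ := (Group.fg_iff (G := P.G)).1 hFG
  obtain ⟨hS, hSfin⟩ := hS
  -- the generators of the ring
  let T : Set (Gm ℂ) := {gm ℂ M, gm ℂ L, w 0, w 1} ∪
    ⋃ γ ∈ S, Set.range fun ij : Fin 2 × Fin 2 => (ρ γ).1 ij.1 ij.2
  have hT : T.Finite := by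
    refine Set.Finite.union (by simp) ?_
    exact hSfin.biUnion fun γ _ => Set.finite_range _
  let B : Subalgebra ℤ (Gm ℂ) := Algebra.adjoin ℤ T
  have hTB : T ⊆ B := Algebra.subset_adjoin
  have hMB : gm ℂ M ∈ B := hTB (Or.inl (by simp))
  have hLB : gm ℂ L ∈ B := hTB (Or.inl (by simp))
  have hw0B : w 0 ∈ B := hTB (Or.inl (by simp))
  have hw1B : w 1 ∈ B := hTB (Or.inl (by simp))
  have hwB : ∀ i, w i ∈ B := by
    intro i
    fin_cases i
    · exact hw0B
    · exact hw1B
  have hρB : ∀ γ i j, (ρ γ).1 i j ∈ B := by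
    have h1 : Subgroup.closure S ≤ (L_CurveInf_sub B).comap ρ := by
      rw [Subgroup.closure_le]
      intro γ hγ i j
      apply hTB
      right
      exact Set.mem_biUnion hγ ⟨(i, j), rfl⟩
    intro γ
    have h2 : γ ∈ Subgroup.closure S := by rw [hS]; trivial
    exact h1 h2
  let ρB : P.G →* G B := L_CurveInf_res B ρ hρB
  let m : B := ⟨gm ℂ M, hMB⟩
  let l : B := ⟨gm ℂ L, hLB⟩
  let wB : Fin 2 → B := fun i => ⟨w i, hwB i⟩
  let F : ℤ[X][X] →+* B := L_CurveInf_ev m l
  have hFval : ∀ h, (F h : Gm ℂ) = L_CurveInf_ev (gm ℂ M) (gm ℂ L) h := fun h =>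
    L_CurveInf_ev_map (B.val : B →+* Gm ℂ) m l h
  have hker : ∀ h, F h = 0 → g ∣ h := by
    intro h hh
    by_contra hgh
    have h1 := hFinInter ℤ (Int.castRingHom ℂ) Int.cast_injective g h hg hgh
    have h2 : ∀ᶠ i in (hyperfilter ℕ : Filter ℕ), (cx h).evalEval (M i) (L i) = 0 := by
      apply L_CurveInf_germ
      rw [← hFval, hh]
      rfl
    have h3 : Set.Infinite {i | (cx h).evalEval (M i) (L i) = 0} := by
      intro hfin
      have h4 := hfin.compl_mem_hyperfilter
      have h5 := Filter.inter_mem h2 h4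
      have h6 : (∅ : Set ℕ) ∈ (hyperfilter ℕ : Filter ℕ) := by
        convert h5 using 1
        ext i
        simp
      exact Filter.empty_notMem _ h6
    have h7 : (p '' {i | (cx h).evalEval (M i) (L i) = 0}).Infinite :=
      h3.image hpinj.injOn
    apply h7
    refine h1.subset ?_
    rintro _ ⟨i, hi, rfl⟩
    exact ⟨hpg i, hi⟩
  have hgF : F g = 0 := by
    apply Subtype.ext
    rw [hFval]
    exact L_CurveInf_germ' M L g hpg
  -- a nonzero coordinate of the eigenvector
  obtain ⟨i₀, hi₀⟩ : ∃ i₀, w i₀ ≠ 0 := Function.ne_iff.1 hw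
  have hb : wB i₀ ≠ 0 := fun h => hi₀ (congrArg Subtype.val h)
  have hfB : Algebra.FiniteType ℤ B := by
    refine (Subalgebra.fg_iff_finiteType B).1 ?_
    exact ⟨hT.toFinset, by rw [hT.coe_toFinset]⟩
  obtain ⟨h, hh0, hh⟩ := L_CurveInf_spread hHomExt hfB F (wB i₀) hb
  have hgh : ¬ g ∣ h := by
    rintro ⟨c, rfl⟩
    apply hh0
    rw [map_mul, hgF, zero_mul]
  refine (hFinInter ℤ (Int.castRingHom ℂ) Int.cast_injective g h hg hgh).subset ?_
  rintro q ⟨hq1, hq2⟩
  refine ⟨hq1, ?_⟩
  by_contra hq3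
  apply hq2
  obtain ⟨ψ, hψF, hψb⟩ := hh (L_CurveInf_ev q.1 q.2) (by
    intro k hk
    obtain ⟨c, rfl⟩ := hker k hk
    rw [map_mul, L_CurveInf_ev_cx q.1 q.2 g, hq1, zero_mul]) hq3
  rw [← hEigFC P]
  have hψm : ψ m = q.1 := by
    have := hψF (C X)
    change ψ (L_CurveInf_ev m l (C X)) = _ at this
    rw [L_CurveInf_ev_X, L_CurveInf_ev_X] at this
    exact this
  have hψl : ψ l = q.2 := by
    have := hψF X
    change ψ (L_CurveInf_ev m l X) = _ at this
    rw [L_CurveInf_ev_Y, L_CurveInf_ev_Y] at this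
    exact this
  have heig : ∀ (γ : P.G) (u : B), Matrix.mulVec (ρ γ).1 w = (u : Gm ℂ) • w →
      Matrix.mulVec ((Matrix.SpecialLinearGroup.map ψ).comp ρB γ).1 (fun i => ψ (wB i)) =
        ψ u • (fun i => ψ (wB i)) := by
    intro γ u hu
    have h1 : ∀ i, (ρB γ).1 i 0 * wB 0 + (ρB γ).1 i 1 * wB 1 = u * wB i := by
      intro i
      apply Subtype.ext
      have h2 := congrFun hu i
      simp only [Matrix.mulVec, dotProduct, Fin.sum_univ_two, Pi.smul_apply, smul_eq_mul] at h2
      exact h2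
    funext i
    have h3 := congrArg ψ (h1 i)
    rw [map_add, map_mul, map_mul, map_mul] at h3
    simp only [Matrix.mulVec, dotProduct, Fin.sum_univ_two, Pi.smul_apply, smul_eq_mul]
    exact h3
  refine ⟨(Matrix.SpecialLinearGroup.map ψ).comp ρB, fun i => ψ (wB i), ?_, ?_, ?_⟩
  · intro h0
    exact hψb (congrFun h0 i₀)
  · have := heig P.mer m hmer
    rw [hψm] at this
    exact this
  · have := heig P.lon l hlon
    rw [hψl] at this
    exact this

end AJM

end

section

set_option autoImplicit false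

/-!
# MP_d3fa71_gt, project Mut, block X: the two definitions of the eigenvalue pairs agree
-/

namespace AJM

theorem prf_EigFC : EigFC := fun _ => rfl

end AJM

end

section

/-! # MP_d3fa71_gt, project Mut, block X: item EigGerm -/

open Filter Polynomial

namespace AJM

open AJG (PGroup EigSet Zcl ZeroSet IsAPoly IsEig)

/-- The product of a family of matrices. -/
def L_EigGerm_f (A : ℕ → Matrix.SpecialLinearGroup (Fin 2) ℂ) : G (ℕ → ℂ) :=
  ⟨Matrix.of fun a b i => (A i).1 a b, by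
    rw [Matrix.det_fin_two]
    funext i
    have h := (A i).2
    rw [Matrix.det_fin_two] at h
    exact h⟩

theorem L_EigGerm_f_one : L_EigGerm_f (fun _ => 1) = 1 := by
  refine Matrix.SpecialLinearGroup.ext _ _ fun a b => ?_
  funext i
  fin_cases a <;> fin_cases b <;> rfl

theorem L_EigGerm_f_mul (A B : ℕ → Matrix.SpecialLinearGroup (Fin 2) ℂ) :
    L_EigGerm_f (fun i => A i * B i) = L_EigGerm_f A * L_EigGerm_f B := by
  refine Matrix.SpecialLinearGroup.ext _ _ fun a b => ?_
  have e : (L_EigGerm_f A * L_EigGerm_f B).1 = (L_EigGerm_f A).1 * (L_EigGerm_f B).1 := rfl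
  funext i
  have e1 : ((L_EigGerm_f A).1 * (L_EigGerm_f B).1) a b i =
      (A i).1 a 0 * (B i).1 0 b + (A i).1 a 1 * (B i).1 1 b := by
    rw [Matrix.mul_apply, Fin.sum_univ_two]
    rfl
  have e2 : ((A i).1 * (B i).1) a b = (A i).1 a 0 * (B i).1 0 b + (A i).1 a 1 * (B i).1 1 b := by
    rw [Matrix.mul_apply, Fin.sum_univ_two]
  exact e2.trans e1.symm

/-- The product of a family of representations. -/
def L_EigGerm_prod {Γ : Type} [Group Γ] (ρ : ℕ → Γ →* Matrix.SpecialLinearGroup (Fin 2) ℂ) :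
    Γ →* G (ℕ → ℂ) where
  toFun g := L_EigGerm_f fun i => ρ i g
  map_one' := by
    have : (fun i => ρ i 1) = fun _ => 1 := by
      funext i
      exact map_one (ρ i)
    rw [this]
    exact L_EigGerm_f_one
  map_mul' g g' := by
    have : (fun i => ρ i (g * g')) = fun i => ρ i g * ρ i g' := by
      funext i
      exact map_mul (ρ i) g g'
    rw [this]
    exact L_EigGerm_f_mul _ _

theorem prf_EigGerm : EigGerm := by
  intro P M L h
  choose ρ w hw h1 h2 using h
  refine ⟨(Matrix.SpecialLinearGroup.map (gm ℂ)).comp (L_EigGerm_prod ρ),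
    fun a => gm ℂ (fun i => w i a), ?_, ?_, ?_⟩
  · intro h0
    have h3 : gm ℂ (fun i => w i 0) = 0 := congrFun h0 0
    have h4 : gm ℂ (fun i => w i 1) = 0 := congrFun h0 1
    have h5 : ∀ᶠ i in (hyperfilter ℕ : Filter ℕ), w i 0 = 0 := by
      have : ((fun i => w i 0 : ℕ → ℂ) : Gm ℂ) = ((fun _ => 0 : ℕ → ℂ) : Gm ℂ) := h3
      exact Germ.coe_eq.1 this
    have h6 : ∀ᶠ i in (hyperfilter ℕ : Filter ℕ), w i 1 = 0 := by
      have : ((fun i => w i 1 : ℕ → ℂ) : Gm ℂ) = ((fun _ => 0 : ℕ → ℂ) : Gm ℂ) := h4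
      exact Germ.coe_eq.1 this
    obtain ⟨i, hi0, hi1⟩ := (h5.and h6).exists
    apply hw i
    funext a
    fin_cases a
    · exact hi0
    · exact hi1
  · funext a
    have h3 : ∀ i, Matrix.mulVec (ρ i P.mer).1 (w i) a = M i * w i a := fun i =>
      congrFun (h1 i) a
    simp only [Matrix.mulVec, dotProduct, Fin.sum_univ_two] at h3
    simp only [Matrix.mulVec, dotProduct, Fin.sum_univ_two, Pi.smul_apply, smul_eq_mul]
    show gm ℂ (fun i => (ρ i P.mer).1 a 0) * gm ℂ (fun i => w i 0) +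
      gm ℂ (fun i => (ρ i P.mer).1 a 1) * gm ℂ (fun i => w i 1) = gm ℂ M * gm ℂ (fun i => w i a)
    rw [← map_mul, ← map_mul, ← map_mul, ← map_add]
    congr 1
    funext i
    exact h3 i
  · funext a
    have h3 : ∀ i, Matrix.mulVec (ρ i P.lon).1 (w i) a = L i * w i a := fun i =>
      congrFun (h2 i) a
    simp only [Matrix.mulVec, dotProduct, Fin.sum_univ_two] at h3
    simp only [Matrix.mulVec, dotProduct, Fin.sum_univ_two, Pi.smul_apply, smul_eq_mul]
    show gm ℂ (fun i => (ρ i P.lon).1 a 0) * gm ℂ (fun i => w i 0) +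
      gm ℂ (fun i => (ρ i P.lon).1 a 1) * gm ℂ (fun i => w i 1) = gm ℂ L * gm ℂ (fun i => w i a)
    rw [← map_mul, ← map_mul, ← map_mul, ← map_add]
    congr 1
    funext i
    exact h3 i

end AJM

end

section

set_option autoImplicit false

/-!
# MP_d3fa71_gt, project Mut, block X: extension of the field
-/

namespace AJM

open AJG (PGroup EigSet Zcl ZeroSet IsAPoly IsEig)

theorem L_EigMap_mulVec {F K : Type} [Field F] [Field K] (f : F →+* K) (x : G F)
    (w : Fin 2 → F) (m : F) (h : Matrix.mulVec x.1 w = m • w) :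
    Matrix.mulVec (Matrix.SpecialLinearGroup.map f x).1 (fun i => f (w i)) =
      f m • fun i => f (w i) := by
  ext i
  have h1 := congrFun h i
  have h2 : f (Matrix.mulVec x.1 w i) = Matrix.mulVec (x.1.map f) (f ∘ w) i :=
    RingHom.map_mulVec f x.1 w i
  rw [h1] at h2
  have h3 : Matrix.mulVec (Matrix.SpecialLinearGroup.map f x).1 (fun i => f (w i)) i =
      Matrix.mulVec (x.1.map f) (f ∘ w) i := rfl
  rw [h3, ← h2]
  simp

theorem prf_EigMap : EigMap := by
  intro P F K _ _ f p hp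
  obtain ⟨ρ, w, hw, h1, h2⟩ := hp
  refine ⟨(Matrix.SpecialLinearGroup.map f).comp ρ, fun i => f (w i), ?_, ?_, ?_⟩
  · intro h
    apply hw
    ext i
    have := congrFun h i
    exact (map_eq_zero f).1 this
  · exact L_EigMap_mulVec f _ w p.1 h1
  · exact L_EigMap_mulVec f _ w p.2 h2

end AJM

end

section

/-!
# Points of a set of eigenvalue pairs have non-zero coordinates
-/

set_option autoImplicit false

open Filter Polynomial

namespace AJM

open AJG (PGroup EigSet Zcl ZeroSet IsAPoly IsEig)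

theorem L_EigNe_ne {A : Matrix.SpecialLinearGroup (Fin 2) ℂ} {w : Fin 2 → ℂ} {m : ℂ} (hw : w ≠ 0)
    (h : IsEig A w m) : m ≠ 0 := by
  rintro rfl
  unfold IsEig at h
  rw [zero_smul] at h
  apply hw
  have h1 : Matrix.mulVec (A⁻¹ * A : Matrix.SpecialLinearGroup (Fin 2) ℂ).1 w = 0 := by
    rw [Matrix.SpecialLinearGroup.coe_mul, ← Matrix.mulVec_mulVec, h, Matrix.mulVec_zero]
  rw [inv_mul_cancel, Matrix.SpecialLinearGroup.coe_one, Matrix.one_mulVec] at h1
  exact h1

theorem prf_EigNe : EigNe := by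
  rintro P p ⟨ρ, w, hw, h1, h2⟩
  exact ⟨L_EigNe_ne hw h1, L_EigNe_ne hw h2⟩

end AJM

end

section

/-!
# MP_d3fa71_gt, project Mut, block X: infinitely many eigenvalue pairs on a curve
-/

set_option autoImplicit false

open Filter Polynomial

namespace AJM

open AJG (PGroup EigSet Zcl ZeroSet IsAPoly IsEig)

theorem prf_FDivOf (hEigNe : EigNe) (hFDvd : FDvd) : FDivOf := by
  intro P A e N he hA hinf
  obtain ⟨-, -, T, hT, hZ⟩ := hA
  have hfin : Set.Finite {m : ℂ | (m, (e : ℂ) * m ^ N) ∈ T} := by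
    refine Set.Finite.preimage ?_ hT
    intro a _ b _ hab
    exact congrArg Prod.fst hab
  apply hFDvd e N A he
  refine (hinf.sdiff hfin).mono ?_
  rintro m ⟨hm, hmT⟩
  have hm' : (m, (e : ℂ) * m ^ N) ∈ EigSet P := hm
  obtain ⟨h1, h2⟩ := hEigNe P _ hm'
  have h3 : (m, (e : ℂ) * m ^ N) ∈ Zcl (EigSet P) := ⟨h1, h2, fun G hG => hG _ hm'⟩
  rw [hZ] at h3
  rcases h3 with h3 | h3
  · exact ⟨h1, h3.2.2⟩
  · exact absurd h3 hmT

end AJM

end

section

set_option autoImplicit false

open Polynomial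

namespace AJM

lemma L_FDvd_ev (A : ℤ[X][X]) (m l : ℂ) : (cx A).evalEval m l =
    ∑ j ∈ Finset.range (A.natDegree + 1),
      ((A.coeff j).map (Int.castRingHom ℂ)).eval m * l ^ j := by
  unfold cx Polynomial.evalEval
  rw [Polynomial.eval_map, Polynomial.eval₂_eq_sum_range, Polynomial.eval_finsetSum]
  apply Finset.sum_congr rfl
  intro j _
  rw [Polynomial.eval_mul, Polynomial.eval_pow, Polynomial.eval_C, Polynomial.coe_mapRingHom]

lemma L_FDvd_zero (B : ℤ[X]) (S : Set ℂ) (hS : S.Infinite)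
    (h : ∀ m ∈ S, (B.map (Int.castRingHom ℂ)).eval m = 0) : B = 0 := by
  have h1 : B.map (Int.castRingHom ℂ) = 0 :=
    Polynomial.eq_zero_of_infinite_isRoot _ (hS.mono h)
  exact (Polynomial.map_eq_zero_iff (Int.cast_injective (α := ℂ))).mp h1

lemma L_FDvd_pos (e : ℤ) (n : ℕ) (A : ℤ[X][X]) (S : Set ℂ) (hS : S.Infinite)
    (h : ∀ m ∈ S, (cx A).evalEval m ((e : ℂ) * m ^ n) = 0) :
    (X - C (C e * X ^ n) : ℤ[X][X]) ∣ A := by
  rw [Polynomial.dvd_iff_isRoot]
  apply L_FDvd_zero (A.eval (C e * X ^ n)) S hS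
  intro m hm
  rw [← h m hm, L_FDvd_ev, Polynomial.eval_eq_sum_range (p := A), Polynomial.map_sum,
    Polynomial.eval_finsetSum]
  apply Finset.sum_congr rfl
  intro j _
  simp

lemma L_FDvd_neg (e : ℤ) (he : e = 1 ∨ e = -1) (n : ℕ) (A : ℤ[X][X]) (S : Set ℂ)
    (hS : S.Infinite)
    (h : ∀ m ∈ S, m ≠ 0 ∧ (cx A).evalEval m ((e : ℂ) * (m ^ n)⁻¹) = 0) :
    (C (X ^ n) * X - C (C e) : ℤ[X][X]) ∣ A := by
  set F : ℤ[X][X] := C (X ^ n) * X - C (C e) with hF
  set d := A.natDegree with hd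
  set B : ℤ[X] := ∑ j ∈ Finset.range (d + 1), A.coeff j * (C e) ^ j * (X ^ n) ^ (d - j) with hB
  have hB0 : B = 0 := by
    apply L_FDvd_zero B S hS
    intro m hm
    obtain ⟨hm0, hm1⟩ := h m hm
    have hmn : m ^ n ≠ 0 := pow_ne_zero n hm0
    have : (B.map (Int.castRingHom ℂ)).eval m =
        (m ^ n) ^ d * (cx A).evalEval m ((e : ℂ) * (m ^ n)⁻¹) := by
      rw [L_FDvd_ev, hB, Polynomial.map_sum, Polynomial.eval_finsetSum, Finset.mul_sum]
      apply Finset.sum_congr rfl
      intro j hj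
      have hjd : j ≤ d := by
        rw [Finset.mem_range] at hj
        omega
      have e1 : (m ^ n) ^ d = (m ^ n) ^ (d - j) * (m ^ n) ^ j := by
        rw [← pow_add, Nat.sub_add_cancel hjd]
      have e2 : (m ^ n) ^ j * ((m ^ n)⁻¹) ^ j = 1 := by
        rw [← mul_pow, mul_inv_cancel₀ hmn, one_pow]
      rw [e1, mul_pow (e : ℂ)]
      simp only [Polynomial.map_mul, Polynomial.map_pow, Polynomial.map_C, Polynomial.map_X,
        Polynomial.eval_mul, Polynomial.eval_pow, Polynomial.eval_C, Polynomial.eval_X,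
        eq_intCast, Polynomial.map_intCast, Polynomial.eval_intCast]
      linear_combination (-((m ^ n) ^ (d - j)) *
        eval m (Polynomial.map (Int.castRingHom ℂ) (A.coeff j)) * (e : ℂ) ^ j) * e2
    rw [this, hm1, mul_zero]
  have h2 : F ∣ C (X ^ n) ^ d * A - C B := by
    have hA : A = ∑ j ∈ Finset.range (d + 1), C (A.coeff j) * X ^ j :=
      A.as_sum_range_C_mul_X_pow
    have : C (X ^ n) ^ d * A - C B = ∑ j ∈ Finset.range (d + 1),
        C (A.coeff j) * C (X ^ n) ^ (d - j) * ((C (X ^ n) * X) ^ j - (C (C e)) ^ j) := by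
      conv_lhs => rw [hA]
      rw [hB, map_sum, Finset.mul_sum, ← Finset.sum_sub_distrib]
      apply Finset.sum_congr rfl
      intro j hj
      have hjd : j ≤ d := by
        rw [Finset.mem_range] at hj
        omega
      have e1 : (C (X ^ n) : ℤ[X][X]) ^ d = C (X ^ n) ^ (d - j) * C (X ^ n) ^ j := by
        rw [← pow_add, Nat.sub_add_cancel hjd]
      rw [e1]
      simp only [map_mul, map_pow]
      ring
    rw [this]
    apply Finset.dvd_sum
    intro j _
    exact Dvd.dvd.mul_left (sub_dvd_pow_sub_pow _ _ j) _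
  rw [hB0, map_zero, sub_zero] at h2
  have hcop : IsCoprime F (C (X ^ n)) := by
    refine ⟨-C (C e), C (C e) * X, ?_⟩
    have hee : (C (C e) : ℤ[X][X]) * C (C e) = 1 := by
      rw [← map_mul, ← map_mul]
      have : e * e = 1 := by rcases he with rfl | rfl <;> norm_num
      rw [this, map_one, map_one]
    rw [hF]
    linear_combination hee
  exact (hcop.pow_right (n := d)).dvd_of_dvd_mul_left h2

theorem prf_FDvd : FDvd := by
  intro e N A he hinf
  unfold FNe
  by_cases hN : 0 ≤ N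
  · rw [if_pos hN]
    apply L_FDvd_pos e N.toNat A _ hinf
    rintro m ⟨_, hm⟩
    rw [← hm]
    congr 2
    rw [← zpow_natCast, Int.toNat_of_nonneg hN]
  · rw [if_neg hN]
    apply L_FDvd_neg e he (-N).toNat A _ hinf
    rintro m ⟨hm0, hm⟩
    refine ⟨hm0, ?_⟩
    rw [← hm]
    congr 2
    rw [← zpow_natCast, Int.toNat_of_nonneg (by omega), zpow_neg, inv_inv]

end AJM

end

section

set_option autoImplicit false

/-!
# MP_d3fa71_gt, project Mut, block X: the zeros of `L - e M ^ N`
-/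

open Filter Polynomial

namespace AJM

theorem prf_FEval : FEval := by
  intro e N m l hm he
  unfold FNe
  split_ifs with hN
  · have h1 : (cx (X - C (C e * X ^ N.toNat))).evalEval m l = l - (e : ℂ) * m ^ N.toNat := by
      simp [cx, evalEval_sub, evalEval_C]
    have h2 : m ^ N = m ^ N.toNat := by
      conv_lhs => rw [← Int.toNat_of_nonneg hN]
      exact zpow_natCast m N.toNat
    rw [h1, h2, sub_eq_zero]
  · have hn : 0 ≤ -N := by omega
    have h1 : (cx (C (X ^ (-N).toNat) * X - C (C e))).evalEval m l =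
        m ^ (-N).toNat * l - (e : ℂ) := by
      simp [cx, evalEval_sub, evalEval_mul, evalEval_C]
    have h2 : m ^ N = (m ^ (-N).toNat)⁻¹ := by
      have : m ^ (-N) = m ^ (-N).toNat := by
        conv_lhs => rw [← Int.toNat_of_nonneg hn]
        exact zpow_natCast m (-N).toNat
      rw [← this, zpow_neg, inv_inv]
    have h3 : m ^ (-N).toNat ≠ 0 := pow_ne_zero _ hm
    rw [h1, h2, sub_eq_zero]
    constructor
    · intro h
      rw [← h]
      field_simp
    · intro h
      rw [h]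
      field_simp

end AJM

end

section

/-!
# The polynomials `F` are irreducible
-/

set_option autoImplicit false

open Filter Polynomial

namespace AJM

theorem L_FIrr_lin {R : Type} [CommRing R] [IsDomain R] (a b : R) (ha : a ≠ 0) (hb : IsUnit b) :
    Irreducible (C a * X - C b) ∧ (C a * X - C b).natDegree = 1 := by
  have hdeg : (C a * X - C b).natDegree = 1 := by
    rw [natDegree_sub_C]
    exact natDegree_C_mul_X a ha
  have hne : (C a * X - C b) ≠ 0 := by
    intro h
    rw [h, natDegree_zero] at hdeg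
    exact absurd hdeg (by norm_num)
  have key : ∀ g h : R[X], C a * X - C b = g * h → g.natDegree = 0 → IsUnit g := by
    intro g h e hg
    obtain ⟨c, rfl⟩ : ∃ c, g = C c := ⟨_, eq_C_of_natDegree_eq_zero hg⟩
    rw [isUnit_C]
    have h1 := congrArg (fun f : R[X] => f.coeff 0) e
    simp only [coeff_sub, coeff_C_mul, coeff_X_zero, mul_zero, coeff_C_zero, zero_sub] at h1
    have h2 : IsUnit (c * h.coeff 0) := by
      rw [← h1]
      exact hb.neg
    exact isUnit_of_mul_isUnit_left h2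
  refine ⟨⟨?_, ?_⟩, hdeg⟩
  · intro hu
    have := natDegree_eq_zero_of_isUnit hu
    rw [hdeg] at this
    exact absurd this (by norm_num)
  · intro g h e
    have hg : g ≠ 0 := by
      rintro rfl
      exact hne (by rw [e, zero_mul])
    have hh : h ≠ 0 := by
      rintro rfl
      exact hne (by rw [e, mul_zero])
    have h1 : g.natDegree + h.natDegree = 1 := by
      rw [← natDegree_mul hg hh, ← e, hdeg]
    rcases Nat.eq_zero_or_pos g.natDegree with h2 | h2
    · exact Or.inl (key g h e h2)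
    · exact Or.inr (key h g (by rw [e, mul_comm]) (by omega))

theorem prf_FIrr : FIrr := by
  intro e N he
  unfold FNe
  split_ifs with hN
  · exact ⟨irreducible_X_sub_C _, natDegree_X_sub_C _⟩
  · apply L_FIrr_lin
    · exact pow_ne_zero _ X_ne_zero
    · rw [isUnit_C]
      rcases he with rfl | rfl
      · exact isUnit_one
      · exact isUnit_one.neg

end AJM

end

section

/-!
# MP_d3fa71_gt, project Mut, item FNDivOf
-/

set_option autoImplicit false

open Filter Polynomial

namespace AJM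

open AJG (PGroup EigSet Zcl ZeroSet IsAPoly IsEig)

theorem L_FNDivOf_cx_mul (A B : ℤ[X][X]) : cx (A * B) = cx A * cx B := by
  unfold cx
  rw [Polynomial.map_mul]

theorem L_FNDivOf_cx_pow (A : ℤ[X][X]) (k : ℕ) : cx (A ^ k) = cx A ^ k := by
  unfold cx
  rw [Polynomial.map_pow]

theorem L_FNDivOf_ee_mul (A B : ℂ[X][X]) (x y : ℂ) :
    (A * B).evalEval x y = A.evalEval x y * B.evalEval x y := by
  unfold Polynomial.evalEval
  rw [Polynomial.eval_mul, Polynomial.eval_mul]

theorem L_FNDivOf_ee_pow (A : ℂ[X][X]) (x y : ℂ) (k : ℕ) :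
    (A ^ k).evalEval x y = A.evalEval x y ^ k := by
  unfold Polynomial.evalEval
  rw [Polynomial.eval_pow, Polynomial.eval_pow]

theorem L_FNDivOf_ee_C (p : ℂ[X]) (x y : ℂ) : (C p : ℂ[X][X]).evalEval x y = p.eval x := by
  unfold Polynomial.evalEval
  rw [Polynomial.eval_C]

theorem prf_FNDivOf (hEigNe : EigNe) (hFDvd : FDvd) (hFEval : FEval) (hFIrr : FIrr) :
    FNDivOf := by
  intro P A e N he hA hS hdvd
  obtain ⟨hA0, -, T, hT, hZ⟩ := hA
  have hirr : Irreducible (FNe e N) := (hFIrr e N he).1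
  have hfm : FiniteMultiplicity (FNe e N) A :=
    FiniteMultiplicity.of_not_isUnit hirr.not_isUnit hA0
  obtain ⟨B, hAB, hB⟩ := hfm.exists_eq_pow_mul_and_not_dvd
  set k := multiplicity (FNe e N) A with hk
  have he0 : (e : ℂ) ≠ 0 := by
    rcases he with rfl | rfl <;> norm_num
  set U : Set ℂ := {m : ℂ | (m, (e : ℂ) * m ^ N) ∈ EigSet P} ∪ Prod.fst '' T with hU
  have hUf : U.Finite := hS.union (hT.image _)
  set g : ℂ[X] := ∏ m ∈ hUf.toFinset, (X - C m) with hg
  have hg0 : ∀ x : ℂ, g.eval x = 0 ↔ x ∈ U := by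
    intro x
    rw [hg, Polynomial.eval_prod, Finset.prod_eq_zero_iff]
    constructor
    · rintro ⟨m, hm, h0⟩
      rw [Polynomial.eval_sub, Polynomial.eval_X, Polynomial.eval_C, sub_eq_zero] at h0
      rw [h0]
      exact hUf.mem_toFinset.mp hm
    · intro hx
      refine ⟨x, hUf.mem_toFinset.mpr hx, ?_⟩
      rw [Polynomial.eval_sub, Polynomial.eval_X, Polynomial.eval_C, sub_self]
  have hGE : ∀ p ∈ EigSet P, (cx B * C g).evalEval p.1 p.2 = 0 := by
    intro p hp
    rw [L_FNDivOf_ee_mul, L_FNDivOf_ee_C]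
    have hpn := hEigNe P p hp
    have hpz : p ∈ Zcl (EigSet P) := ⟨hpn.1, hpn.2, fun G hG => hG p hp⟩
    rw [hZ] at hpz
    rcases hpz with hpz | hpT
    · have h1 : (cx A).evalEval p.1 p.2 = 0 := hpz.2.2
      rw [hAB, L_FNDivOf_cx_mul, L_FNDivOf_cx_pow, L_FNDivOf_ee_mul, L_FNDivOf_ee_pow] at h1
      rcases mul_eq_zero.mp h1 with h2 | h2
      · have h4 : (cx (FNe e N)).evalEval p.1 p.2 = 0 := by
          by_contra hne
          exact pow_ne_zero k hne h2
        rw [hFEval e N p.1 p.2 hpn.1 he] at h4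
        have h5 : p.1 ∈ U := by
          left
          show (p.1, (e : ℂ) * p.1 ^ N) ∈ EigSet P
          rw [← h4]
          exact hp
        rw [(hg0 _).mpr h5, mul_zero]
      · rw [h2, zero_mul]
    · have h5 : p.1 ∈ U := Or.inr ⟨p, hpT, rfl⟩
      rw [(hg0 _).mpr h5, mul_zero]
  apply hB
  apply hFDvd e N B he
  have hsub : (U ∪ {0})ᶜ ⊆ {m : ℂ | m ≠ 0 ∧ (cx B).evalEval m ((e : ℂ) * m ^ N) = 0} := by
    intro m hm
    have hmU : m ∉ U := fun h => hm (Or.inl h)
    have hm0 : m ≠ 0 := fun h => hm (Or.inr h)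
    refine ⟨hm0, ?_⟩
    have hpt : ((m, (e : ℂ) * m ^ N) : ℂ × ℂ) ∈ Zcl (EigSet P) := by
      rw [hZ]
      left
      refine ⟨hm0, mul_ne_zero he0 (zpow_ne_zero N hm0), ?_⟩
      show (cx A).evalEval m ((e : ℂ) * m ^ N) = 0
      obtain ⟨D, hD⟩ := hdvd
      rw [hD, L_FNDivOf_cx_mul, L_FNDivOf_ee_mul, (hFEval e N m _ hm0 he).mpr rfl, zero_mul]
    have h1 := hpt.2.2 (cx B * C g) hGE
    rw [L_FNDivOf_ee_mul, L_FNDivOf_ee_C] at h1
    rcases mul_eq_zero.mp h1 with h2 | h2
    · exact h2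
    · exact absurd ((hg0 m).mp h2) hmU
  exact Set.Infinite.mono hsub
    (Set.Finite.infinite_compl (hUf.union (Set.finite_singleton 0)))

end AJM

end

section

/-!
# MP_d3fa71_gt, project Mut, item `FinInter`

Elimination of either variable (Gauss lemma) puts the common zeros in a finite grid.
-/

open Polynomial

namespace AJM

/-- Elimination of the outer variable. -/
theorem L_FinInter_elim {A : Type} [CommRing A] [IsDomain A] [UniqueFactorizationMonoid A]
    {g h : A[X]} (hg : Irreducible g) (hgh : ¬ g ∣ h) :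
    ∃ D : A, D ≠ 0 ∧ ∃ U V : A[X], U * g + V * h = C D := by
  by_cases hd : g.natDegree = 0
  · refine ⟨g.coeff 0, ?_, 1, 0, ?_⟩
    · intro h0
      apply hg.ne_zero
      rw [eq_C_of_natDegree_eq_zero hd, h0, C_0]
    · rw [one_mul, zero_mul, add_zero]
      exact eq_C_of_natDegree_eq_zero hd
  · have hp : g.IsPrimitive := hg.isPrimitive hd
    have hirr : Irreducible (g.map (algebraMap A (FractionRing A))) :=
      hp.irreducible_iff_irreducible_map_fraction_map.1 hg
    have hnd : ¬ g.map (algebraMap A (FractionRing A)) ∣ h.map (algebraMap A (FractionRing A)) :=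
      fun hc => hgh (hp.dvd_of_fraction_map_dvd_fraction_map hc)
    obtain ⟨u, v, huv⟩ := hirr.coprime_iff_not_dvd.2 hnd
    obtain ⟨a, ha0, ha⟩ := IsLocalization.integerNormalization_spec (nonZeroDivisors A) u
    obtain ⟨b, hb0, hb⟩ := IsLocalization.integerNormalization_spec (nonZeroDivisors A) v
    refine ⟨a * b, mul_ne_zero (nonZeroDivisors.ne_zero ha0)
      (nonZeroDivisors.ne_zero hb0),
      C b * IsLocalization.integerNormalization (nonZeroDivisors A) u,
      C a * IsLocalization.integerNormalization (nonZeroDivisors A) v, ?_⟩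
    apply map_injective (algebraMap A (FractionRing A)) (IsFractionRing.injective A _)
    rw [Polynomial.map_add, Polynomial.map_mul, Polynomial.map_mul, Polynomial.map_mul,
      Polynomial.map_mul, map_C, map_C, ha, hb, map_C, map_mul, C_mul]
    rw [Algebra.smul_def, Algebra.smul_def, Polynomial.algebraMap_apply,
      Polynomial.algebraMap_apply]
    linear_combination (C (algebraMap A (FractionRing A) a) *
      C (algebraMap A (FractionRing A) b)) * huv

theorem L_FinInter_eval {R : Type} [CommRing R] (φ : R →+* ℂ) (x y : ℂ) (g : R[X][X]) :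
    (g.map (Polynomial.mapRingHom φ)).evalEval x y =
      letI := φ.toAlgebra
      aevalAeval x y g := by
  let _ := φ.toAlgebra
  have h : (evalEvalRingHom x y).comp (mapRingHom (mapRingHom φ)) =
      (aevalAeval x y : R[X][X] →ₐ[R] ℂ).toRingHom := by
    ext a
    · simp
      rfl
    · simp
    · simp
  exact congrArg (fun f : R[X][X] →+* ℂ => f g) h

theorem prf_FinInter : FinInter := by
  intro R _ _ _ φ hφ g h hg hgh
  let _ := φ.toAlgebra
  obtain ⟨D, hD0, U, V, hD⟩ := L_FinInter_elim hg hgh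
  have hg' : Irreducible (Bivariate.swap g) :=
    (MulEquiv.irreducible_iff (Bivariate.swap (R := R)).toMulEquiv).2 hg
  have hgh' : ¬ Bivariate.swap g ∣ Bivariate.swap h := by
    rintro ⟨c, hc⟩
    apply hgh
    refine ⟨Bivariate.swap c, ?_⟩
    have := congrArg Bivariate.swap hc
    rw [map_mul, Bivariate.swap_swap_apply, Bivariate.swap_swap_apply] at this
    exact this
  obtain ⟨D', hD'0, U', V', hD'⟩ := L_FinInter_elim hg' hgh'
  have hfin : ∀ E : R[X], E ≠ 0 → Set.Finite {x : ℂ | aeval x E = 0} := by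
    intro E hE
    have hE' : E.map φ ≠ 0 := (Polynomial.map_ne_zero_iff hφ).2 hE
    refine (finite_setOfPred_isRoot hE').subset ?_
    intro x hx
    change eval x (E.map φ) = 0
    rw [eval_map]
    exact hx
  refine ((hfin D hD0).prod (hfin D' hD'0)).subset ?_
  rintro ⟨x, y⟩ ⟨h1, h2⟩
  rw [L_FinInter_eval] at h1 h2
  simp only at h1 h2
  constructor
  · have := congrArg (aevalAeval x y : R[X][X] →ₐ[R] ℂ) hD
    rw [map_add, map_mul, map_mul, h1, h2, mul_zero, mul_zero, add_zero, aevalAeval_C] at this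
    exact this.symm
  · have := congrArg (aevalAeval y x : R[X][X] →ₐ[R] ℂ) hD'
    rw [map_add, map_mul, map_mul, Bivariate.aevalAeval_swap, Bivariate.aevalAeval_swap, h1, h2,
      mul_zero, mul_zero, add_zero, aevalAeval_C] at this
    exact this.symm

end AJM

end

section

/-!
# MP_d3fa71_gt, project Mut, block X: item HomExt
-/

namespace AJM

theorem L_HomExt_aux (h1 : HomExt1) (K : Type) [Field K] [IsAlgClosed K] : ∀ n : ℕ,
    ∀ (A B : Type) [CommRing A] [IsDomain A] [CommRing B] [IsDomain B] [Algebra A B],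
    Function.Injective (algebraMap A B) → ∀ x : Fin n → B,
    Algebra.adjoin A (Set.range x) = ⊤ → ∀ b : B, b ≠ 0 → ∃ a : A, a ≠ 0 ∧
    ∀ φ : A →+* K, φ a ≠ 0 → ∃ ψ : B →+* K, ψ.comp (algebraMap A B) = φ ∧ ψ b ≠ 0 := by
  intro n
  induction n with
  | zero =>
    intro A B _ _ _ _ _ hinj x hx b hb
    have hr : Set.range x = ∅ := by
      rw [Set.range_eq_empty_iff]
      infer_instance
    rw [hr, Algebra.adjoin_empty] at hx
    have hsurj : Function.Surjective (algebraMap A B) := by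
      intro y
      have hy : y ∈ (⊥ : Subalgebra A B) := by rw [hx]; exact Algebra.mem_top
      exact Algebra.mem_bot.mp hy
    let e : A ≃+* B := RingEquiv.ofBijective (algebraMap A B) ⟨hinj, hsurj⟩
    refine ⟨e.symm b, by simpa using hb, ?_⟩
    intro φ hφ
    refine ⟨φ.comp e.symm.toRingHom, ?_, hφ⟩
    apply RingHom.ext
    intro a
    have : e.symm (algebraMap A B a) = a := e.symm_apply_apply a
    simp [this]
  | succ n ih =>
    intro A B _ _ _ _ _ hinj x hx b hb
    let B' : Subalgebra A B := Algebra.adjoin A (Set.range fun i : Fin n => x i.castSucc)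
    have hr : Set.range x = (Set.range fun i : Fin n => x i.castSucc) ∪ {x (Fin.last n)} := by
      ext y
      constructor
      · rintro ⟨i, rfl⟩
        refine Fin.lastCases ?_ (fun i => ?_) i
        · right; rfl
        · left; exact ⟨i, rfl⟩
      · rintro (⟨i, rfl⟩ | h)
        · exact ⟨_, rfl⟩
        · rw [Set.mem_singleton_iff.mp h]; exact ⟨_, rfl⟩
    have hadj : Algebra.adjoin B' {x (Fin.last n)} = ⊤ := by
      rw [hr, Algebra.adjoin_union_eq_adjoin_adjoin] at hx
      rw [eq_top_iff]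
      intro y _
      have hy : y ∈ (Algebra.adjoin B' {x (Fin.last n)}).restrictScalars A := by
        rw [hx]; exact Algebra.mem_top
      exact hy
    obtain ⟨b', hb', hψ'⟩ := h1 B' B K Subtype.val_injective (x (Fin.last n)) hadj b hb
    have hx' : Algebra.adjoin A (Set.range fun i : Fin n =>
        (⟨x i.castSucc, Algebra.subset_adjoin ⟨i, rfl⟩⟩ : B')) = ⊤ := by
      rw [eq_top_iff]
      rintro ⟨y, hy⟩ _
      have h3 : (Algebra.adjoin A (Set.range fun i : Fin n =>
        (⟨x i.castSucc, Algebra.subset_adjoin ⟨i, rfl⟩⟩ : B'))).map B'.val = B' := by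
        rw [AlgHom.map_adjoin, ← Set.range_comp]
        rfl
      have hy' : y ∈ (Algebra.adjoin A (Set.range fun i : Fin n =>
        (⟨x i.castSucc, Algebra.subset_adjoin ⟨i, rfl⟩⟩ : B'))).map B'.val := by
        rw [h3]; exact hy
      obtain ⟨z, hz, hzy⟩ := hy'
      have : z = ⟨y, hy⟩ := Subtype.ext hzy
      rw [← this]; exact hz
    have hinj' : Function.Injective (algebraMap A B') := by
      intro a a' haa
      apply hinj
      have := congrArg (fun z : B' => (z : B)) haa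
      exact this
    obtain ⟨a, ha, hφ⟩ := ih A B' hinj' _ hx' b' hb'
    refine ⟨a, ha, ?_⟩
    intro φ hφa
    obtain ⟨ψ', hψ1, hψ2⟩ := hφ φ hφa
    obtain ⟨ψ, hψ3, hψ4⟩ := hψ' ψ' hψ2
    refine ⟨ψ, ?_, hψ4⟩
    rw [← hψ1, ← hψ3, RingHom.comp_assoc]
    rfl

theorem prf_HomExt (hHomExt1 : HomExt1) : HomExt := by
  intro A B K _ _ _ _ _ _ _ hinj hft b hb
  obtain ⟨s, hs⟩ := hft.out
  refine L_HomExt_aux hHomExt1 K s.card A B hinj (fun i => ((s.equivFin.symm i : s) : B)) ?_ b hb
  rw [← hs]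
  congr 1
  ext y
  constructor
  · rintro ⟨i, rfl⟩
    exact (s.equivFin.symm i).2
  · intro hy
    exact ⟨s.equivFin ⟨y, hy⟩, by simp⟩

end AJM

end
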