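import Pool.Agent.Work.MP_d3fa71_gt.Mut.Bd.B08
import Pool.Agent.Work.MP_d3fa71_gt.Mut.Bd.B01
import Pool.Agent.Work.MP_d3fa71_gt.Mut.Bd.B20
import Pool.Agent.Work.MP_d3fa71_gt.Mut.Bd.B06
import Pool.Agent.Work.MP_d3fa71_gt.Mut.Bd.B07
import Pool.Agent.Work.MP_d3fa71_gt.Mut.L_Iso
import Pool.Agent.Work.MP_d3fa71_gt.Mut.L_GermPath
import Pool.Agent.Work.MP_d3fa71_gt.Mut.Bd.B19
import Pool.Agent.Work.MP_d3fa71_gt.Bd.B05

/-! Bundle of small proof modules (one section per former module). -/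

section

/-!
# MP_d3fa71_gt, project Mut: the inner column of the block which switches
-/

set_option autoImplicit false
set_option linter.unusedVariables false

namespace AJM

section
variable {R : Type} [CommRing R]

theorem ZFlip_T00 (x : R) : (Tm x).1 0 0 = 1 := rfl
theorem ZFlip_T01 (x : R) : (Tm x).1 0 1 = x := rfl
theorem ZFlip_T10 (x : R) : (Tm x).1 1 0 = 0 := rfl
theorem ZFlip_T11 (x : R) : (Tm x).1 1 1 = 1 := rfl

theorem ZFlip_Tm_mul (x y : R) : Tm x * Tm y = Tm (x + y) := by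
  ext <;> simp only [G_mul00, G_mul01, G_mul10, G_mul11, ZFlip_T00, ZFlip_T01, ZFlip_T10,
    ZFlip_T11] <;> ring

theorem ZFlip_Tm_zero : Tm (0 : R) = 1 := by
  ext <;> simp [ZFlip_T00, ZFlip_T01, ZFlip_T10, ZFlip_T11]

theorem ZFlip_dg_Tm (u : Rˣ) (x : R) : dg u * Tm x = Tm ((u : R) ^ 2 * x) * dg u := by
  have h : (u : R) * ((u⁻¹ : Rˣ) : R) = 1 := u.mul_inv
  ext
  · simp [G_mul00, ZFlip_T00, ZFlip_T10]
  · simp only [G_mul01, dg00, dg01, dg11, ZFlip_T00, ZFlip_T01, ZFlip_T11]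
    linear_combination (-(u : R) * x) * h
  · simp [G_mul10, ZFlip_T00, ZFlip_T10]
  · simp [G_mul11, ZFlip_T10, ZFlip_T11]

theorem ZFlip_Tm_inv (x : R) : (Tm x)⁻¹ = Tm (-x) := by
  rw [inv_eq_iff_mul_eq_one, ZFlip_Tm_mul, add_neg_cancel, ZFlip_Tm_zero]

/-- The meridian with frame `Tm y * J`. -/
theorem ZFlip_mer (M : Rˣ) (y : R) :
    mer M (Tm y * J) = Tm (y * (1 - ((M⁻¹ : Rˣ) : R) ^ 2)) * dg M⁻¹ := by
  rw [mer_J]
  unfold mer
  rw [mul_inv_rev, mul_inv_rev, inv_inv, ← dg_inv, ZFlip_Tm_inv, ZFlip_dg_Tm, ← mul_assoc,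
    ZFlip_Tm_mul]
  congr 2
  ring

/-- The product of two meridians. -/
theorem ZFlip_mer2 (M : Rˣ) (y x : R) :
    mer M (Tm y * J) * mer M (Tm x * J) =
      Tm ((1 - ((M⁻¹ : Rˣ) : R) ^ 2) * (y + ((M⁻¹ : Rˣ) : R) ^ 2 * x)) * dg (M⁻¹ * M⁻¹) := by
  rw [ZFlip_mer, ZFlip_mer, mul_assoc, ← mul_assoc (dg M⁻¹), ZFlip_dg_Tm, mul_assoc (Tm _) (dg _),
    ← dg_mul, ← mul_assoc, ZFlip_Tm_mul]
  congr 2
  ring

theorem ZFlip_inj {x y : R} {u : Rˣ} (h : Tm x * dg u = Tm y * dg u) : x = y := by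
  have h1 : Tm x = Tm y := mul_right_cancel h
  have h2 := congrArg (fun a : G R => a.1 0 1) h1
  simpa [Tm] using h2

end

theorem prf_ZFlip (hSPCalc : SPCalc) (hColUp : ColUp) : ZFlip := by
  intro M v g hM12 hv
  have hM0 : (M : ℂ) ≠ 0 := M.ne_zero
  have hinv : ((M⁻¹ : ℂˣ) : ℂ) = (M : ℂ)⁻¹ := Units.val_inv_eq_inv_val M
  have hM4 : (M : ℂ) ^ 4 ≠ 1 := fun h => hM12 (by
    rw [show (M : ℂ) ^ 12 = ((M : ℂ) ^ 4) ^ 3 by ring, h, one_pow])
  have hM2 : (M : ℂ) ^ 2 ≠ 1 := fun h => hM4 (by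
    rw [show (M : ℂ) ^ 4 = ((M : ℂ) ^ 2) ^ 2 by ring, h, one_pow])
  have hw : mer M (Tm (-((M : ℂ) ^ 14)⁻¹) * J) * mer M (Tm ((M : ℂ) ^ 12)⁻¹ * J) =
      dg (M⁻¹ * M⁻¹) := by
    rw [ZFlip_mer2]
    have h1 : (1 - ((M⁻¹ : ℂˣ) : ℂ) ^ 2) *
        (-((M : ℂ) ^ 14)⁻¹ + ((M⁻¹ : ℂˣ) : ℂ) ^ 2 * ((M : ℂ) ^ 12)⁻¹) = 0 := by
      rw [hinv]
      field_simp
      ring
    rw [h1, ZFlip_Tm_zero, one_mul]
  have hw3 : (mer M (Tm (-((M : ℂ) ^ 14)⁻¹) * J) * mer M (Tm ((M : ℂ) ^ 12)⁻¹ * J)) ^ (-3 : ℤ) =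
      dg (M ^ (6 : ℤ)) := by
    rw [hw, ← dg_zpow]
    congr 1
    rw [← mul_inv, ← sq, ← zpow_natCast, ← zpow_neg, ← zpow_mul]
    norm_num
  have hM6 : (((M ^ (6 : ℤ) : ℂˣ)) : ℂ) = (M : ℂ) ^ 6 := by
    rw [Units.val_zpow_eq_zpow_val]
    norm_cast
  have hne : mer M (Tm (-((M : ℂ) ^ 14)⁻¹) * J) * mer M (Tm ((M : ℂ) ^ 12)⁻¹ * J) ≠
      mer M (Tm ((M : ℂ) ^ 12)⁻¹ * J) * mer M (Tm (-((M : ℂ) ^ 14)⁻¹) * J) := by
    intro h
    rw [ZFlip_mer2, ZFlip_mer2] at h
    have h2 := ZFlip_inj h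
    rw [hinv] at h2
    have h3 : (1 - ((M : ℂ)⁻¹) ^ 2) *
        (-((M : ℂ) ^ 14)⁻¹ + ((M : ℂ)⁻¹) ^ 2 * ((M : ℂ) ^ 12)⁻¹) = 0 := by
      field_simp
      ring
    have h4 : (1 - ((M : ℂ)⁻¹) ^ 2) *
        (((M : ℂ) ^ 12)⁻¹ + ((M : ℂ)⁻¹) ^ 2 * -((M : ℂ) ^ 14)⁻¹) =
        (((M : ℂ) ^ 2 - 1) * ((M : ℂ) ^ 4 - 1)) * ((M : ℂ) ^ 18)⁻¹ := by
      field_simp
      ring
    rw [h3, h4] at h2
    have h5 : ((M : ℂ) ^ 18)⁻¹ ≠ 0 := inv_ne_zero (pow_ne_zero _ hM0)
    exact mul_ne_zero (mul_ne_zero (sub_ne_zero.2 hM2) (sub_ne_zero.2 hM4)) h5 h2.symm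
  have hc3 : ∀ x : ℂ, dg (M ^ (6 : ℤ)) * (Tm x * J) * dg (M ^ (3 : ℤ)) =
      Tm ((M : ℂ) ^ 12 * x) * J * dg (M ^ (-3 : ℤ)) := by
    intro x
    have h5 : (J : G ℂ) * dg (M ^ (-3 : ℤ)) = dg (M ^ (3 : ℤ)) * J := by
      rw [J_dg, zpow_neg, inv_inv]
    have h6 : (J : G ℂ) * dg (M ^ (3 : ℤ)) = dg (M ^ (-3 : ℤ)) * J := by
      rw [J_dg, zpow_neg]
    rw [← mul_assoc (dg _), ZFlip_dg_Tm, mul_assoc (Tm _) J, h5, mul_assoc _ J, h6,
      mul_assoc (Tm _) (dg _), ← mul_assoc (dg _) (dg _), ← dg_mul, ← zpow_add, hM6, ← pow_mul]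
    norm_num
  have hco : (mer M (Tm (-((M : ℂ) ^ 14)⁻¹) * J) * mer M (Tm ((M : ℂ) ^ 12)⁻¹ * J)) ^ (-3 : ℤ) *
      (Tm (-((M : ℂ) ^ 14)⁻¹) * J) * dg (M ^ (3 : ℤ)) =
      Tm (-((M : ℂ) ^ 2)⁻¹) * J * dg (M ^ (-3 : ℤ)) := by
    rw [hw3, hc3]
    congr 3
    field_simp
  have hco2 : (mer M (Tm (-((M : ℂ) ^ 14)⁻¹) * J) * mer M (Tm ((M : ℂ) ^ 12)⁻¹ * J)) ^ (-3 : ℤ) *
      (Tm ((M : ℂ) ^ 12)⁻¹ * J) * dg (M ^ (3 : ℤ)) = Tm 1 * J * dg (M ^ (-3 : ℤ)) := by
    rw [hw3, hc3]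
    congr 3
    field_simp
  have hP := hColUp ℂ M 3 v g (M ^ (-3 : ℤ)) (Tm (-((M : ℂ) ^ 2)⁻¹))
    (Tm (-((M : ℂ) ^ 14)⁻¹) * J) (Tm ((M : ℂ) ^ 12)⁻¹ * J) [] hv hne hco
  refine ⟨[M ^ (-3 : ℤ), -1], g * M ^ (-3 : ℤ), rfl, ?_, ?_⟩
  · have h7 : (scl [Tm 1 * J, Tm ((M : ℂ) ^ 12)⁻¹] [M ^ (-3 : ℤ), -1] : List (G ℂ)) =
        [Tm 1 * J * dg (M ^ (-3 : ℤ)), Tm ((M : ℂ) ^ 12)⁻¹ * J * J] := by
      rw [mul_assoc (Tm _) J J, J_J]
      rfl
    rw [h7, ← hco2]
    exact hP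
  · rw [List.prod_cons, List.prod_cons, List.prod_nil, mul_one]
    have h8 : M ^ (-6 : ℤ) = M ^ (-3 : ℤ) * M ^ (-3 : ℤ) := by
      rw [← zpow_add]
      norm_num
    rw [h8]
    simp [mul_assoc]

end AJM

end

section

set_option autoImplicit false

/-!
# MP_d3fa71_gt, project Mut: the blocks `P P†` and `G G†`
-/

namespace AJM

theorem ZPP_dg_one {R : Type} [CommRing R] : dg (1 : Rˣ) = 1 := by
  apply Subtype.ext
  ext i j
  fin_cases i <;> fin_cases j <;> simp [dg]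

theorem prf_ZPP (hSPCalc : SPCalc) (hPathAppend : PathAppend) (hColUp : ColUp)
    (hColDown : ColDown) (hColRoot : ColRoot) : ZPP := by
  have _ := hSPCalc
  intro M r v v' g g' hM hr hv hv'
  obtain ⟨k, τ, hne, heq⟩ := hColRoot M r hM hr
  have h1 := hColUp ℂ M r v g τ (Tm 1) (Tm (-((M : ℂ) ^ 2)⁻¹)) k [] hv hne heq
  have h2 := hColDown ℂ M r v' g' τ (Tm 1) (Tm (-((M : ℂ) ^ 2)⁻¹)) k [] hv' hne heq
  have h3 := (hPathAppend ℂ M _ _ _ _ (g * τ * g')).2 ⟨_, _, _, h1, h2, rfl⟩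
  refine ⟨[1, τ⁻¹], g * τ * g', rfl, ?_, ?_⟩
  · have e : scl [Tm 1, Tm (-((M : ℂ) ^ 2)⁻¹)] [1, τ⁻¹] =
        [Tm 1, Tm (-((M : ℂ) ^ 2)⁻¹) * dg τ⁻¹] := by
      unfold scl
      simp only [List.zipWith_cons_cons, List.zipWith_nil_left, ZPP_dg_one, mul_one]
    rw [e]
    exact h3
  · rw [List.prod_cons, List.prod_cons, List.prod_nil, one_mul, mul_one, mul_assoc g τ g',
      mul_comm τ g', ← mul_assoc, mul_inv_cancel_right]

end AJM

end

section

/-!
# MP_d3fa71_gt, project Mut, block Z: the special representation of `K`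
-/

namespace AJM

theorem ZPos_nil {F : Type} [Field F] (M : Fˣ) : Vok M [] 1 := fun _ _ _ _ => Path.nil _

theorem ZPos_word (k : ℕ) (v : Fin 7 → List Mv) :
    Kw k v = Ncl (Bw (v 0) (v 1) (v 2) ++
      (rot (v 3 ++ tws (2 * 2)) ++ ((.cup, 0) :: sh 1 (tws (-(2 * 2)) ++ v 4) ++ [(.cap, 2)])) ++
      (rot (v 5 ++ tws (2 * 1)) ++ ((.cup, 0) :: sh 1 (tws (-(2 * 1)) ++ []) ++ [(.cap, 2)])) ++
      Fw k (v 6)) := by
  have h1 : (2 * 2 : ℤ) = 4 := by norm_num
  have h2 : (2 * 1 : ℤ) = 2 := by norm_num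
  rw [h1, h2]
  unfold Kw Pw Pr Gw Gr
  simp only [List.append_assoc, List.append_nil]

theorem prf_ZPos (hSPCalc : SPCalc) (hNclPath : NclPath) (hZB : ZB) (hZPP : ZPP) (hZF : ZF) :
    ZPos := by
  classical
  refine ⟨(Polynomial.X ^ 12 - 1 : Polynomial ℂ).roots.toFinset, ?_⟩
  intro M hM k v g hv
  have hM12 : (M : ℂ) ^ 12 ≠ 1 := by
    intro h
    apply hM
    have h0 : (Polynomial.X ^ 12 - 1 : Polynomial ℂ) ≠ 0 :=
      Polynomial.X_pow_sub_C_ne_zero (by norm_num) 1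
    rw [Multiset.mem_toFinset, Polynomial.mem_roots h0, Polynomial.IsRoot.def]
    simp [h]
  have hM4 : (M : ℂ) ^ 4 ≠ 1 := by
    intro h
    apply hM12
    calc (M : ℂ) ^ 12 = ((M : ℂ) ^ 4) ^ 3 := by ring
      _ = 1 := by rw [h, one_pow]
  obtain ⟨-, -, h3, -, -, -⟩ := hSPCalc ℂ M
  have e1 := hZB M (v 0) (v 1) (v 2) (g 0) (g 1) (g 2) hM12 (hv 0) (hv 1) (hv 2)
  have e2 := hZPP M 2 (v 3) (v 4) (g 3) (g 4) hM4 (Or.inr rfl) (hv 3) (hv 4)
  have e3 := hZPP M 1 (v 5) [] (g 5) 1 hM4 (Or.inl rfl) (hv 5) (ZPos_nil M)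
  have e4 := hZF M k (v 6) (g 6) hM4 (hv 6)
  have e5 := h3 _ _ _ _ _ _ _ (h3 _ _ _ _ _ _ _ (h3 _ _ _ _ _ _ _ e1 e2) e3) e4
  have e6 : M ^ (-12 - 6 * (k : ℤ)) * ∏ i, g i =
      M ^ (-12 : ℤ) * g 0 * g 1 * g 2 * (g 3 * g 4) * (g 5 * 1) * (M ^ (-(6 * k : ℤ)) * g 6) := by
    rw [Fin.prod_univ_seven, sub_eq_add_neg, zpow_add, mul_one]
    ac_rfl
  rw [ZPos_word, e6]
  exact hNclPath ℂ M _ _ _ _ e5

end AJM

end

section

/-!
# MP_d3fa71_gt, project Mut: an inner column of the block which does not switch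
-/

set_option autoImplicit false

namespace AJM

section
variable {R : Type} [CommRing R]

theorem ZStay_Tm00 (x : R) : (Tm x).1 0 0 = 1 := rfl
theorem ZStay_Tm01 (x : R) : (Tm x).1 0 1 = x := rfl
theorem ZStay_Tm10 (x : R) : (Tm x).1 1 0 = 0 := rfl
theorem ZStay_Tm11 (x : R) : (Tm x).1 1 1 = 1 := rfl

theorem ZStay_Tm_mul (x y : R) : Tm x * Tm y = Tm (x + y) := by
  ext <;> simp [G_mul00, G_mul01, G_mul10, G_mul11, ZStay_Tm00, ZStay_Tm01, ZStay_Tm10,
    ZStay_Tm11, add_comm]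

theorem ZStay_Tm_zero : Tm (0 : R) = 1 := by
  ext <;> simp [ZStay_Tm00, ZStay_Tm01, ZStay_Tm10, ZStay_Tm11]

/-- `Tm` as a homomorphism. -/
def ZStay_Tmh : Multiplicative R →* G R where
  toFun x := Tm x.toAdd
  map_one' := ZStay_Tm_zero
  map_mul' _ _ := (ZStay_Tm_mul _ _).symm

theorem ZStay_Tm_zpow (x : R) (n : ℤ) : Tm x ^ n = Tm (n * x) := by
  have h := map_zpow (ZStay_Tmh (R := R)) (Multiplicative.ofAdd x) n
  have h2 : ZStay_Tmh (Multiplicative.ofAdd x ^ n) = Tm (n * x) := by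
    rw [← ofAdd_zsmul, zsmul_eq_mul]
    rfl
  rw [h2] at h
  exact h.symm

theorem ZStay_mer (M : Rˣ) (y : R) : (mer M (Tm y)).1 0 0 = M ∧
    (mer M (Tm y)).1 0 1 = y * ((M⁻¹ : Rˣ) : R) - M * y ∧ (mer M (Tm y)).1 1 0 = 0 ∧
    (mer M (Tm y)).1 1 1 = ((M⁻¹ : Rˣ) : R) := by
  unfold mer
  refine ⟨?_, ?_, ?_, ?_⟩ <;>
    simp only [G_mul00, G_mul01, G_mul10, G_mul11, G_inv00, G_inv01, G_inv10, G_inv11, dg00, dg01,
      dg10, dg11, ZStay_Tm00, ZStay_Tm01, ZStay_Tm10, ZStay_Tm11] <;> ring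

theorem ZStay_merprod (M : Rˣ) (y y' : R) :
    mer M (Tm y) * (mer M (Tm y'))⁻¹ = Tm ((y' - y) * ((M : R) ^ 2 - 1)) := by
  obtain ⟨a1, a2, a3, a4⟩ := ZStay_mer M y
  obtain ⟨b1, b2, b3, b4⟩ := ZStay_mer M y'
  have hM : (M : R) * ((M⁻¹ : Rˣ) : R) = 1 := by simp
  ext
  · rw [G_mul00, G_inv00, G_inv10, a1, a2, b4, b3, ZStay_Tm00]
    linear_combination hM
  · rw [G_mul01, G_inv01, G_inv11, a1, a2, b2, b1, ZStay_Tm01]
    linear_combination (y - y') * hM
  · rw [G_mul10, G_inv00, G_inv10, a3, a4, b4, b3, ZStay_Tm10]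
    ring
  · rw [G_mul11, G_inv01, G_inv11, a3, a4, b2, b1, ZStay_Tm11]
    linear_combination hM

theorem ZStay_merprod' (M : Rˣ) (y y' : R) :
    ((mer M (Tm y'))⁻¹ * mer M (Tm y)).1 0 1 =
      (y' - y) * (1 - ((M⁻¹ : Rˣ) : R) ^ 2) := by
  obtain ⟨a1, a2, a3, a4⟩ := ZStay_mer M y
  obtain ⟨b1, b2, b3, b4⟩ := ZStay_mer M y'
  have hM : (M : R) * ((M⁻¹ : Rˣ) : R) = 1 := by simp
  rw [G_mul01, G_inv00, G_inv01, a2, a4, b4, b2]
  linear_combination (y' - y) * hM

end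

theorem prf_ZStay (_hSPCalc : SPCalc) (hColUp : ColUp) : ZStay := by
  intro M v g r x y x' y' hM hv hyy hxx hy
  have hMi : (M : ℂ) * ((M⁻¹ : ℂˣ) : ℂ) = 1 := by simp
  have hMi0 : ((M⁻¹ : ℂˣ) : ℂ) ≠ 0 := Units.ne_zero _
  have hw : mer M (Tm y) * mer M (Tm y' * J) = Tm ((y' - y) * ((M : ℂ) ^ 2 - 1)) := by
    rw [mer_J, ZStay_merprod]
  have hnc : mer M (Tm y) * mer M (Tm y' * J) ≠ mer M (Tm y' * J) * mer M (Tm y) := by
    intro h
    rw [hw] at h
    have h1 := congrArg (fun z : G ℂ => z.1 0 1) h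
    rw [mer_J, ZStay_merprod', ZStay_Tm01] at h1
    have h2 : (y' - y) * (((M : ℂ) ^ 2 - 1) ^ 2 * ((M⁻¹ : ℂˣ) : ℂ) ^ 2) = 0 := by
      have h3 : (M : ℂ) ^ 2 * ((M⁻¹ : ℂˣ) : ℂ) ^ 2 = 1 := by
        rw [← mul_pow, hMi, one_pow]
      linear_combination h1 + (y' - y) * ((M : ℂ) ^ 2 - 2) * h3
    rcases mul_eq_zero.1 h2 with h4 | h4
    · exact hyy (sub_eq_zero.1 h4).symm
    · rcases mul_eq_zero.1 h4 with h5 | h5
      · exact hM (sub_eq_zero.1 (pow_eq_zero_iff (two_ne_zero) |>.1 h5))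
      · exact hMi0 (pow_eq_zero_iff (two_ne_zero) |>.1 h5)
  have hwr : (mer M (Tm y) * mer M (Tm y' * J)) ^ (-r) =
      Tm (-(r * ((y' - y) * ((M : ℂ) ^ 2 - 1)))) := by
    rw [hw, ZStay_Tm_zpow]
    congr 1
    push_cast
    ring
  have hJJ : ∀ (h : G ℂ) (u : ℂˣ), h * J * J * dg u = h * dg (-u) := by
    intro h u
    rw [mul_assoc h, J_J, mul_assoc, ← dg_mul]
    congr 2
    simp
  have he : (mer M (Tm y) * mer M (Tm y' * J)) ^ (-r) * Tm y * dg (M ^ r) =
      (Tm x * J) * J * dg (-M ^ r) := by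
    rw [hJJ, neg_neg, hwr, ZStay_Tm_mul]
    congr 2
    linear_combination hy + (r : ℂ) * (1 - (M : ℂ) ^ 2) * (-hxx)
  have hP := hColUp ℂ M r v g (-M ^ r) (Tm x * J) (Tm y) (Tm y' * J) [] hv hnc he
  refine ⟨[M ^ r, -1], g * (-M ^ r), rfl, ?_, ?_⟩
  · have h1 : (mer M (Tm y) * mer M (Tm y' * J)) ^ (-r) * (Tm y' * J) * dg (M ^ r) =
        Tm x' * J * dg (M ^ r) := by
      rw [hwr, ← mul_assoc, ZStay_Tm_mul]
      congr 3
      linear_combination hy + (r : ℂ) * (1 - (M : ℂ) ^ 2) * (-hxx) - hxx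
    have h2 : Tm y' * J * J = Tm y' * dg (-1 : ℂˣ) := by
      rw [mul_assoc, J_J]
    rw [h1, h2] at hP
    exact hP
  · rw [List.prod_cons, List.prod_cons, List.prod_nil, mul_one]
    rw [show (2 * r : ℤ) = r + r by ring, zpow_add]
    rw [mul_neg, mul_neg, mul_one, mul_neg, neg_mul, neg_neg, mul_assoc]

end AJM

end

section

/-!
# MP_d3fa71_gt, project Mut: statements of block L (the link theorem, `PROOF.md` sections 6, 7)
-/

open Filter

namespace AJM

/-- The closed drilled ring word. -/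
def rwd : List DMv :=
  emb ([(.cup, 0), (.cup, 1)] ++ Tw) ++ twd 0 ++ emb [(.cap, 1), (.cap, 0)]

/-! ## Algebra over a general base field -/

/-- Inversion of the closed drilled ring. -/
def RingDInv : Prop :=
  ∀ (F : Type) [Field F] (M τ ε ω : Fˣ), (ω : F) ^ 2 ≠ 1 → DPath M rwd [] [] τ [(ε, ω)] →
    ∃ ha hb : G F, mer M ha * mer M hb = dg ω ∧ Ring M ha hb (dg ε) τ

/-- `Alg` over a general base field. -/
def AlgG : Prop :=
  ∀ (k L : Type) [Field k] [Field L] [Algebra k L] (M ω ε τ : Lˣ) (ha hb : G L),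
    Transcendental k (M : L) → (ω : L) ^ 2 ≠ 1 → ω ≠ M ^ 2 → ω ≠ (M ^ 2)⁻¹ →
    mer M ha * mer M hb = dg ω → Ring M ha hb (dg ε) τ →
    IsAlgebraic (IntermediateField.adjoin k {(M : L), (ω : L)}) (ε : L)

/-- Everything algebraic over `k(x)`: the wedge vanishes. -/
def WedgeZero : Prop :=
  ∀ (k L : Type) [Field k] [Field L] [Algebra k L] [CharZero L] (x y z : L),
    IsAlgebraic (IntermediateField.adjoin k {x}) y →
    IsAlgebraic (IntermediateField.adjoin k {x}) z →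
    ∀ D D' : Derivation k L L, D y * D' z = D' y * D z

/-- `τ` is algebraic. -/
def AlgTau : Prop :=
  ∀ (k L : Type) [Field k] [Field L] [Algebra k L] [CharZero k] (M ω ε τ : Lˣ),
    Transcendental k (M : L) →
    IsAlgebraic (IntermediateField.adjoin k {(M : L), (ω : L)}) (ε : L) →
    (∀ D D' : Derivation k L L, dl D D' (ε : L) (ω : L) = dl D D' (τ : L) (M : L)) →
    IsAlgebraic (IntermediateField.adjoin k {(M : L), (ω : L)}) (τ : L)

/-- Algebraic elements give relations. -/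
def DepOfAlg : Prop :=
  ∀ (k L : Type) [Field k] [Field L] [Algebra k L] (x y z : L),
    IsAlgebraic (IntermediateField.adjoin k {x, y}) z → ¬ AlgebraicIndependent k ![x, y, z]

/-- Relations give algebraic elements. -/
def AlgOfDep : Prop :=
  ∀ (k L : Type) [Field k] [Field L] [Algebra k L] (x y : L), Transcendental k x →
    ¬ AlgebraicIndependent k ![x, y] → IsAlgebraic (IntermediateField.adjoin k {x}) y

/-- Substitution of a large power of the first variable. -/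
def Subst1 : Prop :=
  ∀ (k F : Type) [Field k] [Field F] [Algebra k F] (M ω : Fˣ) (s : k) (n : ℤ) (C : ℕ)
    (Q : MvPolynomial (Fin 3) k), Q ≠ 0 → s ≠ 0 → (∀ j, Q.degreeOf j ≤ C) → (C : ℤ) < |n| →
    MvPolynomial.aeval ![(M : F), (ω : F), algebraMap k F s * ((M ^ n : Fˣ) : F)] Q = 0 →
    ∃ P : MvPolynomial (Fin 2) k, P ≠ 0 ∧ P.degreeOf 1 ≤ C ∧
      MvPolynomial.aeval ![(M : F), (ω : F)] P = 0

/-- Substitution of a large power of the second variable. -/
def Subst2 : Prop :=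
  ∀ (k F : Type) [Field k] [Field F] [Algebra k F] (M ω : Fˣ) (s : k) (n : ℤ) (C : ℕ)
    (Q : MvPolynomial (Fin 3) k), Q ≠ 0 → s ≠ 0 → (∀ j, Q.degreeOf j ≤ C) → (C : ℤ) < |n| →
    MvPolynomial.aeval ![(M : F), (ω : F), algebraMap k F s * ((ω ^ n : Fˣ) : F)] Q = 0 →
    ∃ P : MvPolynomial (Fin 2) k, P ≠ 0 ∧ P.degreeOf 0 ≤ C ∧
      MvPolynomial.aeval ![(M : F), (ω : F)] P = 0

/-- Two relations bound the bidegree of the irreducible relation. -/
def BiDeg : Prop :=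
  ∀ (k F : Type) [Field k] [Field F] [Algebra k F] (x y : F) (C : ℕ)
    (P Q : MvPolynomial (Fin 2) k), Transcendental k x → P ≠ 0 → Q ≠ 0 → P.degreeOf 1 ≤ C →
    Q.degreeOf 0 ≤ C → MvPolynomial.aeval ![x, y] P = 0 → MvPolynomial.aeval ![x, y] Q = 0 →
    ∃ S : MvPolynomial (Fin 2) k, S ≠ 0 ∧ (∀ j, S.degreeOf j ≤ C) ∧
      MvPolynomial.aeval ![x, y] S = 0

/-! ## Germs -/

def RingIso : Prop :=
  ∀ (F : Type) [Field F] [Algebra ℂ F] (M τ ε ω : ℕ → Fˣ),
    (∀ i, DPath (M i) rwd [] [] (τ i) [(ε i, ω i)]) →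
    ∀ D D' : Derivation (kst F) (Gm F) (Gm F),
      dl D D' (gu ε : Gm F) (gu ω : Gm F) = dl D D' (gu τ : Gm F) (gu M : Gm F)

/-- Signs and powers under logarithmic derivatives of germs. -/
def DlogSq : Prop :=
  ∀ (F : Type) [Field F] [Algebra ℂ F] (x y : ℕ → Fˣ), (∀ i, x i = y i ∨ x i = - y i) →
    ∀ D : Derivation (kst F) (Gm F) (Gm F),
      D (gu x : Gm F) / (gu x : Gm F) = D (gu y : Gm F) / (gu y : Gm F)

/-- A relation over the constants of the ultrapower gives relations of bounded degree. -/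
def PolyGerm : Prop :=
  ∀ (F : Type) [Field F] [Algebra ℂ F] (n : ℕ) (x : Fin n → ℕ → F)
    (P : MvPolynomial (Fin n) (kst F)), P ≠ 0 →
    MvPolynomial.aeval (fun j => gm F (x j)) P = 0 →
    ∃ C : ℕ, ∀ᶠ i in (hyperfilter ℕ : Filter ℕ), ∃ Q : MvPolynomial (Fin n) ℂ, Q ≠ 0 ∧
      (∀ j, Q.degreeOf j ≤ C) ∧ MvPolynomial.aeval (fun j => x j i) Q = 0

/-- Relations of bounded degree give a relation over the constants of the ultrapower. -/
def GermPoly : Prop :=
  ∀ (F : Type) [Field F] [Algebra ℂ F] (n C : ℕ) (x : Fin n → ℕ → F),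
    (∀ᶠ i in (hyperfilter ℕ : Filter ℕ), ∃ Q : MvPolynomial (Fin n) ℂ, Q ≠ 0 ∧
      (∀ j, Q.degreeOf j ≤ C) ∧ MvPolynomial.aeval (fun j => x j i) Q = 0) →
    ¬ AlgebraicIndependent (kst F) (fun j => gm F (x j))

/-- Germs of transcendental elements are transcendental over the constants. -/
def MTrans : Prop :=
  ∀ (F : Type) [Field F] [Algebra ℂ F] (M : ℕ → F), (∀ i, Transcendental ℂ (M i)) →
    Transcendental (kst F) (gm F M)

/-! ## The three cases -/

def LkI : Prop :=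
  ∀ (F : Type) [Field F] [Algebra ℂ F] [IsAlgClosed F] (N : ℤ), ∃ k₀ : ℕ, ∀ k ≥ k₀,
    ∀ (M x τ : Fˣ) (ha hb : G F), Transcendental ℂ (M : F) →
    (τ = M ^ N * x ^ (2 * k) ∨ τ = -(M ^ N * x ^ (2 * k))) →
    mer M ha * mer M hb = dg (M ^ 2 * x) → Ring M ha hb (dg (x ^ k)) τ → Cst (x : F)

def LkII : Prop :=
  ∀ (F : Type) [Field F] [Algebra ℂ F] [IsAlgClosed F] (N b : ℤ), b ≠ 0 → ∃ k₀ : ℕ, ∀ k ≥ k₀,
    ∀ (M τ ε ω : Fˣ), Transcendental ℂ (M : F) →
    (τ = M ^ (N + b * k) ∨ τ = -M ^ (N + b * k)) → (ω = 1 ∨ ω = -1) →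
    ¬ DPath M rwd [] [] τ [(ε, ω)]

def LkIIIa : Prop :=
  ∀ (F : Type) [Field F] [Algebra ℂ F] (M ω ε τ : ℕ → Fˣ) (k : ℕ → ℕ) (N : ℤ), StrictMono k →
    (∀ i, Transcendental ℂ (M i : F)) →
    (∀ i, ε i = ω i ^ (-(k i : ℤ)) ∨ ε i = -ω i ^ (-(k i : ℤ))) →
    (∀ i, τ i = M i ^ (N - 2 * k i) ∨ τ i = -M i ^ (N - 2 * k i)) →
    IsAlgebraic (IntermediateField.adjoin (kst F) {(gu M : Gm F), (gu ω : Gm F)}) (gu ε : Gm F) →
    IsAlgebraic (IntermediateField.adjoin (kst F) {(gu M : Gm F), (gu ω : Gm F)}) (gu τ : Gm F) →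
    ¬ AlgebraicIndependent (kst F) ![(gu M : Gm F), (gu ω : Gm F)]

def LkIIIb : Prop :=
  ∀ (F : Type) [Field F] [Algebra ℂ F] (M ω ε τ : ℕ → Fˣ) (k : ℕ → ℕ) (N : ℤ), StrictMono k →
    (∀ i, Transcendental ℂ (M i : F)) →
    (∀ i, ε i = ω i ^ (-(k i : ℤ)) ∨ ε i = -ω i ^ (-(k i : ℤ))) →
    (∀ i, τ i = M i ^ (N - 2 * k i) ∨ τ i = -M i ^ (N - 2 * k i)) →
    IsAlgebraic (IntermediateField.adjoin (kst F) {(gu M : Gm F), (gu ω : Gm F)}) (gu ε : Gm F) →
    ¬ AlgebraicIndependent (kst F) ![(gu M : Gm F), (gu ω : Gm F)] →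
    ¬ ∀ D D' : Derivation (kst F) (Gm F) (Gm F),
      dl D D' (gu ε : Gm F) (gu ω : Gm F) = dl D D' (gu τ : Gm F) (gu M : Gm F)

def LkIII : Prop :=
  ∀ (F : Type) [Field F] [Algebra ℂ F] [IsAlgClosed F] (N : ℤ), ∃ k₀ : ℕ, ∀ k ≥ k₀,
    ∀ (M ω ε τ : Fˣ) (ha hb : G F), Transcendental ℂ (M : F) → (ω : F) ^ 2 ≠ 1 → ω ≠ M ^ 2 →
    ω ≠ (M ^ 2)⁻¹ → mer M ha * mer M hb = dg ω →
    (ε = ω ^ (-(k : ℤ)) ∨ ε = -ω ^ (-(k : ℤ))) →
    (τ = M ^ (N - 2 * k) ∨ τ = -M ^ (N - 2 * k)) → ¬ Ring M ha hb (dg ε) τ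

/-- The trichotomy for a closed path of the link word. -/
def CaseSplit : Prop :=
  ∀ (F : Type) [Field F] [Algebra ℂ F] [IsAlgClosed F] (N : ℤ) (k : ℕ) (M τ : Fˣ),
    Transcendental ℂ (M : F) → (τ = M ^ (N - 6 * k) ∨ τ = -M ^ (N - 6 * k)) →
    Path M (Kw' k (fun _ => [])) [] [] τ →
    (∃ (x τ' : Fˣ) (ha hb : G F), (τ' = M ^ N * x ^ (2 * k) ∨ τ' = -(M ^ N * x ^ (2 * k))) ∧
      mer M ha * mer M hb = dg (M ^ 2 * x) ∧ Ring M ha hb (dg (x ^ k)) τ') ∨
    (∃ τ' ε ω : Fˣ, (τ' = M ^ (N + -2 * (k : ℤ)) ∨ τ' = -M ^ (N + -2 * (k : ℤ))) ∧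
      (ω = 1 ∨ ω = -1) ∧ DPath M rwd [] [] τ' [(ε, ω)]) ∨
    (∃ (ω ε τ' : Fˣ) (ha hb : G F), (ω : F) ^ 2 ≠ 1 ∧ mer M ha * mer M hb = dg ω ∧
      (ε = ω ^ (-(k : ℤ)) ∨ ε = -ω ^ (-(k : ℤ))) ∧
      (τ' = M ^ (N - 2 * k) ∨ τ' = -M ^ (N - 2 * k)) ∧ Ring M ha hb (dg ε) τ')

/-! ## From the link to the knot -/

/-- The seven slots. -/
def SlotSplit : Prop :=
  ∀ (k : ℕ) (v : Fin 7 → List Mv) (m : Fin 7), ∃ (w₁ w₂ : List Mv) (i : ℕ), ∀ x : List Mv,
    Kw' k (Function.update v m x) = w₁ ++ sh i x ++ w₂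

end AJM

end

section

/-!
# MP_d3fa71_gt, project Mut: assembly of the blocks B, I, V

`Vneg_holds` and `Vpos_holds`, without hypotheses.
-/

namespace AJM

theorem TwsOdd_holds : TwsOdd := prf_TwsOdd prf_TwsEven prf_PathAppend

theorem WidTwo_holds : WidTwo := prf_WidTwo prf_WidAppend prf_WidSh

theorem ShiftSplit_holds : ShiftSplit := prf_ShiftSplit prf_PathAppend

theorem RotInv_holds : RotInv := prf_RotInv prf_PathAppend prf_PathShift prf_PathRight

theorem TwoAppend_holds : TwoAppend := prf_TwoAppend prf_PathAppend prf_PathRight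

theorem DTL_holds : DTL := prf_DTL prf_DepJac

theorem Loop_holds : Loop := prf_Loop prf_Iso prf_GermPath DTL_holds

theorem OddHalf_holds : OddHalf := prf_OddHalf prf_PowTr prf_SpId

theorem TrOdd_holds : TrOdd := prf_TrOdd prf_PowTr prf_SpId

theorem OddPow_holds : OddPow := prf_OddPow prf_SpId

theorem OddTrace_holds : OddTrace := prf_OddTrace OddHalf_holds TrOdd_holds

theorem OddRel_holds : OddRel := prf_OddRel OddHalf_holds OddPow_holds

theorem VInv_holds : VInv :=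
  prf_VInv RotInv_holds TwoAppend_holds prf_TwsEven TwsOdd_holds WidTwo_holds

theorem VTrace_holds : VTrace := prf_VTrace OddTrace_holds

theorem VAlg_holds : VAlg := prf_VAlg OddRel_holds

theorem VConst_holds : VConst := prf_VConst VTrace_holds VAlg_holds

theorem VDrill_holds : VDrill := prf_VDrill prf_EigEx prf_EigPow

theorem VSolOf_holds : VSolOf :=
  prf_VSolOf prf_PathAppend ShiftSplit_holds prf_PathRight WidTwo_holds VInv_holds

theorem VSolConst_holds : VSolConst := prf_VSolConst VConst_holds prf_PathScale prf_PathAppend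

theorem VSolDrill_holds : VSolDrill :=
  prf_VSolDrill VDrill_holds prf_PathEmb prf_DPathAppend prf_DPathShift prf_DPathRight

theorem VA_holds : VA := prf_VA VSolDrill_holds Loop_holds prf_CstTr

theorem VB_holds : VB := prf_VB VSolDrill_holds Loop_holds prf_CstTr

theorem VC_holds : VC := prf_VC VSolDrill_holds Loop_holds prf_CstTr

theorem Vneg_holds : Vneg :=
  prf_Vneg VSolOf_holds VA_holds VB_holds VC_holds VSolConst_holds

theorem Vpos_holds : Vpos :=
  prf_Vpos VInv_holds VAlg_holds OddRel_holds prf_PExist prf_FrameEx prf_PathRight WidTwo_holds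

end AJM

end

section

/-!
# MP_d3fa71_gt, project Mut: assembly of the blocks C and Z
-/

namespace AJM

theorem all_SPCalc : SPCalc :=
  prf_SPCalc prf_PathAppend prf_PathScale prf_PathShift prf_PathRightZ

theorem all_TwsPath : TwsPath := prf_TwsPath prf_PathAppend

theorem all_WindPath : WindPath := prf_WindPath prf_PathAppend

theorem all_ColUp : ColUp := prf_ColUp prf_PathAppend prf_PathShift all_TwsPath

theorem all_ColDown : ColDown := prf_ColDown prf_PathAppend prf_PathShift all_TwsPath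

theorem all_ColRoot : ColRoot := prf_ColRoot prf_FrameUniq

theorem all_ZB : ZB :=
  prf_ZB all_SPCalc prf_PathAppend all_TwsPath (prf_ZStay all_SPCalc all_ColUp)
    (prf_ZFlip all_SPCalc all_ColUp)

theorem all_ZPP : ZPP := prf_ZPP all_SPCalc prf_PathAppend all_ColUp all_ColDown all_ColRoot

theorem all_ZF : ZF :=
  prf_ZF all_SPCalc prf_PathAppend prf_PathShift all_TwsPath all_WindPath

theorem all_ZPos : ZPos :=
  prf_ZPos all_SPCalc (prf_NclPath all_SPCalc) all_ZB all_ZPP all_ZF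

theorem all_RingD : RingD := prf_RingD prf_DPathAppend prf_PathEmb prf_PathRightZ prf_PathProd

theorem all_RingConj : RingConj := prf_RingConj prf_PathConj

end AJM

end

section

/-!
# Block L, item AlgG: algebraicity of `ε` over `k(M, ω)`
-/

open Filter

namespace AJM

theorem L_AlgG_map_dg {F L : Type} [Field F] [Field L] (f : F →+* L) (u : Fˣ) :
    Matrix.SpecialLinearGroup.map f (dg u) = dg (Units.map f.toMonoidHom u) := by
  apply Subtype.ext
  ext i j
  fin_cases i <;> fin_cases j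
  · exact (rfl : f (u : F) = f (u : F))
  · exact map_zero f
  · exact map_zero f
  · exact (rfl : f ((u⁻¹ : Fˣ) : F) = f ((u⁻¹ : Fˣ) : F))

theorem L_AlgG_mm_ne {k F : Type} [Field k] [Field F] [Algebra k F] {M : Fˣ}
    (hM : Transcendental k (M : F)) : mm M ≠ 0 := by
  intro h
  apply hM
  refine ⟨Polynomial.X ^ 2 + 1, ?_, ?_⟩
  · intro h0
    have := congrArg (fun p => Polynomial.coeff p 2) h0
    simp [Polynomial.coeff_one] at this
  · have h1 : (M : F) * ((M⁻¹ : Fˣ) : F) = 1 := by simp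
    unfold mm at h
    simp only [map_add, map_pow, Polynomial.aeval_X, map_one]
    linear_combination (M : F) * h - h1

theorem L_AlgG_mm_sq {F : Type} [Field F] {M ω : Fˣ} (h4 : ω ≠ M ^ 2) (h5 : ω ≠ (M ^ 2)⁻¹) :
    mm M ^ 2 - 2 ≠ (ω : F) + ((ω⁻¹ : Fˣ) : F) := by
  intro h
  have h1 : (M : F) * ((M⁻¹ : Fˣ) : F) = 1 := by simp
  have h2 : (ω : F) * ((ω⁻¹ : Fˣ) : F) = 1 := by simp
  unfold mm at h
  have h3 : ((ω : F) - (M : F) ^ 2) * ((ω : F) - ((M⁻¹ : Fˣ) : F) ^ 2) = 0 := by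
    linear_combination (-(ω : F)) * h + (2 * (ω : F) + (M : F) * ((M⁻¹ : Fˣ) : F) + 1) * h1 - h2
  rcases mul_eq_zero.1 h3 with h6 | h6
  · apply h4
    apply Units.ext
    rw [Units.val_pow_eq_pow_val]
    exact sub_eq_zero.1 h6
  · apply h5
    apply Units.ext
    rw [← inv_pow, Units.val_pow_eq_pow_val]
    exact sub_eq_zero.1 h6

theorem prf_AlgG (hRingM : RingM) (hMChainMap : MChainMap) (hAlgM : AlgM) : AlgG := by
  intro k F _ _ _ M ω ε τ ha hb hM hω h4 h5 hprod hring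
  set K := IntermediateField.adjoin k {(M : F), (ω : F)} with hK
  set f : F →+* AlgebraicClosure F := algebraMap F (AlgebraicClosure F) with hf
  have hinj : Function.Injective f := f.injective
  have hMK : (M : F) ∈ K := IntermediateField.subset_adjoin _ _ (by simp)
  have hωK : (ω : F) ∈ K := IntermediateField.subset_adjoin _ _ (by simp)
  have hmK : mm M ∈ K := by
    unfold mm
    rw [Units.val_inv_eq_inv_val]
    exact K.add_mem hMK (K.inv_mem hMK)
  have hM1 := hRingM F M ha hb (dg ε) τ hring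
  have hM2 := hMChainMap F (AlgebraicClosure F) f (mm M) _ _ _ hM1
  rw [L_AlgG_map_dg] at hM2
  have key : IsAlgebraic K (((Units.map f.toMonoidHom ε : (AlgebraicClosure F)ˣ)) :
      AlgebraicClosure F) := by
    refine hAlgM K (AlgebraicClosure F) (f (mm M)) (Units.map f.toMonoidHom ω)
      (Units.map f.toMonoidHom ε) _ _ ?_ ?_ ?_ ?_ ?_ ?_ hM2
    · rw [hf, isAlgebraic_algebraMap_iff hinj]
      exact isAlgebraic_algebraMap (⟨mm M, hmK⟩ : K)
    · rw [Ne, map_eq_zero_iff f hinj]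
      exact L_AlgG_mm_ne hM
    · change IsAlgebraic K (f (ω : F))
      rw [hf, isAlgebraic_algebraMap_iff hinj]
      exact isAlgebraic_algebraMap (⟨(ω : F), hωK⟩ : K)
    · intro h6
      apply hω
      have h7 : f (((ω : F)) ^ 2) = f 1 := by
        rw [map_pow, map_one]
        exact h6
      exact hinj h7
    · intro h6
      apply L_AlgG_mm_sq h4 h5
      apply hinj
      rw [map_sub, map_pow, map_add, map_ofNat]
      rw [← map_inv] at h6
      exact h6
    · rw [← map_mul, hprod, L_AlgG_map_dg]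
  change IsAlgebraic K (f (ε : F)) at key
  rwa [hf, isAlgebraic_algebraMap_iff hinj] at key

end AJM

end

section

/-!
# MP_d3fa71_gt, project Mut: relations give algebraic elements
-/

open Filter

namespace AJM

theorem L_AlgOfDep_ext {k L : Type} [Field k] [Field L] [Algebra k L] (S : Set L) (y : L)
    (h : IsAlgebraic (Algebra.adjoin k S) y) : IsAlgebraic (IntermediateField.adjoin k S) y := by
  let _ : Algebra (Algebra.adjoin k S) (IntermediateField.adjoin k S) :=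
    (Subalgebra.inclusion (IntermediateField.algebra_adjoin_le_adjoin k S)).toRingHom.toAlgebra
  have _ : IsScalarTower (Algebra.adjoin k S) (IntermediateField.adjoin k S) L :=
    IsScalarTower.of_algebraMap_eq (congrFun rfl)
  exact h.extendScalars (Subalgebra.inclusion_injective _)

theorem prf_AlgOfDep : AlgOfDep := by
  intro k L _ _ _ x y hx hdep
  by_contra hy
  apply hdep
  have hx1 : AlgebraicIndependent k ![x] := algebraicIndependent_iff_transcendental.2 hx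
  have hr : Set.range ![x] = {x} := by simp
  have hy1 : Transcendental (Algebra.adjoin k (Set.range ![x])) y := by
    intro h
    apply hy
    have h1 := L_AlgOfDep_ext _ _ h
    rw [hr] at h1
    exact h1
  have h2 := (hx1.option_iff_transcendental y).2 hy1
  have hf : Function.Injective ![(some 0 : Option (Fin 1)), none] := by
    intro a b h
    fin_cases a <;> fin_cases b <;> simp_all
  have h3 := h2.comp _ hf
  have h4 : (fun o : Option (Fin 1) => o.elim y ![x]) ∘ ![(some 0 : Option (Fin 1)), none] =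
      ![x, y] := by
    funext i
    fin_cases i <;> rfl
  rw [h4] at h3
  exact h3

end AJM

end

section

set_option autoImplicit false

/-!
# The element `τ` is algebraic
-/

namespace AJM

theorem L_AlgTau_alg {K L : Type} [Field K] [Field L] [Algebra K L] [CharZero K]
    (D : Derivation K L L) {x : L} (hx : IsAlgebraic K x) : D x = 0 := by
  have h1 := D.map_aeval (minpoly K x) x
  rw [minpoly.aeval, map_zero] at h1
  have hs : (minpoly K x).Separable := (minpoly.irreducible hx.isIntegral).separable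
  have h2 : Polynomial.aeval x (Polynomial.derivative (minpoly K x)) ≠ 0 :=
    hs.aeval_derivative_ne_zero (minpoly.aeval K x)
  rcases smul_eq_zero.1 h1.symm with h | h
  · exact absurd h h2
  · exact h

theorem prf_AlgTau (hAlgDer : AlgDer) : AlgTau := by
  intro k L _ _ _ _ M ω ε τ hM hε hdl
  have : CharZero (IntermediateField.adjoin k {(M : L), (ω : L)}) :=
    charZero_of_injective_algebraMap
      (algebraMap k (IntermediateField.adjoin k {(M : L), (ω : L)})).injective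
  refine hAlgDer (IntermediateField.adjoin k {(M : L), (ω : L)}) L (τ : L) fun D => ?_
  have hMK : (M : L) ∈ IntermediateField.adjoin k {(M : L), (ω : L)} :=
    IntermediateField.subset_adjoin _ _ (by simp)
  have hωK : (ω : L) ∈ IntermediateField.adjoin k {(M : L), (ω : L)} :=
    IntermediateField.subset_adjoin _ _ (by simp)
  have hDM : D (M : L) = 0 :=
    D.map_algebraMap (⟨(M : L), hMK⟩ : IntermediateField.adjoin k {(M : L), (ω : L)})
  have hDω : D (ω : L) = 0 :=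
    D.map_algebraMap (⟨(ω : L), hωK⟩ : IntermediateField.adjoin k {(M : L), (ω : L)})
  have hDε : D (ε : L) = 0 := L_AlgTau_alg D hε
  obtain ⟨D', hD'⟩ : ∃ D' : Derivation k L L, D' (M : L) ≠ 0 := by
    by_contra hcon
    push Not at hcon
    exact hM (hAlgDer k L (M : L) hcon)
  have h := hdl (D.restrictScalars k) D'
  unfold dl at h
  simp only [Derivation.restrictScalars_apply, hDM, hDω, hDε, zero_div, mul_zero, zero_mul,
    sub_zero] at h
  have h1 : D (τ : L) / (τ : L) = 0 ∨ D' (M : L) / (M : L) = 0 := mul_eq_zero.1 h.symm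
  rcases h1 with h1 | h1
  · exact (div_eq_zero_iff.1 h1).resolve_right τ.ne_zero
  · exact absurd ((div_eq_zero_iff.1 h1).resolve_right M.ne_zero) hD'

end AJM

end

section

/-!
# MP_d3fa71_gt, project Mut, block L: item BiDeg
-/

open Polynomial

namespace AJM

theorem L_BiDeg_exists (k F : Type) [Field k] [Field F] [Algebra k F] (x y : F)
    (hx : Transcendental k x) (P Q : (k[X])[X]) (hP : P ≠ 0)
    (eP : P.eval₂ (Polynomial.aeval (R := k) x).toRingHom y = 0)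
    (eQ : Q.eval₂ (Polynomial.aeval (R := k) x).toRingHom y = 0) :
    ∃ S : (k[X])[X], S ∣ P ∧ S ∣ Q ∧ S.eval₂ (Polynomial.aeval (R := k) x).toRingHom y = 0 := by
  classical
  set a : k[X] →+* F := (Polynomial.aeval (R := k) x).toRingHom with ha_def
  have ha : Function.Injective a := transcendental_iff_injective.mp hx
  let K := FractionRing k[X]
  let b : K →+* F := IsFractionRing.lift ha
  have hab : b.comp (algebraMap k[X] K) = a := by
    ext p
    · simp [b, IsFractionRing.lift_algebraMap ha]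
    · simp [b, IsFractionRing.lift_algebraMap ha]
  let _ : Algebra K F := b.toAlgebra
  have hba : algebraMap K F = b := rfl
  have key : ∀ R : (k[X])[X], Polynomial.aeval y (R.map (algebraMap k[X] K)) = R.eval₂ a y := by
    intro R
    rw [Polynomial.aeval_def, hba, Polynomial.eval₂_map, hab]
  have hPm : P.map (algebraMap k[X] K) ≠ 0 := by
    intro h
    exact hP ((Polynomial.map_eq_zero_iff (IsFractionRing.injective k[X] K)).mp h)
  have hint : IsIntegral K y := by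
    apply IsAlgebraic.isIntegral
    exact ⟨P.map (algebraMap k[X] K), hPm, by rw [key, eP]⟩
  let f := minpoly K y
  have hf0 : f ≠ 0 := minpoly.ne_zero hint
  let _ : NormalizedGCDMonoid k[X] := Nonempty.some inferInstance
  obtain ⟨c, hc0, hc⟩ := IsLocalization.integerNormalization_spec (nonZeroDivisors k[X]) f
  let g := IsLocalization.integerNormalization (nonZeroDivisors k[X]) f
  have hg0 : g ≠ 0 := by
    intro h
    exact hf0 ((IsFractionRing.integerNormalization_eq_zero_iff).mp h)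
  have hcont0 : g.content ≠ 0 := by
    rw [Ne, Polynomial.content_eq_zero_iff]; exact hg0
  have hgf : g.map (algebraMap k[X] K) = Polynomial.C (algebraMap k[X] K c) * f := by
    rw [hc, Algebra.smul_def]; rfl
  have hgS : g.map (algebraMap k[X] K)
      = Polynomial.C (algebraMap k[X] K g.content) * g.primPart.map (algebraMap k[X] K) := by
    conv_lhs => rw [g.eq_C_content_mul_primPart]
    rw [Polynomial.map_mul, Polynomial.map_C]
  have hc' : algebraMap k[X] K c ≠ 0 := by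
    intro h
    exact (nonZeroDivisors.ne_zero hc0)
      ((injective_iff_map_eq_zero _).mp (IsFractionRing.injective k[X] K) _ h)
  have hcont' : algebraMap k[X] K g.content ≠ 0 := by
    intro h
    exact hcont0 ((injective_iff_map_eq_zero _).mp (IsFractionRing.injective k[X] K) _ h)
  have hdvdf : g.primPart.map (algebraMap k[X] K) ∣ f := by
    have h1 : g.primPart.map (algebraMap k[X] K) ∣ Polynomial.C (algebraMap k[X] K c) * f := by
      rw [← hgf, hgS]; exact dvd_mul_left _ _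
    have hu : IsUnit (Polynomial.C (algebraMap k[X] K c)) :=
      Polynomial.isUnit_C.mpr (isUnit_iff_ne_zero.mpr hc')
    exact (hu.dvd_mul_left).mp h1
  refine ⟨g.primPart, ?_, ?_, ?_⟩
  · apply g.isPrimitive_primPart.dvd_of_fraction_map_dvd_fraction_map (K := K)
    exact hdvdf.trans (minpoly.dvd K y (by rw [key, eP]))
  · apply g.isPrimitive_primPart.dvd_of_fraction_map_dvd_fraction_map (K := K)
    exact hdvdf.trans (minpoly.dvd K y (by rw [key, eQ]))
  · have h2 : Polynomial.aeval y (g.map (algebraMap k[X] K)) = 0 := by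
      rw [hgf, map_mul, minpoly.aeval, mul_zero]
    rw [hgS, map_mul, Polynomial.aeval_C, key] at h2
    rcases mul_eq_zero.mp h2 with h3 | h3
    · exact absurd ((injective_iff_map_eq_zero _).mp (algebraMap K F).injective _ h3) hcont'
    · exact h3

theorem prf_BiDeg : BiDeg := by
  intro k F _ _ _ x y C P Q hx hP hQ hPd hQd eP eQ
  let φ : MvPolynomial (Fin 2) k →ₐ[k] (k[X])[X] :=
    MvPolynomial.aeval ![Polynomial.C (Polynomial.X : k[X]), Polynomial.X]
  let ψ : (k[X])[X] →+* MvPolynomial (Fin 2) k :=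
    Polynomial.eval₂RingHom (Polynomial.aeval (R := k) (MvPolynomial.X 0 :
      MvPolynomial (Fin 2) k)).toRingHom (MvPolynomial.X 1)
  have hψφ : ∀ R, ψ (φ R) = R := by
    intro R
    have : ψ.comp φ.toRingHom = RingHom.id _ := by
      apply MvPolynomial.ringHom_ext
      · intro r
        simp [φ, ψ, Polynomial.algebraMap_apply, MvPolynomial.algebraMap_eq]
      · intro i
        fin_cases i <;> simp [φ, ψ]
    exact congrArg (fun h => h R) this
  let e2 : (k[X])[X] →+* F := Polynomial.eval₂RingHom (Polynomial.aeval (R := k) x).toRingHom y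
  have he2φ : ∀ R, e2 (φ R) = MvPolynomial.aeval ![x, y] R := by
    intro R
    have : e2.comp φ.toRingHom = (MvPolynomial.aeval ![x, y] : MvPolynomial (Fin 2) k →ₐ[k] F).toRingHom := by
      apply MvPolynomial.ringHom_ext
      · intro r
        simp [φ, e2, Polynomial.algebraMap_apply]
      · intro i
        fin_cases i <;> simp [φ, e2]
    exact congrArg (fun h => h R) this
  have he2ψ : ∀ S, MvPolynomial.aeval ![x, y] (ψ S) = e2 S := by
    intro S
    have : (MvPolynomial.aeval ![x, y] : MvPolynomial (Fin 2) k →ₐ[k] F).toRingHom.comp ψ = e2 := by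
      apply Polynomial.ringHom_ext
      · intro r
        induction r using Polynomial.induction_on' with
        | add p q hp hq =>
          rw [Polynomial.C_add, map_add, map_add, hp, hq]
        | monomial n c =>
          simp [ψ, e2, ← Polynomial.C_mul_X_pow_eq_monomial, MvPolynomial.algebraMap_eq,
            Polynomial.eval₂_pow]
      · simp [ψ, e2]
    exact congrArg (fun h => h S) this
  have hP' : φ P ≠ 0 := by
    intro h
    apply hP
    rw [← hψφ P, h, map_zero]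
  obtain ⟨S, hSP, hSQ, hS0⟩ := L_BiDeg_exists k F x y hx (φ P) (φ Q) hP'
    (by have := he2φ P; rw [eP] at this; exact this)
    (by have := he2φ Q; rw [eQ] at this; exact this)
  have h1 : ψ S ∣ P := by
    have := map_dvd ψ hSP; rwa [hψφ] at this
  have h2 : ψ S ∣ Q := by
    have := map_dvd ψ hSQ; rwa [hψφ] at this
  have hne : ψ S ≠ 0 := by
    intro h
    rw [h, zero_dvd_iff] at h1
    exact hP h1
  refine ⟨ψ S, hne, ?_, ?_⟩
  · obtain ⟨T, hT⟩ := h1
    obtain ⟨U, hU⟩ := h2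
    have hT0 : T ≠ 0 := by rintro rfl; exact hP (by rw [hT, mul_zero])
    have hU0 : U ≠ 0 := by rintro rfl; exact hQ (by rw [hU, mul_zero])
    intro j
    fin_cases j
    · rw [hU, MvPolynomial.degreeOf_mul_eq hne hU0] at hQd
      exact le_trans (Nat.le_add_right _ _) hQd
    · rw [hT, MvPolynomial.degreeOf_mul_eq hne hT0] at hPd
      exact le_trans (Nat.le_add_right _ _) hPd
  · rw [he2ψ]; exact hS0

end AJM

end

section

/-!
# MP_d3fa71_gt, project Mut, item `CaseSplit`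
-/

namespace AJM

theorem L_CaseSplit_diag {F : Type} [Field F] {u : Fˣ} (hu : (u : F) ^ 2 ≠ 1) {y : G F}
    (h : y * dg u = dg u * y) : ∃ γ : Fˣ, y = dg γ := by
  have h1 : mer u (1 : G F) = mer u y := by
    unfold mer
    rw [h]
    group
  obtain ⟨γ, hγ⟩ := (mer_eq_iff hu 1 y).1 h1
  exact ⟨γ, by rw [hγ, one_mul]⟩

theorem L_CaseSplit_dg_inj {F : Type} [Field F] {u v : Fˣ} (h : dg u = dg v) : u = v := by
  ext
  have := congrArg (fun z : G F => z.1 0 0) h
  simpa using this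

theorem L_CaseSplit_conj_pow {F : Type} [Field F] (ρ : G F) (u : Fˣ) (n : ℕ) :
    (ρ * dg u * ρ⁻¹) ^ n = ρ * dg (u ^ n) * ρ⁻¹ := by
  rw [conj_pow, dg_pow]

theorem prf_CaseSplit (hCoil : Coil) (hRingConj : RingConj) (hRingD : RingD) (hEigEx : EigEx)
    (hEigPow : EigPow) : CaseSplit := by
  intro F _ _ _ N k M τ hM hτ hP
  have hM2 : (M : F) ^ 2 ≠ 1 := by
    intro h
    apply hM
    refine ⟨Polynomial.X ^ 2 - 1, ?_, ?_⟩
    · intro h0
      have := congrArg (fun p : Polynomial ℂ => p.coeff 2) h0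
      simp [Polynomial.coeff_one] at this
    · simp [h]
  obtain ⟨ha, hb, ρ, z, hz, hR⟩ := hCoil F M k τ hP
  set g : G F := mer M ha * mer M hb with hg
  set c : G F := mer M ρ with hc
  set H : G F := c * g with hH
  have hcρ : c = ρ * dg M * ρ⁻¹ := rfl
  have hH2 : H ^ (2 * k) = ρ * dg z * ρ⁻¹ := by
    rw [← hz]; group
  by_cases hcg : c * g = g * c
  · -- case A
    left
    have h1 : (ρ⁻¹ * g * ρ) * dg M = dg M * (ρ⁻¹ * g * ρ) := by
      have : ρ⁻¹ * (g * c) * ρ = ρ⁻¹ * (c * g) * ρ := by rw [hcg]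
      calc (ρ⁻¹ * g * ρ) * dg M = ρ⁻¹ * (g * c) * ρ := by rw [hcρ]; group
        _ = ρ⁻¹ * (c * g) * ρ := this
        _ = dg M * (ρ⁻¹ * g * ρ) := by rw [hcρ]; group
    obtain ⟨γ, hγ⟩ := L_CaseSplit_diag hM2 h1
    have hgγ : g = ρ * dg γ * ρ⁻¹ := by rw [← hγ]; group
    have hHγ : H = ρ * dg (M * γ) * ρ⁻¹ := by
      rw [hH, hcρ, hgγ, dg_mul]; group
    have hz' : z = (M * γ) ^ (2 * k) := by
      have : ρ * dg z * ρ⁻¹ = ρ * dg ((M * γ) ^ (2 * k)) * ρ⁻¹ := by
        rw [← hH2, hHγ, L_CaseSplit_conj_pow]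
      have h3 : dg z = dg ((M * γ) ^ (2 * k)) := by
        have h4 := congrArg (fun y : G F => ρ⁻¹ * y * ρ) this
        simpa [mul_assoc] using h4
      exact L_CaseSplit_dg_inj h3
    set x : Fˣ := γ⁻¹ * (M ^ 2)⁻¹ with hx
    have hP1 : ∀ u : Fˣ, (ρ * J)⁻¹ * (ρ * dg u * ρ⁻¹) * (ρ * J) = dg u⁻¹ := by
      intro u
      have e : (ρ * J)⁻¹ * (ρ * dg u * ρ⁻¹) * (ρ * J) = J⁻¹ * (dg u * J) := by group
      have e2 : dg u * J = J * dg u⁻¹ := by rw [J_dg, inv_inv]
      rw [e, e2]; group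
    have hE : g ^ k * H ^ (2 * k) * (g ^ (2 * k))⁻¹ = ρ * dg (x ^ k)⁻¹ * ρ⁻¹ := by
      rw [hH2, hgγ, L_CaseSplit_conj_pow, L_CaseSplit_conj_pow]
      have e : ρ * dg (γ ^ k) * ρ⁻¹ * (ρ * dg z * ρ⁻¹) * (ρ * dg (γ ^ (2 * k)) * ρ⁻¹)⁻¹ =
          ρ * (dg (γ ^ k) * dg z * (dg (γ ^ (2 * k)))⁻¹) * ρ⁻¹ := by group
      rw [e, ← dg_inv, ← dg_mul, ← dg_mul]
      congr 3
      rw [hz', hx, mul_pow, mul_pow, inv_pow, inv_pow, ← pow_mul, mul_inv, inv_inv, inv_inv]
      apply Units.ext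
      push_cast
      have hγ0 : (γ : F) ≠ 0 := γ.ne_zero
      have hM0 : (M : F) ≠ 0 := M.ne_zero
      rw [two_mul, pow_add, pow_add]
      field_simp
    have hR' := hRingConj F M (ρ * J)⁻¹ ha hb _ _ hR
    rw [hE, inv_inv, hP1, inv_inv] at hR'
    refine ⟨x, τ * M ^ (4 * k) * z⁻¹, (ρ * J)⁻¹ * ha, (ρ * J)⁻¹ * hb, ?_, ?_, hR'⟩
    · have key : ∀ t : Fˣ, t = M ^ (N - 6 * (k : ℤ)) →
          t * M ^ (4 * k) * z⁻¹ = M ^ N * x ^ (2 * k) := by
        intro t ht
        rw [ht, hz', hx, mul_pow, mul_pow, inv_pow, inv_pow, ← pow_mul, mul_inv]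
        have e1 : M ^ (N - 6 * (k : ℤ)) = M ^ N * (M ^ (6 * k))⁻¹ := by
          rw [zpow_sub]
          rfl
        rw [e1]
        have e2 : M ^ (6 * k) = M ^ (4 * k) * M ^ (2 * k) := by rw [← pow_add]; congr 1; ring
        rw [e2]
        have e3 : M ^ (2 * (2 * k)) = M ^ (4 * k) := by congr 1; ring
        rw [e3]
        have e4 : M ^ (4 * k) = M ^ (2 * k) * M ^ (2 * k) := by rw [← pow_add]; congr 1; ring
        rw [e4]
        apply Units.ext
        push_cast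
        have hγ0 : (γ : F) ≠ 0 := γ.ne_zero
        have hM0 : (M : F) ≠ 0 := M.ne_zero
        field_simp
      rcases hτ with hτ | hτ
      · left; exact key τ hτ
      · right
        have := key (-τ) (by rw [hτ, neg_neg])
        rw [neg_mul, neg_mul] at this
        rw [← this, neg_neg]
    · rw [mer_mul, mer_mul]
      have e : (ρ * J)⁻¹ * mer M ha * ((ρ * J)⁻¹)⁻¹ * ((ρ * J)⁻¹ * mer M hb * ((ρ * J)⁻¹)⁻¹) =
          (ρ * J)⁻¹ * (mer M ha * mer M hb) * (ρ * J) := by group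
      rw [e, ← hg, hgγ, hP1, hx]
      congr 1
      rw [mul_comm γ⁻¹, mul_inv_cancel_left]
  · -- case B
    right
    have hHc : H ^ (2 * k) * c = c * H ^ (2 * k) := by
      rw [hH2, hcρ]
      have e : ρ * dg z * ρ⁻¹ * (ρ * dg M * ρ⁻¹) = ρ * (dg z * dg M) * ρ⁻¹ := by group
      rw [e, dg_comm]; group
    have hHg : H ^ (2 * k) * g = g * H ^ (2 * k) := by
      have e : g = c⁻¹ * H := by rw [hH]; group
      have h1 : Commute (H ^ (2 * k)) c := hHc
      have h2 : Commute (H ^ (2 * k)) H := (Commute.refl H).pow_left _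
      have h3 : Commute (H ^ (2 * k)) (c⁻¹ * H) := (h1.inv_right).mul_right h2
      rw [← e] at h3
      exact h3
    have hz2 : (z : F) ^ 2 = 1 := by
      by_contra hne
      apply hcg
      have h1 : (ρ⁻¹ * g * ρ) * dg z = dg z * (ρ⁻¹ * g * ρ) := by
        calc (ρ⁻¹ * g * ρ) * dg z = ρ⁻¹ * (g * H ^ (2 * k)) * ρ := by rw [hH2]; group
          _ = ρ⁻¹ * (H ^ (2 * k) * g) * ρ := by rw [hHg]
          _ = dg z * (ρ⁻¹ * g * ρ) := by rw [hH2]; group
      obtain ⟨γ, hγ⟩ := L_CaseSplit_diag hne h1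
      have hgγ : g = ρ * dg γ * ρ⁻¹ := by rw [← hγ]; group
      rw [hgγ, hcρ]
      have e : ρ * dg M * ρ⁻¹ * (ρ * dg γ * ρ⁻¹) = ρ * (dg M * dg γ) * ρ⁻¹ := by group
      rw [e, dg_comm]; group
    have hz1 : z = 1 ∨ z = -1 := by
      rcases sq_eq_one_iff.1 hz2 with h | h
      · left; exact Units.ext h
      · right; exact Units.ext (by simpa using h)
    have hzz : z⁻¹ = z := by rcases hz1 with h | h <;> simp [h]
    have hcen : ∀ y : G F, dg z * y = y * dg z := by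
      intro y
      rcases hz1 with h | h
      · rw [h, dg_one, one_mul, mul_one]
      · rw [h]; exact dg_neg_comm y
    have hH3 : H ^ (2 * k) = dg z := by rw [hH2, ← hcen]; group
    have hE : g ^ k * H ^ (2 * k) * (g ^ (2 * k))⁻¹ = dg z * g ^ (-(k : ℤ)) := by
      rw [hH3, ← hcen, mul_assoc]
      congr 1
      rw [zpow_neg, zpow_natCast, two_mul, pow_add]
      group
    rw [hE] at hR
    have hsgn : τ * M ^ (4 * k) * z⁻¹ = M ^ (N - 2 * (k : ℤ)) ∨
        τ * M ^ (4 * k) * z⁻¹ = -M ^ (N - 2 * (k : ℤ)) := by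
      have e1 : M ^ (N - 6 * (k : ℤ)) * M ^ (4 * k) = M ^ (N - 2 * (k : ℤ)) := by
        rw [← zpow_natCast M (4 * k), ← zpow_add]
        congr 1
        push_cast
        ring
      rw [hzz]
      rcases hτ with hτ | hτ <;> rcases hz1 with h | h <;> rw [hτ, h]
      · left; rw [e1, mul_one]
      · right; rw [e1, mul_neg, mul_one]
      · right; rw [neg_mul, e1, mul_one]
      · left; rw [neg_mul, e1, mul_neg, mul_one, neg_neg]
    obtain ⟨ω, v, u, hv, hu, ht⟩ := hEigEx F g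
    have hv0 : v ≠ 0 := by
      rintro rfl
      simp at hu
    by_cases hω : (ω : F) ^ 2 = 1
    · left
      refine ⟨τ * M ^ (4 * k) * z⁻¹, z * ω ^ (-(k : ℤ)), ω, ?_, ?_, ?_⟩
      · have e : N + -2 * (k : ℤ) = N - 2 * (k : ℤ) := by ring
        rw [e]
        exact hsgn
      · rcases sq_eq_one_iff.1 hω with h | h
        · left; exact Units.ext h
        · right; exact Units.ext (by simpa using h)
      · refine hRingD F M ha hb _ _ _ ω v hv0 ?_ hv hR
        have h1 := hEigPow F g ω v (-(k : ℤ)) hv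
        have h2 : ∀ w : Fin 2 → F, Matrix.mulVec (dg z).1 w = (z : F) • w := by
          intro w
          ext i
          fin_cases i
          · simp [dg, Matrix.mulVec, dotProduct, Fin.sum_univ_two]
          · have hzF : ((z⁻¹ : Fˣ) : F) = z := by rw [hzz]
            simp [dg, Matrix.mulVec, dotProduct, Fin.sum_univ_two]
            left
            rw [← Units.val_inv_eq_inv_val]
            exact hzF
        rw [G_mul, ← Matrix.mulVec_mulVec, h1, Matrix.mulVec_smul, h2, smul_smul]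
        push_cast
        rw [mul_comm]
    · right
      obtain ⟨P, hP⟩ := prf_FrameEx F ω g hω ht
      have hR' := hRingConj F M P⁻¹ ha hb _ _ hR
      have hgP : g = P * dg ω * P⁻¹ := hP.symm
      have e1 : P⁻¹ * (dg z * g ^ (-(k : ℤ))) * P⁻¹⁻¹ = dg (z * ω ^ (-(k : ℤ))) := by
        rw [← mul_assoc, ← hcen, dg_mul, dg_zpow, hgP, conj_zpow]
        group
      rw [e1] at hR'
      refine ⟨ω, z * ω ^ (-(k : ℤ)), τ * M ^ (4 * k) * z⁻¹, P⁻¹ * ha, P⁻¹ * hb, hω, ?_, ?_,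
        hsgn, hR'⟩
      · rw [mer_mul, mer_mul]
        have e : P⁻¹ * mer M ha * P⁻¹⁻¹ * (P⁻¹ * mer M hb * P⁻¹⁻¹) =
            P⁻¹ * (mer M ha * mer M hb) * P := by group
        rw [e, ← hg, hgP]
        group
      · rcases hz1 with h | h
        · left; rw [h, one_mul]
        · right; rw [h, neg_mul, one_mul]

end AJM

end

section

/-!
# MP_d3fa71_gt, project Mut: algebraic elements give relations
-/

namespace AJM

open scoped IntermediateField.algebraAdjoinAdjoin in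
theorem prf_DepOfAlg : DepOfAlg := by
  intro k L _ _ _ x y z h hind
  have h1 := hind.transcendental_adjoin (s := {0, 1}) (i := 2) (by decide)
  have h2 : (![x, y, z] : Fin 3 → L) '' {0, 1} = {x, y} := by
    rw [Set.image_pair]
    rfl
  rw [h2] at h1
  apply h1
  exact (IsFractionRing.isAlgebraic_iff (Algebra.adjoin k {x, y})
    (IntermediateField.adjoin k {x, y}) L).mpr h

end AJM

end

section

/-!
# MP_d3fa71_gt, project Mut: item DlogSq
-/

open Filter

namespace AJM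

theorem L_DlogSq_field {k L : Type} [Field k] [Field L] [Algebra k L] [CharZero L]
    (D : Derivation k L L) {a b : L} (ha : a ≠ 0) (hb : b ≠ 0) (h : a ^ 2 = b ^ 2) :
    D a / a = D b / b := by
  have h1 : D (a ^ 2) = D (b ^ 2) := by rw [h]
  rw [Derivation.leibniz_pow, Derivation.leibniz_pow] at h1
  simp only [Nat.add_one_sub_one, pow_one, smul_eq_mul, nsmul_eq_mul, Nat.cast_ofNat] at h1
  have h2 : a * D a = b * D b := by
    have : (2 : L) ≠ 0 := two_ne_zero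
    exact mul_left_cancel₀ this h1
  rw [div_eq_div_iff ha hb]
  have h3 : (a * b) * (D a * b) = (a * b) * (D b * a) := by
    linear_combination (b ^ 2) * h2 + (b * D b) * (-h)
  exact mul_left_cancel₀ (mul_ne_zero ha hb) h3

theorem prf_DlogSq : DlogSq := by
  intro F _ _ x y hxy D
  haveI : CharZero (Gm F) := LoopX.charZeroGm
  refine L_DlogSq_field D (Units.ne_zero _) (Units.ne_zero _) ?_
  rw [LoopX.gu_coe, LoopX.gu_coe, ← map_pow, ← map_pow]
  congr 1
  funext i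
  simp only [Pi.pow_apply]
  rcases hxy i with h | h
  · rw [h]
  · rw [h, Units.val_neg, neg_sq]

end AJM

end

section

/-!
# MP_d3fa71_gt, project Mut: item GermPoly
-/

open Filter

namespace AJM

theorem L_GermPoly_gm_eq_zero {F : Type} [Field F] (f : ℕ → F) :
    gm F f = 0 ↔ ∀ᶠ i in (hyperfilter ℕ : Filter ℕ), f i = 0 := by
  change (f : Gm F) = ((0 : ℕ → F) : Gm F) ↔ _
  rw [Germ.coe_eq]
  rfl

/-- the constant germ. -/
noncomputable def L_GermPoly_c (F : Type) [Field F] [Algebra ℂ F] (c : ℕ → ℂ) : kst F :=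
  ⟨gm F (fun i => algebraMap ℂ F (c i)), ⟨c, rfl⟩⟩

theorem L_GermPoly_c_ne (F : Type) [Field F] [Algebra ℂ F] (c : ℕ → ℂ)
    (h : ∀ᶠ i in (hyperfilter ℕ : Filter ℕ), c i ≠ 0) : L_GermPoly_c F c ≠ 0 := by
  intro h0
  have h1 : gm F (fun i => algebraMap ℂ F (c i)) = 0 := congrArg Subtype.val h0
  rw [L_GermPoly_gm_eq_zero] at h1
  obtain ⟨i, hi1, hi2⟩ := (h.and h1).exists
  exact hi1 ((map_eq_zero (algebraMap ℂ F)).1 hi2)

/-- the finite set of exponents. -/
noncomputable def L_GermPoly_S (n C : ℕ) : Finset (Fin n →₀ ℕ) :=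
  Finset.Icc 0 (Finsupp.equivFunOnFinite.symm fun _ => C)

theorem L_GermPoly_mem {n C : ℕ} (m : Fin n →₀ ℕ) (h : ∀ j, m j ≤ C) : m ∈ L_GermPoly_S n C := by
  unfold L_GermPoly_S
  rw [Finset.mem_Icc]
  refine ⟨zero_le, ?_⟩
  intro j
  exact h j

theorem L_GermPoly_supp {n C : ℕ} (Q : MvPolynomial (Fin n) ℂ) (h : ∀ j, Q.degreeOf j ≤ C) :
    Q.support ⊆ L_GermPoly_S n C := fun m hm =>
  L_GermPoly_mem m fun j => (MvPolynomial.monomial_le_degreeOf j hm).trans (h j)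

theorem prf_GermPoly : GermPoly := by
  intro F _ _ n C x hQ hind
  classical
  -- the polynomials
  obtain ⟨Q, hQd, hQ0, hQa⟩ : ∃ Q : ℕ → MvPolynomial (Fin n) ℂ,
      (∀ i j, (Q i).degreeOf j ≤ C) ∧
      (∀ᶠ i in (hyperfilter ℕ : Filter ℕ), Q i ≠ 0) ∧
      ∀ i, MvPolynomial.aeval (fun j => x j i) (Q i) = 0 := by
    refine ⟨fun i => if h : ∃ Q : MvPolynomial (Fin n) ℂ, Q ≠ 0 ∧
      (∀ j, Q.degreeOf j ≤ C) ∧ MvPolynomial.aeval (fun j => x j i) Q = 0 then h.choose else 0,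
      ?_, ?_, ?_⟩
    · intro i j
      by_cases h : ∃ Q : MvPolynomial (Fin n) ℂ, Q ≠ 0 ∧
        (∀ j, Q.degreeOf j ≤ C) ∧ MvPolynomial.aeval (fun j => x j i) Q = 0
      · simp only [dif_pos h]
        exact h.choose_spec.2.1 j
      · simp only [dif_neg h]
        simp
    · filter_upwards [hQ] with i h
      simp only [dif_pos h]
      exact h.choose_spec.1
    · intro i
      by_cases h : ∃ Q : MvPolynomial (Fin n) ℂ, Q ≠ 0 ∧
        (∀ j, Q.degreeOf j ≤ C) ∧ MvPolynomial.aeval (fun j => x j i) Q = 0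
      · simp only [dif_pos h]
        exact h.choose_spec.2.2
      · simp only [dif_neg h]
        simp
  -- one exponent
  obtain ⟨m₀, hm₀, hc⟩ : ∃ m ∈ (L_GermPoly_S n C : Set (Fin n →₀ ℕ)),
      ∀ᶠ i in (hyperfilter ℕ : Filter ℕ), (Q i).coeff m ≠ 0 := by
    rw [← Ultrafilter.eventually_exists_mem_iff (L_GermPoly_S n C).finite_toSet]
    filter_upwards [hQ0] with i hi
    obtain ⟨m, hm⟩ := MvPolynomial.ne_zero_iff.1 hi
    exact ⟨m, L_GermPoly_supp (Q i) (hQd i) (MvPolynomial.mem_support_iff.2 hm), hm⟩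
  -- the polynomial over the constants
  set P : MvPolynomial (Fin n) (kst F) := ∑ m ∈ L_GermPoly_S n C,
    MvPolynomial.monomial m (L_GermPoly_c F fun i => (Q i).coeff m) with hP
  have hPc : P.coeff m₀ = L_GermPoly_c F fun i => (Q i).coeff m₀ := by
    rw [hP, MvPolynomial.coeff_sum]
    simp only [MvPolynomial.coeff_monomial]
    rw [Finset.sum_ite_eq' (L_GermPoly_S n C) m₀, if_pos (Finset.mem_coe.1 hm₀)]
  have hP0 : P ≠ 0 := by
    intro h0
    apply L_GermPoly_c_ne F (fun i => (Q i).coeff m₀) hc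
    rw [← hPc, h0, MvPolynomial.coeff_zero]
  have hPa : MvPolynomial.aeval (fun j => gm F (x j)) P = 0 := by
    have h1 : MvPolynomial.aeval (fun j => gm F (x j)) P =
        gm F (fun i => MvPolynomial.aeval (fun j => x j i) (Q i)) := by
      have h2 : (fun i => MvPolynomial.aeval (fun j => x j i) (Q i)) =
          ∑ m ∈ L_GermPoly_S n C, (fun i => algebraMap ℂ F ((Q i).coeff m)) *
            ∏ j, (x j) ^ (m j) := by
        funext i
        rw [MvPolynomial.aeval_def, MvPolynomial.eval₂_eq', Finset.sum_apply]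
        refine Finset.sum_subset (L_GermPoly_supp (Q i) (hQd i)) ?_ |>.trans ?_
        · intro m _ hm
          rw [MvPolynomial.notMem_support_iff.1 hm, map_zero, zero_mul]
        · refine Finset.sum_congr rfl fun m _ => ?_
          simp
      rw [h2, hP, map_sum, map_sum]
      refine Finset.sum_congr rfl fun m _ => ?_
      rw [MvPolynomial.aeval_monomial, map_mul, map_prod, Finsupp.prod_fintype _ _ (by simp)]
      simp only [map_pow]
      rfl
    rw [h1, L_GermPoly_gm_eq_zero]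
    exact Eventually.of_forall fun i => hQa i
  have hinj : Function.Injective (MvPolynomial.aeval (R := kst F) (fun j => gm F (x j))) := hind
  exact hP0 (hinj (by rw [hPa, map_zero]))

end AJM

end

section

/-!
# MP_d3fa71_gt, project Mut, block L: from the link to the knot
-/

namespace AJM

/-- The gadget function with the first `l` slots filled. -/
def L_KNeg_v (j' j n : Fin 7 → ℕ) (l : ℕ) : Fin 7 → List Mv :=
  fun i => if i.val < l then Vg (j' i) (j i) (n i) else []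

/-- The exponent. -/
def L_KNeg_e (j' j n : Fin 7 → ℕ) (l : ℕ) : ℤ :=
  ∑ i : Fin 7, if i.val < l then (2 * (j' i : ℤ) + 2 * j i + 2 * n i + 2) else 0

theorem L_KNeg_v_update (j' j n : Fin 7 → ℕ) (l : ℕ) (hl : l < 7) (a b c : ℕ) :
    L_KNeg_v (Function.update j' ⟨l, hl⟩ a) (Function.update j ⟨l, hl⟩ b)
      (Function.update n ⟨l, hl⟩ c) (l + 1) =
      Function.update (L_KNeg_v j' j n l) ⟨l, hl⟩ (Vg a b c) := by
  funext i
  by_cases hi : i = ⟨l, hl⟩
  · subst hi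
    simp [L_KNeg_v]
  · have h1 : i.val ≠ l := fun h => hi (Fin.ext h)
    have h2 : (i.val < l + 1) ↔ (i.val < l) := by omega
    rw [Function.update_of_ne hi]
    unfold L_KNeg_v
    rw [Function.update_of_ne hi, Function.update_of_ne hi, Function.update_of_ne hi]
    simp only [h2]

theorem L_KNeg_e_update (j' j n : Fin 7 → ℕ) (l : ℕ) (hl : l < 7) (a b c : ℕ) :
    L_KNeg_e (Function.update j' ⟨l, hl⟩ a) (Function.update j ⟨l, hl⟩ b)
      (Function.update n ⟨l, hl⟩ c) (l + 1) =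
      L_KNeg_e j' j n l + (2 * (a : ℤ) + 2 * b + 2 * c + 2) := by
  unfold L_KNeg_e
  have h : ∀ i : Fin 7, (if i.val < l + 1 then
      (2 * ((Function.update j' ⟨l, hl⟩ a i : ℕ) : ℤ) +
        2 * ((Function.update j ⟨l, hl⟩ b i : ℕ) : ℤ) +
        2 * ((Function.update n ⟨l, hl⟩ c i : ℕ) : ℤ) + 2) else 0) =
      (if i.val < l then (2 * (j' i : ℤ) + 2 * j i + 2 * n i + 2) else 0) +
        (if i = ⟨l, hl⟩ then (2 * (a : ℤ) + 2 * b + 2 * c + 2) else 0) := by
    intro i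
    by_cases hi : i = ⟨l, hl⟩
    · subst hi
      simp
    · have h1 : i.val ≠ l := fun h => hi (Fin.ext h)
      have h2 : (i.val < l + 1) ↔ (i.val < l) := by omega
      rw [Function.update_of_ne hi, Function.update_of_ne hi, Function.update_of_ne hi, if_neg hi,
        add_zero]
      simp only [h2]
  rw [Finset.sum_congr rfl (fun i _ => h i), Finset.sum_add_distrib, Finset.sum_ite_eq']
  simp

theorem prf_KNeg (hVneg : Vneg) (hLinkNeg : LinkNeg) (hSlotSplit : SlotSplit) : KNeg := by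
  intro F _ _ _
  obtain ⟨k₀, hk₀⟩ := hLinkNeg F (-12)
  set k := max k₀ 1 with hk
  have key : ∀ l : ℕ, l ≤ 7 → ∃ j' j n : Fin 7 → ℕ, (∀ i, 1 ≤ j' i) ∧ (∀ i, j' i < j i) ∧
      ¬ SS F (Kw' k (L_KNeg_v j' j n l)) (-12 - 6 * k + L_KNeg_e j' j n l) := by
    intro l
    induction l with
    | zero =>
      intro _
      refine ⟨fun _ => 1, fun _ => 2, fun _ => 0, fun _ => le_rfl, fun _ => by norm_num, ?_⟩
      have h1 : L_KNeg_v (fun _ => 1) (fun _ => 2) (fun _ => 0) 0 = fun _ => [] := by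
        funext i
        simp [L_KNeg_v]
      have h2 : L_KNeg_e (fun _ => 1) (fun _ => 2) (fun _ => 0) 0 = 0 := by
        simp [L_KNeg_e]
      rw [h1, h2, add_zero]
      exact hk₀ k (le_max_left _ _)
    | succ l ih =>
      intro hl
      have hl7 : l < 7 := hl
      obtain ⟨j', j, n, h1, h2, h3⟩ := ih hl7.le
      obtain ⟨w₁, w₂, i, hx⟩ := hSlotSplit k (L_KNeg_v j' j n l) ⟨l, hl7⟩
      have h4 : Kw' k (L_KNeg_v j' j n l) = w₁ ++ w₂ := by
        have h5 : Function.update (L_KNeg_v j' j n l) ⟨l, hl7⟩ [] = L_KNeg_v j' j n l := by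
          have h6 : L_KNeg_v j' j n l ⟨l, hl7⟩ = [] := by simp [L_KNeg_v]
          have h7 := Function.update_eq_self (⟨l, hl7⟩ : Fin 7) (L_KNeg_v j' j n l)
          rwa [h6] at h7
        have h8 := hx []
        rw [h5] at h8
        rw [h8]
        simp [sh]
      rw [h4] at h3
      obtain ⟨b₁, hb₁⟩ := hVneg F w₁ w₂ i _ h3
      obtain ⟨b₂, hb₂⟩ := hb₁ (max b₁ 1) (le_max_left _ _)
      obtain ⟨b₃, hb₃⟩ := hb₂ (max b₂ (max b₁ 1 + 1)) (le_max_left _ _)
      have h9 := hb₃ b₃ le_rfl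
      refine ⟨Function.update j' ⟨l, hl7⟩ (max b₁ 1),
        Function.update j ⟨l, hl7⟩ (max b₂ (max b₁ 1 + 1)), Function.update n ⟨l, hl7⟩ b₃,
        ?_, ?_, ?_⟩
      · intro i'
        by_cases hi : i' = ⟨l, hl7⟩
        · subst hi
          rw [Function.update_self]
          exact le_max_right _ _
        · rw [Function.update_of_ne hi]
          exact h1 i'
      · intro i'
        by_cases hi : i' = ⟨l, hl7⟩
        · subst hi
          rw [Function.update_self, Function.update_self]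
          exact lt_of_lt_of_le (Nat.lt_succ_self _) (le_max_right _ _)
        · rw [Function.update_of_ne hi, Function.update_of_ne hi]
          exact h2 i'
      · rw [L_KNeg_v_update, L_KNeg_e_update, hx]
        have h10 : (-12 - 6 * (k : ℤ) + (L_KNeg_e j' j n l + (2 * ((max b₁ 1 : ℕ) : ℤ) +
            2 * ((max b₂ (max b₁ 1 + 1) : ℕ) : ℤ) + 2 * (b₃ : ℤ) + 2))) =
            -12 - 6 * (k : ℤ) + L_KNeg_e j' j n l + 2 * ((max b₁ 1 : ℕ) : ℤ) +
            2 * ((max b₂ (max b₁ 1 + 1) : ℕ) : ℤ) + 2 * (b₃ : ℤ) + 2 := by ring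
        rw [h10]
        exact h9
  obtain ⟨j', j, n, h1, h2, h3⟩ := key 7 le_rfl
  refine ⟨k, j', j, n, h1, h2, le_max_right _ _, ?_⟩
  have h4 : L_KNeg_v j' j n 7 = fun i => Vg (j' i) (j i) (n i) := by
    funext i
    unfold L_KNeg_v
    rw [if_pos i.isLt]
  have h5 : L_KNeg_e j' j n 7 = ∑ i, (2 * (j' i : ℤ) + 2 * j i + 2 * n i + 2) := by
    unfold L_KNeg_e
    exact Finset.sum_congr rfl (fun i _ => if_pos i.isLt)
  rw [h4, h5] at h3
  exact h3

end AJM

end
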