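import Mathlib
import Pool.Agent.Work.MP_d3fa71_gt.Mut.Bd.B16
import Pool.Agent.Work.MP_d3fa71_gt.Mut.Bd.B20
import Pool.Agent.Work.MP_d3fa71_gt.Mut.Bd.B05
import Pool.Agent.Work.MP_d3fa71_gt.Mut.Bd.B07
import Pool.Agent.Work.MP_d3fa71_gt.Mut.Bd.B19
import Pool.Agent.Work.MP_d3fa71_gt.Mut.Bd.B17
import Pool.Agent.Work.MP_d3fa71_gt.Mut.Bd.B15
import Pool.Agent.Work.MP_d3fa71_gt.Mut.Bd.B01

/-! Bundle of small proof modules (one section per former module). -/

section

/-!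
# MP_d3fa71_gt, project Mut, item `HomExt1` (Atiyah-Macdonald 5.23, one generator)
-/

open Polynomial

namespace AJM

theorem L_HomExt1_trans {A B K : Type} [CommRing A] [IsDomain A] [CommRing B] [IsDomain B]
    [Algebra A B] [Field K] [IsAlgClosed K] {x : B} (hx : Transcendental A x)
    (hadj : Algebra.adjoin A {x} = ⊤) {b : B} (hb : b ≠ 0) :
    ∃ a : A, a ≠ 0 ∧ ∀ φ : A →+* K, φ a ≠ 0 →
      ∃ ψ : B →+* K, ψ.comp (algebraMap A B) = φ ∧ ψ b ≠ 0 := by
  have hinj : Function.Injective (aeval x : A[X] →ₐ[A] B) :=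
    transcendental_iff_injective.1 hx
  have hsurj : Function.Surjective (aeval x : A[X] →ₐ[A] B) := by
    intro y
    have : y ∈ Algebra.adjoin A {x} := by rw [hadj]; trivial
    rw [Algebra.adjoin_singleton_eq_range_aeval] at this
    exact this
  let e : A[X] ≃ₐ[A] B := AlgEquiv.ofBijective (aeval x) ⟨hinj, hsurj⟩
  have hf : e.symm b ≠ 0 := by simpa using hb
  refine ⟨(e.symm b).leadingCoeff, leadingCoeff_ne_zero.2 hf, ?_⟩
  intro φ hφ
  have hf' : (e.symm b).map φ ≠ 0 := by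
    intro h0
    apply hφ
    have := congrArg (fun p : K[X] => p.coeff (e.symm b).natDegree) h0
    simpa using this
  obtain ⟨ξ, hξ⟩ : ∃ ξ : K, eval ξ ((e.symm b).map φ) ≠ 0 := by
    by_contra hne
    push Not at hne
    exact hf' (Polynomial.funext (by simpa using hne))
  refine ⟨(eval₂RingHom φ ξ).comp e.symm.toRingEquiv.toRingHom, ?_, ?_⟩
  · ext r
    have : e.symm (algebraMap A B r) = C r := by
      rw [e.symm.commutes]; rfl
    change eval₂ φ ξ (e.symm (algebraMap A B r)) = φ r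
    rw [this, eval₂_C]
  · change eval₂ φ ξ (e.symm b) ≠ 0
    rwa [← eval_map]

theorem L_HomExt1_alg (hIntExt : IntExt) {A B K : Type} [CommRing A] [IsDomain A] [CommRing B]
    [IsDomain B] [Algebra A B] [Field K] [IsAlgClosed K]
    (hAB : Function.Injective (algebraMap A B)) {x : B} (hx : IsAlgebraic A x)
    (hadj : Algebra.adjoin A {x} = ⊤) {b : B} (hb : b ≠ 0) :
    ∃ a : A, a ≠ 0 ∧ ∀ φ : A →+* K, φ a ≠ 0 →
      ∃ ψ : B →+* K, ψ.comp (algebraMap A B) = φ ∧ ψ b ≠ 0 := by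
  obtain ⟨p, hp0, hp⟩ := id hx
  -- `b` divides a nonzero element of `A`
  have hbalg : IsAlgebraic A b := by
    have h1 : Algebra.adjoin A {x} ≤ Subalgebra.algebraicClosure A B := by
      rw [Algebra.adjoin_le_iff]
      rintro y hy
      rw [Set.mem_singleton_iff] at hy
      rw [hy]
      exact hx
    have h2 : b ∈ Algebra.adjoin A {x} := by rw [hadj]; trivial
    exact h1 h2
  have h3 := Ideal.comap_ne_bot_of_algebraic_mem (R := A) hb
    (Ideal.mem_span_singleton_self b) hbalg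
  obtain ⟨a₁, ha₁, ha₁0⟩ := (Submodule.ne_bot_iff _).1 h3
  obtain ⟨s, hs⟩ := Ideal.mem_span_singleton.1 ha₁
  refine ⟨p.leadingCoeff * a₁, mul_ne_zero (leadingCoeff_ne_zero.2 hp0) ha₁0, ?_⟩
  intro φ hφ
  rw [map_mul] at hφ
  have hφa : φ p.leadingCoeff ≠ 0 := left_ne_zero_of_mul hφ
  have hφ1 : φ a₁ ≠ 0 := right_ne_zero_of_mul hφ
  set a : A := p.leadingCoeff with ha
  have ha0 : a ≠ 0 := leadingCoeff_ne_zero.2 hp0
  let L : Type := FractionRing B
  have hAL : Function.Injective (algebraMap A L) := by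
    rw [IsScalarTower.algebraMap_eq A B L]
    exact (IsFractionRing.injective B L).comp hAB
  have hu : IsUnit (algebraMap A L a) := by
    rw [isUnit_iff_ne_zero]
    intro h0
    exact ha0 (hAL (by rw [h0, map_zero]))
  let A' : Type := Localization.Away a
  let ι : A' →+* L := IsLocalization.Away.lift a hu
  letI : Algebra A' L := ι.toAlgebra
  have htow : ∀ r : A, algebraMap A' L (algebraMap A A' r) = algebraMap A L r := fun r =>
    IsLocalization.Away.lift_eq a hu r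
  haveI : IsScalarTower A A' L := IsScalarTower.of_algebraMap_eq fun r => (htow r).symm
  have hinj' : Function.Injective (algebraMap A' L) := by
    rw [injective_iff_map_eq_zero]
    intro z hz
    obtain ⟨⟨r, t⟩, hrt⟩ := IsLocalization.surj (Submonoid.powers a) z
    simp only at hrt
    have h4 : algebraMap A L r = 0 := by
      rw [← htow, ← hrt, map_mul, hz, zero_mul]
    have h5 : r = 0 := hAL (by rw [h4, map_zero])
    rw [h5, map_zero] at hrt
    have h6 : IsUnit (algebraMap A A' t) := IsLocalization.map_units A' t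
    exact (h6.mul_left_eq_zero).1 hrt
  -- `x` is integral over `A'`
  have hxint : IsIntegral A' (algebraMap B L x) := by
    have h7 : IsUnit (algebraMap A A' a) :=
      IsLocalization.Away.algebraMap_isUnit a
    obtain ⟨u, hu'⟩ := h7
    have hA' : Function.Injective (algebraMap A A') := by
      intro r r' hr
      apply hAL
      rw [← htow, ← htow, hr]
    have hlc : (p.map (algebraMap A A')).leadingCoeff = algebraMap A A' a :=
      leadingCoeff_map_of_injective hA' p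
    refine ⟨C ((u⁻¹ : A'ˣ) : A') * p.map (algebraMap A A'), ?_, ?_⟩
    · apply monic_C_mul_of_mul_leadingCoeff_eq_one
      rw [hlc, ← hu']
      exact u.inv_mul
    · have h8 : aeval (algebraMap B L x) (p.map (algebraMap A A')) = 0 := by
        rw [aeval_map_algebraMap, aeval_algebraMap_apply, hp, map_zero]
      rw [aeval_def] at h8
      rw [eval₂_mul, h8, mul_zero]
  have hint : ∀ y : B, algebraMap B L y ∈ integralClosure A' L := by
    intro y
    have h9 : Algebra.adjoin A {x} ≤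
        ((integralClosure A' L).restrictScalars A).comap (IsScalarTower.toAlgHom A B L) := by
      rw [Algebra.adjoin_le_iff]
      rintro z hz
      rw [Set.mem_singleton_iff] at hz
      rw [hz]
      exact hxint
    have h10 : y ∈ Algebra.adjoin A {x} := by rw [hadj]; trivial
    exact h9 h10
  let φ' : A' →+* K := IsLocalization.Away.lift a (isUnit_iff_ne_zero.2 hφa)
  have hφ' : ∀ r : A, φ' (algebraMap A A' r) = φ r := fun r =>
    IsLocalization.Away.lift_eq a _ r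
  have hinj2 : Function.Injective (algebraMap A' (integralClosure A' L)) := by
    intro z z' hz
    apply hinj'
    exact congrArg Subtype.val hz
  obtain ⟨ψ', hψ'⟩ := hIntExt A' (integralClosure A' L) K hinj2 inferInstance φ'
  let j : B →+* integralClosure A' L := (algebraMap B L).codRestrict (integralClosure A' L) hint
  have hj : ∀ r : A, j (algebraMap A B r) = algebraMap A' (integralClosure A' L)
      (algebraMap A A' r) := by
    intro r
    apply Subtype.ext
    change algebraMap B L (algebraMap A B r) = algebraMap A' L (algebraMap A A' r)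
    rw [htow, ← IsScalarTower.algebraMap_apply]
  have hcomp : ∀ r : A, (ψ'.comp j) (algebraMap A B r) = φ r := by
    intro r
    rw [RingHom.comp_apply, hj, ← hφ', ← hψ', RingHom.comp_apply]
  refine ⟨ψ'.comp j, RingHom.ext hcomp, ?_⟩
  intro h0
  apply hφ1
  rw [← hcomp, hs, map_mul, h0, zero_mul]

theorem prf_HomExt1 (hIntExt : IntExt) : HomExt1 := by
  intro A B K _ _ _ _ _ _ _ hAB x hadj b hb
  by_cases hx : IsAlgebraic A x
  · exact L_HomExt1_alg hIntExt hAB hx hadj hb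
  · exact L_HomExt1_trans hx hadj hb

end AJM

end

section

set_option autoImplicit false

namespace AJM

theorem prf_IntExt : IntExt := by
  intro A B K _ _ _ _ _ hinj hint φ
  set p : Ideal A := RingHom.ker φ with hp
  have hpp : p.IsPrime := RingHom.ker_isPrime φ
  obtain ⟨q, _, hq, hqp⟩ := Ideal.exists_ideal_over_prime_of_isIntegral p (⊥ : Ideal B) (by
    intro a ha
    have h1 : algebraMap A B a = 0 := by simpa using ha
    have h2 : a = 0 := hinj (by rw [h1, map_zero])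
    rw [h2]
    exact p.zero_mem)
  have hlo : q.LiesOver p := ⟨hqp.symm⟩
  have hD : IsDomain (A ⧸ p) := Ideal.Quotient.isDomain p
  have hD' : IsDomain (B ⧸ q) := Ideal.Quotient.isDomain q
  let _ : Algebra (A ⧸ p) K := (RingHom.kerLift φ).toAlgebra
  have hK : Function.Injective (algebraMap (A ⧸ p) K) := RingHom.kerLift_injective φ
  have f1 : FaithfulSMul (A ⧸ p) K := (faithfulSMul_iff_algebraMap_injective _ _).mpr hK
  have i1 : Algebra.IsIntegral (A ⧸ p) (B ⧸ q) := by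
    constructor
    intro x
    obtain ⟨b, rfl⟩ := Ideal.Quotient.mk_surjective x
    have hb : IsIntegral A (Ideal.Quotient.mk q b) :=
      (Algebra.IsIntegral.isIntegral (R := A) b).map (Ideal.Quotient.mkₐ A q)
    exact hb.tower_top
  have t1 : Module.IsTorsionFree (A ⧸ p) (B ⧸ q) := inferInstance
  have t2 : Module.IsTorsionFree (A ⧸ p) K := inferInstance
  have a1 : Algebra.IsAlgebraic (A ⧸ p) (B ⧸ q) := inferInstance
  let ψ : (B ⧸ q) →ₐ[A ⧸ p] K := IsAlgClosed.lift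
  refine ⟨ψ.toRingHom.comp (Ideal.Quotient.mk q), ?_⟩
  ext a
  have h1 : ψ (algebraMap (A ⧸ p) (B ⧸ q) (Ideal.Quotient.mk p a)) =
      algebraMap (A ⧸ p) K (Ideal.Quotient.mk p a) := ψ.commutes _
  exact h1

end AJM

end

section

/-!
# MP_d3fa71_gt, project Mut, block X, item NoIso
-/

set_option autoImplicit false

open Polynomial

namespace AJM

theorem L_NoIso_factor (g : ℂ[X][X]) (hg : g ≠ 0) (p : ℂ × ℂ) (h : g.evalEval p.1 p.2 = 0) :
    ∃ f : ℂ[X][X], Irreducible f ∧ f ∣ g ∧ f.evalEval p.1 p.2 = 0 := by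
  classical
  have h1 := UniqueFactorizationMonoid.factors_prod hg
  have h2 : evalEvalRingHom p.1 p.2 ((UniqueFactorizationMonoid.factors g).prod) = 0 := by
    obtain ⟨u, hu⟩ := h1.symm
    rw [← hu, map_mul, show evalEvalRingHom p.1 p.2 g = 0 from h, zero_mul]
  rw [map_multiset_prod, Multiset.prod_eq_zero_iff, Multiset.mem_map] at h2
  obtain ⟨f, hf, hf0⟩ := h2
  exact ⟨f, UniqueFactorizationMonoid.irreducible_of_factor f hf,
    UniqueFactorizationMonoid.dvd_of_mem_factors hf, hf0⟩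

theorem L_NoIso_inf (f : ℂ[X][X]) (hf : f ≠ 0) (p : ℂ × ℂ) (h : f.evalEval p.1 p.2 = 0) :
    Set.Infinite {p : ℂ × ℂ | f.evalEval p.1 p.2 = 0} := by
  by_cases hdeg : f.natDegree = 0
  · obtain ⟨c, hc⟩ : ∃ c : ℂ[X], f = C c := ⟨f.coeff 0, eq_C_of_natDegree_eq_zero hdeg⟩
    have h1 : ∀ x y : ℂ, f.evalEval x y = c.eval x := by
      intro x y
      rw [hc, evalEval, eval_C]
    have h2 : Set.range (fun y : ℂ => (p.1, y)) ⊆ {p : ℂ × ℂ | f.evalEval p.1 p.2 = 0} := by
      rintro _ ⟨y, rfl⟩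
      show f.evalEval p.1 y = 0
      rw [h1, ← h1 p.1 p.2]
      exact h
    refine Set.Infinite.mono h2 (Set.infinite_range_of_injective fun a b hab => ?_)
    exact congrArg Prod.snd hab
  · have hc0 : f.leadingCoeff ≠ 0 := leadingCoeff_ne_zero.2 hf
    have hfin : Set.Finite {x : ℂ | f.leadingCoeff.eval x = 0} := by
      refine (f.leadingCoeff.roots.toFinset.finite_toSet).subset fun x hx => ?_
      simp only [Finset.mem_coe, Multiset.mem_toFinset]
      exact (mem_roots hc0).2 hx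
    have hinf : Set.Infinite {x : ℂ | f.leadingCoeff.eval x ≠ 0} := by
      have := hfin.infinite_compl
      exact this
    have hroot : ∀ x : ℂ, f.leadingCoeff.eval x ≠ 0 → ∃ y : ℂ, f.evalEval x y = 0 := by
      intro x hx
      have hd : (f.map (evalRingHom x)).natDegree = f.natDegree :=
        natDegree_map_of_leadingCoeff_ne_zero _ hx
      have hd2 : (f.map (evalRingHom x)).degree ≠ 0 := by
        intro h0
        apply hdeg
        rw [← hd]
        exact natDegree_eq_zero_iff_degree_le_zero.2 h0.le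
      obtain ⟨y, hy⟩ := IsAlgClosed.exists_root _ hd2
      refine ⟨y, ?_⟩
      rw [← map_evalRingHom_eval]
      exact hy
    choose! Y hY using hroot
    have hsub : (fun x : ℂ => (x, Y x)) '' {x : ℂ | f.leadingCoeff.eval x ≠ 0} ⊆
        {p : ℂ × ℂ | f.evalEval p.1 p.2 = 0} := by
      rintro _ ⟨x, hx, rfl⟩
      exact hY x hx
    refine Set.Infinite.mono hsub (hinf.image fun a _ b _ hab => ?_)
    exact congrArg Prod.fst hab

theorem prf_NoIso (hFinInter : FinInter) : NoIso := by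
  intro g G T hT hg hgG p hp
  obtain ⟨f, hirr, hdvd, hfp⟩ := L_NoIso_factor g hg p hp
  by_cases hfG : f ∣ G
  · obtain ⟨k, hk⟩ := hfG
    rw [hk]
    show evalEvalRingHom p.1 p.2 (f * k) = 0
    rw [map_mul, show evalEvalRingHom p.1 p.2 f = 0 from hfp, zero_mul]
  · exfalso
    have h1 := hFinInter ℂ (RingHom.id ℂ) Function.injective_id f G hirr hfG
    have h2 : ∀ F : ℂ[X][X], F.map (mapRingHom (RingHom.id ℂ)) = F := by
      intro F
      rw [mapRingHom_id, Polynomial.map_id]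
    rw [h2, h2] at h1
    refine L_NoIso_inf f hirr.ne_zero p hfp ((h1.union hT).subset fun q hq => ?_)
    by_cases hqT : q ∈ T
    · exact Or.inr hqT
    · refine Or.inl ⟨hq, hgG q ?_ hqT⟩
      obtain ⟨k, hk⟩ := hdvd
      rw [hk]
      show evalEvalRingHom q.1 q.2 (f * k) = 0
      rw [map_mul, show evalEvalRingHom q.1 q.2 f = 0 from hq, zero_mul]

end AJM

end

section

/-!
# MP_d3fa71_gt, project Mut: item PfRel
-/

open Filter Polynomial

namespace AJM

theorem L_PfRel_charZero : CharZero (Gm ℂ) :=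
  charZero_of_injective_ringHom (cst.injective)

theorem L_PfRel_mem (x : Gm ℂ) (hx : x ∈ pf) : ∃ q : ℚ, (q : Gm ℂ) = x := by
  have := L_PfRel_charZero
  have h : pf ≤ (Rat.castHom (Gm ℂ)).fieldRange := bot_le
  exact h hx

theorem L_PfRel_alg : Algebra.IsAlgebraic ℤ pf := by
  have := L_PfRel_charZero
  refine ⟨fun x => ?_⟩
  obtain ⟨q, hq⟩ := L_PfRel_mem x.1 x.2
  refine ⟨C (q.den : ℤ) * X - C q.num, ?_, ?_⟩
  · intro h0
    have h1 := congrArg (fun p => Polynomial.coeff p 1) h0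
    have h2 : (q.den : ℤ) ≠ 0 := by exact_mod_cast q.den_nz
    apply h2
    have h5 : (C (q.den : ℤ) * X - C q.num : ℤ[X]).coeff 1 = (q.den : ℤ) := by
      rw [coeff_sub, coeff_C_mul, coeff_X_one, coeff_C, if_neg one_ne_zero, mul_one, sub_zero]
    rw [← h5]
    exact h1
  · apply Subtype.ext
    have h3 : ((q.den : ℚ)) * q = q.num := by
      rw [mul_comm]
      exact Rat.mul_den_eq_num q
    have h4 : ((q.den : Gm ℂ)) * (x : Gm ℂ) - (q.num : Gm ℂ) = 0 := by
      rw [← hq, sub_eq_zero]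
      exact_mod_cast h3
    simpa using h4

/-- Two variables as iterated polynomials. -/
noncomputable def L_PfRel_Psi : MvPolynomial (Fin 2) ℤ →+* ℤ[X][X] :=
  MvPolynomial.eval₂Hom (Int.castRingHom _) ![C X, X]

theorem L_PfRel_inj : Function.Injective L_PfRel_Psi := by
  have h : (eval₂RingHom (eval₂RingHom (Int.castRingHom (MvPolynomial (Fin 2) ℤ))
      (MvPolynomial.X 0)) (MvPolynomial.X 1)).comp L_PfRel_Psi = RingHom.id _ := by
    apply MvPolynomial.ringHom_ext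
    · intro r
      simp [L_PfRel_Psi]
    · intro i
      fin_cases i <;> simp [L_PfRel_Psi]
  intro p p' hp
  have e1 := RingHom.congr_fun h p
  have e2 := RingHom.congr_fun h p'
  simp only [RingHom.comp_apply, RingHom.id_apply] at e1 e2
  rw [← e1, ← e2, hp]

theorem L_PfRel_eval (p : MvPolynomial (Fin 2) ℤ) (x y : ℂ) :
    (cx (L_PfRel_Psi p)).evalEval x y = MvPolynomial.aeval ![x, y] p := by
  have h : ((evalEvalRingHom x y).comp (mapRingHom (mapRingHom (Int.castRingHom ℂ)))).comp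
      L_PfRel_Psi = (MvPolynomial.aeval ![x, y] : MvPolynomial (Fin 2) ℤ →ₐ[ℤ] ℂ).toRingHom := by
    apply MvPolynomial.ringHom_ext
    · intro r
      simp [L_PfRel_Psi]
    · intro i
      fin_cases i <;> simp [L_PfRel_Psi]
  exact RingHom.congr_fun h p

theorem L_PfRel_gm (p : MvPolynomial (Fin 2) ℤ) (M L : ℕ → ℂ) :
    gm ℂ (fun i => MvPolynomial.aeval ![M i, L i] p) =
      MvPolynomial.aeval ![gm ℂ M, gm ℂ L] p := by
  have e1 : (fun i => MvPolynomial.aeval ![M i, L i] p) =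
      (MvPolynomial.aeval ![M, L] : MvPolynomial (Fin 2) ℤ →ₐ[ℤ] (ℕ → ℂ)) p := by
    funext i
    have h : (MvPolynomial.aeval ![M i, L i] : MvPolynomial (Fin 2) ℤ →ₐ[ℤ] ℂ).toRingHom =
        (Pi.evalRingHom (fun _ : ℕ => ℂ) i).comp
          (MvPolynomial.aeval ![M, L] : MvPolynomial (Fin 2) ℤ →ₐ[ℤ] (ℕ → ℂ)).toRingHom := by
      apply MvPolynomial.ringHom_ext
      · intro r
        simp
      · intro j
        fin_cases j <;> simp
    exact RingHom.congr_fun h p
  rw [e1]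
  have h : (gm ℂ).comp (MvPolynomial.aeval ![M, L] : MvPolynomial (Fin 2) ℤ →ₐ[ℤ] (ℕ → ℂ)).toRingHom
      = (MvPolynomial.aeval ![gm ℂ M, gm ℂ L] : MvPolynomial (Fin 2) ℤ →ₐ[ℤ] Gm ℂ).toRingHom := by
    apply MvPolynomial.ringHom_ext
    · intro r
      simp
    · intro j
      fin_cases j <;> simp
  exact RingHom.congr_fun h p

theorem prf_PfRel : PfRel := by
  intro M L hML
  have hZ : ¬ AlgebraicIndependent ℤ ![gm ℂ M, gm ℂ L] := by
    intro h
    apply hML
    have := L_PfRel_alg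
    exact AlgebraicIndependent.extendScalars pf h
  rw [algebraicIndependent_iff] at hZ
  push Not at hZ
  obtain ⟨p, hp, hp0⟩ := hZ
  refine ⟨L_PfRel_Psi p, ?_, ?_⟩
  · intro h0
    apply hp0
    apply L_PfRel_inj
    rw [h0, map_zero]
  · have h1 : gm ℂ (fun i => MvPolynomial.aeval ![M i, L i] p) = 0 := by
      rw [L_PfRel_gm, hp]
    have h2 : (fun i => MvPolynomial.aeval ![M i, L i] p) =ᶠ[(hyperfilter ℕ : Filter ℕ)]
        (fun _ => (0 : ℂ)) := Germ.coe_eq.1 h1
    filter_upwards [h2] with i hi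
    rw [L_PfRel_eval]
    exact hi

end AJM

end

section

/-!
# MP_d3fa71_gt, project Mut: the eigenvalue pairs lie on one curve with integer coefficients
-/

open Filter Polynomial

namespace AJM

open AJG (PGroup EigSet)

/-- Evaluation of an integer polynomial at a point. -/
noncomputable def L_RatCurve_ev (p : ℂ × ℂ) : ℤ[X][X] →+* ℂ :=
  (Polynomial.evalEvalRingHom p.1 p.2).comp
    (Polynomial.mapRingHom (Polynomial.mapRingHom (Int.castRingHom ℂ)))

theorem L_RatCurve_ev_eq (p : ℂ × ℂ) (f : ℤ[X][X]) :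
    L_RatCurve_ev p f = (cx f).evalEval p.1 p.2 := rfl

theorem L_RatCurve_charZero : CharZero pf := by
  have h1 : CharZero (Gm ℂ) := charZero_of_injective_ringHom (f := cst) cst.injective
  constructor
  intro a b hab
  have : ((a : pf) : Gm ℂ) = ((b : pf) : Gm ℂ) := by rw [hab]
  exact_mod_cast this

theorem L_RatCurve_countable (R : Type) [CommRing R] [Countable R] : Countable R[X] := by
  rw [← Cardinal.mk_le_aleph0_iff]
  refine Polynomial.cardinalMk_le_max.trans ?_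
  rw [max_le_iff]
  exact ⟨Cardinal.mk_le_aleph0_iff.2 inferInstance, le_rfl⟩

theorem prf_RatCurve (hEigNe : EigNe) (hDepJac : DepJac) (hPfRel : PfRel) : RatCurve := by
  intro P hP
  by_contra hcon
  have hc : ∀ f : ℤ[X][X], f ≠ 0 → ∃ p ∈ EigSet P, L_RatCurve_ev p f ≠ 0 := by
    intro f hf
    by_contra h
    apply hcon
    refine ⟨f, hf, fun p hp => ?_⟩
    by_contra h0
    exact h ⟨p, hp, h0⟩
  have hcount0 : Countable ℤ[X] := L_RatCurve_countable ℤ
  have hcount1 : Countable ℤ[X][X] := L_RatCurve_countable ℤ[X]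
  have hcount : Countable {f : ℤ[X][X] // f ≠ 0} := inferInstance
  have hne : Nonempty {f : ℤ[X][X] // f ≠ 0} := ⟨⟨1, one_ne_zero⟩⟩
  obtain ⟨g, hg⟩ := exists_surjective_nat {f : ℤ[X][X] // f ≠ 0}
  have hX : (C (X ^ 2 - 1) : ℤ[X][X]) ≠ 0 := by
    rw [Ne, C_eq_zero]
    exact X_pow_sub_C_ne_zero (n := 2) (by norm_num) (1 : ℤ)
  have hF : ∀ i : ℕ, C (X ^ 2 - 1) * ∏ j ∈ Finset.range (i + 1), (g j).1 ≠ 0 := fun i =>
    mul_ne_zero hX (Finset.prod_ne_zero_iff.2 fun j _ => (g j).2)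
  choose p hpE hp using fun i => hc _ (hF i)
  have hp1 : ∀ i, (p i).1 ^ 2 ≠ 1 := by
    intro i h
    apply hp i
    rw [map_mul]
    have : L_RatCurve_ev (p i) (C (X ^ 2 - 1)) = 0 := by
      simp [L_RatCurve_ev, h]
    rw [this, zero_mul]
  have hp2 : ∀ i j, j ≤ i → L_RatCurve_ev (p i) (g j).1 ≠ 0 := by
    intro i j hji h
    apply hp i
    rw [map_mul, map_prod]
    have : ∏ j ∈ Finset.range (i + 1), L_RatCurve_ev (p i) (g j).1 = 0 :=
      Finset.prod_eq_zero (Finset.mem_range.2 (by omega)) h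
    rw [this, mul_zero]
  let M : ℕ → ℂˣ := fun i => Units.mk0 (p i).1 (hEigNe P (p i) (hpE i)).1
  let L : ℕ → ℂˣ := fun i => Units.mk0 (p i).2 (hEigNe P (p i) (hpE i)).2
  have hD := hP M L (fun i => hpE i) (fun i => hp1 i)
  have hcz := L_RatCurve_charZero
  have hdep := hDepJac pf (Gm ℂ) (gu M : Gm ℂ) (gu L : Gm ℂ) hD
  obtain ⟨f, hf, hfi⟩ := hPfRel (fun i => (p i).1) (fun i => (p i).2) hdep
  obtain ⟨j, hj⟩ := hg ⟨f, hf⟩
  have hfin : {i : ℕ | i < j}.Finite := Set.finite_lt_nat j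
  have hco : ∀ᶠ i in (hyperfilter ℕ : Filter ℕ), ¬ i < j :=
    hfin.compl_mem_hyperfilter
  obtain ⟨i, h1, h2⟩ := (hfi.and hco).exists
  have h3 := hp2 i j (not_lt.1 h2)
  rw [hj] at h3
  exact h3 h1

end AJM

end

section

/-!
# MP_d3fa71_gt, project Mut: item SpreadInf
-/

open Filter Polynomial

namespace AJM

open AJG (PGroup EigSet Zcl ZeroSet IsAPoly IsEig)

/-- the value of a complex polynomial at a germ -/
theorem L_SpreadInf_aeval (m : ℕ → ℂ) (Q : ℂ[X]) :
    aeval (gm ℂ m) Q = gm ℂ (fun i => Q.eval (m i)) := by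
  have h1 : aeval (gm ℂ m) Q = eval₂ ((gm ℂ).comp (Pi.constRingHom ℕ ℂ)) (gm ℂ m) Q := rfl
  rw [h1, ← Polynomial.hom_eval₂]
  congr 1
  funext i
  have h2 : (eval₂ (Pi.constRingHom ℕ ℂ) m Q) i =
      Pi.evalRingHom (fun _ : ℕ => ℂ) i (eval₂ (Pi.constRingHom ℕ ℂ) m Q) := rfl
  rw [h2, Polynomial.hom_eval₂]
  rfl

/-- a germ which vanishes -/
theorem L_SpreadInf_zero (f : ℕ → ℂ) (h : gm ℂ f = 0) :
    {i | f i = 0} ∈ (hyperfilter ℕ : Filter ℕ) := by
  have h1 : ((f : ℕ → ℂ) : Germ (hyperfilter ℕ : Filter ℕ) ℂ) = ((0 : ℕ → ℂ) : Germ _ ℂ) := h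
  exact Filter.Germ.coe_eq.1 h1

/-- germs of injective sequences are transcendental over the constants -/
theorem L_SpreadInf_trans (m : ℕ → ℂ) (hm : Function.Injective m) :
    Transcendental ℂ (gm ℂ m) := by
  rw [transcendental_iff]
  intro Q hQ
  rw [L_SpreadInf_aeval] at hQ
  have h1 := L_SpreadInf_zero _ hQ
  have h2 : {i | Q.eval (m i) = 0}.Infinite := by
    intro hfin
    exact Set.Finite.notMem_hyperfilter hfin h1
  refine Polynomial.eq_zero_of_infinite_isRoot Q ?_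
  refine (h2.image hm.injOn).mono ?_
  rintro _ ⟨i, hi, rfl⟩
  exact hi

theorem prf_SpreadInf (hEigGerm : EigGerm) (hEigMap : EigMap) (hEigFC : EigFC)
    (hEigNe : EigNe) : SpreadInf := by
  intro P e N he hinf
  have _ := hEigFC
  let φ := Set.Infinite.natEmbedding _ hinf
  let m : ℕ → ℂ := fun i => (φ i : ℂ)
  have hm : Function.Injective m := fun i j hij => φ.injective (Subtype.ext hij)
  have hmem : ∀ i, (m i, (e : ℂ) * m i ^ N) ∈ EigSet P := fun i => (φ i).2
  have hne : ∀ i, m i ≠ 0 := fun i => (hEigNe P _ (hmem i)).1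
  let u : ℕ → ℂˣ := fun i => Units.mk0 (m i) (hne i)
  have h1 := hEigGerm P m (fun i => (e : ℂ) * m i ^ N) hmem
  have h2 := hEigMap P (Gm ℂ) FF (algebraMap (Gm ℂ) FF) _ h1
  refine ⟨Units.map (algebraMap (Gm ℂ) FF).toMonoidHom (gu u), ?_, ?_⟩
  · have h3 : ((Units.map (algebraMap (Gm ℂ) FF).toMonoidHom (gu u) : FFˣ) : FF) =
        algebraMap (Gm ℂ) FF (gm ℂ m) := rfl
    rw [h3, transcendental_algebraMap_iff (algebraMap (Gm ℂ) FF).injective]
    exact L_SpreadInf_trans m hm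
  · have h4 : ((Units.map (algebraMap (Gm ℂ) FF).toMonoidHom (gu u) : FFˣ) : FF) =
        algebraMap (Gm ℂ) FF (gm ℂ m) := rfl
    have h5 : gm ℂ (fun i => (e : ℂ) * m i ^ N) = (e : Gm ℂ) * ((gu u ^ N : (Gm ℂ)ˣ) : Gm ℂ) := by
      rw [← LoopX.gu_zpow u N, LoopX.gu_coe]
      have h6 : (fun i => (e : ℂ) * m i ^ N) =
          ((e : ℤ) : ℕ → ℂ) * (fun i => ((u i ^ N : ℂˣ) : ℂ)) := by
        funext i
        rw [Pi.mul_apply, Pi.intCast_apply, Units.val_zpow_eq_zpow_val]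
        rfl
      rw [h6, map_mul, map_intCast]
    have h7 : (e : FF) * (((Units.map (algebraMap (Gm ℂ) FF).toMonoidHom (gu u)) ^ N : FFˣ) : FF) =
        algebraMap (Gm ℂ) FF (gm ℂ (fun i => (e : ℂ) * m i ^ N)) := by
      rw [h5, map_mul, map_intCast, ← map_zpow]
      rfl
    rw [h7, h4]
    exact h2

end AJM

end

section

/-!
# MP_d3fa71_gt, project Mut: statements of block Y (from groups to paths, final assembly)
-/

open Filter Polynomial

namespace AJM

open AJG (PGroup EigSet Zcl ZeroSet IsAPoly IsEig)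

/-- The eigenvalue pairs over a field. -/
def EigFES : Prop :=
  ∀ (F : Type) [Field F] (w : List Mv) (e : ℤ) (m l : Fˣ), IsKnot ((.cup, 0) :: w) e →
    (((m : F), (l : F)) ∈ EigF (KG ((.cup, 0) :: w) e) F ↔ ESp w e m l)

/-- The knot group is finitely generated. -/
def KGFG : Prop := ∀ (w : List Mv) (e : ℤ), Group.FG (KG w e).G

/-- Isotropy for knot groups. -/
def DimKG : Prop :=
  ∀ (w : List Mv) (e : ℤ), IsKnot ((.cup, 0) :: w) e → DimH (KG ((.cup, 0) :: w) e)

/-- Closed paths with monomial defect give infinitely many eigenvalue pairs on `F`. -/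
def KSide : Prop :=
  ∀ (w : List Mv) (e N : ℤ), IsKnot ((.cup, 0) :: w) e →
    (∃ B : Finset ℂ, ∀ M : ℂˣ, (M : ℂ) ∉ B → Path M ((.cup, 0) :: w) [] [] (M ^ N)) →
    ∃ s : ℤ, (s = 1 ∨ s = -1) ∧
      Set.Infinite {m : ℂ | (m, (s : ℂ) * m ^ (N - e)) ∈ EigSet (KG ((.cup, 0) :: w) e)}

/-- Without generic closed paths there are only finitely many eigenvalue pairs on `F`. -/
def KSide' : Prop :=
  ∀ (w : List Mv) (e N s : ℤ), IsKnot ((.cup, 0) :: w) e → (s = 1 ∨ s = -1) →
    ¬ SS FF ((.cup, 0) :: w) N →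
    Set.Finite {m : ℂ | (m, (s : ℂ) * m ^ (N - e)) ∈ EigSet (KG ((.cup, 0) :: w) e)}

end AJM

end

section

/-!
# MP_d3fa71_gt, project Mut: the final statement from the blocks
-/

open Filter Polynomial

namespace AJM

theorem prf_Final (hKNeg : KNeg) (hKPos : KPos) (hQ : QFinal) (hJ : AJH.JKill)
    (hN : ∀ (f : ℕ → RatFunc ℚ) (γ : Polynomial AJG.R2), γ ≠ 0 → AJG.Kills γ f →
      ∃ α, AJG.IsNCA f α)
    (hAEx : AEx) (hFG : KGFG) (hDim : DimKG) (hK : KSide) (hK' : KSide') (hIrr : FIrr)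
    (hDiv : FDivOf) (hNDiv : FNDivOf) : Final := by
  obtain ⟨k, j', j, n, h1, h2, -, hneg⟩ := hKNeg FF
  obtain ⟨B, hB⟩ := hKPos k j' j n h1 h2
  obtain ⟨e, hO, hO', hW, hW', hJJ⟩ := hQ k j' j n
  set v : Fin 7 → List Mv := fun i => Vg (j' i) (j i) (n i) with hv
  set N : ℤ := -12 - 6 * (k : ℤ) + ∑ i, (2 * (j' i : ℤ) + 2 * j i + 2 * n i + 2) with hNN
  have hkn : IsKnot (Kw k v) e := ⟨hO, (hW e).2 rfl⟩
  have hkn' : IsKnot (Kw' k v) e := ⟨hO', (hW' e).2 rfl⟩
  obtain ⟨u, hu⟩ : ∃ u, Kw k v = (.cup, 0) :: u := ⟨_, rfl⟩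
  obtain ⟨u', hu'⟩ : ∃ u', Kw' k v = (.cup, 0) :: u' := ⟨_, rfl⟩
  have hA : ∃ A, AJG.IsAPoly (KG (Kw k v) e) A := by
    refine hAEx _ (hFG _ _) ?_
    rw [hu] at hkn ⊢
    exact hDim u e hkn
  have hA' : ∃ A, AJG.IsAPoly (KG (Kw' k v) e) A := by
    refine hAEx _ (hFG _ _) ?_
    rw [hu'] at hkn' ⊢
    exact hDim u' e hkn'
  obtain ⟨γ, hγ, hγk⟩ := hJ (Kw k v) e
  have hα : ∃ α, AJG.IsNCA (Jc (Kw k v) e) α := hN _ γ hγ hγk
  obtain ⟨s, hs, hinf⟩ : ∃ s : ℤ, (s = 1 ∨ s = -1) ∧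
      Set.Infinite {m : ℂ | (m, (s : ℂ) * m ^ (N - e)) ∈ AJG.EigSet (KG (Kw k v) e)} := by
    rw [hu] at hkn hB ⊢
    exact hK u e N hkn ⟨B, hB⟩
  have hfin : Set.Finite {m : ℂ | (m, (s : ℂ) * m ^ (N - e)) ∈ AJG.EigSet (KG (Kw' k v) e)} := by
    rw [hu'] at hkn' hneg ⊢
    exact hK' u' e N s hkn' hs hneg
  have hd : ∀ A, AJG.IsAPoly (KG (Kw k v) e) A → FNe s (N - e) ∣ A := fun A hA =>
    hDiv _ A s (N - e) hs hA hinf
  have hnd : ∀ A, AJG.IsAPoly (KG (Kw' k v) e) A → ¬ FNe s (N - e) ∣ A := fun A hA =>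
    hNDiv _ A s (N - e) hs hA hfin
  obtain ⟨hirr, hdeg⟩ := hIrr s (N - e) hs
  refine ⟨Kw k v, Kw' k v, e, hkn, hkn', fun m => by rw [hJJ], hA, hA', hα,
    ⟨FNe s (N - e), hirr, by omega, hd, hnd⟩, ?_⟩
  by_contra hcon
  push Not at hcon
  obtain ⟨hAJ, hAJ'⟩ := hcon
  obtain ⟨A, hA⟩ := hA
  obtain ⟨A', hA'⟩ := hA'
  obtain ⟨α, hα⟩ := hα
  have h1 := (hAJ A α hA hα (FNe s (N - e)) hirr (by omega)).2 (hd A hA)
  have h2 := (hAJ' A' α hA' (hJJ ▸ hα) (FNe s (N - e)) hirr (by omega)).1 h1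
  exact hnd A' hA' h2

end AJM

end

section

/-!
# MP_d3fa71_gt, project Mut: assembly of block X (A-polynomials)
-/

namespace AJM

theorem FIrr_holds : FIrr := prf_FIrr
theorem FEval_holds : FEval := prf_FEval
theorem FDvd_holds : FDvd := prf_FDvd
theorem EigNe_holds : EigNe := prf_EigNe
theorem FDivOf_holds : FDivOf := prf_FDivOf EigNe_holds FDvd_holds
theorem FNDivOf_holds : FNDivOf := prf_FNDivOf EigNe_holds FDvd_holds FEval_holds FIrr_holds
theorem IntExt_holds : IntExt := prf_IntExt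
theorem HomExt1_holds : HomExt1 := prf_HomExt1 IntExt_holds
theorem HomExt_holds : HomExt := prf_HomExt HomExt1_holds
theorem FinInter_holds : FinInter := prf_FinInter
theorem NoIso_holds : NoIso := prf_NoIso FinInter_holds
theorem ClosedFin_holds : ClosedFin := prf_ClosedFin
theorem EigFC_holds : EigFC := prf_EigFC
theorem EigGerm_holds : EigGerm := prf_EigGerm
theorem EigMap_holds : EigMap := prf_EigMap
theorem PfRel_holds : PfRel := prf_PfRel
theorem RatCurve_holds : RatCurve := prf_RatCurve EigNe_holds prf_DepJac PfRel_holds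
theorem SpreadInf_holds : SpreadInf :=
  prf_SpreadInf EigGerm_holds EigMap_holds EigFC_holds EigNe_holds

/-- Existence of the A-polynomial, from `CurveInf`. -/
theorem AEx_of (hCurveInf : CurveInf) : AEx :=
  prf_AEx RatCurve_holds hCurveInf NoIso_holds ClosedFin_holds EigNe_holds

theorem CurveInf_holds : CurveInf :=
  prf_CurveInf EigNe_holds EigFC_holds EigGerm_holds HomExt_holds FinInter_holds

/-- Existence of the A-polynomial. -/
theorem AEx_holds : AEx := AEx_of CurveInf_holds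

end AJM

end

section

/-!
# MP_d3fa71_gt, project Mut: item DimKG
-/

open Filter

namespace AJM

/-- The logarithmic derivative of a product with a power. -/
theorem L_DimKG_log {k L : Type} [Field k] [Field L] [Algebra k L] (D : Derivation k L L)
    {x y : L} (hx : x ≠ 0) (hy : y ≠ 0) (n : ℤ) :
    D (x * y ^ n) / (x * y ^ n) = D x / x + n * (D y / y) := by
  have h1 := LoopX.log_zpow D hy n
  have h2 : y ^ n ≠ 0 := zpow_ne_zero _ hy
  rw [← h1, Derivation.leibniz, smul_eq_mul, smul_eq_mul]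
  field_simp
  ring

theorem prf_DimKG (hEigFC : EigFC) (hEigFES : EigFES) (hEStoP : EStoP) (hGermPath : GermPath)
    (hPathEmb : PathEmb) (hIso : Iso) : DimKG := by
  intro w e hk M L hML hM2 D D'
  have h1 : ∀ i, ∃ τ : ℂˣ, (τ = L i * M i ^ e ∨ τ = -(L i * M i ^ e)) ∧
      Path (M i) ((.cup, 0) :: w) [] [] τ := by
    intro i
    have h2 := hML i
    rw [← hEigFC] at h2
    exact hEStoP ℂ w e (M i) (L i) hk (hM2 i) ((hEigFES ℂ w e (M i) (L i) hk).mp h2)
  choose τ hτ hP using h1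
  have h3 := hGermPath ℂ (emb ((.cup, 0) :: w)) M τ 0 (fun j => Fin.elim0 j) (fun i => by
    rw [List.ofFn_zero]
    exact (hPathEmb ℂ (M i) _ [] [] (τ i)).mp (hP i))
  rw [List.ofFn_zero] at h3
  have : CharZero (Gm ℂ) := LoopX.charZeroGm
  have h4 := hIso pf (Gm ℂ) D D' (gu M) _ (gu τ) _ h3
  rw [List.map_nil, List.sum_nil] at h4
  have hMn : (gu M : Gm ℂ) ≠ 0 := (gu M).ne_zero
  have hLn : (gu L : Gm ℂ) ≠ 0 := (gu L).ne_zero
  have hτn : (gu τ : Gm ℂ) ≠ 0 := (gu τ).ne_zero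
  have hsq : (gu τ : Gm ℂ) ^ 2 = ((gu L : Gm ℂ) * (gu M : Gm ℂ) ^ e) ^ 2 := by
    have e1 : gu (fun i => M i ^ e) = gu M ^ e := LoopX.gu_zpow M e
    have e2 : ((gu M : Gm ℂ)) ^ e = gm ℂ (fun i => ((M i ^ e : ℂˣ) : ℂ)) := by
      rw [← Units.val_zpow_eq_zpow_val, ← e1]
      rfl
    rw [e2, LoopX.gu_coe, LoopX.gu_coe, ← map_mul, ← map_pow, ← map_pow]
    congr 1
    funext i
    simp only [Pi.pow_apply, Pi.mul_apply]
    rcases hτ i with h | h
    · rw [h, Units.val_mul]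
    · rw [h, Units.val_neg, neg_sq, Units.val_mul]
  have key : ∀ E : Derivation pf (Gm ℂ) (Gm ℂ), E (gu τ : Gm ℂ) / (gu τ : Gm ℂ) =
      E (gu L : Gm ℂ) / (gu L : Gm ℂ) + e * (E (gu M : Gm ℂ) / (gu M : Gm ℂ)) := by
    intro E
    rw [L_DlogSq_field E hτn (mul_ne_zero hLn (zpow_ne_zero _ hMn)) hsq]
    exact L_DimKG_log E hLn hMn e
  unfold dl at h4
  rw [key D, key D'] at h4
  have h5 : D (gu L : Gm ℂ) / (gu L : Gm ℂ) * (D' (gu M : Gm ℂ) / (gu M : Gm ℂ)) -
      D' (gu L : Gm ℂ) / (gu L : Gm ℂ) * (D (gu M : Gm ℂ) / (gu M : Gm ℂ)) = 0 := by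
    rw [h4]
    ring
  have h6 := LoopX.of_dl D D' hLn hMn h5
  rw [mul_comm, ← h6, mul_comm]

end AJM

end

section

/-!
# MP_d3fa71_gt, project Mut, block Y: EigFES
-/

namespace AJM

section
variable {F : Type} [Field F]

/-- `x` is upper triangular with first entry `a`. -/
def L_EigFES_T (x : G F) (a : Fˣ) : Prop := x.1 0 0 = (a : F) ∧ x.1 1 0 = 0

theorem L_EigFES_mul {x y : G F} {a b : Fˣ} (hx : L_EigFES_T x a) (hy : L_EigFES_T y b) :
    L_EigFES_T (x * y) (a * b) := by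
  refine ⟨?_, ?_⟩
  · rw [G_mul00, hx.1, hy.1, hy.2, mul_zero, add_zero, Units.val_mul]
  · rw [G_mul10, hx.2, hy.2, zero_mul, mul_zero, add_zero]

theorem L_EigFES_inv {x : G F} {a : Fˣ} (hx : L_EigFES_T x a) : L_EigFES_T x⁻¹ a⁻¹ := by
  refine ⟨?_, ?_⟩
  · rw [G_inv00]
    have hd := G_det x
    rw [hx.1, hx.2, mul_zero, sub_zero] at hd
    rw [Units.val_inv_eq_inv_val]
    exact eq_inv_of_mul_eq_one_right hd
  · rw [G_inv10, hx.2, neg_zero]

theorem L_EigFES_one : L_EigFES_T (1 : G F) 1 := by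
  refine ⟨?_, ?_⟩ <;> simp

theorem L_EigFES_npow {x : G F} {a : Fˣ} (hx : L_EigFES_T x a) (n : ℕ) :
    L_EigFES_T (x ^ n) (a ^ n) := by
  induction n with
  | zero => rw [pow_zero, pow_zero]; exact L_EigFES_one
  | succ n ih => rw [pow_succ, pow_succ]; exact L_EigFES_mul ih hx

theorem L_EigFES_zpow {x : G F} {a : Fˣ} (hx : L_EigFES_T x a) (n : ℤ) :
    L_EigFES_T (x ^ n) (a ^ n) := by
  cases n with
  | ofNat n =>
    rw [Int.ofNat_eq_natCast, zpow_natCast, zpow_natCast]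
    exact L_EigFES_npow hx n
  | negSucc n =>
    rw [zpow_negSucc, zpow_negSucc]
    exact L_EigFES_inv (L_EigFES_npow hx _)

theorem L_EigFES_iff (x : G F) (a : Fˣ) :
    L_EigFES_T x a ↔ Matrix.mulVec x.1 ![1, 0] = (a : F) • ![1, 0] := by
  constructor
  · rintro ⟨h0, h1⟩
    ext i
    fin_cases i
    · simp [Matrix.mulVec, dotProduct, Fin.sum_univ_two, h0]
    · simp [Matrix.mulVec, dotProduct, Fin.sum_univ_two, h1]
  · intro h
    refine ⟨?_, ?_⟩
    · have := congrFun h 0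
      simpa [Matrix.mulVec, dotProduct, Fin.sum_univ_two] using this
    · have := congrFun h 1
      simpa [Matrix.mulVec, dotProduct, Fin.sum_univ_two] using this

theorem L_EigFES_ex (w : Fin 2 → F) (hw : w ≠ 0) :
    ∃ P : G F, Matrix.mulVec P.1 ![1, 0] = w := by
  by_cases h : w 0 = 0
  · have h1 : w 1 ≠ 0 := by
      intro h1
      apply hw
      ext i
      fin_cases i
      · exact h
      · exact h1
    refine ⟨⟨!![w 0, -(w 1)⁻¹; w 1, 0], ?_⟩, ?_⟩
    · rw [Matrix.det_fin_two_of, mul_zero, zero_sub, neg_mul, neg_neg, inv_mul_cancel₀ h1]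
    · ext i
      fin_cases i <;> simp [Matrix.mulVec, dotProduct, Fin.sum_univ_two]
  · refine ⟨⟨!![w 0, 0; w 1, (w 0)⁻¹], ?_⟩, ?_⟩
    · rw [Matrix.det_fin_two_of, zero_mul, sub_zero, mul_inv_cancel₀ h]
    · ext i
      fin_cases i <;> simp [Matrix.mulVec, dotProduct, Fin.sum_univ_two]

theorem L_EigFES_conj {x P : G F} {a : Fˣ} {w : Fin 2 → F}
    (hP : Matrix.mulVec P.1 ![1, 0] = w) (hx : Matrix.mulVec x.1 w = (a : F) • w) :
    L_EigFES_T (P⁻¹ * x * P) a := by
  rw [L_EigFES_iff]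
  have h1 : (P⁻¹ : G F).1 * P.1 = 1 := by
    have : (P⁻¹ * P : G F).1 = (1 : G F).1 := by rw [inv_mul_cancel]
    rwa [G_mul, G_one] at this
  rw [G_mul, G_mul, ← Matrix.mulVec_mulVec, ← Matrix.mulVec_mulVec, hP, hx,
    Matrix.mulVec_smul, ← hP, Matrix.mulVec_mulVec, h1, Matrix.one_mulVec]

end

theorem prf_EigFES (hKGHom : KGHom) : EigFES := by
  intro F _ w e m l hk
  constructor
  · rintro ⟨ρ, w₀, hw₀, hm, hl⟩
    obtain ⟨P, hP⟩ := L_EigFES_ex w₀ hw₀
    have h := (hKGHom (G F) w e (P⁻¹ * ρ (KG ((.cup, 0) :: w) e).mer * P)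
      ((P⁻¹ * ρ (KG ((.cup, 0) :: w) e).lon * P) *
        (P⁻¹ * ρ (KG ((.cup, 0) :: w) e).mer * P) ^ e) hk).1
      ⟨(MulAut.conj P⁻¹).toMonoidHom.comp ρ, by simp, by
        rw [mul_assoc _ _ (_ ^ (-e)), ← zpow_add, add_neg_cancel, zpow_zero, mul_one]
        simp⟩
    have tm : L_EigFES_T (P⁻¹ * ρ (KG ((.cup, 0) :: w) e).mer * P) m := L_EigFES_conj hP hm
    have tl : L_EigFES_T (P⁻¹ * ρ (KG ((.cup, 0) :: w) e).lon * P) l := L_EigFES_conj hP hl
    have tn := L_EigFES_mul tl (L_EigFES_zpow tm e)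
    refine ⟨_, _, tm.2, tn.2, tm.1, ?_, h⟩
    rw [tn.1, Units.val_mul]
  · rintro ⟨μ, ν, h10, n10, h00, n00, hp⟩
    obtain ⟨ρ, hρm, hρl⟩ := (hKGHom (G F) w e μ ν hk).2 hp
    have tm : L_EigFES_T μ m := ⟨h00, h10⟩
    have tn : L_EigFES_T ν (l * m ^ e) := ⟨by rw [n00, Units.val_mul], n10⟩
    have tl : L_EigFES_T (ν * μ ^ (-e)) l := by
      have := L_EigFES_mul tn (L_EigFES_zpow tm (-e))
      rwa [mul_assoc, ← zpow_add, add_neg_cancel, zpow_zero, mul_one] at this
    refine ⟨ρ, ![1, 0], ?_, ?_, ?_⟩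
    · intro h
      have := congrFun h 0
      simp at this
    · rw [hρm]
      exact (L_EigFES_iff μ m).1 tm
    · rw [hρl]
      exact (L_EigFES_iff _ l).1 tl

end AJM

end

section

/-!
# MP_d3fa71_gt, project Mut, item KGFG: the knot group is finitely generated
-/

namespace AJM

theorem L_KGFG_fg (w : List Mv) : Group.FG (PresentedGroup (krel w)) := by
  rw [Group.fg_iff]
  refine ⟨(fun p : ℕ × Bool => (PresentedGroup.of p : PresentedGroup (krel w))) ''
    (Set.Iio w.length ×ˢ Set.univ), ?_,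
    Set.Finite.image _ ((Set.finite_Iio _).prod Set.finite_univ)⟩
  rw [eq_top_iff, ← PresentedGroup.closure_range_of, Subgroup.closure_le]
  rintro _ ⟨⟨c, b⟩, rfl⟩
  rcases lt_or_ge c w.length with h | h
  · exact Subgroup.subset_closure ⟨(c, b), ⟨h, Set.mem_univ _⟩, rfl⟩
  · have h1 : (PresentedGroup.of (c, b) : PresentedGroup (krel w)) = 1 := by
      apply PresentedGroup.one_of_mem
      refine Or.inr ⟨c, b, fun i => ?_, rfl⟩
      rw [List.getElem?_eq_none h]
      simp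
    rw [h1]
    exact one_mem _

theorem prf_KGFG : KGFG := fun w _ => L_KGFG_fg w

end AJM

end

section

/-!
# MP_d3fa71_gt, project Mut, item KSide
-/

set_option autoImplicit false

open Filter Polynomial

namespace AJM

open AJG (PGroup EigSet Zcl ZeroSet IsAPoly IsEig)

theorem L_KSide_val (M : ℂˣ) (N e : ℤ) :
    ((M ^ N * M ^ (-e) : ℂˣ) : ℂ) = (M : ℂ) ^ (N - e) := by
  rw [← zpow_add, ← sub_eq_add_neg, Units.val_zpow_eq_zpow_val]

theorem prf_KSide (hPtoES : PtoES) (hEigFES : EigFES) (hEigFC : EigFC) : KSide := by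
  intro w e N hK hB
  obtain ⟨B, hB⟩ := hB
  set A : ℤ → Set ℂ := fun s =>
    {m : ℂ | (m, (s : ℂ) * m ^ (N - e)) ∈ EigSet (KG ((.cup, 0) :: w) e)} with hA
  have hsub : ((B : Set ℂ) ∪ {0})ᶜ ⊆ A 1 ∪ A (-1) := by
    intro m hm
    have hmB : m ∉ B := fun h => hm (Or.inl h)
    have hm0 : m ≠ 0 := fun h => hm (Or.inr h)
    set M : ℂˣ := Units.mk0 m hm0 with hM
    have hMv : (M : ℂ) = m := rfl
    have hp := hB M hmB
    rcases hPtoES ℂ w e M (M ^ N) hK hp with h | h
    · left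
      have h1 := (hEigFES ℂ w e M _ hK).mpr h
      rw [hEigFC, L_KSide_val, hMv] at h1
      show (m, ((1 : ℤ) : ℂ) * m ^ (N - e)) ∈ EigSet _
      rw [Int.cast_one, one_mul]
      exact h1
    · right
      have h1 := (hEigFES ℂ w e M _ hK).mpr h
      rw [hEigFC, Units.val_neg, L_KSide_val, hMv] at h1
      show (m, ((-1 : ℤ) : ℂ) * m ^ (N - e)) ∈ EigSet _
      rw [Int.cast_neg, Int.cast_one, neg_one_mul]
      exact h1
  have hinf : (A 1 ∪ A (-1)).Infinite :=
    Set.Infinite.mono hsub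
      (Set.Finite.infinite_compl (B.finite_toSet.union (Set.finite_singleton 0)))
  rcases Set.infinite_union.mp hinf with h | h
  · exact ⟨1, Or.inl rfl, h⟩
  · exact ⟨-1, Or.inr rfl, h⟩

end AJM

end

section

namespace AJM

theorem prf_KSide2 (hSpreadInf : SpreadInf) (hEigFES : EigFES) (hEStoP : EStoP) : KSide' := by
  intro w e N s hK hs hSS
  by_contra hinf
  have hinf' : Set.Infinite {m : ℂ |
      (m, (s : ℂ) * m ^ (N - e)) ∈ AJG.EigSet (KG ((.cup, 0) :: w) e)} := hinf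
  obtain ⟨M, hM, hE⟩ := hSpreadInf _ s (N - e) hs hinf'
  obtain ⟨l, hl, hl'⟩ : ∃ l : FFˣ, (l : FF) = (s : FF) * ((M ^ (N - e) : FFˣ) : FF) ∧
      (l = M ^ (N - e) ∨ l = -M ^ (N - e)) := by
    rcases hs with rfl | rfl
    · exact ⟨M ^ (N - e), by simp, Or.inl rfl⟩
    · exact ⟨-M ^ (N - e), by simp, Or.inr rfl⟩
  rw [← hl] at hE
  have hES := (hEigFES FF w e M l hK).1 hE
  have hM2 : (M : FF) ^ 2 ≠ 1 := by
    intro h
    apply hM
    refine ⟨Polynomial.X ^ 2 - 1, ?_, by simp [h]⟩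
    exact Polynomial.X_pow_sub_C_ne_zero two_pos (1 : ℂ)
  obtain ⟨τ, hτ, hP⟩ := hEStoP FF w e M l hK hM2 hES
  apply hSS
  refine ⟨M, hM, τ, ?_, hP⟩
  have hpow : M ^ (N - e) * M ^ e = M ^ N := by rw [← zpow_add]; simp
  rcases hl' with rfl | rfl <;> rcases hτ with rfl | rfl
  · left; exact hpow
  · right; rw [hpow]
  · right; rw [neg_mul, hpow]
  · left; rw [neg_mul, hpow, neg_neg]

end AJM

end
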